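import Pool.Agent.ZPB.Place
import Pool.Agent.Hhelper14.ZPL.KClosed
import Pool.Agent.Hhelper14.ZP.Gen

/-!
# Module BR6: the function field of an irreducible curve in `ℂⁿ`

`K` = fraction field of `R = ℂ[X]/I(V)`, a domain; `π` = the natural map; `π F = 0` iff `F ∈ I(V)` iff `F` vanishes on `V`.
`IsCF.fg`: `K` is generated by the `π X_i`. `IsCF.dep`: the Krull dimension of `R` is one, so its transcendence degree over `ℂ`, and that of `K`, is
one (`krull_eq_card` in `ZP/Alg.lean`, `exists_basis` in `ZP/Gen.lean`), so two elements of `K` are not algebraically independent.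
Finiteness: let `F` not vanish on `V`. `V ∩ {F = 0}` is closed (`closed_inter`, `closed_zeroLocus`), so it has finitely many components `D`
(`exists_components`, `ZPL/Dim.lean`, which also says that every irreducible closed subset, e.g. every point (`irredClosed_singleton`), is contained in
one of them). `D ⊂ V` is proper, `dim D < 1` (`dim_lt`), so `D` is one point (`one_le_dim`).
-/

namespace Pool.Agent.ZPB

open MvPolynomial Pool.Agent.Hhelper14.ZPL

/-- an algebraic element over `ℂ` is a constant -/
theorem trans_or_const {K : Type} [Field K] [Algebra ℂ K] (x : K) :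
    Transcendental ℂ x ∨ ∃ c : ℂ, x = algebraMap ℂ K c := by
  by_cases h : IsAlgebraic ℂ x
  · right
    have hint : IsIntegral ℂ x := h.isIntegral
    have h1 : (minpoly ℂ x).degree = 1 :=
      IsAlgClosed.degree_eq_one_of_irreducible ℂ (minpoly.irreducible hint)
    obtain ⟨c, hc⟩ := minpoly.mem_range_of_degree_eq_one ℂ x h1
    exact ⟨c, hc.symm⟩
  · exact Or.inl h

private theorem finite_zeros {n : ℕ} {V : Set (Fin n → ℂ)} (hV : IsIrredClosed V)
    (hdim : dim V = 1) {F : MvPolynomial (Fin n) ℂ} (hF : ¬ ∀ x ∈ V, eval x F = 0) :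
    {x ∈ V | eval x F = 0}.Finite := by
  classical
  have hX : {x ∈ V | eval x F = 0} = V ∩ zeroLocus ℂ (Ideal.span {F}) := by
    ext x
    simp only [Set.mem_ofPred_eq, Set.mem_inter_iff, mem_zeroLocus_iff]
    refine and_congr_right fun _ => ?_
    constructor
    · intro h p hp
      obtain ⟨q, rfl⟩ := Ideal.mem_span_singleton'.mp hp
      rw [map_mul]
      have h2 : (aeval x F : ℂ) = eval x F := by
        rw [aeval_eq_eval]
      rw [h2, h, mul_zero]
    · intro h
      have h1 := h F (Ideal.mem_span_singleton_self F)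
      rw [aeval_eq_eval] at h1
      exact h1
  have hcl : IsZClosed ({x ∈ V | eval x F = 0} : Set (Fin n → ℂ)) := by
    rw [hX]
    exact closed_inter hV.2 (closed_zeroLocus _)
  obtain ⟨Fs, hFs, hcov⟩ := exists_components hcl
  have hsub : ∀ D ∈ Fs, D.Subsingleton := by
    intro D hD x hx y hy
    by_contra hxy
    obtain ⟨hDi, hDX, -⟩ := hFs D hD
    have h1 : (1 : WithBot ℕ∞) ≤ dim D := one_le_dim hDi hx hy hxy
    have h2 : D ⊂ V := by
      refine ⟨fun z hz => (hDX hz).1, fun h => hF fun z hz => (hDX (h hz)).2⟩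
    have h3 := dim_lt hDi hV h2
    rw [hdim] at h3
    exact absurd h3 (not_lt.mpr h1)
  refine (Set.Finite.biUnion Fs.finite_toSet (t := fun D => D)
    (fun D hD => (hsub D hD).finite)).subset ?_
  intro x hx
  obtain ⟨D, hD, hxD⟩ := hcov {x} (irredClosed_singleton x) (Set.singleton_subset_iff.mpr hx)
  exact Set.mem_biUnion (Finset.mem_coe.mpr hD) (Set.singleton_subset_iff.mp hxD)

theorem exists_fun {n : ℕ} {V : Set (Fin n → ℂ)} (hV : IsIrredClosed V) (hdim : dim V = 1) :
    ∃ (K : Type) (_ : Field K) (_ : Algebra ℂ K) (π : MvPolynomial (Fin n) ℂ →ₐ[ℂ] K), IsCF K ∧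
      (∀ F, π F = 0 ↔ ∀ x ∈ V, eval x F = 0) ∧
      ∀ F, π F ≠ 0 → {x ∈ V | eval x F = 0}.Finite := by
  classical
  have hP : (vanishingIdeal ℂ V : Ideal (MvPolynomial (Fin n) ℂ)).IsPrime := hV.1
  let P : Ideal (MvPolynomial (Fin n) ℂ) := vanishingIdeal ℂ V
  let R := MvPolynomial (Fin n) ℂ ⧸ P
  let K := FractionRing R
  let π : MvPolynomial (Fin n) ℂ →ₐ[ℂ] K :=
    (IsScalarTower.toAlgHom ℂ R K).comp (Ideal.Quotient.mkₐ ℂ P)
  have hπ : ∀ F, π F = algebraMap R K (Ideal.Quotient.mk P F) := fun F => rfl
  have hinj : Function.Injective (algebraMap R K) := IsFractionRing.injective R K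
  have hzero : ∀ F, π F = 0 ↔ ∀ x ∈ V, eval x F = 0 := by
    intro F
    rw [hπ, map_eq_zero_iff _ hinj, Ideal.Quotient.eq_zero_iff_mem]
    have h1 : F ∈ P ↔ ∀ x ∈ V, (aeval x F : ℂ) = 0 := mem_vanishingIdeal_iff
    rw [h1]
    refine forall₂_congr fun x _ => ?_
    rw [aeval_eq_eval]
  refine ⟨K, inferInstance, inferInstance, π, ⟨?_, ?_⟩, hzero, ?_⟩
  · -- finitely generated
    refine ⟨Finset.univ.image fun i => π (X i), ?_⟩
    rw [eq_top_iff]
    have hmem : ∀ F, π F ∈ IntermediateField.adjoin ℂ
        ((Finset.univ.image fun i => π (X i) : Finset K) : Set K) := by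
      intro F
      induction F using MvPolynomial.induction_on with
      | C r =>
        have h1 : π (C r) = algebraMap ℂ K r := π.commutes r
        rw [h1]
        exact IntermediateField.algebraMap_mem _ r
      | add p q hp hq =>
        rw [map_add]
        exact add_mem hp hq
      | mul_X p i hp =>
        rw [map_mul]
        refine mul_mem hp (IntermediateField.subset_adjoin _ _ ?_)
        simp only [Finset.coe_image, Finset.coe_univ, Set.image_univ]
        exact ⟨i, rfl⟩
    intro k _
    obtain ⟨a, b, -, rfl⟩ := IsFractionRing.div_surjective (A := R) k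
    obtain ⟨a, rfl⟩ := Ideal.Quotient.mk_surjective a
    obtain ⟨b, rfl⟩ := Ideal.Quotient.mk_surjective b
    exact div_mem (hmem a) (hmem b)
  · -- transcendence degree one
    intro x y
    obtain ⟨I, hI⟩ := Pool.Agent.Hhelper14.ZP.exists_basis P
    have hcard := Pool.Agent.Hhelper14.ZP.krull_eq_card hI
    have h1 : ringKrullDim R = 1 := hdim
    have h2 : (Nat.card I : WithBot ℕ∞) = 1 := by rw [← hcard]; exact h1
    have h3 : Nat.card I = 1 := by exact_mod_cast h2
    have hIK : IsTranscendenceBasis ℂ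
        (algebraMap R K ∘ fun i : I => Pool.Agent.Hhelper14.ZP.xbar P i) := by
      have : Algebra.IsAlgebraic R K := IsLocalization.isAlgebraic K (nonZeroDivisors R)
      exact hI.algebraMap_comp
    have h4 : Algebra.trdeg ℂ K = 1 := by
      rw [← hIK.cardinalMk_eq_trdeg, ← Nat.cast_card, h3, Nat.cast_one]
    by_contra hcon
    push Not at hcon
    have hind : AlgebraicIndependent ℂ ![x, y] := by
      rw [algebraicIndependent_iff]
      intro Q hQ
      by_contra hQ0
      exact hcon Q hQ0 hQ
    have h5 := hind.lift_cardinalMk_le_trdeg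
    rw [h4] at h5
    simp at h5
  · intro F hF
    exact finite_zeros hV hdim fun h => hF ((hzero F).mpr h)

end Pool.Agent.ZPB
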