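import Pool.Agent.ZPB.Eis
import Pool.Agent.Hhelper14.ZP2.Formal
import Pool.Agent.ZPS.Series

/-!
# Module AI4: the integral power series `Jz = q j(q)`

`Jz = E4z³ dz⁻¹ ∈ ℤ[[X]]` (`dz` from `exists_dz` is a unit), so `Jz * (E4z³ - E6z²) = 1728 X E4z³`, constant coefficient one.
`Ev` (`Pool/Agent/Hhelper14/ZP2/Ev.lean`): absolutely convergent evaluation. For `τ ∈ ℍ`, `q = qParam 1 τ`:
`Jz(q) = q jInv τ` because `jInv = E₄³/Δ` and `1728 Δ = E₄³ - E₆²` (Mathlib, or `ZP/JFun.lean`), and the evaluation of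
`E4z`, `E6z` at `q` is `E₄ τ`, `E₆ τ`.
-/

namespace Pool.Agent.ZPB

open PowerSeries UpperHalfPlane Function

theorem js_ev {f : PowerSeries ℤ} {a : ℕ → ℂ} {z v : ℂ} (ha : ∀ n, ((coeff n f : ℤ) : ℂ) = a n)
    (h : HasSum (fun n => a n * z ^ n) v) :
    Hhelper14.ZP.Ev z (PowerSeries.map (Int.castRingHom ℂ) f) v := by
  have h2 : (fun n => a n * z ^ n) =
      fun n => coeff n (PowerSeries.map (Int.castRingHom ℂ) f) * z ^ n := by
    funext n
    rw [PowerSeries.coeff_map, ← ha n]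
    rfl
  rw [h2] at h
  exact ⟨h.summable.norm, h⟩

theorem js_E4 (τ : ℍ) : Hhelper14.ZP.Ev (Periodic.qParam 1 (τ : ℂ))
    (PowerSeries.map (Int.castRingHom ℂ) E4z) (ModularForm.E₄ τ) := by
  rw [Hhelper14.ZP.E4_eq]
  refine js_ev (a := fun n => (if n = 0 then (1 : ℂ) else 0) +
    240 * (ArithmeticFunction.sigma 3 n : ℂ)) ?_ ?_
  · intro n
    rw [E4z, PowerSeries.coeff_mk]
    by_cases hn : n = 0
    · subst hn
      simp
    · simp [hn]
  · have h := (Hhelper14.ZP.hasSum_one (Periodic.qParam 1 (τ : ℂ))).add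
      ((Hhelper14.ZP.hasSum_serA (Hhelper14.ZP.norm_qParam_lt τ)).mul_left 240)
    refine h.congr_fun ?_
    intro n
    ring

theorem js_E6 (τ : ℍ) : Hhelper14.ZP.Ev (Periodic.qParam 1 (τ : ℂ))
    (PowerSeries.map (Int.castRingHom ℂ) E6z) (ModularForm.E₆ τ) := by
  rw [Hhelper14.ZP.E6_eq]
  refine js_ev (a := fun n => (if n = 0 then (1 : ℂ) else 0) -
    504 * (ArithmeticFunction.sigma 5 n : ℂ)) ?_ ?_
  · intro n
    rw [E6z, PowerSeries.coeff_mk]
    by_cases hn : n = 0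
    · subst hn
      simp
    · simp [hn]
  · have h := (Hhelper14.ZP.hasSum_one (Periodic.qParam 1 (τ : ℂ))).sub
      ((Hhelper14.ZP.hasSum_serB (Hhelper14.ZP.norm_qParam_lt τ)).mul_left 504)
    refine h.congr_fun ?_
    intro n
    ring

theorem exists_Jz : ∃ Jz : PowerSeries ℤ, constantCoeff Jz = 1 ∧
    Jz * (E4z ^ 3 - E6z ^ 2) = 1728 * (PowerSeries.X * E4z ^ 3) ∧
    ∀ τ : ℍ, Hhelper14.ZP.Ev (Periodic.qParam 1 (τ : ℂ)) (PowerSeries.map (Int.castRingHom ℂ) Jz)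
      (Periodic.qParam 1 (τ : ℂ) * Hhelper14.ZP.jInv τ) := by
  refine ⟨ZPS.JZ, ?_, ?_, fun τ => ZPS.evZ_J τ⟩
  · rw [← PowerSeries.coeff_zero_eq_constantCoeff_apply]
    exact ZPS.spec_series.1
  · have h1 : PowerSeries.map (Int.castRingHom ℂ)
        (ZPS.JZ * (E4z ^ 3 - E6z ^ 2) - 1728 * (PowerSeries.X * E4z ^ 3)) = 0 := by
      refine Hhelper14.ZP.eq_zero_of_ev (N := 1) one_pos ?_
      intro τ
      have hq : Hhelper14.ZP.qN 1 τ = Periodic.qParam 1 (τ : ℂ) := by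
        simp [Hhelper14.ZP.qN]
      rw [hq]
      set q := Periodic.qParam 1 (τ : ℂ) with hqd
      have e4 := js_E4 τ
      have e6 := js_E6 τ
      have eJ : Hhelper14.ZP.Ev q (PowerSeries.map (Int.castRingHom ℂ) ZPS.JZ)
        (q * Hhelper14.ZP.jInv τ) := ZPS.evZ_J τ
      have h := (eJ.mul ((e4.pow 3).sub (e6.pow 2))).sub
        ((Hhelper14.ZP.Ev.C q (1728 : ℂ)).mul ((Hhelper14.ZP.Ev.X q).mul (e4.pow 3)))
      have hv : q * Hhelper14.ZP.jInv τ * (ModularForm.E₄ τ ^ 3 - ModularForm.E₆ τ ^ 2) -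
          1728 * (q * ModularForm.E₄ τ ^ 3) = 0 := by
        have h2 := ModularForm.discriminant_ne_zero τ
        have h3 : ModularForm.E₄ τ ^ 3 - ModularForm.E₆ τ ^ 2 =
            1728 * ModularForm.discriminant τ := by
          rw [ModularForm.discriminant_eq_E₄_cube_sub_E₆_sq]
          ring
        rw [h3, Hhelper14.ZP.jInv]
        field_simp
        ring
      rw [hv] at h
      convert h using 1
      simp only [map_sub, map_mul, map_pow, PowerSeries.map_X]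
      congr 2
      rw [map_ofNat, map_ofNat]
    have h2 : ZPS.JZ * (E4z ^ 3 - E6z ^ 2) - 1728 * (PowerSeries.X * E4z ^ 3) = 0 := by
      ext n
      have h3 := congrArg (coeff n) h1
      rw [PowerSeries.coeff_map, map_zero] at h3
      rw [map_zero]
      exact Int.cast_injective (by simpa using h3)
    exact sub_eq_zero.1 h2

/-- `q j(q) ∈ ℤ[[q]]` -/
noncomputable def Jz : PowerSeries ℤ := exists_Jz.choose

theorem Jz_zero : constantCoeff Jz = 1 := exists_Jz.choose_spec.1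

theorem Jz_eq : Jz * (E4z ^ 3 - E6z ^ 2) = 1728 * (PowerSeries.X * E4z ^ 3) := exists_Jz.choose_spec.2.1

theorem Jz_ev (τ : ℍ) : Hhelper14.ZP.Ev (Periodic.qParam 1 (τ : ℂ))
    (PowerSeries.map (Int.castRingHom ℂ) Jz) (Periodic.qParam 1 (τ : ℂ) * Hhelper14.ZP.jInv τ) :=
  exists_Jz.choose_spec.2.2 τ

end Pool.Agent.ZPB
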