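import Pool.Agent.ZPB.BFun
import Pool.Agent.Hhelper77.ZPL.SpKClosed
import Pool.Agent.Hhelper14.ZP2.NotHecke

/-!
# Module BR7: isogenous points of a curve over `Qb` are algebraic

`alg_of_finite`: let `W` be finite, `W' ⊆ W` the set of its points with algebraic coordinates. If `x ∈ W ∖ W'`: the finite set `W'` of `Qb`-points is the
zero set of polynomials over `Qb`, so there is `P` over `Qb` vanishing on `W'` with `P(x) ≠ 0` (e.g. for each `w ∈ W'` choose a coordinate with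
`x_k ≠ w_k` and multiply the `X_k - w_k`). `P` is not in the vanishing ideal of `W` over `Qb`, so `exists_Qb_point` (`KClosed.lean`) gives a
`Qb`-point of `W` where `P` is not zero: contradiction.
`hecke_points_alg`: let `x ∈ V`, `x a = j(τ)`, `x b = j(gτ)`. `Z = {y : ∃ τ, y a = j(τ), y b = j(gτ)}` is special (`special_pair` with `gi = 1`, `gact_one`;
`ZPL/Topo.lean`), so `Z` is closed over `Qb` (`special_kclosed`) and closed (`special_closed`). `V ⊄ Z`, so some polynomial `F` vanishes on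
`Z` and not on `V`; `V ∩ Z` is finite by `exists_fun`, and closed over `Qb` (`KClosed.inter`). So `x` is algebraic by `alg_of_finite`.
-/

namespace Pool.Agent.ZPB

open UpperHalfPlane MvPolynomial Pool.Agent.Hhelper14.ZPL Pool.Agent.Hhelper14.ZP

theorem alg_of_finite {n : ℕ} {W : Set (Fin n → ℂ)} (hW : KClosed W) (hfin : W.Finite) {x : Fin n → ℂ}
    (hx : x ∈ W) (i : Fin n) : IsAlgebraic ℚ (x i) := by
  classical
  by_contra hxi
  have hk : ∀ w : Fin n → ℂ, (∀ i, w i ∈ Qb) → ∃ k, x k ≠ w k := by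
    intro w hw
    refine ⟨i, fun h => hxi ?_⟩
    have h1 := hw i
    rw [mem_algebraicClosure_iff] at h1
    rw [h]
    exact h1
  choose k hk' using hk
  let Q : (Fin n → ℂ) → MvPolynomial (Fin n) Qb := fun w =>
    if h : ∀ i, w i ∈ Qb then X (k w h) - C ⟨w (k w h), h _⟩ else 1
  have hQx : ∀ w, (aeval x (Q w) : ℂ) ≠ 0 := by
    intro w
    by_cases h : ∀ i, w i ∈ Qb
    · simp only [Q, dif_pos h, map_sub, aeval_X, aeval_C]
      have := hk' w h
      intro h0
      apply this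
      exact sub_eq_zero.mp h0
    · simp [Q, dif_neg h]
  let P : MvPolynomial (Fin n) Qb := ∏ w ∈ hfin.toFinset, Q w
  have hP : P ∉ (vanishingIdeal Qb W : Ideal (MvPolynomial (Fin n) Qb)) := by
    intro hc
    have h1 := (mem_vanishingIdeal_iff.mp hc) x hx
    rw [map_prod] at h1
    obtain ⟨w, -, hw⟩ := Finset.prod_eq_zero_iff.mp h1
    exact hQx w hw
  obtain ⟨z, hz, hzP⟩ := exists_Qb_point hW hP
  apply hzP
  rw [map_prod]
  refine Finset.prod_eq_zero (hfin.mem_toFinset.mpr hz) ?_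
  have h : ∀ i, (fun i => (z i : ℂ)) i ∈ Qb := fun i => (z i).2
  simp only [Q, dif_pos h, map_sub, aeval_X, aeval_C]
  exact sub_self _

theorem hecke_points_alg {n : ℕ} {V : Set (Fin n → ℂ)} (hV : Pool.Agent.Hhelper14.ZPL.IsIrredClosed V)
    (hVk : KClosed V) (hdim : Pool.Agent.Hhelper14.ZPL.dim V = 1) {a b : Fin n} (hab : a ≠ b)
    (hmod : ∀ g : GL (Fin 2) ℚ, 0 < g.det.val →
      ∃ x ∈ V, ¬ ∃ τ : ℍ, x a = jInv τ ∧ x b = jInv (gact g τ)) {x : Fin n → ℂ} (hx : x ∈ V)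
    (hxab : HeckeRel (x a) (x b)) (i : Fin n) : IsAlgebraic ℚ (x i) := by
  obtain ⟨τ, g, hg, hxa, hxb⟩ := hxab
  set Z : Set (Fin n → ℂ) := {y | ∃ τ : ℍ, y a = jInv (gact 1 τ) ∧ y b = jInv (gact g τ)} with hZ
  have hZs : Pool.Agent.Hhelper14.ZPL.IsSpecial Z := Pool.Agent.Hhelper14.ZPL.special_pair hab (gi := 1) (by simp) hg
  have hZk : KClosed Z := special_kclosed hZs
  have hZc : IsZClosed Z := special_closed hZs
  obtain ⟨y, hyV, hy⟩ := hmod g hg
  have hyZ : y ∉ Z := by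
    rintro ⟨τ', h1, h2⟩
    rw [gact_one] at h1
    exact hy ⟨τ', h1, h2⟩
  -- a polynomial vanishing on `Z` and not at `y`
  have hF : ∃ F : MvPolynomial (Fin n) ℂ, (∀ z ∈ Z, eval z F = 0) ∧ eval y F ≠ 0 := by
    by_contra hcon
    push Not at hcon
    apply hyZ
    rw [← hZc, mem_zeroLocus_iff]
    intro p hp
    rw [aeval_eq_eval]
    refine hcon p fun z hz => ?_
    have := (mem_vanishingIdeal_iff.mp hp) z hz
    rwa [aeval_eq_eval] at this
  obtain ⟨F, hFZ, hFy⟩ := hF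
  obtain ⟨K, _, _, π, -, hπ, hfin⟩ := exists_fun hV hdim
  have hFne : π F ≠ 0 := fun h => hFy ((hπ F).mp h y hyV)
  have hVZ : (V ∩ Z).Finite := (hfin F hFne).subset fun z hz => ⟨hz.1, hFZ z hz.2⟩
  exact alg_of_finite (hVk.inter hZk) hVZ ⟨hx, τ, by rw [gact_one]; exact hxa, hxb⟩ i

end Pool.Agent.ZPB
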