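import Pool.Agent.ZPB.EvRing
import Pool.Agent.ZPS.Extend
import Pool.Agent.Hhelper14.ZP2.Hecke

/-!
# Module BR8: integrality at `p`

`IntAt p x`: `x` is integral at all places above `p`.
* `exists_sigma`: suppose `‖σ x‖ ≤ 1` for all `σ : ℂ →+* ℂ_[p]`. Every root `β ∈ ℂ_p` of the minimal polynomial `f = T^d + a_1 T^(d-1) + …` of `x` over `ℚ` is
  the image of `x` under an embedding of `ℚ(x)`, which extends to `ℂ` (`extend_padic`, `ZPS/Extend.lean`), so `‖β‖ ≤ 1`. `f` splits over `ℂ_p`, so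
  its coefficients, which are sums of products of roots, have `‖a_k‖ ≤ 1`: `a_k` is a rational number whose denominator is prime to `p`
  (`norm_intCast_eq`, `ZP2/Tate.lean`). Let `m` be the product of these denominators, `p ∤ m`; `(m x)^d + m a_1 (m x)^(d-1) + m² a_2 (m x)^(d-2) + … = 0` has
  integral coefficients, so `m x` is integral.
* `norm_le_of_intAt`: `‖σ (m x)‖ ≤ 1` (`norm_le_of_root`, `ZP2/Hecke.lean`) and `‖(m : ℂ_[p])‖ = 1`.
* `exists_prime`: `I = {m ∈ ℤ : m x is integral}` is an ideal of `ℤ`; if `1 ∉ I` then `I ⊆ (p)` for some prime `p`, contradiction with `IntAt p x`.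
* `dvd_of_zero`: `g(w) = g(0) + (terms of norm < 1)`, so `‖g(0)‖ < 1`.
-/

namespace Pool.Agent.ZPB

open MvPolynomial

/-- `x` is integral at all places above `p`: `m x` is an algebraic integer for some `m` prime to `p`. -/
def IntAt (p : ℕ) (x : ℂ) : Prop := ∃ m : ℕ, ¬ p ∣ m ∧ IsIntegral ℤ ((m : ℂ) * x)

theorem bi_coeff_prod {K : Type*} [NormedField K] [IsUltrametricDist K] (s : Multiset K)
    (hs : ∀ b ∈ s, ‖b‖ ≤ 1) (k : ℕ) :
    ‖(s.map fun b => Polynomial.X - Polynomial.C b).prod.coeff k‖ ≤ 1 := by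
  induction s using Multiset.induction_on generalizing k with
  | empty =>
    simp only [Multiset.map_zero, Multiset.prod_zero, Polynomial.coeff_one]
    split_ifs <;> simp
  | cons b s ih =>
    have ih' := fun k => ih (fun c hc => hs c (Multiset.mem_cons_of_mem hc)) k
    have hb := hs b (Multiset.mem_cons_self b s)
    rw [Multiset.map_cons, Multiset.prod_cons, sub_mul, Polynomial.coeff_sub,
      Polynomial.coeff_C_mul, sub_eq_add_neg]
    refine (IsUltrametricDist.norm_add_le_max _ _).trans (max_le ?_ ?_)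
    · cases k with
      | zero => simp
      | succ k => rw [Polynomial.coeff_X_mul]; exact ih' k
    · rw [norm_neg, norm_mul]
      exact mul_le_one₀ hb (norm_nonneg _) (ih' k)

theorem bi_not_dvd_den {p : ℕ} [Fact p.Prime] {q : ℚ} (h : ‖(q : ℂ_[p])‖ ≤ 1) : ¬ p ∣ q.den := by
  intro hd
  have hn : ¬ (p : ℤ) ∣ q.num := by
    intro hn
    have h1 : p ∣ q.num.natAbs := Int.natCast_dvd.1 hn
    have h2 : p ∣ Nat.gcd q.num.natAbs q.den := Nat.dvd_gcd h1 hd
    have h3 := q.reduced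
    rw [Nat.Coprime] at h3
    rw [h3] at h2
    exact (Fact.out : p.Prime).one_lt.ne' (Nat.dvd_one.1 h2)
  have h1 : ‖((q.num : ℤ) : ℂ_[p])‖ = 1 := by
    rw [Pool.Agent.Hhelper14.ZP.norm_intCast_eq]
    rw [Padic.norm_intCast_eq_one_iff]
    exact (((Nat.prime_iff_prime_int.1 (Fact.out : p.Prime)).coprime_iff_not_dvd).2 hn).symm
  have h2 : ‖((q.den : ℕ) : ℂ_[p])‖ < 1 := by
    have := Pool.Agent.Hhelper14.ZP.norm_intCast_eq (p := p) (q.den : ℤ)
    rw [Int.cast_natCast] at this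
    rw [this, Padic.norm_intCast_lt_one_iff]
    exact_mod_cast hd
  have h3 : (q : ℂ_[p]) * ((q.den : ℕ) : ℂ_[p]) = ((q.num : ℤ) : ℂ_[p]) := by
    have := q.mul_den_eq_num
    exact_mod_cast congrArg (fun r : ℚ => (r : ℂ_[p])) this
  have h4 := congrArg norm h3
  rw [norm_mul, h1] at h4
  have h5 : ‖(q : ℂ_[p])‖ * ‖((q.den : ℕ) : ℂ_[p])‖ < 1 :=
    mul_lt_one_of_nonneg_of_lt_one_right h (norm_nonneg _) h2
  rw [h4] at h5
  exact lt_irrefl _ h5

theorem exists_sigma {p : ℕ} [Fact p.Prime] {x : ℂ} (hx : IsAlgebraic ℚ x) (h : ¬ IntAt p x) :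
    ∃ σ : ℂ →+* ℂ_[p], 1 < ‖σ x‖ := by
  by_contra hcon
  push Not at hcon
  apply h
  have hxi : IsIntegral ℚ x := hx.isIntegral
  set f := minpoly ℚ x with hf
  have hfm : f.Monic := minpoly.monic hxi
  -- all roots have norm at most one
  have hroots : ∀ b ∈ (f.map (algebraMap ℚ ℂ_[p])).roots, ‖b‖ ≤ 1 := by
    intro b hb
    have hb' : Polynomial.aeval b f = 0 := by
      rw [Polynomial.aeval_def]
      rw [Polynomial.mem_roots (by exact (hfm.map _).ne_zero), Polynomial.IsRoot.def,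
        Polynomial.eval_map] at hb
      exact hb
    let K : IntermediateField ℚ ℂ := IntermediateField.adjoin ℚ {x}
    have : FiniteDimensional ℚ K := IntermediateField.adjoin.finiteDimensional hxi
    let φ : K →ₐ[ℚ] ℂ_[p] := (IntermediateField.algHomAdjoinIntegralEquiv ℚ hxi).symm
      ⟨b, by rw [Polynomial.mem_aroots]; exact ⟨hfm.ne_zero, hb'⟩⟩
    have hφ : φ (IntermediateField.AdjoinSimple.gen ℚ x) = b :=
      IntermediateField.algHomAdjoinIntegralEquiv_symm_apply_gen ℚ hxi _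
    obtain ⟨ψ, hψ⟩ := Pool.Agent.ZPS.extend_padic p K φ.toRingHom
    have h1 : ψ x = b := by
      have := hψ (IntermediateField.AdjoinSimple.gen ℚ x)
      rw [IntermediateField.AdjoinSimple.coe_gen] at this
      rw [this]
      exact hφ
    rw [← h1]
    exact hcon ψ
  have hsplit : (f.map (algebraMap ℚ ℂ_[p])).Splits := IsAlgClosed.splits _
  have hcoeff : ∀ k, ‖((f.coeff k : ℚ) : ℂ_[p])‖ ≤ 1 := by
    intro k
    have h1 : f.map (algebraMap ℚ ℂ_[p]) =
        ((f.map (algebraMap ℚ ℂ_[p])).roots.map fun b => Polynomial.X - Polynomial.C b).prod :=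
      hsplit.eq_prod_roots_of_monic (hfm.map _)
    have h2 := bi_coeff_prod _ hroots k
    rw [← h1, Polynomial.coeff_map] at h2
    simpa using h2
  have hden : ∀ k, ¬ p ∣ (f.coeff k).den := fun k => bi_not_dvd_den (hcoeff k)
  set m : ℕ := ∏ k ∈ Finset.range f.natDegree, (f.coeff k).den with hm
  refine ⟨m, ?_, ?_⟩
  · intro hd
    rw [hm, (Fact.out : p.Prime).prime.dvd_finsetProd_iff] at hd
    obtain ⟨k, _, hk⟩ := hd
    exact hden k hk
  · -- the scaled polynomial has integral coefficients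
    have hint : ∀ k ∈ Finset.range f.natDegree, ∃ z : ℤ, (f.coeff k) * (m : ℚ) = z := by
      intro k hk
      obtain ⟨c, hc⟩ := Finset.dvd_prod_of_mem (fun k => (f.coeff k).den) hk
      refine ⟨(f.coeff k).num * c, ?_⟩
      rw [hm, hc]
      push_cast
      rw [← mul_assoc, Rat.mul_den_eq_num]
    have hlift : f.scaleRoots (m : ℚ) ∈ Polynomial.lifts (Int.castRingHom ℚ) := by
      rw [Polynomial.lifts_iff_coeff_lifts]
      intro k
      rw [Polynomial.coeff_scaleRoots]
      rcases lt_trichotomy k f.natDegree with hk | hk | hk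
      · obtain ⟨z, hz⟩ := hint k (Finset.mem_range.2 hk)
        refine ⟨z * (m : ℤ) ^ (f.natDegree - k - 1), ?_⟩
        have : f.natDegree - k = (f.natDegree - k - 1) + 1 := by omega
        rw [this, pow_succ']
        rw [← mul_assoc, hz]
        simp
      · rw [hk, hfm.coeff_natDegree]
        exact ⟨1, by simp⟩
      · rw [Polynomial.coeff_eq_zero_of_natDegree_lt hk]
        exact ⟨0, by simp⟩
    obtain ⟨g, hg1, _, hg3⟩ := Polynomial.lifts_and_natDegree_eq_and_monic hlift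
      ((Polynomial.monic_scaleRoots_iff _).2 hfm)
    refine ⟨g, hg3, ?_⟩
    have h1 : Polynomial.aeval ((algebraMap ℚ ℂ (m : ℚ)) * x) (f.scaleRoots (m : ℚ)) = 0 :=
      Polynomial.scaleRoots_aeval_eq_zero (minpoly.aeval ℚ x)
    rw [← hg1, Polynomial.aeval_def, Polynomial.eval₂_map] at h1
    have h2 : (algebraMap ℚ ℂ).comp (Int.castRingHom ℚ) = algebraMap ℤ ℂ := Subsingleton.elim _ _
    rw [h2] at h1
    simpa using h1

theorem norm_le_of_intAt {p : ℕ} [Fact p.Prime] {x : ℂ} (h : IntAt p x) (σ : ℂ →+* ℂ_[p]) :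
    ‖σ x‖ ≤ 1 := by
  obtain ⟨m, hm, P, hP, hPx⟩ := h
  have h1 : P.eval₂ (Int.castRingHom ℂ_[p]) (σ ((m : ℂ) * x)) = 0 := by
    have h2 := congrArg σ hPx
    rw [Polynomial.hom_eval₂, map_zero] at h2
    rw [← h2]
    congr 1
    exact Subsingleton.elim _ _
  have h2 : ‖σ ((m : ℂ) * x)‖ ≤ 1 :=
    Pool.Agent.Hhelper14.ZP.norm_le_of_root hP h1
      (fun m => Pool.Agent.Hhelper14.ZP.norm_intCast_le m)
  have h3 : ‖((m : ℕ) : ℂ_[p])‖ = 1 := by
    have := Pool.Agent.Hhelper14.ZP.norm_intCast_eq (p := p) (m : ℤ)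
    rw [Int.cast_natCast] at this
    rw [this, Int.cast_natCast, Padic.norm_natCast_eq_one_iff]
    exact ((Fact.out : p.Prime).coprime_iff_not_dvd).2 hm
  rw [map_mul, map_natCast, norm_mul, h3, one_mul] at h2
  exact h2

theorem exists_prime {x : ℂ} (hx : ¬ IsIntegral ℤ x) : ∃ p : ℕ, p.Prime ∧ ¬ IntAt p x := by
  by_contra hcon
  push Not at hcon
  let I : Ideal ℤ :=
    { carrier := {m : ℤ | IsIntegral ℤ ((m : ℂ) * x)}
      add_mem' := by
        intro a b ha hb
        simp only [Set.mem_ofPred_eq] at *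
        push_cast
        rw [add_mul]
        exact ha.add hb
      zero_mem' := by
        simp only [Set.mem_ofPred_eq, Int.cast_zero, zero_mul]
        exact isIntegral_zero
      smul_mem' := by
        intro c a ha
        simp only [Set.mem_ofPred_eq, smul_eq_mul] at *
        push_cast
        rw [mul_assoc]
        exact (isIntegral_algebraMap (R := ℤ) (A := ℂ) (x := c)).mul ha }
  have hI : I ≠ ⊤ := by
    intro h
    have h1 : (1 : ℤ) ∈ I := by rw [h]; trivial
    have h2 : IsIntegral ℤ (((1 : ℤ) : ℂ) * x) := h1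
    rw [Int.cast_one, one_mul] at h2
    exact hx h2
  have hg : I = Ideal.span {Submodule.IsPrincipal.generator I} :=
    (Ideal.span_singleton_generator I).symm
  set g := Submodule.IsPrincipal.generator I with hgd
  have hgu : ¬ IsUnit g := by
    intro hu
    apply hI
    rw [hg]
    exact Ideal.span_singleton_eq_top.2 hu
  have hgn : g.natAbs ≠ 1 := fun h => hgu (Int.isUnit_iff_natAbs_eq.2 h)
  obtain ⟨p, hp, hpg⟩ := Nat.exists_prime_and_dvd hgn
  obtain ⟨m, hm1, hm2⟩ := hcon p hp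
  have hmI : (m : ℤ) ∈ I := by
    show IsIntegral ℤ (((m : ℤ) : ℂ) * x)
    rw [Int.cast_natCast]
    exact hm2
  rw [hg, Ideal.mem_span_singleton] at hmI
  apply hm1
  have h1 : (p : ℤ) ∣ g := Int.natCast_dvd.2 hpg
  exact_mod_cast h1.trans hmI

theorem bi_dvd {p : ℕ} [Fact p.Prime] (g : MvPolynomial (Fin 3) ℤ) {w : Fin 3 → ℂ_[p]}
    (hw : ∀ a, ‖w a‖ < 1) : ‖aeval w g - ((constantCoeff g : ℤ) : ℂ_[p])‖ < 1 := by
  induction g using MvPolynomial.induction_on with
  | C a => simp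
  | add a b ha hb =>
    rw [map_add, map_add, Int.cast_add]
    have : aeval w a + aeval w b - (((constantCoeff a : ℤ) : ℂ_[p]) + ((constantCoeff b : ℤ) : ℂ_[p]))
        = (aeval w a - ((constantCoeff a : ℤ) : ℂ_[p])) +
          (aeval w b - ((constantCoeff b : ℤ) : ℂ_[p])) := by ring
    rw [this]
    exact (IsUltrametricDist.norm_add_le_max _ _).trans_lt (max_lt ha hb)
  | mul_X a i ha =>
    have h1 : ‖aeval w a‖ ≤ 1 := by
      have : aeval w a = (aeval w a - ((constantCoeff a : ℤ) : ℂ_[p])) +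
        ((constantCoeff a : ℤ) : ℂ_[p]) := by ring
      rw [this]
      exact (IsUltrametricDist.norm_add_le_max _ _).trans
        (max_le ha.le (Pool.Agent.Hhelper14.ZP.norm_intCast_le _))
    rw [map_mul, map_mul, aeval_X, constantCoeff_X, mul_zero, Int.cast_zero, sub_zero, norm_mul]
    exact mul_lt_one_of_nonneg_of_lt_one_right h1 (norm_nonneg _) (hw i)

theorem dvd_of_zero {p : ℕ} [Fact p.Prime] {g : MvPolynomial (Fin 3) ℤ} {w : Fin 3 → ℂ_[p]}
    (hw : ∀ a, ‖w a‖ < 1) (hg : aeval w g = 0) : (p : ℤ) ∣ constantCoeff g := by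
  have h := bi_dvd g hw
  rw [hg, zero_sub, norm_neg, Pool.Agent.Hhelper14.ZP.norm_intCast_eq,
    Padic.norm_intCast_lt_one_iff] at h
  exact h

end Pool.Agent.ZPB
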