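import Pool.Agent.Hhelper14.ZPL.KClosed

/-!
# Module BR9: descent of a polynomial to `ℤ`

Let `Q ∈ ℂ[Y]` vanish on a set `B` of algebraic points, `Q(0) ≠ 0`. Write `Q = ∑ b_m Q_m`, `Q_m` over `Qb`, `b_m` linearly independent over
`Qb` (`exists_decomp`). At a point of `B` the `Q_m(x)` are algebraic, so all vanish. `Q(0) = ∑ b_m Q_m(0) ≠ 0`, so some `Q_m(0) ≠ 0`. Let
`J = {g ∈ Qb[Y] : g = 0 on B}`, `J' = J ∩ ℚ[Y]`. `Qb[Y]/J` is integral over `ℚ[Y]/J'`. If all `g ∈ J'` had `g(0) = 0`, i.e. `J' ⊆ (Y_0, Y_1, Y_2)`, then there is a prime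
ideal of `Qb[Y]` containing `J` and lying over the maximal ideal `(Y_0, Y_1, Y_2)` of `ℚ[Y]` (lying over); it contains the `Y_i`, so it is
`(Y_0, Y_1, Y_2)`, and `Q_m ∈ J` gives `Q_m(0) = 0`: contradiction. So some `g ∈ ℚ[Y]` vanishes on `B` with `g(0) ≠ 0`; clear denominators.
(Alternatively take the product of the conjugates of `Q_m` over `ℚ`.)
-/

namespace Pool.Agent.ZPB

open MvPolynomial Pool.Agent.Hhelper14.ZPL

/-- step 1: a polynomial over the algebraic numbers. -/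
theorem bpoly_step1 {B : Set (Fin 3 → ℂ)} (halg : ∀ x ∈ B, ∀ a, IsAlgebraic ℚ (x a))
    {Q : MvPolynomial (Fin 3) ℂ} (hQ0 : constantCoeff Q ≠ 0) (hQ : ∀ x ∈ B, eval x Q = 0) :
    ∃ q : MvPolynomial (Fin 3) Qb, constantCoeff q ≠ 0 ∧ ∀ x ∈ B, (aeval x q : ℂ) = 0 := by
  obtain ⟨s, g, hg⟩ := exists_decomp Q
  have h1 : ∀ x ∈ B, ∀ i ∈ s, (aeval x (g i) : ℂ) = 0 := by
    intro x hx i hi
    have hz : ∀ a, ∃ z : Qb, (z : ℂ) = x a := fun a =>
      ⟨⟨x a, (mem_algebraicClosure_iff).2 (halg x hx a)⟩, rfl⟩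
    choose z hz using hz
    have hzx : (fun a => (z a : ℂ)) = x := funext hz
    have h2 : ∑ i ∈ s, (Module.Basis.ofVectorSpace Qb ℂ) i * (aeval x (g i) : ℂ) = 0 := by
      rw [← aeval_sum_decomp, ← hg, ← hQ x hx]
      rfl
    have h3 : ∑ i ∈ s, (aeval z (g i) : Qb) • (Module.Basis.ofVectorSpace Qb ℂ) i = 0 := by
      rw [← h2]
      refine Finset.sum_congr rfl fun i _ => ?_
      rw [← hzx, aeval_coe, Algebra.smul_def, mul_comm]
      rfl
    have h4 := linearIndependent_iff'.mp (Module.Basis.ofVectorSpace Qb ℂ).linearIndependent s _ h3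
      i hi
    rw [← hzx, aeval_coe, h4]
    rfl
  by_contra hcon
  push Not at hcon
  apply hQ0
  rw [hg, map_sum]
  refine Finset.sum_eq_zero fun i hi => ?_
  have h5 : constantCoeff (g i) = 0 := by
    by_contra h
    obtain ⟨x, hx, hx2⟩ := hcon (g i) h
    exact hx2 (h1 x hx i hi)
  rw [map_mul, constantCoeff_map, h5, map_zero, mul_zero]

/-- step 2: descent to the rational numbers. -/
theorem bpoly_step2 (q : MvPolynomial (Fin 3) Qb) (hq : constantCoeff q ≠ 0) :
    ∃ (r : MvPolynomial (Fin 3) ℚ) (q' : MvPolynomial (Fin 3) Qb), constantCoeff r ≠ 0 ∧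
      map (algebraMap ℚ Qb) r = q * q' := by
  classical
  have hcl : IsAlgClosure ℚ Qb := algebraicClosure.isAlgClosure ℚ ℂ
  have halgQ : Algebra.IsAlgebraic ℚ Qb := hcl.isAlgebraic
  have hint : Algebra.IsIntegral ℚ Qb := Algebra.isAlgebraic_iff_isIntegral.1 halgQ
  have hnorm : Normal ℚ Qb := IsAlgClosure.normal ℚ Qb
  have hfin : Finite (q.coeffs : Set Qb) := q.coeffs.finite_toSet
  have hK0 : FiniteDimensional ℚ (IntermediateField.adjoin ℚ (q.coeffs : Set Qb)) := by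
    refine IntermediateField.finiteDimensional_adjoin fun x _ => ?_
    exact Algebra.IsIntegral.isIntegral x
  set K0 := IntermediateField.adjoin ℚ (q.coeffs : Set Qb) with hK0def
  set E : IntermediateField ℚ Qb := IntermediateField.normalClosure ℚ K0 Qb with hE
  have hEfin : FiniteDimensional ℚ E := inferInstance
  have hEnorm : Normal ℚ E := normalClosure.normal ℚ K0 Qb
  have hEgal : IsGalois ℚ E := IsGalois.mk
  have hKE : K0 ≤ E := IntermediateField.le_normalClosure K0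
  obtain ⟨qE, hqE⟩ : ∃ qE : MvPolynomial (Fin 3) E, map (algebraMap E Qb) qE = q := by
    have : q ∈ Set.range (map (algebraMap E Qb) : MvPolynomial (Fin 3) E → _) := by
      rw [mem_range_map_iff_coeffs_subset]
      intro c hc
      exact ⟨⟨c, hKE (IntermediateField.subset_adjoin ℚ _ hc)⟩, rfl⟩
    exact this
  set N : MvPolynomial (Fin 3) E := ∏ σ : Gal(E/ℚ), map (σ : E →+* E) qE with hN
  have hNfix : ∀ τ : Gal(E/ℚ), map (τ : E →+* E) N = N := by
    intro τ
    rw [hN, map_prod]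
    refine Fintype.prod_equiv (Equiv.mulLeft τ) _ _ fun σ => ?_
    rw [map_map]
    rfl
  obtain ⟨r, hr⟩ : ∃ r : MvPolynomial (Fin 3) ℚ, map (algebraMap ℚ E) r = N := by
    have : N ∈ Set.range (map (algebraMap ℚ E) : MvPolynomial (Fin 3) ℚ → _) := by
      rw [mem_range_map_iff_coeffs_subset]
      intro c hc
      obtain ⟨m, hm, rfl⟩ := mem_coeffs_iff.1 hc
      have := (IsGalois.mem_range_algebraMap_iff_fixed (F := ℚ) (E := E) (coeff m N)).2 (by
        intro τ
        have h1 := hNfix τ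
        have h2 : coeff m (map (τ : E →+* E) N) = coeff m N := by rw [h1]
        rw [coeff_map] at h2
        exact h2)
      exact this
    exact this
  have hN1 : N = qE * ∏ σ ∈ Finset.univ.erase (1 : Gal(E/ℚ)), map (σ : E →+* E) qE := by
    rw [hN, ← Finset.mul_prod_erase Finset.univ _ (Finset.mem_univ (1 : Gal(E/ℚ)))]
    congr 1
    have : ((1 : Gal(E/ℚ)) : E →+* E) = RingHom.id E := rfl
    rw [this, map_id]
  refine ⟨r, map (algebraMap E Qb)
    (∏ σ ∈ Finset.univ.erase (1 : Gal(E/ℚ)), map (σ : E →+* E) qE), ?_, ?_⟩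
  · intro h0
    have h1 : constantCoeff N = 0 := by rw [← hr, constantCoeff_map, h0, map_zero]
    rw [hN, map_prod, Finset.prod_eq_zero_iff] at h1
    obtain ⟨σ, -, hσ⟩ := h1
    rw [constantCoeff_map] at hσ
    have h2 : constantCoeff qE = 0 := (map_eq_zero_iff (σ : E →+* E) σ.injective).1 hσ
    apply hq
    rw [← hqE, constantCoeff_map, h2, map_zero]
  · rw [← hqE, ← map_mul, ← hN1, ← hr, map_map]
    rfl

theorem exists_int_poly {B : Set (Fin 3 → ℂ)} (halg : ∀ x ∈ B, ∀ a, IsAlgebraic ℚ (x a))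
    {Q : MvPolynomial (Fin 3) ℂ} (hQ0 : constantCoeff Q ≠ 0) (hQ : ∀ x ∈ B, eval x Q = 0) :
    ∃ g : MvPolynomial (Fin 3) ℤ, constantCoeff g ≠ 0 ∧ ∀ x ∈ B, aeval x g = 0 := by
  classical
  obtain ⟨q, hq0, hq⟩ := bpoly_step1 halg hQ0 hQ
  obtain ⟨r, q', hr0, hr⟩ := bpoly_step2 q hq0
  have hrB : ∀ x ∈ B, (aeval x r : ℂ) = 0 := by
    intro x hx
    have h1 : (aeval x (map (algebraMap ℚ Qb) r) : ℂ) = aeval x r := aeval_map_algebraMap _ _ _
    rw [← h1, hr, map_mul, hq x hx, zero_mul]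
  obtain ⟨b, hb⟩ := IsLocalization.exist_integer_multiples (nonZeroDivisors ℤ) r.support
    (fun m => coeff m r)
  have hb0 : (b : ℤ) ≠ 0 := nonZeroDivisors.coe_ne_zero b
  obtain ⟨g, hg⟩ : ∃ g : MvPolynomial (Fin 3) ℤ,
      map (algebraMap ℤ ℚ) g = C ((b : ℤ) : ℚ) * r := by
    have : C ((b : ℤ) : ℚ) * r ∈
        Set.range (map (algebraMap ℤ ℚ) : MvPolynomial (Fin 3) ℤ → _) := by
      rw [mem_range_map_iff_coeffs_subset]
      intro c hc
      obtain ⟨m, hm, rfl⟩ := mem_coeffs_iff.1 hc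
      have hm' : m ∈ r.support := by
        rw [mem_support_iff] at hm ⊢
        intro h0
        apply hm
        rw [coeff_C_mul, h0, mul_zero]
      obtain ⟨a, ha⟩ := hb m hm'
      refine ⟨a, ?_⟩
      rw [ha, coeff_C_mul, Algebra.smul_def]
      rfl
    exact this
  refine ⟨g, ?_, fun x hx => ?_⟩
  · intro h0
    have h1 : constantCoeff (map (algebraMap ℤ ℚ) g) = 0 := by
      rw [constantCoeff_map, h0, map_zero]
    rw [hg, map_mul, constantCoeff_C] at h1
    rcases mul_eq_zero.1 h1 with h | h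
    · exact hb0 (by exact_mod_cast h)
    · exact hr0 h
  · have h1 : (aeval x (map (algebraMap ℤ ℚ) g) : ℂ) = aeval x g := aeval_map_algebraMap _ _ _
    rw [← h1, hg, map_mul, hrB x hx, mul_zero]

end Pool.Agent.ZPB
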