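import Pool.Agent.ZPB.BMain
import Pool.Agent.ZPB.BAlg
import Pool.Agent.ZPB.BInt
import Pool.Agent.ZPB.BPoly

/-!
# Module BR10: final assembly

Let `V` be an irreducible curve over `Qb`, `i : Fin 3 → Fin n` three nonconstant coordinates whose pairs are not modular related on `V`.

* `inj_of_mod`: if `i a = i b`, `a ≠ b`, then `hmod` for `g = 1` fails (`j` is surjective, `j_surj`, `gact_one`).
* `not_modRel`: let `K, π` be from `exists_fun`, `ψ a = π (X (i a))`. `ψ a` is transcendental (`trans_or_const`, `hconst`). If `ModRel (ψ a) (ψ b)`, let `g` be from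
  `modRel_closed`. Every `F` vanishing on `T = {y : Fin 2 → ℂ | ∃ τ, y 0 = j(τ), y 1 = j(gτ)}` satisfies `F(ψ a, ψ b) = 0`, so `F(x_(i a), x_(i b)) = 0` for `x ∈ V`
  (`rename ![i a, i b]`); `T` is special (`special_pair`, `gi = 1`) so closed (`special_closed`): `(x_(i a), x_(i b)) ∈ T` for all `x ∈ V`: contradiction with
  `hmod`.
* `finite_bad`: let `B0 ⊆ V` be the set in question, suppose it is infinite. `B = {x ∘ i : x ∈ B0}` is infinite: for `c ∈ ℂ` the set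
  `{x ∈ V : x (i 0) = c}` is finite (`exists_fun`, `π(X - c) ≠ 0`). `Curve3 K ψ B` (`zero`, `fin`: `rename i`; algebraic: `hecke_points_alg`), and
  `no_bad` (with `exists_sigma`) gives a contradiction.
* `finite_nonint`: all `x` in the set are algebraic (`hecke_points_alg`). Let `B = {1/(x ∘ i) : x ∈ set, x (i a) ≠ 0}`, `g` from `exists_int_poly`, `m = g(0) ≠ 0`. Let `x` be in
  the set: by `exists_prime` `x (i 0)` is not integral at some `p`; `exists_sigma` gives `σ` with `‖σ (x (i 0))‖ > 1`; by `tate_pair`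
  (`‖u‖ < 1`, `u σ y` of norm one: `norm_valZ_Jp`) `‖σ (x (i a))‖ > 1` for all `a`; so `w a = 1/σ (x (i a))` satisfies `g(w) = 0` (`hQ` says that `Q(1/x) = 0`),
  and `p ∣ m` (`dvd_of_zero`). So the set is contained in the union of the finite sets of `finite_bad` over the prime divisors `p` of `m`.
-/

namespace Pool.Agent.ZPB

open UpperHalfPlane MvPolynomial Pool.Agent.Hhelper14.ZPL Pool.Agent.Hhelper14.ZP

variable {n : ℕ} {V : Set (Fin n → ℂ)}

theorem inj_of_mod {i : Fin 3 → Fin n} (hmod : ∀ a b, a ≠ b → ∀ g : GL (Fin 2) ℚ, 0 < g.det.val →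
      ∃ x ∈ V, ¬ ∃ τ : ℍ, x (i a) = jInv τ ∧ x (i b) = jInv (gact g τ)) : Function.Injective i := by
  intro a b hab
  by_contra hne
  obtain ⟨x, -, hx⟩ := hmod a b hne 1 (by simp)
  obtain ⟨τ, hτ⟩ := j_surj (x (i a))
  exact hx ⟨τ, hτ.symm, by rw [gact_one, ← hab, hτ]⟩

theorem bf_rename {K : Type} [Field K] [Algebra ℂ K] (π : MvPolynomial (Fin n) ℂ →ₐ[ℂ] K)
    {k : ℕ} (i : Fin k → Fin n) (F : MvPolynomial (Fin k) ℂ) :
    π (rename i F) = aeval (fun a => π (X (i a))) F := by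
  have h : π.comp (rename i) = aeval (fun a => π (X (i a))) := by
    apply algHom_ext
    intro a
    rw [AlgHom.comp_apply, rename_X, aeval_X]
  have h2 := congrArg (fun f => f F) h
  exact h2

theorem bf_not_modRel {K : Type} [Field K] [Algebra ℂ K] (hK : IsCF K)
    (π : MvPolynomial (Fin n) ℂ →ₐ[ℂ] K) (hπ : ∀ F, π F = 0 ↔ ∀ x ∈ V, eval x F = 0) {a b : Fin n}
    (htr : Transcendental ℂ (π (X a)))
    (hmod : ∀ g : GL (Fin 2) ℚ, 0 < g.det.val →
      ∃ x ∈ V, ¬ ∃ τ : ℍ, x a = jInv τ ∧ x b = jInv (gact g τ)) :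
    ¬ ModRel (π (X a)) (π (X b)) := by
  intro hrel
  obtain ⟨g, hg, hF⟩ := modRel_closed hK htr hrel
  obtain ⟨x, hxV, hx⟩ := hmod g hg
  set T : Set (Fin 2 → ℂ) := {y | ∃ τ : ℍ, y 0 = jInv (gact 1 τ) ∧ y 1 = jInv (gact g τ)} with hT
  have h01 : (0 : Fin 2) ≠ 1 := by decide
  have hTs : Pool.Agent.Hhelper14.ZPL.IsSpecial T :=
    Pool.Agent.Hhelper14.ZPL.special_pair h01 (gi := 1) (by simp) hg
  have hTc : IsZClosed T := special_closed hTs
  have hmem : (![x a, x b] : Fin 2 → ℂ) ∈ T := by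
    rw [← hTc, mem_zeroLocus_iff]
    intro F hFT
    rw [mem_vanishingIdeal_iff] at hFT
    have h1 : ∀ τ : ℍ, eval ![jInv τ, jInv (gact g τ)] F = 0 := by
      intro τ
      have h2 := hFT ![jInv τ, jInv (gact g τ)] ⟨τ, by rw [gact_one]; rfl, rfl⟩
      rwa [aeval_eq_eval] at h2
    have h3 := hF F h1
    have hc : (fun k : Fin 2 => π (X ((![a, b] : Fin 2 → Fin n) k))) = ![π (X a), π (X b)] := by
      funext k
      fin_cases k <;> rfl
    have h4 : π (rename ![a, b] F) = 0 := by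
      rw [bf_rename, hc, h3]
    have h5 := (hπ _).mp h4 x hxV
    rw [eval_rename] at h5
    rw [aeval_eq_eval]
    have hc2 : x ∘ ![a, b] = ![x a, x b] := by
      funext k
      fin_cases k <;> rfl
    rwa [hc2] at h5
  obtain ⟨τ, h1, h2⟩ := hmem
  rw [gact_one] at h1
  exact hx ⟨τ, h1, h2⟩

theorem finite_bad (hV : Pool.Agent.Hhelper14.ZPL.IsIrredClosed V)
    (hVk : KClosed V) (hdim : Pool.Agent.Hhelper14.ZPL.dim V = 1) (i : Fin 3 → Fin n)
    (hconst : ∀ a, ∀ c : ℂ, ∃ x ∈ V, x (i a) ≠ c)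
    (hmod : ∀ a b, a ≠ b → ∀ g : GL (Fin 2) ℚ, 0 < g.det.val →
      ∃ x ∈ V, ¬ ∃ τ : ℍ, x (i a) = jInv τ ∧ x (i b) = jInv (gact g τ)) (p : ℕ) (hp : p.Prime) :
    {x ∈ V | HeckeRel (x (i 0)) (x (i 1)) ∧ HeckeRel (x (i 0)) (x (i 2)) ∧
      ¬ IntAt p (x (i 0))}.Finite := by
  classical
  have hpf : Fact p.Prime := ⟨hp⟩
  have hinj := inj_of_mod hmod
  obtain ⟨K, _, _, π, hK, hπ, hfin⟩ := exists_fun hV hdim
  set B0 : Set (Fin n → ℂ) := {x ∈ V | HeckeRel (x (i 0)) (x (i 1)) ∧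
    HeckeRel (x (i 0)) (x (i 2)) ∧ ¬ IntAt p (x (i 0))} with hB0
  by_contra hB0inf
  have h01 : i 0 ≠ i 1 := fun h => absurd (hinj h) (by decide)
  have halg : ∀ x ∈ B0, ∀ k, IsAlgebraic ℚ (x k) := by
    rintro x ⟨hxV, hx1, -, -⟩ k
    exact hecke_points_alg hV hVk hdim h01 (hmod 0 1 (by decide)) hxV hx1 k
  have htr : ∀ a, Transcendental ℂ (π (X (i a))) := by
    intro a
    rcases trans_or_const (π (X (i a))) with h | ⟨c, hc⟩
    · exact h
    · exfalso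
      obtain ⟨x, hxV, hx⟩ := hconst a c
      have h1 : π (X (i a) - C c) = 0 := by
        rw [map_sub, hc, ← algebraMap_eq, AlgHom.commutes, sub_self]
      have h2 := (hπ _).mp h1 x hxV
      rw [map_sub, eval_X, eval_C] at h2
      exact hx (sub_eq_zero.mp h2)
  have hfib : ∀ c : ℂ, {x ∈ V | x (i 0) = c}.Finite := by
    intro c
    have h1 : π (X (i 0) - C c) ≠ 0 := by
      intro h
      obtain ⟨x, hxV, hx⟩ := hconst 0 c
      have h2 := (hπ _).mp h x hxV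
      rw [map_sub, eval_X, eval_C] at h2
      exact hx (sub_eq_zero.mp h2)
    refine (hfin _ h1).subset fun x hx => ⟨hx.1, ?_⟩
    rw [map_sub, eval_X, eval_C, hx.2, sub_self]
  have hBinf : ((fun x : Fin n → ℂ => x ∘ i) '' B0).Infinite := by
    intro hBf
    apply hB0inf
    refine (Set.Finite.biUnion hBf (t := fun y => {x ∈ V | x (i 0) = y 0})
      (fun y _ => hfib (y 0))).subset ?_
    intro x hx
    exact Set.mem_biUnion (Set.mem_image_of_mem _ hx) ⟨hx.1, rfl⟩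
  have hC : Curve3 K (fun a => π (X (i a))) ((fun x : Fin n → ℂ => x ∘ i) '' B0) := by
    refine ⟨hK, htr, hBinf, ?_, ?_, ?_⟩
    · rintro _ ⟨x, hx, rfl⟩ a
      exact halg x hx (i a)
    · rintro F hF _ ⟨x, hx, rfl⟩
      rw [← bf_rename] at hF
      have h2 := (hπ _).mp hF x hx.1
      rwa [eval_rename] at h2
    · intro F hF
      rw [← bf_rename] at hF
      refine ((hfin _ hF).image (fun x : Fin n → ℂ => x ∘ i)).subset ?_
      rintro _ ⟨⟨x, hx, rfl⟩, hy⟩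
      refine ⟨x, ⟨hx.1, ?_⟩, rfl⟩
      rw [eval_rename]
      exact hy
  refine no_bad (p := p) hC ?_ ?_
  · intro a b hab
    exact bf_not_modRel hK π hπ (htr a) (hmod a b hab)
  · rintro _ ⟨x, hx, rfl⟩
    exact ⟨hx.2.1, hx.2.2.1, exists_sigma (halg x hx (i 0)) hx.2.2.2⟩

theorem finite_nonint (hV : Pool.Agent.Hhelper14.ZPL.IsIrredClosed V)
    (hVk : KClosed V) (hdim : Pool.Agent.Hhelper14.ZPL.dim V = 1) (i : Fin 3 → Fin n)
    (hconst : ∀ a, ∀ c : ℂ, ∃ x ∈ V, x (i a) ≠ c)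
    (hmod : ∀ a b, a ≠ b → ∀ g : GL (Fin 2) ℚ, 0 < g.det.val →
      ∃ x ∈ V, ¬ ∃ τ : ℍ, x (i a) = jInv τ ∧ x (i b) = jInv (gact g τ))
    {Q : MvPolynomial (Fin 3) ℂ} (hQ0 : constantCoeff Q ≠ 0)
    (hQ : ∀ x ∈ V, (∀ a, x (i a) ≠ 0) → eval (fun a => (x (i a))⁻¹) Q = 0) :
    {x ∈ V | HeckeRel (x (i 0)) (x (i 1)) ∧ HeckeRel (x (i 0)) (x (i 2)) ∧
      ¬ IsIntegral ℤ (x (i 0))}.Finite := by
  classical
  have hinj := inj_of_mod hmod
  set N : Set (Fin n → ℂ) := {x ∈ V | HeckeRel (x (i 0)) (x (i 1)) ∧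
    HeckeRel (x (i 0)) (x (i 2)) ∧ ¬ IsIntegral ℤ (x (i 0))} with hN
  have h01 : i 0 ≠ i 1 := fun h => absurd (hinj h) (by decide)
  have halg : ∀ x ∈ N, ∀ k, IsAlgebraic ℚ (x k) := by
    rintro x ⟨hxV, hx1, -, -⟩ k
    exact hecke_points_alg hV hVk hdim h01 (hmod 0 1 (by decide)) hxV hx1 k
  let B : Set (Fin 3 → ℂ) := {y | ∃ x ∈ N, (∀ a, x (i a) ≠ 0) ∧ y = fun a => (x (i a))⁻¹}
  have hBalg : ∀ y ∈ B, ∀ a, IsAlgebraic ℚ (y a) := by
    rintro _ ⟨x, hx, -, rfl⟩ a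
    exact (halg x hx (i a)).inv
  have hBQ : ∀ y ∈ B, eval y Q = 0 := by
    rintro _ ⟨x, hx, hx0, rfl⟩
    exact hQ x hx.1 hx0
  obtain ⟨g, hg0, hg⟩ := exists_int_poly hBalg hQ0 hBQ
  refine (Set.Finite.biUnion ((constantCoeff g).natAbs.primeFactors.finite_toSet)
    (t := fun p => {x ∈ V | HeckeRel (x (i 0)) (x (i 1)) ∧ HeckeRel (x (i 0)) (x (i 2)) ∧
      ¬ IntAt p (x (i 0))}) (fun p hp => finite_bad hV hVk hdim i hconst hmod p
        (Nat.prime_of_mem_primeFactors (Finset.mem_coe.mp hp)))).subset ?_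
  intro x hx
  obtain ⟨p, hp, hpx⟩ := exists_prime hx.2.2.2
  have hpf : Fact p.Prime := ⟨hp⟩
  obtain ⟨σ, hσ⟩ := exists_sigma (halg x hx (i 0)) hpx
  have hpair : ∀ y : ℂ, HeckeRel (x (i 0)) y → 1 < ‖σ y‖ := by
    intro y hy
    obtain ⟨q, u, -, hu, -, -, -, huy, -⟩ := tate_pair σ hy hσ
    have h1 : ‖u‖ * ‖σ y‖ = 1 := by
      rw [← norm_mul, huy, norm_valZ_Jp hu]
    by_contra hcon
    push Not at hcon
    have h2 : ‖u‖ * ‖σ y‖ < 1 :=
      mul_lt_one_of_nonneg_of_lt_one_left (norm_nonneg _) hu hcon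
    rw [h1] at h2
    exact lt_irrefl _ h2
  have hall : ∀ a : Fin 3, 1 < ‖σ (x (i a))‖ := by
    intro a
    fin_cases a
    · exact hσ
    · exact hpair _ hx.2.1
    · exact hpair _ hx.2.2.1
  have hne : ∀ a, x (i a) ≠ 0 := by
    intro a h0
    have h1 := hall a
    rw [h0, map_zero, norm_zero] at h1
    exact absurd h1 (by norm_num)
  have hgx := hg (fun a => (x (i a))⁻¹) ⟨x, hx, hne, rfl⟩
  have hw : aeval (fun a => σ ((x (i a))⁻¹)) g = 0 := by
    rw [← bm_map σ, hgx, map_zero]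
  have hdvd : (p : ℤ) ∣ constantCoeff g := by
    refine dvd_of_zero (w := fun a => σ ((x (i a))⁻¹)) ?_ hw
    intro a
    rw [map_inv₀, norm_inv]
    exact inv_lt_one_of_one_lt₀ (hall a)
  refine Set.mem_biUnion (Finset.mem_coe.mpr (Nat.mem_primeFactors.mpr
    ⟨hp, Int.natCast_dvd.mp hdvd, Int.natAbs_ne_zero.mpr hg0⟩)) ⟨hx.1, hx.2.1, hx.2.2.1, hpx⟩

end Pool.Agent.ZPB
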