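import Pool.Agent.ZPB.JSeries
import Pool.Agent.Hhelper14.ZPL.Hecke2

/-!
# Module AI10: `E_2, E_4, E_6` are algebraically independent

`e2_indep_C`: let `P(E2c, E4c, E6c) = 0` in `ℂ[[X]]` (`E2c = map E2z` etc.). The series converge for `|q| < 1` to the functions `E2`,
`E₄`, `E₆` of Mathlib (`EisensteinSeries.hasSum_qExpansion_E2`, `c4_coeff`, `c6_coeff` in `ZP/JFun.lean`; calculus `Ev` of `ZP2/Ev.lean`), so
`P(E2(τ), E₄(τ), E₆(τ)) = 0` for `τ ∈ ℍ`. For coprime `c, d`, `X = cτ + d` (`E2_slash_action`, modularity):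
`P(X² E2(τ) + κ c X, X⁴ E₄(τ), X⁶ E₆(τ)) = 0`, `κ = 6/(πi)`. For fixed `τ` this is a polynomial in `(c, d)` which vanishes for all
coprime `c, d ∈ ℤ`, so identically (e.g. for every prime `c` it vanishes for infinitely many `d`), and `(c, d) ↦ (cτ + d, κ c)` is a
bijection of `ℂ²`: `P(X² E2(τ) + Y X, X⁴ E₄(τ), X⁶ E₆(τ)) = 0` for all `X, Y ∈ ℂ`. For `X ≠ 0` the first argument is arbitrary:
`P(Z, X⁴ E₄(τ), X⁶ E₆(τ)) = 0` for all `Z ∈ ℂ`, `X ≠ 0`, `τ ∈ ℍ`. If `u, v ∈ ℂ^*`, `u³ ≠ v²`, there is `τ` with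
`j(τ) = 1728 u³/(u³ - v²)` (`j_surj`), so `E₄(τ), E₆(τ) ≠ 0` and `E₄³/E₆² = u³/v²`; with `X² = (v/E₆)/(u/E₄)` one gets `X⁴ E₄ = u`,
`X⁶ E₆ = v`. So `P(Z, u, v) = 0` for all `Z`, `u, v ≠ 0`, `u³ ≠ v²`, and `P = 0` (multiply by `u v (u³ - v²)`).
(Here `1728 Δ = E₄³ - E₆²`, `j = E₄³/Δ`.)

`e2_indep`: Let `P` have coefficients in `ℤ_p`, `P(E2p, E4p, E6p) = 0`. Choose a finite family `e_k ∈ ℚ_p`, linearly independent
over `ℚ`, with `P = ∑ e_k P_k`, `P_k` with rational coefficients. Each coefficient of `P_k(E2, E4, E6)` is rational, so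
`P_k(E2, E4, E6) = 0` in `ℚ[[X]]` for all `k`, so `P_k = 0` by the first part.
-/

namespace Pool.Agent.ZPB

open PowerSeries

namespace E2I

open UpperHalfPlane MatrixGroups ModularForm

/-- the value of `P` at the triple `(a, b, c)` -/
noncomputable def v3 (P : MvPolynomial (Fin 3) ℂ) (a b c : ℂ) : ℂ := MvPolynomial.eval ![a, b, c] P

theorem ev_aeval (P : MvPolynomial (Fin 3) ℂ) {q : ℂ} {f : Fin 3 → PowerSeries ℂ} {v : Fin 3 → ℂ}
    (h : ∀ i, Hhelper14.ZP.Ev q (f i) (v i)) :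
    Hhelper14.ZP.Ev q (MvPolynomial.aeval f P) (MvPolynomial.eval v P) := by
  induction P using MvPolynomial.induction_on with
  | C a =>
    rw [MvPolynomial.aeval_C, MvPolynomial.eval_C]
    exact Hhelper14.ZP.Ev.C q a
  | add p p' hp hp' =>
    rw [map_add, map_add]
    exact hp.add hp'
  | mul_X p i hp =>
    rw [map_mul, map_mul, MvPolynomial.aeval_X, MvPolynomial.eval_X]
    exact hp.mul (h i)

theorem hq_ev {F : ℍ → ℂ} {f : PowerSeries ℂ} (h : Eis.HQ F f) (τ : ℍ) :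
    Hhelper14.ZP.Ev (Eis.qq τ) f (F τ) := by
  have h1 := h τ
  simp only [smul_eq_mul] at h1
  exact ⟨h1.summable.norm, h1⟩

theorem step1 (P : MvPolynomial (Fin 3) ℂ)
    (h : MvPolynomial.aeval ![PowerSeries.map (Int.castRingHom ℂ) E2z,
      PowerSeries.map (Int.castRingHom ℂ) E4z, PowerSeries.map (Int.castRingHom ℂ) E6z] P = 0)
    (τ : ℍ) : v3 P (EisensteinSeries.E2 τ) (E₄ τ) (E₆ τ) = 0 := by
  have h1 : ∀ i : Fin 3, Hhelper14.ZP.Ev (Eis.qq τ)
      ((![PowerSeries.map (Int.castRingHom ℂ) E2z,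
      PowerSeries.map (Int.castRingHom ℂ) E4z, PowerSeries.map (Int.castRingHom ℂ) E6z] :
        Fin 3 → PowerSeries ℂ) i) ((![EisensteinSeries.E2 τ, E₄ τ, E₆ τ] : Fin 3 → ℂ) i) := by
    intro i
    fin_cases i
    · exact hq_ev Eis.hq2 τ
    · exact hq_ev Eis.hq4 τ
    · exact hq_ev Eis.hq6 τ
  have h2 := ev_aeval P h1
  rw [h] at h2
  exact h2.unique (Hhelper14.ZP.Ev.zero _)

/-- matrices with bottom row `(c, 1 + c m)` -/
def gam (c m : ℤ) : SL(2, ℤ) := ⟨!![1, m; c, 1 + c * m], by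
  rw [Matrix.det_fin_two_of]; ring⟩

theorem gam_denom (c m : ℤ) (τ : ℍ) :
    denom (gam c m) τ = (c : ℂ) * τ + (1 + c * m) := by
  rw [ModularGroup.denom_apply]
  simp [gam]

theorem E6_smul (γ : SL(2, ℤ)) (τ : ℍ) : E₆ (γ • τ) = denom γ τ ^ (6 : ℤ) * E₆ τ := by
  have : SlashInvariantFormClass (ModularForm 𝒮ℒ 6) (CongruenceSubgroup.Gamma 1) 6 :=
    CongruenceSubgroup.Gamma_one_coe_eq_SL ▸ inferInstance
  exact SlashInvariantForm.slash_action_eqn_SL'' E₆ (CongruenceSubgroup.mem_Gamma_one γ) τ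

/-- `6 / (π i)` -/
noncomputable def kap : ℂ := -(6 * Complex.I / Real.pi)

theorem kap_ne : kap ≠ 0 := by
  have hpi : (Real.pi : ℂ) ≠ 0 := Complex.ofReal_ne_zero.2 Real.pi_ne_zero
  rw [kap]
  simp [hpi]

theorem E2_smul (γ : SL(2, ℤ)) (τ : ℍ) : EisensteinSeries.E2 (γ • τ) =
    denom γ τ ^ 2 * EisensteinSeries.E2 τ + kap * (γ 1 0 : ℂ) * denom γ τ := by
  have h1 := congrFun (Eis.E2_slash' γ) τ
  rw [ModularForm.SL_slash_apply] at h1
  have hz : denom (γ : GL (Fin 2) ℝ) τ ≠ 0 := UpperHalfPlane.denom_ne_zero _ _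
  simp only [Pi.add_apply, Pi.smul_apply, smul_eq_mul, Eis.uu] at h1
  rw [← kap] at h1
  have h2 : denom (γ : GL (Fin 2) ℝ) τ ^ (-2 : ℤ) = (denom (γ : GL (Fin 2) ℝ) τ ^ 2)⁻¹ := by
    rw [zpow_neg]
    rfl
  rw [h2] at h1
  field_simp at h1
  rw [h1]
  ring

theorem step2 (P : MvPolynomial (Fin 3) ℂ)
    (h : ∀ τ : ℍ, v3 P (EisensteinSeries.E2 τ) (E₄ τ) (E₆ τ) = 0) (τ : ℍ) (c m : ℤ) :
    v3 P (((c : ℂ) * τ + (1 + c * m)) ^ 2 * EisensteinSeries.E2 τ +
        kap * c * ((c : ℂ) * τ + (1 + c * m)))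
      (((c : ℂ) * τ + (1 + c * m)) ^ 4 * E₄ τ) (((c : ℂ) * τ + (1 + c * m)) ^ 6 * E₆ τ) = 0 := by
  have h1 := h (gam c m • τ)
  rw [E2_smul, Hhelper14.ZP.E4_smul, E6_smul, gam_denom] at h1
  have h2 : ((gam c m 1 0 : ℤ) : ℂ) = c := by simp [gam]
  rw [h2] at h1
  exact_mod_cast h1

/-- the polynomial in one variable obtained by substituting polynomials -/
noncomputable def sub1 (P : MvPolynomial (Fin 3) ℂ) (a b c : Polynomial ℂ) : Polynomial ℂ :=
  MvPolynomial.aeval ![a, b, c] P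

theorem eval_sub1 (P : MvPolynomial (Fin 3) ℂ) (a b c : Polynomial ℂ) (x : ℂ) :
    (sub1 P a b c).eval x = v3 P (a.eval x) (b.eval x) (c.eval x) := by
  rw [sub1, v3]
  have h := MvPolynomial.map_aeval (![a, b, c] : Fin 3 → Polynomial ℂ) (Polynomial.evalRingHom x) P
  rw [Polynomial.coe_evalRingHom] at h
  rw [h]
  have h1 : ((Polynomial.evalRingHom x).comp (algebraMap ℂ (Polynomial ℂ))) = RingHom.id ℂ := by
    ext y
    simp
  rw [h1]
  have h2 : (fun i => Polynomial.eval x ((![a, b, c] : Fin 3 → Polynomial ℂ) i)) =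
      ![a.eval x, b.eval x, c.eval x] := by
    funext i
    fin_cases i <;> rfl
  rw [h2]
  rfl

theorem zero_of_inf (Q : Polynomial ℂ) (g : ℕ → ℂ) (hg : Function.Injective g)
    (h : ∀ n, Q.eval (g n) = 0) : Q = 0 := by
  apply Polynomial.eq_zero_of_infinite_isRoot
  refine (Set.infinite_range_of_injective hg).mono ?_
  rintro _ ⟨n, rfl⟩
  exact h n

theorem step3 (P : MvPolynomial (Fin 3) ℂ)
    (h : ∀ τ : ℍ, v3 P (EisensteinSeries.E2 τ) (E₄ τ) (E₆ τ) = 0) (τ : ℍ) (x y : ℂ) :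
    v3 P (x ^ 2 * EisensteinSeries.E2 τ + y * x) (x ^ 4 * E₄ τ) (x ^ 6 * E₆ τ) = 0 := by
  -- first: all x, y = kap * c, c a positive integer
  have h1 : ∀ (c : ℕ) (x : ℂ), v3 P (x ^ 2 * EisensteinSeries.E2 τ + (kap * (c + 1)) * x)
      (x ^ 4 * E₄ τ) (x ^ 6 * E₆ τ) = 0 := by
    intro c x
    have hQ : sub1 P (Polynomial.X ^ 2 * Polynomial.C (EisensteinSeries.E2 τ) +
        Polynomial.C (kap * (c + 1)) * Polynomial.X) (Polynomial.X ^ 4 * Polynomial.C (E₄ τ))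
        (Polynomial.X ^ 6 * Polynomial.C (E₆ τ)) = 0 := by
      refine zero_of_inf _ (fun m : ℕ => ((c : ℂ) + 1) * τ + (1 + (c + 1) * m)) ?_ ?_
      · intro m m' hm
        have hc : (c : ℂ) + 1 ≠ 0 := Nat.cast_add_one_ne_zero c
        have hm2 : ((c : ℂ) + 1) * τ + (1 + (c + 1) * m) = (c + 1) * τ + (1 + (c + 1) * m') := hm
        have hm3 : ((c : ℂ) + 1) * m = (c + 1) * m' := by linear_combination hm2
        exact_mod_cast mul_left_cancel₀ hc hm3
      · intro m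
        rw [eval_sub1]
        simp only [Polynomial.eval_add, Polynomial.eval_mul, Polynomial.eval_pow,
          Polynomial.eval_X, Polynomial.eval_C]
        have h2 := step2 P h τ ((c : ℤ) + 1) m
        push_cast at h2
        exact h2
    have h2 := eval_sub1 P (Polynomial.X ^ 2 * Polynomial.C (EisensteinSeries.E2 τ) +
        Polynomial.C (kap * (c + 1)) * Polynomial.X) (Polynomial.X ^ 4 * Polynomial.C (E₄ τ))
        (Polynomial.X ^ 6 * Polynomial.C (E₆ τ)) x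
    rw [hQ] at h2
    simp only [Polynomial.eval_add, Polynomial.eval_mul, Polynomial.eval_pow,
          Polynomial.eval_X, Polynomial.eval_C, Polynomial.eval_zero] at h2
    exact h2.symm
  have hQ : sub1 P (Polynomial.C (x ^ 2 * EisensteinSeries.E2 τ) +
      Polynomial.X * Polynomial.C x) (Polynomial.C (x ^ 4 * E₄ τ))
      (Polynomial.C (x ^ 6 * E₆ τ)) = 0 := by
    refine zero_of_inf _ (fun c : ℕ => kap * ((c : ℂ) + 1)) ?_ ?_
    · intro c c' hc
      have h2 : kap * ((c : ℂ) + 1) = kap * (c' + 1) := hc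
      have h3 := mul_left_cancel₀ kap_ne h2
      have h4 : (c : ℂ) = c' := by linear_combination h3
      exact_mod_cast h4
    · intro c
      rw [eval_sub1]
      simp only [Polynomial.eval_add, Polynomial.eval_mul, Polynomial.eval_X, Polynomial.eval_C]
      exact h1 c x
  have h2 := eval_sub1 P (Polynomial.C (x ^ 2 * EisensteinSeries.E2 τ) +
      Polynomial.X * Polynomial.C x) (Polynomial.C (x ^ 4 * E₄ τ))
      (Polynomial.C (x ^ 6 * E₆ τ)) y
  rw [hQ] at h2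
  simp only [Polynomial.eval_add, Polynomial.eval_mul,
        Polynomial.eval_X, Polynomial.eval_C, Polynomial.eval_zero] at h2
  exact h2.symm

theorem step4 (P : MvPolynomial (Fin 3) ℂ)
    (h : ∀ τ : ℍ, v3 P (EisensteinSeries.E2 τ) (E₄ τ) (E₆ τ) = 0) (z u v : ℂ) (hu : u ≠ 0)
    (hv : v ≠ 0) (huv : u ^ 3 - v ^ 2 ≠ 0) : v3 P z u v = 0 := by
  obtain ⟨τ, hτ⟩ := Hhelper14.ZPL.j_surj (1728 * u ^ 3 / (u ^ 3 - v ^ 2))
  have hd := ModularForm.discriminant_ne_zero τ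
  have hde := ModularForm.discriminant_eq_E₄_cube_sub_E₆_sq τ
  rw [Hhelper14.ZP.jInv] at hτ
  have h1 : E₄ τ ^ 3 * v ^ 2 = E₆ τ ^ 2 * u ^ 3 := by
    rw [div_eq_div_iff hd huv] at hτ
    have h2 : 1728 * ModularForm.discriminant τ = E₄ τ ^ 3 - E₆ τ ^ 2 := by
      rw [hde]
      ring
    linear_combination (-1 : ℂ) * hτ - u ^ 3 * h2
  have h4 : E₄ τ ≠ 0 := by
    intro h0
    rw [h0] at h1
    have h6 : E₆ τ = 0 := by
      have : E₆ τ ^ 2 * u ^ 3 = 0 := by rw [← h1]; ring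
      rcases mul_eq_zero.1 this with h | h
      · exact pow_eq_zero_iff (two_ne_zero) |>.1 h
      · exact absurd h (pow_ne_zero _ hu)
    apply hd
    rw [hde, h0, h6]
    ring
  have h6 : E₆ τ ≠ 0 := by
    intro h0
    rw [h0] at h1
    have : E₄ τ ^ 3 * v ^ 2 = 0 := by rw [h1]; ring
    rcases mul_eq_zero.1 this with h | h
    · exact h4 (pow_eq_zero_iff (three_ne_zero) |>.1 h)
    · exact absurd h (pow_ne_zero _ hv)
  obtain ⟨x, hx⟩ : ∃ x : ℂ, x ^ 2 = v * E₄ τ / (u * E₆ τ) := by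
    exact IsAlgClosed.exists_pow_nat_eq _ two_pos
  have hx0 : x ≠ 0 := by
    intro h0
    rw [h0] at hx
    have : v * E₄ τ / (u * E₆ τ) ≠ 0 :=
      div_ne_zero (mul_ne_zero hv h4) (mul_ne_zero hu h6)
    apply this
    rw [← hx]
    ring
  have hx4 : x ^ 4 * E₄ τ = u := by
    have : x ^ 4 = (x ^ 2) ^ 2 := by ring
    rw [this, hx]
    field_simp
    linear_combination h1
  have hx6 : x ^ 6 * E₆ τ = v := by
    have : x ^ 6 = (x ^ 2) ^ 3 := by ring
    rw [this, hx]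
    field_simp
    linear_combination h1
  have h7 := step3 P h τ x ((z - x ^ 2 * EisensteinSeries.E2 τ) / x)
  rw [hx4, hx6] at h7
  have h8 : x ^ 2 * EisensteinSeries.E2 τ + (z - x ^ 2 * EisensteinSeries.E2 τ) / x * x = z := by
    field_simp
    ring
  rw [h8] at h7
  exact h7

end E2I

theorem e2_indep_C (P : MvPolynomial (Fin 3) ℂ)
    (h : MvPolynomial.aeval ![PowerSeries.map (Int.castRingHom ℂ) E2z,
      PowerSeries.map (Int.castRingHom ℂ) E4z, PowerSeries.map (Int.castRingHom ℂ) E6z] P = 0) :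
    P = 0 := by
  have h1 := E2I.step4 P (E2I.step1 P h)
  have h2 : P * (MvPolynomial.X 1 * MvPolynomial.X 2 *
      (MvPolynomial.X 1 ^ 3 - MvPolynomial.X 2 ^ 2)) = 0 := by
    apply MvPolynomial.funext
    intro w
    rw [map_zero]
    simp only [map_mul, map_sub, map_pow, MvPolynomial.eval_X]
    by_cases hu : w 1 = 0
    · rw [hu]; ring
    by_cases hv : w 2 = 0
    · rw [hv]; ring
    by_cases huv : w 1 ^ 3 - w 2 ^ 2 = 0
    · rw [huv]; ring
    have h3 := h1 (w 0) (w 1) (w 2) hu hv huv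
    have h4 : (![w 0, w 1, w 2] : Fin 3 → ℂ) = w := by
      funext i
      fin_cases i <;> rfl
    rw [E2I.v3, h4] at h3
    rw [h3, zero_mul]
  rcases mul_eq_zero.1 h2 with h3 | h3
  · exact h3
  · exfalso
    have h4 := congrArg (MvPolynomial.eval (![0, 2, 1] : Fin 3 → ℂ)) h3
    simp only [map_mul, map_sub, map_pow, MvPolynomial.eval_X, map_zero, Matrix.cons_val] at h4
    norm_num at h4

namespace E2I

/-- the monomials in the three integral power series -/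
noncomputable def mon (d : Fin 3 →₀ ℕ) : PowerSeries ℤ :=
  ∏ i, (![E2z, E4z, E6z] : Fin 3 → PowerSeries ℤ) i ^ d i

theorem coeff_aeval {A : Type} [CommRing A] (P : MvPolynomial (Fin 3) A) (n : ℕ) :
    coeff n (MvPolynomial.aeval ![PowerSeries.map (Int.castRingHom A) E2z,
      PowerSeries.map (Int.castRingHom A) E4z, PowerSeries.map (Int.castRingHom A) E6z] P) =
    ∑ d ∈ P.support, P.coeff d * ((coeff n (mon d) : ℤ) : A) := by
  rw [MvPolynomial.aeval_def, MvPolynomial.eval₂_eq', map_sum]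
  refine Finset.sum_congr rfl fun d _ => ?_
  have h1 : (algebraMap A (PowerSeries A)) (P.coeff d) = C (P.coeff d) := rfl
  have h2 : ∏ i, (![PowerSeries.map (Int.castRingHom A) E2z,
      PowerSeries.map (Int.castRingHom A) E4z, PowerSeries.map (Int.castRingHom A) E6z] :
        Fin 3 → PowerSeries A) i ^ d i = PowerSeries.map (Int.castRingHom A) (mon d) := by
    rw [mon, map_prod]
    refine Finset.prod_congr rfl fun i _ => ?_
    rw [map_pow]
    fin_cases i <;> rfl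
  rw [h1, h2, coeff_C_mul, coeff_map]
  rfl

theorem coeff_aeval_monomial {A : Type} [CommRing A] (d : Fin 3 →₀ ℕ) (a : A) (n : ℕ) :
    coeff n (MvPolynomial.aeval ![PowerSeries.map (Int.castRingHom A) E2z,
      PowerSeries.map (Int.castRingHom A) E4z, PowerSeries.map (Int.castRingHom A) E6z]
      (MvPolynomial.monomial d a)) = a * ((coeff n (mon d) : ℤ) : A) := by
  rw [MvPolynomial.aeval_monomial, Finsupp.prod_fintype _ _ (fun i => pow_zero _)]
  have h1 : (algebraMap A (PowerSeries A)) a = C a := rfl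
  have h2 : ∏ i, (![PowerSeries.map (Int.castRingHom A) E2z,
      PowerSeries.map (Int.castRingHom A) E4z, PowerSeries.map (Int.castRingHom A) E6z] :
        Fin 3 → PowerSeries A) i ^ d i = PowerSeries.map (Int.castRingHom A) (mon d) := by
    rw [mon, map_prod]
    refine Finset.prod_congr rfl fun i _ => ?_
    rw [map_pow]
    fin_cases i <;> rfl
  rw [h1, h2, coeff_C_mul, coeff_map]
  rfl

end E2I

theorem e2_indep (p : ℕ) [Fact p.Prime] (P : MvPolynomial (Fin 3) ℤ_[p])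
    (h : MvPolynomial.aeval ![PowerSeries.map (Int.castRingHom ℤ_[p]) E2z,
      PowerSeries.map (Int.castRingHom ℤ_[p]) E4z, PowerSeries.map (Int.castRingHom ℤ_[p]) E6z] P = 0) :
    P = 0 := by
  classical
  obtain ⟨a, ha⟩ : ∃ a : (Fin 3 →₀ ℕ) → ℚ_[p], ∀ d, a d = ((P.coeff d : ℤ_[p]) : ℚ_[p]) :=
    ⟨_, fun _ => rfl⟩
  have h1 : ∀ n, ∑ d ∈ P.support, a d * ((coeff n (E2I.mon d) : ℤ) : ℚ_[p]) = 0 := by
    intro n
    have h2 := E2I.coeff_aeval P n
    rw [h, map_zero] at h2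
    have h3 : ((0 : ℤ_[p]) : ℚ_[p]) = ((∑ d ∈ P.support,
      P.coeff d * ((coeff n (E2I.mon d) : ℤ) : ℤ_[p]) : ℤ_[p]) : ℚ_[p]) := by rw [← h2]
    rw [PadicInt.coe_sum, PadicInt.coe_zero] at h3
    rw [h3]
    refine Finset.sum_congr rfl fun d _ => ?_
    rw [PadicInt.coe_mul, PadicInt.coe_intCast, ha]
  have h2 : ∀ (φ : Module.Dual ℚ ℚ_[p]) (d : Fin 3 →₀ ℕ), φ (a d) = 0 := by
    intro φ
    have h3 : (∑ d ∈ P.support, MvPolynomial.monomial d
        ((φ (a d) : ℚ) : ℂ) : MvPolynomial (Fin 3) ℂ) = 0 := by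
      apply e2_indep_C
      ext n
      rw [map_sum, map_sum, map_zero]
      have h5 := congrArg φ (h1 n)
      rw [map_zero, map_sum] at h5
      have h6 : ∀ d, φ (a d * ((coeff n (E2I.mon d) : ℤ) : ℚ_[p])) =
          φ (a d) * ((coeff n (E2I.mon d) : ℤ) : ℚ) := by
        intro d
        rw [mul_comm, ← zsmul_eq_mul, map_zsmul, zsmul_eq_mul, mul_comm]
      rw [Finset.sum_congr rfl (fun d _ => h6 d)] at h5
      have h7 : ((∑ d ∈ P.support, φ (a d) * ((coeff n (E2I.mon d) : ℤ) : ℚ) : ℚ) : ℂ) =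
        ((0 : ℚ) : ℂ) := by rw [h5]
      rw [Rat.cast_sum, Rat.cast_zero] at h7
      rw [← h7]
      refine Finset.sum_congr rfl fun d _ => ?_
      rw [E2I.coeff_aeval_monomial, Rat.cast_mul, Rat.cast_intCast]
    intro d
    have h4 := congrArg (MvPolynomial.coeff d) h3
    rw [MvPolynomial.coeff_sum, MvPolynomial.coeff_zero] at h4
    simp only [MvPolynomial.coeff_monomial] at h4
    rw [Finset.sum_ite_eq'] at h4
    by_cases hd : d ∈ P.support
    · rw [if_pos hd] at h4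
      exact_mod_cast h4
    · rw [ha, MvPolynomial.notMem_support_iff.1 hd, PadicInt.coe_zero, map_zero]
  ext d
  have h3 := (Module.forall_dual_apply_eq_zero_iff ℚ (a d)).1 (fun φ => h2 φ d)
  rw [MvPolynomial.coeff_zero]
  rw [ha] at h3
  exact PadicInt.ext h3

end Pool.Agent.ZPB
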