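import Pool.Agent.ZPB.LEis
import Pool.Agent.ZPB.E2Indep

/-!
# Module AI14: `e2` is transcendental over the modular functions

Let `M` be the subfield of `L` generated by `e4, e6`. `J = jL ι 0 = 1728 e4³/(e4³ - e6²) ∈ M` (`jL_eq`). `F` is algebraic over the
subfield generated by `J`, so over `M`; so `F ⊔ M` is algebraic over `M`, and if `e2` is algebraic over it, it is algebraic over
`M`: clearing denominators, `P(e2, e4, e6) = 0` with `P ∈ ℤ[A, B, C]`, where `P(A, e4, e6) ≠ 0` as a polynomial in `A`, so `P ≠ 0`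
(elements of `M` are quotients of values of integral polynomials at `(e4, e6)`). `P(e2, e4, e6) = ι(subst (X 0) (P(E2, E4, E6)))` in the notation of
`e2_indep` (map `P` to `ℤ_p` coefficients), so by `hinj` `P(E2, E4, E6) = 0` in `ℤ_p[[X]]`, and `P = 0` by `e2_indep` (`ℤ → ℤ_p` is injective):
contradiction.
-/

namespace Pool.Agent.ZPB

open MvPowerSeries

variable {p : ℕ} [Fact p.Prime] {L : Type} [Field L]

namespace E2AlgAux

lemma alg_mono {K₁ K₂ : Subfield L} (h : K₁ ≤ K₂) {x : L} (hx : IsAlgebraic K₁ x) :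
    IsAlgebraic K₂ x := by
  obtain ⟨P, hP, h0⟩ := hx
  refine ⟨P.map (Subfield.inclusion h),
    (Polynomial.map_ne_zero_iff (Subfield.inclusion h).injective).2 hP, ?_⟩
  rw [Polynomial.aeval_def, Polynomial.eval₂_map]
  rw [Polynomial.aeval_def] at h0
  exact h0

lemma indep_int [CharZero L] {ι : RR p (Fin 3) →+* L}
    (hinj : ∀ f : PowerSeries ℤ_[p], ι (PowerSeries.subst (X 0 : RR p (Fin 3)) f) = 0 → f = 0) :
    AlgebraicIndependent ℤ ![eL ι E2z 0, eL ι E4z 0, eL ι E6z 0] := by
  rw [algebraicIndependent_iff]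
  intro P hP
  have hs : PowerSeries.HasSubst (X 0 : RR p (Fin 3)) :=
    PowerSeries.HasSubst.of_constantCoeff_zero (by simp)
  set φ : PowerSeries ℤ_[p] →+* L :=
    ι.comp (PowerSeries.substAlgHom (R := ℤ_[p]) hs).toRingHom with hφ
  have hφa : ∀ f, φ f = ι (PowerSeries.subst (X 0 : RR p (Fin 3)) f) := by
    intro f
    rw [hφ, RingHom.comp_apply, AlgHom.toRingHom_eq_coe, RingHom.coe_coe,
      PowerSeries.coe_substAlgHom]
  have key : φ (MvPolynomial.aeval ![PowerSeries.map (Int.castRingHom ℤ_[p]) E2z,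
      PowerSeries.map (Int.castRingHom ℤ_[p]) E4z, PowerSeries.map (Int.castRingHom ℤ_[p]) E6z]
      (MvPolynomial.map (Int.castRingHom ℤ_[p]) P)) = 0 := by
    rw [← hP]
    rw [MvPolynomial.aeval_def, MvPolynomial.aeval_def, MvPolynomial.eval₂_map,
      MvPolynomial.hom_eval₂]
    refine congrArg₂ (fun a b => MvPolynomial.eval₂ a b P) ?_ ?_
    · exact RingHom.ext_int _ _
    · funext i
      fin_cases i
      · exact hφa _
      · exact hφa _
      · exact hφa _
  have h1 := hinj _ ((hφa _).symm.trans key)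
  have h2 := e2_indep p _ h1
  exact (MvPolynomial.map_injective _ (RingHom.injective_int _)) (h2.trans (map_zero _).symm)

end E2AlgAux

open E2AlgAux

theorem e2_not_alg [CharZero L] {ι : RR p (Fin 3) →+* L} (h0 : ι (X 0) ≠ 0)
    (hinj : ∀ f : PowerSeries ℤ_[p], ι (PowerSeries.subst (X 0 : RR p (Fin 3)) f) = 0 → f = 0)
    {F : Subfield L} (hF : ∀ x ∈ F, IsAlgebraic (Subfield.closure ({jL ι 0} : Set L)) x) :
    ¬ IsAlgebraic (F ⊔ Subfield.closure ({eL ι E4z 0, eL ι E6z 0} : Set L) : Subfield L)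
      (eL ι E2z 0) := by
  intro hal
  have h1 := indep_int hinj
  have halg : Algebra.IsAlgebraic ℤ ℚ := IsLocalization.isAlgebraic ℚ (nonZeroDivisors ℤ)
  have h2 := h1.extendScalars ℚ
  have h3 : AlgebraicIndependent ℚ (fun o : Option (Fin 2) =>
      o.elim (eL ι E2z 0) ![eL ι E4z 0, eL ι E6z 0]) := by
    have hi : Function.Injective (fun o : Option (Fin 2) => (o.elim 0 Fin.succ : Fin 3)) := by
      decide
    have := h2.comp _ hi
    convert! this using 1
    funext o
    rcases o with _ | o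
    · rfl
    · fin_cases o <;> rfl
  have h4 := (AlgebraicIndependent.option_iff.1 h3).2
  have h5 := IntermediateField.transcendental_adjoin_iff.2 h4
  set K : IntermediateField ℚ L :=
    IntermediateField.adjoin ℚ (Set.range ![eL ι E4z 0, eL ι E6z 0]) with hK
  have hm4 : eL ι E4z 0 ∈ K := IntermediateField.subset_adjoin _ _ ⟨0, rfl⟩
  have hm6 : eL ι E6z 0 ∈ K := IntermediateField.subset_adjoin _ _ ⟨1, rfl⟩
  have hmj : jL ι 0 ∈ K := by
    rw [jL_eq ι h0]
    refine div_mem (mul_mem ?_ (pow_mem hm4 3)) (sub_mem (pow_mem hm4 3) (pow_mem hm6 2))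
    exact_mod_cast natCast_mem K 1728
  have hcl : Subfield.closure ({jL ι 0} : Set L) ≤ K.toSubfield := by
    rw [Subfield.closure_le]
    rintro x rfl
    exact hmj
  have hle : F ⊔ Subfield.closure ({eL ι E4z 0, eL ι E6z 0} : Set L) ≤
      (algebraicClosure K L).toSubfield := by
    refine sup_le ?_ ?_
    · intro x hx
      exact mem_algebraicClosure_iff.2 (alg_mono hcl (hF x hx))
    · rw [Subfield.closure_le]
      rintro x (rfl | rfl)
      · exact (algebraicClosure K L).algebraMap_mem ⟨_, hm4⟩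
      · exact (algebraicClosure K L).algebraMap_mem ⟨_, hm6⟩
  have h6 : IsAlgebraic (algebraicClosure K L) (eL ι E2z 0) := alg_mono hle hal
  exact h5 (h6.restrictScalars K)

end Pool.Agent.ZPB
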