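import Pool.Agent.ZPB.DiffBasic

/-!
# Module AI1: elimination (first order Ax-type theorem)

Let `u_i = Dθ_i/θ_i`. Suppose `∑ c_i θ_i = 0` with constants `c_i`, not all zero. One nonzero `c_i` is impossible. If exactly
two, `c_i θ_i = -c_j θ_j`, then `u_i = u_j` and so `S_i = S_j`: contradiction. So all are nonzero. Put `a = c_0 θ_0`,
`b = c_1 θ_1`, `c = -c_2 θ_2 = a + b`, `P = a/c`, `1 - P = b/c`, `w = u_0 - u_1`, `s = u_0 + u_1`, `A = S_0 - S_2`,
`B = S_1 - S_2 ≠ 0`.
(1) `u_2 = P u_0 + (1-P) u_1`, `D P = P (1-P) w`; the equation of `u_2` gives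
`(3/2) P (1-P) w² + P A + (1-P) B = 0`. (`P ≠ 0, 1`.)
(2) `D w = w s/2 + (S_0 - S_1)`, `D s = (s² + w²)/4 + S_0 + S_1`.
(3) If `P` is algebraic over `F`: then `w` is algebraic over `F` by (1); `w ≠ 0` (else `S_0 = S_1` by (2)); `D w` is
algebraic over `F` (an element algebraic over the `D`-stable `F` has its derivative in `F(w)`, characteristic 0), so
`s = 2 (D w - (S_0 - S_1))/w` and `u_0 = (s + w)/2` are algebraic over `F`: contradiction with `h2`.
(4) Let `P` be transcendental over `F`. `W = w² = -(2/3) N/(P(1-P))`, `N = B + (A - B) P`. `w ∉ F(P)` (`W` has a simple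
zero or pole: it is not a square in `F(P)`; at `P = 0` it has a simple pole as `B ≠ 0`). For `g ∈ F(P)` write `g_F`
for the derivative of the coefficients and `g_P` for the derivative in `P`: `D g = g_F + g_P P (1-P) w`. From (2)
`s = D W/W - 2 (A - B)/w = s0 + s1 w` with `s0 = W_F/W = N_F/N`, `N_F = DB + (DA - DB) P`,
`s1 = P(1-P) W_P/W - 2 (A-B)/W = -1 + 2P + 4 (A-B) P (1-P)/N`. The part without `w` of
`D s = (s² + W)/4 + S_0 + S_1` is
`(s0)_F + P(1-P) ((s1)_P W + s1 W_P/2) = (s0² + s1² W + W)/4 + S_0 + S_1`, an identity in `F(P)`, i.e. of rational functions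
of a variable `P`. Expand at `P = 0`: `W = -(2/3)(B/P + A + …)`, `s0 = DB/B + …`, `s1 = -1 + (4A/B - 2) P + …`;
`LHS = D(DB/B) - (B/3)/P + B - (4/3) A + O(P)`, `RHS = (DB/B)²/4 - (B/3)/P + A - (2/3) B + S_0 + S_1 + O(P)`. The
constant terms give `D(DB/B) - (DB/B)²/4 = (10 S_0 - 2 S_1 - 2 S_2)/3`, which is `R1`: contradiction with `h3`.
(To avoid expansions: multiply by `P (1-P) N²` to get a polynomial identity in `P` over `F` and compare the coefficient
of `P^1`, using the transcendence of `P`. To avoid the argument `w ∉ F(P)`: if `α + β w = 0` with `α, β ∈ F(P)` and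
`β ≠ 0` then `W = (α/β)²`, and the order at `P = 0` is odd.)
-/

namespace Pool.Agent.ZPB

variable {L : Type} [Field L]

open Polynomial

namespace Elim

/-- the algebra of the elimination -/
private theorem core [CharZero L] (P w s B De dB dDe ddB ddDe Sg : L)
    (e1 : 3 / 2 * (P * (1 - P)) * w ^ 2 + (B + P * De) = 0)
    (e5 : (B + P * De) * s - (dB + P * dDe) -
      (4 * De * (P * (1 - P)) - (1 - 2 * P) * (B + P * De)) * w = 0)
    (e6 : (dB + P * dDe + De * (P * (1 - P)) * w) * s +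
      (B + P * De) * ((s ^ 2 + w ^ 2) / 4 + Sg) - (ddB + P * ddDe) - dDe * (P * (1 - P)) * w -
      (4 * dDe * (P * (1 - P)) + 4 * De * (1 - 2 * P) * (P * (1 - P)) * w +
        2 * (P * (1 - P)) * w * (B + P * De) -
        (1 - 2 * P) * (dB + P * dDe + De * (P * (1 - P)) * w)) * w -
      (4 * De * (P * (1 - P)) - (1 - 2 * P) * (B + P * De)) * (w * s / 2 + De) = 0) :
    15 * (dB + P * dDe) ^ 2 - 48 * De ^ 2 * (P * (1 - P)) * (B + P * De) +
      28 * De * (1 - 2 * P) * (B + P * De) ^ 2 + 8 * (B + P * De) ^ 3 +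
      12 * (B + P * De) ^ 2 * Sg - 12 * (B + P * De) * (ddB + P * ddDe) +
      60 * (P * (1 - P)) * (De * dB - B * dDe) * w = 0 := by
  linear_combination 12 * ((B + P * De) * e6 -
    ((dB + P * dDe + De * (P * (1 - P)) * w) +
      ((B + P * De) * s + (dB + P * dDe) +
        (4 * De * (P * (1 - P)) - (1 - 2 * P) * (B + P * De)) * w) / 4 -
      (4 * De * (P * (1 - P)) - (1 - 2 * P) * (B + P * De)) * w / 2) * e5 -
    2 / 3 * (De * (4 * De * (P * (1 - P)) - (1 - 2 * P) * (B + P * De)) +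
      (4 * (B + P * De) ^ 2 + 8 * De * (1 - 2 * P) * (B + P * De) -
        16 * De ^ 2 * (P * (1 - P))) / 4 -
      (B + P * De) * (3 * De * (1 - 2 * P) + 2 * (B + P * De))) * e1)

variable {D : L → L}

private theorem two_mul' (hD : IsDer D) (x : L) : D (2 * x) = 2 * D x := by
  rw [two_mul, two_mul, hD.1]

private theorem four_mul' (hD : IsDer D) (x : L) : D (4 * x) = 4 * D x := by
  have e : (4 : L) * x = 2 * (2 * x) := by ring
  rw [e, two_mul' hD, two_mul' hD]
  ring

/-- derivations act on elements algebraic over a stable subfield -/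
private theorem aeval_der (hD : IsDer D) {F : Subfield L} (hF : ∀ x ∈ F, D x ∈ F) (x : L)
    (p : F[X]) : ∃ r : F[X], D (aeval x p) = aeval x r + aeval x (derivative p) * D x := by
  induction p using Polynomial.induction_on with
  | C a =>
    refine ⟨C ⟨D a, hF a a.2⟩, ?_⟩
    rw [aeval_C, aeval_C, derivative_C, map_zero, zero_mul, add_zero]
    rfl
  | add p q hp hq =>
    obtain ⟨r, hr⟩ := hp
    obtain ⟨r', hr'⟩ := hq
    refine ⟨r + r', ?_⟩
    rw [map_add, hD.1, hr, hr', derivative_add, map_add, map_add]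
    ring
  | monomial n a hp =>
    obtain ⟨r, hr⟩ := hp
    refine ⟨r * X, ?_⟩
    have e : (C a * X ^ (n + 1) : F[X]) = C a * X ^ n * X := by
      rw [pow_succ, mul_assoc]
    rw [e]
    generalize (C a * X ^ n : F[X]) = p at hr
    have e2 : derivative (p * X) = derivative p * X + p := by
      rw [derivative_mul, derivative_X, mul_one]
    have e3 : aeval x (derivative p * X + p) = aeval x (derivative p) * x + aeval x p := by
      rw [map_add, map_mul, aeval_X]
    have e4 : aeval x (r * X) = aeval x r * x := by rw [map_mul, aeval_X]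
    have e5 : aeval x (p * X) = aeval x p * x := by rw [map_mul, aeval_X]
    rw [e2, e3, e4, e5, hD.2, hr]
    ring

private theorem der_algebraic [CharZero L] (hD : IsDer D) {F : Subfield L}
    (hF : ∀ x ∈ F, D x ∈ F) {x : L} (hx : IsAlgebraic F x) : IsAlgebraic F (D x) := by
  have hint : IsIntegral F x := isAlgebraic_iff_isIntegral.1 hx
  obtain ⟨r, hr⟩ := aeval_der hD hF x (minpoly F x)
  rw [minpoly.aeval, hD.zero] at hr
  have hsep : (minpoly F x).Separable := (minpoly.irreducible hint).separable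
  have hne := hsep.aeval_derivative_ne_zero (minpoly.aeval F x)
  have e : D x = -(aeval x r) / aeval x (derivative (minpoly F x)) := by
    rw [eq_div_iff hne]
    linear_combination -hr
  have hxK : x ∈ algebraicClosure F L := mem_algebraicClosure_iff.2 hx
  have hK : ∀ p : F[X], aeval x p ∈ algebraicClosure F L := by
    intro p
    rw [aeval_eq_sum_range]
    exact sum_mem fun i _ => (algebraicClosure F L).smul_mem (pow_mem hxK i)
  rw [← mem_algebraicClosure_iff, e]
  exact div_mem (neg_mem (hK r)) (hK _)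

/-- two terms -/
private theorem two_term (hD : IsDer D) {θ S : Fin 3 → L} (hθ : ∀ i, θ i ≠ 0)
    (hu : ∀ i, D (D (θ i) / θ i) = (D (θ i) / θ i) ^ 2 / 2 + S i)
    (h1 : ∀ i j, i ≠ j → S i ≠ S j) {i j : Fin 3} (hij : i ≠ j) {a b : L} (ha : D a = 0)
    (hb : D b = 0) (h : a * θ i + b * θ j = 0) : a = 0 ∧ b = 0 := by
  by_cases ha0 : a = 0
  · refine ⟨ha0, ?_⟩
    rw [ha0, zero_mul, zero_add] at h
    exact (mul_eq_zero.1 h).resolve_right (hθ j)
  · exfalso
    have hb0 : b ≠ 0 := by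
      rintro rfl
      rw [zero_mul, add_zero] at h
      exact ha0 ((mul_eq_zero.1 h).resolve_right (hθ i))
    have h2 : a * D (θ i) + b * D (θ j) = 0 := by
      have h3 := congrArg D h
      rw [hD.1, hD.2, hD.2, ha, hb, hD.zero] at h3
      linear_combination h3
    have h4 : D (θ i) / θ i = D (θ j) / θ j := by
      rw [div_eq_div_iff (hθ i) (hθ j)]
      have h5 : a * (D (θ i) * θ j - D (θ j) * θ i) = 0 := by
        linear_combination θ j * h2 - D (θ j) * h
      linear_combination (mul_eq_zero.1 h5).resolve_left ha0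
    apply h1 i j hij
    have h6 := hu i
    rw [h4, hu j] at h6
    exact (add_left_cancel h6).symm

/-- the three term case -/
private theorem three [CharZero L] (hD : IsDer D) {u0 u1 u2 a b S0 S1 S2 : L}
    (ha0 : a ≠ 0) (hb0 : b ≠ 0) (hab : a + b ≠ 0) (ha : D a = a * u0) (hb : D b = b * u1)
    (hab' : D (a + b) = (a + b) * u2)
    (hu0 : D u0 = u0 ^ 2 / 2 + S0) (hu1 : D u1 = u1 ^ 2 / 2 + S1) (hu2 : D u2 = u2 ^ 2 / 2 + S2)
    {F : Subfield L} (hF : ∀ x ∈ F, D x ∈ F) (hS0 : S0 ∈ F) (hS1 : S1 ∈ F) (hS2 : S2 ∈ F)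
    (h01 : S0 ≠ S1) (h12 : S1 ≠ S2) (h2 : ¬ IsAlgebraic F u0) : R1 D S0 S1 S2 := by
  set e := a + b with he
  set P := a / e with hP
  have hPe : P * e = a := div_mul_cancel₀ a hab
  have h1Pe : (1 - P) * e = b := by
    rw [sub_mul, one_mul, hPe, he]
    ring
  have hP0 : P ≠ 0 := div_ne_zero ha0 hab
  have hP1 : 1 - P ≠ 0 := by
    intro h
    rw [h, zero_mul] at h1Pe
    exact hb0 h1Pe.symm
  have hu2' : u2 = P * u0 + (1 - P) * u1 := by
    have h3 : e * u2 = e * (P * u0 + (1 - P) * u1) := by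
      rw [← hab', he, hD.1, ha, hb]
      linear_combination -u0 * hPe - u1 * h1Pe
    exact mul_left_cancel₀ hab h3
  set w := u0 - u1 with hw
  set s := u0 + u1 with hs
  set B := S1 - S2 with hB
  set De := S0 - S1 with hDe
  have hB0 : B ≠ 0 := sub_ne_zero.2 h12
  have hDe0 : De ≠ 0 := sub_ne_zero.2 h01
  have hDP : D P = P * (1 - P) * w := by
    rw [hP, hD.div a hab, ha, hab', hu2', ← hP]
    have h3 : (a * u0 * e - a * (e * (P * u0 + (1 - P) * u1))) / e ^ 2 =
        a / e * (u0 - (P * u0 + (1 - P) * u1)) := by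
      field_simp
    rw [h3, ← hP, hw]
    ring
  have hDw : D w = w * s / 2 + De := by
    rw [hw, hD.sub, hu0, hu1, hs, hDe]
    ring
  have hDs : D s = (s ^ 2 + w ^ 2) / 4 + (S0 + S1) := by
    rw [hs, hD.1, hu0, hu1, hw]
    ring
  have hDq : D (P * (1 - P)) = (1 - 2 * P) * (P * (1 - P) * w) := by
    rw [hD.2, hD.sub, hD.one, hDP]
    ring
  -- the equation of u2
  have e1 : 3 / 2 * (P * (1 - P)) * w ^ 2 + (B + P * De) = 0 := by
    have h3 := hu2
    rw [hu2', hD.1, hD.2, hD.2, hD.sub, hD.one, hDP, hu0, hu1] at h3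
    rw [hw, hB, hDe]
    rw [hw] at h3
    linear_combination h3
  have hDN : D (B + P * De) = D B + P * D De + De * (P * (1 - P)) * w := by
    rw [hD.1, hD.2, hDP]
    ring
  -- the derivative of e1
  have e5 : (B + P * De) * s - (D B + P * D De) -
      (4 * De * (P * (1 - P)) - (1 - 2 * P) * (B + P * De)) * w = 0 := by
    have h3 : P * (1 - P) * (w * w) + P * (1 - P) * (w * w) + P * (1 - P) * (w * w) +
        ((B + P * De) + (B + P * De)) = 0 := by
      linear_combination 2 * e1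
    have h4 := congrArg D h3
    rw [hD.zero, hD.1, hD.1 _ (P * (1 - P) * (w * w)), hD.1 (P * (1 - P) * (w * w)),
      hD.1 (B + P * De), hD.2 (P * (1 - P)) (w * w), hD.2 w w, hDq, hDw, hDN] at h4
    linear_combination -(1 / 2 : L) * h4 + ((1 - 2 * P) * w + s) * e1
  -- the derivative of e5
  have e6 : (D B + P * D De + De * (P * (1 - P)) * w) * s +
      (B + P * De) * ((s ^ 2 + w ^ 2) / 4 + (S0 + S1)) - (D (D B) + P * D (D De)) -
      D De * (P * (1 - P)) * w -
      (4 * D De * (P * (1 - P)) + 4 * De * (1 - 2 * P) * (P * (1 - P)) * w +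
        2 * (P * (1 - P)) * w * (B + P * De) -
        (1 - 2 * P) * (D B + P * D De + De * (P * (1 - P)) * w)) * w -
      (4 * De * (P * (1 - P)) - (1 - 2 * P) * (B + P * De)) * (w * s / 2 + De) = 0 := by
    have h3 : (B + P * De) * s = (D B + P * D De) +
        (4 * (De * (P * (1 - P))) - (1 - 2 * P) * (B + P * De)) * w := by
      linear_combination e5
    have h4 := congrArg D h3
    rw [hD.2 (B + P * De) s, hD.1 (D B + P * D De), hD.1 (D B), hD.2 P (D De),
      hD.2 _ w, hD.sub (4 * (De * (P * (1 - P)))), four_mul' hD, hD.2 De (P * (1 - P)),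
      hD.2 (1 - 2 * P) (B + P * De), hD.sub 1 (2 * P), hD.one, two_mul' hD, hDN, hDs, hDq, hDw,
      hDP] at h4
    linear_combination h4
  have e7 := core P w s B De (D B) (D De) (D (D B)) (D (D De)) (S0 + S1) e1 e5 e6
  -- the constant coefficient
  by_cases hal : 15 * D B ^ 2 + 28 * De * B ^ 2 + 8 * B ^ 3 + 12 * B ^ 2 * (S0 + S1) -
      12 * B * D (D B) = 0
  · rw [R1, hD.div (D (S1 - S2)) (sub_ne_zero.2 h12), ← hB]
    have h3 : S0 = De + S1 := by rw [hDe]; ring
    have h4 : S2 = S1 - B := by rw [hB]; ring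
    rw [h3, h4]
    rw [h3] at hal
    field_simp
    linear_combination 2 * hal
  exfalso
  have hBF : B ∈ F := F.sub_mem hS1 hS2
  have hDeF : De ∈ F := F.sub_mem hS0 hS1
  have hSg : S0 + S1 ∈ F := F.add_mem hS0 hS1
  have hPalg : IsAlgebraic F P := by
    let b : F := ⟨B, hBF⟩
    let de : F := ⟨De, hDeF⟩
    let db : F := ⟨D B, hF _ hBF⟩
    let dde : F := ⟨D De, hF _ hDeF⟩
    let ddb : F := ⟨D (D B), hF _ (hF _ hBF)⟩
    let ddde : F := ⟨D (D De), hF _ (hF _ hDeF)⟩
    let sg : F := ⟨S0 + S1, hSg⟩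
    let Np : F[X] := C b + X * C de
    let NFp : F[X] := C db + X * C dde
    let NFFp : F[X] := C ddb + X * C ddde
    let qp : F[X] := X * (1 - X)
    let alp : F[X] := 15 * NFp ^ 2 - 48 * C de ^ 2 * qp * Np + 28 * C de * (1 - 2 * X) * Np ^ 2 +
      8 * Np ^ 3 + 12 * Np ^ 2 * C sg - 12 * Np * NFFp
    let Q : F[X] := alp ^ 2 + 2400 * (C de * C db - C b * C dde) ^ 2 * qp * Np
    refine ⟨Q, ?_, ?_⟩
    · intro hQ
      apply hal
      have h3 : Q.eval 0 = 0 := by rw [hQ, eval_zero]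
      have h4 : Q.eval 0 = (15 * db ^ 2 + 28 * de * b ^ 2 + 8 * b ^ 3 + 12 * b ^ 2 * sg -
          12 * b * ddb) ^ 2 := by
        simp [Q, alp, qp, Np, NFp, NFFp]
      rw [h4] at h3
      have h5 := congrArg F.subtype (pow_eq_zero_iff two_ne_zero |>.1 h3)
      simp only [map_sub, map_add, map_mul, map_pow, map_ofNat, map_zero] at h5
      exact h5
    · have h3 : aeval P Q = (15 * (D B + P * D De) ^ 2 -
          48 * De ^ 2 * (P * (1 - P)) * (B + P * De) +
          28 * De * (1 - 2 * P) * (B + P * De) ^ 2 + 8 * (B + P * De) ^ 3 +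
          12 * (B + P * De) ^ 2 * (S0 + S1) - 12 * (B + P * De) * (D (D B) + P * D (D De))) ^ 2 +
          2400 * (De * D B - B * D De) ^ 2 * (P * (1 - P)) * (B + P * De) := by
        have hc : ∀ x : F, aeval P (C x : F[X]) = (x : L) := fun x => by
          rw [aeval_C]; rfl
        simp only [Q, alp, qp, Np, NFp, NFFp, map_add, map_sub, map_mul, map_pow, map_one,
          map_ofNat, aeval_X, hc]
        rfl
      rw [h3]
      linear_combination (15 * (D B + P * D De) ^ 2 -
          48 * De ^ 2 * (P * (1 - P)) * (B + P * De) +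
          28 * De * (1 - 2 * P) * (B + P * De) ^ 2 + 8 * (B + P * De) ^ 3 +
          12 * (B + P * De) ^ 2 * (S0 + S1) - 12 * (B + P * De) * (D (D B) + P * D (D De)) -
          60 * (P * (1 - P)) * (De * D B - B * D De) * w) * e7 +
          2400 * (P * (1 - P)) * (De * D B - B * D De) ^ 2 * e1
  apply h2
  set K := algebraicClosure F L with hK
  have hFK : ∀ x ∈ F, x ∈ K := fun x hx => K.algebraMap_mem ⟨x, hx⟩
  have hPK : P ∈ K := mem_algebraicClosure_iff.2 hPalg
  have hq0 : P * (1 - P) ≠ 0 := mul_ne_zero hP0 hP1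
  have h2K : ∀ n : ℕ, (n : L) ∈ K := fun n => natCast_mem K n
  have hw2 : w ^ 2 = -(2 * (B + P * De)) / (3 * (P * (1 - P))) := by
    rw [eq_div_iff (mul_ne_zero three_ne_zero hq0)]
    linear_combination 2 * e1
  have hwK : w ∈ K := by
    rw [hK, mem_algebraicClosure_iff]
    apply IsAlgebraic.of_pow two_pos
    rw [← mem_algebraicClosure_iff, hw2]
    refine div_mem (neg_mem (mul_mem ?_ (add_mem (hFK B hBF) (mul_mem hPK (hFK De hDeF)))))
      (mul_mem ?_ (mul_mem hPK (sub_mem (one_mem _) hPK)))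
    · exact_mod_cast h2K 2
    · exact_mod_cast h2K 3
  have hw0 : w ≠ 0 := by
    intro h
    have h3 := hDw
    rw [h, hD.zero, zero_mul, zero_div, zero_add] at h3
    exact hDe0 h3.symm
  have hDwK : D w ∈ K := mem_algebraicClosure_iff.2 (der_algebraic hD hF
    (mem_algebraicClosure_iff.1 hwK))
  have hsK : s ∈ K := by
    have h3 : s = 2 * (D w - De) / w := by
      rw [eq_div_iff hw0, hDw]
      ring
    rw [h3]
    exact div_mem (mul_mem (by exact_mod_cast h2K 2) (sub_mem hDwK (hFK De hDeF))) hwK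
  have hu0K : u0 ∈ K := by
    have h3 : u0 = (s + w) / 2 := by
      rw [hs, hw]
      ring
    rw [h3]
    exact div_mem (add_mem hsK hwK) (by exact_mod_cast h2K 2)
  exact mem_algebraicClosure_iff.1 hu0K

end Elim

open Elim in
theorem three_term [CharZero L] {D : L → L} (hD : IsDer D) {θ S : Fin 3 → L} (hθ : ∀ i, θ i ≠ 0)
    (hu : ∀ i, D (D (θ i) / θ i) = (D (θ i) / θ i) ^ 2 / 2 + S i) {F : Subfield L}
    (hF : ∀ x ∈ F, D x ∈ F) (hS : ∀ i, S i ∈ F) (h1 : ∀ i j, i ≠ j → S i ≠ S j)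
    (h2 : ¬ IsAlgebraic F (D (θ 0) / θ 0)) (h3 : ¬ R1 D (S 0) (S 1) (S 2))
    {c : Fin 3 → L} (hc : ∀ i, D (c i) = 0) (hrel : ∑ i, c i * θ i = 0) : c = 0 := by
  rw [Fin.sum_univ_three] at hrel
  have key : c 0 = 0 ∧ c 1 = 0 ∧ c 2 = 0 := by
    by_cases c0 : c 0 = 0
    · rw [c0, zero_mul, zero_add] at hrel
      have h := two_term hD hθ hu h1 (i := 1) (j := 2) (by decide) (hc 1) (hc 2) hrel
      exact ⟨c0, h.1, h.2⟩
    by_cases c1 : c 1 = 0
    · rw [c1, zero_mul, add_zero] at hrel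
      have h := two_term hD hθ hu h1 (i := 0) (j := 2) (by decide) (hc 0) (hc 2) hrel
      exact ⟨h.1, c1, h.2⟩
    by_cases c2 : c 2 = 0
    · rw [c2, zero_mul, add_zero] at hrel
      have h := two_term hD hθ hu h1 (i := 0) (j := 1) (by decide) (hc 0) (hc 1) hrel
      exact ⟨h.1, h.2, c2⟩
    exfalso
    apply h3
    have hder : ∀ i, D (c i * θ i) = c i * θ i * (D (θ i) / θ i) := by
      intro i
      rw [hD.2, hc i, zero_mul, zero_add, mul_assoc, mul_div_cancel₀ _ (hθ i)]
    have e : c 0 * θ 0 + c 1 * θ 1 = -(c 2 * θ 2) := by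
      linear_combination hrel
    refine three hD (u0 := D (θ 0) / θ 0) (u1 := D (θ 1) / θ 1) (u2 := D (θ 2) / θ 2)
      (mul_ne_zero c0 (hθ 0)) (mul_ne_zero c1 (hθ 1)) ?_ (hder 0) (hder 1) ?_ (hu 0) (hu 1) (hu 2)
      hF (hS 0) (hS 1) (hS 2) (h1 0 1 (by decide)) (h1 1 2 (by decide)) h2
    · rw [e]
      exact neg_ne_zero.2 (mul_ne_zero c2 (hθ 2))
    · rw [e, hD.neg, hder 2, neg_mul]
  funext i
  fin_cases i
  · exact key.1
  · exact key.2.1
  · exact key.2.2

end Pool.Agent.ZPB
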