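import Pool.Agent.ZPB.SReal
import Pool.Agent.Hhelper14.ZP2.Formal

/-!
# Module AI7b: the translation `s` is rational

`stab`: let `P ≠ 0`, `P(j(τ), j(rτ + s)) = 0` for all `τ`. For `k ∈ ℕ` let `γ_k = (1 0; k 1)`, `f_k(τ) = j(r γ_k τ + s)`,
`γ_k τ = τ/(kτ + 1)`. As `j(γ_k τ) = j(τ)` (`jInv_smul`): `P(j(τ), f_k(τ)) = 0`. Let `P = ∑ P_l(X) Y^l` have degree `d` in `Y`,
`P_l ≠ 0` for some `l`; `{τ : P_l(j(τ)) = 0}` is countable (`zero_of_uncountable`; `j` is surjective). For the other `τ` the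
polynomial `P(j(τ), Y)` has at most `d` roots, so `f_k(τ) = f_l(τ)` for some `k < l ≤ d`. So for some `k < l` the set
`{f_k = f_l}` is uncountable and `f_k = f_l` on `ℍ`.
`growth`: let `k < l` be natural numbers, `m = l - k`, `g τ = rτ + s`, and `j(g γ_k τ) = j(g γ_l τ)` for all `τ`. With
`τ = γ_k⁻¹ g⁻¹ z`: `j(η z) = j(z)` for `z ∈ ℍ`, `η = g γ_m g⁻¹`, `η z = ρ - r²/(m (m (z - s) + r))`, `ρ = s + r/m`.
Let `z = iy`, `y → ∞`, `w = η z`: `Im w = r² y/(m² y² + a²)`, `a = r - m s`. There is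
`γ = (* *; k' l') ∈ SL₂(ℤ)` with `γ w` in the standard fundamental domain, `Im γw ≥ 1/2`. There are constants with
`|j(v)| ≤ C exp(2π Im v)` if `Im v ≥ 1/2`, and `|j(iy)| ≥ exp(2πy)/2` for large `y`. So `Im γw ≥ y - C'`, where
`Im γw = Im w/|k' w + l'|²`. Hence `|k' w + l'|² ≤ Im w/(y - C') → 0`. As `|k' w + l'| ≥ |k'| Im w`:
`k'² ≤ 1/(Im w (y - C'))` is bounded and `|k' ρ + l'| ≤ K / y`; `k' ≠ 0` because `k' = 0` implies `l' = ±1`.
So `ρ = s + r/m` is rational, and `s` is.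
-/

namespace Pool.Agent.ZPB

open UpperHalfPlane Pool.Agent.Hhelper14.ZP
open scoped Manifold MatrixGroups

namespace SRatAux

theorem den_ne {z : ℂ} (hz : 0 < z.im) (k : ℝ) : (k : ℂ) * z + 1 ≠ 0 := by
  intro h
  have h1 := congrArg Complex.im h
  have h2 := congrArg Complex.re h
  simp only [Complex.add_im, Complex.mul_im, Complex.ofReal_re, Complex.ofReal_im, zero_mul,
    add_zero, Complex.one_im, Complex.zero_im] at h1
  simp only [Complex.add_re, Complex.mul_re, Complex.ofReal_re, Complex.ofReal_im, zero_mul,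
    sub_zero, Complex.one_re, Complex.zero_re] at h2
  rcases mul_eq_zero.1 h1 with h3 | h3
  · rw [h3] at h2
    norm_num at h2
  · exact hz.ne' h3

theorem im_div {z : ℂ} (hz : 0 < z.im) (k : ℝ) : 0 < (z / ((k : ℂ) * z + 1)).im := by
  have h1 : 0 < Complex.normSq ((k : ℂ) * z + 1) := Complex.normSq_pos.2 (den_ne hz k)
  have h2 : (z / ((k : ℂ) * z + 1)).im = z.im / Complex.normSq ((k : ℂ) * z + 1) := by
    rw [Complex.div_im]
    simp only [Complex.add_im, Complex.mul_im, Complex.ofReal_re, Complex.ofReal_im, zero_mul,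
      add_zero, Complex.one_im, Complex.add_re, Complex.mul_re, sub_zero, Complex.one_re]
    field_simp
    ring
  rw [h2]
  exact div_pos hz h1

theorem im_pt {z : ℂ} (hz : 0 < z.im) {r : ℝ} (hr : 0 < r) (s k : ℝ) :
    0 < ((r : ℂ) * (z / ((k : ℂ) * z + 1)) + s).im := by
  have h1 := mul_pos hr (im_div hz k)
  simpa [Complex.add_im, Complex.mul_im] using h1

/-- the point `r γ_k τ + s` -/
noncomputable def pt {r : ℝ} (hr : 0 < r) (s k : ℝ) (τ : ℍ) : ℍ :=
  ⟨(r : ℂ) * ((τ : ℂ) / ((k : ℂ) * τ + 1)) + s, im_pt τ.im_pos hr s k⟩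

theorem coe_pt {r : ℝ} (hr : 0 < r) (s k : ℝ) (τ : ℍ) :
    ((pt hr s k τ : ℍ) : ℂ) = (r : ℂ) * ((τ : ℂ) / ((k : ℂ) * τ + 1)) + s := rfl

theorem pt_mdiff {r : ℝ} (hr : 0 < r) (s k : ℝ) : MDiff (fun τ : ℍ => jInv (pt hr s k τ)) := by
  have h1 := jInv_mdiff
  rw [UpperHalfPlane.mdifferentiable_iff] at h1 ⊢
  have h2 : DifferentiableOn ℂ (fun z : ℂ => (r : ℂ) * (z / ((k : ℂ) * z + 1)) + s)
      {z : ℂ | 0 < z.im} := by
    intro z hz
    have h3 : (k : ℂ) * z + 1 ≠ 0 := den_ne hz k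
    refine DifferentiableAt.differentiableWithinAt ?_
    refine DifferentiableAt.add_const _ (DifferentiableAt.const_mul ?_ _)
    refine DifferentiableAt.fun_div differentiableAt_id ?_ h3
    exact ((differentiableAt_id).const_mul _).add_const _
  have h3 := h1.comp h2 (fun z hz => im_pt hz hr s k)
  refine h3.congr fun z hz => ?_
  simp only [Function.comp_apply]
  rw [ofComplex_apply_of_im_pos hz, ofComplex_apply_of_im_pos (im_pt hz hr s k)]
  rfl

/-- `j(γ_k τ) = j(τ)` -/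
theorem j_gam (k : ℕ) (τ τ' : ℍ) (h : (τ' : ℂ) = (τ : ℂ) / ((k : ℂ) * τ + 1)) :
    jInv τ' = jInv τ := by
  let γ : SL(2, ℤ) := ⟨!![1, 0; (k : ℤ), 1], by rw [Matrix.det_fin_two_of]; ring⟩
  have h1 : τ' = γ • τ := by
    apply UpperHalfPlane.ext
    rw [h, UpperHalfPlane.coe_specialLinearGroup_apply]
    simp [γ]
  rw [h1, jInv_smul]

theorem uncountable_H : ¬ (Set.univ : Set ℍ).Countable := by
  intro h
  have h1 : Countable ℍ := Set.countable_univ_iff.1 h
  have h2 : Countable ℝ := by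
    refine Function.Injective.countable (f := fun x : ℝ => (⟨(x : ℂ) + Complex.I, by simp⟩ : ℍ)) ?_
    intro x y hxy
    have h3 := congrArg (fun z : ℍ => (z : ℂ).re) hxy
    simpa using h3
  exact Cardinal.not_countable_real Set.countable_univ

theorem countable_level (c : ℂ) : {τ : ℍ | jInv τ = c}.Countable := by
  by_contra hcon
  have h1 : MDiff (fun τ : ℍ => jInv τ - c) := jInv_mdiff.sub mdifferentiable_const
  have h2 := Hhelper14.ZPL.zero_of_uncountable h1 (by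
    intro h3
    apply hcon
    refine h3.mono fun τ hτ => ?_
    exact sub_eq_zero.2 hτ)
  obtain ⟨τ, hτ⟩ := Hhelper14.ZPL.j_surj (c + 1)
  have h3 := h2 τ
  rw [hτ] at h3
  simp at h3

end SRatAux

open SRatAux

theorem stab {r : ℝ} (hr : 0 < r) {s : ℝ} {P : MvPolynomial (Fin 2) ℂ} (hP : P ≠ 0)
    (hv : ∀ τ τ' : ℍ, (τ' : ℂ) = r * τ + s → MvPolynomial.eval ![jInv τ, jInv τ'] P = 0) :
    ∃ k l : ℕ, k < l ∧ ∀ τ τ1 τ2 : ℍ, (τ1 : ℂ) = r * (τ / (k * τ + 1)) + s →
      (τ2 : ℂ) = r * (τ / (l * τ + 1)) + s → jInv τ1 = jInv τ2 := by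
  classical
  obtain ⟨P', hP'⟩ : ∃ P' : Polynomial (Polynomial ℂ), P' = MvPolynomial.aeval
    (![Polynomial.C Polynomial.X, Polynomial.X] : Fin 2 → Polynomial (Polynomial ℂ)) P := ⟨_, rfl⟩
  have hev : ∀ a y : ℂ, (P'.map (Polynomial.evalRingHom a)).eval y =
      MvPolynomial.eval ![a, y] P := by
    intro a y
    have h1 : ((Polynomial.evalRingHom y).comp
        (Polynomial.mapRingHom (Polynomial.evalRingHom a))).comp
        (MvPolynomial.aeval (![Polynomial.C Polynomial.X, Polynomial.X] :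
          Fin 2 → Polynomial (Polynomial ℂ)) : MvPolynomial (Fin 2) ℂ →ₐ[ℂ] _).toRingHom =
        MvPolynomial.eval ![a, y] := by
      apply MvPolynomial.ringHom_ext
      · intro c
        simp
      · intro i
        fin_cases i <;> simp
    rw [hP', ← h1]
    rfl
  have hP0 : P' ≠ 0 := by
    intro h0
    apply hP
    refine MvPolynomial.funext fun x => ?_
    have h1 := hev (x 0) (x 1)
    rw [h0] at h1
    have h2 : (![x 0, x 1] : Fin 2 → ℂ) = x := by
      funext i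
      fin_cases i <;> rfl
    rw [h2] at h1
    simpa using h1.symm
  obtain ⟨l0, hl0⟩ : ∃ l0, P'.coeff l0 ≠ 0 := by
    by_contra hcon
    push Not at hcon
    exact hP0 (Polynomial.ext fun n => by rw [hcon n, Polynomial.coeff_zero])
  set d := P'.natDegree with hd
  set f : ℕ → ℍ → ℂ := fun k τ => jInv (pt hr s k τ) with hf
  have hroot : ∀ (k : ℕ) (τ : ℍ), (P'.map (Polynomial.evalRingHom (jInv τ))).eval (f k τ) = 0 := by
    intro k τ
    rw [hev]
    have h1 := hv ⟨(τ : ℂ) / ((k : ℂ) * τ + 1), by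
      have := im_div τ.im_pos k
      simpa using this⟩ (pt hr s k τ) (by rw [coe_pt]; simp)
    rw [j_gam k τ _ rfl] at h1
    exact h1
  -- the bad set
  have hZ : {τ : ℍ | P'.map (Polynomial.evalRingHom (jInv τ)) = 0}.Countable := by
    have h1 : {τ : ℍ | P'.map (Polynomial.evalRingHom (jInv τ)) = 0} ⊆
        ⋃ c ∈ (P'.coeff l0).roots.toFinset, {τ : ℍ | jInv τ = c} := by
      intro τ hτ
      have h2 : (P'.coeff l0).eval (jInv τ) = 0 := by
        have h3 := congrArg (fun Q : Polynomial ℂ => Q.coeff l0) hτ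
        simpa [Polynomial.coeff_map] using h3
      rw [Set.mem_iUnion₂]
      refine ⟨jInv τ, ?_, rfl⟩
      rw [Multiset.mem_toFinset, Polynomial.mem_roots hl0]
      exact h2
    refine Set.Countable.mono h1 ?_
    exact Set.Countable.biUnion (Finset.countable_toSet _) fun c _ => countable_level c
  have hpig : ∀ τ : ℍ, P'.map (Polynomial.evalRingHom (jInv τ)) ≠ 0 →
      ∃ k l : ℕ, k < l ∧ f k τ = f l τ := by
    intro τ hτ
    set Q := P'.map (Polynomial.evalRingHom (jInv τ)) with hQ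
    have hcard : Q.roots.toFinset.card < (Finset.range (d + 1)).card := by
      rw [Finset.card_range]
      have h1 := Multiset.toFinset_card_le Q.roots
      have h2 := Polynomial.card_roots' Q
      have h3 : Q.natDegree ≤ d := Polynomial.natDegree_map_le
      omega
    obtain ⟨x, _, y, _, hxy, hfxy⟩ := Finset.exists_ne_map_eq_of_card_lt_of_maps_to hcard
      (f := fun k => f k τ) (fun k _ => by
        rw [Finset.mem_coe, Multiset.mem_toFinset, Polynomial.mem_roots hτ]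
        exact hroot k τ)
    rcases lt_or_gt_of_ne hxy with h | h
    · exact ⟨x, y, h, hfxy⟩
    · exact ⟨y, x, h, hfxy.symm⟩
  obtain ⟨k, l, hkl, hunc⟩ : ∃ k l : ℕ, k < l ∧ ¬ {τ : ℍ | f k τ = f l τ}.Countable := by
    by_contra hcon
    push Not at hcon
    apply uncountable_H
    have h1 : (Set.univ : Set ℍ) ⊆ {τ : ℍ | P'.map (Polynomial.evalRingHom (jInv τ)) = 0} ∪
        ⋃ k : ℕ, ⋃ l : ℕ, ⋃ (_ : k < l), {τ : ℍ | f k τ = f l τ} := by
      intro τ _
      by_cases hτ : P'.map (Polynomial.evalRingHom (jInv τ)) = 0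
      · exact Or.inl hτ
      · obtain ⟨k, l, hkl, h⟩ := hpig τ hτ
        right
        simp only [Set.mem_iUnion]
        exact ⟨k, l, hkl, h⟩
    refine Set.Countable.mono h1 (hZ.union ?_)
    refine Set.countable_iUnion fun k => Set.countable_iUnion fun l => ?_
    exact Set.countable_iUnion fun hkl => hcon k l hkl
  have hdiff : MDiff (fun τ : ℍ => f k τ - f l τ) := (pt_mdiff hr s k).sub (pt_mdiff hr s l)
  have hzero := Hhelper14.ZPL.zero_of_uncountable hdiff (by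
    intro h1
    apply hunc
    refine h1.mono fun τ hτ => ?_
    exact sub_eq_zero.2 hτ)
  refine ⟨k, l, hkl, fun τ τ1 τ2 h1 h2 => ?_⟩
  have e1 : τ1 = pt hr s k τ := UpperHalfPlane.ext (by rw [h1, coe_pt]; simp)
  have e2 : τ2 = pt hr s l τ := UpperHalfPlane.ext (by rw [h2, coe_pt]; simp)
  rw [e1, e2]
  exact sub_eq_zero.1 (hzero τ)

namespace SRatAux

/-- bounds for `j` near the cusp -/
theorem j_bound : ∃ C : ℝ, 1 ≤ C ∧ (∀ v : ℍ, 1 / 2 ≤ v.im →
    ‖jInv v‖ ≤ C * Real.exp (2 * Real.pi * v.im)) ∧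
    ∀ v : ℍ, 1 / 2 ≤ v.im → (1 - C * Real.exp (-(2 * Real.pi * v.im))) *
      Real.exp (2 * Real.pi * v.im) ≤ ‖jInv v‖ := by
  obtain ⟨f, -, hf0, hf⟩ := exists_Jf
  have hnorm : ∀ v : ℍ, ‖Function.Periodic.qParam 1 (v : ℂ)‖ = Real.exp (-(2 * Real.pi * v.im)) := by
    intro v
    rw [Function.Periodic.norm_qParam]
    congr 1
    simp
  let v0 : ℍ := ⟨(1 / 2 : ℝ) * Complex.I, by simp⟩
  have hv0 : v0.im = 1 / 2 := by
    show ((1 / 2 : ℝ) * Complex.I : ℂ).im = 1 / 2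
    simp
  set q0 : ℝ := ‖Function.Periodic.qParam 1 (v0 : ℂ)‖ with hq0
  have hq0p : 0 < q0 := by rw [hq0, hnorm]; exact Real.exp_pos _
  have hsum : Summable fun n => ‖PowerSeries.coeff n f‖ * q0 ^ n := by
    refine (hf v0).1.congr fun n => ?_
    rw [norm_mul, norm_pow]
  set S : ℝ := ∑' n, ‖PowerSeries.coeff (n + 1) f‖ * q0 ^ n with hS
  have hsum' : Summable fun n => ‖PowerSeries.coeff (n + 1) f‖ * q0 ^ n := by
    have h1 := (summable_nat_add_iff 1).2 hsum
    refine (h1.mul_left q0⁻¹).congr fun n => ?_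
    rw [pow_succ]
    field_simp
  have hS0 : 0 ≤ S := tsum_nonneg fun n => by positivity
  have key : ∀ v : ℍ, 1 / 2 ≤ v.im → ‖Function.Periodic.qParam 1 (v : ℂ) * jInv v - 1‖ ≤
      S * Real.exp (-(2 * Real.pi * v.im)) := by
    intro v hv
    set q := Function.Periodic.qParam 1 (v : ℂ) with hq
    have hqle : ‖q‖ ≤ q0 := by
      rw [hq, hq0, hnorm, hnorm, hv0]
      apply Real.exp_le_exp.2
      have := Real.pi_pos
      nlinarith
    have h1 := (hasSum_nat_add_iff' 1).2 (hf v).2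
    rw [Finset.sum_range_one, pow_zero, mul_one, hf0] at h1
    rw [← h1.tsum_eq]
    refine tsum_of_norm_bounded (hsum'.hasSum.mul_right (Real.exp (-(2 * Real.pi * v.im)))) ?_
    intro n
    rw [norm_mul, norm_pow, pow_succ, ← hnorm v, ← hq, ← mul_assoc]
    refine mul_le_mul_of_nonneg_right ?_ (norm_nonneg _)
    exact mul_le_mul_of_nonneg_left (pow_le_pow_left₀ (norm_nonneg _) hqle n) (norm_nonneg _)
  refine ⟨S + 1, by linarith, fun v hv => ?_, fun v hv => ?_⟩
  · have h1 := key v hv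
    have h2 : ‖Function.Periodic.qParam 1 (v : ℂ) * jInv v‖ ≤ S + 1 := by
      have h3 : Real.exp (-(2 * Real.pi * v.im)) ≤ 1 := by
        apply Real.exp_le_one_iff.2
        have := Real.pi_pos
        nlinarith
      have h4 := norm_le_norm_sub_add (Function.Periodic.qParam 1 (v : ℂ) * jInv v) 1
      rw [norm_one] at h4
      nlinarith
    rw [norm_mul, hnorm, Real.exp_neg] at h2
    have h5 := Real.exp_pos (2 * Real.pi * v.im)
    rwa [inv_mul_le_iff₀ h5, mul_comm] at h2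
  · have h1 := key v hv
    have h2 : 1 - (S + 1) * Real.exp (-(2 * Real.pi * v.im)) ≤
        ‖Function.Periodic.qParam 1 (v : ℂ) * jInv v‖ := by
      have h4 := norm_sub_norm_le (1 : ℂ) (1 - Function.Periodic.qParam 1 (v : ℂ) * jInv v)
      rw [norm_one, sub_sub_cancel, norm_sub_rev] at h4
      have h5 := Real.exp_pos (-(2 * Real.pi * v.im))
      nlinarith
    rw [norm_mul, hnorm] at h2
    have h5 := Real.exp_pos (2 * Real.pi * v.im)
    have h6 := mul_le_mul_of_nonneg_right h2 h5.le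
    refine h6.trans (le_of_eq ?_)
    rw [mul_right_comm, ← Real.exp_add]
    simp

/-- the row of a matrix bringing `w` to the fundamental domain -/
theorem exists_row (w : ℍ) : ∃ (v : ℍ) (c d : ℤ), jInv v = jInv w ∧ 1 / 2 ≤ v.im ∧
    v.im = w.im / Complex.normSq ((c : ℂ) * w + d) ∧ (c = 0 → |(d : ℝ)| = 1) := by
  obtain ⟨g, hg⟩ := ModularGroup.exists_smul_mem_fd w
  refine ⟨g • w, g 1 0, g 1 1, jInv_smul g w, ?_, ?_, fun hc => ?_⟩
  · have h1 := ModularGroup.three_le_four_mul_im_sq_of_mem_fd hg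
    have h2 := (g • w).im_pos
    nlinarith
  · rw [ModularGroup.im_smul_eq_div_normSq, ModularGroup.denom_apply]
  · have h1 := g.det_coe
    rw [Matrix.det_fin_two] at h1
    have hc' : (g : Matrix (Fin 2) (Fin 2) ℤ) 1 0 = 0 := hc
    rw [hc', mul_zero, sub_zero] at h1
    have h2 : IsUnit ((g : Matrix (Fin 2) (Fin 2) ℤ) 1 1) :=
      IsUnit.of_mul_eq_one _ (by rw [mul_comm]; exact h1)
    have h3 := Int.isUnit_iff_abs_eq.1 h2
    exact_mod_cast h3

/-- the geometry of `η (i y)` -/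
theorem eta_geom {r : ℝ} (hr : 0 < r) {s m : ℝ} (hm : 1 ≤ m) {y : ℝ} (hy : 0 < y)
    (hya : |r - m * s| ≤ m * y) {w : ℂ}
    (hw : w = ((s + r / m : ℝ) : ℂ) - r ^ 2 / (m * (m * (y * Complex.I - s) + r))) :
    w.im ≤ (r / m) ^ 2 / y ∧ (r / m) ^ 2 / (2 * y) ≤ w.im ∧
      ‖w - ((s + r / m : ℝ) : ℂ)‖ ≤ (r / m) ^ 2 / y := by
  have hm0 : 0 < m := by linarith
  set D : ℂ := m * (y * Complex.I - s) + r with hD
  have hDre : D.re = r - m * s := by
    rw [hD]
    simp
    ring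
  have hDim : D.im = m * y := by
    rw [hD]
    simp
  have hN : Complex.normSq D = (r - m * s) ^ 2 + (m * y) ^ 2 := by
    rw [Complex.normSq_apply, hDre, hDim]
    ring
  have hN1 : (m * y) ^ 2 ≤ Complex.normSq D := by
    rw [hN]
    nlinarith [sq_nonneg (r - m * s)]
  have hN2 : Complex.normSq D ≤ 2 * (m * y) ^ 2 := by
    rw [hN]
    have h1 := pow_le_pow_left₀ (abs_nonneg _) hya 2
    rw [sq_abs] at h1
    linarith
  have hmy : 0 < m * y := mul_pos hm0 hy
  have hN0 : 0 < Complex.normSq D := lt_of_lt_of_le (by positivity) hN1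
  have hD0 : D ≠ 0 := by
    intro h
    rw [h] at hN0
    simp at hN0
  have him : w.im = r ^ 2 * y / Complex.normSq D := by
    have h1 : w = ((s + r / m : ℝ) : ℂ) - ((r ^ 2 / m : ℝ) : ℂ) * D⁻¹ := by
      rw [hw]
      congr 1
      push_cast
      have : (m : ℂ) ≠ 0 := by exact_mod_cast hm0.ne'
      field_simp
    rw [h1, Complex.sub_im, Complex.ofReal_im, Complex.mul_im, Complex.ofReal_re,
      Complex.ofReal_im, Complex.inv_im, hDim]
    field_simp
    ring
  refine ⟨?_, ?_, ?_⟩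
  · rw [him, div_le_div_iff₀ hN0 hy]
    have h2 : (r / m) ^ 2 * (m * y) ^ 2 = r ^ 2 * y * y := by
      field_simp
    rw [← h2]
    exact mul_le_mul_of_nonneg_left hN1 (by positivity)
  · rw [him, div_le_div_iff₀ (by positivity) hN0]
    have h2 : (r / m) ^ 2 * (2 * (m * y) ^ 2) = r ^ 2 * y * (2 * y) := by
      field_simp
    rw [← h2]
    exact mul_le_mul_of_nonneg_left hN2 (by positivity)
  · have h1 : w - ((s + r / m : ℝ) : ℂ) = -(((r ^ 2 / m : ℝ) : ℂ) * D⁻¹) := by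
      rw [hw]
      push_cast
      have : (m : ℂ) ≠ 0 := by exact_mod_cast hm0.ne'
      field_simp
      ring
    rw [h1, norm_neg, norm_mul, norm_inv, Complex.norm_real, Real.norm_eq_abs,
      abs_of_nonneg (by positivity), ← div_eq_mul_inv, div_le_div_iff₀ (norm_pos_iff.2 hD0) hy]
    have h3 : m * y ≤ ‖D‖ := by
      rw [← hDim]
      exact (le_abs_self _).trans (Complex.abs_im_le_norm D)
    have h4 : (r / m) ^ 2 * (m * y) = r ^ 2 / m * y := by
      field_simp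
    rw [← h4]
    exact mul_le_mul_of_nonneg_left h3 (by positivity)

/-- `j (i y) = j (η (i y))` -/
theorem eta_j {r : ℝ} (hr : 0 < r) {s : ℝ} {k l : ℕ} (hkl : k < l)
    (h : ∀ τ τ1 τ2 : ℍ, (τ1 : ℂ) = r * (τ / (k * τ + 1)) + s →
      (τ2 : ℂ) = r * (τ / (l * τ + 1)) + s → jInv τ1 = jInv τ2) {y : ℝ} (hy : 0 < y) {v w : ℍ}
    (hv : (v : ℂ) = y * Complex.I)
    (hw : (w : ℂ) = ((s + r / ((l : ℝ) - k) : ℝ) : ℂ) -
      r ^ 2 / ((((l : ℝ) - k : ℝ) : ℂ) * ((((l : ℝ) - k : ℝ) : ℂ) * (y * Complex.I - s) + r))) :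
    jInv v = jInv w := by
  have hm0 : (0 : ℝ) < (l : ℝ) - k := by
    have : (k : ℝ) < l := by exact_mod_cast hkl
    linarith
  obtain ⟨m, hm⟩ : ∃ m : ℝ, m = (l : ℝ) - k := ⟨_, rfl⟩
  rw [← hm] at hw hm0
  obtain ⟨u, hu⟩ : ∃ u : ℂ, u = (y * Complex.I - s) / r := ⟨_, rfl⟩
  have huim : 0 < u.im := by
    have h1 : u.im = y / r := by
      rw [hu, Complex.div_ofReal_im]
      simp
    rw [h1]
    exact div_pos hy hr
  have hku : ((-(k : ℝ) : ℝ) : ℂ) * u + 1 ≠ 0 := den_ne huim _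
  have hmu : ((m : ℝ) : ℂ) * u + 1 ≠ 0 := den_ne huim _
  have hr0 : (r : ℂ) ≠ 0 := by exact_mod_cast hr.ne'
  have hmc : (m : ℂ) ≠ 0 := by exact_mod_cast hm0.ne'
  obtain ⟨τ, hτ⟩ : ∃ τ : ℍ, (τ : ℂ) = u / (((-(k : ℝ) : ℝ) : ℂ) * u + 1) :=
    ⟨⟨_, im_div huim (-(k : ℝ))⟩, rfl⟩
  have hlm : (l : ℂ) = (m : ℂ) + k := by
    rw [hm]
    push_cast
    ring
  have hru : (r : ℂ) * u = y * Complex.I - s := by
    rw [hu]
    field_simp
  push_cast at hku hτ
  obtain ⟨E, hE⟩ : ∃ E : ℂ, E = -(k : ℂ) * u + 1 := ⟨_, rfl⟩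
  obtain ⟨F, hF⟩ : ∃ F : ℂ, F = (m : ℂ) * u + 1 := ⟨_, rfl⟩
  rw [← hE] at hku hτ
  rw [← hF] at hmu
  refine h τ v w ?_ ?_
  · have h1 : (τ : ℂ) / (k * τ + 1) = u := by
      have h2 : (k : ℂ) * τ + 1 = 1 / E := by
        rw [hτ, eq_div_iff hku, add_mul, mul_assoc, div_mul_cancel₀ _ hku, hE]
        ring
      rw [h2, hτ]
      field_simp
    rw [h1, hru, hv]
    ring
  · have h1 : (τ : ℂ) / (l * τ + 1) = u / (m * u + 1) := by
      have h2 : (l : ℂ) * τ + 1 = F / E := by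
        rw [hτ, hlm, eq_div_iff hku, add_mul, mul_assoc, div_mul_cancel₀ _ hku, hE, hF]
        ring
      rw [h2, hτ, ← hF]
      field_simp
    have h3 : (m : ℂ) * (y * Complex.I - s) + r = r * (m * u + 1) := by
      rw [← hru]
      ring
    rw [h1, hw, h3, ← hF]
    push_cast
    have h4 : (u : ℂ) = (F - 1) / m := by
      rw [hF]
      field_simp
      ring
    rw [h4]
    field_simp
    ring

end SRatAux

open SRatAux

theorem growth {r : ℝ} (hr : 0 < r) {s : ℝ} {k l : ℕ} (hkl : k < l)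
    (h : ∀ τ τ1 τ2 : ℍ, (τ1 : ℂ) = r * (τ / (k * τ + 1)) + s →
      (τ2 : ℂ) = r * (τ / (l * τ + 1)) + s → jInv τ1 = jInv τ2) :
    ∃ ρ : ℚ, s + r / ((l : ℝ) - k) = ρ := by
  obtain ⟨C, hC1, hCup, hClow⟩ := j_bound
  obtain ⟨m, hm⟩ : ∃ m : ℝ, m = (l : ℝ) - k := ⟨_, rfl⟩
  have hm1 : 1 ≤ m := by
    have h1 : (k : ℝ) + 1 ≤ l := by exact_mod_cast hkl
    linarith
  have hm0 : 0 < m := by linarith
  obtain ⟨ρ, hρ⟩ : ∃ ρ : ℝ, ρ = s + r / m := ⟨_, rfl⟩
  rw [← hm, ← hρ]
  obtain ⟨c0, hc0⟩ : ∃ c0 : ℝ, c0 = (r / m) ^ 2 := ⟨_, rfl⟩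
  have hc0p : 0 < c0 := by rw [hc0]; positivity
  obtain ⟨K, hK⟩ : ∃ K : ℝ, K = (1 + 2 * c0) + (8 / c0 + 1) * c0 := ⟨_, rfl⟩
  have hKp : 0 < K := by rw [hK]; positivity
  -- the main estimate
  have main : ∃ y0 : ℝ, 0 < y0 ∧ ∀ y : ℝ, y0 ≤ y → ∃ c d : ℤ, (c = 0 → |(d : ℝ)| = 1) ∧
      (c : ℝ) ^ 2 ≤ 8 / c0 ∧ |(c : ℝ) * ρ + d| ≤ K / y := by
    have hlog : 0 ≤ Real.log (2 * C) := Real.log_nonneg (by linarith)
    have hpi := Real.pi_pos
    refine ⟨1 + |r - m * s| + 2 * Real.log (2 * C), by positivity, fun y hy => ?_⟩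
    have habs := abs_nonneg (r - m * s)
    have hy1 : 1 ≤ y := by linarith
    have hy0 : 0 < y := by linarith
    have hya : |r - m * s| ≤ m * y := by nlinarith
    have hylog : 2 * Real.log (2 * C) ≤ y := by linarith
    obtain ⟨v, hv⟩ : ∃ v : ℍ, (v : ℂ) = y * Complex.I := ⟨⟨y * Complex.I, by simpa using hy0⟩, rfl⟩
    have hvim : v.im = y := by
      have h1 := congrArg Complex.im hv
      simpa using h1
    obtain ⟨w', hw'⟩ : ∃ w' : ℂ, w' = ((s + r / m : ℝ) : ℂ) -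
      r ^ 2 / (m * (m * (y * Complex.I - s) + r)) := ⟨_, rfl⟩
    obtain ⟨g1, g2, g3⟩ := eta_geom hr hm1 hy0 hya hw'
    rw [← hc0] at g1 g2 g3
    rw [← hρ] at g3
    have hw'im : 0 < w'.im := lt_of_lt_of_le (by positivity) g2
    obtain ⟨w, hw⟩ : ∃ w : ℍ, (w : ℂ) = w' := ⟨⟨w', hw'im⟩, rfl⟩
    have hj := eta_j hr hkl h hy0 hv (w := w) (by
      rw [← hm, hw, hw'])
    obtain ⟨v', c, d, hv'j, hv'im, hv'eq, hcd⟩ := exists_row w
    refine ⟨c, d, hcd, ?_⟩
    have hwim : w.im = w'.im := by rw [← hw]; rfl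
    -- Im v' ≥ y / 2
    have hY : y / 2 ≤ v'.im := by
      have e1 := hClow v (by rw [hvim]; linarith)
      have e2 := hCup v' hv'im
      rw [hv'j, ← hj] at e2
      rw [hvim] at e1
      have e3 : C * Real.exp (-(2 * Real.pi * y)) ≤ 1 / 2 := by
        rw [Real.exp_neg, ← div_eq_mul_inv, div_le_div_iff₀ (Real.exp_pos _) (by norm_num)]
        have e4 : 2 * C = Real.exp (Real.log (2 * C)) := (Real.exp_log (by linarith)).symm
        have e5 : Real.exp (Real.log (2 * C)) ≤ Real.exp (2 * Real.pi * y) := by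
          apply Real.exp_le_exp.2
          have := Real.two_le_pi
          nlinarith
        linarith
      have e6 : 1 / 2 * Real.exp (2 * Real.pi * y) ≤ C * Real.exp (2 * Real.pi * v'.im) := by
        refine le_trans ?_ (e1.trans e2)
        exact mul_le_mul_of_nonneg_right (by linarith) (Real.exp_pos _).le
      have e7 : Real.exp (2 * Real.pi * y) ≤ Real.exp (Real.log (2 * C) + 2 * Real.pi * v'.im) := by
        rw [Real.exp_add, Real.exp_log (by linarith)]
        linarith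
      have e8 := Real.exp_le_exp.1 e7
      have e9 : 2 * Real.pi * y ≤ y / 2 + 2 * Real.pi * v'.im := by linarith
      have e10 := Real.two_le_pi
      by_contra hcon
      push Not at hcon
      have e11 : 2 * Real.pi * v'.im ≤ 2 * Real.pi * (y / 2) :=
        mul_le_mul_of_nonneg_left hcon.le (by positivity)
      nlinarith
    -- the norm of the denominator
    set Dn := Complex.normSq ((c : ℂ) * w + d) with hDn
    have hDn0 : 0 < Dn := by
      by_contra hcon
      have h0 : Dn = 0 := le_antisymm (not_lt.1 hcon) (Complex.normSq_nonneg _)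
      rw [h0, div_zero] at hv'eq
      linarith
    have hDle : Dn ≤ 2 * c0 / y ^ 2 := by
      have e1 : v'.im * Dn = w.im := by
        rw [hv'eq]
        field_simp
      have e2 : y / 2 * Dn ≤ c0 / y := by
        calc y / 2 * Dn ≤ v'.im * Dn := mul_le_mul_of_nonneg_right hY hDn0.le
          _ = w.im := e1
          _ ≤ c0 / y := by rw [hwim]; exact g1
      rw [le_div_iff₀ (by positivity)]
      rw [le_div_iff₀ hy0] at e2
      nlinarith
    have hDim : ((c : ℂ) * w + d).im = c * w'.im := by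
      rw [hw]
      simp
    have hc2 : (c : ℝ) ^ 2 ≤ 8 / c0 := by
      have e1 : ((c : ℝ) * w'.im) ^ 2 ≤ Dn := by
        rw [← hDim, hDn, Complex.normSq_apply]
        nlinarith [mul_self_nonneg ((c : ℂ) * w + d).re]
      have e2 : (c : ℝ) ^ 2 * (c0 / (2 * y)) ^ 2 ≤ 2 * c0 / y ^ 2 := by
        refine le_trans ?_ (e1.trans hDle)
        rw [mul_pow]
        exact mul_le_mul_of_nonneg_left (pow_le_pow_left₀ (by positivity) g2 2) (sq_nonneg _)
      rw [le_div_iff₀ hc0p]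
      have e3 : (c : ℝ) ^ 2 * (c0 / (2 * y)) ^ 2 = ((c : ℝ) ^ 2 * c0) * (c0 / (4 * y ^ 2)) := by
        field_simp
        ring
      have e4 : 2 * c0 / y ^ 2 = 8 * (c0 / (4 * y ^ 2)) := by
        field_simp
        ring
      rw [e3, e4] at e2
      exact le_of_mul_le_mul_right e2 (by positivity)
    refine ⟨hc2, ?_⟩
    have hcabs : |(c : ℝ)| ≤ 8 / c0 + 1 := by
      rcases le_or_gt |(c : ℝ)| 1 with h1 | h1
      · have : 0 < 8 / c0 := by positivity
        linarith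
      · have h2 : |(c : ℝ)| ≤ |(c : ℝ)| ^ 2 := by nlinarith
        rw [sq_abs] at h2
        linarith
    have hnorm1 : ‖(c : ℂ) * w + d‖ ≤ (1 + 2 * c0) / y := by
      have e1 : ‖(c : ℂ) * w + d‖ ^ 2 ≤ ((1 + 2 * c0) / y) ^ 2 := by
        rw [← Complex.normSq_eq_norm_sq, ← hDn, div_pow]
        refine hDle.trans ?_
        refine div_le_div_of_nonneg_right ?_ (by positivity)
        nlinarith
      exact le_of_sq_le_sq e1 (by positivity)
    have hfin : ‖((c : ℂ) * ρ + d)‖ ≤ K / y := by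
      have e1 : (c : ℂ) * ρ + d = ((c : ℂ) * w + d) - c * (w' - ρ) := by
        rw [hw]
        ring
      rw [e1]
      refine (norm_sub_le _ _).trans ?_
      rw [norm_mul, hK, add_div]
      refine add_le_add hnorm1 ?_
      have e2 : ‖(c : ℂ)‖ = |(c : ℝ)| := Complex.norm_intCast c
      rw [e2, mul_div_assoc]
      exact mul_le_mul hcabs g3 (norm_nonneg _) (by positivity)
    have e3 : ((c : ℂ) * ρ + d) = (((c : ℝ) * ρ + d : ℝ) : ℂ) := by
      push_cast
      ring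
    rw [e3, Complex.norm_real, Real.norm_eq_abs] at hfin
    exact hfin
  -- conclusion
  obtain ⟨y0, hy0, hmain⟩ := main
  by_contra hcon
  push Not at hcon
  obtain ⟨N, hN⟩ := exists_nat_gt (8 / c0)
  have hdist : ∀ c : ℤ, c ≠ 0 → 0 < |(c : ℝ) * ρ - round ((c : ℝ) * ρ)| := by
    intro c hc
    rw [abs_pos]
    intro h0
    have hc' : (c : ℝ) ≠ 0 := by exact_mod_cast hc
    apply hcon ((round ((c : ℝ) * ρ) : ℚ) / c)
    push_cast
    rw [eq_div_iff hc']
    linarith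
  obtain ⟨del, hdel, hdel'⟩ : ∃ del : ℝ, 0 < del ∧ ∀ c : ℤ, c ≠ 0 → |c| ≤ N →
      del ≤ |(c : ℝ) * ρ - round ((c : ℝ) * ρ)| := by
    rcases ((Finset.Icc (-(N : ℤ)) N).filter fun c => c ≠ 0).eq_empty_or_nonempty with he | hne
    · refine ⟨1, one_pos, fun c hc hcN => ?_⟩
      exfalso
      have h1 : c ∈ (Finset.Icc (-(N : ℤ)) N).filter fun c => c ≠ 0 := by
        rw [Finset.mem_filter, Finset.mem_Icc]
        exact ⟨abs_le.1 hcN, hc⟩
      rw [he] at h1
      exact absurd h1 (Finset.notMem_empty _)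
    · obtain ⟨c1, hc1, hmin⟩ := Finset.exists_min_image _
        (fun c : ℤ => |(c : ℝ) * ρ - round ((c : ℝ) * ρ)|) hne
      refine ⟨_, hdist c1 (Finset.mem_filter.1 hc1).2, fun c hc hcN => hmin c ?_⟩
      rw [Finset.mem_filter, Finset.mem_Icc]
      exact ⟨abs_le.1 hcN, hc⟩
  obtain ⟨c, d, hcd, hc2, hb⟩ := hmain (y0 + 2 * K / del + 2 * K) (by
    have : 0 < 2 * K / del := by positivity
    linarith)
  set y := y0 + 2 * K / del + 2 * K with hy
  have hyp : 0 < y := by rw [hy]; positivity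
  have hy1 : K / y < 1 := by
    rw [div_lt_one hyp, hy]
    have : 0 < 2 * K / del := by positivity
    linarith
  have hy2 : K / y < del := by
    rw [div_lt_iff₀ hyp, hy]
    have h1 : del * (2 * K / del) = 2 * K := by field_simp
    have h2 : 0 < del * y0 := by positivity
    have h3 : 0 < del * (2 * K) := by positivity
    nlinarith
  by_cases hc : c = 0
  · have h1 := hcd hc
    rw [hc] at hb
    simp only [Int.cast_zero, zero_mul, zero_add] at hb
    linarith
  · have h1 : |c| ≤ N := by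
      by_contra h2
      push Not at h2
      have h3 : (N : ℝ) < |(c : ℝ)| := by exact_mod_cast h2
      have h4 : (1 : ℝ) ≤ |(c : ℝ)| := by
        have : 1 ≤ |c| := Int.one_le_abs hc
        exact_mod_cast this
      have h5 : |(c : ℝ)| ≤ |(c : ℝ)| ^ 2 := by nlinarith
      rw [sq_abs] at h5
      linarith
    have h2 := hdel' c hc h1
    have h3 := round_le ((c : ℝ) * ρ) (-d)
    push_cast at h3
    rw [sub_neg_eq_add] at h3
    linarith

theorem s_rat {r : ℚ} (hr : 0 < r) {s : ℝ} {P : MvPolynomial (Fin 2) ℂ} (hP : P ≠ 0)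
    (hv : ∀ τ τ' : ℍ, (τ' : ℂ) = (r : ℝ) * τ + s → MvPolynomial.eval ![jInv τ, jInv τ'] P = 0) :
    ∃ s' : ℚ, s = s' := by
  have hr' : (0 : ℝ) < r := by exact_mod_cast hr
  obtain ⟨k, l, hkl, h⟩ := stab hr' hP hv
  obtain ⟨ρ, hρ⟩ := growth hr' hkl h
  refine ⟨ρ - r / ((l : ℚ) - k), ?_⟩
  push_cast
  linarith

end Pool.Agent.ZPB
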