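import Pool.Agent.ZPB.PlaceDer
import Pool.Agent.ZPB.SRat
import Pool.Agent.Hhelper14.ZPL.Hecke2

/-!
# Module AI9: functions with the same `SS` are related by a modular correspondence

`modRel_of_SS`: let `κ`, `f` be from `exists_place_der` for `x`. By `SS_place` `SS dt (κ x) = SS dt (κ y)`; `dt (κ x), dt (κ y) ≠ 0`.
`(κ x).order < 0`, so by `local_S` (`s = 1/2` iff there is a pole) `(κ y).order < 0`. Parameters (`exists_par`), `loc_eq`, `transfer`
give `r = n2/n1`, `s`, `h` with `Van r s h P` for all `P` with `P(x, y) = 0` (`aeval ![κ x, κ y] P = κ (aeval ![x, y] P)`, because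
`κ (algebraMap c) = C c = algebraMap c`). By `IsCF.dep` there is such a `P ≠ 0`; so `s` is real (`s_real`), rational
(`van_all`, `s_rat`). `g = (r s; 0 1)`: `gact g τ = r τ + s` (see `Hhelper14/ZP/Rat.lean`), and `van_all` gives the result.

`modRel_closed`: let `x` be transcendental, `F` a polynomial with `F(j(τ), j(gτ)) = 0` for all `τ`, and suppose
`f = F(x, y) ≠ 0`. By `IsCF.dep` (for `x`, `f`) there is `P ≠ 0`, `P(x, f) = 0`; dividing by a power of the second variable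
(`f ≠ 0`), `P = a(X) + Z P₁(X, Z)` with `a ≠ 0`. Then `G = P(X, F(X, Y))` has `G(x, y) = 0`, so `G(j(τ), j(gτ)) = 0`, i.e.
`a(j(τ)) = 0` for all `τ`; `j` is surjective (`j_surj`): `a = 0`, contradiction.
-/

namespace Pool.Agent.ZPB

open UpperHalfPlane Pool.Agent.Hhelper14.ZP

/-- all polynomial relations between `x` and `y` are satisfied by `j(τ)` and `j(gτ)`, for some
`g ∈ GL₂(ℚ)⁺` -/
def ModRel {K : Type} [Field K] [Algebra ℂ K] (x y : K) : Prop :=
  ∃ g : GL (Fin 2) ℚ, 0 < g.det.val ∧ ∀ P : MvPolynomial (Fin 2) ℂ,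
    MvPolynomial.aeval ![x, y] P = 0 → ∀ τ : ℍ, MvPolynomial.eval ![jInv τ, jInv (gact g τ)] P = 0

variable {K : Type} [Field K] [Algebra ℂ K]

theorem modRel_of_SS (hK : IsCF K) {D : K → K} (hD : IsDer D)
    (hDc : ∀ c : ℂ, D (algebraMap ℂ K c) = 0) {x y : K} (hx : D x ≠ 0) (hy : D y ≠ 0)
    (h : SS D x = SS D y) : ModRel x y := by
  obtain ⟨κ, f, hf, hκC, hord, hκ⟩ := exists_place_der hK hD hDc hx
  have hSx := SS_place hf hκ hx
  have hSy := SS_place hf hκ hy
  have hSS : SS dt (κ x) = SS dt (κ y) := by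
    rw [h, hSy] at hSx
    have hf2 : f ^ 2 ≠ 0 := pow_ne_zero _ hf
    have h1 : SS dt (κ y) - sc dt f = SS dt (κ x) - sc dt f := (div_left_inj' hf2).1 hSx
    exact (sub_left_inj.1 h1).symm
  have hκinj : Function.Injective κ := κ.injective
  have hdx : dt (κ x) ≠ 0 := by
    rw [hκ]
    exact mul_ne_zero hf fun h0 => hx (hκinj (by rw [h0, map_zero]))
  have hdy : dt (κ y) ≠ 0 := by
    rw [hκ]
    exact mul_ne_zero hf fun h0 => hy (hκinj (by rw [h0, map_zero]))
  have hordy : (κ y).order < 0 := by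
    obtain ⟨_, s, _, hs, hsx⟩ := local_S hdx
    obtain ⟨_, s', _, hs', hsy⟩ := local_S hdy
    rw [hSS, hs'] at hs
    have h1 : s' = s := by exact_mod_cast hs
    rw [← hsy, h1]
    exact hsx.2 hord
  obtain ⟨q1, hq1⟩ := exists_par hord
  obtain ⟨q2, hq2⟩ := exists_par hordy
  obtain ⟨w, n1, n2, c, hn1, hn2, hc, hw0, hw1, hw, hw'⟩ := loc_eq hdx hdy hq1 hq2 hSS
  rw [hw] at hq1
  rw [hw'] at hq2
  obtain ⟨s, hh, htr⟩ := transfer hn1 hn2 hc hw0 hw1 hq1 hq2
  -- relations between `x` and `y`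
  have hVan : ∀ P : MvPolynomial (Fin 2) ℂ, MvPolynomial.aeval ![x, y] P = 0 →
      Van ((n2 : ℝ) / n1) s hh P := by
    intro P hP
    refine htr P ?_
    have e : (MvPolynomial.aeval ![κ x, κ y] : MvPolynomial (Fin 2) ℂ →ₐ[ℂ] LaurentSeries ℂ) =
        ({ κ with commutes' := fun c => (hκC c).trans (LaurentSeries.algebraMap_apply ℂ c).symm } :
          K →ₐ[ℂ] LaurentSeries ℂ).comp (MvPolynomial.aeval ![x, y]) := by
      refine MvPolynomial.algHom_ext fun i => ?_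
      rw [AlgHom.comp_apply, MvPolynomial.aeval_X, MvPolynomial.aeval_X]
      fin_cases i
      · rfl
      · rfl
    rw [e, AlgHom.comp_apply, hP, map_zero]
  have hn1' : (0 : ℝ) < n1 := by exact_mod_cast hn1
  have hn2' : (0 : ℝ) < n2 := by exact_mod_cast hn2
  have hr : (0 : ℝ) < (n2 : ℝ) / n1 := div_pos hn2' hn1'
  obtain ⟨P0, hP0, hP0'⟩ := hK.dep x y
  have him := s_real hr hP0 (hVan P0 hP0')
  have hs : s = ((s.re : ℝ) : ℂ) := Complex.ext rfl (by rw [him, Complex.ofReal_im])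
  have hall : ∀ P : MvPolynomial (Fin 2) ℂ, MvPolynomial.aeval ![x, y] P = 0 →
      ∀ τ τ' : ℍ, (τ' : ℂ) = ((n2 : ℝ) / n1 : ℝ) * τ + (s.re : ℝ) →
        MvPolynomial.eval ![jInv τ, jInv τ'] P = 0 := by
    intro P hP
    have h1 := hVan P hP
    rw [hs] at h1
    exact van_all hr h1
  have hrq : (0 : ℚ) < (n2 : ℚ) / n1 := by
    have h1 : (0 : ℚ) < n1 := by exact_mod_cast hn1
    have h2 : (0 : ℚ) < n2 := by exact_mod_cast hn2
    exact div_pos h2 h1
  have hcast : (((n2 : ℚ) / n1 : ℚ) : ℝ) = (n2 : ℝ) / n1 := by push_cast; rfl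
  obtain ⟨s', hs'⟩ := s_rat (s := s.re) hrq hP0 (by
    rw [hcast]
    exact hall P0 hP0')
  have hdet : ((!![(n2 : ℚ) / n1, s'; 0, 1] : Matrix (Fin 2) (Fin 2) ℚ)).det = (n2 : ℚ) / n1 := by
    rw [Matrix.det_fin_two_of]
    ring
  refine ⟨Matrix.GeneralLinearGroup.mkOfDetNeZero !![(n2 : ℚ) / n1, s'; 0, 1]
    (by rw [hdet]; exact hrq.ne'), ?_, ?_⟩
  · show (0 : ℚ) < (!![(n2 : ℚ) / n1, s'; 0, 1] : Matrix (Fin 2) (Fin 2) ℚ).det
    rw [hdet]
    exact hrq
  · intro P hP τ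
    refine hall P hP τ _ ?_
    rw [coe_gact (by
      show (0 : ℚ) < (!![(n2 : ℚ) / n1, s'; 0, 1] : Matrix (Fin 2) (Fin 2) ℚ).det
      rw [hdet]
      exact hrq)]
    simp only [Matrix.GeneralLinearGroup.mkOfDetNeZero]
    rw [hs']
    simp

theorem modRel_closed (hK : IsCF K) {x y : K} (hx : Transcendental ℂ x) (h : ModRel x y) :
    ∃ g : GL (Fin 2) ℚ, 0 < g.det.val ∧ ∀ F : MvPolynomial (Fin 2) ℂ,
      (∀ τ : ℍ, MvPolynomial.eval ![jInv τ, jInv (gact g τ)] F = 0) →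
        MvPolynomial.aeval ![x, y] F = 0 := by
  obtain ⟨g, hg, hrel⟩ := h
  refine ⟨g, hg, fun F hF => ?_⟩
  by_contra hf
  obtain ⟨f, hfdef⟩ : ∃ f, f = MvPolynomial.aeval ![x, y] F := ⟨_, rfl⟩
  rw [← hfdef] at hf
  let _ : Algebra (MvPolynomial (Fin 1) ℂ) K :=
    (MvPolynomial.aeval (R := ℂ) (fun _ : Fin 1 => x)).toRingHom.toAlgebra
  have hmap : ∀ p : MvPolynomial (Fin 1) ℂ, algebraMap (MvPolynomial (Fin 1) ℂ) K p =
      MvPolynomial.aeval (fun _ : Fin 1 => x) p := fun _ => rfl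
  have key : ∀ P : MvPolynomial (Fin 2) ℂ,
      Polynomial.aeval f (MvPolynomial.finSuccEquiv ℂ 1 P) = MvPolynomial.aeval ![f, x] P := by
    intro P
    rw [Polynomial.aeval_def]
    induction P using MvPolynomial.induction_on with
    | C a =>
      rw [MvPolynomial.finSuccEquiv_apply]
      simp only [MvPolynomial.coe_eval₂Hom, MvPolynomial.eval₂_C, RingHom.comp_apply,
        Polynomial.eval₂_C, hmap]
      simp
    | add p q hp hq =>
      rw [map_add, Polynomial.eval₂_add, hp, hq, map_add]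
    | mul_X p i hp =>
      rw [map_mul, Polynomial.eval₂_mul, hp, map_mul, MvPolynomial.aeval_X]
      congr 1
      fin_cases i
      · have h1 : MvPolynomial.finSuccEquiv ℂ 1 (MvPolynomial.X 0) = Polynomial.X :=
          MvPolynomial.finSuccEquiv_X_zero
        exact (congrArg _ h1).trans (Polynomial.eval₂_X _ _)
      · have h1 : MvPolynomial.finSuccEquiv ℂ 1 (MvPolynomial.X (Fin.succ 0)) =
            Polynomial.C (MvPolynomial.X 0) := MvPolynomial.finSuccEquiv_X_succ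
        refine (congrArg _ h1).trans ?_
        rw [Polynomial.eval₂_C, hmap, MvPolynomial.aeval_X]
        rfl
  obtain ⟨P, hP0, hP⟩ := hK.dep f x
  have halg : IsAlgebraic (MvPolynomial (Fin 1) ℂ) f := by
    refine ⟨MvPolynomial.finSuccEquiv ℂ 1 P, ?_, ?_⟩
    · intro h0
      exact hP0 ((MvPolynomial.finSuccEquiv ℂ 1).injective (by rw [h0, map_zero]))
    · rw [key, hP]
  obtain ⟨q, hq0, hq⟩ := halg.exists_nonzero_coeff_and_aeval_eq_zero
    (mem_nonZeroDivisors_of_ne_zero hf)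
  obtain ⟨P', hP'⟩ : ∃ P', MvPolynomial.finSuccEquiv ℂ 1 P' = q :=
    (MvPolynomial.finSuccEquiv ℂ 1).surjective q
  rw [← hP', key] at hq
  have hG : MvPolynomial.aeval ![x, y]
      (MvPolynomial.aeval ![F, MvPolynomial.X 0] P' : MvPolynomial (Fin 2) ℂ) = 0 := by
    have e : ((MvPolynomial.aeval ![x, y]).comp (MvPolynomial.aeval ![F, MvPolynomial.X 0]) :
        MvPolynomial (Fin 2) ℂ →ₐ[ℂ] K) = MvPolynomial.aeval ![f, x] := by
      refine MvPolynomial.algHom_ext fun i => ?_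
      rw [AlgHom.comp_apply, MvPolynomial.aeval_X, MvPolynomial.aeval_X]
      fin_cases i
      · exact hfdef.symm
      · show MvPolynomial.aeval ![x, y] (MvPolynomial.X 0) = x
        rw [MvPolynomial.aeval_X]
        rfl
    rw [← AlgHom.comp_apply, e, hq]
  apply hq0
  refine MvPolynomial.funext fun z => ?_
  rw [map_zero]
  obtain ⟨τ, hτ⟩ := Pool.Agent.Hhelper14.ZPL.j_surj (z 0)
  have h1 := hrel _ hG τ
  have h2 : MvPolynomial.eval ![jInv τ, jInv (gact g τ)]
      (MvPolynomial.aeval ![F, MvPolynomial.X 0] P' : MvPolynomial (Fin 2) ℂ) =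
      MvPolynomial.eval (Fin.cons 0 z : Fin 2 → ℂ) P' := by
    have e : ((MvPolynomial.aeval ![jInv τ, jInv (gact g τ)]).comp
        (MvPolynomial.aeval ![F, MvPolynomial.X 0]) : MvPolynomial (Fin 2) ℂ →ₐ[ℂ] ℂ) =
        MvPolynomial.aeval (Fin.cons 0 z : Fin 2 → ℂ) := by
      refine MvPolynomial.algHom_ext fun i => ?_
      rw [AlgHom.comp_apply, MvPolynomial.aeval_X, MvPolynomial.aeval_X]
      fin_cases i
      · exact hF τ
      · show MvPolynomial.aeval ![jInv τ, jInv (gact g τ)] (MvPolynomial.X 0) = z 0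
        rw [MvPolynomial.aeval_X, ← hτ]
        rfl
    exact DFunLike.congr_fun e P'
  rw [h2, MvPolynomial.eval_eq_eval_mv_eval', hP'] at h1
  rw [← Polynomial.coeff_zero_eq_eval_zero, Polynomial.coeff_map] at h1
  exact h1

end Pool.Agent.ZPB
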