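import Pool.Agent.ZPB.WUse

/-!
# Module W4: existence of the Weierstrass degree; zeros are algebraic

* `exists_isW_of_Z`: norms of nonzero elements of `ℤ_p` are `p^(-k)`, so the maximum of the norms of the
  coefficients is attained.
* `exists_isW_of_bound`: the maximum over `i ≤ m` is the maximum over all.
* `algebraic_of_zero`: Weierstrass preparation (Mathlib, `ℤ_[p]` is complete local): after dividing `f`
  by the largest power of `p` (`f = p^a f'`, `f'` not divisible by `p`), `f' = P u` with `P` a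
  distinguished polynomial and `u` a unit, whose value has norm one. So a zero of `f` in the open unit
  disc is a root of `P ∈ ℤ_p[T]`. (Alternative: use `IsW.factor` and Galois orbits.)
-/

namespace Pool.Agent.ZPB

variable {p : ℕ} [Fact p.Prime]

/-- the least valuation of a coefficient, attained first at the index `n` -/
private lemma we_min {f : PowerSeries ℤ_[p]} (hf : f ≠ 0) :
    ∃ n k : ℕ, PowerSeries.coeff n f ≠ 0 ∧ (PowerSeries.coeff n f).valuation = k ∧
      (∀ m, PowerSeries.coeff m f ≠ 0 → k ≤ (PowerSeries.coeff m f).valuation) ∧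
      ∀ m < n, PowerSeries.coeff m f ≠ 0 → k < (PowerSeries.coeff m f).valuation := by
  classical
  have h0 : ∃ k n : ℕ, PowerSeries.coeff n f ≠ 0 ∧ (PowerSeries.coeff n f).valuation = k := by
    by_contra hcon
    push Not at hcon
    apply hf
    ext n
    rw [map_zero]
    by_contra hn
    exact hcon _ n hn rfl
  let k := Nat.find h0
  have hk : ∃ n : ℕ, PowerSeries.coeff n f ≠ 0 ∧ (PowerSeries.coeff n f).valuation = k :=
    Nat.find_spec h0
  have hmin : ∀ m, PowerSeries.coeff m f ≠ 0 → k ≤ (PowerSeries.coeff m f).valuation :=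
    fun m hm => Nat.find_min' h0 ⟨m, hm, rfl⟩
  let n := Nat.find hk
  have hn : PowerSeries.coeff n f ≠ 0 ∧ (PowerSeries.coeff n f).valuation = k :=
    Nat.find_spec hk
  refine ⟨n, k, hn.1, hn.2, hmin, ?_⟩
  intro m hm hne
  refine lt_of_le_of_ne (hmin m hne) ?_
  intro heq
  exact Nat.find_min hk hm ⟨hne, heq.symm⟩

theorem exists_isW_of_Z {f : PowerSeries ℤ_[p]} (hf : f ≠ 0) :
    ∃ n, IsW (PowerSeries.map (zc p) f) n := by
  obtain ⟨n, k, hn0, hnk, hmin, hlt⟩ := we_min hf
  have hp1 : (1 : ℝ) < p := by exact_mod_cast (Fact.out : p.Prime).one_lt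
  have hp0 : (0 : ℝ) < p := by linarith
  refine ⟨n, ?_, ?_, ?_⟩
  · rw [PowerSeries.coeff_map]
    intro h
    exact hn0 (zc_injective (by rw [h, map_zero]))
  · intro m
    rw [PowerSeries.coeff_map, PowerSeries.coeff_map, norm_zc, norm_zc]
    by_cases hm : PowerSeries.coeff m f = 0
    · rw [hm, norm_zero]
      exact norm_nonneg _
    · rw [PadicInt.norm_eq_zpow_neg_valuation hm, PadicInt.norm_eq_zpow_neg_valuation hn0, hnk]
      apply zpow_le_zpow_right₀ hp1.le
      have := hmin m hm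
      omega
  · intro m hmn
    rw [PowerSeries.coeff_map, PowerSeries.coeff_map, norm_zc, norm_zc]
    by_cases hm : PowerSeries.coeff m f = 0
    · rw [hm, norm_zero]
      exact norm_pos_iff.2 hn0
    · rw [PadicInt.norm_eq_zpow_neg_valuation hm, PadicInt.norm_eq_zpow_neg_valuation hn0, hnk]
      apply zpow_lt_zpow_right₀ hp1
      have := hlt m hmn hm
      omega

theorem exists_isW_of_bound {f : PowerSeries ℂ_[p]} (hf : f ≠ 0) {m : ℕ}
    (hm : ∀ n, ∃ i ≤ m, ‖PowerSeries.coeff n f‖ ≤ ‖PowerSeries.coeff i f‖) : ∃ n ≤ m, IsW f n := by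
  classical
  obtain ⟨i₀, hi₀, hmax⟩ := Finset.exists_max_image (Finset.range (m + 1))
    (fun i => ‖PowerSeries.coeff i f‖) ⟨0, Finset.mem_range.2 (Nat.succ_pos m)⟩
  have hi₀m : i₀ ≤ m := Nat.lt_succ_iff.1 (Finset.mem_range.1 hi₀)
  have hall : ∀ n, ‖PowerSeries.coeff n f‖ ≤ ‖PowerSeries.coeff i₀ f‖ := by
    intro n
    obtain ⟨i, hi, h⟩ := hm n
    exact h.trans (hmax i (Finset.mem_range.2 (Nat.lt_succ_of_le hi)))
  have hex : ∃ n, ‖PowerSeries.coeff n f‖ = ‖PowerSeries.coeff i₀ f‖ := ⟨i₀, rfl⟩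
  have hspec := Nat.find_spec hex
  refine ⟨Nat.find hex, (Nat.find_min' hex rfl).trans hi₀m, ?_, ?_, ?_⟩
  · intro h0
    rw [h0, norm_zero] at hspec
    apply hf
    ext n
    rw [map_zero]
    have h1 := hall n
    rw [← hspec] at h1
    exact norm_le_zero_iff.1 h1
  · intro j
    rw [hspec]
    exact hall j
  · intro j hj
    rw [hspec]
    exact lt_of_le_of_ne (hall j) (Nat.find_min hex hj)

/-- evaluation of a polynomial -/
private lemma we_poly {s : ℂ_[p]} (hs : ‖s‖ < 1) (P : Polynomial ℤ_[p]) :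
    valZ (P : PowerSeries ℤ_[p]) s = P.eval₂ (zc p) s := by
  have h1 : (valHom hs).comp (Polynomial.coeToPowerSeries.ringHom) =
      Polynomial.eval₂RingHom (zc p) s := by
    apply Polynomial.ringHom_ext
    · intro a
      rw [RingHom.comp_apply, Polynomial.coeToPowerSeries.ringHom_apply, Polynomial.coe_C,
        valHom_apply, valZ, PowerSeries.map_C, val_C]
      simp
    · rw [RingHom.comp_apply, Polynomial.coeToPowerSeries.ringHom_apply, Polynomial.coe_X,
        valHom_apply, valZ, PowerSeries.map_X, val_X]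
      simp
  have h2 := RingHom.congr_fun h1 P
  rw [RingHom.comp_apply, Polynomial.coeToPowerSeries.ringHom_apply, valHom_apply] at h2
  exact h2

/-- division by the largest power of `p` -/
private lemma we_div {f : PowerSeries ℤ_[p]} (hf : f ≠ 0) :
    ∃ (k : ℕ) (g : PowerSeries ℤ_[p]), f = PowerSeries.C ((p : ℤ_[p]) ^ k) * g ∧
      g.map (IsLocalRing.residue ℤ_[p]) ≠ 0 := by
  obtain ⟨n, k, hn0, hnk, hmin, -⟩ := we_min hf
  have hdvd : ∀ m, ∃ c, PowerSeries.coeff m f = (p : ℤ_[p]) ^ k * c := by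
    intro m
    by_cases hm : PowerSeries.coeff m f = 0
    · exact ⟨0, by rw [hm, mul_zero]⟩
    · have h1 := hmin m hm
      have h2 := PadicInt.unitCoeff_spec hm
      refine ⟨(PadicInt.unitCoeff hm : ℤ_[p]) *
        (p : ℤ_[p]) ^ ((PowerSeries.coeff m f).valuation - k), ?_⟩
      conv_lhs => rw [h2]
      rw [mul_left_comm, ← pow_add, Nat.add_sub_cancel' h1]
  choose c hc using hdvd
  refine ⟨k, PowerSeries.mk c, ?_, ?_⟩
  · ext m
    rw [PowerSeries.coeff_C_mul, PowerSeries.coeff_mk, ← hc]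
  · intro h0
    have h1 := congrArg (PowerSeries.coeff n) h0
    rw [PowerSeries.coeff_map, PowerSeries.coeff_mk, map_zero,
      IsLocalRing.residue_eq_zero_iff] at h1
    have hp0 : (p : ℤ_[p]) ≠ 0 := by
      exact_mod_cast (Fact.out : p.Prime).ne_zero
    have h2 : c n = (PadicInt.unitCoeff hn0 : ℤ_[p]) := by
      have h3 := PadicInt.unitCoeff_spec hn0
      rw [hnk] at h3
      apply mul_left_cancel₀ (pow_ne_zero k hp0)
      rw [← hc n, mul_comm]
      exact h3
    rw [h2] at h1
    exact h1 (PadicInt.unitCoeff hn0).isUnit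

theorem algebraic_of_zero {f : PowerSeries ℤ_[p]} (hf : f ≠ 0) {s : ℂ_[p]} (hs : ‖s‖ < 1)
    (h : valZ f s = 0) : IsAlgebraic ℚ_[p] s := by
  obtain ⟨k, g, hfg, hg⟩ := we_div hf
  obtain ⟨P, u, hPu⟩ := PowerSeries.exists_isWeierstrassFactorization hg
  have hp0 : (p : ℤ_[p]) ≠ 0 := by
    exact_mod_cast (Fact.out : p.Prime).ne_zero
  have hgP : g = (P : PowerSeries ℤ_[p]) * u := hPu.eq_mul
  have h1 : valHom hs f = 0 := h
  rw [hfg, hgP, map_mul, map_mul] at h1
  have h2 : valHom hs (PowerSeries.C ((p : ℤ_[p]) ^ k)) ≠ 0 := by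
    rw [valHom_apply, valZ, PowerSeries.map_C, val_C]
    intro h3
    have h4 : (p : ℤ_[p]) ^ k = 0 := zc_injective (by rw [h3, map_zero])
    exact pow_ne_zero k hp0 h4
  have h3 : valHom hs u ≠ 0 := (hPu.isUnit.map (valHom hs)).ne_zero
  have h4 : valHom hs (P : PowerSeries ℤ_[p]) = 0 := by
    rcases mul_eq_zero.1 h1 with h5 | h5
    · exact absurd h5 h2
    · rcases mul_eq_zero.1 h5 with h6 | h6
      · exact h6
      · exact absurd h6 h3
  rw [valHom_apply, we_poly hs] at h4
  refine ⟨P.map PadicInt.Coe.ringHom, ?_, ?_⟩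
  · exact (hPu.isDistinguishedAt.monic.map _).ne_zero
  · rw [Polynomial.aeval_def, Polynomial.eval₂_map]
    exact h4

end Pool.Agent.ZPB
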