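import Pool.Agent.ZPB.CurveFin
import Pool.Agent.ZPB.WExists

/-!
# Module C4: fibres of the parameter are finite, zeros are finite

* `fibre_t`: for each variable take a monic `P_i` with `P_i(t)(X_i) ∈ 𝔮` (`IsCurve.integral`). At a point `z` of
  `zer 𝔮` with `ev z t = s` the coordinate `z_i` is a root of the monic polynomial with coefficients
  `valZ (P_i)_j s`; so there are at most `∏ deg P_i` points.
* `finite_zeros`: let `F ∉ 𝔮`, `P` monic of minimal degree with `P(t)(F) ∈ 𝔮`. Then the constant coefficient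
  `c_0` of `P` is `≠ 0` (if `c_0 = 0` then `F P_1(F) ∈ 𝔮` with `P_1` monic of smaller degree; degree 0 is
  impossible as `1 ∉ 𝔮`). A zero `z` of `F` satisfies `valZ c_0 (ev z t) = 0`, so `ev z t` takes finitely many
  values (`exists_isW_of_Z`, `IsW.finite_zeros`); then use `fibre_t`.
* `algPt`: points of `zer 𝔮` with algebraic parameter are algebraic.
-/

namespace Pool.Agent.ZPB

open MvPowerSeries

variable {p : ℕ} [Fact p.Prime] {σ : Type} [Fintype σ]

/-- evaluation of a relation with coefficients in `ℤ_p[[t]]` -/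
lemma ev_eval₂ {z : σ → ℂ_[p]} (hz : Disc z) {t : RR p σ} (ht : constantCoeff t = 0)
    {s : ℂ_[p]} (hs : ‖s‖ < 1) (hst : ev z t = s) (P : Polynomial (PowerSeries ℤ_[p]))
    (F : RR p σ) :
    ev z (P.eval₂ (sb ht) F) = P.eval₂ (valHom hs) (ev z F) := by
  have h1 := Polynomial.hom_eval₂ P (sb ht) (evHom hz) F
  have h2 : (evHom hz).comp (sb ht) = valHom hs := by
    ext f
    simp only [RingHom.comp_apply, evHom_apply, sb_apply, valHom_apply]
    rw [ev_subst hz ht, hst]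
  rw [h2] at h1
  simpa only [evHom_apply] using h1

/-- the uniform version of `finite_zeros` -/
lemma IsCurve.card_zeros {𝔮 : Ideal (RR p σ)} {t : RR p σ} (h : IsCurve 𝔮 t) {F : RR p σ}
    (hF : F ∉ 𝔮) (hB : ∃ B : ℕ, ∀ (s : ℂ_[p]) (Z : Finset (σ → ℂ_[p])),
      (∀ z ∈ Z, z ∈ zer 𝔮 ∧ ev z t = s) → Z.card ≤ B) :
    ∃ K : ℕ, ∀ Z : Finset (σ → ℂ_[p]), (∀ z ∈ Z, z ∈ zer 𝔮 ∧ ev z F = 0) → Z.card ≤ K := by
  classical
  have hex : ∃ d : ℕ, ∃ P : Polynomial (PowerSeries ℤ_[p]), P.Monic ∧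
      P.eval₂ (sb h.t0) F ∈ 𝔮 ∧ P.natDegree = d := by
    obtain ⟨P, hP1, hP2⟩ := h.integral F
    exact ⟨_, P, hP1, hP2, rfl⟩
  obtain ⟨P, hP1, hP2, hP3⟩ := Nat.find_spec hex
  have hmin := fun d hd => Nat.find_min hex (m := d) hd
  have hc : P.coeff 0 ≠ 0 := by
    intro h0
    obtain ⟨P₁, hP₁⟩ := Polynomial.X_dvd_iff.2 h0
    have hmon : P₁.Monic := by
      have := hP1
      rw [hP₁] at this
      exact Polynomial.Monic.of_mul_monic_left Polynomial.monic_X this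
    have hdeg : P.natDegree = 1 + P₁.natDegree := by
      rw [hP₁, Polynomial.monic_X.natDegree_mul hmon, Polynomial.natDegree_X]
    rw [hP₁, Polynomial.eval₂_mul, Polynomial.eval₂_X] at hP2
    rcases h.prime.mem_or_mem hP2 with h1 | h1
    · exact hF h1
    · exact hmin P₁.natDegree (by rw [← hP3, hdeg]; omega) ⟨P₁, hmon, h1, rfl⟩
  obtain ⟨n, hn⟩ := exists_isW_of_Z hc
  obtain ⟨B, hB⟩ := hB
  refine ⟨B * n, fun Z hZ => ?_⟩
  have h1 : (Z.image fun z => ev z t).card ≤ n := by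
    refine hn.finite_zeros _ ?_
    intro s hs
    obtain ⟨z, hz, rfl⟩ := Finset.mem_image.1 hs
    obtain ⟨hz1, hz2⟩ := hZ z hz
    have hs1 : ‖ev z t‖ < 1 := norm_ev_lt hz1.1 h.t0
    refine ⟨hs1, ?_⟩
    have h2 := ev_eval₂ hz1.1 h.t0 hs1 rfl P F
    rw [hz1.2 _ hP2, hz2, Polynomial.eval₂_at_zero, valHom_apply] at h2
    exact h2.symm
  have h4 : Z.card ≤ B * (Z.image fun z => ev z t).card := by
    refine Finset.card_le_mul_card_image Z B ?_
    intro s _
    refine hB s _ ?_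
    intro z hz
    rw [Finset.mem_filter] at hz
    exact ⟨(hZ z hz.1).1, hz.2⟩
  exact h4.trans (Nat.mul_le_mul_left B h1)

theorem IsCurve.fibre_t {𝔮 : Ideal (RR p σ)} {t : RR p σ} (h : IsCurve 𝔮 t) :
    ∃ B : ℕ, ∀ (s : ℂ_[p]) (Z : Finset (σ → ℂ_[p])), (∀ z ∈ Z, z ∈ zer 𝔮 ∧ ev z t = s) → Z.card ≤ B := by
  classical
  choose P hP1 hP2 using fun i : σ => h.integral (X i : RR p σ)
  refine ⟨∏ i, (P i).natDegree, fun s Z hZ => ?_⟩
  rcases Z.eq_empty_or_nonempty with rfl | ⟨z₀, hz₀⟩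
  · simp
  have hs : ‖s‖ < 1 := by
    obtain ⟨h1, h2⟩ := hZ z₀ hz₀
    rw [← h2]
    exact norm_ev_lt h1.1 h.t0
  have hsub : Z ⊆ Fintype.piFinset fun i => ((P i).map (valHom hs)).roots.toFinset := by
    intro z hz
    obtain ⟨h1, h2⟩ := hZ z hz
    rw [Fintype.mem_piFinset]
    intro i
    rw [Multiset.mem_toFinset, Polynomial.mem_roots ((hP1 i).map _).ne_zero, Polynomial.IsRoot.def,
      Polynomial.eval_map]
    have h3 := ev_eval₂ h1.1 h.t0 hs h2 (P i) (X i)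
    rw [h1.2 _ (hP2 i), ev_X] at h3
    exact h3.symm
  refine (Finset.card_le_card hsub).trans ?_
  rw [Fintype.card_piFinset]
  refine Finset.prod_le_prod (fun _ _ => Nat.zero_le _) fun i _ => ?_
  refine (Multiset.toFinset_card_le _).trans ((Polynomial.card_roots' _).trans ?_)
  exact Polynomial.natDegree_map_le

theorem IsCurve.finite_zeros {𝔮 : Ideal (RR p σ)} {t : RR p σ} (h : IsCurve 𝔮 t) {F : RR p σ}
    (hF : F ∉ 𝔮) : {z | z ∈ zer 𝔮 ∧ ev z F = 0}.Finite := by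
  by_contra hinf
  obtain ⟨K, hK⟩ := h.card_zeros hF h.fibre_t
  obtain ⟨Z, hZ1, hZ2⟩ := Set.Infinite.exists_subset_card_eq hinf (K + 1)
  have := hK Z fun z hz => hZ1 (Finset.mem_coe.2 hz)
  omega

/-- along an injective sequence of points a power series outside `𝔮` vanishes only finitely often -/
theorem IsCurve.eventually_ne {𝔮 : Ideal (RR p σ)} {t : RR p σ} (h : IsCurve 𝔮 t) {F : RR p σ}
    (hF : F ∉ 𝔮) {x : ℕ → σ → ℂ_[p]} (hx : Function.Injective x) (hz : ∀ k, x k ∈ zer 𝔮) :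
    ∀ᶠ k in Filter.atTop, ev (x k) F ≠ 0 := by
  have h1 : {k | ev (x k) F = 0}.Finite := by
    refine ((h.finite_zeros hF).preimage hx.injOn).subset ?_
    intro k hk
    exact ⟨hz k, hk⟩
  have h2 := h1.compl_mem_cofinite
  rw [Nat.cofinite_eq_atTop] at h2
  exact h2

end Pool.Agent.ZPB
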