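import Pool.Agent.ZPB.Chain
import Pool.Agent.ZPB.CurveZero

/-!
# Module D1b: the derivation `d/dt` of the function field of a formal curve

Let `IsCurve 𝔮 t`, `zer 𝔮` infinite, `ι : RR p σ → L` the fraction field. `K0` = fraction field of
`Λ = ℤ_p[[T]]`, `Λ → L`, `T ↦ ι t`, is injective: if `0 ≠ c ∈ Λ` and `subst t c ∈ 𝔮`, then `ev z t` is a zero of `c`
for all `z ∈ zer 𝔮`, so `zer 𝔮` is finite (`exists_isW_of_Z`, `IsW.finite_zeros`, `fibre_t`). By `IsCurve.integral`
`L` is algebraic over `Λ`.
* `exists_deriv`: `d/dT` (`PowerSeries.derivative`) on `Λ` extends to `L` (`L` is formally etale over `Λ`; lift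
  to the dual numbers): a derivation `D` with `D(ι (subst t f)) = ι (subst t f')`.
* `deriv_unique`: two maps `D1 D2 : L → E` (`E` a field of characteristic 0 containing `L` via `κ`) which are
  derivations along `κ` and agree on the image of `Λ` are equal (`L` is algebraic over it).
* `algebraic_of_deriv_eq_zero`: if `D c = 0`, take `P = ∑ a_j Z^j` over `Λ` of minimal degree with `P(c) = 0`. Then
  `a_d P' - a_d' P` (coefficientwise derivative) has smaller degree, so `a_d a_j' = a_d' a_j`, and (Wronskian
  argument in `ℤ_p[[T]]`) `g_m a_j = (a_j)_m a_d`, where `g_m` is the first nonzero coefficient of `a_d`.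
-/

namespace Pool.Agent.ZPB

open MvPowerSeries

variable {p : ℕ} [Fact p.Prime] {σ : Type} [Fintype σ] {L : Type} [Field L]

namespace DerivExt

/-! ### abstract lemmas -/

/-- lifting of a derivation to a formally smooth algebra, in the form of dual numbers -/
theorem exists_lift_of_smooth {A L B : Type} [CommRing A] [CommRing L] [CommRing B] [Algebra A L]
    [Algebra.FormallySmooth A L] (φ : A →+* B) (π : B →+* L) (hπ : Function.Surjective π)
    (hker : ∀ x y, π x = 0 → π y = 0 → x * y = 0) (hcomp : ∀ a, π (φ a) = algebraMap A L a) :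
    ∃ s : L →+* B, (∀ x, π (s x) = x) ∧ ∀ a, s (algebraMap A L a) = φ a := by
  let _ := φ.toAlgebra
  let π' : B →ₐ[A] L := { π with commutes' := fun a => hcomp a }
  have hnil : IsNilpotent (RingHom.ker (π' : B →+* L)) := by
    refine ⟨2, ?_⟩
    rw [pow_two, Ideal.zero_eq_bot, eq_bot_iff, Ideal.mul_le]
    intro x hx y hy
    rw [Ideal.mem_bot]
    exact hker x y hx hy
  refine ⟨(Algebra.FormallySmooth.liftOfSurjective (AlgHom.id A L) π' hπ hnil : L →ₐ[A] B),
    fun x => ?_, fun a => ?_⟩
  · exact Algebra.FormallySmooth.liftOfSurjective_apply (AlgHom.id A L) π' hπ hnil x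
  · exact (Algebra.FormallySmooth.liftOfSurjective (AlgHom.id A L) π' hπ hnil).commutes a

/-- extension of a derivation to an algebraic extension of the fraction field, characteristic zero -/
theorem exists_der_ext {A L : Type} [CommRing A] [IsDomain A] [Field L] [CharZero L]
    (l : A →+* L) (hl : Function.Injective l)
    (halg : ∀ x : L, ∃ P : Polynomial A, P ≠ 0 ∧ P.eval₂ l x = 0) (d : A → A)
    (hd0 : d 1 = 0) (hd1 : ∀ a b, d (a + b) = d a + d b) (hd2 : ∀ a b, d (a * b) = a * d b + b * d a) :
    ∃ D : L → L, IsDer D ∧ ∀ a, D (l a) = l (d a) := by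
  let _ := l.toAlgebra
  have hinj : Function.Injective (algebraMap A L) := hl
  have : FaithfulSMul A L := (faithfulSMul_iff_algebraMap_injective A L).mpr hinj
  have : Algebra.IsAlgebraic A L := ⟨fun x => by
    obtain ⟨P, h0, hP⟩ := halg x
    exact ⟨P, h0, hP⟩⟩
  let _ := FractionRing.liftAlgebra A L
  have : IsScalarTower A (FractionRing A) L := FractionRing.isScalarTower_liftAlgebra A L
  have : Algebra.IsAlgebraic (FractionRing A) L :=
    (IsFractionRing.comap_isAlgebraic_iff (A := A) (K := FractionRing A) (C := L)).mp inferInstance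
  have : CharZero (FractionRing A) := (algebraMap (FractionRing A) L).charZero
  have : Algebra.FormallyEtale (FractionRing A) L := Algebra.FormallyEtale.of_isSeparable _ _
  have : Algebra.FormallyEtale A (FractionRing A) :=
    Algebra.FormallyEtale.of_isLocalization (nonZeroDivisors A)
  have : Algebra.FormallyEtale A L := Algebra.FormallyEtale.comp A (FractionRing A) L
  let φ : A →+* TrivSqZeroExt L L :=
    { toFun := fun a => TrivSqZeroExt.inl (l a) + TrivSqZeroExt.inr (l (d a))
      map_one' := by
        ext <;> simp [hd0]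
      map_zero' := by
        have h0 : d 0 = 0 := by
          have := hd1 0 0
          simpa using this
        ext <;> simp [h0]
      map_add' := fun a b => by
        ext <;> simp [hd1]
      map_mul' := fun a b => by
        ext
        · simp
        · simp [hd2, mul_comm] }
  obtain ⟨s, hs1, hs2⟩ := exists_lift_of_smooth (A := A) (L := L) φ
    (TrivSqZeroExt.fstHom L L L : TrivSqZeroExt L L →ₐ[L] L).toRingHom
    (fun x => ⟨TrivSqZeroExt.inl x, by simp⟩) (fun x y hx hy => by
      have hx' : x.fst = 0 := hx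
      have hy' : y.fst = 0 := hy
      ext
      · simp [hx']
      · simp [hx', hy']) (fun a => by
      change (TrivSqZeroExt.inl (l a) + TrivSqZeroExt.inr (l (d a)) : TrivSqZeroExt L L).fst = l a
      simp)
  have hs1' : ∀ x, (s x).fst = x := hs1
  refine ⟨fun x => (s x).snd, ⟨fun a b => ?_, fun a b => ?_⟩, fun a => ?_⟩
  · simp
  · simp only [map_mul, TrivSqZeroExt.snd_mul, hs1', smul_eq_mul, MulOpposite.smul_eq_mul_unop,
      MulOpposite.unop_op]
    ring
  · have h := hs2 a
    have h' : s (l a) = TrivSqZeroExt.inl (l a) + TrivSqZeroExt.inr (l (d a)) := h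
    simp [h']

section along

variable {A L E : Type} [CommRing A] [Field L] [Field E] (l : A →+* L) (κ : L →+* E)

/-- a derivation along `κ` applied to the value of a polynomial -/
theorem along_eval₂ (D : L → E) (hadd : ∀ a b, D (a + b) = D a + D b)
    (hmul : ∀ a b, D (a * b) = D a * κ b + κ a * D b) (P : Polynomial A) (x : L) :
    D (P.eval₂ l x) = (∑ i ∈ Finset.range (P.natDegree + 1), D (l (P.coeff i)) * κ x ^ i) +
      κ ((Polynomial.derivative P).eval₂ l x) * D x := by
  have hD0 : D 0 = 0 := by
    have := hadd 0 0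
    simpa using this
  have hD1 : D 1 = 0 := by
    have := hmul 1 1
    simpa using this
  have hpow : ∀ n : ℕ, D (x ^ n) = (n : E) * κ x ^ (n - 1) * D x := by
    intro n
    induction n with
    | zero => simp [hD1]
    | succ n ih =>
      rw [pow_succ, hmul, ih, map_pow]
      rcases n with _ | n
      · simp
      · simp only [Nat.add_sub_cancel]
        push_cast
        ring
  have hsum : ∀ (s : Finset ℕ) (f : ℕ → L), D (∑ i ∈ s, f i) = ∑ i ∈ s, D (f i) := by
    intro s f
    classical
    induction s using Finset.induction_on with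
    | empty => simpa using hD0
    | insert a s ha ih => rw [Finset.sum_insert ha, Finset.sum_insert ha, hadd, ih]
  have hder : (Polynomial.derivative P).eval₂ l x =
      ∑ i ∈ Finset.range (P.natDegree + 1), l (P.coeff i) * i * x ^ (i - 1) := by
    rw [Polynomial.derivative_apply, Polynomial.sum_over_range _ (by simp),
      Polynomial.eval₂_finsetSum]
    refine Finset.sum_congr rfl fun i _ => ?_
    rw [Polynomial.eval₂_mul, Polynomial.eval₂_C, Polynomial.eval₂_pow, Polynomial.eval₂_X, map_mul,
      map_natCast]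
  rw [Polynomial.eval₂_eq_sum_range, hsum, hder, map_sum, Finset.sum_mul, ← Finset.sum_add_distrib]
  refine Finset.sum_congr rfl fun i _ => ?_
  rw [hmul, hpow, map_pow, map_mul, map_mul, map_pow, map_natCast]
  ring

/-- a derivation vanishing on `A` vanishes on algebraic elements -/
theorem along_eq_zero [CharZero E] (hl : Function.Injective l) (D : L → E)
    (hadd : ∀ a b, D (a + b) = D a + D b) (hmul : ∀ a b, D (a * b) = D a * κ b + κ a * D b)
    (hA : ∀ a, D (l a) = 0) (x : L) : ∀ (n : ℕ) (P : Polynomial A), P ≠ 0 → P.natDegree ≤ n →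
      P.eval₂ l x = 0 → D x = 0 := by
  have hD0 : D 0 = 0 := by
    have := hadd 0 0
    simpa using this
  have hcz : CharZero A := by
    have h : CharZero L := κ.charZero
    exact l.charZero
  intro n
  induction n with
  | zero =>
    intro P hP hn hx
    rw [Polynomial.eq_C_of_natDegree_le_zero hn] at hx hP
    rw [Polynomial.eval₂_C] at hx
    exact absurd (hl (hx.trans (map_zero l).symm)) (fun h => hP (by rw [h, Polynomial.C_0]))
  | succ n ih =>
    intro P hP hn hx
    by_cases hd : P.natDegree ≤ n
    · exact ih P hP hd hx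
    have h := along_eval₂ l κ D hadd hmul P x
    rw [hx, hD0] at h
    simp only [hA, zero_mul, Finset.sum_const_zero, zero_add] at h
    rcases mul_eq_zero.mp h.symm with h1 | h1
    · have h2 : (Polynomial.derivative P).eval₂ l x = 0 := by
        rwa [_root_.map_eq_zero] at h1
      have hdeg : P.natDegree ≠ 0 := by omega
      refine ih (Polynomial.derivative P) ?_ ?_ h2
      · intro h3
        have hdom : IsDomain A := hl.isDomain l
        exact hdeg (Polynomial.derivative_eq_zero.mp h3)
      · have := Polynomial.natDegree_derivative_lt hdeg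
        omega
    · exact h1

end along

/-! ### the Wronskian argument -/

/-- if `f' g = f g'` in `R[[T]]`, `R` a domain of characteristic zero, `g_m` the first nonzero coefficient of
`g`, then `g_m f = f_m g`. -/
theorem wronskian {R : Type} [CommRing R] [IsDomain R] [CharZero R] {f g : PowerSeries R} (hg : g ≠ 0)
    (h : PowerSeries.derivative R f * g = f * PowerSeries.derivative R g) :
    PowerSeries.C (PowerSeries.coeff g.order.toNat g) * f =
      PowerSeries.C (PowerSeries.coeff g.order.toNat f) * g := by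
  set m := g.order.toNat with hm
  set b := PowerSeries.coeff m g with hb
  set a := PowerSeries.coeff m f with ha
  rw [← sub_eq_zero]
  set k : PowerSeries R := PowerSeries.C b * f - PowerSeries.C a * g with hk
  by_contra hk0
  have hW : PowerSeries.derivative R k * g = k * PowerSeries.derivative R g := by
    rw [hk, map_sub, Derivation.leibniz, Derivation.leibniz, PowerSeries.derivative_C,
      PowerSeries.derivative_C]
    simp only [smul_eq_mul, mul_zero, add_zero]
    linear_combination (PowerSeries.C b) * h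
  obtain ⟨k1, hk1⟩ := PowerSeries.X_pow_order_dvd (φ := k)
  obtain ⟨g1, hg1⟩ := PowerSeries.X_pow_order_dvd (φ := g)
  set n := k.order.toNat with hn
  have hkn : PowerSeries.coeff n k ≠ 0 := PowerSeries.coeff_order hk0
  have hgm : PowerSeries.coeff m g ≠ 0 := PowerSeries.coeff_order hg
  have hk10 : PowerSeries.constantCoeff k1 ≠ 0 := by
    intro h0
    apply hkn
    rw [hk1, PowerSeries.coeff_X_pow_mul', if_pos le_rfl, Nat.sub_self]
    simpa using h0
  have hg10 : PowerSeries.constantCoeff g1 ≠ 0 := by
    intro h0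
    apply hgm
    rw [hg1, PowerSeries.coeff_X_pow_mul', if_pos le_rfl, Nat.sub_self]
    simpa using h0
  have hnm : n ≠ m := by
    intro h0
    apply hkn
    rw [h0, hk, map_sub, PowerSeries.coeff_C_mul, PowerSeries.coeff_C_mul]
    rw [← ha, ← hb]
    ring
  have hder : ∀ (j : ℕ) (u : PowerSeries R), PowerSeries.X * PowerSeries.derivative R (PowerSeries.X ^ j * u) =
      PowerSeries.X ^ j * ((j : PowerSeries R) * u + PowerSeries.X * PowerSeries.derivative R u) := by
    intro j u
    rw [Derivation.leibniz, PowerSeries.derivative_pow, PowerSeries.derivative_X]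
    rcases j with _ | j
    · simp
    · simp only [smul_eq_mul, Nat.add_sub_cancel]
      push_cast
      ring
  have h1 : PowerSeries.X ^ (n + m) * (((n : PowerSeries R) * k1 + PowerSeries.X * PowerSeries.derivative R k1) * g1 -
      k1 * ((m : PowerSeries R) * g1 + PowerSeries.X * PowerSeries.derivative R g1)) = 0 := by
    have e1 := hder n k1
    have e2 := hder m g1
    rw [← hk1] at e1
    rw [← hg1] at e2
    have : PowerSeries.X * (PowerSeries.derivative R k * g - k * PowerSeries.derivative R g) = 0 := by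
      rw [hW, sub_self, mul_zero]
    calc _ = (PowerSeries.X ^ n * ((n : PowerSeries R) * k1 + PowerSeries.X * PowerSeries.derivative R k1)) *
          (PowerSeries.X ^ m * g1) - (PowerSeries.X ^ n * k1) *
          (PowerSeries.X ^ m * ((m : PowerSeries R) * g1 + PowerSeries.X * PowerSeries.derivative R g1)) := by ring
      _ = 0 := by
        rw [← e1, ← e2, ← hk1, ← hg1]
        linear_combination this
  have h2 := (mul_eq_zero.mp h1).resolve_left (pow_ne_zero _ PowerSeries.X_ne_zero)
  have h3 := congrArg PowerSeries.constantCoeff h2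
  simp only [map_sub, map_mul, map_add, map_natCast, PowerSeries.constantCoeff_X, zero_mul, add_zero,
    map_zero] at h3
  have h4 : ((n : R) - m) * (PowerSeries.constantCoeff k1 * PowerSeries.constantCoeff g1) = 0 := by
    linear_combination h3
  rcases mul_eq_zero.mp h4 with h5 | h5
  · rw [sub_eq_zero] at h5
    exact hnm (by exact_mod_cast h5)
  · exact (mul_ne_zero hk10 hg10) h5

/-- constants of an algebraic extension of `R((T))` are algebraic over `R` -/
theorem algebraic_const {R L : Type} [CommRing R] [IsDomain R] [CharZero R] [Field L]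
    (l : PowerSeries R →+* L) (hl : Function.Injective l) (D : L → L) (hD : IsDer D)
    (hDl : ∀ f, D (l f) = l (PowerSeries.derivative R f)) (c : L) (hc : D c = 0) :
    ∀ (n : ℕ) (P : Polynomial (PowerSeries R)), P ≠ 0 → P.natDegree ≤ n → P.eval₂ l c = 0 →
      ∃ h : Polynomial R, h ≠ 0 ∧ h.eval₂ (l.comp PowerSeries.C) c = 0 := by
  have hD0 : D 0 = 0 := by
    have := hD.1 0 0
    simpa using this
  intro n
  induction n with
  | zero =>
    intro P hP hn hx
    rw [Polynomial.eq_C_of_natDegree_le_zero hn] at hx hP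
    rw [Polynomial.eval₂_C] at hx
    exact absurd (hl (hx.trans (map_zero l).symm)) (fun h => hP (by rw [h, Polynomial.C_0]))
  | succ n ih =>
    intro P hP hn hx
    by_cases hdn : P.natDegree ≤ n
    · exact ih P hP hdn hx
    set d := P.natDegree with hd
    set g := P.coeff d with hg
    have hg0 : g ≠ 0 := by
      rw [hg, hd]
      exact Polynomial.leadingCoeff_ne_zero.mpr hP
    have hsum := along_eval₂ l (RingHom.id L) D hD.1 hD.2 P c
    rw [hx, hD0, hc, mul_zero, add_zero] at hsum
    simp only [hDl, RingHom.id_apply] at hsum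
    have hPc : ∑ i ∈ Finset.range (d + 1), l (P.coeff i) * c ^ i = 0 := by
      rw [← hx, Polynomial.eval₂_eq_sum_range]
    let Q : Polynomial (PowerSeries R) := ∑ i ∈ Finset.range (d + 1),
      Polynomial.monomial i (g * PowerSeries.derivative R (P.coeff i) -
        PowerSeries.derivative R g * P.coeff i)
    have hQc : ∀ j, Q.coeff j = if j ∈ Finset.range (d + 1) then
        (g * PowerSeries.derivative R (P.coeff j) - PowerSeries.derivative R g * P.coeff j) else 0 := by
      intro j
      simp only [Q, Polynomial.finsetSum_coeff, Polynomial.coeff_monomial]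
      rw [Finset.sum_ite_eq']
    have hQx : Q.eval₂ l c = 0 := by
      simp only [Q]
      rw [Polynomial.eval₂_finsetSum]
      simp only [Polynomial.eval₂_monomial]
      simp only [map_sub, map_mul, sub_mul, Finset.sum_sub_distrib]
      have e1 : ∑ x ∈ Finset.range (d + 1), l g * l (PowerSeries.derivative R (P.coeff x)) * c ^ x =
          l g * ∑ x ∈ Finset.range (d + 1), l (PowerSeries.derivative R (P.coeff x)) * c ^ x := by
        rw [Finset.mul_sum]
        exact Finset.sum_congr rfl fun i _ => by ring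
      have e2 : ∑ x ∈ Finset.range (d + 1), l (PowerSeries.derivative R g) * l (P.coeff x) * c ^ x =
          l (PowerSeries.derivative R g) * ∑ x ∈ Finset.range (d + 1), l (P.coeff x) * c ^ x := by
        rw [Finset.mul_sum]
        exact Finset.sum_congr rfl fun i _ => by ring
      rw [e1, e2, hPc, ← hsum]
      ring
    have hQd : Q.natDegree ≤ n := by
      rw [Polynomial.natDegree_le_iff_coeff_eq_zero]
      intro j hj
      rw [hQc j]
      split_ifs with hjd
      · have hjd' : j = d := by
          have := Finset.mem_range.mp hjd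
          omega
        rw [hjd', ← hg]
        ring
      · rfl
    by_cases hQ0 : Q = 0
    · have hcoef : ∀ j ∈ Finset.range (d + 1), PowerSeries.C (PowerSeries.coeff g.order.toNat g) * P.coeff j =
          PowerSeries.C (PowerSeries.coeff g.order.toNat (P.coeff j)) * g := by
        intro j hj
        refine wronskian hg0 ?_
        have h1 := hQc j
        rw [hQ0, if_pos hj, Polynomial.coeff_zero] at h1
        linear_combination -h1
      refine ⟨∑ j ∈ Finset.range (d + 1), Polynomial.monomial j (PowerSeries.coeff g.order.toNat (P.coeff j)),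
        fun h0 => ?_, ?_⟩
      · have h1 := congrArg (fun q => Polynomial.coeff q d) h0
        simp only [Polynomial.finsetSum_coeff, Polynomial.coeff_monomial, Polynomial.coeff_zero] at h1
        rw [Finset.sum_ite_eq', if_pos (Finset.mem_range.mpr (Nat.lt_succ_self d)), ← hg] at h1
        exact PowerSeries.coeff_order hg0 h1
      · have hlg : l g ≠ 0 := fun h => hg0 (hl (h.trans (map_zero l).symm))
        refine (mul_eq_zero.mp (?_ : l g * _ = 0)).resolve_left hlg
        rw [Polynomial.eval₂_finsetSum, Finset.mul_sum]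
        calc _ = ∑ j ∈ Finset.range (d + 1), l (PowerSeries.C (PowerSeries.coeff g.order.toNat g)) *
              (l (P.coeff j) * c ^ j) := by
              refine Finset.sum_congr rfl fun j hj => ?_
              rw [Polynomial.eval₂_monomial, RingHom.comp_apply, ← mul_assoc, ← mul_assoc, ← map_mul,
                ← map_mul, hcoef j hj, mul_comm g]
          _ = 0 := by rw [← Finset.mul_sum, hPc, mul_zero]
    · exact ih Q hQ0 hQd hQx

end DerivExt

theorem IsFF.charZero {𝔮 : Ideal (RR p σ)} {ι : RR p σ →+* L} (hι : IsFF 𝔮 ι)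
    (hp : (p : RR p σ) ∉ 𝔮) : CharZero L := by
  have hp' : ι (p : RR p σ) ≠ 0 := fun h => hp ((hι.ker _).mp h)
  have hinj : Function.Injective (ι.comp (MvPowerSeries.C : ℤ_[p] →+* RR p σ)) := by
    rw [injective_iff_map_eq_zero]
    intro a ha
    by_contra ha0
    have h1 := PadicInt.unitCoeff_spec ha0
    rw [h1, map_mul, map_pow, map_natCast] at ha
    rcases mul_eq_zero.mp ha with h2 | h2
    · exact (((PadicInt.unitCoeff ha0).isUnit.map
        (ι.comp (MvPowerSeries.C : ℤ_[p] →+* RR p σ))).ne_zero) h2
    · rw [map_natCast] at hp'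
      exact hp' (eq_zero_of_pow_eq_zero h2)
  exact charZero_of_injective_ringHom hinj

theorem IsCurve.subst_notMem {𝔮 : Ideal (RR p σ)} {t : RR p σ} (h : IsCurve 𝔮 t)
    (hinf : (zer 𝔮).Infinite) {f : PowerSeries ℤ_[p]} (hf : f ≠ 0) : PowerSeries.subst t f ∉ 𝔮 := by
  intro hmem
  obtain ⟨n, hn⟩ := exists_isW_of_Z hf
  obtain ⟨B, hB⟩ := h.fibre_t
  apply hinf
  have hS : {s : ℂ_[p] | ‖s‖ < 1 ∧ val (PowerSeries.map (zc p) f) s = 0}.Finite := by
    by_contra hS
    obtain ⟨Z, hZ, hcard⟩ := Set.Infinite.exists_subset_card_eq hS (n + 1)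
    have := hn.finite_zeros Z (fun s hs => hZ hs)
    omega
  refine (hS.biUnion (t := fun s => {z | z ∈ zer 𝔮 ∧ ev z t = s}) fun s _ => ?_).subset fun z hz => ?_
  · by_contra hS
    obtain ⟨Z, hZ, hcard⟩ := Set.Infinite.exists_subset_card_eq hS (B + 1)
    have := hB s Z (fun z hz => hZ hz)
    omega
  · rw [Set.mem_iUnion₂]
    refine ⟨ev z t, ⟨norm_ev_lt hz.1 h.t0, ?_⟩, hz, rfl⟩
    have h1 := ev_subst hz.1 h.t0 f
    rw [hz.2 _ hmem] at h1
    exact h1.symm

/-- `D` is a derivation along a field embedding -/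
def IsDerAlong {E : Type} [Field E] (κ : L →+* E) (D : L → E) : Prop :=
  (∀ a b, D (a + b) = D a + D b) ∧ ∀ a b, D (a * b) = D a * κ b + κ a * D b

namespace DerivExt

/-- `Λ → L` is injective -/
theorem lam_inj {𝔮 : Ideal (RR p σ)} {t : RR p σ} (h : IsCurve 𝔮 t)
    (hinf : (zer 𝔮).Infinite) {ι : RR p σ →+* L} (hι : IsFF 𝔮 ι) :
    Function.Injective (ι.comp (sb h.t0)) := by
  rw [injective_iff_map_eq_zero]
  intro f hf
  by_contra hf0
  refine h.subst_notMem hinf hf0 ((hι.ker _).mp ?_)
  rw [← sb_apply h.t0]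
  exact hf

/-- `L` is algebraic over `Λ` -/
theorem lam_alg {𝔮 : Ideal (RR p σ)} {t : RR p σ} (h : IsCurve 𝔮 t)
    (hinf : (zer 𝔮).Infinite) {ι : RR p σ →+* L} (hι : IsFF 𝔮 ι) (x : L) :
    ∃ P : Polynomial (PowerSeries ℤ_[p]), P ≠ 0 ∧ P.eval₂ (ι.comp (sb h.t0)) x = 0 := by
  let _ := (ι.comp (sb h.t0)).toAlgebra
  have hint : ∀ F : RR p σ, IsIntegral (PowerSeries ℤ_[p]) (ι F) := by
    intro F
    obtain ⟨P, hP, hF⟩ := h.integral F
    refine ⟨P, hP, ?_⟩
    have h1 : ι (P.eval₂ (sb h.t0) F) = 0 := (hι.ker _).mpr hF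
    rw [Polynomial.hom_eval₂] at h1
    exact h1
  obtain ⟨N, M, hM, hx⟩ := hι.surj x
  have h1 : IsAlgebraic (PowerSeries ℤ_[p]) x := by
    rw [hx, div_eq_mul_inv]
    exact (hint N).isAlgebraic.mul (hint M).isAlgebraic.inv
  obtain ⟨P, hP, hP0⟩ := h1
  exact ⟨P, hP, hP0⟩

end DerivExt

theorem exists_deriv_aux {𝔮 : Ideal (RR p σ)} {t : RR p σ} (h : IsCurve 𝔮 t)
    (hinf : (zer 𝔮).Infinite) {ι : RR p σ →+* L} (hι : IsFF 𝔮 ι) :
    ∃ D : L → L, IsDer D ∧ ∀ f : PowerSeries ℤ_[p], D (ι (PowerSeries.subst t f)) =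
      ι (PowerSeries.subst t (PowerSeries.derivative ℤ_[p] f)) := by
  have hcz : CharZero L := hι.charZero h.p_notMem
  obtain ⟨D, hD, hDl⟩ := DerivExt.exists_der_ext (ι.comp (sb h.t0)) (DerivExt.lam_inj h hinf hι)
    (DerivExt.lam_alg h hinf hι) (fun f => PowerSeries.derivative ℤ_[p] f) (by simp) (by simp)
    (by simp)
  refine ⟨D, hD, fun f => ?_⟩
  rw [← sb_apply h.t0, ← sb_apply h.t0]
  exact hDl f

theorem deriv_unique {𝔮 : Ideal (RR p σ)} {t : RR p σ} (h : IsCurve 𝔮 t)
    (hinf : (zer 𝔮).Infinite) {ι : RR p σ →+* L} (hι : IsFF 𝔮 ι) {E : Type} [Field E] [CharZero E]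
    (κ : L →+* E) (D1 D2 : L → E) (h1 : IsDerAlong κ D1) (h2 : IsDerAlong κ D2)
    (h12 : ∀ f : PowerSeries ℤ_[p], D1 (ι (PowerSeries.subst t f)) = D2 (ι (PowerSeries.subst t f))) :
    D1 = D2 := by
  funext x
  obtain ⟨P, hP, hx⟩ := DerivExt.lam_alg h hinf hι x
  rw [← sub_eq_zero]
  refine DerivExt.along_eq_zero (ι.comp (sb h.t0)) κ (DerivExt.lam_inj h hinf hι)
    (fun y => D1 y - D2 y) (fun a b => ?_) (fun a b => ?_) (fun f => ?_) x P.natDegree P hP le_rfl hx
  · simp only [h1.1, h2.1]
    ring
  · simp only [h1.2, h2.2]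
    ring
  · rw [sub_eq_zero]
    have := h12 f
    rw [← sb_apply h.t0] at this
    exact this

theorem algebraic_of_deriv_eq_zero {𝔮 : Ideal (RR p σ)} {t : RR p σ} (h : IsCurve 𝔮 t)
    (hinf : (zer 𝔮).Infinite) {ι : RR p σ →+* L} (hι : IsFF 𝔮 ι) {D : L → L} (hD : IsDer D)
    (hDt : ∀ f : PowerSeries ℤ_[p], D (ι (PowerSeries.subst t f)) =
      ι (PowerSeries.subst t (PowerSeries.derivative ℤ_[p] f))) {c : L} (hc : D c = 0) :
    ∃ P : Polynomial ℤ_[p], P ≠ 0 ∧ P.eval₂ (ι.comp MvPowerSeries.C) c = 0 := by
  obtain ⟨P, hP, hx⟩ := DerivExt.lam_alg h hinf hι c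
  obtain ⟨Q, hQ, hQc⟩ := DerivExt.algebraic_const (ι.comp (sb h.t0)) (DerivExt.lam_inj h hinf hι) D hD
    (fun f => by
      have := hDt f
      rw [← sb_apply h.t0, ← sb_apply h.t0] at this
      exact this) c hc P.natDegree P hP le_rfl hx
  refine ⟨Q, hQ, ?_⟩
  have : (ι.comp (sb h.t0)).comp PowerSeries.C = ι.comp (MvPowerSeries.C : ℤ_[p] →+* RR p σ) := by
    ext a
    simp only [RingHom.comp_apply, sb_apply]
    congr 1
    exact PowerSeries.subst_C a
  rwa [this] at hQc

end Pool.Agent.ZPB
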