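import Pool.Agent.ZPB.Defs
import Pool.Agent.ZPB.DerivExt

/-!
# Module AI11: transport of a derivation between fields generated by elements with the same relations

`λ`: the ring homomorphisms `ℤ[Y] → E1, E2` given by `a`, `b` have the same kernel, so there is an isomorphism of their images
with `a i ↦ b i`, which extends to the fraction fields `F = Subfield.closure (range a)` and `Subfield.closure (range b)`.
(Every element of `F` is `aeval a N/aeval a M`, `aeval a M ≠ 0`; put `λ(N(a)/M(a)) = N(b)/M(b)`.)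
For each `i` choose `P ∈ ℤ[S, T]`, `P(a_0, a_i) = 0`, `P ≠ 0`, of minimal degree in `T`. This degree is positive (`htr`), so
`P_T ≠ 0` has smaller degree and `P_T(a_0, a_i) ≠ 0`. Hence `D1 a_i = - P_S(a_0, a_i)/P_T(a_0, a_i) ∈ F`, and the same with `b`
(`P(b_0, b_i) = 0`, `P_T(b_0, b_i) ≠ 0` by `hab`), so `λ(D1 a_i) = D2 b_i`. The set of `x ∈ F` with `D1 x ∈ F` and
`λ(D1 x) = D2(λ x)` is a subfield containing all `a_i`.
-/

namespace Pool.Agent.ZPB

namespace TransportAux

open Polynomial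

/-- evaluation of a polynomial in one variable over `ℤ` -/
noncomputable def ea {E : Type} [Field E] (u : E) : ℤ[X] →+* E := eval₂RingHom (Int.castRingHom E) u

theorem ea_eq {E : Type} [Field E] (u : E) (g : ℤ[X]) : ea u g = aeval u g := rfl

/-- a derivation kills the integers -/
theorem der_int {E : Type} [Field E] {D : E → E} (hD : IsDer D) (n : ℤ) :
    D (Int.castRingHom E n) = 0 := by
  have h0 : D 0 = 0 := by
    have := hD.1 0 0
    simpa using this
  have h1 : D 1 = 0 := by
    have := hD.2 1 1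
    simpa using this
  let d : E →+ E := { toFun := D, map_zero' := h0, map_add' := hD.1 }
  have h : d (n • (1 : E)) = n • d 1 := map_zsmul d n 1
  have h2 : d 1 = 0 := h1
  rw [h2, smul_zero] at h
  have h3 : (Int.castRingHom E n) = n • (1 : E) := by simp
  rw [h3]
  exact h

/-- the chain rule for polynomials in one variable -/
theorem der_ea {E : Type} [Field E] {D : E → E} (hD : IsDer D) {u : E} (hu : D u = 1) (g : ℤ[X]) :
    D (ea u g) = ea u (derivative g) := by
  have h := DerivExt.along_eval₂ (Int.castRingHom E) (RingHom.id E) D hD.1 hD.2 g u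
  simp only [der_int hD, zero_mul, Finset.sum_const_zero, zero_add, RingHom.id_apply, hu,
    mul_one] at h
  exact h

/-- the coefficientwise derivative -/
noncomputable def cd (P : ℤ[X][X]) : ℤ[X][X] :=
  ∑ j ∈ Finset.range (P.natDegree + 1), monomial j (derivative (P.coeff j))

/-- the chain rule for polynomials in two variables -/
theorem der_two {E : Type} [Field E] {D : E → E} (hD : IsDer D) {u : E} (hu : D u = 1) (x : E)
    (P : ℤ[X][X]) :
    D (P.eval₂ (ea u) x) = (cd P).eval₂ (ea u) x + (derivative P).eval₂ (ea u) x * D x := by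
  have h := DerivExt.along_eval₂ (ea u) (RingHom.id E) D hD.1 hD.2 P x
  rw [h]
  simp only [RingHom.id_apply, cd, eval₂_finsetSum, eval₂_monomial, der_ea hD hu]

/-- the map `ℤ[S][T] → ℤ[Y_0, Y_1, Y_2]`, `S ↦ Y_0`, `T ↦ Y_i` -/
noncomputable def ps (i : Fin 3) : ℤ[X][X] →+* MvPolynomial (Fin 3) ℤ :=
  eval₂RingHom (eval₂RingHom (Int.castRingHom _) (MvPolynomial.X 0)) (MvPolynomial.X i)

theorem ps_ev {E : Type} [Field E] (a : Fin 3 → E) (i : Fin 3) (P : ℤ[X][X]) :
    MvPolynomial.aeval a (ps i P) = P.eval₂ (ea (a 0)) (a i) := by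
  have h : ((MvPolynomial.aeval a : MvPolynomial (Fin 3) ℤ →ₐ[ℤ] E) : MvPolynomial (Fin 3) ℤ →+* E).comp (ps i) =
      eval₂RingHom (ea (a 0)) (a i) := by
    apply Polynomial.ringHom_ext'
    · apply Polynomial.ringHom_ext'
      · exact RingHom.ext_int _ _
      · simp [ps, ea]
    · simp [ps]
  exact congrArg (fun f => f P) h

/-- two variables as a polynomial over polynomials -/
noncomputable def tw : MvPolynomial (Fin 2) ℤ →+* ℤ[X][X] :=
  ((MvPolynomial.aeval ![C X, X] : MvPolynomial (Fin 2) ℤ →ₐ[ℤ] ℤ[X][X]) : MvPolynomial (Fin 2) ℤ →+* ℤ[X][X])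

theorem tw_ne {g : MvPolynomial (Fin 2) ℤ} (hg : g ≠ 0) : tw g ≠ 0 := by
  let r : ℤ[X][X] →+* MvPolynomial (Fin 2) ℤ :=
    eval₂RingHom (eval₂RingHom (Int.castRingHom _) (MvPolynomial.X 0)) (MvPolynomial.X 1)
  have h : r.comp tw = RingHom.id _ := by
    apply MvPolynomial.ringHom_ext'
    · exact RingHom.ext_int _ _
    · intro i
      fin_cases i
      · simp [r, tw]
      · simp [r, tw]
  intro h0
  apply hg
  have h1 : r (tw g) = g := congrArg (fun f => f g) h
  rw [h0, map_zero] at h1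
  exact h1.symm

theorem tw_ev {E : Type} [Field E] (u x : E) (g : MvPolynomial (Fin 2) ℤ) :
    (tw g).eval₂ (ea u) x = MvPolynomial.aeval ![u, x] g := by
  have h : (eval₂RingHom (ea u) x).comp tw =
      ((MvPolynomial.aeval ![u, x] : MvPolynomial (Fin 2) ℤ →ₐ[ℤ] E) : MvPolynomial (Fin 2) ℤ →+* E) := by
    apply MvPolynomial.ringHom_ext'
    · exact RingHom.ext_int _ _
    · intro i
      fin_cases i
      · simp [tw, ea]
      · simp [tw]
  exact congrArg (fun f => f g) h

/-- a relation of minimal degree -/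
theorem exists_min {E : Type} [Field E] {u x : E}
    (halg : ∃ g : MvPolynomial (Fin 2) ℤ, g ≠ 0 ∧ MvPolynomial.aeval ![u, x] g = 0)
    (htr : ∀ g : Polynomial ℤ, g ≠ 0 → Polynomial.aeval u g ≠ 0) :
    ∃ P : ℤ[X][X], P.eval₂ (ea u) x = 0 ∧ (derivative P).eval₂ (ea u) x ≠ 0 := by
  classical
  have hex : ∃ n : ℕ, ∃ P : ℤ[X][X], P ≠ 0 ∧ P.eval₂ (ea u) x = 0 ∧ P.natDegree = n := by
    obtain ⟨g, hg, h0⟩ := halg
    exact ⟨_, tw g, tw_ne hg, by rw [tw_ev, h0], rfl⟩
  obtain ⟨P, hP, h0, hn⟩ := Nat.find_spec hex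
  have hdeg : P.natDegree ≠ 0 := by
    intro hz
    rw [eq_C_of_natDegree_eq_zero hz] at h0 hP
    rw [eval₂_C, ea_eq] at h0
    exact htr _ (fun h => hP (by rw [h, C_0])) h0
  refine ⟨P, h0, fun h => ?_⟩
  have hlt := natDegree_derivative_lt hdeg
  refine Nat.find_min hex (m := (derivative P).natDegree) (by rw [← hn]; exact hlt)
    ⟨derivative P, ?_, h, rfl⟩
  intro h3
  exact hdeg (derivative_eq_zero.mp h3)

/-- elements of the field generated by the `a i` are fractions -/
theorem rep {E : Type} [Field E] (a : Fin 3 → E) (x : E) (hx : x ∈ Subfield.closure (Set.range a)) :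
    ∃ N M : MvPolynomial (Fin 3) ℤ, MvPolynomial.aeval a M ≠ 0 ∧
      x = MvPolynomial.aeval a N / MvPolynomial.aeval a M := by
  induction hx using Subfield.closure_induction with
  | mem x h =>
    obtain ⟨i, rfl⟩ := h
    exact ⟨MvPolynomial.X i, 1, by simp, by simp⟩
  | one => exact ⟨1, 1, by simp, by simp⟩
  | add x y hx hy h1 h2 =>
    obtain ⟨N, M, hM, rfl⟩ := h1
    obtain ⟨N', M', hM', rfl⟩ := h2
    refine ⟨N * M' + M * N', M * M', by simp [hM, hM'], ?_⟩
    rw [div_add_div _ _ hM hM']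
    simp
  | neg x hx h1 =>
    obtain ⟨N, M, hM, rfl⟩ := h1
    exact ⟨-N, M, hM, by rw [map_neg, neg_div]⟩
  | inv x hx h1 =>
    obtain ⟨N, M, hM, rfl⟩ := h1
    by_cases hN : MvPolynomial.aeval a N = 0
    · exact ⟨0, 1, by simp, by simp [hN]⟩
    · exact ⟨M, N, hN, by rw [inv_div]⟩
  | mul x y hx hy h1 h2 =>
    obtain ⟨N, M, hM, rfl⟩ := h1
    obtain ⟨N', M', hM', rfl⟩ := h2
    refine ⟨N * N', M * M', by simp [hM, hM'], ?_⟩
    rw [div_mul_div_comm]
    simp

section hom

variable {E1 E2 : Type} [Field E1] [Field E2] {a : Fin 3 → E1} {b : Fin 3 → E2}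
  (hab : ∀ g : MvPolynomial (Fin 3) ℤ, MvPolynomial.aeval a g = 0 ↔ MvPolynomial.aeval b g = 0)

include hab in
theorem indep {N M N' M' : MvPolynomial (Fin 3) ℤ} (hM : MvPolynomial.aeval a M ≠ 0)
    (hM' : MvPolynomial.aeval a M' ≠ 0)
    (h : (MvPolynomial.aeval a N : E1) / MvPolynomial.aeval a M =
      MvPolynomial.aeval a N' / MvPolynomial.aeval a M') :
    (MvPolynomial.aeval b N : E2) / MvPolynomial.aeval b M =
      MvPolynomial.aeval b N' / MvPolynomial.aeval b M' := by
  have hb : (MvPolynomial.aeval b M : E2) ≠ 0 := fun h => hM ((hab _).mpr h)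
  have hb' : (MvPolynomial.aeval b M' : E2) ≠ 0 := fun h => hM' ((hab _).mpr h)
  rw [div_eq_div_iff hM hM'] at h
  rw [div_eq_div_iff hb hb']
  have h1 : MvPolynomial.aeval a (N * M' - N' * M) = 0 := by
    rw [map_sub, map_mul, map_mul, h, sub_self]
  have h2 := (hab _).mp h1
  rw [map_sub, map_mul, map_mul, sub_eq_zero] at h2
  exact h2

include hab in
theorem exists_hom :
    ∃ φ : Subfield.closure (Set.range a) →+* E2,
      ∀ (N M : MvPolynomial (Fin 3) ℤ) (x : Subfield.closure (Set.range a)),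
        MvPolynomial.aeval a M ≠ 0 → (x : E1) = MvPolynomial.aeval a N / MvPolynomial.aeval a M →
        φ x = MvPolynomial.aeval b N / MvPolynomial.aeval b M := by
  classical
  choose N M hM hx using fun x : Subfield.closure (Set.range a) => rep a x.1 x.2
  have key : ∀ (N' M' : MvPolynomial (Fin 3) ℤ) (x : Subfield.closure (Set.range a)),
      MvPolynomial.aeval a M' ≠ 0 → (x : E1) = MvPolynomial.aeval a N' / MvPolynomial.aeval a M' →
      (MvPolynomial.aeval b (N x) : E2) / MvPolynomial.aeval b (M x) =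
        MvPolynomial.aeval b N' / MvPolynomial.aeval b M' := by
    intro N' M' x h1 h2
    exact indep hab (hM x) h1 ((hx x).symm.trans h2)
  have hb : ∀ {M' : MvPolynomial (Fin 3) ℤ}, MvPolynomial.aeval a M' ≠ 0 →
      (MvPolynomial.aeval b M' : E2) ≠ 0 := fun h1 h2 => h1 ((hab _).mpr h2)
  refine ⟨{ toFun := fun x => MvPolynomial.aeval b (N x) / MvPolynomial.aeval b (M x)
            map_one' := ?_
            map_mul' := ?_
            map_zero' := ?_
            map_add' := ?_ }, fun N' M' x h1 h2 => key N' M' x h1 h2⟩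
  · rw [key 1 1 1 (by simp) (by simp)]
    simp
  · intro x y
    rw [key (N x * N y) (M x * M y) (x * y) (by simp [hM x, hM y]) ?_]
    · rw [div_mul_div_comm, map_mul, map_mul]
    · rw [map_mul, map_mul, ← div_mul_div_comm, ← hx x, ← hx y]
      rfl
  · rw [key 0 1 0 (by simp) (by simp)]
    simp
  · intro x y
    rw [key (N x * M y + M x * N y) (M x * M y) (x + y) (by simp [hM x, hM y]) ?_]
    · rw [div_add_div _ _ (hb (hM x)) (hb (hM y)), map_add, map_mul, map_mul, map_mul]
    · rw [map_add, map_mul, map_mul, map_mul, ← div_add_div _ _ (hM x) (hM y), ← hx x, ← hx y]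
      rfl

end hom

end TransportAux

open TransportAux in
theorem transport {E1 E2 : Type} [Field E1] [CharZero E1] [Field E2] [CharZero E2] {D1 : E1 → E1}
    {D2 : E2 → E2} (h1 : IsDer D1) (h2 : IsDer D2) {a : Fin 3 → E1} {b : Fin 3 → E2}
    (hab : ∀ g : MvPolynomial (Fin 3) ℤ, MvPolynomial.aeval a g = 0 ↔ MvPolynomial.aeval b g = 0)
    (ha : D1 (a 0) = 1) (hb : D2 (b 0) = 1)
    (halg : ∀ i, ∃ g : MvPolynomial (Fin 2) ℤ, g ≠ 0 ∧ MvPolynomial.aeval ![a 0, a i] g = 0)
    (htr : ∀ g : Polynomial ℤ, g ≠ 0 → Polynomial.aeval (a 0) g ≠ 0) :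
    ∃ φ : Subfield.closure (Set.range a) →+* E2,
      (∀ i, φ ⟨a i, Subfield.subset_closure (Set.mem_range_self i)⟩ = b i) ∧
      ∀ x : Subfield.closure (Set.range a), ∃ h : D1 x ∈ Subfield.closure (Set.range a),
        φ ⟨D1 x, h⟩ = D2 (φ x) := by
  obtain ⟨φ, hφ⟩ := exists_hom hab
  have hφi : ∀ i, φ ⟨a i, Subfield.subset_closure (Set.mem_range_self i)⟩ = b i := by
    intro i
    rw [hφ (MvPolynomial.X i) 1 _ (by simp) (by simp)]
    simp
  refine ⟨φ, hφi, ?_⟩
  have hD10 : D1 0 = 0 := by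
    have := h1.1 0 0
    simpa using this
  have hD11 : D1 1 = 0 := by
    have := h1.2 1 1
    simpa using this
  have hD20 : D2 0 = 0 := by
    have := h2.1 0 0
    simpa using this
  have hD21 : D2 1 = 0 := by
    have := h2.2 1 1
    simpa using this
  have main : ∀ (x : E1) (hx : x ∈ Subfield.closure (Set.range a)),
      ∃ h : D1 x ∈ Subfield.closure (Set.range a), φ ⟨D1 x, h⟩ = D2 (φ ⟨x, hx⟩) := by
    intro x hx
    induction hx using Subfield.closure_induction with
    | mem x h =>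
      obtain ⟨i, rfl⟩ := h
      obtain ⟨P, hP0, hP1⟩ := exists_min (halg i) htr
      have e1 := der_two h1 ha (a i) P
      rw [hP0, hD10] at e1
      have hQ0 : P.eval₂ (ea (b 0)) (b i) = 0 := by
        rw [← ps_ev]
        refine (hab _).mp ?_
        rw [ps_ev]
        exact hP0
      have hQ1 : (Polynomial.derivative P).eval₂ (ea (b 0)) (b i) ≠ 0 := by
        rw [← ps_ev]
        intro h
        apply hP1
        rw [← ps_ev]
        exact (hab _).mpr h
      have e2 := der_two h2 hb (b i) P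
      rw [hQ0, hD20] at e2
      have f1 : D1 (a i) = MvPolynomial.aeval a (-ps i (cd P)) /
          MvPolynomial.aeval a (ps i (Polynomial.derivative P)) := by
        rw [map_neg, ps_ev, ps_ev, eq_div_iff hP1]
        linear_combination -e1
      have f2 : D2 (b i) = MvPolynomial.aeval b (-ps i (cd P)) /
          MvPolynomial.aeval b (ps i (Polynomial.derivative P)) := by
        rw [map_neg, ps_ev, ps_ev, eq_div_iff hQ1]
        linear_combination -e2
      have hmem : ∀ g : MvPolynomial (Fin 3) ℤ,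
          (MvPolynomial.aeval a g : E1) ∈ Subfield.closure (Set.range a) := by
        intro g
        induction g using MvPolynomial.induction_on with
        | C n => simp
        | add p q h1 h2 =>
          rw [map_add]
          exact add_mem h1 h2
        | mul_X p n h1 =>
          rw [map_mul, MvPolynomial.aeval_X]
          exact mul_mem h1 (Subfield.subset_closure (Set.mem_range_self n))
      refine ⟨?_, ?_⟩
      · rw [f1]
        exact div_mem (hmem _) (hmem _)
      · rw [hφi i, f2]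
        exact hφ _ _ _ (by rw [ps_ev]; exact hP1) f1
    | one =>
      refine ⟨by rw [hD11]; exact zero_mem _, ?_⟩
      have e1 : (⟨1, one_mem _⟩ : Subfield.closure (Set.range a)) = 1 := rfl
      have e2 : ∀ h, (⟨D1 1, h⟩ : Subfield.closure (Set.range a)) = 0 := fun h => Subtype.ext hD11
      rw [e1, e2, map_zero, map_one, hD21]
    | add x y hx hy ihx ihy =>
      obtain ⟨mx, ex⟩ := ihx
      obtain ⟨my, ey⟩ := ihy
      refine ⟨by rw [h1.1]; exact add_mem mx my, ?_⟩
      have e1 : (⟨x + y, add_mem hx hy⟩ : Subfield.closure (Set.range a)) = ⟨x, hx⟩ + ⟨y, hy⟩ := rfl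
      have e2 : ∀ h, (⟨D1 (x + y), h⟩ : Subfield.closure (Set.range a)) = ⟨D1 x, mx⟩ + ⟨D1 y, my⟩ :=
        fun h => Subtype.ext (h1.1 x y)
      rw [e1, e2, map_add, map_add, ex, ey, h2.1]
    | neg x hx ihx =>
      obtain ⟨mx, ex⟩ := ihx
      have f1 : D1 (-x) = - D1 x := by
        have := h1.1 x (-x)
        rw [add_neg_cancel, hD10] at this
        linear_combination -this
      have f2 : ∀ y, D2 (-y) = - D2 y := by
        intro y
        have := h2.1 y (-y)
        rw [add_neg_cancel, hD20] at this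
        linear_combination -this
      refine ⟨by rw [f1]; exact neg_mem mx, ?_⟩
      have e1 : (⟨-x, neg_mem hx⟩ : Subfield.closure (Set.range a)) = -⟨x, hx⟩ := rfl
      have e2 : ∀ h, (⟨D1 (-x), h⟩ : Subfield.closure (Set.range a)) = -⟨D1 x, mx⟩ :=
        fun h => Subtype.ext f1
      rw [e1, e2, map_neg, map_neg, ex, f2]
    | inv x hx ihx =>
      obtain ⟨mx, ex⟩ := ihx
      by_cases h0 : x = 0
      · subst h0
        have f1 : D1 (0⁻¹ : E1) = 0 := by rw [inv_zero, hD10]
        refine ⟨by rw [f1]; exact zero_mem _, ?_⟩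
        have e1 : (⟨0⁻¹, inv_mem hx⟩ : Subfield.closure (Set.range a)) = 0 :=
          Subtype.ext inv_zero
        have e2 : ∀ h, (⟨D1 (0⁻¹ : E1), h⟩ : Subfield.closure (Set.range a)) = 0 :=
          fun h => Subtype.ext f1
        rw [e1, e2, map_zero, hD20]
      · have f1 : D1 x⁻¹ = - (x⁻¹ * x⁻¹ * D1 x) := by
          have := h1.2 x x⁻¹
          rw [mul_inv_cancel₀ h0, hD11] at this
          field_simp at this ⊢
          linear_combination -this
        have hy0 : φ ⟨x, hx⟩ ≠ 0 := by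
          rw [_root_.map_ne_zero]
          intro h
          exact h0 (congrArg Subtype.val h)
        have f2 : D2 (φ ⟨x, hx⟩)⁻¹ = - ((φ ⟨x, hx⟩)⁻¹ * (φ ⟨x, hx⟩)⁻¹ * D2 (φ ⟨x, hx⟩)) := by
          have := h2.2 (φ ⟨x, hx⟩) (φ ⟨x, hx⟩)⁻¹
          rw [mul_inv_cancel₀ hy0, hD21] at this
          field_simp at this ⊢
          linear_combination -this
        refine ⟨by rw [f1]; exact neg_mem (mul_mem (mul_mem (inv_mem hx) (inv_mem hx)) mx), ?_⟩
        have e1 : (⟨x⁻¹, inv_mem hx⟩ : Subfield.closure (Set.range a)) = ⟨x, hx⟩⁻¹ := rfl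
        have e2 : ∀ h, (⟨D1 x⁻¹, h⟩ : Subfield.closure (Set.range a)) =
            -(⟨x, hx⟩⁻¹ * ⟨x, hx⟩⁻¹ * ⟨D1 x, mx⟩) :=
          fun h => Subtype.ext f1
        rw [e1, e2, map_neg, map_mul, map_mul, map_inv₀, ex, f2]
    | mul x y hx hy ihx ihy =>
      obtain ⟨mx, ex⟩ := ihx
      obtain ⟨my, ey⟩ := ihy
      refine ⟨by rw [h1.2]; exact add_mem (mul_mem mx hy) (mul_mem hx my), ?_⟩
      have e1 : (⟨x * y, mul_mem hx hy⟩ : Subfield.closure (Set.range a)) = ⟨x, hx⟩ * ⟨y, hy⟩ := rfl
      have e2 : ∀ h, (⟨D1 (x * y), h⟩ : Subfield.closure (Set.range a)) =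
          ⟨D1 x, mx⟩ * ⟨y, hy⟩ + ⟨x, hx⟩ * ⟨D1 y, my⟩ :=
        fun h => Subtype.ext (h1.2 x y)
      rw [e1, e2, map_add, map_mul, map_mul, map_mul, ex, ey, h2.2]
  intro x
  exact main x.1 x.2

end Pool.Agent.ZPB
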