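import Pool.Agent.ZPB.SubstInj
import Pool.Agent.ZPB.E2Alg
import Pool.Agent.ZPB.Elim
import Pool.Agent.ZPB.ModRel
import Pool.Agent.ZPB.Transport

/-!
# Module AI15: independence of the logarithmic differentials

Let `D` be a continuous derivation of `L`, `D ≠ 0`, `c_i` constants, `∑ c_i θ_i = 0`, `θ_i = D(ι X_i)/ι X_i`; `J_i = jL ι i`. `CharZero L`
(`IsFF.charZero`).
1. Some `D(ι X_k) ≠ 0`: otherwise `D ∘ ι = 0` by continuity, and `D = 0` because of `IsFF.surj` (quotient rule). By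
  `schwarz_identity` (`LEis`) `D J_k ≠ 0`.
2. `D J_i ≠ 0` for all `i`: `hdep` and `hker` give `g ∈ ℤ[S, T]`, `g ≠ 0`, `g(J_i, J_k) = 0`; `J_i` is transcendental over `ℚ` (`hker`, `hψ`), so `J_k`
  is algebraic over `ℤ[J_i]`; if `D J_i = 0` then `D J_k = 0` (`DerivExt.along_eq_zero`, `A = ℤ[S] → L`, `S ↦ J_i`). So `θ_i ≠ 0`
  (`D J_i = - J_i θ_i e6/e4`, from `schwarz_identity` if `θ_i ≠ 0`; if `θ_i = 0` then `D e4 = D e6 = 0` and `D J_i = 0`).
3. `∂ = D/D J_0` is a derivation (`IsDer.divBy`), continuous, with the same constants. `θ'_i = ∂(ιX_i)/ιX_i ≠ 0`, `u_i = ∂θ'_i/θ'_i`, `schwarz_identity` for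
  `∂`: `∂ u_i = u_i²/2 + SS ∂ J_i`, `∂ J_0 = 1`.
4. `exists_derK` for `ψ_0`: `D_K`, `D_K ψ_0 = 1`, `D_K ψ_i ≠ 0`. `transport` with `a = J`, `b = ψ`: `φ : F → K`, `F = Subfield.closure (range J)`.
  `F` is stable under `∂`, contains `S_i = SS ∂ J_i`, and `φ(S_i) = SS D_K ψ_i` (`SS_map` for `F → L` and `φ`, with the derivation
  `x ↦ ⟨∂ x, _⟩` of `F`).
5. If `S_i = S_j`, `i ≠ j`, then `SS D_K ψ_i = SS D_K ψ_j` and `modRel_of_SS` contradicts `hmod`.
6. `u_0` is not algebraic over `F`: `∂J_0 = 1` gives `θ'_0 = -e4/(J_0 e6)`, so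
  `u_0 = θ'_0 (-e2/6 - e6/(3 e4) + e4²/(2 e6)) - 1/J_0`, and `e2` is a rational function of `u_0, J_0, e4, e6`; if `u_0` were algebraic over `F`,
  `e2` would be algebraic over `F ⊔ closure {e4, e6}`: contradiction with `e2_not_alg` (`hinj` = `subst_inj`; `F` is algebraic over
  `closure {J_0}` because the `J_i` are, `hdep`).
7. `R1 ∂ S_0 S_1 S_2` would give (in `F`, then by `φ`, `R1_map`) `R1 D_K (SS D_K ψ_0) (SS D_K ψ_1) (SS D_K ψ_2)`, contradiction with
  `no_R1_K` (`SS D_K ψ_1 ≠ SS D_K ψ_2` by 5.).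
8. `∑ c_i θ'_i = 0`, and `three_term` gives `c = 0`.
-/

namespace Pool.Agent.ZPB

open MvPowerSeries

variable {p : ℕ} [Fact p.Prime] {L : Type} [Field L]

namespace AIAux

open TransportAux

/-- a derivation with `D u = 0` kills `ℤ[u]` -/
theorem der_ea_zero {E : Type} [Field E] {D : E → E} (hD : IsDer D) {u : E} (hu : D u = 0)
    (g : Polynomial ℤ) : D (ea u g) = 0 := by
  have h := DerivExt.along_eval₂ (Int.castRingHom E) (RingHom.id E) D hD.1 hD.2 g u
  simp only [der_int hD, zero_mul, Finset.sum_const_zero, zero_add, hu, mul_zero] at h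
  exact h

theorem ea_injective {E : Type} [Field E] {u : E}
    (htr : ∀ g : Polynomial ℤ, g ≠ 0 → Polynomial.aeval u g ≠ 0) : Function.Injective (ea u) := by
  rw [injective_iff_map_eq_zero]
  intro g hg
  by_contra h
  exact htr g h hg

/-- if `x` is algebraic over `ℤ[u]` and `D u = 0`, then `D x = 0` -/
theorem der_dep_zero {E : Type} [Field E] [CharZero E] {D : E → E} (hD : IsDer D) {u x : E}
    (htr : ∀ g : Polynomial ℤ, g ≠ 0 → Polynomial.aeval u g ≠ 0)
    (hdep : ∃ g : MvPolynomial (Fin 2) ℤ, g ≠ 0 ∧ MvPolynomial.aeval ![u, x] g = 0) (hu : D u = 0) :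
    D x = 0 := by
  obtain ⟨g, hg, h0⟩ := hdep
  exact DerivExt.along_eq_zero (ea u) (RingHom.id E) (ea_injective htr) D hD.1 hD.2
    (der_ea_zero hD hu) x _ (tw g) (tw_ne hg) le_rfl (by rw [tw_ev, h0])

/-- the relations between `J` and `ψ` in two variables -/
theorem rel_two {E K : Type} [Field E] [Field K] {a : Fin 3 → E} {b : Fin 3 → K}
    (hab : ∀ g : MvPolynomial (Fin 3) ℤ, MvPolynomial.aeval a g = 0 ↔ MvPolynomial.aeval b g = 0)
    (i j : Fin 3) (g : MvPolynomial (Fin 2) ℤ) :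
    MvPolynomial.aeval ![a i, a j] g = 0 ↔ MvPolynomial.aeval ![b i, b j] g = 0 := by
  have h := hab (MvPolynomial.rename ![i, j] g)
  rw [MvPolynomial.aeval_rename, MvPolynomial.aeval_rename] at h
  have e1 : a ∘ ![i, j] = ![a i, a j] := by
    funext k
    fin_cases k <;> rfl
  have e2 : b ∘ ![i, j] = ![b i, b j] := by
    funext k
    fin_cases k <;> rfl
  rwa [e1, e2] at h

theorem rel_one {E K : Type} [Field E] [Field K] {a : Fin 3 → E} {b : Fin 3 → K}
    (hab : ∀ g : MvPolynomial (Fin 3) ℤ, MvPolynomial.aeval a g = 0 ↔ MvPolynomial.aeval b g = 0)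
    (i : Fin 3) (g : Polynomial ℤ) :
    Polynomial.aeval (a i) g = 0 ↔ Polynomial.aeval (b i) g = 0 := by
  have h := hab (Polynomial.aeval (MvPolynomial.X i) g)
  rwa [← Polynomial.aeval_algHom_apply, ← Polynomial.aeval_algHom_apply, MvPolynomial.aeval_X,
    MvPolynomial.aeval_X] at h

theorem alg_mono {E : Type} [Field E] {F G : Subfield E} (hFG : F ≤ G) {x : E}
    (hx : IsAlgebraic F x) : IsAlgebraic G x := by
  obtain ⟨P, hP, h0⟩ := hx
  refine ⟨P.map (Subfield.inclusion hFG), ?_, ?_⟩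
  · rwa [Ne, Polynomial.map_eq_zero_iff (Subfield.inclusion hFG).injective]
  · rw [Polynomial.aeval_def, Polynomial.eval₂_map]
    rw [Polynomial.aeval_def] at h0
    exact h0

/-- the field generated by the `a i` is algebraic over the field generated by `a 0` -/
theorem alg_closure {E : Type} [Field E] {a : Fin 3 → E}
    (htr : ∀ g : Polynomial ℤ, g ≠ 0 → Polynomial.aeval (a 0) g ≠ 0)
    (hdep : ∀ i, ∃ g : MvPolynomial (Fin 2) ℤ, g ≠ 0 ∧ MvPolynomial.aeval ![a 0, a i] g = 0) :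
    ∀ x ∈ Subfield.closure (Set.range a),
      IsAlgebraic (Subfield.closure ({a 0} : Set E)) x := by
  obtain ⟨C0, hC0⟩ : ∃ C0 : Subfield E, C0 = Subfield.closure ({a 0} : Set E) := ⟨_, rfl⟩
  have ha0 : a 0 ∈ C0 := by
    rw [hC0]
    exact Subfield.subset_closure rfl
  rw [← hC0]
  have hle : Subfield.closure (Set.range a) ≤ (algebraicClosure C0 E).toSubfield := by
    rw [Subfield.closure_le]
    rintro _ ⟨i, rfl⟩
    obtain ⟨g, hg, h0⟩ := hdep i
    show a i ∈ algebraicClosure C0 E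
    rw [mem_algebraicClosure_iff]
    have hcomp : (C0.subtype).comp (ea (⟨a 0, ha0⟩ : C0)) = ea (a 0) := by
      apply Polynomial.ringHom_ext'
      · exact RingHom.ext_int _ _
      · simp [ea]
    have hinj : Function.Injective (ea (⟨a 0, ha0⟩ : C0)) := by
      have h1 : Function.Injective ((C0.subtype).comp (ea (⟨a 0, ha0⟩ : C0))) := by
        rw [hcomp]
        exact ea_injective htr
      rw [RingHom.coe_comp] at h1
      exact h1.of_comp
    refine ⟨(tw g).map (ea (⟨a 0, ha0⟩ : C0)), ?_, ?_⟩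
    · rw [Ne, Polynomial.map_eq_zero_iff hinj]
      exact tw_ne hg
    · rw [Polynomial.aeval_def, Polynomial.eval₂_map]
      have h2 : (algebraMap C0 E).comp (ea (⟨a 0, ha0⟩ : C0)) = ea (a 0) := hcomp
      rw [h2, tw_ev, h0]
  intro x hx
  exact mem_algebraicClosure_iff.mp (hle hx)

/-- `e2` from the logarithmic derivative of `θ` -/
theorem e2_formula {E : Type} [Field E] [CharZero E] {D : E → E} (hD : IsDer D)
    {e2 e4 e6 θ x : E} (h4 : e4 ≠ 0) (h6 : e6 ≠ 0) (hx0 : x ≠ 0)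
    (d4 : D e4 = θ * (e2 * e4 - e6) / 3) (d6 : D e6 = θ * (e2 * e6 - e4 ^ 2) / 2)
    (hDx : D x = 1) (hx : D x = -x * θ * e6 / e4) :
    e2 = 6 * (D θ / θ + 1 / x) * x * e6 / e4 - 2 * e6 / e4 + 3 * e4 ^ 2 / e6 := by
  have h1 : x * θ * e6 = -e4 := by
    rw [hDx] at hx
    field_simp at hx
    linear_combination hx
  have hθ : θ ≠ 0 := by
    rintro rfl
    apply h4
    linear_combination h1
  have h2 : D (x * θ * e6) = D (-e4) := by rw [h1]
  rw [hD.2, hD.2, hDx, hD.neg, d4, d6] at h2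
  have hDθ : D θ * (x * e6) = -(θ * (e2 * e4 - e6) / 3) - θ * e6 -
      x * θ * (θ * (e2 * e6 - e4 ^ 2) / 2) := by
    linear_combination h2
  have goal' : e2 * (θ * e4 * e6) = 6 * (D θ * (x * e6) + θ * e6) * e6 - 2 * e6 * (θ * e6) +
      3 * e4 ^ 2 * (θ * e4) := by
    rw [hDθ]
    have h5 : x * θ * e6 * (θ * (e2 * e6 - e4 ^ 2)) = -e4 * (θ * (e2 * e6 - e4 ^ 2)) := by rw [h1]
    linear_combination 3 * h5
  have hne : θ * e4 * e6 ≠ 0 := mul_ne_zero (mul_ne_zero hθ h4) h6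
  apply mul_right_cancel₀ hne
  rw [goal']
  field_simp

end AIAux

theorem dlogIndep_of_curve {𝔮 : Ideal (RR p (Fin 3))} {t : RR p (Fin 3)} (h : IsCurve 𝔮 t)
    (hinf : (zer 𝔮).Infinite) {ι : RR p (Fin 3) →+* L} (hι : IsFF 𝔮 ι)
    (hX : ∀ i, (X i : RR p (Fin 3)) ∉ 𝔮) {K : Type} [Field K] [Algebra ℂ K] (hK : IsCF K)
    {ψ : Fin 3 → K} (hψ : ∀ i, Transcendental ℂ (ψ i))
    (hdep : ∀ i j, ∃ g : MvPolynomial (Fin 2) ℤ, g ≠ 0 ∧ MvPolynomial.aeval ![ψ i, ψ j] g = 0)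
    (hker : ∀ g : MvPolynomial (Fin 3) ℤ,
      MvPolynomial.aeval (jL ι) g = 0 ↔ MvPolynomial.aeval ψ g = 0)
    (hmod : ∀ i j, i ≠ j → ¬ ModRel (ψ i) (ψ j)) : DlogIndep ι := by
  have hprime := h.prime
  have hcz : CharZero L := hι.charZero h.p_notMem
  have hczK : CharZero K := charZero_of_injective_ringHom (algebraMap ℂ K).injective
  have hXi : ∀ i, ι (X i) ≠ 0 := fun i h0 => hX i ((hι.ker _).mp h0)
  have hE4 : ∀ i, eL ι E4z i ≠ 0 := fun i => eL_ne_zero ι (by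
    rw [← PowerSeries.coeff_zero_eq_constantCoeff_apply]
    simp [E4z]) i
  have hE6 : ∀ i, eL ι E6z i ≠ 0 := fun i => eL_ne_zero ι (by
    rw [← PowerSeries.coeff_zero_eq_constantCoeff_apply]
    simp [E6z]) i
  -- transcendence and dependence of the `J i`
  have htrψ : ∀ i, ∀ g : Polynomial ℤ, g ≠ 0 → Polynomial.aeval (ψ i) g ≠ 0 := by
    intro i g hg h0
    apply hψ i
    have h1 : IsAlgebraic ℤ (ψ i) := ⟨g, hg, h0⟩
    exact h1.extendScalars (RingHom.injective_int (algebraMap ℤ ℂ))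
  have htr : ∀ i, ∀ g : Polynomial ℤ, g ≠ 0 → Polynomial.aeval (jL ι i) g ≠ 0 :=
    fun i g hg h0 => htrψ i g hg ((AIAux.rel_one hker i g).mp h0)
  have hdepJ : ∀ i j, ∃ g : MvPolynomial (Fin 2) ℤ, g ≠ 0 ∧
      MvPolynomial.aeval ![jL ι i, jL ι j] g = 0 := by
    intro i j
    obtain ⟨g, hg, h0⟩ := hdep i j
    exact ⟨g, hg, (AIAux.rel_two hker i j g).mpr h0⟩
  intro D hD hc hne c hcc hrel
  -- 1. some `D (ι X_k)` is not zero
  obtain ⟨k, hk⟩ : ∃ k, D (ι (X k)) ≠ 0 := by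
    by_contra hcon
    push Not at hcon
    have h1 : ∀ G : RR p (Fin 3), D (ι G) = 0 := by
      intro G
      rw [hc G]
      exact Finset.sum_eq_zero fun i _ => by rw [hcon i, mul_zero]
    obtain ⟨x, hx⟩ := hne
    obtain ⟨N, M, hM, rfl⟩ := hι.surj x
    apply hx
    have hM' : ι M ≠ 0 := fun h0 => hM ((hι.ker _).mp h0)
    rw [hD.div _ hM', h1, h1]
    simp
  have hDJk : D (jL ι k) ≠ 0 :=
    (schwarz_identity hD (div_ne_zero hk (hXi k)) (hE4 k) (hE6 k) (leis_disc ι (hXi k))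
      (leis2 hc (hXi k)) (leis4 hc (hXi k)) (leis6 hc (hXi k)) (jL_eq ι (hXi k))).2.1
  -- 2. all `D J_i` and `θ_i` are not zero
  have hDJ : ∀ i, D (jL ι i) ≠ 0 := fun i h0 =>
    hDJk (AIAux.der_dep_zero hD (htr i) (hdepJ i k) h0)
  have hDX : ∀ i, D (ι (X i)) ≠ 0 := by
    intro i h0
    apply hDJ i
    have h4 := leis4 (D := D) hc (hXi i)
    have h6 := leis6 (D := D) hc (hXi i)
    rw [h0, zero_div, zero_mul, zero_div] at h4 h6
    have hΔ : eL ι E4z i ^ 3 - eL ι E6z i ^ 2 ≠ 0 := sub_ne_zero.mpr (leis_disc ι (hXi i))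
    have h7 : D (eL ι E4z i ^ 3) = 0 := by
      rw [hD.pow _ 2, h4, mul_zero]
    have h8 : D (eL ι E6z i ^ 2) = 0 := by
      rw [hD.pow _ 1, h6, mul_zero]
    have h9 : D (1728 * eL ι E4z i ^ 3) = 0 := by
      have h1728 : D (1728 : L) = 0 := by
        have h1 := hD.natCast 1728
        rwa [Nat.cast_ofNat] at h1
      rw [hD.2, h1728, h7, zero_mul, mul_zero, add_zero]
    rw [jL_eq ι (hXi i), hD.div _ hΔ, h9, hD.sub, h7, h8]
    simp
  -- 3. the derivation `∂`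
  obtain ⟨f, hf⟩ : ∃ f, f = D (jL ι 0) := ⟨_, rfl⟩
  have hf0 : f ≠ 0 := by
    rw [hf]
    exact hDJ 0
  obtain ⟨d, hd⟩ : ∃ d : L → L, d = fun x => D x / f := ⟨_, rfl⟩
  have hdx : ∀ x, d x = D x / f := fun x => by rw [hd]
  have hdD : IsDer d := by
    rw [hd]
    exact hD.divBy f
  have hdc : IsCont ι d := by
    intro G
    rw [hdx, hc G, Finset.sum_div]
    refine Finset.sum_congr rfl fun i _ => ?_
    rw [hdx, mul_div_assoc]
  have hd1 : d (jL ι 0) = 1 := by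
    rw [hdx, ← hf, div_self hf0]
  have hdX : ∀ i, d (ι (X i)) / ι (X i) ≠ 0 := fun i => by
    rw [hdx]
    exact div_ne_zero (div_ne_zero (hDX i) hf0) (hXi i)
  have hsch := fun i => schwarz_identity hdD (hdX i) (hE4 i) (hE6 i) (leis_disc ι (hXi i))
      (leis2 hdc (hXi i)) (leis4 hdc (hXi i)) (leis6 hdc (hXi i)) (jL_eq ι (hXi i))
  -- 4. the derivation of `K` and the transport
  obtain ⟨DK, hDK, hDKc, hDK1, hDKne⟩ := exists_derK hK (hψ 0)
  obtain ⟨φ, hφ, hφD⟩ := transport hdD hDK hker hd1 hDK1 (fun i => hdepJ 0 i) (htr 0)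
  obtain ⟨F, hF⟩ : ∃ F : Subfield L, F = Subfield.closure (Set.range (jL ι)) := ⟨_, rfl⟩
  subst hF
  have hmem : ∀ x : Subfield.closure (Set.range (jL ι)),
      d x ∈ Subfield.closure (Set.range (jL ι)) := fun x => (hφD x).elim fun h _ => h
  obtain ⟨dF, hdF⟩ : ∃ dF : Subfield.closure (Set.range (jL ι)) →
      Subfield.closure (Set.range (jL ι)), ∀ x, dF x = ⟨d x, hmem x⟩ := ⟨_, fun _ => rfl⟩
  have hsub : ∀ y, d ((Subfield.closure (Set.range (jL ι))).subtype y) =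
      (Subfield.closure (Set.range (jL ι))).subtype (dF y) := by
    intro y
    rw [hdF]
    rfl
  have hφ' : ∀ y, DK (φ y) = φ (dF y) := by
    intro y
    rw [hdF]
    obtain ⟨_, h2⟩ := hφD y
    exact h2.symm
  obtain ⟨ji, hji⟩ : ∃ ji : Fin 3 → Subfield.closure (Set.range (jL ι)),
      ∀ i, ji i = ⟨jL ι i, Subfield.subset_closure (Set.mem_range_self i)⟩ := ⟨_, fun _ => rfl⟩
  have hS : ∀ i, SS d (jL ι i) = (Subfield.closure (Set.range (jL ι))).subtype (SS dF (ji i)) := by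
    intro i
    rw [← SS_map _ hsub, hji]
    rfl
  have hSK : ∀ i, SS DK (ψ i) = φ (SS dF (ji i)) := by
    intro i
    rw [← SS_map _ hφ', hji, hφ]
  -- 5. the `S i` are different
  have hSne : ∀ i j, i ≠ j → SS d (jL ι i) ≠ SS d (jL ι j) := by
    intro i j hij h0
    rw [hS, hS] at h0
    have h1 := Subfield.subtype_injective _ h0
    apply hmod i j hij
    refine modRel_of_SS hK hDK hDKc (hDKne _ (hψ i)) (hDKne _ (hψ j)) ?_
    rw [hSK, hSK, h1]
  have hSKne : SS DK (ψ 1) ≠ SS DK (ψ 2) := by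
    intro h0
    exact hmod 1 2 (by decide) (modRel_of_SS hK hDK hDKc (hDKne _ (hψ 1)) (hDKne _ (hψ 2)) h0)
  -- 6. `u_0` is not algebraic over `F`
  have hu0 : ¬ IsAlgebraic (Subfield.closure (Set.range (jL ι)))
      (d (d (ι (X 0)) / ι (X 0)) / (d (ι (X 0)) / ι (X 0))) := by
    intro hu
    refine e2_not_alg (hXi 0) (fun g hg => subst_inj h hinf hι hD hc (hDX 0) hg)
      (F := Subfield.closure (Set.range (jL ι)))
      (AIAux.alg_closure (htr 0) (fun i => hdepJ 0 i)) ?_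
    obtain ⟨G, hG⟩ : ∃ G : Subfield L, G = Subfield.closure (Set.range (jL ι)) ⊔
      Subfield.closure ({eL ι E4z 0, eL ι E6z 0} : Set L) := ⟨_, rfl⟩
    rw [← hG]
    have hle1 : Subfield.closure (Set.range (jL ι)) ≤ G := by
      rw [hG]
      exact le_sup_left
    have hle2 : Subfield.closure ({eL ι E4z 0, eL ι E6z 0} : Set L) ≤ G := by
      rw [hG]
      exact le_sup_right
    have hu' := AIAux.alg_mono hle1 hu
    have hJ0 : jL ι 0 ≠ 0 := by
      intro h0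
      rw [h0, hdD.zero] at hd1
      exact zero_ne_one hd1
    have hform := AIAux.e2_formula hdD (hE4 0) (hE6 0) hJ0 (leis4 hdc (hXi 0)) (leis6 hdc (hXi 0))
      hd1 (hsch 0).1
    have hmG : ∀ y ∈ G, y ∈ algebraicClosure G L := fun y hy =>
      (algebraicClosure G L).algebraMap_mem (⟨y, hy⟩ : G)
    have m1 : jL ι 0 ∈ algebraicClosure G L :=
      hmG _ (hle1 (Subfield.subset_closure (Set.mem_range_self 0)))
    have m4 : eL ι E4z 0 ∈ algebraicClosure G L :=
      hmG _ (hle2 (Subfield.subset_closure (by simp)))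
    have m6 : eL ι E6z 0 ∈ algebraicClosure G L :=
      hmG _ (hle2 (Subfield.subset_closure (by simp)))
    have mu := mem_algebraicClosure_iff.mpr hu'
    have mn : ∀ n : ℕ, ((n : ℕ) : L) ∈ algebraicClosure G L := fun n => natCast_mem _ n
    have m6' : (6 : L) ∈ algebraicClosure G L := by exact_mod_cast mn 6
    have m2' : (2 : L) ∈ algebraicClosure G L := by exact_mod_cast mn 2
    have m3' : (3 : L) ∈ algebraicClosure G L := by exact_mod_cast mn 3
    rw [← mem_algebraicClosure_iff, hform]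
    refine add_mem (sub_mem (div_mem (mul_mem (mul_mem (mul_mem m6' (add_mem mu
      (div_mem (one_mem _) m1))) m1) m6) m4) (div_mem (mul_mem m2' m6) m4))
      (div_mem (mul_mem m3' (pow_mem m4 2)) m6)
  -- 7. the relation `R1` is impossible
  have hR : ¬ R1 d (SS d (jL ι 0)) (SS d (jL ι 1)) (SS d (jL ι 2)) := by
    intro hR
    rw [hS, hS, hS, R1_map _ hsub, ← R1_map φ hφ', ← hSK, ← hSK, ← hSK] at hR
    exact no_R1_K hK hDK hDKc (hDKne _ (hψ 0)) (hDKne _ (hψ 1)) (hDKne _ (hψ 2)) hSKne hR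
  -- 8. conclusion
  refine three_term hdD (θ := fun i => d (ι (X i)) / ι (X i)) (S := fun i => SS d (jL ι i)) hdX
    (fun i => (hsch i).2.2) (F := Subfield.closure (Set.range (jL ι))) (fun x hx => hmem ⟨x, hx⟩)
    (fun i => ?_) hSne hu0 hR (c := c) (fun i => ?_) ?_
  · show SS d (jL ι i) ∈ _
    rw [hS]
    exact (SS dF (ji i)).2
  · rw [hdx, hcc i, zero_div]
  · have e : ∀ i, c i * (d (ι (X i)) / ι (X i)) = c i * (D (ι (X i)) / ι (X i)) / f := by
      intro i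
      rw [hdx]
      ring
    show ∑ i, c i * (d (ι (X i)) / ι (X i)) = 0
    rw [Finset.sum_congr rfl fun i _ => e i, ← Finset.sum_div, hrel, zero_div]

end Pool.Agent.ZPB
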