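import Pool.Agent.ZPB.Place
import Pool.Agent.Hhelper14.ZPL.KClosed

/-!
# Module BR2: curves with infinitely many algebraic points

`Curve3 K ψ B`: `K` is a function field, `ψ` three nonconstant functions, `B ⊆ ℂ³` an infinite set of algebraic points, such that a
polynomial vanishes at `ψ` iff it vanishes at infinitely many points of `B` iff it vanishes on `B`.

`int_dep`: by `IsCF.dep` there is `0 ≠ P ∈ ℂ[S, T]` with `P(ψ_i, ψ_j) = 0`, so `P(x_i, x_j) = 0` for `x ∈ B`. Write `P = ∑ b_m P_m` with `P_m` over `Qb`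
and `b_m` linearly independent over `Qb` (`exists_decomp`, `KClosed.lean`). For `x ∈ B` the numbers `P_m(x_i, x_j)` are algebraic, so
they vanish. Some `P_m ≠ 0`; by `fin` and `inf` `P_m(ψ_i, ψ_j) = 0` (`rename ![i, j]`). So `ψ_i, ψ_j` are not algebraically independent over
`Qb` (`K` is an algebra over `Qb ⊆ ℂ`), hence not over `ℚ` (`Qb/ℚ` is algebraic: `AlgebraicIndependent.extendScalars` or the
like), and clearing denominators not over `ℤ`. (Or take the product of the conjugates of `P_m`.)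
`int_rel`: `ψ_0` is transcendental over `ℚ`; by `int_dep` `ψ_1, ψ_2` are algebraic over `ℚ(ψ_0)`; so `ℚ(ψ)` is algebraic over
`ℚ(ψ_0)`, has transcendence degree one over `ℚ`, and `u, v` are not algebraically independent over `ℚ`. Clear denominators.
-/

namespace Pool.Agent.ZPB

open MvPolynomial

/-- three functions on a curve, and infinitely many algebraic points on it -/
structure Curve3 (K : Type) [Field K] [Algebra ℂ K] (ψ : Fin 3 → K) (B : Set (Fin 3 → ℂ)) : Prop where
  cf : IsCF K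
  tr : ∀ i, Transcendental ℂ (ψ i)
  inf : B.Infinite
  alg : ∀ x ∈ B, ∀ i, IsAlgebraic ℚ (x i)
  zero : ∀ F : MvPolynomial (Fin 3) ℂ, aeval ψ F = 0 → ∀ x ∈ B, eval x F = 0
  fin : ∀ F : MvPolynomial (Fin 3) ℂ, aeval ψ F ≠ 0 → {x ∈ B | eval x F = 0}.Finite

variable {K : Type} [Field K] [Algebra ℂ K] {ψ : Fin 3 → K} {B : Set (Fin 3 → ℂ)}

omit [Algebra ℂ K] in
theorem pair_indep [CharZero K] {a b : K} (hne : a ≠ b)
    (h : (AlgebraicIndependent.matroid ℤ K).Indep {a, b}) : AlgebraicIndependent ℤ ![a, b] := by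
  rw [AlgebraicIndependent.matroid_indep_iff] at h
  have hinj : Function.Injective (![⟨a, by simp⟩, ⟨b, by simp⟩] : Fin 2 → ({a, b} : Set K)) := by
    intro i j hij
    fin_cases i <;> fin_cases j <;> simp_all
  have h1 := AlgebraicIndependent.comp h _ hinj
  convert h1 using 1
  funext i
  fin_cases i <;> rfl

omit [Algebra ℂ K] in
theorem rel_of_not [CharZero K] {x : Fin 2 → K} (h : ¬ AlgebraicIndependent ℤ x) :
    ∃ g : MvPolynomial (Fin 2) ℤ, g ≠ 0 ∧ aeval x g = 0 := by
  rw [algebraicIndependent_iff] at h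
  push Not at h
  obtain ⟨g, h1, h2⟩ := h
  exact ⟨g, h2, h1⟩

theorem Curve3.int_dep (h : Curve3 K ψ B) (i j : Fin 3) :
    ∃ g : MvPolynomial (Fin 2) ℤ, g ≠ 0 ∧ aeval ![ψ i, ψ j] g = 0 := by
  classical
  have hcz : CharZero K := charZero_of_injective_algebraMap (algebraMap ℂ K).injective
  obtain ⟨P, hP0, hP⟩ := h.cf.dep (ψ i) (ψ j)
  have hc : ∀ (y : Fin 3 → K), y ∘ ![i, j] = ![y i, y j] := by
    intro y
    funext k
    fin_cases k <;> rfl
  have hcC : ∀ (y : Fin 3 → ℂ), y ∘ ![i, j] = ![y i, y j] := by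
    intro y
    funext k
    fin_cases k <;> rfl
  have hPB : ∀ x ∈ B, eval ![x i, x j] P = 0 := by
    intro x hx
    have h1 := h.zero (rename ![i, j] P) (by rw [aeval_rename, hc, hP]) x hx
    rwa [eval_rename, hcC] at h1
  obtain ⟨s, g, hg⟩ := Pool.Agent.Hhelper14.ZPL.exists_decomp P
  set b := Module.Basis.ofVectorSpace Pool.Agent.Hhelper14.ZPL.Qb ℂ with hb
  -- all coefficients vanish on `B`
  have hgB : ∀ x ∈ B, ∀ m ∈ s, (aeval ![x i, x j] (g m) : ℂ) = 0 := by
    intro x hx m hm
    have halg : ∀ k : Fin 2, IsAlgebraic ℚ ((![x i, x j] : Fin 2 → ℂ) k) := by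
      intro k
      fin_cases k
      · exact h.alg x hx i
      · exact h.alg x hx j
    let x' : Fin 2 → Pool.Agent.Hhelper14.ZPL.Qb := fun k => ⟨(![x i, x j] : Fin 2 → ℂ) k, by
      exact mem_algebraicClosure_iff.mpr (halg k)⟩
    have hx' : ∀ q : MvPolynomial (Fin 2) Pool.Agent.Hhelper14.ZPL.Qb,
        (aeval ![x i, x j] q : ℂ) = ((aeval x' q : Pool.Agent.Hhelper14.ZPL.Qb) : ℂ) := by
      intro q
      have h1 : (![x i, x j] : Fin 2 → ℂ) = fun k => algebraMap Pool.Agent.Hhelper14.ZPL.Qb ℂ (x' k) := by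
        funext k
        rfl
      rw [h1]
      exact MvPolynomial.aeval_algebraMap_apply ℂ x' q
    have h2 : ∑ m ∈ s, (aeval x' (g m) : Pool.Agent.Hhelper14.ZPL.Qb) • b m = 0 := by
      have h3 := hPB x hx
      rw [hg, map_sum] at h3
      rw [← h3]
      refine Finset.sum_congr rfl fun m _ => ?_
      rw [map_mul, eval_C, ← coe_aeval_eq_eval, RingHom.coe_coe]
      rw [Pool.Agent.Hhelper14.ZPL.aeval_map_Qb, hx', mul_comm]
      rfl
    have h4 := linearIndependent_iff'.mp b.linearIndependent s _ h2 m hm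
    rw [hx', h4]
    rfl
  -- some coefficient is not zero
  have hex : ∃ m ∈ s, g m ≠ 0 := by
    by_contra hcon
    push Not at hcon
    apply hP0
    rw [hg]
    refine Finset.sum_eq_zero fun m hm => ?_
    rw [hcon m hm, map_zero, mul_zero]
  obtain ⟨m, hm, hgm⟩ := hex
  have hK : aeval ![ψ i, ψ j] (g m) = 0 := by
    by_contra hne
    have h1 : aeval ψ (rename ![i, j] (map (algebraMap Pool.Agent.Hhelper14.ZPL.Qb ℂ) (g m))) ≠ 0 := by
      rw [aeval_rename, hc, aeval_map_algebraMap]
      exact hne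
    have h2 := h.fin _ h1
    apply h.inf
    refine h2.subset fun x hx => ⟨hx, ?_⟩
    rw [eval_rename, hcC, ← coe_aeval_eq_eval, RingHom.coe_coe,
      Pool.Agent.Hhelper14.ZPL.aeval_map_Qb]
    exact hgB x hx m hm
  apply rel_of_not
  intro hind
  have h1 : Algebra.IsAlgebraic ℤ Pool.Agent.Hhelper14.ZPL.Qb := by
    have h2 : Algebra.IsAlgebraic ℚ Pool.Agent.Hhelper14.ZPL.Qb := algebraicClosure.isAlgebraic ℚ ℂ
    exact (IsFractionRing.comap_isAlgebraic_iff (A := ℤ) (K := ℚ)).mpr h2
  have h2 := hind.extendScalars Pool.Agent.Hhelper14.ZPL.Qb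
  exact hgm (algebraicIndependent_iff.mp h2 _ hK)

theorem Curve3.int_rel (h : Curve3 K ψ B) {u v : K} (hu : u ∈ Subfield.closure (Set.range ψ))
    (hv : v ∈ Subfield.closure (Set.range ψ)) :
    ∃ g : MvPolynomial (Fin 2) ℤ, g ≠ 0 ∧ aeval ![u, v] g = 0 := by
  classical
  have hcz : CharZero K := charZero_of_injective_algebraMap (algebraMap ℂ K).injective
  have hMcl : ∀ z : K, z ∈ (AlgebraicIndependent.matroid ℤ K).closure {ψ 0} ↔
      IsAlgebraic (Algebra.adjoin ℤ {ψ 0}) z := by
    intro z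
    rw [AlgebraicIndependent.matroid_closure_eq]
    exact Iff.rfl
  have h0 : (AlgebraicIndependent.matroid ℤ K).Indep {ψ 0} := by
    rw [AlgebraicIndependent.matroid_indep_iff]
    have h1 : Transcendental ℤ (ψ 0) := fun halg =>
      h.tr 0 (halg.extendScalars (algebraMap ℤ ℂ).injective_int)
    exact (algebraicIndependent_singleton_iff (⟨ψ 0, rfl⟩ : ({ψ 0} : Set K))).mpr h1
  have hi : ∀ i, ψ i ∈ (AlgebraicIndependent.matroid ℤ K).closure {ψ 0} := by
    intro i
    rw [h0.mem_closure_iff]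
    by_cases he : ψ i = ψ 0
    · right
      rw [he]
      rfl
    · left
      rw [Matroid.dep_iff]
      refine ⟨fun hind => ?_, by simp⟩
      obtain ⟨g, hg0, hg⟩ := h.int_dep i 0
      exact hg0 (algebraicIndependent_iff.mp (pair_indep he hind) _ hg)
  have hcl : ∀ z ∈ Subfield.closure (Set.range ψ), IsAlgebraic (Algebra.adjoin ℤ {ψ 0}) z := by
    intro z hz
    induction hz using Subfield.closure_induction with
    | mem x hx =>
      obtain ⟨i, rfl⟩ := hx
      exact (hMcl _).mp (hi i)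
    | one => exact isAlgebraic_one
    | add x y _ _ hx hy => exact hx.add hy
    | neg x _ hx => exact hx.neg
    | inv x _ hx => exact hx.inv
    | mul x y _ _ hx hy => exact hx.mul hy
  apply rel_of_not
  intro hind
  have h1 : (AlgebraicIndependent.matroid ℤ K).Indep (Set.range ![u, v]) := by
    rw [AlgebraicIndependent.matroid_indep_iff]
    exact hind.to_subtype_range
  have h2 : Set.range ![u, v] ⊆ (AlgebraicIndependent.matroid ℤ K).closure {ψ 0} := by
    rintro _ ⟨k, rfl⟩
    fin_cases k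
    · exact (hMcl _).mpr (hcl u hu)
    · exact (hMcl _).mpr (hcl v hv)
  have h3 := h1.encard_le_eRk_of_subset h2
  rw [Matroid.eRk_closure_eq] at h3
  have h4 := h3.trans (Matroid.eRk_le_encard _ _)
  rw [Set.encard_singleton, ← Set.image_univ, hind.injective.encard_image, Set.encard_univ] at h4
  simp at h4

end Pool.Agent.ZPB
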