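import Pool.Agent.ZPB.EvRing

/-!
# Module E2: evaluation in one variable, and substitution

`Bdd f`: bounded coefficients; then `∑ coeff n f * s^n` converges absolutely for `‖s‖ < 1`.

`ev_subst`: write `f = (truncation below N) + X^N g`. Then `subst t f = ∑_{n<N} f_n t^n + t^N subst t g`,
so `ev z (subst t f) = ∑_{n<N} f_n (ev z t)^n + (ev z t)^N ev z (subst t g)`, and the last term has
norm `≤ ‖ev z t‖^N → 0`, as in `valZ f (ev z t)`.
-/

namespace Pool.Agent.ZPB

open MvPowerSeries

variable {p : ℕ} [Fact p.Prime] {σ : Type} [Fintype σ]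

/-- bounded coefficients -/
def Bdd (f : PowerSeries ℂ_[p]) : Prop := ∃ B : ℝ, ∀ n, ‖PowerSeries.coeff n f‖ ≤ B

theorem bdd_map_zc (f : PowerSeries ℤ_[p]) : Bdd (PowerSeries.map (zc p) f) := by
  refine ⟨1, fun n => ?_⟩
  rw [PowerSeries.coeff_map, norm_zc]
  exact PadicInt.norm_le_one _

theorem Bdd.add {f g : PowerSeries ℂ_[p]} (hf : Bdd f) (hg : Bdd g) : Bdd (f + g) := by
  obtain ⟨A, hA⟩ := hf
  obtain ⟨B, hB⟩ := hg
  refine ⟨A + B, fun n => ?_⟩
  rw [map_add]
  exact (norm_add_le _ _).trans (add_le_add (hA n) (hB n))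

theorem Bdd.mul {f g : PowerSeries ℂ_[p]} (hf : Bdd f) (hg : Bdd g) : Bdd (f * g) := by
  obtain ⟨A, hA⟩ := hf
  obtain ⟨B, hB⟩ := hg
  have hA0 : 0 ≤ A := (norm_nonneg _).trans (hA 0)
  have hB0 : 0 ≤ B := (norm_nonneg _).trans (hB 0)
  refine ⟨A * B, fun n => ?_⟩
  rw [PowerSeries.coeff_mul]
  refine IsUltrametricDist.norm_sum_le_of_forall_le_of_nonneg (mul_nonneg hA0 hB0) fun i _ => ?_
  rw [norm_mul]
  exact mul_le_mul (hA _) (hB _) (norm_nonneg _) hA0

theorem Bdd.C (c : ℂ_[p]) : Bdd (PowerSeries.C c) := by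
  refine ⟨‖c‖, fun n => ?_⟩
  rw [PowerSeries.coeff_C]
  split_ifs
  · exact le_rfl
  · rw [norm_zero]
    exact norm_nonneg _

theorem IsW.bdd {f : PowerSeries ℂ_[p]} {n : ℕ} (h : IsW f n) : Bdd f := ⟨_, h.2.1⟩

theorem summable_val {f : PowerSeries ℂ_[p]} (hf : Bdd f) {s : ℂ_[p]} (hs : ‖s‖ < 1) :
    Summable (fun n => ‖PowerSeries.coeff n f * s ^ n‖) := by
  obtain ⟨B, hB⟩ := hf
  refine Summable.of_nonneg_of_le (fun n => norm_nonneg _) (fun n => ?_)
    ((summable_geometric_of_lt_one (norm_nonneg s) hs).mul_left B)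
  rw [norm_mul, norm_pow]
  exact mul_le_mul_of_nonneg_right (hB n) (pow_nonneg (norm_nonneg _) _)

theorem val_add {f g : PowerSeries ℂ_[p]} (hf : Bdd f) (hg : Bdd g) {s : ℂ_[p]} (hs : ‖s‖ < 1) :
    val (f + g) s = val f s + val g s := by
  rw [val, val, val, ← (summable_val hf hs).of_norm.tsum_add (summable_val hg hs).of_norm]
  refine tsum_congr fun n => ?_
  rw [map_add, add_mul]

theorem val_mul {f g : PowerSeries ℂ_[p]} (hf : Bdd f) (hg : Bdd g) {s : ℂ_[p]} (hs : ‖s‖ < 1) :
    val (f * g) s = val f s * val g s := by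
  rw [val, val, val, tsum_mul_tsum_eq_tsum_sum_antidiagonal_of_summable_norm (summable_val hf hs)
    (summable_val hg hs)]
  refine tsum_congr fun n => ?_
  rw [PowerSeries.coeff_mul, Finset.sum_mul]
  refine Finset.sum_congr rfl fun k hk => ?_
  have hk' := Finset.HasAntidiagonal.mem_antidiagonal.1 hk
  rw [← hk', pow_add]
  ring

theorem val_C (c s : ℂ_[p]) : val (PowerSeries.C c) s = c := by
  rw [val, tsum_eq_single 0]
  · rw [PowerSeries.coeff_C, if_pos rfl, pow_zero, mul_one]
  · intro n hn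
    rw [PowerSeries.coeff_C, if_neg hn, zero_mul]

theorem val_X (s : ℂ_[p]) : val PowerSeries.X s = s := by
  rw [val, tsum_eq_single 1]
  · rw [PowerSeries.coeff_X, if_pos rfl, pow_one, one_mul]
  · intro n hn
    rw [PowerSeries.coeff_X, if_neg hn, zero_mul]

/-- if `‖coeff n f‖ r^n ≤ B` for all `n` and `‖s‖ ≤ r < 1` then `‖val f s‖ ≤ B` -/
theorem norm_val_le {f : PowerSeries ℂ_[p]} {r B : ℝ} (hr : r < 1) (hf : Bdd f)
    (h : ∀ n, ‖PowerSeries.coeff n f‖ * r ^ n ≤ B) {s : ℂ_[p]} (hs : ‖s‖ ≤ r) :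
    ‖val f s‖ ≤ B := by
  have hB : 0 ≤ B := (norm_nonneg _).trans (by simpa using h 0)
  refine IsUltrametricDist.norm_tsum_le_of_forall_le_of_nonneg hB fun n => ?_
  rw [norm_mul, norm_pow]
  exact (mul_le_mul_of_nonneg_left (pow_le_pow_left₀ (norm_nonneg _) hs n) (norm_nonneg _)).trans
    (h n)

/-- evaluation of `ℤ_p[[T]]` as a ring homomorphism -/
noncomputable def valHom {s : ℂ_[p]} (hs : ‖s‖ < 1) : PowerSeries ℤ_[p] →+* ℂ_[p] where
  toFun f := valZ f s
  map_one' := by
    have h := val_C (1 : ℂ_[p]) s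
    rw [map_one] at h
    rw [valZ, map_one, h]
  map_mul' f g := by
    simp only [valZ, map_mul]
    exact val_mul (bdd_map_zc f) (bdd_map_zc g) hs
  map_zero' := by
    have h := val_C (0 : ℂ_[p]) s
    rw [map_zero] at h
    rw [valZ, map_zero, h]
  map_add' f g := by
    simp only [valZ, map_add]
    exact val_add (bdd_map_zc f) (bdd_map_zc g) hs

theorem valHom_apply {s : ℂ_[p]} (hs : ‖s‖ < 1) (f : PowerSeries ℤ_[p]) :
    valHom hs f = valZ f s := rfl

theorem norm_valZ_le {s : ℂ_[p]} (hs : ‖s‖ < 1) (f : PowerSeries ℤ_[p]) : ‖valZ f s‖ ≤ 1 := by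
  refine IsUltrametricDist.norm_tsum_le_of_forall_le_of_nonneg zero_le_one fun n => ?_
  rw [norm_mul, norm_pow, PowerSeries.coeff_map, norm_zc]
  exact mul_le_one₀ (PadicInt.norm_le_one _) (pow_nonneg (norm_nonneg _) _)
    (pow_le_one₀ (norm_nonneg _) hs.le)

theorem valZ_iso {g : ℂ_[p] ≃+* ℂ_[p]} (hg : IsIso g) {s : ℂ_[p]} (hs : ‖s‖ < 1)
    (f : PowerSeries ℤ_[p]) : valZ f (g s) = g (valZ f s) := by
  have hc : Continuous g := by
    have hi : Isometry g := by
      refine Isometry.of_dist_eq fun x y => ?_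
      rw [dist_eq_norm, dist_eq_norm, ← map_sub, hg]
    exact hi.continuous
  rw [valZ, valZ, val, val, (summable_val (bdd_map_zc f) hs).of_norm.map_tsum g hc]
  refine tsum_congr fun n => ?_
  rw [map_mul, map_pow, PowerSeries.coeff_map, iso_zc hg]

theorem evVal_norm_sub_le_max (a b : ℂ_[p]) : ‖a - b‖ ≤ max ‖a‖ ‖b‖ := by
  have h := IsUltrametricDist.norm_add_le_max a (-b)
  rwa [norm_neg, ← sub_eq_add_neg] at h

/-- evaluation of a substitution -/
theorem ev_subst {z : σ → ℂ_[p]} (hz : Disc z) {t : RR p σ} (ht : constantCoeff t = 0)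
    (f : PowerSeries ℤ_[p]) : ev z (PowerSeries.subst t f) = valZ f (ev z t) := by
  have hT : PowerSeries.HasSubst t := PowerSeries.HasSubst.of_constantCoeff_zero ht
  have hs : ‖ev z t‖ < 1 := norm_ev_lt hz ht
  have key : ∀ (N : ℕ) (f : PowerSeries ℤ_[p]),
      ‖ev z (PowerSeries.subst t f) - valZ f (ev z t)‖ ≤ ‖ev z t‖ ^ N := by
    intro N
    induction N with
    | zero =>
      intro f
      rw [pow_zero]
      refine (evVal_norm_sub_le_max _ _).trans (max_le (norm_ev_le hz _) (norm_valZ_le hs _))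
    | succ N IH =>
      intro f
      have e1 := PowerSeries.eq_X_mul_shift_add_const f
      set g := PowerSeries.mk fun n => PowerSeries.coeff (n + 1) f with hg
      have e2 : ev z (PowerSeries.subst t f) =
          ev z t * ev z (PowerSeries.subst t g) + zc p (PowerSeries.constantCoeff f) := by
        conv_lhs => rw [e1]
        rw [PowerSeries.subst_add hT, PowerSeries.subst_mul hT, PowerSeries.subst_X hT,
          PowerSeries.subst_C, ev_add hz, ev_mul hz, ev_C]
      have e3 : valZ f (ev z t) =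
          ev z t * valZ g (ev z t) + zc p (PowerSeries.constantCoeff f) := by
        have h4 : valHom hs f = valHom hs (PowerSeries.X * g +
            PowerSeries.C (PowerSeries.constantCoeff f)) := congrArg _ e1
        rw [map_add, map_mul, valHom_apply, valHom_apply, valHom_apply, valHom_apply] at h4
        rw [h4]
        congr 1
        · congr 1
          rw [valZ, PowerSeries.map_X, val_X]
        · rw [valZ, PowerSeries.map_C, val_C]
      have e4 : ev z (PowerSeries.subst t f) - valZ f (ev z t) =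
          ev z t * (ev z (PowerSeries.subst t g) - valZ g (ev z t)) := by
        rw [e2, e3]
        ring
      rw [e4, norm_mul, pow_succ, mul_comm]
      exact mul_le_mul_of_nonneg_right (IH g) (norm_nonneg _)
  have hlim := tendsto_pow_atTop_nhds_zero_of_lt_one (norm_nonneg _) hs
  have h0 : ‖ev z (PowerSeries.subst t f) - valZ f (ev z t)‖ ≤ 0 :=
    ge_of_tendsto' hlim fun N => key N f
  exact sub_eq_zero.1 (norm_le_zero_iff.1 h0)

/-- a power series is its constant term plus a combination of the variables -/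
theorem evVal_exists_shift {τ : Type} [Fintype τ] (F : RR p τ) :
    ∃ G : τ → RR p τ, F = C (constantCoeff F) + ∑ i, X i * G i := by
  classical
  have hch : ∀ m : τ →₀ ℕ, ∃ o : Option τ, (m = 0 → o = none) ∧
      (m ≠ 0 → ∃ i, o = some i ∧ m i ≠ 0) := by
    intro m
    by_cases hm : m = 0
    · exact ⟨none, fun _ => rfl, fun h => (h hm).elim⟩
    · obtain ⟨i, hi⟩ := Finsupp.ne_iff.1 hm
      exact ⟨some i, fun h => (hm h).elim, fun _ => ⟨i, rfl, hi⟩⟩
  choose o ho0 ho1 using hch
  let G : τ → RR p τ := fun i m => if o (m + Finsupp.single i 1) = some i then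
    coeff (m + Finsupp.single i 1) F else 0
  have hG : ∀ i m, coeff m (G i) = if o (m + Finsupp.single i 1) = some i then
    coeff (m + Finsupp.single i 1) F else 0 := fun i m => rfl
  refine ⟨G, ?_⟩
  ext m
  rw [map_add, map_sum, coeff_C]
  have hterm : ∀ i : τ, coeff m ((X i : RR p τ) * G i) =
      if o m = some i then coeff m F else 0 := by
    intro i
    have hX : (X i : RR p τ) = monomial (Finsupp.single i 1) 1 := rfl
    rw [hX, coeff_monomial_mul]
    split_ifs with h1 h2 h2
    · rw [one_mul, hG, tsub_add_cancel_of_le h1, if_pos h2]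
    · rw [one_mul, hG, tsub_add_cancel_of_le h1, if_neg h2]
    · exfalso
      apply h1
      by_cases hm : m = 0
      · rw [ho0 m hm] at h2
        cases h2
      · obtain ⟨j, hj1, hj2⟩ := ho1 m hm
        rw [hj1, Option.some.injEq] at h2
        subst h2
        rw [Finsupp.single_le_iff]
        omega
    · rfl
  rw [Finset.sum_congr rfl fun i _ => hterm i]
  by_cases hm : m = 0
  · rw [if_pos hm, Finset.sum_eq_zero, add_zero, hm]
    · rfl
    · intro i _
      rw [ho0 m hm, if_neg]
      exact fun h => by cases h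
  · obtain ⟨j, hj1, hj2⟩ := ho1 m hm
    rw [if_neg hm, zero_add, Finset.sum_eq_single j]
    · rw [if_pos hj1]
    · intro i _ hij
      rw [if_neg]
      intro h
      rw [hj1, Option.some.injEq] at h
      exact hij h.symm
    · exact fun h => (h (Finset.mem_univ _)).elim

/-- evaluation of a substitution, several variables -/
theorem ev_mvSubst {τ : Type} [Fintype τ] {z : σ → ℂ_[p]} (hz : Disc z) {a : τ → RR p σ}
    (ha : ∀ i, constantCoeff (a i) = 0) (F : RR p τ) :
    ev z (MvPowerSeries.subst a F) = ev (fun i => ev z (a i)) F := by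
  classical
  have hT : MvPowerSeries.HasSubst a := MvPowerSeries.hasSubst_of_constantCoeff_zero ha
  have hw : Disc (fun i => ev z (a i)) := fun i => norm_ev_lt hz (ha i)
  obtain ⟨r, hr0, hr1, hr⟩ : ∃ r : ℝ, 0 ≤ r ∧ r < 1 ∧ ∀ i, ‖ev z (a i)‖ ≤ r := by
    rcases isEmpty_or_nonempty τ with hτ | hτ
    · exact ⟨0, le_rfl, one_pos, fun i => (hτ.false i).elim⟩
    · refine ⟨Finset.univ.sup' Finset.univ_nonempty fun i => ‖ev z (a i)‖, ?_, ?_, ?_⟩
      · obtain ⟨i⟩ := hτ
        exact (norm_nonneg _).trans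
          (Finset.le_sup' (fun i => ‖ev z (a i)‖) (Finset.mem_univ i))
      · rw [Finset.sup'_lt_iff]
        exact fun i _ => hw i
      · intro i
        exact Finset.le_sup' (fun i => ‖ev z (a i)‖) (Finset.mem_univ i)
  have key : ∀ (N : ℕ) (F : RR p τ),
      ‖ev z (MvPowerSeries.subst a F) - ev (fun i => ev z (a i)) F‖ ≤ r ^ N := by
    intro N
    induction N with
    | zero =>
      intro F
      rw [pow_zero]
      exact (evVal_norm_sub_le_max _ _).trans (max_le (norm_ev_le hz _) (norm_ev_le hw _))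
    | succ N IH =>
      intro F
      obtain ⟨G, hG⟩ := evVal_exists_shift F
      have e2 : ev z (MvPowerSeries.subst a F) =
          zc p (constantCoeff F) + ∑ i, ev z (a i) * ev z (MvPowerSeries.subst a (G i)) := by
        have h4 : (evHom hz) ((MvPowerSeries.substAlgHom hT) F) =
            (evHom hz) ((MvPowerSeries.substAlgHom hT) (C (constantCoeff F) + ∑ i, X i * G i)) :=
          congrArg (fun F => (evHom hz) ((MvPowerSeries.substAlgHom hT) F)) hG
        rw [map_add, map_add, map_sum, map_sum] at h4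
        simp only [map_mul, MvPowerSeries.coe_substAlgHom, evHom_apply, MvPowerSeries.subst_C,
          MvPowerSeries.subst_X hT, ev_C] at h4
        exact h4
      have e3 : ev (fun i => ev z (a i)) F =
          zc p (constantCoeff F) + ∑ i, ev z (a i) * ev (fun i => ev z (a i)) (G i) := by
        have h4 : (evHom hw) F = (evHom hw) (C (constantCoeff F) + ∑ i, X i * G i) :=
          congrArg (fun F => (evHom hw) F) hG
        rw [map_add, map_sum] at h4
        simp only [map_mul, evHom_apply, ev_C, ev_X] at h4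
        exact h4
      have e4 : ev z (MvPowerSeries.subst a F) - ev (fun i => ev z (a i)) F =
          ∑ i, ev z (a i) * (ev z (MvPowerSeries.subst a (G i)) -
            ev (fun i => ev z (a i)) (G i)) := by
        rw [e2, e3]
        simp only [mul_sub, Finset.sum_sub_distrib]
        ring
      rw [e4]
      refine IsUltrametricDist.norm_sum_le_of_forall_le_of_nonneg (pow_nonneg hr0 _)
        fun i _ => ?_
      rw [norm_mul, pow_succ, mul_comm]
      exact mul_le_mul (IH _) (hr i) (norm_nonneg _) (pow_nonneg hr0 _)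
  have hlim := tendsto_pow_atTop_nhds_zero_of_lt_one hr0 hr1
  have h0 : ‖ev z (MvPowerSeries.subst a F) - ev (fun i => ev z (a i)) F‖ ≤ 0 :=
    ge_of_tendsto' hlim fun N => key N F
  exact sub_eq_zero.1 (norm_le_zero_iff.1 h0)

end Pool.Agent.ZPB
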