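import Pool.Agent.ZPB.Regular
import Pool.Agent.ZPB.EvVal

/-!
# Module N2: ideals with transcendence degree one are formal curves

Hypotheses: `𝔮 ⊂ ℤ_p[[X_0,X_1,X_2]]` prime, `p ∉ 𝔮`, `y_i = X_i * (unit)`, and any two integral polynomials
`a(y), b(y)` in `y = (y_0,y_1,y_2)` satisfy a nonzero relation `g(a(y), b(y)) ∈ 𝔮`, `g ∈ ℤ[S,T]`.

Proof. WLOG `g` is primitive: `g = c g'` with `c ∈ ℤ` nonzero, and `c ∉ 𝔮` (`c = p^k unit` in `ℤ_p`), so
`g'(..) ∈ 𝔮`, and the image of `g'` in `ℤ_p[[S,T]]` is not divisible by `p` (it is a polynomial with a coefficient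
prime to `p`). Apply this to `a = Y_0`, `b = Y_1`: by `exists_param` there is `N ≥ 1` such that `y_0, y_1` are
nilpotent modulo `(p, T_1) + 𝔮`, `T_1 = y_0 - y_1^N = (Y_0 - Y_1^N)(y)`. Apply it to `a = Y_0 - Y_1^N`, `b = Y_2`:
`T_1` and `y_2` are nilpotent modulo `(p, t) + 𝔮`, `t = T_1 - y_2^N'`. As `y_0^a, y_1^a ∈ (p, T_1) + 𝔮`, they are
nilpotent modulo `(p, t) + 𝔮` as well. `X_i = y_i * unit⁻¹`.
-/

namespace Pool.Agent.ZPB

open MvPowerSeries

variable {p : ℕ} [Fact p.Prime]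

/-- a primitive relation -/
private lemma cv_prim {σ : Type} [Fintype σ] {𝔮 : Ideal (RR p σ)} (hq : 𝔮.IsPrime)
    (hp : (p : RR p σ) ∉ 𝔮) {s t : RR p σ}
    (h : ∃ g : MvPolynomial (Fin 2) ℤ, g ≠ 0 ∧
      MvPolynomial.aeval (![s, t] : Fin 2 → RR p σ) g ∈ 𝔮) :
    ∃ G : RR p (Fin 2), ¬ (p : RR p (Fin 2)) ∣ G ∧
      MvPowerSeries.subst (![s, t] : Fin 2 → RR p σ) G ∈ 𝔮 := by
  obtain ⟨g, hg0, hg⟩ := h
  have hpp : p.Prime := Fact.out
  have hnu : ¬ IsUnit (MvPolynomial.C (σ := Fin 2) (p : ℤ)) := by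
    intro hu
    have h1 := hu.map (MvPolynomial.constantCoeff (R := ℤ) (σ := Fin 2))
    rw [MvPolynomial.constantCoeff_C] at h1
    exact (Nat.prime_iff_prime_int.1 hpp).not_isUnit h1
  obtain ⟨n, a, hna, hga⟩ := WfDvdMonoid.max_power_factor' hg0 hnu
  have ha : MvPolynomial.aeval (![s, t] : Fin 2 → RR p σ) a ∈ 𝔮 := by
    rw [hga, map_mul, map_pow] at hg
    have e : MvPolynomial.aeval (![s, t] : Fin 2 → RR p σ) (MvPolynomial.C (σ := Fin 2) (p : ℤ)) =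
        (p : RR p σ) := by
      simp
    rw [e] at hg
    rcases hq.mem_or_mem hg with h1 | h1
    · exact absurd (hq.mem_of_pow_mem n h1) hp
    · exact h1
  refine ⟨((MvPolynomial.map (Int.castRingHom ℤ_[p]) a : MvPolynomial (Fin 2) ℤ_[p]) :
    RR p (Fin 2)), ?_, ?_⟩
  · rintro ⟨H, hH⟩
    apply hna
    rw [MvPolynomial.C_dvd_iff_dvd_coeff]
    intro m
    have h1 := congrArg (coeff m) hH
    rw [MvPolynomial.coeff_coe, MvPolynomial.coeff_map] at h1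
    have e : (p : RR p (Fin 2)) = C (p : ℤ_[p]) := by
      simp
    rw [e, coeff_C_mul] at h1
    have h2 : (p : ℤ_[p]) ^ 1 ∣ ((a.coeff m : ℤ) : ℤ_[p]) := by
      rw [pow_one]
      exact ⟨_, h1⟩
    rw [PadicInt.pow_p_dvd_int_iff] at h2
    simpa using h2
  · have e1 : MvPolynomial.aeval (![s, t] : Fin 2 → RR p σ)
        (MvPolynomial.map (Int.castRingHom ℤ_[p]) a) =
        MvPolynomial.aeval (![s, t] : Fin 2 → RR p σ) a := by
      have := MvPolynomial.aeval_map_algebraMap ℤ_[p] (![s, t] : Fin 2 → RR p σ) a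
      exact this
    rw [MvPowerSeries.subst_coe, e1]
    exact ha

theorem exists_curve_of_rel {𝔮 : Ideal (RR p (Fin 3))} (hq : 𝔮.IsPrime) (hp : (p : RR p (Fin 3)) ∉ 𝔮)
    (y u : Fin 3 → RR p (Fin 3)) (hu : ∀ i, IsUnit (u i)) (hy : ∀ i, y i = X i * u i)
    (hrel : ∀ a b : MvPolynomial (Fin 3) ℤ, ∃ g : MvPolynomial (Fin 2) ℤ, g ≠ 0 ∧
      MvPolynomial.aeval (![MvPolynomial.aeval y a, MvPolynomial.aeval y b] : Fin 2 → RR p (Fin 3)) g ∈ 𝔮) :
    ∃ t, IsCurve 𝔮 t := by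
  have hy0 : ∀ i, constantCoeff (y i) = 0 := by
    intro i
    rw [hy i, map_mul, constantCoeff_X, zero_mul]
  -- first step
  have h1 := hrel (MvPolynomial.X 0) (MvPolynomial.X 1)
  rw [MvPolynomial.aeval_X, MvPolynomial.aeval_X] at h1
  obtain ⟨G, hG, hG2⟩ := cv_prim hq hp h1
  obtain ⟨N, a, hN, h0a, h1a⟩ := exists_param hG (hy0 0) (hy0 1) hG2
  set T := y 0 - y 1 ^ N with hT
  have hT0 : constantCoeff T = 0 := by
    rw [hT, map_sub, map_pow, hy0, hy0, zero_pow (by omega), sub_zero]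
  -- second step
  have h2 := hrel (MvPolynomial.X 0 - MvPolynomial.X 1 ^ N) (MvPolynomial.X 2)
  rw [map_sub, map_pow, MvPolynomial.aeval_X, MvPolynomial.aeval_X, MvPolynomial.aeval_X,
    ← hT] at h2
  obtain ⟨G', hG', hG2'⟩ := cv_prim hq hp h2
  obtain ⟨N', b, hN', hTb, h2b⟩ := exists_param hG' hT0 (hy0 2) hG2'
  set t := T - y 2 ^ N' with ht
  set J : Ideal (RR p (Fin 3)) := Ideal.span {(p : RR p (Fin 3)), t} ⊔ 𝔮 with hJ
  have hTr : T ∈ J.radical := ⟨b, hTb⟩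
  have hle : Ideal.span {(p : RR p (Fin 3)), T} ⊔ 𝔮 ≤ J.radical := by
    rw [sup_le_iff]
    constructor
    · rw [Ideal.span_le]
      rintro x (rfl | hx)
      · exact Ideal.le_radical (le_sup_left (a := Ideal.span {(p : RR p (Fin 3)), t}) (b := 𝔮)
          (Ideal.subset_span (Set.mem_insert _ _)))
      · rw [Set.mem_singleton_iff] at hx
        rw [hx]
        exact hTr
    · exact le_sup_right.trans Ideal.le_radical
  have hyr : ∀ i, y i ∈ J.radical := by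
    intro i
    fin_cases i
    · exact J.radical_isRadical ⟨a, hle h0a⟩
    · exact J.radical_isRadical ⟨a, hle h1a⟩
    · exact ⟨b, h2b⟩
  have hXr : ∀ i, (X i : RR p (Fin 3)) ∈ J.radical := by
    intro i
    obtain ⟨v, hv⟩ := hu i
    have e : (X i : RR p (Fin 3)) = y i * ↑v⁻¹ := by
      rw [hy i, ← hv, mul_assoc, Units.mul_inv, mul_one]
    rw [e]
    exact Ideal.mul_mem_right _ _ (hyr i)
  choose e he using hXr
  refine ⟨t, hq, hp, ?_, ∑ i, e i, ?_⟩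
  · rw [ht, map_sub, map_pow, hT0, hy0, zero_pow (by omega), sub_zero]
  · intro i
    exact J.pow_mem_of_pow_mem (he i) (Finset.single_le_sum (fun _ _ => Nat.zero_le _)
      (Finset.mem_univ i))

end Pool.Agent.ZPB
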