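import Pool.Agent.ZPB.EvRing

/-!
# Module S1: dense subsequences

For a subsequence `φ` let `J(φ) = {F : ev (S (φ k)) F = 0 for all k}`, an ideal of the Noetherian ring
`RR p σ` (`MvPowerSeries` over `ℤ_[p]`, `σ` finite). Choose `φ` with `J(φ)` maximal among subsequences. If `F`
vanishes at infinitely many `S (φ k)`, pass to that subsequence `φ ∘ ψ`; `J(φ ∘ ψ) ⊇ J(φ)` and `F ∈ J(φ ∘ ψ)`,
so by maximality `F ∈ J(φ)`. `J(φ)` is prime: if `F G ∈ J(φ)` then `F` or `G` vanishes for infinitely many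
`k`. `ev z p = p ≠ 0`, so `p ∉ J(φ)` (and `J(φ) ≠ ⊤`).
-/

namespace Pool.Agent.ZPB

open MvPowerSeries

variable {p : ℕ} [Fact p.Prime] {σ : Type} [Fintype σ]

/-- the ideal of the power series vanishing along the subsequence `φ` -/
noncomputable def Jd (S : ℕ → σ → ℂ_[p]) (hS : ∀ k, Disc (S k)) (φ : ℕ → ℕ) : Ideal (RR p σ) :=
  ⨅ k, RingHom.ker (evHom (hS (φ k)))

theorem mem_Jd {S : ℕ → σ → ℂ_[p]} {hS : ∀ k, Disc (S k)} {φ : ℕ → ℕ} {F : RR p σ} :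
    F ∈ Jd S hS φ ↔ ∀ k, ev (S (φ k)) F = 0 := by
  rw [Jd, Ideal.mem_iInf]
  exact forall_congr' fun k => by rw [RingHom.mem_ker, evHom_apply]

theorem exists_dense (S : ℕ → σ → ℂ_[p]) (hS : ∀ k, Disc (S k)) :
    ∃ 𝔮 : Ideal (RR p σ), 𝔮.IsPrime ∧ (p : RR p σ) ∉ 𝔮 ∧ ∃ φ : ℕ → ℕ, StrictMono φ ∧
      (∀ k, S (φ k) ∈ zer 𝔮) ∧ ∀ F : RR p σ, {k | ev (S (φ k)) F = 0}.Infinite → F ∈ 𝔮 := by
  have hmax := set_has_maximal_iff_noetherian (R := RR p σ) (M := RR p σ)|>.mpr inferInstance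
    {J : Ideal (RR p σ) | ∃ φ : ℕ → ℕ, StrictMono φ ∧ J = Jd S hS φ} ⟨_, id, strictMono_id, rfl⟩
  obtain ⟨J, ⟨φ, hφ, rfl⟩, hm⟩ := hmax
  have key : ∀ F : RR p σ, {k | ev (S (φ k)) F = 0}.Infinite → F ∈ Jd S hS φ := by
    intro F hF
    set ψ : ℕ → ℕ := Nat.nth (fun k => ev (S (φ k)) F = 0) with hψ
    have hψm : StrictMono ψ := Nat.nth_strictMono hF
    have hψF : ∀ k, ev (S (φ (ψ k))) F = 0 := fun k => Nat.nth_mem_of_infinite hF k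
    have h1 : Jd S hS φ ≤ Jd S hS (φ ∘ ψ) := fun G hG => mem_Jd.mpr fun k => mem_Jd.mp hG (ψ k)
    have h2 : F ∈ Jd S hS (φ ∘ ψ) := mem_Jd.mpr hψF
    have h3 := hm (Jd S hS (φ ∘ ψ)) ⟨φ ∘ ψ, hφ.comp hψm, rfl⟩
    by_contra hne
    exact h3 (lt_of_le_of_ne h1 fun he => hne (he ▸ h2))
  have hp : (p : RR p σ) ∉ Jd S hS φ := by
    intro h
    have h1 := mem_Jd.mp h 0
    rw [← evHom_apply (hS (φ 0)), map_natCast] at h1
    exact (Nat.cast_ne_zero (R := ℂ_[p])).mpr (Fact.out : p.Prime).ne_zero h1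
  refine ⟨Jd S hS φ, ?_, hp, φ, hφ, fun k => ⟨hS _, fun F hF => mem_Jd.mp hF k⟩, key⟩
  refine ⟨fun h => hp (h ▸ Submodule.mem_top), fun {F G} hFG => ?_⟩
  have h1 : ∀ k, ev (S (φ k)) F = 0 ∨ ev (S (φ k)) G = 0 := by
    intro k
    have h2 := mem_Jd.mp hFG k
    rw [ev_mul (hS _)] at h2
    exact mul_eq_zero.mp h2
  by_cases hF : {k | ev (S (φ k)) F = 0}.Infinite
  · exact Or.inl (key F hF)
  · refine Or.inr (key G ?_)
    intro hG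
    have h3 : ({k | ev (S (φ k)) F = 0} ∪ {k | ev (S (φ k)) G = 0} : Set ℕ).Finite :=
      (Set.not_infinite.mp hF).union hG
    have h4 : ({k | ev (S (φ k)) F = 0} ∪ {k | ev (S (φ k)) G = 0} : Set ℕ) = Set.univ := by
      ext k
      simpa using h1 k
    rw [h4] at h3
    exact Set.infinite_univ h3

end Pool.Agent.ZPB
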