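import Pool.Agent.ZPB.EvRing

/-!
# Module G2a: extension of `Gal(PadicAlgCl p / ℚ_p)` to `ℂ_p`, orbits

* `exists_iso_of_gal`: `g : PadicAlgCl p ≃ₐ[ℚ_[p]] PadicAlgCl p` is an isometry (`spectralNorm_eq_of_equiv`),
  so it extends to the completion `ℂ_[p]`, together with its inverse.
* `finite_orbit`: an element algebraic over `ℚ_p` has finitely many images under isometric automorphisms
  (they are roots of its minimal polynomial, as isometric automorphisms fix `ℚ_p`).
* `algebraic_iff`: the elements of `ℂ_p` algebraic over `ℚ_p` are those of `PadicAlgCl p`.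
* `algebraic_ev`: the field `K = ℚ_p(z_i)` is finite-dimensional over the complete field `ℚ_p`, hence complete and
  closed in `ℂ_p`; the finite sums of `ev z F` lie in `K`.
* `vv_rat`: the norm of a nonzero algebraic element is `p^(-q)` with `q ∈ ℚ` (the spectral norm is a root
  of the norm of the constant coefficient of the minimal polynomial; or: from a relation
  `∑ a_j x^j = 0` two terms have equal norms).
-/

namespace Pool.Agent.ZPB

variable {p : ℕ} [Fact p.Prime]

theorem gal_norm (g : PadicAlgCl p ≃ₐ[ℚ_[p]] PadicAlgCl p) (x : PadicAlgCl p) : ‖g x‖ = ‖x‖ := by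
  rw [← PadicAlgCl.spectralNorm_eq, ← PadicAlgCl.spectralNorm_eq]
  exact (spectralNorm_eq_of_equiv g x).symm

theorem gal_continuous (g : PadicAlgCl p ≃ₐ[ℚ_[p]] PadicAlgCl p) :
    Continuous (g : PadicAlgCl p →+* PadicAlgCl p) := by
  have h : Isometry (fun x => (g : PadicAlgCl p →+* PadicAlgCl p) x) := by
    refine Isometry.of_dist_eq fun a b => ?_
    rw [dist_eq_norm, dist_eq_norm, ← map_sub]
    exact gal_norm g _
  exact h.continuous

theorem exists_iso_of_gal (g : PadicAlgCl p ≃ₐ[ℚ_[p]] PadicAlgCl p) :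
    ∃ G : ℂ_[p] ≃+* ℂ_[p], IsIso G ∧ ∀ x : PadicAlgCl p, G (x : ℂ_[p]) = (g x : PadicAlgCl p) := by
  have h1 := gal_continuous g
  have h2 := gal_continuous g.symm
  let A : ℂ_[p] →+* ℂ_[p] := UniformSpace.Completion.mapRingHom _ h1
  let B : ℂ_[p] →+* ℂ_[p] := UniformSpace.Completion.mapRingHom _ h2
  have hA : ∀ x : PadicAlgCl p, A (x : ℂ_[p]) = (g x : PadicAlgCl p) := fun x =>
    UniformSpace.Completion.mapRingHom_coe h1 x
  have hB : ∀ x : PadicAlgCl p, B (x : ℂ_[p]) = (g.symm x : PadicAlgCl p) := fun x =>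
    UniformSpace.Completion.mapRingHom_coe h2 x
  have cA : Continuous A := UniformSpace.Completion.continuous_map
  have cB : Continuous B := UniformSpace.Completion.continuous_map
  have hAB : ∀ x, A (B x) = x := by
    intro x
    induction x using UniformSpace.Completion.induction_on with
    | hp => exact isClosed_eq (cA.comp cB) continuous_id
    | ih a => rw [hB, hA]; simp
  have hBA : ∀ x, B (A x) = x := by
    intro x
    induction x using UniformSpace.Completion.induction_on with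
    | hp => exact isClosed_eq (cB.comp cA) continuous_id
    | ih a => rw [hA, hB]; simp
  refine ⟨RingEquiv.ofRingHom A B (RingHom.ext hAB) (RingHom.ext hBA), ?_, hA⟩
  intro x
  change ‖A x‖ = ‖x‖
  induction x using UniformSpace.Completion.induction_on with
  | hp => exact isClosed_eq (continuous_norm.comp cA) continuous_norm
  | ih a => rw [hA, PadicComplex.norm_extends, PadicComplex.norm_extends, gal_norm]

theorem exists_coe_of_algebraic {x : ℂ_[p]} (h : IsAlgebraic ℚ_[p] x) :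
    ∃ y : PadicAlgCl p, (y : ℂ_[p]) = x := by
  have h1 : IsAlgebraic (PadicAlgCl p) x := h.tower_top (PadicAlgCl p)
  have h2 : (minpoly (PadicAlgCl p) x).degree = 1 :=
    IsAlgClosed.degree_eq_one_of_irreducible _ (minpoly.irreducible h1.isIntegral)
  obtain ⟨y, hy⟩ := minpoly.mem_range_of_degree_eq_one (PadicAlgCl p) x h2
  exact ⟨y, hy⟩

theorem aeval_iso {g : ℂ_[p] ≃+* ℂ_[p]} (hg : IsIso g) (f : Polynomial ℚ_[p]) (x : ℂ_[p]) :
    g (Polynomial.aeval x f) = Polynomial.aeval (g x) f := by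
  have h : ((g : ℂ_[p] →+* ℂ_[p]).comp (algebraMap ℚ_[p] ℂ_[p])) = algebraMap ℚ_[p] ℂ_[p] :=
    RingHom.ext fun a => iso_algebraMap hg a
  have h2 := Polynomial.hom_eval₂ f (algebraMap ℚ_[p] ℂ_[p]) (g : ℂ_[p] →+* ℂ_[p]) x
  rw [h] at h2
  exact h2

theorem finite_orbit {x : ℂ_[p]} (h : IsAlgebraic ℚ_[p] x) :
    {y | ∃ g : ℂ_[p] ≃+* ℂ_[p], IsIso g ∧ g x = y}.Finite := by
  refine (Polynomial.rootSet_finite (minpoly ℚ_[p] x) ℂ_[p]).subset ?_
  rintro y ⟨g, hg, rfl⟩
  rw [Polynomial.mem_rootSet]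
  refine ⟨minpoly.ne_zero h.isIntegral, ?_⟩
  rw [← aeval_iso hg, minpoly.aeval, map_zero]

theorem algebraic_iso {x : ℂ_[p]} (h : IsAlgebraic ℚ_[p] x) {g : ℂ_[p] ≃+* ℂ_[p]} (hg : IsIso g) :
    IsAlgebraic ℚ_[p] (g x) := by
  obtain ⟨f, hf, hx⟩ := h
  refine ⟨f, hf, ?_⟩
  rw [← aeval_iso hg, hx, map_zero]

/-- the value of a power series at an algebraic point is algebraic -/
theorem algebraic_ev {σ : Type} [Fintype σ] {z : σ → ℂ_[p]} (hz : Disc z) (ha : AlgPt z)
    (F : RR p σ) : IsAlgebraic ℚ_[p] (ev z F) := by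
  let K : IntermediateField ℚ_[p] ℂ_[p] := IntermediateField.adjoin ℚ_[p] (Set.range z)
  have hfin : FiniteDimensional ℚ_[p] K := by
    refine IntermediateField.finiteDimensional_adjoin (K := ℚ_[p]) (L := ℂ_[p]) ?_
    rintro _ ⟨i, rfl⟩
    exact (ha i).isIntegral
  have hfd : FiniteDimensional ℚ_[p] (Subalgebra.toSubmodule K.toSubalgebra) := hfin
  have hcl : IsClosed ((Subalgebra.toSubmodule K.toSubalgebra : Submodule ℚ_[p] ℂ_[p]) : Set ℂ_[p]) :=
    Submodule.closed_of_finiteDimensional _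
  have hmem : ev z F ∈ (Subalgebra.toSubmodule K.toSubalgebra : Submodule ℚ_[p] ℂ_[p]) := by
    unfold ev
    refine tsum_mem hcl fun m => ?_
    change _ ∈ K
    have hzi : ∀ i, z i ∈ K := fun i => IntermediateField.subset_adjoin _ _ ⟨i, rfl⟩
    exact K.mul_mem (K.algebraMap_mem _) (K.prod_mem fun i _ => _root_.pow_mem (hzi i) _)
  have hmem' : ev z F ∈ K := hmem
  have : IsAlgebraic ℚ_[p] (⟨ev z F, hmem'⟩ : K) := (Algebra.IsAlgebraic.of_finite ℚ_[p] K).isAlgebraic _
  exact this.algebraMap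

theorem vv_rat {x : ℂ_[p]} (h : IsAlgebraic ℚ_[p] x) (hx : x ≠ 0) : ∃ q : ℚ, vv x = q := by
  obtain ⟨y, rfl⟩ := exists_coe_of_algebraic h
  have hy : y ≠ 0 := by
    rintro rfl
    exact hx (PadicComplex.coe_zero p)
  have hint : IsIntegral ℚ_[p] y := (Algebra.IsAlgebraic.isAlgebraic y).isIntegral
  have hc : (minpoly ℚ_[p] y).coeff 0 ≠ 0 := minpoly.coeff_zero_ne_zero hint hy
  have hp1 : (1 : ℝ) < p := by exact_mod_cast (Fact.out : p.Prime).one_lt
  refine ⟨((minpoly ℚ_[p] y).coeff 0).valuation / (minpoly ℚ_[p] y).natDegree, ?_⟩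
  unfold vv
  rw [PadicComplex.norm_extends, ← PadicAlgCl.spectralNorm_eq, spectralNorm.spectralNorm_eq_norm_coeff_zero_rpow,
    Padic.norm_eq_zpow_neg_valuation hc, Real.logb_rpow_eq_mul_logb_of_pos (by positivity),
    ← Real.rpow_intCast, Real.logb_rpow (by linarith) (by linarith [hp1])]
  push_cast
  ring

end Pool.Agent.ZPB
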