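import Pool.Agent.ZPB.TwoTerm
import Pool.Agent.ZPB.GalExt

/-!
# Module B0: a centre for the parameter

Let `f = N/M`, `f_k = f(x_k)`; `‖f_k‖` takes infinitely many values. By `two_term`, along a subsequence with
`‖f_k‖` pairwise distinct there are fixed `j < l` with `‖f_k‖^(l-j) = ‖c_j(T_k)‖/‖c_l(T_k)‖`, `T_k = ev (x k) t`. So
`‖c_j(T_k)‖` or `‖c_l(T_k)‖` takes infinitely many values; apply `exists_isW_of_Z`, `IsW.exists_center`,
`algebraic_of_zero`. (The range over the whole sequence is infinite if it is along a subsequence.)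
-/

namespace Pool.Agent.ZPB

open MvPowerSeries

variable {p : ℕ} [Fact p.Prime] {σ : Type} [Fintype σ]

theorem tie_finite {α β : ℝ} {j l : ℕ} (hjl : j < l) (hα : α ≠ 0) :
    {v : ℝ | α * v ^ j = β * v ^ l}.Finite := by
  set P : Polynomial ℝ := Polynomial.C α * Polynomial.X ^ j - Polynomial.C β * Polynomial.X ^ l
    with hP
  have hP0 : P ≠ 0 := by
    intro h0
    have h1 : P.coeff j = α := by
      rw [hP, Polynomial.coeff_sub, Polynomial.coeff_C_mul_X_pow, Polynomial.coeff_C_mul_X_pow,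
        if_pos rfl, if_neg (by omega), sub_zero]
    rw [h0, Polynomial.coeff_zero] at h1
    exact hα h1.symm
  refine (Polynomial.finite_setOfPred_isRoot hP0).subset ?_
  intro v hv
  have hv' : α * v ^ j = β * v ^ l := hv
  show P.IsRoot v
  rw [Polynomial.IsRoot.def, hP]
  simp only [Polynomial.eval_sub, Polynomial.eval_mul, Polynomial.eval_C, Polynomial.eval_pow,
    Polynomial.eval_X]
  rw [hv', sub_self]

theorem exists_center {𝔮 : Ideal (RR p σ)} {t : RR p σ} (h : IsCurve 𝔮 t) {x : ℕ → σ → ℂ_[p]}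
    (hx : Function.Injective x) (hxz : ∀ k, x k ∈ zer 𝔮) {N M : RR p σ} (hN : N ∉ 𝔮) (hM : M ∉ 𝔮)
    (hval : (Set.range fun k => ‖ev (x k) N / ev (x k) M‖).Infinite) :
    ∃ z : ℂ_[p], IsAlgebraic ℚ_[p] z ∧ ‖z‖ < 1 ∧ (Set.range fun k => ‖ev (x k) t - z‖).Infinite := by
  classical
  obtain ⟨d, c, hfin⟩ := h.two_term hN hM
  set B := {z | z ∈ zer 𝔮 ∧ ¬ ∃ j l : ℕ, j < l ∧ l ≤ d ∧ c j ≠ 0 ∧
      c l ≠ 0 ∧ valZ (c j) (ev z t) ≠ 0 ∧ valZ (c l) (ev z t) ≠ 0 ∧
      ‖valZ (c j) (ev z t)‖ * ‖ev z N / ev z M‖ ^ j =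
        ‖valZ (c l) (ev z t)‖ * ‖ev z N / ev z M‖ ^ l} with hB
  set V : ℕ → Set ℝ := fun j => Set.range fun k => ‖valZ (c j) (ev (x k) t)‖ with hV
  have key : ∃ j, c j ≠ 0 ∧ (V j).Infinite := by
    by_contra hcon
    push Not at hcon
    have hVfin : ∀ j, c j ≠ 0 → (V j).Finite := fun j hj => hcon j hj
    -- the possible values
    have hA : (⋃ j ∈ Finset.range (d + 1), ⋃ l ∈ Finset.range (d + 1),
        {v : ℝ | c j ≠ 0 ∧ c l ≠ 0 ∧ j < l ∧ ∃ α ∈ V j, ∃ β ∈ V l, α ≠ 0 ∧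
          α * v ^ j = β * v ^ l}).Finite := by
      refine Set.Finite.biUnion (Finset.finite_toSet _) fun j _ => ?_
      refine Set.Finite.biUnion (Finset.finite_toSet _) fun l _ => ?_
      by_cases hj : c j = 0
      · refine Set.finite_empty.subset ?_
        rintro v ⟨h1, -⟩
        exact h1 hj
      by_cases hl : c l = 0
      · refine Set.finite_empty.subset ?_
        rintro v ⟨-, h1, -⟩
        exact h1 hl
      by_cases hjl : j < l
      · refine ((hVfin j hj).biUnion fun α _ => (hVfin l hl).biUnion fun β _ =>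
          (?_ : {v : ℝ | α ≠ 0 ∧ α * v ^ j = β * v ^ l}.Finite)).subset ?_
        · by_cases hα : α = 0
          · refine Set.finite_empty.subset ?_
            rintro v ⟨h1, -⟩
            exact h1 hα
          · refine (tie_finite hjl hα (β := β)).subset ?_
            rintro v ⟨-, h1⟩
            exact h1
        · rintro v ⟨-, -, -, α, hα, β, hβ, h1, h2⟩
          exact Set.mem_biUnion hα (Set.mem_biUnion hβ ⟨h1, h2⟩)
      · refine Set.finite_empty.subset ?_
        rintro v ⟨-, -, h1, -⟩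
        exact hjl h1
    have hBk : {k | x k ∈ B}.Finite := hfin.preimage hx.injOn
    apply hval
    refine (hA.union (hBk.image fun k => ‖ev (x k) N / ev (x k) M‖)).subset ?_
    rintro _ ⟨k, rfl⟩
    by_cases hk : x k ∈ B
    · right
      exact ⟨k, hk, rfl⟩
    · left
      have h1 : ∃ j l : ℕ, j < l ∧ l ≤ d ∧ c j ≠ 0 ∧
          c l ≠ 0 ∧ valZ (c j) (ev (x k) t) ≠ 0 ∧ valZ (c l) (ev (x k) t) ≠ 0 ∧
          ‖valZ (c j) (ev (x k) t)‖ * ‖ev (x k) N / ev (x k) M‖ ^ j =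
            ‖valZ (c l) (ev (x k) t)‖ * ‖ev (x k) N / ev (x k) M‖ ^ l := by
        by_contra hno
        exact hk ⟨hxz k, hno⟩
      obtain ⟨j, l, hjl, hld, hcj, hcl, hvj, -, heq⟩ := h1
      refine Set.mem_biUnion (x := j) (by simpa using (by omega : j < d + 1)) ?_
      refine Set.mem_biUnion (x := l) (by simpa using (by omega : l < d + 1)) ?_
      exact ⟨hcj, hcl, hjl, _, ⟨k, rfl⟩, _, ⟨k, rfl⟩, norm_ne_zero_iff.2 hvj, heq⟩
  obtain ⟨j, hj, hinf⟩ := key
  obtain ⟨n, hn⟩ := exists_isW_of_Z hj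
  obtain ⟨s, hs1, hs2, hs3⟩ := hn.exists_center (fun k => ev (x k) t)
    (fun k => norm_ev_lt (hxz k).1 h.t0) hinf
  exact ⟨s, algebraic_of_zero hj hs1 hs2, hs1, hs3⟩

end Pool.Agent.ZPB
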