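import Pool.Agent.ZPB.WUse

/-!
# Module W5: dominant monomials

Let `IsW f n`, `c_m = coeff m f`, `0 < r < 1`. For `m > n`: `‖c_m‖ r^m < ‖c_n‖ r^n`. So the maximum of
`‖c_m‖ r^m` is attained, at indices `≤ n`. Two indices `m < m' ≤ n` (with nonzero coefficients) tie only
for one `r` (`r^(m'-m) = ‖c_m‖/‖c_m'‖`). So outside a finite set of radii there is a unique dominating
index. `Dom f r b`: `b` is the unique dominating index at the radius `r`.
If `Dom f r b` and `‖S‖ = r` then `‖val f S‖ = ‖c_b‖ r^b`, and for `‖S‖ = ‖S'‖ = r`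
`‖val f S - val f S'‖ ≤ ‖c_b‖ r^b ‖S - S'‖ / r` (`‖S^m - S'^m‖ ≤ r^(m-1) ‖S - S'‖` for `m ≥ 1`).
-/

namespace Pool.Agent.ZPB

variable {p : ℕ} [Fact p.Prime]

/-- `b` is the unique dominating index of `f` at the radius `r`. -/
def Dom (f : PowerSeries ℂ_[p]) (r : ℝ) (b : ℕ) : Prop :=
  PowerSeries.coeff b f ≠ 0 ∧
    ∀ m, m ≠ b → ‖PowerSeries.coeff m f‖ * r ^ m < ‖PowerSeries.coeff b f‖ * r ^ b

namespace DomAux

theorem tie_finite {a b : ℝ} (ha : 0 < a) (m m' : ℕ) (h : m < m') :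
    {r : ℝ | 0 < r ∧ a * r ^ m = b * r ^ m'}.Finite := by
  apply Set.Subsingleton.finite
  rintro r ⟨hr, h1⟩ s ⟨hs, h2⟩
  have key : ∀ x : ℝ, 0 < x → a * x ^ m = b * x ^ m' → a = b * x ^ (m' - m) := by
    intro x hx hxe
    have e : x ^ m' = x ^ (m' - m) * x ^ m := by rw [← pow_add, Nat.sub_add_cancel h.le]
    rw [e, ← mul_assoc] at hxe
    exact mul_right_cancel₀ (pow_pos hx m).ne' hxe
  have k1 := key r hr h1
  have k2 := key s hs h2
  have hb : b ≠ 0 := by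
    rintro rfl
    rw [zero_mul] at k1
    exact ha.ne' k1
  have k3 : r ^ (m' - m) = s ^ (m' - m) := mul_left_cancel₀ hb (k1.symm.trans k2)
  exact (pow_left_inj₀ hr.le hs.le (by omega)).1 k3

theorem pow_sub_pow_norm {r : ℝ} (hr0 : 0 < r) {S S' : ℂ_[p]} (hS : ‖S‖ = r) (hS' : ‖S'‖ = r)
    (m : ℕ) : ‖S ^ m - S' ^ m‖ ≤ r ^ m * (‖S - S'‖ / r) := by
  rcases Nat.eq_zero_or_pos m with rfl | hm
  · simp only [pow_zero, sub_self, norm_zero, one_mul]
    positivity
  · rw [← geom_sum₂_mul, norm_mul]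
    have h1 : ‖∑ i ∈ Finset.range m, S ^ i * S' ^ (m - 1 - i)‖ ≤ r ^ (m - 1) := by
      apply IsUltrametricDist.norm_sum_le_of_forall_le_of_nonneg (by positivity)
      intro i hi
      rw [Finset.mem_range] at hi
      rw [norm_mul, norm_pow, norm_pow, hS, hS', ← pow_add]
      apply le_of_eq
      congr 1
      omega
    have h2 : r ^ m * (‖S - S'‖ / r) = r ^ (m - 1) * ‖S - S'‖ := by
      obtain ⟨k, rfl⟩ : ∃ k, m = k + 1 := ⟨m - 1, by omega⟩
      rw [Nat.add_sub_cancel, pow_succ]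
      field_simp
    rw [h2]
    exact mul_le_mul_of_nonneg_right h1 (norm_nonneg _)

end DomAux

theorem IsW.finite_nondom {f : PowerSeries ℂ_[p]} {n : ℕ} (h : IsW f n) :
    {r : ℝ | 0 < r ∧ r < 1 ∧ ¬ ∃ b ≤ n, Dom f r b}.Finite := by
  classical
  have hfin : (⋃ q ∈ ((Finset.range (n + 1) ×ˢ Finset.range (n + 1)).filter
      (fun q : ℕ × ℕ => q.1 < q.2 ∧ PowerSeries.coeff q.1 f ≠ 0) : Finset (ℕ × ℕ)),
      {r : ℝ | 0 < r ∧ ‖PowerSeries.coeff q.1 f‖ * r ^ q.1 =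
        ‖PowerSeries.coeff q.2 f‖ * r ^ q.2}).Finite := by
    apply Set.Finite.biUnion (Finset.finite_toSet _)
    intro q hq
    have hq' := (Finset.mem_filter.1 (Finset.mem_coe.1 hq)).2
    exact DomAux.tie_finite (norm_pos_iff.2 hq'.2) _ _ hq'.1
  apply hfin.subset
  rintro r ⟨hr0, hr1, hr⟩
  by_contra hcon
  apply hr
  obtain ⟨b, hb, hmax⟩ := Finset.exists_max_image (Finset.range (n + 1))
    (fun m => ‖PowerSeries.coeff m f‖ * r ^ m) ⟨0, Finset.mem_range.2 (Nat.succ_pos n)⟩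
  have hbn : b ≤ n := Nat.lt_succ_iff.1 (Finset.mem_range.1 hb)
  have hnpos : 0 < ‖PowerSeries.coeff n f‖ * r ^ n :=
    mul_pos (norm_pos_iff.2 h.1) (pow_pos hr0 n)
  have hnb := hmax n (Finset.mem_range.2 (Nat.lt_succ_self n))
  have hbpos : 0 < ‖PowerSeries.coeff b f‖ * r ^ b := lt_of_lt_of_le hnpos hnb
  have hb0 : PowerSeries.coeff b f ≠ 0 := by
    intro h0
    rw [h0, norm_zero, zero_mul] at hbpos
    exact lt_irrefl _ hbpos
  refine ⟨b, hbn, hb0, fun m hm => ?_⟩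
  rcases le_or_gt m n with hmn | hmn
  · by_cases hm0 : PowerSeries.coeff m f = 0
    · rw [hm0, norm_zero, zero_mul]
      exact hbpos
    · refine lt_of_le_of_ne (hmax m (Finset.mem_range.2 (Nat.lt_succ_of_le hmn))) ?_
      intro heq
      apply hcon
      rcases lt_or_gt_of_ne hm with hlt | hlt
      · refine Set.mem_biUnion (x := (m, b)) ?_ ⟨hr0, heq⟩
        rw [Finset.mem_coe, Finset.mem_filter, Finset.mem_product]
        exact ⟨⟨Finset.mem_range.2 (Nat.lt_succ_of_le hmn), hb⟩, hlt, hm0⟩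
      · refine Set.mem_biUnion (x := (b, m)) ?_ ⟨hr0, heq.symm⟩
        rw [Finset.mem_coe, Finset.mem_filter, Finset.mem_product]
        exact ⟨⟨hb, Finset.mem_range.2 (Nat.lt_succ_of_le hmn)⟩, hlt, hb0⟩
  · refine lt_of_lt_of_le ?_ hnb
    calc ‖PowerSeries.coeff m f‖ * r ^ m ≤ ‖PowerSeries.coeff n f‖ * r ^ m :=
          mul_le_mul_of_nonneg_right (h.2.1 m) (pow_nonneg hr0.le m)
      _ < ‖PowerSeries.coeff n f‖ * r ^ n :=
          mul_lt_mul_of_pos_left (pow_lt_pow_right_of_lt_one₀ hr0 hr1 hmn) (norm_pos_iff.2 h.1)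

/-- the value is, up to a relative error `< 1`, the dominating monomial -/
theorem Dom.norm_sub_lt {f : PowerSeries ℂ_[p]} (hf : Bdd f) {r : ℝ} {b : ℕ} (hr0 : 0 < r)
    (hr1 : r < 1) (h : Dom f r b) {S : ℂ_[p]} (hS : ‖S‖ = r) :
    ‖val f S - PowerSeries.coeff b f * S ^ b‖ < ‖PowerSeries.coeff b f‖ * r ^ b := by
  classical
  have hsum : Summable (fun n => PowerSeries.coeff n f * S ^ n) :=
    (summable_val hf (by rw [hS]; exact hr1)).of_norm
  have hbpos : 0 < ‖PowerSeries.coeff b f‖ * r ^ b :=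
    mul_pos (norm_pos_iff.2 h.1) (pow_pos hr0 b)
  unfold val
  rw [hsum.tsum_eq_add_tsum_ite b, add_sub_cancel_left]
  -- a bound that is attained
  have htend : Filter.Tendsto (fun n => ‖PowerSeries.coeff n f * S ^ n‖) Filter.atTop (nhds 0) := by
    have := hsum.tendsto_atTop_zero.norm
    simpa using this
  obtain ⟨K, hK⟩ := Filter.eventually_atTop.1
    (htend.eventually (ge_mem_nhds (half_pos hbpos)))
  have hterm : ∀ m, m ≠ b → ‖PowerSeries.coeff m f * S ^ m‖ < ‖PowerSeries.coeff b f‖ * r ^ b := by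
    intro m hm
    rw [norm_mul, norm_pow, hS]
    exact h.2 m hm
  obtain ⟨m0, hm0, hmax⟩ := Finset.exists_max_image (insert (K + b + 1) (Finset.range K))
    (fun m => ‖if m = b then (0 : ℂ_[p]) else PowerSeries.coeff m f * S ^ m‖)
    ⟨K + b + 1, Finset.mem_insert_self _ _⟩
  set B : ℝ := max (‖PowerSeries.coeff b f‖ * r ^ b / 2)
    ‖if m0 = b then (0 : ℂ_[p]) else PowerSeries.coeff m0 f * S ^ m0‖ with hB
  have hBlt : B < ‖PowerSeries.coeff b f‖ * r ^ b := by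
    rw [hB, max_lt_iff]
    refine ⟨half_lt_self hbpos, ?_⟩
    by_cases hmb : m0 = b
    · rw [if_pos hmb, norm_zero]
      exact hbpos
    · rw [if_neg hmb]
      exact hterm m0 hmb
  have hB0 : 0 ≤ B := le_max_of_le_left (half_pos hbpos).le
  refine lt_of_le_of_lt ?_ hBlt
  apply IsUltrametricDist.norm_tsum_le_of_forall_le_of_nonneg hB0
  intro m
  by_cases hmb : m = b
  · rw [if_pos hmb, norm_zero]
    exact hB0
  · rcases lt_or_ge m K with hmK | hmK
    · refine le_trans ?_ (le_max_right _ _)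
      exact hmax m (Finset.mem_insert_of_mem (Finset.mem_range.2 hmK))
    · rw [if_neg hmb]
      exact le_trans (hK m hmK) (le_max_left _ _)

theorem Dom.norm_val {f : PowerSeries ℂ_[p]} (hf : Bdd f) {r : ℝ} {b : ℕ} (hr0 : 0 < r) (hr1 : r < 1)
    (h : Dom f r b) {S : ℂ_[p]} (hS : ‖S‖ = r) : ‖val f S‖ = ‖PowerSeries.coeff b f‖ * r ^ b := by
  have h1 := Dom.norm_sub_lt hf hr0 hr1 h hS
  have h2 : ‖PowerSeries.coeff b f * S ^ b‖ = ‖PowerSeries.coeff b f‖ * r ^ b := by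
    rw [norm_mul, norm_pow, hS]
  rw [← h2] at h1 ⊢
  have h3 : val f S = (val f S - PowerSeries.coeff b f * S ^ b) + PowerSeries.coeff b f * S ^ b := by
    ring
  rw [h3, IsUltrametricDist.norm_add_eq_max_of_norm_ne_norm h1.ne, max_eq_right h1.le]

theorem Dom.lipschitz {f : PowerSeries ℂ_[p]} (hf : Bdd f) {r : ℝ} {b : ℕ} (hr0 : 0 < r)
    (hr1 : r < 1) (h : Dom f r b) {S S' : ℂ_[p]} (hS : ‖S‖ = r) (hS' : ‖S'‖ = r) :
    ‖val f S - val f S'‖ ≤ ‖PowerSeries.coeff b f‖ * r ^ b * (‖S - S'‖ / r) := by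
  have hsum : Summable (fun n => PowerSeries.coeff n f * S ^ n) :=
    (summable_val hf (by rw [hS]; exact hr1)).of_norm
  have hsum' : Summable (fun n => PowerSeries.coeff n f * S' ^ n) :=
    (summable_val hf (by rw [hS']; exact hr1)).of_norm
  unfold val
  rw [← hsum.tsum_sub hsum']
  have hd : 0 ≤ ‖S - S'‖ / r := by positivity
  have hbpos : 0 ≤ ‖PowerSeries.coeff b f‖ * r ^ b := by positivity
  apply IsUltrametricDist.norm_tsum_le_of_forall_le_of_nonneg (mul_nonneg hbpos hd)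
  intro m
  rw [← mul_sub, norm_mul]
  calc ‖PowerSeries.coeff m f‖ * ‖S ^ m - S' ^ m‖
      ≤ ‖PowerSeries.coeff m f‖ * (r ^ m * (‖S - S'‖ / r)) :=
        mul_le_mul_of_nonneg_left (DomAux.pow_sub_pow_norm hr0 hS hS' m) (norm_nonneg _)
    _ = (‖PowerSeries.coeff m f‖ * r ^ m) * (‖S - S'‖ / r) := by ring
    _ ≤ ‖PowerSeries.coeff b f‖ * r ^ b * (‖S - S'‖ / r) := by
        apply mul_le_mul_of_nonneg_right _ hd
        by_cases hmb : m = b
        · rw [hmb]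
        · exact (h.2 m hmb).le

end Pool.Agent.ZPB
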