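import Pool.Agent.ZPB.EvVal

/-!
# Module W3: recentering `f(z + S)`

For bounded `f` and `‖z‖ < 1` the series defining the coefficients of `recenter z f` converge
absolutely, and `val (recenter z f) S = val f (z + S)` by rearranging the absolutely convergent double
series `∑ c_(m+n) binom(m+n, m) z^n S^m`.
`IsW` is preserved: for `m = n0` (the Weierstrass degree) the coefficient is `c_n0` plus terms with a
factor `z`, so it has norm `‖c_n0‖`; for `m > n0` the norm is `≤ ‖c_n0‖`; for `m < n0` every term has norm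
`< ‖c_n0‖`, more precisely `≤ max(max_{k<n0} ‖c_k‖, ‖c_n0‖ ‖z‖) < ‖c_n0‖` (binomial coefficients have
norm `≤ 1`).
-/

namespace Pool.Agent.ZPB

variable {p : ℕ} [Fact p.Prime]

theorem Bdd.exists_nonneg {f : PowerSeries ℂ_[p]} (hf : Bdd f) :
    ∃ B : ℝ, 0 ≤ B ∧ ∀ n, ‖PowerSeries.coeff n f‖ ≤ B := by
  obtain ⟨B, hB⟩ := hf
  exact ⟨B, (norm_nonneg _).trans (hB 0), hB⟩

/-- bound of a term -/
theorem norm_term_le (f : PowerSeries ℂ_[p]) (z : ℂ_[p]) (m n : ℕ) :
    ‖((m + n).choose m : ℂ_[p]) * PowerSeries.coeff (m + n) f * z ^ n‖ ≤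
      ‖PowerSeries.coeff (m + n) f‖ * ‖z‖ ^ n := by
  rw [norm_mul, norm_mul, norm_pow]
  refine mul_le_mul_of_nonneg_right ?_ (by positivity)
  exact mul_le_of_le_one_left (norm_nonneg _) (IsUltrametricDist.norm_natCast_le_one _ _)

theorem summable_term {f : PowerSeries ℂ_[p]} (hf : Bdd f) {z : ℂ_[p]} (hz : ‖z‖ < 1) (m : ℕ) :
    Summable fun n : ℕ => ((m + n).choose m : ℂ_[p]) * PowerSeries.coeff (m + n) f * z ^ n := by
  obtain ⟨B, hB0, hB⟩ := hf.exists_nonneg
  refine Summable.of_norm_bounded (g := fun n : ℕ => B * ‖z‖ ^ n)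
    ((summable_geometric_of_lt_one (norm_nonneg z) hz).mul_left B) fun n => ?_
  exact (norm_term_le f z m n).trans (mul_le_mul_of_nonneg_right (hB _) (by positivity))

theorem recenter_bdd {f : PowerSeries ℂ_[p]} (hf : Bdd f) {z : ℂ_[p]} (hz : ‖z‖ < 1) :
    Bdd (recenter z f) := by
  obtain ⟨B, hB0, hB⟩ := hf.exists_nonneg
  refine ⟨B, fun m => ?_⟩
  rw [Pool.Agent.ZPB.recenter, PowerSeries.coeff_mk]
  refine IsUltrametricDist.norm_tsum_le_of_forall_le_of_nonneg hB0 fun n => ?_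
  refine (norm_term_le f z m n).trans ?_
  calc ‖PowerSeries.coeff (m + n) f‖ * ‖z‖ ^ n ≤ B * 1 :=
        mul_le_mul (hB _) (pow_le_one₀ (norm_nonneg _) hz.le) (by positivity) hB0
    _ = B := mul_one B

theorem recenter_add {f g : PowerSeries ℂ_[p]} (hf : Bdd f) (hg : Bdd g) {z : ℂ_[p]} (hz : ‖z‖ < 1) :
    recenter z (f + g) = recenter z f + recenter z g := by
  ext m
  rw [map_add]
  simp only [Pool.Agent.ZPB.recenter, PowerSeries.coeff_mk]
  rw [← Summable.tsum_add (summable_term hf hz m) (summable_term hg hz m)]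
  refine tsum_congr fun n => ?_
  rw [map_add]
  ring

theorem recenter_C_mul {f : PowerSeries ℂ_[p]} (c : ℂ_[p]) {z : ℂ_[p]} :
    recenter z (PowerSeries.C c * f) = PowerSeries.C c * recenter z f := by
  ext m
  rw [PowerSeries.coeff_C_mul]
  simp only [Pool.Agent.ZPB.recenter, PowerSeries.coeff_mk]
  rw [← tsum_mul_left]
  refine tsum_congr fun n => ?_
  rw [PowerSeries.coeff_C_mul]
  ring

/-- summation along the diagonals -/
theorem tsum_prod_antidiagonal {F : ℕ × ℕ → ℂ_[p]} (hF : Summable F) :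
    ∑' x : ℕ × ℕ, F x = ∑' k : ℕ, ∑ y ∈ Finset.HasAntidiagonal.antidiagonal k, F y := by
  let e : ((k : ℕ) × Finset.HasAntidiagonal.antidiagonal k) ≃ ℕ × ℕ :=
    Finset.HasAntidiagonal.sigmaAntidiagonalEquivProd
  have h1 : Summable fun x : (k : ℕ) × Finset.HasAntidiagonal.antidiagonal k => F (e x) :=
    e.summable_iff.2 hF
  have h2 : ∑' x : (k : ℕ) × Finset.HasAntidiagonal.antidiagonal k, F (e x) = ∑' x, F x :=
    e.tsum_eq F
  rw [← h2, Summable.tsum_sigma' (fun k => (hasSum_fintype _).summable) h1]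
  refine tsum_congr fun k => ?_
  rw [tsum_fintype]
  exact Finset.sum_coe_sort (Finset.HasAntidiagonal.antidiagonal k) F

theorem val_recenter {f : PowerSeries ℂ_[p]} (hf : Bdd f) {z S : ℂ_[p]} (hz : ‖z‖ < 1)
    (hS : ‖S‖ < 1) : val (recenter z f) S = val f (z + S) := by
  obtain ⟨B, hB0, hB⟩ := hf.exists_nonneg
  set F : ℕ × ℕ → ℂ_[p] := fun x =>
    (((x.1 + x.2).choose x.1 : ℂ_[p]) * PowerSeries.coeff (x.1 + x.2) f * z ^ x.2) * S ^ x.1 with hFdef
  have hbound : ∀ x : ℕ × ℕ, ‖F x‖ ≤ (‖S‖ ^ x.1) * (B * ‖z‖ ^ x.2) := by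
    intro x
    rw [hFdef]
    simp only
    rw [norm_mul, norm_pow, mul_comm]
    refine mul_le_mul_of_nonneg_left ?_ (by positivity)
    exact (norm_term_le f z x.1 x.2).trans (mul_le_mul_of_nonneg_right (hB _) (by positivity))
  have hsum : Summable F := by
    refine Summable.of_norm_bounded ?_ hbound
    exact (summable_geometric_of_lt_one (norm_nonneg S) hS).mul_of_nonneg
      ((summable_geometric_of_lt_one (norm_nonneg z) hz).mul_left B)
      (fun n => by positivity) (fun n => by positivity)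
  have h1 : val (recenter z f) S = ∑' x : ℕ × ℕ, F x := by
    rw [Summable.tsum_prod hsum]
    unfold val
    refine tsum_congr fun m => ?_
    rw [Pool.Agent.ZPB.recenter, PowerSeries.coeff_mk, ← tsum_mul_right]
  rw [h1, tsum_prod_antidiagonal hsum]
  unfold val
  refine tsum_congr fun k => ?_
  rw [add_comm z S, (Commute.all S z).add_pow', Finset.mul_sum]
  refine Finset.sum_congr rfl fun y hy => ?_
  have hy' : y.1 + y.2 = k := Finset.HasAntidiagonal.mem_antidiagonal.1 hy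
  rw [hFdef]
  simp only
  rw [hy', nsmul_eq_mul]
  ring

theorem exists_lt_bound (a : ℕ → ℝ) (A : ℝ) (n : ℕ) (hA : 0 < A) (h : ∀ m < n, a m < A) :
    ∃ M : ℝ, 0 ≤ M ∧ M < A ∧ ∀ m < n, a m ≤ M := by
  induction n with
  | zero => exact ⟨0, le_rfl, hA, fun m hm => absurd hm (Nat.not_lt_zero m)⟩
  | succ n ih =>
    obtain ⟨M, h1, h2, h3⟩ := ih fun m hm => h m (Nat.lt_succ_of_lt hm)
    refine ⟨max M (a n), h1.trans (le_max_left _ _), max_lt h2 (h n (Nat.lt_succ_self n)), ?_⟩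
    intro m hm
    rcases Nat.lt_succ_iff_lt_or_eq.1 hm with h' | rfl
    · exact (h3 m h').trans (le_max_left _ _)
    · exact le_max_right _ _

theorem IsW.recenter {f : PowerSeries ℂ_[p]} {n : ℕ} (h : IsW f n) {z : ℂ_[p]} (hz : ‖z‖ < 1) :
    IsW (recenter z f) n := by
  obtain ⟨h1, h2, h3⟩ := h
  set c : ℕ → ℂ_[p] := fun k => PowerSeries.coeff k f with hc
  have hA : 0 < ‖c n‖ := norm_pos_iff.2 h1
  have hb : Bdd f := ⟨‖c n‖, h2⟩
  have hd : ∀ m, PowerSeries.coeff m (Pool.Agent.ZPB.recenter z f) =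
      ∑' k : ℕ, ((m + k).choose m : ℂ_[p]) * PowerSeries.coeff (m + k) f * z ^ k := by
    intro m
    rw [Pool.Agent.ZPB.recenter, PowerSeries.coeff_mk]
  have hle : ∀ m, ‖PowerSeries.coeff m (Pool.Agent.ZPB.recenter z f)‖ ≤ ‖c n‖ := by
    intro m
    rw [hd]
    refine IsUltrametricDist.norm_tsum_le_of_forall_le_of_nonneg hA.le fun k => ?_
    refine (norm_term_le f z m k).trans ?_
    calc ‖PowerSeries.coeff (m + k) f‖ * ‖z‖ ^ k ≤ ‖c n‖ * 1 :=
          mul_le_mul (h2 _) (pow_le_one₀ (norm_nonneg _) hz.le) (by positivity) hA.le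
      _ = ‖c n‖ := mul_one _
  have hzA : ‖c n‖ * ‖z‖ < ‖c n‖ := by
    calc ‖c n‖ * ‖z‖ < ‖c n‖ * 1 := mul_lt_mul_of_pos_left hz hA
      _ = ‖c n‖ := mul_one _
  have hpow : ∀ k : ℕ, ‖z‖ ^ (k + 1) ≤ ‖z‖ := by
    intro k
    rw [pow_succ]
    exact mul_le_of_le_one_left (norm_nonneg _) (pow_le_one₀ (norm_nonneg _) hz.le)
  have hn : ‖PowerSeries.coeff n (Pool.Agent.ZPB.recenter z f)‖ = ‖c n‖ := by
    have e1 : PowerSeries.coeff n (Pool.Agent.ZPB.recenter z f) - c n =
        ∑' k : ℕ, ((n + (k + 1)).choose n : ℂ_[p]) * PowerSeries.coeff (n + (k + 1)) f *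
          z ^ (k + 1) := by
      rw [hd, (summable_term hb hz n).tsum_eq_zero_add]
      simp [hc]
    have e2 : ‖PowerSeries.coeff n (Pool.Agent.ZPB.recenter z f) - c n‖ ≤ ‖c n‖ * ‖z‖ := by
      rw [e1]
      refine IsUltrametricDist.norm_tsum_le_of_forall_le_of_nonneg (by positivity) fun k => ?_
      refine (norm_term_le f z n (k + 1)).trans ?_
      exact mul_le_mul (h2 _) (hpow k) (by positivity) hA.le
    refine le_antisymm (hle n) ?_
    by_contra hlt
    push Not at hlt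
    have e3 : c n = PowerSeries.coeff n (Pool.Agent.ZPB.recenter z f) -
        (PowerSeries.coeff n (Pool.Agent.ZPB.recenter z f) - c n) := by ring
    have e4 : ‖c n‖ < ‖c n‖ := by
      calc ‖c n‖ = ‖PowerSeries.coeff n (Pool.Agent.ZPB.recenter z f) +
            -(PowerSeries.coeff n (Pool.Agent.ZPB.recenter z f) - c n)‖ := by
              rw [← sub_eq_add_neg, ← e3]
        _ ≤ max _ _ := IsUltrametricDist.norm_add_le_max _ _
        _ < ‖c n‖ := by
            rw [norm_neg]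
            exact max_lt hlt (lt_of_le_of_lt e2 hzA)
    exact lt_irrefl _ e4
  refine ⟨?_, ?_, ?_⟩
  · rw [← norm_pos_iff, hn]
    exact hA
  · intro m
    rw [hn]
    exact hle m
  · intro m hm
    rw [hn, hd]
    obtain ⟨M, hM0, hM1, hM2⟩ := exists_lt_bound (fun k => ‖c k‖) ‖c n‖ n hA h3
    refine lt_of_le_of_lt (b := max M (‖c n‖ * ‖z‖)) ?_ (max_lt hM1 hzA)
    refine IsUltrametricDist.norm_tsum_le_of_forall_le_of_nonneg (hM0.trans (le_max_left _ _))
      fun k => ?_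
    refine (norm_term_le f z m k).trans ?_
    rcases lt_or_ge (m + k) n with hlt | hge
    · refine le_trans ?_ (le_max_left _ _)
      calc ‖PowerSeries.coeff (m + k) f‖ * ‖z‖ ^ k ≤ M * 1 :=
            mul_le_mul (hM2 _ hlt) (pow_le_one₀ (norm_nonneg _) hz.le) (by positivity) hM0
        _ = M := mul_one _
    · refine le_trans ?_ (le_max_right _ _)
      obtain ⟨k', rfl⟩ : ∃ k', k = k' + 1 := ⟨k - 1, by omega⟩
      exact mul_le_mul (h2 _) (hpow k') (by positivity) hA.le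

end Pool.Agent.ZPB
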