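import Pool.Agent.ZPB.CurveZero
import Pool.Agent.ZPB.Dominant
import Pool.Agent.ZPB.Recenter

/-!
# Module B5b: conjugates with close parameter have close coordinates

Fix the coordinate `i` and a monic `Q ∈ ℤ_p[[T]][Z]` with `Q(t)(X_i) ∈ 𝔮` (`IsCurve.integral`), `K = d = deg Q`. Write
`T = ev (x k) t`, `r = ‖T - z‖`, `u = x k i ≠ 0`. For all large `k` every nonzero `recenter z (Q_j)` has a dominating index at
`r` (`IsW.finite_nondom`, pairwise distinct radii). Let `g_0, …, g_d` fix `z` and satisfy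
`‖g_a T - g_b T‖ ≤ ρ ‖T - z‖`. `Dom.norm_val` gives `‖Q_j(g_a T)‖ = ‖Q_j(T)‖`, `Dom.lipschitz` gives
`‖Q_j(g_a T) - Q_j(g_0 T)‖ ≤ ρ ‖Q_j(T)‖`. Since `∑ Q_j(g_a T) (g_a u)^j = 0`, the polynomial
`q(Z) = ∑ Q_j(g_0 T) Z^j` satisfies `‖q(g_a u)‖ ≤ ρ W`, `W = max_j ‖Q_j(T)‖ ‖u‖^j > 0`. As a power series `q` is `IsW` of some
degree `n ≤ d` (`exists_isW_of_bound`), `W = ‖coeff j q‖ ‖u‖^j` for some `j`, `0 < ‖u‖ < 1`. `IsW.pigeon`: there are
`a ≠ b` with `‖g_a u - g_b u‖^n ≤ ρ ‖u‖^n`, `n ≥ 1`; so `‖g_a u - g_b u‖ ≤ ρ^(1/d) ‖u‖` (`d ≥ 1`).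
-/

namespace Pool.Agent.ZPB

open MvPowerSeries

variable {p : ℕ} [Fact p.Prime] {σ : Type} [Fintype σ]

/-- the evaluated integral relation at a point of the zero set -/
theorem relation_at {𝔮 : Ideal (RR p σ)} {t : RR p σ} (ht : constantCoeff t = 0) {i : σ}
    {Q : Polynomial (PowerSeries ℤ_[p])} (hQ : Q.eval₂ (sb ht) (X i) ∈ 𝔮) {y : σ → ℂ_[p]}
    (hy : y ∈ zer 𝔮) :
    ∑ j ∈ Finset.range (Q.natDegree + 1), valZ (Q.coeff j) (ev y t) * y i ^ j = 0 := by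
  have h1 := hy.2 _ hQ
  rw [← evHom_apply hy.1, Polynomial.hom_eval₂, Polynomial.eval₂_eq_sum_range] at h1
  rw [← h1]
  refine Finset.sum_congr rfl fun j _ => ?_
  rw [RingHom.comp_apply, evHom_apply, evHom_apply, sb_apply, ev_subst hy.1 ht, ev_X]

/-- the combinatorial core: one fixed point -/
theorem closeness_core {Q : Polynomial (PowerSeries ℤ_[p])} (hQm : Q.Monic) {d : ℕ}
    (hd : Q.natDegree = d) {u : ℂ_[p]}
    (hu0 : u ≠ 0) (hu1 : ‖u‖ < 1) {ρ : ℝ} (hρ0 : 0 < ρ) (hρ1 : ρ < 1)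
    (T : Fin (d + 1) → ℂ_[p]) (U : Fin (d + 1) → ℂ_[p]) (hT : ∀ a, ‖T a‖ < 1)
    (hU : ∀ a, ‖U a‖ = ‖u‖)
    (hrel : ∀ a, ∑ j ∈ Finset.range (d + 1), valZ (Q.coeff j) (T a) * U a ^ j = 0)
    (hclose : ∀ a j, ‖valZ (Q.coeff j) (T a) - valZ (Q.coeff j) (T 0)‖ ≤
      ‖valZ (Q.coeff j) (T 0)‖ * ρ) :
    ∃ a b, a ≠ b ∧ ‖U a - U b‖ ≤ ρ ^ ((d + 1 : ℝ)⁻¹) * ‖u‖ := by
  classical
  have hu0' : 0 < ‖u‖ := norm_pos_iff.2 hu0
  set f : PowerSeries ℂ_[p] := PowerSeries.mk fun j => valZ (Q.coeff j) (T 0) with hf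
  have hcf : ∀ j, PowerSeries.coeff j f = valZ (Q.coeff j) (T 0) := fun j => by
    rw [hf, PowerSeries.coeff_mk]
  have hbig : ∀ j, d < j → PowerSeries.coeff j f = 0 := by
    intro j hj
    rw [hcf, Polynomial.coeff_eq_zero_of_natDegree_lt (hd ▸ hj), ← valHom_apply (hT 0), map_zero]
  have htop : PowerSeries.coeff d f = 1 := by
    have h1 : Q.coeff d = 1 := by rw [← hd, hQm.coeff_natDegree]
    rw [hcf, h1, ← valHom_apply (hT 0), map_one]
  have hf0 : f ≠ 0 := by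
    intro h0
    rw [h0, map_zero] at htop
    exact zero_ne_one htop
  obtain ⟨n, hnd, hn⟩ := exists_isW_of_bound hf0 (m := d) (by
    intro n
    by_cases h : n ≤ d
    · exact ⟨n, h, le_refl _⟩
    · refine ⟨0, Nat.zero_le _, ?_⟩
      rw [hbig n (by omega), norm_zero]
      exact norm_nonneg _)
  obtain ⟨m, hm, hmax⟩ := Finset.exists_max_image (Finset.range (d + 1))
    (fun j => ‖PowerSeries.coeff j f‖ * ‖u‖ ^ j) ⟨0, by simp⟩
  set W : ℝ := ‖PowerSeries.coeff m f‖ * ‖u‖ ^ m with hW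
  have hWpos : 0 < W := by
    have h1 := hmax d (by simp)
    rw [htop, norm_one, one_mul] at h1
    exact lt_of_lt_of_le (pow_pos hu0' d) h1
  have hval : ∀ a, ‖val f (U a)‖ ≤ ρ * W := by
    intro a
    have h1 : val f (U a) = ∑ j ∈ Finset.range (d + 1), PowerSeries.coeff j f * U a ^ j := by
      rw [val]
      refine tsum_eq_sum fun j hj => ?_
      rw [hbig j (by simpa using hj), zero_mul]
    have h2 : val f (U a) = ∑ j ∈ Finset.range (d + 1),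
        (valZ (Q.coeff j) (T 0) - valZ (Q.coeff j) (T a)) * U a ^ j := by
      have h3 := hrel a
      rw [h1]
      simp only [sub_mul, Finset.sum_sub_distrib, hcf]
      rw [h3, sub_zero]
    rw [h2]
    refine IsUltrametricDist.norm_sum_le_of_forall_le_of_nonneg (by positivity) ?_
    intro j hj
    rw [norm_mul, norm_pow, hU, norm_sub_rev]
    have h3 := hmax j hj
    rw [hcf] at h3
    calc ‖valZ (Q.coeff j) (T a) - valZ (Q.coeff j) (T 0)‖ * ‖u‖ ^ j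
        ≤ (‖valZ (Q.coeff j) (T 0)‖ * ρ) * ‖u‖ ^ j :=
          mul_le_mul_of_nonneg_right (hclose a j) (by positivity)
      _ = ρ * (‖valZ (Q.coeff j) (T 0)‖ * ‖u‖ ^ j) := by ring
      _ ≤ ρ * W := mul_le_mul_of_nonneg_left h3 hρ0.le
  have hle : n + 1 ≤ d + 1 := by omega
  obtain ⟨a, b, hab, h⟩ := hn.pigeon hu0' hu1 hρ0.le hρ1 m (fun a => U (Fin.castLE hle a))
    (fun a => hU _) hWpos (le_refl _) (fun a => hval _)
  refine ⟨Fin.castLE hle a, Fin.castLE hle b, fun h' => hab (Fin.castLE_injective hle h'), ?_⟩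
  have hn0 : n ≠ 0 := by
    rintro rfl
    rw [pow_zero, pow_zero, mul_one] at h
    linarith
  have hρn : ρ ≤ (ρ ^ ((d + 1 : ℝ)⁻¹)) ^ n := by
    rw [← Real.rpow_natCast, ← Real.rpow_mul hρ0.le]
    calc ρ = ρ ^ (1 : ℝ) := (Real.rpow_one ρ).symm
      _ ≤ ρ ^ (((d + 1 : ℝ)⁻¹) * (n : ℝ)) := by
        apply Real.rpow_le_rpow_of_exponent_ge hρ0 hρ1.le
        rw [inv_mul_le_iff₀ (by positivity), mul_one]
        have : (n : ℝ) ≤ d := by exact_mod_cast hnd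
        linarith
  have hpos : 0 ≤ ρ ^ ((d + 1 : ℝ)⁻¹) * ‖u‖ := by positivity
  refine (pow_le_pow_iff_left₀ (norm_nonneg _) hpos hn0).1 (h.trans ?_)
  rw [mul_pow]
  exact mul_le_mul_of_nonneg_right hρn (by positivity)

theorem closeness_X {𝔮 : Ideal (RR p σ)} {t : RR p σ} (h : IsCurve 𝔮 t) {x : ℕ → σ → ℂ_[p]}
    (hxz : ∀ k, x k ∈ zer 𝔮) (hx0 : ∀ k i, x k i ≠ 0) {z : ℂ_[p]}
    (hz : ‖z‖ < 1) (hS0 : ∀ k, ev (x k) t ≠ z) (hS : Function.Injective fun k => ‖ev (x k) t - z‖)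
    (i : σ) :
    ∃ K : ℕ, ∀ ρ : ℝ, 0 < ρ → ρ < 1 → ∃ ρ' : ℝ, 0 < ρ' ∧ ρ' < 1 ∧ ∀ᶠ k in Filter.atTop,
      ∀ g : Fin (K + 1) → (ℂ_[p] ≃+* ℂ_[p]), (∀ a, IsIso (g a)) → (∀ a, g a z = z) →
        (∀ a b, ‖g a (ev (x k) t) - g b (ev (x k) t)‖ ≤ ρ * ‖ev (x k) t - z‖) →
        ∃ a b, a ≠ b ∧ ‖g a (x k i) - g b (x k i)‖ ≤ ρ' * ‖x k i‖ := by
  classical
  obtain ⟨Q, hQm, hQ⟩ := h.integral (X i)
  refine ⟨Q.natDegree, ?_⟩
  intro ρ hρ0 hρ1
  refine ⟨ρ ^ ((Q.natDegree + 1 : ℝ)⁻¹), Real.rpow_pos_of_pos hρ0 _,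
    Real.rpow_lt_one hρ0.le hρ1 (by positivity), ?_⟩
  -- the radii
  have hTlt : ∀ k, ‖ev (x k) t‖ < 1 := fun k => norm_ev_lt (hxz k).1 h.t0
  have hr0 : ∀ k, 0 < ‖ev (x k) t - z‖ := fun k => norm_pos_iff.2 (sub_ne_zero.2 (hS0 k))
  have hr1 : ∀ k, ‖ev (x k) t - z‖ < 1 := by
    intro k
    have h1 := IsUltrametricDist.norm_add_le_max (ev (x k) t) (-z)
    rw [norm_neg, ← sub_eq_add_neg] at h1
    exact lt_of_le_of_lt h1 (max_lt (hTlt k) hz)
  -- the dominating indices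
  have hdom : ∀ᶠ k in Filter.atTop, ∀ j ∈ Finset.range (Q.natDegree + 1), Q.coeff j ≠ 0 →
      ∃ b, Dom (recenter z (PowerSeries.map (zc p) (Q.coeff j))) ‖ev (x k) t - z‖ b := by
    rw [Filter.eventually_all_finset]
    intro j _
    by_cases hj : Q.coeff j = 0
    · exact Filter.Eventually.of_forall fun k hk => absurd hj hk
    obtain ⟨n, hn⟩ := exists_isW_of_Z hj
    have hfin := (hn.recenter hz).finite_nondom
    have h1 := hfin.preimage (f := fun k => ‖ev (x k) t - z‖) hS.injOn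
    rw [← Nat.cofinite_eq_atTop]
    filter_upwards [h1.compl_mem_cofinite] with k hk _
    by_contra hcon
    apply hk
    refine ⟨hr0 k, hr1 k, ?_⟩
    rintro ⟨b, -, hb⟩
    exact hcon ⟨b, hb⟩
  filter_upwards [hdom] with k hk g hg hgz hclose
  have hy : ∀ a, (fun i => g a (x k i)) ∈ zer 𝔮 := fun a => zer_iso (hxz k) (hg a)
  have hev : ∀ a, ev (fun i => g a (x k i)) t = g a (ev (x k) t) := fun a =>
    ev_iso (hxz k).1 (hg a) t
  have hSa : ∀ a, ‖g a (ev (x k) t) - z‖ = ‖ev (x k) t - z‖ := by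
    intro a
    have h1 : g a (ev (x k) t) - z = g a (ev (x k) t - z) := by rw [map_sub, hgz]
    rw [h1, hg a]
  have hTa : ∀ a, ‖g a (ev (x k) t)‖ < 1 := fun a => by
    rw [hg a]
    exact hTlt k
  refine closeness_core hQm rfl (hx0 k i) ((hxz k).1 i) hρ0 hρ1 (fun a => g a (ev (x k) t))
    (fun a => g a (x k i)) hTa (fun a => hg a _) ?_ ?_
  · intro a
    have h1 := relation_at h.t0 hQ (hy a)
    simpa only [hev a] using h1
  · intro a j
    by_cases hj0 : Q.coeff j = 0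
    · have h1 : ∀ s : ℂ_[p], ‖s‖ < 1 → valZ (Q.coeff j) s = 0 := fun s hs => by
        rw [hj0, ← valHom_apply hs, map_zero]
      rw [h1 _ (hTa a), h1 _ (hTa 0)]
      simp
    have hj : j ∈ Finset.range (Q.natDegree + 1) := by
      rw [Finset.mem_range]
      by_contra hcon
      exact hj0 (Polynomial.coeff_eq_zero_of_natDegree_lt (by omega))
    obtain ⟨b, hb⟩ := hk j hj hj0
    have hbdd : Bdd (recenter z (PowerSeries.map (zc p) (Q.coeff j))) :=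
      recenter_bdd (bdd_map_zc _) hz
    have hv : ∀ a, valZ (Q.coeff j) (g a (ev (x k) t)) =
        val (recenter z (PowerSeries.map (zc p) (Q.coeff j))) (g a (ev (x k) t) - z) := by
      intro a
      rw [val_recenter (bdd_map_zc _) hz (by rw [hSa a]; exact hr1 k), valZ, add_sub_cancel]
    have hn0 := hb.norm_val hbdd (hr0 k) (hr1 k) (hSa 0)
    have hl := hb.lipschitz hbdd (hr0 k) (hr1 k) (hSa a) (hSa 0)
    rw [← hv, ← hv] at hl
    rw [← hv] at hn0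
    rw [← hn0, sub_sub_sub_cancel_right] at hl
    refine hl.trans (mul_le_mul_of_nonneg_left ?_ (norm_nonneg _))
    rw [div_le_iff₀ (hr0 k)]
    exact hclose a 0

end Pool.Agent.ZPB
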