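import Pool.Agent.ZPB.ClosenessT
import Pool.Agent.ZPB.ClosenessX

/-!
# Module B5c: closeness classes of conjugates

Combinatorial lemma: let `≈` be an equivalence relation on a finite set `S` such that among any `K + 1` elements two
different ones are equivalent. If `|S| > K L` then there are `L + 1` mutually equivalent elements.

Let `D` be the number of images of `z` under isometric automorphisms (`finite_orbit`), `K_T` from `closeness_T`, `K_i` from
`closeness_X`, `K = D K_T ∏ K_i` (replace each by `max 1`). Given `ε`, `closeness_T` gives `ρ`, and `closeness_X` for this `ρ` gives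
`ρ'_i`; the final `ρ` is the maximum of the `ρ'_i` (and of any positive number `< 1`). For large `k` let `g_0, …, g_K` be
given. More than `K_T ∏ K_i` of them have the same value `g_a z`; fix one of them, `g_*`, and put `τ_a = g_*⁻¹ g_a`: isometric,
`τ_a z = z`, `‖τ_a f - f‖ ≤ max(‖g_a f - f‖, ‖f - g_* f‖) ≤ ε ‖f‖`, and `‖τ_a u - τ_b u‖ = ‖g_a u - g_b u‖` for all `u`.
By the combinatorial lemma (the relations `‖τ_a T - τ_b T‖ ≤ ρ ‖T - z‖` and `‖τ_a u_i - τ_b u_i‖ ≤ ρ'_i ‖u_i‖` are equivalence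
relations, ultrametric inequality) more than `∏ K_i` of them are mutually close in the parameter, and then
successively in all coordinates; finally at least two are close in all coordinates.
-/

namespace Pool.Agent.ZPB

open MvPowerSeries

variable {p : ℕ} [Fact p.Prime] {σ : Type} [Fintype σ]

namespace ClosenessAux

/-- the combinatorial lemma -/
theorem pick {ι : Type} [DecidableEq ι] {R : ι → ι → Prop} (hR : Equivalence R) (S : Finset ι)
    (K L : ℕ)
    (h : ∀ f : Fin (K + 1) → ι, Function.Injective f → (∀ a, f a ∈ S) → ∃ a b, a ≠ b ∧ R (f a) (f b))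
    (hS : K * L < S.card) : ∃ S' ⊆ S, L < S'.card ∧ ∀ a ∈ S', ∀ b ∈ S', R a b := by
  classical
  let s : Setoid ι := ⟨R, hR⟩
  let c : ι → Quotient s := fun a => Quotient.mk s a
  have hcard : (S.image c).card ≤ K := by
    by_contra hcon
    push Not at hcon
    obtain ⟨U, hU, hUc⟩ := Finset.exists_subset_card_eq (show K + 1 ≤ (S.image c).card from hcon)
    let e : Fin (K + 1) ≃ U := (finCongr hUc.symm).trans U.equivFin.symm
    have hpre : ∀ a : Fin (K + 1), ∃ x ∈ S, c x = (e a : Quotient s) := by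
      intro a
      have := hU (e a).2
      rwa [Finset.mem_image] at this
    choose f hf1 hf2 using hpre
    have hinj : Function.Injective f := by
      intro a b hab
      apply e.injective
      apply Subtype.ext
      rw [← hf2 a, ← hf2 b, hab]
    obtain ⟨a, b, hab, hr⟩ := h f hinj hf1
    apply hab
    apply e.injective
    apply Subtype.ext
    rw [← hf2 a, ← hf2 b]
    exact Quotient.sound hr
  have h2 : (S.image c).card * L < S.card := lt_of_le_of_lt (Nat.mul_le_mul_right L hcard) hS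
  obtain ⟨y, -, hy⟩ := Finset.exists_lt_card_fiber_of_mul_lt_card_of_maps_to
    (fun a ha => Finset.mem_image_of_mem c ha) h2
  refine ⟨S.filter (fun x => c x = y), Finset.filter_subset _ _, hy, ?_⟩
  intro a ha b hb
  have h3 : c a = c b := (Finset.mem_filter.1 ha).2.trans (Finset.mem_filter.1 hb).2.symm
  exact Quotient.exact h3

theorem close_equiv {ι : Type} (u : ι → ℂ_[p]) {r : ℝ} (hr : 0 ≤ r) :
    Equivalence (fun a b => ‖u a - u b‖ ≤ r) := by
  refine ⟨fun a => ?_, fun {a b} h => ?_, fun {a b c} h1 h2 => ?_⟩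
  · rw [sub_self, norm_zero]
    exact hr
  · rw [norm_sub_rev]
    exact h
  · have : u a - u c = (u a - u b) + (u b - u c) := by ring
    rw [this]
    exact (PadicComplex.isNonarchimedean p _ _).trans (max_le h1 h2)

/-- all coordinates -/
theorem pick_all {ι : Type} [DecidableEq ι] (s : Finset σ) {R : σ → ι → ι → Prop}
    (hR : ∀ i, Equivalence (R i)) (K : σ → ℕ) (S₀ : Finset ι)
    (h : ∀ i, ∀ f : Fin (K i + 1) → ι, Function.Injective f → (∀ a, f a ∈ S₀) →
      ∃ a b, a ≠ b ∧ R i (f a) (f b)) :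
    ∀ S ⊆ S₀, (∏ i ∈ s, K i) < S.card →
      ∃ S' ⊆ S, 1 < S'.card ∧ ∀ a ∈ S', ∀ b ∈ S', ∀ i ∈ s, R i a b := by
  classical
  induction s using Finset.induction_on with
  | empty =>
    intro S _ hc
    rw [Finset.prod_empty] at hc
    exact ⟨S, subset_rfl, hc, fun _ _ _ _ i hi => absurd hi (Finset.notMem_empty i)⟩
  | insert i s hi ih =>
    intro S hS hc
    rw [Finset.prod_insert hi] at hc
    obtain ⟨S1, hS1, hc1, hr1⟩ := pick (hR i) S (K i) _
      (fun f hf hfS => h i f hf fun a => hS (hfS a)) hc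
    obtain ⟨S2, hS2, hc2, hr2⟩ := ih S1 (hS1.trans hS) hc1
    refine ⟨S2, hS2.trans hS1, hc2, fun a ha b hb j hj => ?_⟩
    rcases Finset.mem_insert.1 hj with rfl | hj'
    · exact hr1 a (hS2 ha) b (hS2 hb)
    · exact hr2 a ha b hb j hj'

end ClosenessAux

open ClosenessAux in
theorem closeness {𝔮 : Ideal (RR p σ)} {t : RR p σ} (h : IsCurve 𝔮 t) {x : ℕ → σ → ℂ_[p]}
    (hx : Function.Injective x) (hxz : ∀ k, x k ∈ zer 𝔮) (hxa : ∀ k, AlgPt (x k))
    (hx0 : ∀ k i, x k i ≠ 0) {z : ℂ_[p]} (hz : ‖z‖ < 1) (hza : IsAlgebraic ℚ_[p] z)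
    (hS0 : ∀ k, ev (x k) t ≠ z) (hS : Function.Injective fun k => ‖ev (x k) t - z‖)
    {N M : RR p σ} (hM : M ∉ 𝔮) (hT : Tr 𝔮 N M) (hM0 : ∀ k, ev (x k) M ≠ 0)
    (hN0 : ∀ k, ev (x k) N ≠ 0) (hl : Function.Injective fun k => ‖ev (x k) N / ev (x k) M‖) :
    ∃ K : ℕ, ∀ ε : ℝ, 0 < ε → ε < 1 → ∃ ρ : ℝ, 0 < ρ ∧ ρ < 1 ∧ ∀ᶠ k in Filter.atTop,
      ∀ g : Fin (K + 1) → (ℂ_[p] ≃+* ℂ_[p]), (∀ a, IsIso (g a)) →
        (∀ a, ‖g a (ev (x k) N / ev (x k) M) - ev (x k) N / ev (x k) M‖ ≤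
          ε * ‖ev (x k) N / ev (x k) M‖) →
        ∃ a b, a ≠ b ∧ ∀ i, ‖g a (x k i) - g b (x k i)‖ ≤ ρ * ‖x k i‖ := by
  classical
  obtain ⟨KT, hKT⟩ := closeness_T h hx hxz hxa hz hS0 hS hM hT hM0 hN0 hl
  choose KX hKX using fun i => closeness_X h hxz hx0 hz hS0 hS i
  set D : ℕ := (finite_orbit hza).toFinset.card with hD
  refine ⟨D * (KT * ∏ i, KX i), fun ε hε0 hε1 => ?_⟩
  obtain ⟨ρT, hρT0, hρT1, hevT⟩ := hKT ε hε0 hε1
  choose ρX hρX0 hρX1 hevX using fun i => hKX i ρT hρT0 hρT1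
  -- the final radius
  obtain ⟨ρ, hρ0, hρ1, hρ⟩ : ∃ ρ : ℝ, 0 < ρ ∧ ρ < 1 ∧ ∀ i, ρX i ≤ ρ := by
    have hne : (insert (1 / 2 : ℝ) (Finset.univ.image ρX)).Nonempty := Finset.insert_nonempty _ _
    refine ⟨(insert (1 / 2 : ℝ) (Finset.univ.image ρX)).max' hne, ?_, ?_, ?_⟩
    · exact lt_of_lt_of_le (by norm_num) (Finset.le_max' _ _ (Finset.mem_insert_self (1 / 2 : ℝ) _))
    · rcases Finset.mem_insert.1 (Finset.max'_mem _ hne) with h1 | h1
      · rw [h1]
        norm_num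
      · obtain ⟨i, -, hi⟩ := Finset.mem_image.1 h1
        rw [← hi]
        exact hρX1 i
    · intro i
      exact Finset.le_max' _ _ (Finset.mem_insert_of_mem
        (Finset.mem_image_of_mem _ (Finset.mem_univ i)))
  refine ⟨ρ, hρ0, hρ1, ?_⟩
  have hevX' : ∀ᶠ k in Filter.atTop, ∀ i : σ, ∀ g : Fin (KX i + 1) → (ℂ_[p] ≃+* ℂ_[p]),
      (∀ a, IsIso (g a)) → (∀ a, g a z = z) →
        (∀ a b, ‖g a (ev (x k) t) - g b (ev (x k) t)‖ ≤ ρT * ‖ev (x k) t - z‖) →
        ∃ a b, a ≠ b ∧ ‖g a (x k i) - g b (x k i)‖ ≤ ρX i * ‖x k i‖ :=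
    Filter.eventually_all.2 hevX
  filter_upwards [hevT, hevX'] with k hkT hkX
  intro g hg hgf
  -- same value at `z`
  obtain ⟨y, -, hy⟩ := Finset.exists_lt_card_fiber_of_mul_lt_card_of_maps_to
    (s := (Finset.univ : Finset (Fin (D * (KT * ∏ i, KX i) + 1)))) (f := fun a => g a z)
    (t := (finite_orbit hza).toFinset) (n := KT * ∏ i, KX i)
    (fun a _ => by
      rw [Set.Finite.mem_toFinset]
      exact ⟨g a, hg a, rfl⟩)
    (by rw [Finset.card_univ, Fintype.card_fin]; exact Nat.lt_succ_self _)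
  set S1 : Finset (Fin (D * (KT * ∏ i, KX i) + 1)) :=
    Finset.univ.filter (fun a => g a z = y) with hS1
  have hz1 : ∀ a ∈ S1, g a z = y := fun a ha => (Finset.mem_filter.1 ha).2
  obtain ⟨o, ho⟩ : S1.Nonempty := Finset.card_pos.1 (lt_of_le_of_lt (Nat.zero_le _) hy)
  let τ : Fin (D * (KT * ∏ i, KX i) + 1) → (ℂ_[p] ≃+* ℂ_[p]) := fun a => (g a).trans (g o).symm
  have hτ : ∀ a u, τ a u = (g o).symm (g a u) := fun a u => rfl
  have hgs : ∀ u, ‖(g o).symm u‖ = ‖u‖ := by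
    intro u
    conv_rhs => rw [← (g o).apply_symm_apply u]
    exact (hg o _).symm
  have hτiso : ∀ a, IsIso (τ a) := by
    intro a u
    rw [hτ, hgs, hg a]
  have hτz : ∀ a ∈ S1, τ a z = z := by
    intro a ha
    rw [hτ, hz1 a ha, ← hz1 o ho, RingEquiv.symm_apply_apply]
  have hτd : ∀ a b u, ‖τ a u - τ b u‖ = ‖g a u - g b u‖ := by
    intro a b u
    rw [hτ, hτ, ← map_sub, hgs]
  have hτf : ∀ a, ‖τ a (ev (x k) N / ev (x k) M) - ev (x k) N / ev (x k) M‖ ≤
      ε * ‖ev (x k) N / ev (x k) M‖ := by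
    intro a
    set f := ev (x k) N / ev (x k) M with hf
    have h1 : τ a f - f = (g o).symm (g a f - g o f) := by
      rw [map_sub, hτ, RingEquiv.symm_apply_apply]
    rw [h1, hgs]
    have h2 : g a f - g o f = (g a f - f) + (f - g o f) := by ring
    rw [h2]
    refine (PadicComplex.isNonarchimedean p _ _).trans (max_le (hgf a) ?_)
    rw [norm_sub_rev]
    exact hgf o
  -- close parameters
  obtain ⟨S2, hS21, hc2, hr2⟩ := pick
    (close_equiv (fun a => τ a (ev (x k) t)) (mul_nonneg hρT0.le (norm_nonneg (ev (x k) t - z))))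
    S1 KT (∏ i, KX i)
    (fun f _ hfS => hkT (fun a => τ (f a)) (fun a => hτiso _) (fun a => hτz _ (hfS a))
      (fun a => hτf _)) hy
  -- close coordinates
  obtain ⟨S3, -, hc3, hr3⟩ := pick_all (Finset.univ : Finset σ)
    (R := fun i a b => ‖τ a (x k i) - τ b (x k i)‖ ≤ ρX i * ‖x k i‖)
    (fun i => close_equiv (fun a => τ a (x k i)) (mul_nonneg (hρX0 i).le (norm_nonneg _)))
    KX S2
    (fun i f _ hfS => hkX i (fun a => τ (f a)) (fun a => hτiso _)
      (fun a => hτz _ (hS21 (hfS a))) (fun a b => hr2 _ (hfS a) _ (hfS b)))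
    S2 subset_rfl hc2
  obtain ⟨a, ha, b, hb, hab⟩ := Finset.one_lt_card.1 hc3
  refine ⟨a, b, hab, fun i => ?_⟩
  rw [← hτd]
  exact (hr3 a ha b hb i (Finset.mem_univ i)).trans
    (mul_le_mul_of_nonneg_right (hρ i) (norm_nonneg _))

end Pool.Agent.ZPB
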