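import Pool.Agent.ZPB.CurveMin
import Pool.Agent.ZPB.CurveZero

/-!
# Module C5: uniform fibre bound

Let `f = N/M` be transcendental. Take `P` from `minpoly_tr` and `m` from `exists_isW_fam`. A point `z ∈ zer 𝔮` with
`ev z M ≠ 0` and `ev z N = lam * ev z M` satisfies `val (fam P lam) (ev z t) = 0` (`ev_hg`), and `fam P lam` is
`IsW` of degree `≤ m`, so `ev z t` takes at most `m` values (`IsW.finite_zeros`), each for at most `B` points
(`fibre_t`). So the bound is `m B`.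
-/

namespace Pool.Agent.ZPB

open MvPowerSeries

variable {p : ℕ} [Fact p.Prime] {σ : Type} [Fintype σ]

theorem IsCurve.fibre {𝔮 : Ideal (RR p σ)} {t : RR p σ} (h : IsCurve 𝔮 t)
    {N M : RR p σ} (hM : M ∉ 𝔮) (hT : Tr 𝔮 N M) :
    ∃ B : ℕ, ∀ lam : ℂ_[p], IsAlgebraic ℚ_[p] lam → ∀ Z : Finset (σ → ℂ_[p]),
      (∀ z ∈ Z, z ∈ zer 𝔮 ∧ ev z M ≠ 0 ∧ ev z N = lam * ev z M) → Z.card ≤ B := by
  classical
  obtain ⟨P, _, hP, hfam⟩ := h.minpoly_tr hM hT
  obtain ⟨m, hm⟩ := exists_isW_fam P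
  obtain ⟨B, hB⟩ := h.fibre_t
  refine ⟨B * m, fun lam hlam Z hZ => ?_⟩
  obtain ⟨n, hnm, hW⟩ := hm lam (hfam lam hlam)
  have h1 : (Z.image fun z => ev z t).card ≤ m := by
    refine (hW.finite_zeros _ ?_).trans hnm
    intro s hs
    obtain ⟨z, hz, rfl⟩ := Finset.mem_image.1 hs
    obtain ⟨hz1, hz2, hz3⟩ := hZ z hz
    refine ⟨norm_ev_lt hz1.1 h.t0, ?_⟩
    have h2 := ev_hg hz1.1 h.t0 P (N := N) hz2
    rw [hz1.2 _ hP, hz3, mul_div_cancel_right₀ _ hz2] at h2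
    rcases mul_eq_zero.1 h2.symm with h3 | h3
    · exact absurd h3 (pow_ne_zero _ hz2)
    · exact h3
  have h4 : Z.card ≤ B * (Z.image fun z => ev z t).card := by
    refine Finset.card_le_mul_card_image Z B ?_
    intro s _
    refine hB s _ ?_
    intro z hz
    rw [Finset.mem_filter] at hz
    exact ⟨(hZ z hz.1).1, hz.2⟩
  exact h4.trans (Nat.mul_le_mul_left B h1)

end Pool.Agent.ZPB
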