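import Pool.Agent.ZPB.Deriv
import Pool.Agent.ZPB.Fibre

/-!
# Module P0: monomials and their logarithmic derivatives

`UU e z = ev z (upos p e) / ev z (uneg p e)` if all `z_i ≠ 0`. In a field `L` with a derivation `D`, the element
`U = ι(upos e)/ι(uneg e)` has `D U / U = ∑ e_i D(ι X_i)/ι X_i`. If this is nonzero for a continuous derivation `D`
then `U` is transcendental over `ℤ_p` (`D` kills `ι (C a)` by `IsCont.C`, hence, in characteristic 0, everything
algebraic over `ℤ_p`). By `DlogIndep` this holds for every `e ≠ 0`.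
-/

namespace Pool.Agent.ZPB

open MvPowerSeries

variable {p : ℕ} [Fact p.Prime] {σ : Type} [Fintype σ] {L : Type} [Field L]

theorem ev_upos {z : σ → ℂ_[p]} (hz : Disc z) (e : σ → ℤ) :
    ev z (upos p e) = ∏ i, z i ^ (e i).toNat := by
  rw [← evHom_apply hz, upos, map_prod]
  refine Finset.prod_congr rfl fun i _ => ?_
  rw [map_pow, evHom_apply, ev_X]

theorem ev_uneg {z : σ → ℂ_[p]} (hz : Disc z) (e : σ → ℤ) :
    ev z (uneg p e) = ∏ i, z i ^ (-(e i)).toNat := by
  rw [← evHom_apply hz, uneg, map_prod]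
  refine Finset.prod_congr rfl fun i _ => ?_
  rw [map_pow, evHom_apply, ev_X]

/-- an integer power as a quotient of natural powers -/
lemma zpow_toNat_m {E : Type} [Field E] {x : E} (hx : x ≠ 0) (n : ℤ) :
    x ^ n = x ^ n.toNat / x ^ (-n).toNat := by
  rw [← zpow_natCast, ← zpow_natCast, ← zpow_sub₀ hx]
  congr 1
  omega

theorem UU_eq {z : σ → ℂ_[p]} (hz : Disc z) (h0 : ∀ i, z i ≠ 0) (e : σ → ℤ) :
    UU e z = ev z (upos p e) / ev z (uneg p e) := by
  rw [ev_upos hz, ev_uneg hz, UU, ← Finset.prod_div_distrib]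
  exact Finset.prod_congr rfl fun i _ => zpow_toNat_m (h0 i) _

theorem UU_iso (e : σ → ℤ) (z : σ → ℂ_[p]) (g : ℂ_[p] ≃+* ℂ_[p]) :
    UU e (fun i => g (z i)) = g (UU e z) := by
  rw [UU, UU, map_prod]
  exact Finset.prod_congr rfl fun i _ => (map_zpow₀ g _ _).symm

theorem algebraic_UU {z : σ → ℂ_[p]} (hz : AlgPt z) (e : σ → ℤ) : IsAlgebraic ℚ_[p] (UU e z) := by
  have h1 : ∀ i, z i ^ e i ∈ (algebraicClosure ℚ_[p] ℂ_[p]) := fun i =>
    zpow_mem (mem_algebraicClosure_iff.2 (hz i)) _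
  exact mem_algebraicClosure_iff.1 (prod_mem fun i _ => h1 i)

theorem uneg_notMem {𝔮 : Ideal (RR p σ)} (hq : 𝔮.IsPrime) (hX : ∀ i, (X i : RR p σ) ∉ 𝔮) (e : σ → ℤ) :
    uneg p e ∉ 𝔮 ∧ upos p e ∉ 𝔮 := by
  constructor
  · rw [uneg, hq.prod_mem_iff]
    rintro ⟨i, _, hi⟩
    exact hX i (hq.mem_of_pow_mem _ hi)
  · rw [upos, hq.prod_mem_iff]
    rintro ⟨i, _, hi⟩
    exact hX i (hq.mem_of_pow_mem _ hi)

section der

variable {D : L → L}

lemma IsDer.zero_m (hD : IsDer D) : D 0 = 0 := by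
  have h := hD.1 0 0
  rw [add_zero] at h
  exact left_eq_add.1 h

lemma IsDer.one_m (hD : IsDer D) : D 1 = 0 := by
  have h := hD.2 1 1
  rw [mul_one, one_mul, mul_one] at h
  exact left_eq_add.1 h

lemma IsDer.natCast_m (hD : IsDer D) (n : ℕ) : D (n : L) = 0 := by
  induction n with
  | zero => rw [Nat.cast_zero, hD.zero_m]
  | succ n ih => rw [Nat.cast_succ, hD.1, ih, hD.one_m, add_zero]

lemma IsDer.neg_m (hD : IsDer D) (x : L) : D (-x) = - D x := by
  have h := hD.1 x (-x)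
  rw [add_neg_cancel, hD.zero_m] at h
  exact (neg_eq_of_add_eq_zero_right h.symm).symm

lemma IsDer.intCast_m (hD : IsDer D) (n : ℤ) : D (n : L) = 0 := by
  obtain ⟨m, rfl | rfl⟩ := n.eq_nat_or_neg
  · rw [Int.cast_natCast, hD.natCast_m]
  · rw [Int.cast_neg, Int.cast_natCast, hD.neg_m, hD.natCast_m, neg_zero]

lemma IsDer.log_mul_m (hD : IsDer D) {x y : L} (hx : x ≠ 0) (hy : y ≠ 0) :
    D (x * y) / (x * y) = D x / x + D y / y := by
  rw [hD.2]
  field_simp

lemma IsDer.log_pow_m (hD : IsDer D) {x : L} (hx : x ≠ 0) (n : ℕ) :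
    D (x ^ n) / x ^ n = n * (D x / x) := by
  induction n with
  | zero => rw [pow_zero, hD.one_m, zero_div, Nat.cast_zero, zero_mul]
  | succ n ih =>
    rw [pow_succ, hD.log_mul_m (pow_ne_zero n hx) hx, ih]
    push_cast
    ring

lemma IsDer.log_div_m (hD : IsDer D) {x y : L} (hx : x ≠ 0) (hy : y ≠ 0) :
    D (x / y) / (x / y) = D x / x - D y / y := by
  have h := hD.log_mul_m (div_ne_zero hx hy) hy
  rw [div_mul_cancel₀ x hy] at h
  rw [h]
  ring

lemma IsDer.log_prod_m (hD : IsDer D) {κ : Type} (s : Finset κ) (g : κ → L) (hg : ∀ i, g i ≠ 0) :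
    D (∏ i ∈ s, g i) / ∏ i ∈ s, g i = ∑ i ∈ s, D (g i) / g i := by
  classical
  induction s using Finset.induction_on with
  | empty => rw [Finset.prod_empty, Finset.sum_empty, hD.one_m, zero_div]
  | insert a s ha ih =>
    rw [Finset.prod_insert ha, Finset.sum_insert ha,
      hD.log_mul_m (hg a) (Finset.prod_ne_zero_iff.2 fun i _ => hg i), ih]

end der

lemma der_eval₂_m {ι : RR p σ →+* L} {D : L → L} (hD : IsDer D) (hc : IsCont ι D) (x : L)
    (P : Polynomial ℤ_[p]) : D (P.eval₂ (ι.comp MvPowerSeries.C) x) =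
      P.derivative.eval₂ (ι.comp MvPowerSeries.C) x * D x := by
  induction P using Polynomial.induction_on' with
  | add P Q hP hQ =>
    rw [Polynomial.eval₂_add, hD.1, hP, hQ, Polynomial.derivative_add, Polynomial.eval₂_add,
      add_mul]
  | monomial n a =>
    rw [Polynomial.eval₂_monomial, hD.2, RingHom.comp_apply, hc.C, zero_mul, zero_add,
      Polynomial.derivative_monomial, Polynomial.eval₂_monomial, map_mul, map_natCast]
    rcases eq_or_ne x 0 with rfl | hx
    · rcases n with _ | n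
      · rw [pow_zero, hD.one_m]
        simp
      · rcases n with _ | n
        · simp
        · rw [zero_pow (by omega), hD.zero_m]
          simp
    · have h := hD.log_pow_m hx n
      rw [div_eq_iff (pow_ne_zero n hx)] at h
      rw [h]
      rcases n with _ | n
      · simp
      · rw [Nat.add_sub_cancel, RingHom.comp_apply]
        field_simp
        ring

/-- derivations kill elements algebraic over `ℤ_p` -/
theorem deriv_eq_zero_of_algebraic [CharZero L] {ι : RR p σ →+* L} {D : L → L} (hD : IsDer D)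
    (hc : IsCont ι D) {x : L} {P : Polynomial ℤ_[p]} (hP : P ≠ 0)
    (hinj : Function.Injective (ι.comp (MvPowerSeries.C : ℤ_[p] →+* RR p σ)))
    (hx : P.eval₂ (ι.comp MvPowerSeries.C) x = 0) : D x = 0 := by
  by_contra hDx
  have key : ∀ (n : ℕ) (P : Polynomial ℤ_[p]), P.natDegree = n → P ≠ 0 →
      P.eval₂ (ι.comp MvPowerSeries.C) x ≠ 0 := by
    intro n
    induction n using Nat.strong_induction_on with
    | _ n ih =>
      intro P hPn hP h0
      have h1 := der_eval₂_m hD hc x P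
      rw [h0, hD.zero_m] at h1
      rcases mul_eq_zero.1 h1.symm with h2 | h2
      · rcases Nat.eq_zero_or_pos n with hn | hn
        · rw [hn] at hPn
          rw [Polynomial.eq_C_of_natDegree_eq_zero hPn, Polynomial.eval₂_C] at h0
          have h3 : P.coeff 0 = 0 := hinj (by rw [h0, map_zero])
          apply hP
          rw [Polynomial.eq_C_of_natDegree_eq_zero hPn, h3, Polynomial.C_0]
        · have h3 : P.derivative ≠ 0 := by
            intro h4
            have := Polynomial.derivative_eq_zero.1 h4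
            omega
          exact ih P.derivative.natDegree
            (by rw [← hPn]; exact Polynomial.natDegree_derivative_lt (by omega)) _ rfl h3 h2
      · exact hDx h2
  exact key _ P rfl hP hx

lemma map_hg_m {𝔮 : Ideal (RR p σ)} {ι : RR p σ →+* L} (hι : IsFF 𝔮 ι) {N M : RR p σ} (hM : M ∉ 𝔮)
    (P : Polynomial ℤ_[p]) : ι (hg (fun a => (C a : RR p σ)) P N M) =
      ι M ^ P.natDegree * P.eval₂ (ι.comp MvPowerSeries.C) (ι N / ι M) := by
  have hM0 : ι M ≠ 0 := fun h => hM ((hι.ker M).1 h)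
  rw [hg, map_sum, Polynomial.eval₂_eq_sum_range, Finset.mul_sum]
  refine Finset.sum_congr rfl fun j hj => ?_
  have hj' : j ≤ P.natDegree := Nat.lt_succ_iff.1 (Finset.mem_range.1 hj)
  rw [map_mul, map_mul, map_pow, map_pow, RingHom.comp_apply]
  have h1 : ι M ^ P.natDegree = ι M ^ (P.natDegree - j) * ι M ^ j := by
    rw [← pow_add, Nat.sub_add_cancel hj']
  rw [h1, div_pow]
  field_simp

/-- `Tr 𝔮 N M` says that `ι N / ι M` is transcendental over `ℤ_p`. -/
theorem tr_iff {𝔮 : Ideal (RR p σ)} {ι : RR p σ →+* L} (hι : IsFF 𝔮 ι) {N M : RR p σ} (hM : M ∉ 𝔮) :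
    Tr 𝔮 N M ↔ ∀ P : Polynomial ℤ_[p], P ≠ 0 → P.eval₂ (ι.comp MvPowerSeries.C) (ι N / ι M) ≠ 0 := by
  have hM0 : ι M ≠ 0 := fun h => hM ((hι.ker M).1 h)
  refine forall_congr' fun P => forall_congr' fun hP => ?_
  rw [← hι.ker, map_hg_m hι hM, mul_eq_zero, not_or]
  exact ⟨fun h => h.2, fun h => ⟨pow_ne_zero _ hM0, h⟩⟩

theorem logDeriv_monomial {ι : RR p σ →+* L} {D : L → L} (hD : IsDer D) (hX : ∀ i, ι (X i) ≠ 0)
    (e : σ → ℤ) : D (ι (upos p e) / ι (uneg p e)) =
      (ι (upos p e) / ι (uneg p e)) * ∑ i, (e i : L) * (D (ι (X i)) / ι (X i)) := by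
  have h1 : ι (upos p e) = ∏ i, ι (X i) ^ (e i).toNat := by
    rw [upos, map_prod]
    exact Finset.prod_congr rfl fun i _ => map_pow _ _ _
  have h2 : ι (uneg p e) = ∏ i, ι (X i) ^ (-(e i)).toNat := by
    rw [uneg, map_prod]
    exact Finset.prod_congr rfl fun i _ => map_pow _ _ _
  have h3 : ι (upos p e) ≠ 0 := by
    rw [h1]
    exact Finset.prod_ne_zero_iff.2 fun i _ => pow_ne_zero _ (hX i)
  have h4 : ι (uneg p e) ≠ 0 := by
    rw [h2]
    exact Finset.prod_ne_zero_iff.2 fun i _ => pow_ne_zero _ (hX i)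
  have h5 := hD.log_div_m h3 h4
  rw [div_eq_iff (div_ne_zero h3 h4)] at h5
  rw [h5, mul_comm]
  congr 1
  rw [h1, h2, hD.log_prod_m _ _ (fun i => pow_ne_zero _ (hX i)),
    hD.log_prod_m _ _ (fun i => pow_ne_zero _ (hX i)), ← Finset.sum_sub_distrib]
  refine Finset.sum_congr rfl fun i _ => ?_
  rw [hD.log_pow_m (hX i), hD.log_pow_m (hX i), ← sub_mul]
  congr 1
  have h6 : ((e i).toNat : ℤ) - ((-(e i)).toNat : ℤ) = e i := by omega
  have h7 := congrArg (Int.cast : ℤ → L) h6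
  push_cast at h7
  exact h7

lemma comp_C_injective_m {𝔮 : Ideal (RR p σ)} (hq : 𝔮.IsPrime) (hp : (p : RR p σ) ∉ 𝔮)
    {ι : RR p σ →+* L} (hι : IsFF 𝔮 ι) :
    Function.Injective (ι.comp (MvPowerSeries.C : ℤ_[p] →+* RR p σ)) := by
  rw [injective_iff_map_eq_zero]
  intro a ha
  by_contra ha0
  rw [RingHom.comp_apply, hι.ker, PadicInt.unitCoeff_spec ha0, map_mul, map_pow, map_natCast] at ha
  have hu : IsUnit (MvPowerSeries.C (PadicInt.unitCoeff ha0 : ℤ_[p]) : RR p σ) :=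
    (PadicInt.unitCoeff ha0).isUnit.map _
  rcases hq.mem_or_mem ha with h1 | h1
  · exact hq.ne_top (Ideal.eq_top_of_isUnit_mem _ h1 hu)
  · exact hp (hq.mem_of_pow_mem _ h1)

/-- powers of nonconstant monomials are transcendental -/
theorem tr_monomial {𝔮 : Ideal (RR p σ)} {t : RR p σ} (h : IsCurve 𝔮 t) (hinf : (zer 𝔮).Infinite)
    {ι : RR p σ →+* L} (hι : IsFF 𝔮 ι) (hX : ∀ i, (X i : RR p σ) ∉ 𝔮) (hD : DlogIndep ι)
    {e : σ → ℤ} (he : e ≠ 0) {A : ℕ} (hA : 0 < A) : Tr 𝔮 (upos p e ^ A) (uneg p e ^ A) := by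
  have hchar : CharZero L := hι.charZero h.p_notMem
  obtain ⟨D, hD1, hD2, hD3, -⟩ := exists_deriv h hinf hι
  have hm := uneg_notMem h.prime hX e
  have hX' : ∀ i, ι (X i) ≠ 0 := fun i hi => hX i ((hι.ker _).1 hi)
  have hu0 : ι (upos p e) ≠ 0 := fun hi => hm.2 ((hι.ker _).1 hi)
  have hn0 : ι (uneg p e) ≠ 0 := fun hi => hm.1 ((hι.ker _).1 hi)
  rw [tr_iff hι (fun h1 => hm.1 (h.prime.mem_of_pow_mem _ h1))]
  intro P hP h0
  rw [map_pow, map_pow, ← div_pow] at h0
  have h1 := deriv_eq_zero_of_algebraic hD1 hD2 hP (comp_C_injective_m h.prime h.p_notMem hι) h0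
  have hy : ι (upos p e) / ι (uneg p e) ≠ 0 := div_ne_zero hu0 hn0
  have h2 := hD1.log_pow_m hy A
  rw [h1, zero_div, logDeriv_monomial hD1 hX', mul_div_cancel_left₀ _ hy] at h2
  have h3 : ∑ i, (e i : L) * (D (ι (X i)) / ι (X i)) = 0 := by
    rcases mul_eq_zero.1 h2.symm with h4 | h4
    · exact absurd (Nat.cast_eq_zero.1 h4) hA.ne'
    · exact h4
  have h4 := hD D hD1 hD2 ⟨ι t, by rw [hD3]; exact one_ne_zero⟩ (fun i => (e i : L))
    (fun i => hD1.intCast_m _) h3
  apply he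
  funext i
  have h5 := congrFun h4 i
  exact Int.cast_eq_zero.1 h5

end Pool.Agent.ZPB
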