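import Pool.Agent.ZPB.Defs

/-!
# Module G1: norms of roots of unity in `ℂ_p`

* `norm_sub_eq_one`: distinct `m`-th roots of unity, `p ∤ m`, have distance one: `ζ = ω'/ω ≠ 1` is an
  `m`-th root of unity and `∏_{ζ^m = 1, ζ ≠ 1} (1 - ζ) = m` has norm one, each factor has norm `≤ 1`.
* `norm_prim_sub_one`: `∏_{primitive} (1 - η) = p` over the `φ(p^e)` primitive `p^e`-th roots of unity, all
  factors have the same norm (`(1 - η^s)/(1 - η)` and its inverse are integral).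
* `exists_split`: write the order as `m p^e` with `p ∤ m` and use Bezout.
* `pow_eq_one_of_near`: if `ζ^N = 1` and `‖ζ - 1‖ ≤ ρ < 1`, split `ζ = ω η`; `‖ω - 1‖ < 1` (because
  `‖η - 1‖ < 1`), so `ω = 1`; and `η` of exact order `p^e` has `‖η - 1‖ = p^(-1/φ(p^e)) > ρ` for `e` large.
* `tendsto_pow`: `‖y - 1‖ ≤ ρ` implies `‖y^p - 1‖ ≤ max(ρ^p, ρ/p) ≤ c ρ`, `c = max(ρ^(p-1), 1/p) < 1`.
  Iterate.
-/

namespace Pool.Agent.ZPB

variable {p : ℕ} [Fact p.Prime]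

theorem norm_of_pow_eq_one {x : ℂ_[p]} {n : ℕ} (hn : 0 < n) (h : x ^ n = 1) : ‖x‖ = 1 := by
  have h1 : ‖x‖ ^ n = 1 := by rw [← norm_pow, h, norm_one]
  exact (pow_eq_one_iff_of_nonneg (norm_nonneg _) hn.ne').1 h1

theorem norm_p_eq : ‖(p : ℂ_[p])‖ = (p : ℝ)⁻¹ := by
  have h : ((algebraMap ℚ_[p] (PadicAlgCl p) (p : ℚ_[p]) : PadicAlgCl p) : ℂ_[p]) = (p : ℂ_[p]) := by
    rw [map_natCast, PadicComplex.coe_natCast]
  rw [← h]
  have h2 := PadicComplex.norm_extends' p (p : ℚ_[p])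
  rw [Padic.norm_p] at h2
  exact h2

theorem norm_natCast_eq_one {m : ℕ} (hpm : ¬ p ∣ m) : ‖(m : ℂ_[p])‖ = 1 := by
  have hp : p.Prime := Fact.out
  have hco : Nat.Coprime m p := ((Nat.Prime.coprime_iff_not_dvd hp).2 hpm).symm
  obtain ⟨u, v, huv⟩ := Nat.isCoprime_iff_coprime.2 hco
  have h1 : (u : ℂ_[p]) * (m : ℂ_[p]) + (v : ℂ_[p]) * (p : ℂ_[p]) = 1 := by
    have := congrArg (fun z : ℤ => (z : ℂ_[p])) huv
    push_cast at this
    exact this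
  have hm1 : ‖(m : ℂ_[p])‖ ≤ 1 := IsUltrametricDist.norm_natCast_le_one _ m
  refine le_antisymm hm1 ?_
  by_contra hlt
  push Not at hlt
  have hu : ‖(u : ℂ_[p])‖ ≤ 1 := IsUltrametricDist.norm_intCast_le_one _ u
  have hv : ‖(v : ℂ_[p])‖ ≤ 1 := IsUltrametricDist.norm_intCast_le_one _ v
  have hpn : ‖(p : ℂ_[p])‖ < 1 := by
    rw [norm_p_eq]
    exact inv_lt_one_of_one_lt₀ (by exact_mod_cast hp.one_lt)
  have h2 : ‖(1 : ℂ_[p])‖ ≤ max ‖(u : ℂ_[p]) * (m : ℂ_[p])‖ ‖(v : ℂ_[p]) * (p : ℂ_[p])‖ := by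
    rw [← h1]
    exact IsUltrametricDist.norm_add_le_max _ _
  rw [norm_one, norm_mul, norm_mul] at h2
  have h3 : ‖(u : ℂ_[p])‖ * ‖(m : ℂ_[p])‖ < 1 :=
    lt_of_le_of_lt (mul_le_of_le_one_left (norm_nonneg _) hu) hlt
  have h4 : ‖(v : ℂ_[p])‖ * ‖(p : ℂ_[p])‖ < 1 :=
    lt_of_le_of_lt (mul_le_of_le_one_left (norm_nonneg _) hv) hpn
  exact absurd h2 (not_le.2 (max_lt h3 h4))

theorem norm_sum_le_of_forall {ι : Type*} (s : Finset ι) (f : ι → ℂ_[p]) {C : ℝ} (hC : 0 ≤ C)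
    (h : ∀ i ∈ s, ‖f i‖ ≤ C) : ‖∑ i ∈ s, f i‖ ≤ C :=
  IsUltrametricDist.norm_sum_le_of_forall_le_of_nonneg hC h

theorem norm_pow_sub_one_le {x : ℂ_[p]} (hx : ‖x‖ ≤ 1) (k : ℕ) : ‖x ^ k - 1‖ ≤ ‖x - 1‖ := by
  have h1 : x ^ k - 1 = (∑ i ∈ Finset.range k, x ^ i) * (x - 1) := (geom_sum_mul x k).symm
  rw [h1, norm_mul]
  refine mul_le_of_le_one_left (norm_nonneg _) ?_
  refine norm_sum_le_of_forall _ _ zero_le_one fun i _ => ?_
  rw [norm_pow]
  exact pow_le_one₀ (norm_nonneg _) hx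

theorem norm_sub_le_max' (a b : ℂ_[p]) : ‖a - b‖ ≤ max ‖a‖ ‖b‖ := by
  have := IsUltrametricDist.norm_add_le_max a (-b)
  rwa [norm_neg, ← sub_eq_add_neg] at this

theorem norm_sub_one_eq_one {m : ℕ} (hm : 0 < m) (hpm : ¬ p ∣ m) {z : ℂ_[p]} (hz : z ^ m = 1)
    (hz1 : z ≠ 1) : ‖z - 1‖ = 1 := by
  have hn : ‖z‖ = 1 := norm_of_pow_eq_one hm hz
  refine le_antisymm ?_ ?_
  · have := norm_sub_le_max' z 1
    rwa [hn, norm_one, max_self] at this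
  · have h1 : (∑ i ∈ Finset.range m, z ^ i) * (z - 1) = 0 := by
      rw [geom_sum_mul, hz, sub_self]
    have h2 : ∑ i ∈ Finset.range m, z ^ i = 0 :=
      (mul_eq_zero.1 h1).resolve_right (sub_ne_zero.2 hz1)
    have h3 : ∑ i ∈ Finset.range m, (z ^ i - 1) = -(m : ℂ_[p]) := by
      rw [Finset.sum_sub_distrib, h2, Finset.sum_const, Finset.card_range, nsmul_eq_mul]
      ring
    have h4 : ‖∑ i ∈ Finset.range m, (z ^ i - 1)‖ ≤ ‖z - 1‖ :=
      norm_sum_le_of_forall _ _ (norm_nonneg _) fun i _ => norm_pow_sub_one_le hn.le i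
    rw [h3, norm_neg, norm_natCast_eq_one hpm] at h4
    exact h4

theorem norm_sub_eq_one {m : ℕ} (hm : 0 < m) (hpm : ¬ p ∣ m) {a b : ℂ_[p]} (ha : a ^ m = 1)
    (hb : b ^ m = 1) (hab : a ≠ b) : ‖a - b‖ = 1 := by
  have hbn : ‖b‖ = 1 := norm_of_pow_eq_one hm hb
  have hb0 : b ≠ 0 := by
    intro h
    rw [h, norm_zero] at hbn
    exact zero_ne_one hbn
  have h1 : (a / b) ^ m = 1 := by rw [div_pow, ha, hb, div_one]
  have h2 : a / b ≠ 1 := fun h => hab ((div_eq_one_iff_eq hb0).1 h)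
  have h3 := norm_sub_one_eq_one hm hpm h1 h2
  have h4 : a - b = (a / b - 1) * b := by field_simp
  rw [h4, norm_mul, h3, hbn, one_mul]

/-- the binomial formula for `(1 + u)^p` -/
theorem norm_add_one_pow_sub {u : ℂ_[p]} (hu : ‖u‖ ≤ 1) :
    ‖(u + 1) ^ p - 1 - u ^ p‖ ≤ (p : ℝ)⁻¹ * ‖u‖ := by
  have hp : p.Prime := Fact.out
  have h := add_pow_prime_eq hp u (1 : ℂ_[p])
  have h1 : (u + 1) ^ p - 1 - u ^ p = (p : ℂ_[p]) * u *
      ∑ k ∈ Finset.Ioo 0 p, u ^ (k - 1) * 1 ^ (p - k - 1) * ((p.choose k / p : ℕ) : ℂ_[p]) := by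
    rw [h, one_pow]
    ring
  rw [h1, norm_mul, norm_mul, norm_p_eq]
  refine mul_le_of_le_one_right (by positivity) ?_
  refine norm_sum_le_of_forall _ _ zero_le_one fun k _ => ?_
  rw [one_pow, mul_one, norm_mul, norm_pow]
  exact mul_le_one₀ (pow_le_one₀ (norm_nonneg _) hu) (norm_nonneg _)
    (IsUltrametricDist.norm_natCast_le_one _ _)

theorem norm_sub_one_lt {x : ℂ_[p]} {e : ℕ} (h : x ^ (p ^ e) = 1) : ‖x - 1‖ < 1 := by
  have hp : p.Prime := Fact.out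
  induction e generalizing x with
  | zero =>
    rw [pow_zero, pow_one] at h
    rw [h, sub_self, norm_zero]
    exact one_pos
  | succ e ih =>
    have hx : ‖x‖ = 1 := norm_of_pow_eq_one (pow_pos hp.pos _) h
    have h1 : (x ^ p) ^ (p ^ e) = 1 := by rw [← pow_mul, ← pow_succ', h]
    have h2 := ih h1
    have hu : ‖x - 1‖ ≤ 1 := by
      have := norm_sub_le_max' x 1
      rwa [hx, norm_one, max_self] at this
    have h3 := norm_add_one_pow_sub hu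
    rw [sub_add_cancel] at h3
    have h4 : ‖(x - 1) ^ p‖ < 1 := by
      have e1 : (x - 1) ^ p = (x ^ p - 1) - (x ^ p - 1 - (x - 1) ^ p) := by ring
      rw [e1]
      refine lt_of_le_of_lt (norm_sub_le_max' _ _) (max_lt h2 ?_)
      refine lt_of_le_of_lt h3 ?_
      have h5 : (p : ℝ)⁻¹ < 1 := inv_lt_one_of_one_lt₀ (by exact_mod_cast hp.one_lt)
      exact lt_of_le_of_lt (mul_le_of_le_one_right (by positivity) hu) h5
    rw [norm_pow] at h4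
    by_contra hlt
    push Not at hlt
    exact absurd h4 (not_lt.2 (one_le_pow₀ hlt))

theorem norm_prim_sub_one {x : ℂ_[p]} {e : ℕ} (he : 1 ≤ e) (h : IsPrimitiveRoot x (p ^ e)) :
    ‖x - 1‖ = (p : ℝ) ^ (-(1 / ((p : ℝ) ^ (e - 1) * ((p : ℝ) - 1)))) := by
  have hp : p.Prime := Fact.out
  have hpe : 0 < p ^ e := pow_pos hp.pos _
  obtain ⟨e', rfl⟩ : ∃ e', e = e' + 1 := ⟨e - 1, by omega⟩
  have hx : ‖x‖ = 1 := norm_of_pow_eq_one hpe h.pow_eq_one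
  have h1 := Polynomial.cyclotomic_eq_prod_X_sub_primitiveRoots h
  have h2 := Polynomial.eval_one_cyclotomic_prime_pow (R := ℂ_[p]) (p := p) e'
  rw [h1, Polynomial.eval_prod] at h2
  have h3 : ∀ μ ∈ primitiveRoots (p ^ (e' + 1)) ℂ_[p],
      ‖Polynomial.eval 1 (Polynomial.X - Polynomial.C μ)‖ = ‖x - 1‖ := by
    intro μ hμ
    have hμ' := (mem_primitiveRoots hpe).1 hμ
    rw [Polynomial.eval_sub, Polynomial.eval_X, Polynomial.eval_C, norm_sub_rev]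
    have hμn : ‖μ‖ = 1 := norm_of_pow_eq_one hpe hμ'.pow_eq_one
    have : NeZero (p ^ (e' + 1)) := ⟨hpe.ne'⟩
    refine le_antisymm ?_ ?_
    · obtain ⟨i, _, _, hi⟩ := (h.isPrimitiveRoot_iff).1 hμ'
      rw [← hi]
      exact norm_pow_sub_one_le hx.le i
    · obtain ⟨i, _, _, hi⟩ := (hμ'.isPrimitiveRoot_iff).1 h
      rw [← hi]
      exact norm_pow_sub_one_le hμn.le i
  have h4 : ‖x - 1‖ ^ (p ^ e' * (p - 1)) = (p : ℝ)⁻¹ := by
    have h5 := congrArg (fun z => ‖z‖) h2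
    change ‖∏ μ ∈ primitiveRoots (p ^ (e' + 1)) ℂ_[p],
      Polynomial.eval 1 (Polynomial.X - Polynomial.C μ)‖ = ‖(p : ℂ_[p])‖ at h5
    rw [norm_prod, Finset.prod_congr rfl h3, Finset.prod_const, h.card_primitiveRoots,
      Nat.totient_prime_pow_succ hp, norm_p_eq] at h5
    exact h5
  have hp1 : (0 : ℝ) < (p : ℝ) - 1 := by
    have : (1 : ℝ) < (p : ℝ) := by exact_mod_cast hp.one_lt
    linarith
  have hp0 : (0 : ℝ) < (p : ℝ) := by exact_mod_cast hp.pos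
  have hk : ((p ^ e' * (p - 1) : ℕ) : ℝ) = (p : ℝ) ^ e' * ((p : ℝ) - 1) := by
    rw [Nat.cast_mul, Nat.cast_pow, Nat.cast_sub hp.one_le, Nat.cast_one]
  have hk0 : p ^ e' * (p - 1) ≠ 0 := by
    have := hp.one_lt
    have h6 : 0 < p ^ e' := pow_pos hp.pos _
    exact (Nat.mul_pos h6 (by omega)).ne'
  rw [Nat.add_sub_cancel, ← hk]
  rw [← Real.rpow_natCast] at h4
  have h7 := congrArg (fun t : ℝ => t ^ (1 / ((p ^ e' * (p - 1) : ℕ) : ℝ))) h4
  beta_reduce at h7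
  rw [← Real.rpow_mul (norm_nonneg _), mul_one_div_cancel (by exact_mod_cast hk0),
    Real.rpow_one] at h7
  rw [h7, Real.inv_rpow hp0.le, Real.rpow_neg hp0.le]

/-- splitting a root of unity in the prime-to-`p` part and the `p`-part -/
theorem exists_split {x : ℂ_[p]} {N : ℕ} (hN : 0 < N) (h : x ^ N = 1) :
    ∃ (m e : ℕ) (w y : ℂ_[p]), 0 < m ∧ ¬ p ∣ m ∧ w ^ m = 1 ∧ IsPrimitiveRoot y (p ^ e) ∧ x = w * y := by
  have hp : p.Prime := Fact.out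
  have hfin : IsOfFinOrder x := isOfFinOrder_iff_pow_eq_one.2 ⟨N, hN, h⟩
  have hpos : 0 < orderOf x := hfin.orderOf_pos
  obtain ⟨e, m, hpm, hem⟩ := Nat.exists_eq_pow_mul_and_not_dvd hpos.ne' p hp.ne_one
  have hm : 0 < m := by
    rcases Nat.eq_zero_or_pos m with rfl | h'
    · exact absurd (dvd_zero p) hpm
    · exact h'
  have hprim : IsPrimitiveRoot x (orderOf x) := IsPrimitiveRoot.orderOf x
  have hprim2 : IsPrimitiveRoot (x ^ m) (p ^ e) := hprim.pow hpos (by rw [hem, mul_comm])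
  have hco : Nat.Coprime (p ^ e) m := Nat.Coprime.pow_left _ ((Nat.Prime.coprime_iff_not_dvd hp).2 hpm)
  obtain ⟨a, b, hab⟩ := Nat.isCoprime_iff_coprime.2 hco
  have hx0 : x ≠ 0 := by
    intro h0
    rw [h0, zero_pow hN.ne'] at h
    exact zero_ne_one h
  have hb : Int.gcd b ((p ^ e : ℕ) : ℤ) = 1 := by
    rw [← Int.isCoprime_iff_gcd_eq_one]
    refine ⟨(m : ℤ), a, ?_⟩
    linarith
  refine ⟨m, e, x ^ (a * ((p ^ e : ℕ) : ℤ)), (x ^ m) ^ b, hm, hpm, ?_,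
    hprim2.zpow_of_gcd_eq_one b hb, ?_⟩
  · rw [← zpow_natCast, ← zpow_mul, mul_assoc, mul_comm a, zpow_mul]
    have : x ^ (((p ^ e : ℕ) : ℤ) * (m : ℤ)) = 1 := by
      rw [← Nat.cast_mul, zpow_natCast, ← hem, pow_orderOf_eq_one]
    rw [this, one_zpow]
  · rw [← zpow_natCast x m, ← zpow_mul, ← zpow_add₀ hx0, mul_comm (m : ℤ) b, hab, zpow_one]

/-- roots of unity at distance `≤ ρ < 1` from one have bounded `p`-power order -/
theorem pow_eq_one_of_near {ρ : ℝ} (hρ : ρ < 1) : ∃ n : ℕ, ∀ x : ℂ_[p], ∀ N : ℕ, 0 < N → x ^ N = 1 →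
    ‖x - 1‖ ≤ ρ → x ^ (p ^ n) = 1 := by
  have hp : p.Prime := Fact.out
  have hp1 : (1 : ℝ) < (p : ℝ) := by exact_mod_cast hp.one_lt
  have hp0 : (0 : ℝ) < (p : ℝ) := by linarith
  have hlim : Filter.Tendsto (fun n : ℕ => (p : ℝ) ^ (-(1 / ((p : ℝ) ^ n * ((p : ℝ) - 1)))))
      Filter.atTop (nhds ((p : ℝ) ^ (-(0 : ℝ)))) := by
    refine (Real.continuousAt_const_rpow hp0.ne').tendsto.comp (Filter.Tendsto.neg ?_)
    have h1 : Filter.Tendsto (fun n : ℕ => (p : ℝ) ^ n * ((p : ℝ) - 1)) Filter.atTop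
        Filter.atTop :=
      (tendsto_pow_atTop_atTop_of_one_lt hp1).atTop_mul_const (by linarith)
    refine h1.inv_tendsto_atTop.congr fun n => ?_
    rw [Pi.inv_apply, one_div]
  rw [neg_zero, Real.rpow_zero] at hlim
  obtain ⟨n0, hn0⟩ := Filter.eventually_atTop.1 (hlim.eventually (lt_mem_nhds hρ))
  refine ⟨n0, fun x N hN hxN hxρ => ?_⟩
  obtain ⟨m, e, w, y, hm, hpm, hw, hy, hxwy⟩ := exists_split hN hxN
  have hy1 : ‖y - 1‖ < 1 := norm_sub_one_lt hy.pow_eq_one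
  have hyn : ‖y‖ = 1 := norm_of_pow_eq_one (pow_pos hp.pos e) hy.pow_eq_one
  have hw1 : w = 1 := by
    by_contra hne
    have h2 := norm_sub_one_eq_one hm hpm hw hne
    have h3 : (w - 1) * y = (x - 1) - (y - 1) := by rw [hxwy]; ring
    have h4 : ‖(w - 1) * y‖ < 1 := by
      rw [h3]
      exact lt_of_le_of_lt (norm_sub_le_max' _ _) (max_lt (lt_of_le_of_lt hxρ hρ) hy1)
    rw [norm_mul, h2, hyn, one_mul] at h4
    exact lt_irrefl _ h4
  have hxy : x = y := by rw [hxwy, hw1, one_mul]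
  have hle : e ≤ n0 := by
    by_contra hlt
    push Not at hlt
    have h5 := hn0 (e - 1) (by omega)
    rw [← norm_prim_sub_one (by omega) hy, ← hxy] at h5
    exact absurd hxρ (not_le.2 h5)
  obtain ⟨d, hd⟩ := Nat.exists_eq_add_of_le hle
  rw [hxy, hd, pow_add, pow_mul, hy.pow_eq_one, one_pow]

theorem tendsto_pow {ρ : ℝ} (hρ : ρ < 1) {ε : ℝ} (hε : 0 < ε) : ∃ n0 : ℕ, ∀ n ≥ n0, ∀ y : ℂ_[p],
    ‖y - 1‖ ≤ ρ → ‖y ^ (p ^ n) - 1‖ ≤ ε := by
  have hp : p.Prime := Fact.out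
  rcases lt_or_ge ρ 0 with hρ0 | hρ0
  · refine ⟨0, fun n _ y hy => ?_⟩
    exact absurd hy (not_le.2 (lt_of_lt_of_le hρ0 (norm_nonneg _)))
  set c : ℝ := max ρ (p : ℝ)⁻¹ with hc
  have hc0 : 0 ≤ c := le_trans hρ0 (le_max_left _ _)
  have hc1 : c < 1 := max_lt hρ (inv_lt_one_of_one_lt₀ (by exact_mod_cast hp.one_lt))
  have key : ∀ (n : ℕ) (y : ℂ_[p]), ‖y - 1‖ ≤ ρ → ‖y ^ (p ^ n) - 1‖ ≤ c ^ n * ρ := by
    intro n
    induction n with
    | zero =>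
      intro y hy
      simpa using hy
    | succ n ih =>
      intro y hy
      set a := y ^ (p ^ n) with ha
      have h1 : ‖a - 1‖ ≤ c ^ n * ρ := ih y hy
      have h2 : ‖a - 1‖ ≤ ρ := h1.trans (mul_le_of_le_one_left hρ0 (pow_le_one₀ hc0 hc1.le))
      have h3 : ‖a - 1‖ ≤ 1 := h2.trans hρ.le
      have h4 := norm_add_one_pow_sub h3
      rw [sub_add_cancel] at h4
      have h5 : y ^ (p ^ (n + 1)) - 1 = (a ^ p - 1 - (a - 1) ^ p) + (a - 1) ^ p := by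
        rw [ha, ← pow_mul, ← pow_succ]
        ring
      have h6 : ‖(a - 1) ^ p‖ ≤ c * ‖a - 1‖ := by
        rw [norm_pow]
        have h7 : ‖a - 1‖ ^ p = ‖a - 1‖ ^ (p - 1) * ‖a - 1‖ := by
          rw [← pow_succ, Nat.sub_add_cancel hp.one_le]
        rw [h7]
        refine mul_le_mul_of_nonneg_right ?_ (norm_nonneg _)
        have h8 : ‖a - 1‖ ^ (p - 1) ≤ ‖a - 1‖ ^ 1 :=
          pow_le_pow_of_le_one (norm_nonneg _) h3 (by have := hp.two_le; omega)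
        rw [pow_one] at h8
        exact h8.trans (h2.trans (le_max_left _ _))
      have h9 : ‖a ^ p - 1 - (a - 1) ^ p‖ ≤ c * ‖a - 1‖ :=
        h4.trans (mul_le_mul_of_nonneg_right (le_max_right _ _) (norm_nonneg _))
      rw [h5]
      refine (IsUltrametricDist.norm_add_le_max _ _).trans ((max_le h9 h6).trans ?_)
      rw [pow_succ, mul_comm (c ^ n) c, mul_assoc]
      exact mul_le_mul_of_nonneg_left h1 hc0
  have hlim : Filter.Tendsto (fun n : ℕ => c ^ n * ρ) Filter.atTop (nhds (0 * ρ)) :=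
    (tendsto_pow_atTop_nhds_zero_of_lt_one hc0 hc1).mul_const ρ
  rw [zero_mul] at hlim
  obtain ⟨n0, hn0⟩ := Filter.eventually_atTop.1 (hlim.eventually (gt_mem_nhds hε))
  exact ⟨n0, fun n hn y hy => (key n y hy).trans (hn0 n hn).le⟩

end Pool.Agent.ZPB
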