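import Pool.Agent.ZPB.LinVal
import Pool.Agent.ZPB.RootNorm
import Pool.Agent.ZPB.Monomials

/-!
# Module B3: the prime-to-`p` parts take finitely many values

Suppose the `w_k` take infinitely many values; pass to a subsequence with `w_k` pairwise distinct.
`lam_k = UU e (x k) = w_k η_k` has norm one. `minpoly_coeff_zero` for `upos e / uneg e`: `P`, `P_0 ≠ 0`,
`∑_j c_j(T_k) lam_k^j = 0` (`c_j = P_j`). Along a subsequence all nonzero `recenter z c_j` have fixed dominating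
indices `b_j` at `r = ‖S_k‖` (`IsW.finite_nondom`; the radii are pairwise distinct), and the set `J` of those `j` for
which `‖c_j(T_k)‖ = ‖a_j‖ r^(b_j)` is maximal is fixed (`a_j = coeff b_j (recenter z c_j)`). Two different radii give
`b_j = b` and `‖a_j‖ = ‖a_j'‖` for all `j, j' ∈ J`. Let `j0 = max J`, `Q(Z) = ∑_{j ∈ J} (a_j/a_j0) Z^j`, monic with
integral coefficients. Dividing the relation by `a_j0 S_k^b` (`Dom.norm_sub_lt` for `j ∈ J`, smaller norm for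
`j ∉ J`): `‖Q(lam_k)‖ < 1`, and `‖lam_k - w_k‖ < 1` gives `‖Q(w_k)‖ < 1`. With `Q = ∏ (Z - r_i)`, `‖r_i‖ ≤ 1`, some
`‖w_k - r_i‖ < 1`. Two different `k` have the same `i`, so `‖w_k - w_l‖ < 1`, contradicting `norm_sub_eq_one`.
-/

namespace Pool.Agent.ZPB

open MvPowerSeries

variable {p : ℕ} [Fact p.Prime] {σ : Type} [Fintype σ]

section aux

lemma fo_sub_lt {u v : ℂ_[p]} (hu : ‖u‖ < 1) (hv : ‖v‖ < 1) : ‖u - v‖ < 1 := by
  rw [sub_eq_add_neg]
  refine (IsUltrametricDist.norm_add_le_max _ _).trans_lt (max_lt hu ?_)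
  rwa [norm_neg]

lemma fo_sum_lt {ι : Type*} (s : Finset ι) (f : ι → ℂ_[p]) {C : ℝ} (hC : 0 < C)
    (h : ∀ i ∈ s, ‖f i‖ < C) : ‖∑ i ∈ s, f i‖ < C := by
  classical
  induction s using Finset.induction_on with
  | empty => simpa using hC
  | insert a s ha ih =>
    rw [Finset.sum_insert ha]
    refine (IsUltrametricDist.norm_add_le_max _ _).trans_lt (max_lt ?_ ?_)
    · exact h a (Finset.mem_insert_self a s)
    · exact ih fun i hi => h i (Finset.mem_insert_of_mem hi)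

lemma fo_pow_sub_lt {u v : ℂ_[p]} (hu : ‖u‖ ≤ 1) (hv : ‖v‖ ≤ 1) (h : ‖u - v‖ < 1) (n : ℕ) :
    ‖u ^ n - v ^ n‖ < 1 := by
  induction n with
  | zero => simp
  | succ n ih =>
    have e : u ^ (n + 1) - v ^ (n + 1) = (u ^ n - v ^ n) * u + v ^ n * (u - v) := by ring
    rw [e]
    refine (IsUltrametricDist.norm_add_le_max _ _).trans_lt (max_lt ?_ ?_)
    · rw [norm_mul]
      exact (mul_le_of_le_one_right (norm_nonneg _) hu).trans_lt ih
    · rw [norm_mul, norm_pow]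
      exact (mul_le_of_le_one_left (norm_nonneg _) (pow_le_one₀ (norm_nonneg v) hv)).trans_lt h

lemma fo_prod_ge (s : Multiset ℂ_[p]) (w : ℂ_[p]) (h : ∀ a ∈ s, 1 ≤ ‖w - a‖) :
    1 ≤ ‖(s.map fun a => w - a).prod‖ := by
  induction s using Multiset.induction_on with
  | empty => simp
  | cons a s ih =>
    rw [Multiset.map_cons, Multiset.prod_cons, norm_mul]
    have h1 := h a (Multiset.mem_cons_self a s)
    have h2 := ih fun b hb => h b (Multiset.mem_cons_of_mem hb)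
    nlinarith

/-- a polynomial with small value has a root at distance less than one -/
lemma fo_root (Q : Polynomial ℂ_[p]) (w : ℂ_[p])
    (h : ‖Q.eval w‖ < ‖Q.leadingCoeff‖) : ∃ a ∈ Q.roots, ‖w - a‖ < 1 := by
  by_contra hcon
  push Not at hcon
  have h1 := (IsAlgClosed.splits Q).eval_eq_prod_roots w
  have h2 := fo_prod_ge Q.roots w hcon
  rw [h1, norm_mul] at h
  have h3 : 0 ≤ ‖Q.leadingCoeff‖ := norm_nonneg _
  nlinarith

end aux

theorem finite_omega {𝔮 : Ideal (RR p σ)} {t : RR p σ} (h : IsCurve 𝔮 t)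
    (hX : ∀ i, (X i : RR p σ) ∉ 𝔮) {x : ℕ → σ → ℂ_[p]}
    (hx : Function.Injective x) (hxz : ∀ k, x k ∈ zer 𝔮) (hx0 : ∀ k i, x k i ≠ 0) {z : ℂ_[p]}
    (hz : ‖z‖ < 1) (hS0 : ∀ k, ev (x k) t ≠ z)
    (hS : Function.Injective fun k => ‖ev (x k) t - z‖) {e : σ → ℤ} {w η : ℕ → ℂ_[p]} {m a : ℕ → ℕ}
    (hm : ∀ k, 0 < m k ∧ ¬ p ∣ m k ∧ w k ^ m k = 1) (hη : ∀ k, η k ^ (p ^ a k) = 1)
    (hU : ∀ k, UU e (x k) = w k * η k) : (Set.range w).Finite := by
  classical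
  have hdisc : ∀ k, Disc (x k) := fun k => (hxz k).1
  have hMne : ∀ k, ev (x k) (uneg p e) ≠ 0 := by
    intro k
    rw [ev_uneg (hdisc k)]
    exact Finset.prod_ne_zero_iff.2 fun i _ => pow_ne_zero _ (hx0 k i)
  obtain ⟨hnn, hnp⟩ := uneg_notMem h.prime hX e
  obtain ⟨P, hP0, hP⟩ := h.minpoly_coeff_zero hnp hnn
  have hT : ∀ k, ‖ev (x k) t‖ < 1 := fun k => norm_ev_lt (hdisc k) h.t0
  have hrel : ∀ k, ∑ j ∈ Finset.range (P.natDegree + 1),
      UU e (x k) ^ j * valZ (P.coeff j) (ev (x k) t) = 0 := by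
    intro k
    have h1 := ev_hg (hdisc k) h.t0 P (N := upos p e) (hMne k)
    rw [(hxz k).2 _ hP, ← UU_eq (hdisc k) (hx0 k)] at h1
    rw [← val_fam P _ (hT k)]
    exact (mul_eq_zero.1 h1.symm).resolve_left (pow_ne_zero _ (hMne k))
  have hwn : ∀ k, ‖w k‖ = 1 := fun k => norm_of_pow_eq_one (hm k).1 (hm k).2.2
  have hηn : ∀ k, ‖η k‖ = 1 := fun k =>
    norm_of_pow_eq_one (pow_pos (Fact.out : p.Prime).pos _) (hη k)
  have hUn : ∀ k, ‖UU e (x k)‖ = 1 := fun k => by rw [hU, norm_mul, hwn, hηn, one_mul]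
  have hUw : ∀ k, ‖UU e (x k) - w k‖ < 1 := by
    intro k
    have e1 : UU e (x k) - w k = w k * (η k - 1) := by rw [hU]; ring
    rw [e1, norm_mul, hwn, one_mul]
    exact norm_sub_one_lt (hη k)
  -- the recentered series
  set d := P.natDegree with hd
  set S : ℕ → ℂ_[p] := fun k => ev (x k) t - z with hSdef
  have hS1 : ∀ k, ‖S k‖ < 1 := fun k => fo_sub_lt (hT k) hz
  have hSpos : ∀ k, 0 < ‖S k‖ := fun k => norm_pos_iff.2 (sub_ne_zero.2 (hS0 k))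
  set f : ℕ → PowerSeries ℂ_[p] := fun j => recenter z (PowerSeries.map (zc p) (P.coeff j)) with hf
  have hfb : ∀ j, Bdd (f j) := fun j => recenter_bdd (bdd_map_zc _) hz
  have hval : ∀ j k, valZ (P.coeff j) (ev (x k) t) = val (f j) (S k) := by
    intro j k
    rw [hf]
    simp only
    rw [val_recenter (bdd_map_zc _) hz (hS1 k), valZ]
    congr 1
    rw [hSdef]
    ring
  have hW : ∀ j, P.coeff j ≠ 0 → ∃ n, IsW (f j) n := by
    intro j hj
    obtain ⟨n, hn⟩ := exists_isW_of_Z hj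
    exact ⟨n, hn.recenter hz⟩
  choose! n hn using hW
  set B := (Finset.range (d + 1)).sup n with hB
  have hnB : ∀ j : Fin (d + 1), n j ≤ B := fun j =>
    Finset.le_sup (f := n) (Finset.mem_range.2 j.2)
  let Bad : Set ℕ := {k | ∃ j : Fin (d + 1), P.coeff j ≠ 0 ∧ ¬ ∃ b ≤ n j, Dom (f j) ‖S k‖ b}
  have hBad : Bad.Finite := by
    have h1 : Bad = ⋃ j : Fin (d + 1), {k | P.coeff j ≠ 0 ∧ ¬ ∃ b ≤ n j, Dom (f j) ‖S k‖ b} := by
      ext k
      simp [Bad]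
    rw [h1]
    refine Set.finite_iUnion fun j => ?_
    by_cases hj : P.coeff j = 0
    · refine Set.finite_empty.subset ?_
      rintro k ⟨hk, -⟩
      exact hk hj
    · refine ((hn j hj).finite_nondom.preimage hS.injOn).subset ?_
      rintro k ⟨-, hk⟩
      exact ⟨hSpos k, hS1 k, hk⟩
  have hb0 : ∀ k, ∃ b : Fin (d + 1) → Fin (B + 1), k ∉ Bad → ∀ j : Fin (d + 1),
      P.coeff j ≠ 0 → Dom (f j) ‖S k‖ (b j) := by
    intro k
    by_cases hk : k ∈ Bad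
    · exact ⟨fun _ => 0, fun h => absurd hk h⟩
    · have h1 : ∀ j : Fin (d + 1), ∃ b : Fin (B + 1), P.coeff j ≠ 0 → Dom (f j) ‖S k‖ b := by
        intro j
        by_cases hj : P.coeff j = 0
        · exact ⟨0, fun h => absurd hj h⟩
        · have h2 : ∃ b ≤ n j, Dom (f j) ‖S k‖ b := by
            by_contra hcon
            exact hk ⟨j, hj, hcon⟩
          obtain ⟨b, hb, hbd⟩ := h2
          exact ⟨⟨b, Nat.lt_succ_of_le (hb.trans (hnB j))⟩, fun _ => hbd⟩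
      choose b hb using h1
      exact ⟨b, fun _ => hb⟩
  choose b hb using hb0
  set g : ℕ → Fin (d + 1) → ℝ := fun k j =>
    ‖PowerSeries.coeff (b k j) (f j)‖ * ‖S k‖ ^ (b k j : ℕ) with hg
  set J : ℕ → Finset (Fin (d + 1)) := fun k => Finset.univ.filter fun j =>
    P.coeff j ≠ 0 ∧ ∀ j' : Fin (d + 1), P.coeff j' ≠ 0 → g k j' ≤ g k j with hJ
  by_contra hinf
  -- fix the data
  obtain ⟨D, hD⟩ : ∃ D : (Fin (d + 1) → Fin (B + 1)) × Finset (Fin (d + 1)),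
      (w '' {k | k ∉ Bad ∧ (b k, J k) = D}).Infinite := by
    by_contra hcon
    simp only [Set.not_infinite, not_exists] at hcon
    apply hinf
    refine ((hBad.image w).union (Set.finite_iUnion hcon)).subset ?_
    rintro _ ⟨k, rfl⟩
    by_cases hk : k ∈ Bad
    · exact Or.inl ⟨k, hk, rfl⟩
    · exact Or.inr (Set.mem_iUnion.2 ⟨(b k, J k), k, ⟨hk, rfl⟩, rfl⟩)
  obtain ⟨β, J₀⟩ := D
  have hK : ∀ k ∈ {k | k ∉ Bad ∧ (b k, J k) = (β, J₀)}, k ∉ Bad ∧ b k = β ∧ J k = J₀ := by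
    rintro k ⟨h1, h2⟩
    rw [Prod.mk.injEq] at h2
    exact ⟨h1, h2⟩
  set K : Set ℕ := {k | k ∉ Bad ∧ (b k, J k) = (β, J₀)} with hKdef
  have hKinf : K.Infinite := fun hfin => hD (hfin.image w)
  obtain ⟨k₀, hk₀⟩ := hKinf.nonempty
  obtain ⟨k₁, hk₁, hk₁₀⟩ := hKinf.exists_notMem_finset {k₀}
  rw [Finset.mem_singleton] at hk₁₀
  have hmem : ∀ k ∈ K, ∀ j : Fin (d + 1), j ∈ J₀ ↔ (P.coeff j ≠ 0 ∧
      ∀ j' : Fin (d + 1), P.coeff j' ≠ 0 → g k j' ≤ g k j) := by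
    intro k hk j
    rw [← (hK k hk).2.2, hJ]
    simp
  -- `J₀` is nonempty
  obtain ⟨j₀, hj₀⟩ : ∃ j₀, j₀ ∈ J₀ := by
    obtain ⟨j, hj, hmax⟩ := Finset.exists_max_image
      (Finset.univ.filter fun j : Fin (d + 1) => P.coeff j ≠ 0) (g k₀) ⟨0, by simpa using hP0⟩
    refine ⟨j, (hmem k₀ hk₀ j).2 ⟨?_, ?_⟩⟩
    · exact (Finset.mem_filter.1 hj).2
    · intro j' hj'
      exact hmax j' (Finset.mem_filter.2 ⟨Finset.mem_univ _, hj'⟩)
  set A : Fin (d + 1) → ℂ_[p] := fun j => PowerSeries.coeff (β j) (f j) with hA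
  have hgA : ∀ k ∈ K, ∀ j, g k j = ‖A j‖ * ‖S k‖ ^ (β j : ℕ) := by
    intro k hk j
    rw [hg, hA]
    simp only
    rw [(hK k hk).2.1]
  have hdom : ∀ k ∈ K, ∀ j : Fin (d + 1), P.coeff j ≠ 0 → Dom (f j) ‖S k‖ (β j) := by
    intro k hk j hj
    have := hb k (hK k hk).1 j hj
    rwa [(hK k hk).2.1] at this
  have hA0 : ∀ j ∈ J₀, A j ≠ 0 := fun j hj => (hdom k₀ hk₀ j ((hmem k₀ hk₀ j).1 hj).1).1
  have heq : ∀ k ∈ K, ∀ j ∈ J₀, ∀ j' ∈ J₀, ‖A j‖ * ‖S k‖ ^ (β j : ℕ) = ‖A j'‖ * ‖S k‖ ^ (β j' : ℕ) := by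
    intro k hk j hj j' hj'
    rw [← hgA k hk, ← hgA k hk]
    have h1 := (hmem k hk j).1 hj
    have h2 := (hmem k hk j').1 hj'
    exact le_antisymm (h2.2 j h1.1) (h1.2 j' h2.1)
  have hbeq : ∀ j ∈ J₀, ∀ j' ∈ J₀, (β j : ℕ) = β j' := by
    intro j hj j' hj'
    have h1 := heq k₀ hk₀ j hj j' hj'
    have h2 := heq k₁ hk₁ j hj j' hj'
    have hr0 := hSpos k₀
    have hr1 := hSpos k₁
    have hne : ‖S k₁‖ / ‖S k₀‖ ≠ 1 := by
      intro h3
      rw [div_eq_one_iff_eq hr0.ne'] at h3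
      exact hk₁₀ (hS h3)
    have hpos : 0 < ‖S k₁‖ / ‖S k₀‖ := div_pos hr1 hr0
    apply pow_right_injective₀ hpos hne
    have hAj : 0 < ‖A j‖ := norm_pos_iff.2 (hA0 j hj)
    have hAj' : 0 < ‖A j'‖ := norm_pos_iff.2 (hA0 j' hj')
    have hp1 : 0 < ‖S k₀‖ ^ (β j : ℕ) := pow_pos hr0 _
    have hp2 : 0 < ‖S k₀‖ ^ (β j' : ℕ) := pow_pos hr0 _
    show (‖S k₁‖ / ‖S k₀‖) ^ (β j : ℕ) = (‖S k₁‖ / ‖S k₀‖) ^ (β j' : ℕ)
    rw [div_pow, div_pow, div_eq_div_iff hp1.ne' hp2.ne']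
    have h4 : (‖A j‖ * ‖S k₁‖ ^ (β j : ℕ)) * (‖A j'‖ * ‖S k₀‖ ^ (β j' : ℕ)) =
        (‖A j'‖ * ‖S k₁‖ ^ (β j' : ℕ)) * (‖A j‖ * ‖S k₀‖ ^ (β j : ℕ)) := by
      rw [h2, h1]
    have h5 : ‖A j‖ * ‖A j'‖ ≠ 0 := (mul_pos hAj hAj').ne'
    apply mul_left_cancel₀ h5
    linear_combination h4
  have hnA : ∀ j ∈ J₀, ‖A j‖ = ‖A j₀‖ := by
    intro j hj
    have h1 := heq k₀ hk₀ j hj j₀ hj₀
    rw [hbeq j hj j₀ hj₀] at h1
    exact mul_right_cancel₀ (pow_ne_zero _ (hSpos k₀).ne') h1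
  -- the polynomial
  set Q : Polynomial ℂ_[p] := ∑ j ∈ J₀, Polynomial.C (A j) * Polynomial.X ^ (j : ℕ) with hQ
  have hQc : ∀ j ∈ J₀, Q.coeff j = A j := by
    intro j hj
    rw [hQ, Polynomial.finsetSum_coeff, Finset.sum_eq_single j]
    · simp
    · intro i _ hij
      rw [Polynomial.coeff_C_mul_X_pow, if_neg]
      exact fun h => hij (Fin.ext h.symm)
    · exact fun h => absurd hj h
  have hQs : ∀ i, Q.coeff i ≠ 0 → ∃ j ∈ J₀, (j : ℕ) = i := by
    intro i hi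
    rw [hQ, Polynomial.finsetSum_coeff] at hi
    obtain ⟨j, hj, hji⟩ := Finset.exists_ne_zero_of_sum_ne_zero hi
    refine ⟨j, hj, ?_⟩
    by_contra hne
    apply hji
    rw [Polynomial.coeff_C_mul_X_pow, if_neg]
    exact fun h => hne h.symm
  have hQ0 : Q ≠ 0 := by
    intro h0
    apply hA0 j₀ hj₀
    rw [← hQc j₀ hj₀, h0, Polynomial.coeff_zero]
  have hlc : ‖Q.leadingCoeff‖ = ‖A j₀‖ := by
    obtain ⟨j, hj, hji⟩ := hQs Q.natDegree (by
      rw [Polynomial.coeff_natDegree]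
      exact Polynomial.leadingCoeff_ne_zero.2 hQ0)
    rw [Polynomial.leadingCoeff, ← hji, hQc j hj, hnA j hj]
  have hev : ∀ y, Q.eval y = ∑ j ∈ J₀, A j * y ^ (j : ℕ) := by
    intro y
    rw [hQ, Polynomial.eval_finsetSum]
    simp
  have hα : 0 < ‖A j₀‖ := norm_pos_iff.2 (hA0 j₀ hj₀)
  have hsmall : ∀ k ∈ K, ‖Q.eval (w k)‖ < ‖A j₀‖ := by
    intro k hk
    have hrb : 0 < ‖S k‖ ^ (β j₀ : ℕ) := pow_pos (hSpos k) _
    -- the errors
    have hE : ∀ j : Fin (d + 1), ‖val (f j) (S k) - (if j ∈ J₀ then A j * S k ^ (β j₀ : ℕ) else 0)‖ <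
        ‖A j₀‖ * ‖S k‖ ^ (β j₀ : ℕ) := by
      intro j
      split_ifs with hj
      · have h1 := (hdom k hk j ((hmem k hk j).1 hj).1).norm_sub_lt (hfb j) (hSpos k) (hS1 k)
          (S := S k) rfl
        rw [← hnA j hj, ← hbeq j hj j₀ hj₀]
        exact h1
      · rw [sub_zero]
        by_cases hj0 : P.coeff j = 0
        · rw [← hval, hj0, ← valHom_apply (hT k), map_zero, norm_zero]
          exact mul_pos hα hrb
        · rw [(hdom k hk j hj0).norm_val (hfb j) (hSpos k) (hS1 k) rfl]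
          have h2 : ∃ j' : Fin (d + 1), P.coeff j' ≠ 0 ∧ g k j < g k j' := by
            by_contra hcon
            apply hj
            rw [hmem k hk j]
            refine ⟨hj0, fun j' hj' => ?_⟩
            by_contra hlt
            exact hcon ⟨j', hj', not_le.1 hlt⟩
          obtain ⟨j', hj', hlt⟩ := h2
          have h3 := ((hmem k hk j₀).1 hj₀).2 j' hj'
          have h4 := hlt.trans_le h3
          rw [hgA k hk, hgA k hk] at h4
          exact h4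
    have hsum : S k ^ (β j₀ : ℕ) * Q.eval (UU e (x k)) =
        - ∑ j : Fin (d + 1), UU e (x k) ^ (j : ℕ) *
          (val (f j) (S k) - (if j ∈ J₀ then A j * S k ^ (β j₀ : ℕ) else 0)) := by
      have h1 := hrel k
      rw [Finset.sum_range] at h1
      have h2 : ∑ j : Fin (d + 1), UU e (x k) ^ (j : ℕ) * val (f j) (S k) = 0 := by
        rw [← h1]
        exact Finset.sum_congr rfl fun j _ => by rw [hval]
      have h3 : ∑ j : Fin (d + 1), UU e (x k) ^ (j : ℕ) *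
          (if j ∈ J₀ then A j * S k ^ (β j₀ : ℕ) else 0) =
          S k ^ (β j₀ : ℕ) * Q.eval (UU e (x k)) := by
        rw [hev, Finset.mul_sum]
        simp only [mul_ite, mul_zero]
        rw [Finset.sum_ite_mem, Finset.univ_inter]
        exact Finset.sum_congr rfl fun j _ => by ring
      simp only [mul_sub]
      rw [Finset.sum_sub_distrib, h2, h3]
      ring
    have h5 : ‖Q.eval (UU e (x k))‖ < ‖A j₀‖ := by
      have h6 := congrArg norm hsum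
      rw [norm_mul, norm_pow, norm_neg] at h6
      have h7 : ‖∑ j : Fin (d + 1), UU e (x k) ^ (j : ℕ) *
          (val (f j) (S k) - (if j ∈ J₀ then A j * S k ^ (β j₀ : ℕ) else 0))‖ <
          ‖A j₀‖ * ‖S k‖ ^ (β j₀ : ℕ) := by
        refine fo_sum_lt _ _ (mul_pos hα hrb) fun j _ => ?_
        rw [norm_mul, norm_pow, hUn, one_pow, one_mul]
        exact hE j
      rw [← h6, mul_comm] at h7
      exact lt_of_mul_lt_mul_right h7 hrb.le
    have h8 : ‖Q.eval (w k) - Q.eval (UU e (x k))‖ < ‖A j₀‖ := by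
      rw [hev, hev, ← Finset.sum_sub_distrib]
      refine fo_sum_lt _ _ hα fun j hj => ?_
      rw [← mul_sub, norm_mul, hnA j hj]
      have h9 : ‖w k ^ (j : ℕ) - UU e (x k) ^ (j : ℕ)‖ < 1 := by
        refine fo_pow_sub_lt (hwn k).le (hUn k).le ?_ _
        rw [norm_sub_rev]
        exact hUw k
      exact mul_lt_of_lt_one_right hα h9
    have h10 : Q.eval (w k) = (Q.eval (w k) - Q.eval (UU e (x k))) + Q.eval (UU e (x k)) := by ring
    rw [h10]
    exact (IsUltrametricDist.norm_add_le_max _ _).trans_lt (max_lt h8 h5)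
  -- pigeonhole
  have hroot : ∀ y ∈ w '' K, ∃ a ∈ Q.roots.toFinset, ‖y - a‖ < 1 := by
    rintro _ ⟨k, hk, rfl⟩
    obtain ⟨a, ha, hlt⟩ := fo_root Q (w k) (by rw [hlc]; exact hsmall k hk)
    exact ⟨a, Multiset.mem_toFinset.2 ha, hlt⟩
  choose! ρ hρ1 hρ2 using hroot
  obtain ⟨y, hy, y', hy', hne, hρ⟩ := hD.exists_ne_map_eq_of_mapsTo
    (f := ρ) (t := (Q.roots.toFinset : Set ℂ_[p])) (fun y hy => hρ1 y hy)
    (Finset.finite_toSet _)
  have hlt : ‖y - y'‖ < 1 := by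
    have e1 : y - y' = (y - ρ y) - (y' - ρ y') := by rw [hρ]; ring
    rw [e1]
    exact fo_sub_lt (hρ2 y hy) (hρ2 y' hy')
  obtain ⟨k, -, rfl⟩ := hy
  obtain ⟨l, -, rfl⟩ := hy'
  have h1 : ‖w k - w l‖ = 1 := by
    refine norm_sub_eq_one (m := m k * m l) (Nat.mul_pos (hm k).1 (hm l).1) ?_ ?_ ?_ hne
    · intro hdvd
      rcases (Fact.out : p.Prime).dvd_mul.1 hdvd with h2 | h2
      · exact (hm k).2.1 h2
      · exact (hm l).2.1 h2
    · rw [pow_mul, (hm k).2.2, one_pow]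
    · rw [mul_comm, pow_mul, (hm l).2.2, one_pow]
  rw [h1] at hlt
  exact lt_irrefl _ hlt

end Pool.Agent.ZPB
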