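import Pool.Agent.ZPB.CaseBFinal
import Pool.Agent.ZPB.Closeness
import Pool.Agent.ZPB.Center
import Pool.Agent.ZPB.FinOmega

/-!
# Module B8: case B (pairwise non-parallel valuation vectors)

(1) Some `‖x k i‖` takes infinitely many values (otherwise there are finitely many valuation vectors, two of them equal).
`exists_center` (`N = X i`, `M = 1`) gives `z`; pass to a subsequence with `‖ev (x k) t - z‖` pairwise distinct, nonzero.
(2) `lin_val` (`N = X i`, `M = 1`): along a subsequence `vv (x k i) = α_i + β_i τ_k`, `τ_k = vv (ev (x k) t - z)`.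
(3) `α, β ∈ ℚ^3` are linearly independent: otherwise all `α + β τ_k` (nonzero vectors) are parallel.
(4) Take `e0 ∈ ℤ^3`, `e0 ≠ 0`, `e0 ⬝ α = e0 ⬝ β = 0`. `vv (UU e0 (x k)) = 0`, so `UU e0 (x k)` is a root of unity
(`Rank1`), `= w_k η_k` (`exists_split`). `finite_omega`: along a subsequence `w_k = w`, and `w^m = 1`, `p ∤ m`. Every value
of `UU e0` is taken finitely often (`IsCurve.fibre`, `tr_monomial`), so the exact order `p^(a k)` of `η_k` tends to
infinity; pass to a subsequence with `a` strictly increasing and `a 0 ≥ 1`.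
(5) `f = N'/M'`, `N' = upos e0^m - uneg e0^m`, `M' = uneg e0^m`: `f(x_k) = (UU e0 (x k))^m - 1 = η_k^m - 1`,
`vv f(x_k) = 1/φ_k`, `φ_k = φ(p^(a k))` (`norm_prim_sub_one`). `lin_val`: along a subsequence `1/φ_k = γ + δ τ_k`, `δ ≠ 0`.
(6) So `vv (x k i) = c_i + m_i/φ_k` with `m = β/δ`, `c = α - γ m`, linearly independent vectors of `ℚ^3`. Choose
`e1 ∈ ℤ^3` with `e1 ⬝ m = 0`, `A0 = e1 ⬝ c ≠ 0` and `eb ∈ ℤ^3` with `eb ⬝ c = 0`, `b0 = eb ⬝ m ≠ 0`, and integers `b > 0`, `A`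
with `b A0 = A b0`. Then `vv (UU (b e1 - A φ_k eb) (x k)) = b A0 - A φ_k b0/φ_k = 0`, so by `Rank1` this is a root of unity:
`hrel`. `e0, e1` are independent as `e0 ⬝ c = 0 ≠ e1 ⬝ c`, `e0 ≠ 0`.
(7) `Tr 𝔮 N' M'` follows from `tr_monomial` (`(f + 1)` transcendental implies `f` transcendental; `tr_iff`).
`closeness` for `N', M'` gives `K`; `caseB_final`.
-/

namespace Pool.Agent.ZPB

open MvPowerSeries

variable {p : ℕ} [Fact p.Prime] {L : Type} [Field L]

/-! ### Subsequences -/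

lemma cb_sub_of_infinite {S : Set ℕ} (h : S.Infinite) : ∃ φ : ℕ → ℕ, StrictMono φ ∧ ∀ k, φ k ∈ S :=
  Filter.extraction_of_frequently_atTop (Nat.frequently_atTop_iff_infinite.2 h)

lemma cb_const_sub {α : Type*} {f : ℕ → α} (h : (Set.range f).Finite) :
    ∃ φ : ℕ → ℕ, StrictMono φ ∧ ∃ c, ∀ k, f (φ k) = c := by
  by_contra hc
  have h1 : ∀ c ∈ Set.range f, {n | f n = c}.Finite := by
    intro c _
    by_contra hinf
    obtain ⟨φ, hφ, hφc⟩ := cb_sub_of_infinite hinf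
    exact hc ⟨φ, hφ, c, hφc⟩
  have h2 : (⋃ c ∈ Set.range f, {n | f n = c}).Finite := h.biUnion h1
  have h3 : (⋃ c ∈ Set.range f, {n | f n = c}) = Set.univ := by
    ext n
    simp
  rw [h3] at h2
  exact Set.infinite_univ h2

lemma cb_inj_sub {α : Type*} {f : ℕ → α} (h : (Set.range f).Infinite) :
    ∃ φ : ℕ → ℕ, StrictMono φ ∧ Function.Injective fun k => f (φ k) := by
  classical
  set S : Set ℕ := {n | ∀ m < n, f m ≠ f n} with hS
  have hSinf : S.Infinite := by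
    intro hfin
    apply h
    apply (hfin.image f).subset
    rintro _ ⟨n, rfl⟩
    have hex : ∃ m, f m = f n := ⟨n, rfl⟩
    refine ⟨Nat.find hex, ?_, Nat.find_spec hex⟩
    intro m hm hfm
    exact Nat.find_min hex hm (hfm.trans (Nat.find_spec hex))
  obtain ⟨φ, hφ, hφS⟩ := cb_sub_of_infinite hSinf
  refine ⟨φ, hφ, ?_⟩
  intro a b hab
  rcases lt_trichotomy a b with h1 | h1 | h1
  · exact absurd hab (hφS b (φ a) (hφ h1))
  · exact h1
  · exact absurd hab.symm (hφS a (φ b) (hφ h1))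

/-! ### Rational vectors -/

/-- the vector product -/
def cb_cr (u v : Fin 3 → ℚ) : Fin 3 → ℚ :=
  ![u 1 * v 2 - u 2 * v 1, u 2 * v 0 - u 0 * v 2, u 0 * v 1 - u 1 * v 0]

lemma cb_int_scale {ι : Type*} [Fintype ι] (v : ι → ℚ) :
    ∃ (D : ℕ) (e : ι → ℤ), 0 < D ∧ ∀ i, (e i : ℚ) = D * v i := by
  classical
  have h : ∀ i, ∃ c : ℕ, ∏ j, (v j).den = (v i).den * c := fun i =>
    Finset.dvd_prod_of_mem (fun j => (v j).den) (Finset.mem_univ i)
  choose c hc using h
  refine ⟨∏ j, (v j).den, fun i => c i * (v i).num, Finset.prod_pos fun i _ => (v i).pos, ?_⟩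
  intro i
  rw [hc i]
  push_cast
  rw [mul_comm ((v i).den : ℚ), mul_assoc, Rat.den_mul_eq_num]

/-! ### Valuations -/

lemma cb_p_pos : (0 : ℝ) < Real.log p :=
  Real.log_pos (by exact_mod_cast (Fact.out : p.Prime).one_lt)

lemma cb_vv_eq (x : ℂ_[p]) : vv x = -(Real.log ‖x‖ / Real.log p) := rfl

lemma cb_vv_UU {z : Fin 3 → ℂ_[p]} (hz : ∀ i, z i ≠ 0) (e : Fin 3 → ℤ) :
    vv (UU e z) = ∑ i, (e i : ℝ) * vv (z i) := by
  have h1 : Real.log ‖UU e z‖ = ∑ i, (e i : ℝ) * Real.log ‖z i‖ := by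
    unfold UU
    rw [norm_prod, Real.log_prod (fun i _ => ?_)]
    · apply Finset.sum_congr rfl
      intro i _
      rw [norm_zpow, Real.log_zpow]
    · rw [norm_zpow]
      exact zpow_ne_zero _ (norm_ne_zero_iff.2 (hz i))
  simp only [cb_vv_eq, h1, Finset.sum_div, ← Finset.sum_neg_distrib]
  apply Finset.sum_congr rfl
  intro i _
  ring

lemma cb3_norm_one {x : ℂ_[p]} (hx : x ≠ 0) (h : vv x = 0) : ‖x‖ = 1 := by
  rw [cb_vv_eq, neg_eq_zero, div_eq_zero_iff] at h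
  rcases h with h | h
  · exact Real.eq_one_of_pos_of_log_eq_zero (norm_pos_iff.2 hx) h
  · exact absurd h (ne_of_gt cb_p_pos)

lemma cb_norm_eq {x y : ℂ_[p]} (hx : x ≠ 0) (hy : y ≠ 0) (h : vv x = vv y) : ‖x‖ = ‖y‖ := by
  rw [cb_vv_eq, cb_vv_eq, neg_inj, div_left_inj' (ne_of_gt cb_p_pos)] at h
  exact Real.log_injOn_pos (norm_pos_iff.2 hx) (norm_pos_iff.2 hy) h

lemma cb_vv_pos {x : ℂ_[p]} (hx : x ≠ 0) (h : ‖x‖ < 1) : 0 < vv x := by
  rw [cb_vv_eq, neg_pos]
  exact div_neg_of_neg_of_pos (Real.log_neg (norm_pos_iff.2 hx) h) cb_p_pos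

lemma cb3_UU_ne {z : Fin 3 → ℂ_[p]} (hz : ∀ i, z i ≠ 0) (e : Fin 3 → ℤ) : UU e z ≠ 0 :=
  Finset.prod_ne_zero_iff.2 fun i _ => zpow_ne_zero _ (hz i)

lemma cb_UU_sub {z : Fin 3 → ℂ_[p]} (hz : ∀ i, z i ≠ 0) (e e' : Fin 3 → ℤ) (n : ℤ) :
    UU e z = UU (fun i => e i - n * e' i) z * UU e' z ^ n := by
  unfold UU
  rw [← Finset.prod_zpow, ← Finset.prod_mul_distrib]
  apply Finset.prod_congr rfl
  intro i _
  rw [← zpow_mul, ← zpow_add₀ (hz i), mul_comm (e' i) n, sub_add_cancel]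

lemma cb_prim_vv {x : ℂ_[p]} {e : ℕ} (he : 1 ≤ e) (h : IsPrimitiveRoot x (p ^ e)) :
    vv (x - 1) = 1 / (Nat.totient (p ^ e) : ℝ) := by
  have hp : (1 : ℝ) < p := by exact_mod_cast (Fact.out : p.Prime).one_lt
  have h1 := norm_prim_sub_one he h
  have h2 : (Nat.totient (p ^ e) : ℝ) = (p : ℝ) ^ (e - 1) * ((p : ℝ) - 1) := by
    rw [Nat.totient_prime_pow (Fact.out : p.Prime) he]
    push_cast [Nat.cast_sub (Fact.out : p.Prime).one_lt.le]
    ring
  rw [cb_vv_eq, h1, Real.log_rpow (by linarith), h2, mul_div_assoc,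
    div_self (ne_of_gt cb_p_pos), mul_one, neg_neg]

/-! ### The function `f = U^m - 1` -/

lemma cb_ev_uneg {z : Fin 3 → ℂ_[p]} (hz : Disc z) (h0 : ∀ i, z i ≠ 0) (e : Fin 3 → ℤ) :
    ev z (uneg p e) ≠ 0 := by
  rw [ev_uneg hz]
  exact Finset.prod_ne_zero_iff.2 fun i _ => pow_ne_zero _ (h0 i)

lemma cb_f {z : Fin 3 → ℂ_[p]} (hz : Disc z) (h0 : ∀ i, z i ≠ 0) (e : Fin 3 → ℤ) (m : ℕ) :
    ev z (uneg p e ^ m) ≠ 0 ∧
      ev z (upos p e ^ m - uneg p e ^ m) / ev z (uneg p e ^ m) = UU e z ^ m - 1 := by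
  have h1 : ev z (uneg p e ^ m) = ev z (uneg p e) ^ m := map_pow (evHom hz) _ _
  have h2 : ev z (upos p e ^ m - uneg p e ^ m) = ev z (upos p e) ^ m - ev z (uneg p e) ^ m := by
    have := map_sub (evHom hz) (upos p e ^ m) (uneg p e ^ m)
    rw [map_pow, map_pow] at this
    exact this
  have h3 := cb_ev_uneg hz h0 e
  refine ⟨by rw [h1]; exact pow_ne_zero _ h3, ?_⟩
  rw [h1, h2, UU_eq hz h0, div_pow, sub_div, div_self (pow_ne_zero _ h3)]

lemma cb_tr {𝔮 : Ideal (RR p (Fin 3))} {ι : RR p (Fin 3) →+* L} (hι : IsFF 𝔮 ι)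
    {N M : RR p (Fin 3)} (hM : M ∉ 𝔮) (hT : Tr 𝔮 N M) : Tr 𝔮 (N - M) M := by
  have hM' : ι M ≠ 0 := fun h => hM ((hι.ker M).1 h)
  rw [tr_iff hι hM] at hT ⊢
  intro P hP
  have h1 := hT (P.comp (Polynomial.X - Polynomial.C 1)) (by
    intro h0
    apply hP
    have h2 := congrArg (fun Q : Polynomial ℤ_[p] => Q.comp (Polynomial.X + Polynomial.C 1)) h0
    simp only [Polynomial.comp_assoc, Polynomial.sub_comp, Polynomial.X_comp, Polynomial.C_comp,
      add_sub_cancel_right, Polynomial.comp_X, Polynomial.zero_comp] at h2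
    exact h2)
  rw [Polynomial.eval₂_comp, Polynomial.eval₂_sub, Polynomial.eval₂_X, Polynomial.eval₂_C,
    map_one] at h1
  rw [map_sub, sub_div, div_self hM']
  exact h1

/-- Steps (6) and (7). -/
lemma cb_end {𝔮 : Ideal (RR p (Fin 3))} {t : RR p (Fin 3)} (h : IsCurve 𝔮 t)
    (hinf : (zer 𝔮).Infinite) {ι : RR p (Fin 3) →+* L} (hι : IsFF 𝔮 ι)
    (hX : ∀ i, (X i : RR p (Fin 3)) ∉ 𝔮) (hD : DlogIndep ι)
    {x : ℕ → Fin 3 → ℂ_[p]} (hx : Function.Injective x) (hxz : ∀ k, x k ∈ zer 𝔮)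
    (hxa : ∀ k, AlgPt (x k)) (hx0 : ∀ k i, x k i ≠ 0) (hr : ∀ k, Rank1 (x k))
    {z : ℂ_[p]} (hz : ‖z‖ < 1) (hza : IsAlgebraic ℚ_[p] z)
    (hS0 : ∀ k, ev (x k) t ≠ z) (hS : Function.Injective fun k => ‖ev (x k) t - z‖)
    {c m' : Fin 3 → ℚ} {w : ℂ_[p]} {m : ℕ} (hm : 0 < m) (hpm : ¬ p ∣ m) (hw : w ^ m = 1)
    {η : ℕ → ℂ_[p]} {a : ℕ → ℕ} (ha : StrictMono a) (ha1 : ∀ k, 1 ≤ a k)
    (hη : ∀ k, IsPrimitiveRoot (η k) (p ^ a k)) {e0 : Fin 3 → ℤ} (he0 : e0 ≠ 0)
    (he0c : ∑ i, (e0 i : ℚ) * c i = 0) (he0m : ∑ i, (e0 i : ℚ) * m' i = 0)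
    (hU : ∀ k, UU e0 (x k) = w * η k)
    (hlin : ∀ k i, vv (x k i) = (c i : ℝ) + (m' i : ℝ) / (Nat.totient (p ^ a k) : ℝ))
    (hcr : cb_cr c m' ≠ 0) : False := by
  classical
  set W := cb_cr c m' with hW
  set Q : ℚ := ∑ i, W i * W i with hQ
  have hQ0 : Q ≠ 0 := by
    intro h0
    apply hcr
    have h1 := (Finset.sum_eq_zero_iff_of_nonneg (fun i _ => mul_self_nonneg (W i))).1 h0
    funext i
    exact mul_self_eq_zero.1 (h1 i (Finset.mem_univ i))
  obtain ⟨D, e, hD0, he⟩ := cb_int_scale (Sum.elim (cb_cr m' W) (cb_cr W c))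
  set e1 : Fin 3 → ℤ := fun i => e (Sum.inl i) with he1
  set eb : Fin 3 → ℤ := fun i => e (Sum.inr i) with heb
  have he1v : ∀ i, (e1 i : ℚ) = D * cb_cr m' W i := fun i => he (Sum.inl i)
  have hebv : ∀ i, (eb i : ℚ) = D * cb_cr W c i := fun i => he (Sum.inr i)
  have s1 : ∑ i, (e1 i : ℚ) * c i = D * Q := by
    simp only [he1v, hQ, hW, Fin.sum_univ_three, cb_cr]
    simp
    ring
  have s2 : ∑ i, (e1 i : ℚ) * m' i = 0 := by
    simp only [he1v, hW, Fin.sum_univ_three, cb_cr]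
    simp
    ring
  have s3 : ∑ i, (eb i : ℚ) * c i = 0 := by
    simp only [hebv, hW, Fin.sum_univ_three, cb_cr]
    simp
    ring
  have s4 : ∑ i, (eb i : ℚ) * m' i = D * Q := by
    simp only [hebv, hQ, hW, Fin.sum_univ_three, cb_cr]
    simp
    ring
  have hDQ : (D : ℚ) * Q ≠ 0 := mul_ne_zero (by exact_mod_cast hD0.ne') hQ0
  have hdisc : ∀ k, Disc (x k) := fun k => (hxz k).1
  have hφ : ∀ k, (0 : ℝ) < (Nat.totient (p ^ a k) : ℝ) := by
    intro k
    have := Nat.totient_pos.2 (pow_pos (Fact.out : p.Prime).pos (a k))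
    exact_mod_cast this
  -- independence
  have hind : ∀ u v : ℤ, (∀ i, u * e0 i + v * e1 i = 0) → u = 0 ∧ v = 0 := by
    intro u v huv
    have h1 : (v : ℚ) * (D * Q) = 0 := by
      rw [← s1]
      have h2 : ∑ i, ((u : ℚ) * e0 i + v * e1 i) * c i = 0 := by
        apply Finset.sum_eq_zero
        intro i _
        have := huv i
        have h3 : ((u : ℚ) * e0 i + v * e1 i) = 0 := by exact_mod_cast this
        rw [h3, zero_mul]
      have h4 : ∑ i, ((u : ℚ) * e0 i + v * e1 i) * c i =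
          u * ∑ i, (e0 i : ℚ) * c i + v * ∑ i, (e1 i : ℚ) * c i := by
        rw [Finset.mul_sum, Finset.mul_sum, ← Finset.sum_add_distrib]
        apply Finset.sum_congr rfl
        intro i _
        ring
      rw [h4, he0c, mul_zero, zero_add] at h2
      exact h2
    have hv : v = 0 := by
      rcases mul_eq_zero.1 h1 with h | h
      · exact_mod_cast h
      · exact absurd h hDQ
    refine ⟨?_, hv⟩
    subst hv
    by_contra hu
    apply he0
    funext i
    have := huv i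
    rw [zero_mul, add_zero] at this
    rcases mul_eq_zero.1 this with h | h
    · exact absurd h hu
    · exact h
  -- the relation
  have hrel : ∀ k, ∃ ζ : ℂ_[p], (∃ n : ℕ, 0 < n ∧ ζ ^ n = 1) ∧
      UU e1 (x k) ^ 1 = ζ * UU eb (x k) ^ ((1 : ℤ) * (Nat.totient (p ^ a k) : ℤ)) := by
    intro k
    refine ⟨UU (fun i => e1 i - (Nat.totient (p ^ a k) : ℤ) * eb i) (x k), ?_, ?_⟩
    · apply hr k
      apply cb3_norm_one (cb3_UU_ne (hx0 k) _)
      rw [cb_vv_UU (hx0 k)]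
      have r1 : ∑ i, (e1 i : ℝ) * (c i : ℝ) = (D : ℝ) * Q := by exact_mod_cast s1
      have r2 : ∑ i, (e1 i : ℝ) * (m' i : ℝ) = 0 := by exact_mod_cast s2
      have r3 : ∑ i, (eb i : ℝ) * (c i : ℝ) = 0 := by exact_mod_cast s3
      have r4 : ∑ i, (eb i : ℝ) * (m' i : ℝ) = (D : ℝ) * Q := by exact_mod_cast s4
      have h1 : ∀ i, ((e1 i - (Nat.totient (p ^ a k) : ℤ) * eb i : ℤ) : ℝ) * vv (x k i) =
          (e1 i : ℝ) * (c i : ℝ) + ((e1 i : ℝ) * (m' i : ℝ)) / (Nat.totient (p ^ a k) : ℝ) -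
          (Nat.totient (p ^ a k) : ℝ) * ((eb i : ℝ) * (c i : ℝ)) - (eb i : ℝ) * (m' i : ℝ) := by
        intro i
        rw [hlin k i]
        have := (hφ k).ne'
        push_cast
        field_simp
        ring
      simp_rw [h1]
      rw [Finset.sum_sub_distrib, Finset.sum_sub_distrib, Finset.sum_add_distrib, ← Finset.sum_div,
        ← Finset.mul_sum, r1, r2, r3, r4]
      ring
    · rw [pow_one, one_mul]
      exact cb_UU_sub (hx0 k) e1 eb _
  -- transcendence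
  have hMq : uneg p e0 ^ m ∉ 𝔮 := fun hc => (uneg_notMem h.prime hX e0).1 (h.prime.mem_of_pow_mem m hc)
  have hT : Tr 𝔮 (upos p e0 ^ m - uneg p e0 ^ m) (uneg p e0 ^ m) :=
    cb_tr hι hMq (tr_monomial h hinf hι hX hD he0 hm)
  have hfk : ∀ k, UU e0 (x k) ^ m - 1 = η k ^ m - 1 := by
    intro k
    rw [hU, mul_pow, hw, one_mul]
  have hprim : ∀ k, IsPrimitiveRoot (η k ^ m) (p ^ a k) := by
    intro k
    apply (hη k).pow_of_coprime
    exact (Nat.Coprime.pow_right _ ((Nat.Prime.coprime_iff_not_dvd Fact.out).2 hpm).symm)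
  have hvf : ∀ k, vv (UU e0 (x k) ^ m - 1) = 1 / (Nat.totient (p ^ a k) : ℝ) := by
    intro k
    rw [hfk]
    exact cb_prim_vv (ha1 k) (hprim k)
  have hne : ∀ k, UU e0 (x k) ^ m - 1 ≠ 0 := by
    intro k h0
    have h1 := hvf k
    rw [h0] at h1
    have h2 : vv (0 : ℂ_[p]) = 0 := by
      rw [cb_vv_eq, norm_zero, Real.log_zero, zero_div, neg_zero]
    rw [h2] at h1
    have := one_div_pos.2 (hφ k)
    linarith
  have hM0 : ∀ k, ev (x k) (uneg p e0 ^ m) ≠ 0 := fun k => (cb_f (hdisc k) (hx0 k) e0 m).1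
  have hval : ∀ k, ev (x k) (upos p e0 ^ m - uneg p e0 ^ m) / ev (x k) (uneg p e0 ^ m) =
      UU e0 (x k) ^ m - 1 := fun k => (cb_f (hdisc k) (hx0 k) e0 m).2
  have hN0 : ∀ k, ev (x k) (upos p e0 ^ m - uneg p e0 ^ m) ≠ 0 := by
    intro k h0
    apply hne k
    rw [← hval k, h0, zero_div]
  have hl : Function.Injective fun k =>
      ‖ev (x k) (upos p e0 ^ m - uneg p e0 ^ m) / ev (x k) (uneg p e0 ^ m)‖ := by
    intro k l hkl
    simp only [hval] at hkl
    have h1 : vv (UU e0 (x k) ^ m - 1) = vv (UU e0 (x l) ^ m - 1) := by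
      rw [cb_vv_eq, cb_vv_eq, hkl]
    rw [hvf, hvf, one_div, one_div, inv_inj] at h1
    have h2 : Nat.totient (p ^ a k) = Nat.totient (p ^ a l) := by exact_mod_cast h1
    rw [Nat.totient_prime_pow Fact.out (ha1 k), Nat.totient_prime_pow Fact.out (ha1 l)] at h2
    have h3 : 0 < p - 1 := Nat.sub_pos_of_lt (Fact.out : p.Prime).one_lt
    have h4 := Nat.pow_right_injective (Fact.out : p.Prime).two_le
      (Nat.eq_of_mul_eq_mul_right h3 h2)
    have h5 := ha1 k
    have h6 := ha1 l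
    exact ha.injective (by omega)
  obtain ⟨K, hK⟩ := closeness h hx hxz hxa hx0 hz hza hS0 hS hMq hT hM0 hN0 hl
  refine caseB_final h hinf hι hX hD hind one_pos hx hxz hxa hx0 hm hpm hw ha hη hU hrel (K := K)
    ?_
  intro ε h1 h2
  obtain ⟨ρ, hρ, hρ1, hρK⟩ := hK ε h1 h2
  refine ⟨ρ, hρ, hρ1, ?_⟩
  filter_upwards [hρK] with k hk g hg hgε
  apply hk g hg
  intro i
  rw [hval]
  exact hgε i

/-- Steps (3)-(6): the valuations are affine functions of the valuation of the parameter. -/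
lemma cb_mid {𝔮 : Ideal (RR p (Fin 3))} {t : RR p (Fin 3)} (h : IsCurve 𝔮 t)
    (hinf : (zer 𝔮).Infinite) {ι : RR p (Fin 3) →+* L} (hι : IsFF 𝔮 ι)
    (hX : ∀ i, (X i : RR p (Fin 3)) ∉ 𝔮) (hD : DlogIndep ι)
    {x : ℕ → Fin 3 → ℂ_[p]} (hx : Function.Injective x) (hxz : ∀ k, x k ∈ zer 𝔮)
    (hxa : ∀ k, AlgPt (x k)) (hx0 : ∀ k i, x k i ≠ 0) (hr : ∀ k, Rank1 (x k))
    (hpar : ¬ ∃ c : ℝ, ∀ i, vv (x 0 i) = c * vv (x 1 i))
    {z : ℂ_[p]} (hz : ‖z‖ < 1) (hza : IsAlgebraic ℚ_[p] z)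
    (hS0 : ∀ k, ev (x k) t ≠ z) (hS : Function.Injective fun k => ‖ev (x k) t - z‖)
    {α β : Fin 3 → ℚ}
    (hlin : ∀ k i, vv (x k i) = (α i : ℝ) + (β i : ℝ) * vv (ev (x k) t - z)) : False := by
  classical
  have hdisc : ∀ k, Disc (x k) := fun k => (hxz k).1
  have hvpos : ∀ k i, 0 < vv (x k i) := fun k i => cb_vv_pos (hx0 k i) (hdisc k i)
  set W := cb_cr α β with hW
  have hW0 : W ≠ 0 := by
    intro h0
    apply hpar
    have e1 : (α 1 : ℝ) * β 2 - α 2 * β 1 = 0 := by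
      have := congrFun h0 0
      simp only [hW, cb_cr, Pi.zero_apply, Matrix.cons_val_zero] at this
      exact_mod_cast this
    have e2 : (α 2 : ℝ) * β 0 - α 0 * β 2 = 0 := by
      have := congrFun h0 1
      simp only [hW, cb_cr, Pi.zero_apply, Matrix.cons_val_one, Matrix.cons_val_zero] at this
      exact_mod_cast this
    have e3 : (α 0 : ℝ) * β 1 - α 1 * β 0 = 0 := by
      have := congrFun h0 2
      simp only [hW, cb_cr, Pi.zero_apply, Matrix.cons_val] at this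
      exact_mod_cast this
    set s := vv (ev (x 0) t - z)
    set u := vv (ev (x 1) t - z)
    refine ⟨vv (x 0 0) / vv (x 1 0), fun i => ?_⟩
    rw [div_mul_eq_mul_div, eq_div_iff (hvpos 1 0).ne', hlin 0 i, hlin 1 0, hlin 0 0, hlin 1 i]
    fin_cases i
    · simp
    · simp
      linear_combination (s - u) * e3
    · simp
      linear_combination (u - s) * e2
  obtain ⟨D, e0, hD0, he0v⟩ := cb_int_scale W
  have he0 : e0 ≠ 0 := by
    intro h0
    apply hW0
    funext i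
    have := he0v i
    rw [h0] at this
    simp only [Pi.zero_apply, Int.cast_zero] at this
    have hD' : (D : ℚ) ≠ 0 := by exact_mod_cast hD0.ne'
    rcases mul_eq_zero.1 this.symm with h | h
    · exact absurd h hD'
    · exact h
  have he0α : ∑ i, (e0 i : ℚ) * α i = 0 := by
    simp only [he0v, hW, Fin.sum_univ_three, cb_cr]
    simp
    ring
  have he0β : ∑ i, (e0 i : ℚ) * β i = 0 := by
    simp only [he0v, hW, Fin.sum_univ_three, cb_cr]
    simp
    ring
  -- the monomials are roots of unity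
  have hnorm : ∀ k, ‖UU e0 (x k)‖ = 1 := by
    intro k
    apply cb3_norm_one (cb3_UU_ne (hx0 k) _)
    rw [cb_vv_UU (hx0 k)]
    have r1 : ∑ i, (e0 i : ℝ) * (α i : ℝ) = 0 := by exact_mod_cast he0α
    have r2 : ∑ i, (e0 i : ℝ) * (β i : ℝ) = 0 := by exact_mod_cast he0β
    have h1 : ∀ i, (e0 i : ℝ) * vv (x k i) = (e0 i : ℝ) * (α i : ℝ) +
        ((e0 i : ℝ) * (β i : ℝ)) * vv (ev (x k) t - z) := by
      intro i
      rw [hlin]
      ring
    simp_rw [h1]
    rw [Finset.sum_add_distrib, ← Finset.sum_mul, r1, r2]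
    ring
  have hsplit : ∀ k, ∃ (m e : ℕ) (w y : ℂ_[p]), 0 < m ∧ ¬ p ∣ m ∧ w ^ m = 1 ∧
      IsPrimitiveRoot y (p ^ e) ∧ UU e0 (x k) = w * y := by
    intro k
    obtain ⟨n, hn, hn1⟩ := hr k e0 (hnorm k)
    exact exists_split hn hn1
  choose mm a w η hmm hpm hw hη hU using hsplit
  have hwfin : (Set.range w).Finite := finite_omega h hX hx hxz hx0 hz hS0 hS (e := e0) (w := w)
    (η := η) (m := mm) (a := a) (fun k => ⟨hmm k, hpm k, hw k⟩)
    (fun k => (hη k).pow_eq_one) hU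
  obtain ⟨φ, hφ, w0, hw0⟩ := cb_const_sub hwfin
  set m := mm (φ 0) with hm
  have hm0 : 0 < m := hmm _
  have hpm0 : ¬ p ∣ m := hpm _
  have hw0m : w0 ^ m = 1 := by
    rw [← hw0 0]
    exact hw (φ 0)
  -- the fibres are finite
  have hMq : uneg p e0 ^ 1 ∉ 𝔮 := fun hc => (uneg_notMem h.prime hX e0).1 (by rwa [pow_one] at hc)
  obtain ⟨B, hB⟩ := h.fibre hMq (tr_monomial h hinf hι hX hD he0 one_pos)
  have hfib : ∀ ψ : ℕ → ℕ, StrictMono ψ → ∀ lam, ¬ ∀ k, UU e0 (x (ψ k)) = lam := by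
    intro ψ hψ lam hc
    have halg : IsAlgebraic ℚ_[p] lam := by
      rw [← hc 0]
      exact algebraic_UU (hxa _) e0
    have h1 := hB lam halg ((Finset.range (B + 1)).image fun k => x (ψ k)) (by
      intro v hv
      rw [Finset.mem_image] at hv
      obtain ⟨k, _, rfl⟩ := hv
      refine ⟨hxz _, ?_, ?_⟩
      · rw [pow_one]
        exact cb_ev_uneg (hdisc _) (hx0 _) e0
      · rw [pow_one, pow_one, ← hc k, UU_eq (hdisc _) (hx0 _),
          div_mul_cancel₀ _ (cb_ev_uneg (hdisc _) (hx0 _) e0)])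
    rw [Finset.card_image_of_injective _ (show Function.Injective fun k => x (ψ k) from
      hx.comp hψ.injective), Finset.card_range] at h1
    omega
  -- the orders tend to infinity
  have hainf : (Set.range fun k => a (φ k)).Infinite := by
    intro hfin
    obtain ⟨ψ, hψ, E, hE⟩ := cb_const_sub hfin
    have hpE : 0 < p ^ E := pow_pos (Fact.out : p.Prime).pos E
    have hfin2 : (Set.range fun k => UU e0 (x (φ (ψ k)))).Finite := by
      apply ((Polynomial.nthRootsFinset (p ^ E) (1 : ℂ_[p])).finite_toSet.image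
        fun y => w0 * y).subset
      rintro _ ⟨k, rfl⟩
      refine ⟨η (φ (ψ k)), ?_, ?_⟩
      · rw [Finset.mem_coe, Polynomial.mem_nthRootsFinset hpE]
        have := (hη (φ (ψ k))).pow_eq_one
        rw [hE k] at this
        exact this
      · show w0 * η (φ (ψ k)) = UU e0 (x (φ (ψ k)))
        rw [hU, hw0]
    obtain ⟨χ, hχ, lam, hlam⟩ := cb_const_sub hfin2
    exact hfib (fun k => φ (ψ (χ k))) (hφ.comp (hψ.comp hχ)) lam hlam
  obtain ⟨ψ, hψ, hψinj⟩ := cb_inj_sub hainf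
  obtain ⟨χ, hχ, hχa⟩ := Filter.strictMono_subseq_of_tendsto_atTop hψinj.nat_tendsto_atTop
  set θ : ℕ → ℕ := fun k => φ (ψ (χ (k + 1))) with hθ
  have hθm : StrictMono θ := hφ.comp (hψ.comp (hχ.comp (fun a b hab => Nat.succ_lt_succ hab)))
  have haθ : StrictMono fun k => a (θ k) := by
    intro k l hkl
    exact hχa (Nat.succ_lt_succ hkl)
  have haθ1 : ∀ k, 1 ≤ a (θ k) := by
    intro k
    have : a (φ (ψ (χ 0))) < a (θ k) := hχa (Nat.succ_pos k)
    omega
  -- the function U^m - 1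
  have hMq' : uneg p e0 ^ m ∉ 𝔮 :=
    fun hc => (uneg_notMem h.prime hX e0).1 (h.prime.mem_of_pow_mem m hc)
  have hfk : ∀ k, UU e0 (x (θ k)) ^ m - 1 = η (θ k) ^ m - 1 := by
    intro k
    rw [hU, hw0, mul_pow, hw0m, one_mul]
  have hprim : ∀ k, IsPrimitiveRoot (η (θ k) ^ m) (p ^ a (θ k)) := by
    intro k
    apply (hη (θ k)).pow_of_coprime
    exact (Nat.Coprime.pow_right _ ((Nat.Prime.coprime_iff_not_dvd Fact.out).2 hpm0).symm)
  have hvf : ∀ k, vv (UU e0 (x (θ k)) ^ m - 1) = 1 / (Nat.totient (p ^ a (θ k)) : ℝ) := by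
    intro k
    rw [hfk]
    exact cb_prim_vv (haθ1 k) (hprim k)
  have hpos : ∀ k, (0 : ℝ) < (Nat.totient (p ^ a (θ k)) : ℝ) := by
    intro k
    have := Nat.totient_pos.2 (pow_pos (Fact.out : p.Prime).pos (a (θ k)))
    exact_mod_cast this
  have hne : ∀ k, UU e0 (x (θ k)) ^ m - 1 ≠ 0 := by
    intro k h0
    have h1 := hvf k
    rw [h0] at h1
    have h2 : vv (0 : ℂ_[p]) = 0 := by
      rw [cb_vv_eq, norm_zero, Real.log_zero, zero_div, neg_zero]
    rw [h2] at h1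
    have := one_div_pos.2 (hpos k)
    linarith
  have hval : ∀ k, ev (x (θ k)) (upos p e0 ^ m - uneg p e0 ^ m) / ev (x (θ k)) (uneg p e0 ^ m) =
      UU e0 (x (θ k)) ^ m - 1 := fun k => (cb_f (hdisc _) (hx0 _) e0 m).2
  have hNq : upos p e0 ^ m - uneg p e0 ^ m ∉ 𝔮 := by
    intro hc
    apply hne 0
    rw [← hval 0, (hxz (θ 0)).2 _ hc, zero_div]
  obtain ⟨κ, hκ, γ, δ, hγδ⟩ := lin_val h (hx.comp hθm.injective) (fun k => hxz _) (fun k => hxa _)
    hz hza (fun k => hS0 _) (hS.comp hθm.injective) hNq hMq'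
  have hγδ' : ∀ k, 1 / (Nat.totient (p ^ a (θ (κ k))) : ℝ) =
      (γ : ℝ) + (δ : ℝ) * vv (ev (x (θ (κ k))) t - z) := by
    intro k
    have h1 := hγδ k
    simp only [Function.comp_apply] at h1
    rw [hval, hvf] at h1
    exact h1
  have hδ : δ ≠ 0 := by
    intro h0
    have h1 := hγδ' 0
    have h2 := hγδ' 1
    rw [h0, Rat.cast_zero, zero_mul, add_zero] at h1 h2
    rw [← h2, one_div, one_div, inv_inj] at h1
    have h3 : Nat.totient (p ^ a (θ (κ 0))) = Nat.totient (p ^ a (θ (κ 1))) := by exact_mod_cast h1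
    rw [Nat.totient_prime_pow Fact.out (haθ1 _), Nat.totient_prime_pow Fact.out (haθ1 _)] at h3
    have h4 : 0 < p - 1 := Nat.sub_pos_of_lt (Fact.out : p.Prime).one_lt
    have h5 := Nat.pow_right_injective (Fact.out : p.Prime).two_le
      (Nat.eq_of_mul_eq_mul_right h4 h3)
    have h6 := haθ1 (κ 0)
    have h7 := haθ1 (κ 1)
    have h8 := haθ (hκ Nat.zero_lt_one)
    simp only at h5 h8
    omega
  have hδ' : (δ : ℝ) ≠ 0 := by exact_mod_cast hδ
  -- the end
  have hxi : Function.Injective fun k => x (θ (κ k)) := hx.comp (hθm.injective.comp hκ.injective)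
  refine cb_end h hinf hι hX hD (x := fun k => x (θ (κ k))) hxi (fun k => hxz _) (fun k => hxa _)
    (fun k => hx0 _) (fun k => hr _) hz hza (fun k => hS0 _)
    (hS.comp (hθm.injective.comp hκ.injective))
    (c := fun i => α i - γ * (β i / δ)) (m' := fun i => β i / δ) hm0 hpm0 hw0m
    (η := fun k => η (θ (κ k))) (a := fun k => a (θ (κ k))) (haθ.comp hκ) (fun k => haθ1 _)
    (fun k => hη _) he0 ?_ ?_ (fun k => ?_) (fun k i => ?_) ?_
  · have h1 : ∀ i, (e0 i : ℚ) * (α i - γ * (β i / δ)) =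
        (e0 i : ℚ) * α i - (γ / δ) * ((e0 i : ℚ) * β i) := by
      intro i
      ring
    simp_rw [h1]
    rw [Finset.sum_sub_distrib, ← Finset.mul_sum, he0α, he0β]
    ring
  · have h1 : ∀ i, (e0 i : ℚ) * (β i / δ) = (e0 i : ℚ) * β i / δ := by
      intro i
      ring
    simp_rw [h1]
    rw [← Finset.sum_div, he0β, zero_div]
  · rw [hU, hw0]
  · have h1 := hγδ' k
    rw [hlin]
    push_cast
    have h2 : vv (ev (x (θ (κ k))) t - z) =
        (1 / (Nat.totient (p ^ a (θ (κ k))) : ℝ) - (γ : ℝ)) / δ := by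
      rw [h1]
      field_simp
      ring
    rw [h2]
    ring
  · intro h0
    apply hW0
    have e1 := congrFun h0 0
    have e2 := congrFun h0 1
    have e3 := congrFun h0 2
    simp only [cb_cr, Pi.zero_apply, Matrix.cons_val_zero, Matrix.cons_val_one,
      Matrix.cons_val] at e1 e2 e3
    funext i
    fin_cases i
    · simp only [hW, cb_cr]
      simp
      field_simp at e1
      exact mul_left_cancel₀ hδ (by linear_combination e1)
    · simp only [hW, cb_cr]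
      simp
      field_simp at e2
      exact mul_left_cancel₀ hδ (by linear_combination e2)
    · simp only [hW, cb_cr]
      simp
      field_simp at e3
      exact mul_left_cancel₀ hδ (by linear_combination e3)

theorem caseB {𝔮 : Ideal (RR p (Fin 3))} {t : RR p (Fin 3)} (h : IsCurve 𝔮 t)
    (hinf : (zer 𝔮).Infinite) {ι : RR p (Fin 3) →+* L} (hι : IsFF 𝔮 ι)
    (hX : ∀ i, (X i : RR p (Fin 3)) ∉ 𝔮) (hD : DlogIndep ι)
    {x : ℕ → Fin 3 → ℂ_[p]} (hx : Function.Injective x) (hxz : ∀ k, x k ∈ zer 𝔮)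
    (hxa : ∀ k, AlgPt (x k)) (hx0 : ∀ k i, x k i ≠ 0) (hr : ∀ k, Rank1 (x k))
    (hpar : ∀ k l, k ≠ l → ¬ ∃ c : ℝ, ∀ i, vv (x k i) = c * vv (x l i)) : False := by
  classical
  have hdisc : ∀ k, Disc (x k) := fun k => (hxz k).1
  have h1q : (1 : RR p (Fin 3)) ∉ 𝔮 := fun hc => h.prime.ne_top ((Ideal.eq_top_iff_one _).2 hc)
  have hev1 : ∀ k, ev (x k) (1 : RR p (Fin 3)) = 1 := fun k => map_one (evHom (hdisc k))
  have hevX : ∀ k i, ev (x k) (X i : RR p (Fin 3)) / ev (x k) (1 : RR p (Fin 3)) = x k i := by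
    intro k i
    rw [hev1, div_one, ev_X]
  -- (1) some norm takes infinitely many values
  obtain ⟨i, hi⟩ : ∃ i, (Set.range fun k => ‖x k i‖).Infinite := by
    by_contra hc
    push Not at hc
    have hfin : (Set.range fun k => fun i => ‖x k i‖).Finite := by
      apply (Set.Finite.pi' (t := fun i => Set.range fun k => ‖x k i‖) fun i =>
        Set.not_infinite.1 (by simpa using hc i)).subset
      rintro _ ⟨k, rfl⟩ i
      exact ⟨k, rfl⟩
    obtain ⟨φ, hφ, c, hc⟩ := cb_const_sub hfin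
    apply hpar (φ 0) (φ 1) (hφ Nat.zero_lt_one).ne
    refine ⟨1, fun i => ?_⟩
    have h2 : ‖x (φ 0) i‖ = ‖x (φ 1) i‖ := by
      have := congrFun ((hc 0).trans (hc 1).symm) i
      exact this
    rw [one_mul, cb_vv_eq, cb_vv_eq, h2]
  obtain ⟨z, hza, hz, hzinf⟩ := exists_center h hx hxz (hX i) h1q (by
    simp only [hevX]
    exact hi)
  obtain ⟨φ, hφ, hφinj⟩ := cb_inj_sub hzinf
  -- drop the points with parameter z
  obtain ⟨k0, hk0⟩ : ∃ k0, ∀ k, k0 ≤ k → ev (x (φ k)) t ≠ z := by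
    by_cases hex : ∃ k1, ev (x (φ k1)) t = z
    · obtain ⟨k1, hk1⟩ := hex
      refine ⟨k1 + 1, fun k hk hc => ?_⟩
      have : k = k1 := hφinj (by
        show ‖ev (x (φ k)) t - z‖ = ‖ev (x (φ k1)) t - z‖
        rw [hc, hk1])
      omega
    · push Not at hex
      exact ⟨0, fun k _ => hex k⟩
  -- the first subsequence
  have key : ∀ s : Finset (Fin 3), ∃ θ : ℕ → ℕ, StrictMono θ ∧ (∀ k, ev (x (θ k)) t ≠ z) ∧
      (Function.Injective fun k => ‖ev (x (θ k)) t - z‖) ∧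
      ∃ α β : Fin 3 → ℚ, ∀ i ∈ s, ∀ k,
        vv (x (θ k) i) = (α i : ℝ) + (β i : ℝ) * vv (ev (x (θ k)) t - z) := by
    intro s
    induction s using Finset.induction_on with
    | empty =>
      refine ⟨fun k => φ (k0 + k), fun a b hab => hφ (Nat.add_lt_add_left hab k0),
        fun k => hk0 _ (Nat.le_add_right _ _), ?_, 0, 0, fun i hi => absurd hi (Finset.notMem_empty i)⟩
      intro a b hab
      exact Nat.add_left_cancel (hφinj hab)
    | insert i s his ih =>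
      obtain ⟨θ, hθ, hθ0, hθinj, α, β, hαβ⟩ := ih
      obtain ⟨κ, hκ, a, b, hab⟩ := lin_val h (hx.comp hθ.injective) (fun k => hxz _) (fun k => hxa _)
        hz hza (fun k => hθ0 k) hθinj (hX i) h1q
      refine ⟨fun k => θ (κ k), hθ.comp hκ, fun k => hθ0 _, fun u v huv => hκ.injective (hθinj huv),
        Function.update α i a, Function.update β i b, ?_⟩
      intro j hj k
      by_cases hji : j = i
      · subst hji
        rw [Function.update_self, Function.update_self]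
        have h2 := hab k
        simp only [Function.comp_apply] at h2
        rw [hevX] at h2
        exact h2
      · rw [Function.update_of_ne hji, Function.update_of_ne hji]
        exact hαβ j ((Finset.mem_insert.1 hj).resolve_left hji) (κ k)
  obtain ⟨θ, hθ, hθ0, hθinj, α, β, hαβ⟩ := key Finset.univ
  exact cb_mid h hinf hι hX hD (x := fun k => x (θ k)) (hx.comp hθ.injective) (fun k => hxz _)
    (fun k => hxa _) (fun k => hx0 _) (fun k => hr _)
    (hpar _ _ (hθ Nat.zero_lt_one).ne) hz hza hθ0 hθinj (fun k i => hαβ i (Finset.mem_univ i) k)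

end Pool.Agent.ZPB
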