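import Pool.Agent.ZPB.CaseA
import Pool.Agent.ZPB.CaseB

/-!
# Module PM: the p-adic main theorem

Suppose the set `Z` is infinite. For `z ∈ Z` all `vv (z i)` are positive rational numbers (`vv_rat`). Parallel
(`vv (z i) = c vv (z' i)` for some real `c`) is an equivalence relation on `Z`.
If some class is infinite, take an injective sequence `x` in it; with `v = (vv (x 0 i))_i ∈ ℚ^3`, choose two independent
`e, e' ∈ ℤ^3` orthogonal to `v`; then `‖UU e (x k)‖ = ‖UU e' (x k)‖ = 1`, and `Rank1` gives the hypotheses of `caseA`.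
Otherwise there are infinitely many classes; choose one point in each: `caseB`.
-/

namespace Pool.Agent.ZPB

open MvPowerSeries

variable {p : ℕ} [Fact p.Prime] {L : Type} [Field L]

lemma norm_eq_vv {x : ℂ_[p]} (hx : x ≠ 0) : ‖x‖ = (p : ℝ) ^ (-vv x) := by
  have hp : (1 : ℝ) < p := by exact_mod_cast (Fact.out : p.Prime).one_lt
  rw [vv, neg_neg, Real.rpow_logb (by linarith) hp.ne' (norm_pos_iff.2 hx)]

lemma norm_UU_eq {z : Fin 3 → ℂ_[p]} (h0 : ∀ i, z i ≠ 0) (e : Fin 3 → ℤ) :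
    ‖UU e z‖ = (p : ℝ) ^ (-∑ i, (e i : ℝ) * vv (z i)) := by
  have hp : (0 : ℝ) < p := by exact_mod_cast (Fact.out : p.Prime).pos
  rw [UU, norm_prod, ← Finset.sum_neg_distrib, Real.rpow_sum_of_pos hp]
  refine Finset.prod_congr rfl fun i _ => ?_
  rw [norm_zpow, norm_eq_vv (h0 i), ← Real.rpow_intCast, ← Real.rpow_mul hp.le]
  congr 1
  ring

lemma vv_pos {x : ℂ_[p]} (h : ‖x‖ < 1) (hx : x ≠ 0) : 0 < vv x := by
  have hp : (1 : ℝ) < p := by exact_mod_cast (Fact.out : p.Prime).one_lt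
  rw [vv, neg_pos]
  exact Real.logb_neg hp (norm_pos_iff.2 hx) h

/-- A positive rational vector of `ℚ^3` has two independent integral orthogonal vectors. -/
lemma exists_orth (q : Fin 3 → ℚ) (hq : ∀ i, 0 < q i) : ∃ e e' : Fin 3 → ℤ,
    (∀ a b : ℤ, (∀ i, a * e i + b * e' i = 0) → a = 0 ∧ b = 0) ∧
    ∑ i, (e i : ℝ) * (q i : ℝ) = 0 ∧ ∑ i, (e' i : ℝ) * (q i : ℝ) = 0 := by
  obtain ⟨D, hD, a, ha⟩ : ∃ D : ℕ, 0 < D ∧ ∃ a : Fin 3 → ℤ, ∀ i, (q i : ℝ) * D = a i := by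
    refine ⟨∏ i, (q i).den, Finset.prod_pos fun i _ => (q i).den_pos,
      fun i => (q i).num * ∏ j ∈ Finset.univ.erase i, ((q j).den : ℤ), fun i => ?_⟩
    have h1 : (q i : ℝ) * ((q i).den : ℝ) = ((q i).num : ℝ) := by
      exact_mod_cast Rat.mul_den_eq_num (q i)
    rw [← Finset.mul_prod_erase _ _ (Finset.mem_univ i)]
    push_cast
    rw [← mul_assoc, h1]
  have hD0 : (D : ℝ) ≠ 0 := by exact_mod_cast hD.ne'
  have ha0 : a 0 ≠ 0 := by
    intro h0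
    have h1 := ha 0
    rw [h0, Int.cast_zero] at h1
    have h2 : (0 : ℝ) < q 0 := by exact_mod_cast hq 0
    rcases mul_eq_zero.1 h1 with h3 | h3
    · linarith
    · exact hD0 h3
  refine ⟨![a 1, -a 0, 0], ![a 2, 0, -a 0], ?_, ?_, ?_⟩
  · intro s t h
    have h1 := h 1
    have h2 := h 2
    simp at h1 h2
    exact ⟨h1.resolve_right ha0, h2.resolve_right ha0⟩
  · have e0 := ha 0
    have e1 := ha 1
    rw [Fin.sum_univ_three]
    simp
    rw [← e0, ← e1]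
    ring
  · have e0 := ha 0
    have e2 := ha 2
    rw [Fin.sum_univ_three]
    simp
    rw [← e0, ← e2]
    ring

theorem padic_main {𝔮 : Ideal (RR p (Fin 3))} {t : RR p (Fin 3)} (h : IsCurve 𝔮 t)
    {ι : RR p (Fin 3) →+* L} (hι : IsFF 𝔮 ι) (hX : ∀ i, (X i : RR p (Fin 3)) ∉ 𝔮)
    (hD : DlogIndep ι) :
    {z : Fin 3 → ℂ_[p] | z ∈ zer 𝔮 ∧ AlgPt z ∧ (∀ i, z i ≠ 0) ∧ Rank1 z}.Finite := by
  by_contra hinf
  rw [← Set.Infinite] at hinf
  set Z : Set (Fin 3 → ℂ_[p]) := {z | z ∈ zer 𝔮 ∧ AlgPt z ∧ (∀ i, z i ≠ 0) ∧ Rank1 z} with hZ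
  have hzinf : (zer 𝔮).Infinite := hinf.mono fun z hz => hz.1
  have hpos : ∀ z ∈ Z, ∀ i, 0 < vv (z i) := fun z hz i => vv_pos (hz.1.1 i) (hz.2.2.1 i)
  by_cases hcl : ∃ z₀ ∈ Z, {z | z ∈ Z ∧ ∃ c : ℝ, ∀ i, vv (z i) = c * vv (z₀ i)}.Infinite
  · obtain ⟨z₀, hz₀, hcl⟩ := hcl
    choose q hq using fun i => vv_rat (hz₀.2.1 i) (hz₀.2.2.1 i)
    obtain ⟨e, e', hind, he, he'⟩ := exists_orth q (fun i => by
      have := hpos z₀ hz₀ i
      rw [hq] at this
      exact_mod_cast this)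
    let x : ℕ → Fin 3 → ℂ_[p] := fun k => (Set.Infinite.natEmbedding _ hcl k : Fin 3 → ℂ_[p])
    have hx : ∀ k, x k ∈ Z ∧ ∃ c : ℝ, ∀ i, vv (x k i) = c * vv (z₀ i) := fun k =>
      (Set.Infinite.natEmbedding _ hcl k).2
    have hxi : Function.Injective x := fun k l hkl =>
      (Set.Infinite.natEmbedding _ hcl).injective (Subtype.ext hkl)
    have key : ∀ f : Fin 3 → ℤ, ∑ i, (f i : ℝ) * (q i : ℝ) = 0 → ∀ k,
        ∃ m : ℕ, 0 < m ∧ UU f (x k) ^ m = 1 := by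
      intro f hf k
      obtain ⟨c, hc⟩ := (hx k).2
      refine (hx k).1.2.2.2 f ?_
      rw [norm_UU_eq (hx k).1.2.2.1]
      have h1 : ∑ i, (f i : ℝ) * vv (x k i) = c * ∑ i, (f i : ℝ) * (q i : ℝ) := by
        rw [Finset.mul_sum]
        refine Finset.sum_congr rfl fun i _ => ?_
        rw [hc, hq]
        ring
      rw [h1, hf, mul_zero, neg_zero, Real.rpow_zero]
    exact caseA h hzinf hι hX hD hind hxi (fun k => (hx k).1.1) (fun k => (hx k).1.2.1)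
      (fun k => (hx k).1.2.2.1) (key e he) (key e' he')
  · push Not at hcl
    have hsymm : ∀ z ∈ Z, ∀ z' ∈ Z, (∃ c : ℝ, ∀ i, vv (z i) = c * vv (z' i)) →
        ∃ c : ℝ, ∀ i, vv (z' i) = c * vv (z i) := by
      rintro z hz z' hz' ⟨c, hc⟩
      have hc0 : c ≠ 0 := by
        rintro rfl
        have h1 := hc 0
        rw [zero_mul] at h1
        exact (hpos z hz 0).ne' h1
      exact ⟨c⁻¹, fun i => by rw [hc, inv_mul_cancel_left₀ hc0]⟩
    obtain ⟨x, hxZ, hxr⟩ := exists_seq_of_forall_finset_exists (fun z => z ∈ Z)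
      (fun z z' => ¬ ∃ c : ℝ, ∀ i, vv (z' i) = c * vv (z i)) (by
        intro s hs
        have hfin : (⋃ z ∈ s, {z' | z' ∈ Z ∧ ∃ c : ℝ, ∀ i, vv (z' i) = c * vv (z i)}).Finite :=
          Set.Finite.biUnion s.finite_toSet fun z hz => hcl z (hs z hz)
        obtain ⟨y, hy, hy'⟩ := (hinf.sdiff hfin).nonempty
        refine ⟨y, hy, fun z hz hc => hy' ?_⟩
        exact Set.mem_biUnion hz ⟨hy, hc⟩)
    have hne : ∀ k l, k ≠ l → ¬ ∃ c : ℝ, ∀ i, vv (x k i) = c * vv (x l i) := by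
      intro k l hkl hc
      rcases lt_or_gt_of_ne hkl with h1 | h1
      · exact hxr k l h1 (hsymm _ (hxZ k) _ (hxZ l) hc)
      · exact hxr l k h1 hc
    have hxi : Function.Injective x := by
      intro k l hkl
      by_contra hne'
      exact hne k l hne' ⟨1, fun i => by rw [hkl, one_mul]⟩
    exact caseB h hzinf hι hX hD hxi (fun k => (hxZ k).1) (fun k => (hxZ k).2.1)
      (fun k => (hxZ k).2.2.1) (fun k => (hxZ k).2.2.2) hne

end Pool.Agent.ZPB
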