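import Pool.Agent.ZPB.BSeq
import Pool.Agent.ZPB.Dense
import Pool.Agent.ZPB.CurveV
import Pool.Agent.ZPB.PadicMain
import Pool.Agent.ZPB.AIFinal

/-!
# Module BR5: there is no infinite set of isogenous triples with bad reduction

Take `S, x, σ` from `exists_seq` and `𝔮`, `φ` from `exists_dense` (`S ∘ φ` is injective, so `zer 𝔮` is infinite; the set of `n` with
`ev (S (φ n)) F = 0` is infinite implies `F ∈ 𝔮`, and `F ∈ 𝔮` implies that it vanishes at all `S (φ n)`). `X i ∉ 𝔮` since `S n i ≠ 0`.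
Let `v i = subst (X i) (Jp p)`, a power series with constant coefficient one, so a unit, `y i = X i · (v i)⁻¹`. `ev z (v i) = valZ (Jp p) (z i)`
(`ev_subst`, `ev_X`), so `ev (S n) (y i) = 1/σ_n(x n i)` (all `x n i ≠ 0`).
* Relations (`exists_curve_of_rel`): for `a, b ∈ ℤ[Y_0, Y_1, Y_2]` let `g ≠ 0` be from `Curve3.int_rel` for `u = a(1/ψ)`, `v = b(1/ψ)`, and
  `G = g(a, b)` (`aeval ![a, b] g`). `G(1/ψ) = 0`, so `G(1/x n) = 0` (`Curve3.inv_zero`); apply `σ_n`: `ev (S n) (G(y)) = 0` for all `n`, so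
  `G(y) = aeval ![aeval y a, aeval y b] g ∈ 𝔮`. So there is `t` with `IsCurve 𝔮 t`.
* `L = FractionRing (RR ⧸ 𝔮)`, `ι` the natural map: `IsFF 𝔮 ι`. `jL ι i = 1/ι(y i)`.
* `hker`: let `g ∈ ℤ[Y_0, Y_1, Y_2]`, `g'`, `d` from `exists_rev`. `aeval (jL ι) g = 0` iff `aeval (fun i => ι (y i)) g' = 0` (use `exists_rev` with
  `w = ι ∘ y`, `w⁻¹ = jL ι`) iff `aeval y g' ∈ 𝔮` iff `ev (S (φ n)) (aeval y g') = 0` for infinitely many (all) `n` iff `aeval (x (φ n)) g = 0` for
  infinitely many (all) `n` (`exists_rev` with `w i = 1/σ (x n i)`, and injectivity of `σ`) iff `aeval ψ g = 0` (`int_zero`, `int_fin`, `x` injective).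
* `dlogIndep_of_curve` (`hdep` = `Curve3.int_dep`) and `padic_main`: the set of `z ∈ zer 𝔮` with `AlgPt z`, `z i ≠ 0`, `Rank1 z` is finite, but contains
  all `S (φ n)`: contradiction.
-/

namespace Pool.Agent.ZPB

open Pool.Agent.Hhelper14.ZP

variable {p : ℕ} [Fact p.Prime] {K : Type} [Field K] [Algebra ℂ K] {ψ : Fin 3 → K}
  {B : Set (Fin 3 → ℂ)}

theorem bm_map' {A E τ : Type} [CommRing A] [CommRing E] {a1 : Algebra ℤ A} {a2 : Algebra ℤ E}
    (f : A →+* E) (y : τ → A) (P : MvPolynomial τ ℤ) :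
    f (MvPolynomial.aeval y P) = MvPolynomial.aeval (fun i => f (y i)) P := by
  rw [MvPolynomial.aeval_def, MvPolynomial.aeval_def, MvPolynomial.eval₂_comp_left]
  congr 1
  exact Subsingleton.elim _ _

theorem bm_map {A E τ : Type} [CommRing A] [CommRing E] [Algebra ℤ A] [Algebra ℤ E] (f : A →+* E)
    (y : τ → A) (P : MvPolynomial τ ℤ) :
    f (MvPolynomial.aeval y P) = MvPolynomial.aeval (fun i => f (y i)) P := bm_map' f y P

theorem bm_comp {A : Type} [CommRing A] [Algebra ℤ A] (y : Fin 3 → A) (a b : MvPolynomial (Fin 3) ℤ)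
    (g : MvPolynomial (Fin 2) ℤ) :
    MvPolynomial.aeval y (MvPolynomial.aeval ![a, b] g) =
      MvPolynomial.aeval ![MvPolynomial.aeval y a, MvPolynomial.aeval y b] g := by
  have h := bm_map (MvPolynomial.aeval y : MvPolynomial (Fin 3) ℤ →ₐ[ℤ] A).toRingHom ![a, b] g
  rw [AlgHom.toRingHom_eq_coe, RingHom.coe_coe] at h
  rw [h]
  have h2 : (fun i => MvPolynomial.aeval y (![a, b] i)) =
      ![MvPolynomial.aeval y a, MvPolynomial.aeval y b] := by
    funext i
    fin_cases i <;> rfl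
  rw [h2]

theorem bm_mem {A : Type} [Field A] (w y : Fin 3 → A)
    (hw : ∀ i, w i ∈ Subfield.closure (Set.range y)) (a : MvPolynomial (Fin 3) ℤ) :
    MvPolynomial.aeval w a ∈ Subfield.closure (Set.range y) := by
  have h := bm_map (Subfield.closure (Set.range y)).subtype (fun i => ⟨w i, hw i⟩) a
  change _ = MvPolynomial.aeval w a at h
  rw [← h]
  exact SetLike.coe_mem _

theorem bm_unit (i : Fin 3) :
    IsUnit (PowerSeries.subst (MvPowerSeries.X i : RR p (Fin 3)) (Jp p)) := by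
  have hu : IsUnit Jz := PowerSeries.isUnit_iff_constantCoeff.mpr (by
    rw [Jz_zero]
    exact isUnit_one)
  have h2 := (hu.map (PowerSeries.map (Int.castRingHom ℤ_[p]))).map
    (sb (t := (MvPowerSeries.X i : RR p (Fin 3))) (MvPowerSeries.constantCoeff_X i))
  rwa [sb_apply] at h2

theorem bm_ff {𝔮 : Ideal (RR p (Fin 3))} (hq : 𝔮.IsPrime) :
    ∃ (L : Type) (_ : Field L) (ι : RR p (Fin 3) →+* L), IsFF 𝔮 ι := by
  have : IsDomain (RR p (Fin 3) ⧸ 𝔮) := Ideal.Quotient.isDomain 𝔮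
  refine ⟨FractionRing (RR p (Fin 3) ⧸ 𝔮), inferInstance,
    (algebraMap (RR p (Fin 3) ⧸ 𝔮) (FractionRing (RR p (Fin 3) ⧸ 𝔮))).comp
      (Ideal.Quotient.mk 𝔮), ?_, ?_⟩
  · intro F
    rw [RingHom.comp_apply, ← Ideal.Quotient.eq_zero_iff_mem]
    exact map_eq_zero_iff _ (IsFractionRing.injective _ _)
  · intro w
    obtain ⟨a, b, hb, hab⟩ := IsFractionRing.div_surjective (A := RR p (Fin 3) ⧸ 𝔮) w
    obtain ⟨N, rfl⟩ := Ideal.Quotient.mk_surjective a
    obtain ⟨M, rfl⟩ := Ideal.Quotient.mk_surjective b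
    refine ⟨N, M, ?_, ?_⟩
    · intro hM
      exact nonZeroDivisors.ne_zero hb (Ideal.Quotient.eq_zero_iff_mem.mpr hM)
    · rw [← hab]
      rfl

theorem no_bad (h : Curve3 K ψ B) (hmod : ∀ i j, i ≠ j → ¬ ModRel (ψ i) (ψ j))
    (hB : ∀ x ∈ B, HeckeRel (x 0) (x 1) ∧ HeckeRel (x 0) (x 2) ∧
      ∃ σ : ℂ →+* ℂ_[p], 1 < ‖σ (x 0)‖) : False := by
  classical
  obtain ⟨S, x, σ, hSi, hxi, hxB, hD, hA, h0, hR, hz⟩ := exists_seq h hB
  obtain ⟨𝔮, hq, hpq, φ, hφ, hzer, hdense⟩ := exists_dense S hD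
  -- the units
  choose v hv using fun i : Fin 3 => bm_unit (p := p) i
  set u : Fin 3 → RR p (Fin 3) := fun i => (((v i)⁻¹ : (RR p (Fin 3))ˣ) : RR p (Fin 3)) with hu
  set y : Fin 3 → RR p (Fin 3) := fun i => MvPowerSeries.X i * u i with hy
  have hyv : ∀ i, y i * (v i : RR p (Fin 3)) = MvPowerSeries.X i := by
    intro i
    rw [hy, hu]
    change MvPowerSeries.X i * (((v i)⁻¹ : (RR p (Fin 3))ˣ) : RR p (Fin 3)) *
      (v i : RR p (Fin 3)) = _
    rw [mul_assoc, Units.inv_mul, mul_one]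
  have hval : ∀ n i, valZ (Jp p) (S n i) ≠ 0 := by
    intro n i h1
    have h2 := norm_valZ_Jp (p := p) (hD n i)
    rw [h1, norm_zero] at h2
    exact zero_ne_one h2
  have hσ0 : ∀ n i, σ n (x n i) ≠ 0 := by
    intro n i h1
    apply hval n i
    rw [← hz n i, h1, mul_zero]
  have hx0 : ∀ n i, x n i ≠ 0 := by
    intro n i h1
    apply hσ0 n i
    rw [h1, map_zero]
  have hevv : ∀ n i, ev (S n) (v i : RR p (Fin 3)) = valZ (Jp p) (S n i) := by
    intro n i
    rw [hv i, ev_subst (hD n) (MvPowerSeries.constantCoeff_X i), ev_X]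
  have hevy : ∀ n i, ev (S n) (y i) = (σ n (x n i))⁻¹ := by
    intro n i
    have h1 : ev (S n) (y i) * ev (S n) (v i : RR p (Fin 3)) = S n i := by
      rw [← ev_mul (hD n), hyv i, ev_X]
    rw [hevv n i, ← hz n i] at h1
    have h2 : S n i * (ev (S n) (y i) * σ n (x n i)) = S n i * 1 := by
      rw [mul_one]
      linear_combination h1
    exact eq_inv_of_mul_eq_one_left (mul_left_cancel₀ (h0 n i) h2)
  have hevP : ∀ n (P : MvPolynomial (Fin 3) ℤ), ev (S n) (MvPolynomial.aeval y P) =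
      MvPolynomial.aeval (fun i => (σ n (x n i))⁻¹) P := by
    intro n P
    rw [← evHom_apply (hD n), bm_map]
    have h1 : (fun i => evHom (hD n) (y i)) = fun i => (σ n (x n i))⁻¹ := by
      funext i
      rw [evHom_apply, hevy n i]
    rw [h1]
  have hφinf : ∀ F : RR p (Fin 3), (∀ n, ev (S n) F = 0) → F ∈ 𝔮 := by
    intro F hF
    apply hdense
    have h1 : {k | ev (S (φ k)) F = 0} = Set.univ := Set.eq_univ_of_forall fun k => hF _
    rw [h1]
    exact Set.infinite_univ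
  -- relations
  have hrel : ∀ a b : MvPolynomial (Fin 3) ℤ, ∃ g : MvPolynomial (Fin 2) ℤ, g ≠ 0 ∧
      MvPolynomial.aeval (![MvPolynomial.aeval y a, MvPolynomial.aeval y b] :
        Fin 2 → RR p (Fin 3)) g ∈ 𝔮 := by
    intro a b
    have hm : ∀ i, (fun i => (ψ i)⁻¹) i ∈ Subfield.closure (Set.range ψ) := fun i =>
      inv_mem (Subfield.subset_closure ⟨i, rfl⟩)
    obtain ⟨g, hg0, hg⟩ := h.int_rel (bm_mem _ ψ hm a) (bm_mem _ ψ hm b)
    refine ⟨g, hg0, ?_⟩
    rw [← bm_comp y a b g]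
    apply hφinf
    intro n
    rw [hevP]
    have h1 : MvPolynomial.aeval (fun i => (ψ i)⁻¹) (MvPolynomial.aeval ![a, b] g) = 0 := by
      rw [bm_comp, hg]
    have h2 := h.inv_zero h1 (hxB n) (hx0 n)
    have h3 := congrArg (σ n) h2
    rw [bm_map, map_zero] at h3
    have h4 : (fun i => σ n ((x n i)⁻¹)) = fun i => (σ n (x n i))⁻¹ := by
      funext i
      rw [map_inv₀]
    rw [h4] at h3
    exact h3
  obtain ⟨t, ht⟩ := exists_curve_of_rel hq hpq y u (fun i => Units.isUnit _) (fun i => rfl) hrel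
  -- infinitely many points
  have hinj : Function.Injective fun k => S (φ k) := hSi.comp hφ.injective
  have hinf : (zer 𝔮).Infinite :=
    Set.infinite_of_injective_forall_mem hinj hzer
  -- fraction field
  obtain ⟨L, hL, ι, hι⟩ := bm_ff hq
  have hker0 := hι.ker
  have hX : ∀ i, (MvPowerSeries.X i : RR p (Fin 3)) ∉ 𝔮 := by
    intro i hi
    have h1 := (hzer 0).2 _ hi
    rw [ev_X] at h1
    exact h0 _ i h1
  have hιX : ∀ i, ι (MvPowerSeries.X i) ≠ 0 := fun i h1 => hX i ((hker0 _).mp h1)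
  have hιyv : ∀ i, ι (y i) * ι (v i : RR p (Fin 3)) = ι (MvPowerSeries.X i) := by
    intro i
    rw [← map_mul, hyv i]
  have hιy : ∀ i, ι (y i) ≠ 0 := by
    intro i h1
    apply hιX i
    rw [← hιyv i, h1, zero_mul]
  have hjL : ∀ i, (ι (y i))⁻¹ = jL ι i := by
    intro i
    have h1 : jL ι i = ι (v i : RR p (Fin 3)) / ι (MvPowerSeries.X i) := by
      rw [jL, eL, hv i]
      rfl
    have h2 : ι (v i : RR p (Fin 3)) ≠ 0 := ((v i).isUnit.map ι).ne_zero
    rw [h1, ← hιyv i, mul_comm, div_mul_cancel_left₀ h2]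
  have hker : ∀ g : MvPolynomial (Fin 3) ℤ,
      MvPolynomial.aeval (jL ι) g = 0 ↔ MvPolynomial.aeval ψ g = 0 := by
    intro g
    obtain ⟨g', d, hg'⟩ := exists_rev g
    have e1 : MvPolynomial.aeval (jL ι) g = 0 ↔ MvPolynomial.aeval y g' ∈ 𝔮 := by
      have h1 := hg' _ (fun i => ι (y i)) hιy
      have h2 : (fun i => (ι (y i))⁻¹) = jL ι := funext hjL
      rw [h2] at h1
      rw [← hker0, bm_map, h1, mul_eq_zero, or_iff_right]
      exact pow_ne_zero _ (Finset.prod_ne_zero_iff.mpr fun i _ => hιy i)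
    have e2 : ∀ n, ev (S n) (MvPolynomial.aeval y g') = 0 ↔
        MvPolynomial.aeval (x n) g = 0 := by
      intro n
      have h1 := hg' ℂ_[p] (fun i => (σ n (x n i))⁻¹) fun i => inv_ne_zero (hσ0 n i)
      have h5 : (MvPolynomial.aeval (fun i => (σ n (x n i))⁻¹) g' : ℂ_[p]) = _ :=
        Eq.trans (bm_map' (RingHom.id ℂ_[p]) (fun i => (σ n (x n i))⁻¹) g') h1
      have h2 : (fun i => ((σ n (x n i))⁻¹)⁻¹) = fun i => σ n (x n i) :=
        funext fun i => inv_inv _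
      rw [h2, ← bm_map' (a1 := inferInstance) (σ n) (x n)] at h5
      rw [hevP, h5, mul_eq_zero, or_iff_right, map_eq_zero]
      exact pow_ne_zero _ (Finset.prod_ne_zero_iff.mpr fun i _ => inv_ne_zero (hσ0 n i))
    rw [e1]
    constructor
    · intro hm
      by_contra hne
      have h3 := h.int_fin hne
      have h4 : Function.Injective fun k => x (φ k) := hxi.comp hφ.injective
      refine Set.infinite_of_injective_forall_mem (s := {x ∈ B | MvPolynomial.aeval x g = 0}) h4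
        (fun k => ⟨hxB _, (e2 _).mp ((hzer k).2 _ hm)⟩) h3
    · intro hm
      apply hφinf
      intro n
      rw [e2]
      exact h.int_zero hm (hxB n)
  have hDlog : DlogIndep ι :=
    dlogIndep_of_curve ht hinf hι hX h.cf h.tr (fun i j => h.int_dep i j) hker hmod
  have hfin := padic_main ht hι hX hDlog
  refine Set.infinite_of_injective_forall_mem
    (s := {z : Fin 3 → ℂ_[p] | z ∈ zer 𝔮 ∧ AlgPt z ∧ (∀ i, z i ≠ 0) ∧ Rank1 z}) hinj
    (fun k => ⟨hzer k, hA _, h0 _, hR _⟩) hfin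

end Pool.Agent.ZPB
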