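import Pool.Agent.ZPB.JSeries
import Pool.Agent.ZPB.GalExt
import Pool.Agent.ZPB.EvVal
import Pool.Agent.Hhelper14.ZP2.Hecke
import Pool.Agent.Hhelper14.ZP2.NotHecke

/-!
# Module BR1: Tate parameters of isogenous points

`Jp = Jz` over `ℤ_p`; `q` is the Tate parameter of `X ∈ ℂ_p`, `‖X‖ > 1`, if `‖q‖ < 1`, `q X = valZ Jp q`.
* `tate_pair`: let `x = j(τ)`, `y = j(gτ)`; `exists_integral` (`ZP/Rat.lean`) gives `N`, `A : DD N` with `gact g τ = act hN A τ`; apply `tate_of_hecke`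
  (`ZP2/Hecke.lean`) with `fC = map (Int.castRingHom ℂ) Jz` (`Jz_zero`, `Jz_ev`; integers are in `OO`), `K = ℂ_[p]` (`‖m‖ ≤ 1`:
  `norm_intCast_le`). `map σ fC = map (zc p) (Jp p)` (both are `map (Int.castRingHom _) Jz`). `q ≠ 0` because `valZ (Jp p) q` has norm one
  (`norm_val`, `ZP2/PSer.lean`).
* `tate_unique`: `‖(q - q') X‖ = ‖valZ (Jp p) q - valZ (Jp p) q'‖ ≤ ‖q - q'‖` and `‖X‖ > 1`.
* `tate_algebraic`: `E = ℚ_p(X)` is finite over `ℚ_p`, a closed subspace of `ℂ_p`; `q_0 = 0`, `q_(n+1) = X⁻¹ valZ (Jp p) q_n` are in `E` and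
  `‖q_n‖ < 1` (as in the proof of `algebraic_ev`, `GalExt.lean`: a convergent sum of elements of `E` is in `E`), and `‖q_(n+1) - q‖ ≤ ‖X‖⁻¹ ‖q_n - q‖`, so
  `q_n → q ∈ E`.
* `tate_triple`: let `z 0 = q`, `z 1 = u1`, `z 2 = u2` with `u1^d1 = q^a1`, `u2^d2 = q'^a2`, and `q' = q` by `tate_unique`. `σ (x i)` is algebraic over
  `ℚ_p`. (`‖σ (x i)‖ > 1` for all `i` because `z i σ (x i)` has norm one.) `Rank1`: `UU e z ^ (d1 d2) = q ^ m` with an integer `m`; if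
  `‖UU e z‖ = 1` then `m = 0` since `0 < ‖q‖ < 1`.
-/

namespace Pool.Agent.ZPB

open Pool.Agent.Hhelper14.ZP

variable {p : ℕ} [Fact p.Prime]

/-- `q j(q)` over `ℤ_p` -/
noncomputable def Jp (p : ℕ) [Fact p.Prime] : PowerSeries ℤ_[p] :=
  PowerSeries.map (Int.castRingHom ℤ_[p]) Jz

theorem bp_coeff_le (n : ℕ) : ‖PowerSeries.coeff n (PowerSeries.map (zc p) (Jp p))‖ ≤ 1 := by
  rw [PowerSeries.coeff_map, norm_zc]
  exact PadicInt.norm_le_one _

theorem bp_coeff_zero : PowerSeries.coeff 0 (PowerSeries.map (zc p) (Jp p)) = 1 := by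
  have h := Jz_zero
  rw [← PowerSeries.coeff_zero_eq_constantCoeff_apply] at h
  rw [PowerSeries.coeff_map, Jp, PowerSeries.coeff_map, h, map_one, map_one]

theorem bp_valZ (s : ℂ_[p]) :
    valZ (Jp p) s = Hhelper14.ZP.val (PowerSeries.map (zc p) (Jp p)) s := rfl

theorem bp_map (σ : ℂ →+* ℂ_[p]) :
    PowerSeries.map σ (PowerSeries.map (Int.castRingHom ℂ) Jz) = PowerSeries.map (zc p) (Jp p) := by
  ext n
  rw [PowerSeries.coeff_map, PowerSeries.coeff_map, PowerSeries.coeff_map, Jp,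
    PowerSeries.coeff_map]
  simp

theorem norm_valZ_Jp {q : ℂ_[p]} (hq : ‖q‖ < 1) : ‖valZ (Jp p) q‖ = 1 := by
  rw [bp_valZ]
  exact norm_val bp_coeff_le bp_coeff_zero hq

theorem tate_pair (σ : ℂ →+* ℂ_[p]) {x y : ℂ} (h : HeckeRel x y) (hx : 1 < ‖σ x‖) :
    ∃ q u : ℂ_[p], ‖q‖ < 1 ∧ ‖u‖ < 1 ∧ q ≠ 0 ∧ u ≠ 0 ∧ q * σ x = valZ (Jp p) q ∧
      u * σ y = valZ (Jp p) u ∧ ∃ a d : ℕ, 0 < a ∧ 0 < d ∧ u ^ d = q ^ a := by
  obtain ⟨τ, g, hg, rfl, rfl⟩ := h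
  obtain ⟨N, hN, A, hA⟩ := exists_integral hg
  have hfO : ∀ n, PowerSeries.coeff n (PowerSeries.map (Int.castRingHom ℂ) Jz) ∈ OO := by
    intro n
    rw [PowerSeries.coeff_map]
    exact intCast_mem OO _
  have hf0 : PowerSeries.coeff 0 (PowerSeries.map (Int.castRingHom ℂ) Jz) = 1 := by
    have h := Jz_zero
    rw [← PowerSeries.coeff_zero_eq_constantCoeff_apply] at h
    rw [PowerSeries.coeff_map, h, map_one]
  obtain ⟨q, u, a, d, ha, hd, ⟨hq, hqx⟩, ⟨hu, hux⟩, hrel⟩ :=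
    tate_of_hecke hfO hf0 Jz_ev norm_intCast_le σ hN A τ hx
  have hjA : jA hN A τ = jInv (gact g τ) := by rw [jA, hA]
  rw [bp_map, ← bp_valZ] at hqx
  rw [hjA, bp_map, ← bp_valZ] at hux
  have hne : ∀ {s X : ℂ_[p]}, ‖s‖ < 1 → s * X = valZ (Jp p) s → s ≠ 0 := by
    rintro s X hs hsX rfl
    have h1 := norm_valZ_Jp hs
    rw [← hsX, zero_mul, norm_zero] at h1
    exact zero_ne_one h1
  exact ⟨q, u, hq, hu, hne hq hqx, hne hu hux, hqx, hux, a, d, ha, hd, hrel⟩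

theorem tate_unique {X q q' : ℂ_[p]} (hX : 1 < ‖X‖) (hq : ‖q‖ < 1) (hq' : ‖q'‖ < 1)
    (h : q * X = valZ (Jp p) q) (h' : q' * X = valZ (Jp p) q') : q = q' := by
  by_contra hne
  have h1 : 0 < ‖q - q'‖ := norm_pos_iff.2 (sub_ne_zero.2 hne)
  have h2 : ‖(q - q') * X‖ ≤ ‖q - q'‖ := by
    rw [sub_mul, h, h', bp_valZ, bp_valZ]
    exact norm_val_sub_le bp_coeff_le hq hq'
  rw [norm_mul] at h2
  nlinarith

theorem tate_algebraic {X q : ℂ_[p]} (hXa : IsAlgebraic ℚ_[p] X) (hX : 1 < ‖X‖) (hq : ‖q‖ < 1)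
    (h : q * X = valZ (Jp p) q) : IsAlgebraic ℚ_[p] q := by
  let K : IntermediateField ℚ_[p] ℂ_[p] := IntermediateField.adjoin ℚ_[p] {X}
  have hfin : FiniteDimensional ℚ_[p] K :=
    IntermediateField.finiteDimensional_adjoin (K := ℚ_[p]) (L := ℂ_[p]) (by
      rintro _ rfl
      exact hXa.isIntegral)
  have hfd : FiniteDimensional ℚ_[p] (Subalgebra.toSubmodule K.toSubalgebra) := hfin
  have hcl : IsClosed ((Subalgebra.toSubmodule K.toSubalgebra : Submodule ℚ_[p] ℂ_[p]) : Set ℂ_[p]) :=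
    Submodule.closed_of_finiteDimensional _
  have hval : ∀ s ∈ K, valZ (Jp p) s ∈ K := by
    intro s hs
    have hmem : valZ (Jp p) s ∈ (Subalgebra.toSubmodule K.toSubalgebra : Submodule ℚ_[p] ℂ_[p]) := by
      unfold valZ val
      refine tsum_mem hcl fun m => ?_
      change _ ∈ K
      rw [PowerSeries.coeff_map]
      exact K.mul_mem (K.algebraMap_mem _) (_root_.pow_mem hs m)
    exact hmem
  have hX0 : X ≠ 0 := by
    rintro rfl
    rw [norm_zero] at hX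
    linarith
  have hXK : X ∈ K := IntermediateField.subset_adjoin _ _ rfl
  have hr0 : 0 ≤ ‖X‖⁻¹ := by positivity
  have hr1 : ‖X‖⁻¹ < 1 := inv_lt_one_of_one_lt₀ hX
  let s : ℕ → ℂ_[p] := fun n => Nat.rec 0 (fun _ w => X⁻¹ * valZ (Jp p) w) n
  have hs0 : s 0 = 0 := rfl
  have hs1 : ∀ n, s (n + 1) = X⁻¹ * valZ (Jp p) (s n) := fun n => rfl
  have hsK : ∀ n, s n ∈ K := by
    intro n
    induction n with
    | zero => rw [hs0]; exact K.zero_mem
    | succ n ih => rw [hs1]; exact K.mul_mem (K.inv_mem hXK) (hval _ ih)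
  have hsn : ∀ n, ‖s n‖ < 1 := by
    intro n
    induction n with
    | zero => rw [hs0, norm_zero]; exact one_pos
    | succ n ih =>
      rw [hs1, norm_mul, norm_valZ_Jp ih, mul_one, norm_inv]
      exact hr1
  have hq2 : q = X⁻¹ * valZ (Jp p) q := by
    rw [← h]
    field_simp
  have hdist : ∀ n, ‖s n - q‖ ≤ ‖X‖⁻¹ ^ n := by
    intro n
    induction n with
    | zero =>
      rw [hs0, zero_sub, norm_neg, pow_zero]
      exact hq.le
    | succ n ih =>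
      have e : s (n + 1) - q = X⁻¹ * (valZ (Jp p) (s n) - valZ (Jp p) q) := by
        rw [hs1, mul_sub, ← hq2]
      rw [e, norm_mul, norm_inv, pow_succ', bp_valZ, bp_valZ]
      exact mul_le_mul_of_nonneg_left ((norm_val_sub_le bp_coeff_le (hsn n) hq).trans ih) hr0
  have hlim : Filter.Tendsto s Filter.atTop (nhds q) := by
    rw [tendsto_iff_norm_sub_tendsto_zero]
    exact squeeze_zero (fun n => norm_nonneg _) hdist
      (tendsto_pow_atTop_nhds_zero_of_lt_one hr0 hr1)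
  have hqK : q ∈ K := hcl.mem_of_tendsto hlim (Filter.Eventually.of_forall hsK)
  have : IsAlgebraic ℚ_[p] (⟨q, hqK⟩ : K) := (Algebra.IsAlgebraic.of_finite ℚ_[p] K).isAlgebraic _
  exact this.algebraMap

theorem bp_algebraic (σ : ℂ →+* ℂ_[p]) {x : ℂ} (h : IsAlgebraic ℚ x) :
    IsAlgebraic ℚ_[p] (σ x) := by
  obtain ⟨f, hf, hx⟩ := h
  refine ⟨f.map (algebraMap ℚ ℚ_[p]), ?_, ?_⟩
  · rwa [Ne, Polynomial.map_eq_zero]
  · have h1 := congrArg σ hx
    rw [map_zero, Polynomial.aeval_def, Polynomial.hom_eval₂] at h1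
    rw [Polynomial.aeval_def, Polynomial.eval₂_map, ← h1]
    congr 1
    exact Subsingleton.elim _ _

theorem bp_rank {q u1 u2 : ℂ_[p]} (hq0 : q ≠ 0) (hq : ‖q‖ < 1) {a1 d1 a2 d2 : ℕ}
    (hd1 : 0 < d1) (hd2 : 0 < d2) (h1 : u1 ^ d1 = q ^ a1) (h2 : u2 ^ d2 = q ^ a2) :
    Rank1 ![q, u1, u2] := by
  intro e he
  have key : UU e ![q, u1, u2] ^ (d1 * d2) =
      q ^ (e 0 * (d1 * d2) + e 1 * (a1 * d2) + e 2 * (a2 * d1)) := by
    rw [UU, Fin.prod_univ_three]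
    change (q ^ e 0 * u1 ^ e 1 * u2 ^ e 2) ^ (d1 * d2) = _
    have e1 : (u1 ^ e 1) ^ (d1 * d2) = q ^ (e 1 * (a1 * d2)) := by
      rw [← zpow_natCast, ← zpow_mul]
      have : e 1 * ((d1 * d2 : ℕ) : ℤ) = (d1 : ℤ) * (e 1 * d2) := by push_cast; ring
      rw [this, zpow_mul, zpow_natCast, h1, ← zpow_natCast, ← zpow_mul]
      congr 1
      ring
    have e2 : (u2 ^ e 2) ^ (d1 * d2) = q ^ (e 2 * (a2 * d1)) := by
      rw [← zpow_natCast, ← zpow_mul]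
      have : e 2 * ((d1 * d2 : ℕ) : ℤ) = (d2 : ℤ) * (e 2 * d1) := by push_cast; ring
      rw [this, zpow_mul, zpow_natCast, h2, ← zpow_natCast, ← zpow_mul]
      congr 1
      ring
    have e0 : (q ^ e 0) ^ (d1 * d2) = q ^ (e 0 * (d1 * d2)) := by
      rw [← zpow_natCast, ← zpow_mul]
      push_cast
      rfl
    rw [mul_pow, mul_pow, e0, e1, e2, ← zpow_add₀ hq0, ← zpow_add₀ hq0]
  refine ⟨d1 * d2, Nat.mul_pos hd1 hd2, ?_⟩
  have hn := congrArg norm key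
  rw [norm_pow, he, one_pow, norm_zpow] at hn
  have hm : e 0 * (d1 * d2) + e 1 * (a1 * d2) + e 2 * (a2 * d1) = 0 := by
    by_contra hne
    exact (zpow_eq_one_iff_right₀ (norm_nonneg q) hq.ne).not.2 hne hn.symm
  rw [key, hm, zpow_zero]

theorem tate_triple (σ : ℂ →+* ℂ_[p]) {x : Fin 3 → ℂ} (h1 : HeckeRel (x 0) (x 1))
    (h2 : HeckeRel (x 0) (x 2)) (hx : 1 < ‖σ (x 0)‖) (halg : ∀ i, IsAlgebraic ℚ (x i)) :
    ∃ z : Fin 3 → ℂ_[p], Disc z ∧ AlgPt z ∧ (∀ i, z i ≠ 0) ∧ Rank1 z ∧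
      ∀ i, z i * σ (x i) = valZ (Jp p) (z i) := by
  obtain ⟨q, u1, hq, hu1, hq0, hu10, hqx, hux1, a1, d1, -, hd1, hr1⟩ := tate_pair σ h1 hx
  obtain ⟨q', u2, hq', hu2, -, hu20, hqx', hux2, a2, d2, -, hd2, hr2⟩ := tate_pair σ h2 hx
  obtain rfl : q = q' := tate_unique hx hq hq' hqx hqx'
  have hbig : ∀ {s X : ℂ_[p]}, ‖s‖ < 1 → s * X = valZ (Jp p) s → 1 < ‖X‖ := by
    intro s X hs hsX
    have h3 := norm_valZ_Jp hs
    rw [← hsX, norm_mul] at h3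
    by_contra hcon
    rw [not_lt] at hcon
    have := norm_nonneg s
    nlinarith [norm_nonneg X]
  have halg' : ∀ {s : ℂ_[p]} {i : Fin 3}, ‖s‖ < 1 → s * σ (x i) = valZ (Jp p) s →
      IsAlgebraic ℚ_[p] s := fun {s i} hs hsX =>
    tate_algebraic (bp_algebraic σ (halg i)) (hbig hs hsX) hs hsX
  refine ⟨![q, u1, u2], ?_, ?_, ?_, bp_rank hq0 hq hd1 hd2 hr1 hr2, ?_⟩
  · intro i
    fin_cases i
    · exact hq
    · exact hu1
    · exact hu2
  · intro i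
    fin_cases i
    · exact halg' hq hqx
    · exact halg' hu1 hux1
    · exact halg' hu2 hux2
  · intro i
    fin_cases i
    · exact hq0
    · exact hu10
    · exact hu20
  · intro i
    fin_cases i
    · exact hqx
    · exact hux1
    · exact hux2

end Pool.Agent.ZPB
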