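import Pool.Agent.ZPB.BCurve

/-!
# Module BR3: reversed polynomials

`exists_rev`: if `G` has degree at most `d` in each variable, `G* = ∑ a_m ∏ X_i^(d - m_i)`.
`inv_zero`: `G(1/ψ) = 0` gives `G*(ψ) = 0` (`ψ i ≠ 0` because `ψ i` is transcendental), so `G*(x) = 0` for `x ∈ B` (`Curve3.zero`, for the
image of `G*` in `ℂ[Y]`), so `G(1/x) = 0` if all `x i ≠ 0`.
`int_zero`, `int_fin`: `Curve3.zero`, `Curve3.fin` for polynomials with integral coefficients.
-/

namespace Pool.Agent.ZPB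

open MvPolynomial

theorem exists_rev (G : MvPolynomial (Fin 3) ℤ) : ∃ (G' : MvPolynomial (Fin 3) ℤ) (d : ℕ),
    ∀ (A : Type) [Field A] (w : Fin 3 → A), (∀ i, w i ≠ 0) →
      aeval w G' = (∏ i, w i) ^ d * aeval (fun i => (w i)⁻¹) G := by
  classical
  refine ⟨∑ m ∈ G.support, C (coeff m G) * ∏ i, X i ^ (G.totalDegree - m i), G.totalDegree, ?_⟩
  intro A _ w hw
  rw [map_sum, aeval_def (fun i => (w i)⁻¹) G, eval₂_eq', Finset.mul_sum]
  refine Finset.sum_congr rfl fun m hm => ?_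
  have hle : ∀ i, m i ≤ G.totalDegree := by
    intro i
    have h1 : (m.sum fun _ e => e) ≤ G.totalDegree := le_totalDegree hm
    refine le_trans ?_ h1
    by_cases hi : m i = 0
    · omega
    · exact Finset.single_le_sum (f := fun i => m i) (fun _ _ => Nat.zero_le _)
        (Finsupp.mem_support_iff.2 hi)
  rw [map_mul, map_prod]
  simp only [map_pow, aeval_X, algHom_C]
  rw [mul_left_comm]
  congr 1
  rw [← Finset.prod_pow, ← Finset.prod_mul_distrib]
  refine Finset.prod_congr rfl fun i _ => ?_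
  rw [inv_pow, eq_mul_inv_iff_mul_eq₀ (pow_ne_zero _ (hw i)), ← pow_add,
    Nat.sub_add_cancel (hle i)]

variable {K : Type} [Field K] [Algebra ℂ K] {ψ : Fin 3 → K} {B : Set (Fin 3 → ℂ)}

theorem Curve3.ne_zero (h : Curve3 K ψ B) (i : Fin 3) : ψ i ≠ 0 := by
  intro h0
  apply h.tr i
  rw [h0]
  exact isAlgebraic_zero

private theorem brev_map (G : MvPolynomial (Fin 3) ℤ) :
    aeval ψ (map (algebraMap ℤ ℂ) G) = aeval ψ G :=
  aeval_map_algebraMap ℂ ψ G

private theorem brev_eval (G : MvPolynomial (Fin 3) ℤ) (x : Fin 3 → ℂ) :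
    eval x (map (algebraMap ℤ ℂ) G) = aeval x G := by
  rw [eval_map, aeval_def]

theorem Curve3.int_zero (h : Curve3 K ψ B) {G : MvPolynomial (Fin 3) ℤ} (hG : aeval ψ G = 0)
    {x : Fin 3 → ℂ} (hx : x ∈ B) : aeval x G = 0 := by
  rw [← brev_map G] at hG
  rw [← brev_eval G x]
  exact h.zero _ hG x hx

theorem Curve3.int_fin (h : Curve3 K ψ B) {G : MvPolynomial (Fin 3) ℤ} (hG : aeval ψ G ≠ 0) :
    {x ∈ B | aeval x G = 0}.Finite := by
  rw [← brev_map G] at hG
  have h1 := h.fin _ hG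
  simp only [brev_eval] at h1
  exact h1

theorem Curve3.inv_zero (h : Curve3 K ψ B) {G : MvPolynomial (Fin 3) ℤ}
    (hG : aeval (fun i => (ψ i)⁻¹) G = 0) {x : Fin 3 → ℂ} (hx : x ∈ B) (hx0 : ∀ i, x i ≠ 0) :
    aeval (fun i => (x i)⁻¹) G = 0 := by
  obtain ⟨G', d, hG'⟩ := exists_rev G
  have h1 : aeval ψ G' = 0 := by
    rw [hG' K ψ h.ne_zero, hG, mul_zero]
  have h2 := h.int_zero h1 hx
  rw [hG' ℂ x hx0] at h2
  rcases mul_eq_zero.1 h2 with h3 | h3
  · exact absurd h3 (pow_ne_zero _ (Finset.prod_ne_zero_iff.2 fun i _ => hx0 i))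
  · exact h3

end Pool.Agent.ZPB
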