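import Pool.Agent.ZPB.BPoints
import Pool.Agent.ZPB.BRev

/-!
# Module BR4: the sequence of Tate parameters

For `x ∈ B` choose `σ_x` and `z_x` by `tate_triple`. The set `{z_x : x ∈ B}` is infinite: let `x⁰ ∈ B`; if `z_x = z_(x⁰)` then
`σ_x(x 0) = valZ (Jp p) (z 0)/z 0 = σ_(x⁰)(x⁰ 0)`; `x⁰ 0` is a root of some `0 ≠ f ∈ ℤ[T]`, so `σ_x (f (x 0)) = 0` and `x 0` is a root of
`f`: it takes finitely many values `c`, and for each of them `{x ∈ B : x 0 = c}` is finite (`Curve3.fin` for `X_0 - c`, `ψ 0` is transcendental).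
So there is an injective sequence `S n = z_(x n)`; the sequence `x n` is injective as well.
-/

namespace Pool.Agent.ZPB

open MvPolynomial Pool.Agent.Hhelper14.ZP

variable {p : ℕ} [Fact p.Prime] {K : Type} [Field K] [Algebra ℂ K] {ψ : Fin 3 → K}
  {B : Set (Fin 3 → ℂ)}

theorem bseq_const (h : Curve3 K ψ B) (c : ℂ) : {x ∈ B | x 0 = c}.Finite := by
  have h1 : aeval ψ (X 0 - C c : MvPolynomial (Fin 3) ℂ) ≠ 0 := by
    rw [map_sub, aeval_X, aeval_C]
    intro h2
    refine h.tr 0 ?_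
    rw [sub_eq_zero.mp h2]
    exact isAlgebraic_algebraMap c
  refine (h.fin _ h1).subset ?_
  rintro x ⟨hx, hc⟩
  refine ⟨hx, ?_⟩
  rw [map_sub, eval_X, eval_C, hc, sub_self]

theorem bseq_root (σ τ : ℂ →+* ℂ_[p]) {x y : ℂ} (h : σ x = τ y) {f : Polynomial ℚ}
    (hf : Polynomial.aeval y f = 0) : Polynomial.aeval x f = 0 := by
  have h1 : ∀ (σ : ℂ →+* ℂ_[p]) (x : ℂ), σ (Polynomial.aeval x f) =
      Polynomial.eval₂ (algebraMap ℚ ℂ_[p]) (σ x) f := by
    intro σ x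
    rw [Polynomial.aeval_def, Polynomial.hom_eval₂]
    congr 1
    exact Subsingleton.elim _ _
  apply σ.injective
  rw [h1, h, ← h1, hf, map_zero, map_zero]

theorem exists_seq (h : Curve3 K ψ B) (hB : ∀ x ∈ B, HeckeRel (x 0) (x 1) ∧ HeckeRel (x 0) (x 2) ∧
    ∃ σ : ℂ →+* ℂ_[p], 1 < ‖σ (x 0)‖) :
    ∃ (S : ℕ → Fin 3 → ℂ_[p]) (x : ℕ → Fin 3 → ℂ) (σ : ℕ → (ℂ →+* ℂ_[p])),
      Function.Injective S ∧ Function.Injective x ∧ (∀ n, x n ∈ B) ∧ (∀ n, Disc (S n)) ∧
      (∀ n, AlgPt (S n)) ∧ (∀ n i, S n i ≠ 0) ∧ (∀ n, Rank1 (S n)) ∧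
      ∀ n i, S n i * σ n (x n i) = valZ (Jp p) (S n i) := by
  classical
  have hch : ∀ x : B, ∃ (σ : ℂ →+* ℂ_[p]) (z : Fin 3 → ℂ_[p]), Disc z ∧ AlgPt z ∧
      (∀ i, z i ≠ 0) ∧ Rank1 z ∧ ∀ i, z i * σ (x.1 i) = valZ (Jp p) (z i) := by
    intro x
    obtain ⟨h1, h2, σ, hσ⟩ := hB x.1 x.2
    exact ⟨σ, tate_triple σ h1 h2 hσ (h.alg x.1 x.2)⟩
  choose σ z hD hA h0 hR hz using hch
  have hfib : ∀ a : B, {b : B | z b = z a}.Finite := by
    intro a
    obtain ⟨f, hf0, hf⟩ := h.alg a.1 a.2 0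
    have h1 : ∀ b : B, z b = z a → b.1 0 ∈ (f.map (algebraMap ℚ ℂ)).roots.toFinset := by
      intro b hb
      have h2 : σ b (b.1 0) = σ a (a.1 0) := by
        have h3 := hz b 0
        rw [hb, ← hz a 0] at h3
        exact mul_left_cancel₀ (h0 a 0) h3
      rw [Multiset.mem_toFinset, Polynomial.mem_roots (Polynomial.map_ne_zero hf0),
        Polynomial.IsRoot.def, Polynomial.eval_map_algebraMap]
      exact bseq_root (σ b) (σ a) h2 hf
    have h4 : (⋃ c ∈ (f.map (algebraMap ℚ ℂ)).roots.toFinset, {x ∈ B | x 0 = c}).Finite :=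
      Set.Finite.biUnion (Finset.finite_toSet _) fun c _ => bseq_const h c
    refine (h4.preimage (f := ((↑) : B → (Fin 3 → ℂ))) Subtype.val_injective.injOn).subset ?_
    intro b hb
    rw [Set.mem_preimage, Set.mem_iUnion₂]
    exact ⟨b.1 0, h1 b hb, b.2, rfl⟩
  have hinfB : Infinite B := h.inf.to_subtype
  have hrange : (Set.range z).Infinite := by
    intro hfin
    have h5 : (Set.univ : Set B).Finite := by
      refine (Set.Finite.biUnion hfin (t := fun w => {b : B | z b = w}) ?_).subset ?_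
      · rintro w ⟨a, rfl⟩
        exact hfib a
      · intro b _
        rw [Set.mem_iUnion₂]
        exact ⟨z b, ⟨b, rfl⟩, rfl⟩
    exact Set.infinite_univ h5
  have hir : Infinite (Set.range z) := hrange.to_subtype
  let e := Infinite.natEmbedding (Set.range z)
  choose g hg using fun n => (e n).2
  have hinj : Function.Injective fun n => z (g n) := by
    intro m n hmn
    have h6 : z (g m) = z (g n) := hmn
    rw [hg m, hg n] at h6
    exact e.injective (Subtype.ext h6)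
  refine ⟨fun n => z (g n), fun n => (g n).1, fun n => σ (g n), hinj, ?_, fun n => (g n).2,
    fun n => hD _, fun n => hA _, fun n => h0 _, fun n => hR _, fun n => hz _⟩
  intro m n hmn
  apply hinj
  have h7 : g m = g n := Subtype.ext hmn
  change z (g m) = z (g n)
  rw [h7]

end Pool.Agent.ZPB
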