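import Pool.Agent.ZPB.CaseA1

/-!
# Module A2: case A (infinitely many points with torsion values of two independent monomials)

Split `UU e (x k) = w_k η_k`, `UU e' (x k) = w'_k η'_k` (`exists_split`), `η_k` of exact order `p^{a_k}`, `η'_k` of exact
order `p^{a'_k}`. If `max(a_k, a'_k)` is unbounded, then along a subsequence `a_k ≥ a'_k` for all `k` and `a_k`
unbounded, or the same with the roles of `e, e'` exchanged: `caseA1`.
Otherwise `η_k^(p^r) = η'_k^(p^r) = 1` for all `k`. Let `g_k` be given by `exists_iso` (`m = m_k m'_k`, `t = 1`, `s = 1`,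
`n = r`): `g_k w_k = w_k^p`, `g_k w'_k = w'_k^p`. Put `y_k = g_k(x k)`. Then `UU e (y k)^(p^r) = w_k^(p p^r) = UU e (x k)^(p^r p)`
and the same for `e'`. Pair lemma (`A = p^r`, `Q = p`): for large `k`, `N(x_k) M(y_k) = N(y_k) M(x_k)`, `M(x_k) ≠ 0`, i.e.
`g_k ρ_k = ρ_k` for `ρ_k = N(x_k)/M(x_k)`. So the points `g_k^j (x k)`, `0 ≤ j ≤ B`, all lie in the fibre of `N/M` over `ρ_k`
(`B` = bound of `IsCurve.fibre`), hence two of them coincide: `g_k^j (x k) = g_k^j' (x k)`, `j < j' ≤ B`. Apply `UU e` and take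
the `p^r`-th power: `w_k^(p^j p^r) = w_k^(p^j' p^r)`, so `w_k^(p^(j'-j) - 1) = 1` (the order of `w_k` is prime to `p`). So
`w_k^W = 1` with `W = ∏_{d=1}^B (p^d - 1)`, and `UU e (x k)^(W p^r) = 1` for all large `k`, contradicting
`IsCurve.fibre` for `tr_monomial` (value `1`).
-/

namespace Pool.Agent.ZPB

open MvPowerSeries

variable {p : ℕ} [Fact p.Prime] {σ : Type} [Fintype σ] {L : Type} [Field L]

namespace CaseA

theorem exists_seq {P : ℕ → Prop} {a : ℕ → ℕ} (h : ∀ B, ∃ k, P k ∧ B ≤ a k) :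
    ∃ φ : ℕ → ℕ, (∀ n, P (φ n)) ∧ StrictMono (fun n => a (φ n)) := by
  choose f hf1 hf2 using h
  let φ : ℕ → ℕ := fun n => Nat.rec (f 0) (fun _ k => f (a k + 1)) n
  refine ⟨φ, ?_, ?_⟩
  · intro n
    cases n with
    | zero => exact hf1 0
    | succ n => exact hf1 _
  · refine strictMono_nat_of_lt_succ fun n => ?_
    have h1 : φ (n + 1) = f (a (φ n) + 1) := rfl
    rw [h1]
    exact Nat.lt_of_succ_le (hf2 (a (φ n) + 1))

theorem primitive_pow {y : ℂ_[p]} {a b : ℕ} (h : IsPrimitiveRoot y (p ^ a)) (hab : a ≤ b) :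
    y ^ (p ^ b) = 1 :=
  (h.pow_eq_one_iff_dvd _).2 (pow_dvd_pow p hab)

end CaseA

theorem caseA {𝔮 : Ideal (RR p σ)} {t : RR p σ} (h : IsCurve 𝔮 t) (hinf : (zer 𝔮).Infinite)
    {ι : RR p σ →+* L} (hι : IsFF 𝔮 ι) (hX : ∀ i, (X i : RR p σ) ∉ 𝔮) (hD : DlogIndep ι)
    {e e' : σ → ℤ} (hind : ∀ a b : ℤ, (∀ i, a * e i + b * e' i = 0) → a = 0 ∧ b = 0)
    {x : ℕ → σ → ℂ_[p]} (hx : Function.Injective x) (hxz : ∀ k, x k ∈ zer 𝔮)
    (hxa : ∀ k, AlgPt (x k)) (hx0 : ∀ k i, x k i ≠ 0)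
    (hU : ∀ k, ∃ m : ℕ, 0 < m ∧ UU e (x k) ^ m = 1) (hU' : ∀ k, ∃ m : ℕ, 0 < m ∧ UU e' (x k) ^ m = 1) :
    False := by
  classical
  have hp : p.Prime := Fact.out
  -- splitting
  have hs : ∀ k, ∃ (m a : ℕ) (w y : ℂ_[p]), 0 < m ∧ ¬ p ∣ m ∧ w ^ m = 1 ∧
      IsPrimitiveRoot y (p ^ a) ∧ UU e (x k) = w * y := fun k => by
    obtain ⟨m, hm, h1⟩ := hU k
    exact exists_split hm h1
  have hs' : ∀ k, ∃ (m a : ℕ) (w y : ℂ_[p]), 0 < m ∧ ¬ p ∣ m ∧ w ^ m = 1 ∧
      IsPrimitiveRoot y (p ^ a) ∧ UU e' (x k) = w * y := fun k => by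
    obtain ⟨m, hm, h1⟩ := hU' k
    exact exists_split hm h1
  choose m a w η hm0 hpm hw hη hUe using hs
  choose m' a' w' η' hm0' hpm' hw' hη' hUe' using hs'
  -- unbounded cases
  by_cases hA : ∀ B, ∃ k, a' k ≤ a k ∧ B ≤ a k
  · obtain ⟨φ, h1, h2⟩ := CaseA.exists_seq hA
    have hφ : Function.Injective φ := by
      intro i j hij
      apply h2.injective
      simp only [hij]
    exact caseA1 h hinf hι hX hD hind (x := fun n => x (φ n)) (hx.comp hφ) (fun n => hxz _)
      (fun n => hxa _) (fun n => hx0 _) (w := fun n => w (φ n)) (w' := fun n => w' (φ n))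
      (η := fun n => η (φ n)) (η' := fun n => η' (φ n)) (m := fun n => m (φ n))
      (m' := fun n => m' (φ n)) (a := fun n => a (φ n))
      (fun n => ⟨hm0 _, hpm _, hw _⟩) (fun n => ⟨hm0' _, hpm' _, hw' _⟩) (fun n => hη _)
      (fun n => CaseA.primitive_pow (hη' _) (h1 n)) (fun n => hUe _) (fun n => hUe' _)
      (fun B => ⟨B, h2.le_apply⟩)
  by_cases hA' : ∀ B, ∃ k, a k ≤ a' k ∧ B ≤ a' k
  · obtain ⟨φ, h1, h2⟩ := CaseA.exists_seq hA'
    have hφ : Function.Injective φ := by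
      intro i j hij
      apply h2.injective
      simp only [hij]
    have hind' : ∀ a b : ℤ, (∀ i, a * e' i + b * e i = 0) → a = 0 ∧ b = 0 := by
      intro a b hab
      have := hind b a (fun i => by rw [add_comm]; exact hab i)
      exact ⟨this.2, this.1⟩
    exact caseA1 h hinf hι hX hD hind' (x := fun n => x (φ n)) (hx.comp hφ) (fun n => hxz _)
      (fun n => hxa _) (fun n => hx0 _) (w := fun n => w' (φ n)) (w' := fun n => w (φ n))
      (η := fun n => η' (φ n)) (η' := fun n => η (φ n)) (m := fun n => m' (φ n))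
      (m' := fun n => m (φ n)) (a := fun n => a' (φ n))
      (fun n => ⟨hm0' _, hpm' _, hw' _⟩) (fun n => ⟨hm0 _, hpm _, hw _⟩) (fun n => hη' _)
      (fun n => CaseA.primitive_pow (hη _) (h1 n)) (fun n => hUe' _) (fun n => hUe _)
      (fun B => ⟨B, h2.le_apply⟩)
  -- bounded case
  push Not at hA hA'
  obtain ⟨r1, hr1⟩ := hA
  obtain ⟨r2, hr2⟩ := hA'
  set r := max r1 r2 with hr
  have hbd : ∀ k, a k ≤ r ∧ a' k ≤ r := by
    intro k
    rcases le_total (a' k) (a k) with h1 | h1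
    · have h2 := hr1 k h1
      have h3 : r1 ≤ r := le_max_left _ _
      omega
    · have h2 := hr2 k h1
      have h3 : r2 ≤ r := le_max_right _ _
      omega
  have hηr : ∀ k, η k ^ (p ^ r) = 1 := fun k => CaseA.primitive_pow (hη k) (hbd k).1
  have hηr' : ∀ k, η' k ^ (p ^ r) = 1 := fun k => CaseA.primitive_pow (hη' k) (hbd k).2
  have hgex : ∀ k, ∃ g : ℂ_[p] ≃+* ℂ_[p], IsIso g ∧
      (∀ v : ℂ_[p], v ^ (m k * m' k) = 1 → g v = v ^ (p ^ 1)) ∧
      ∀ y : ℂ_[p], y ^ (p ^ r) = 1 → g y = y ^ 1 := fun k =>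
    exists_iso (m k * m' k) (Nat.mul_pos (hm0 k) (hm0' k))
      (fun hd => (hp.dvd_mul.1 hd).elim (hpm k) (hpm' k)) r 1 1
      (fun hd => hp.one_lt.ne' (Nat.dvd_one.1 hd))
  choose g hgi hgw hgy using hgex
  have hgwk : ∀ k, g k (w k) = w k ^ p := fun k => by
    have h1 := hgw k (w k) (by rw [pow_mul, hw, one_pow])
    rwa [pow_one] at h1
  have hgwk' : ∀ k, g k (w' k) = w' k ^ p := fun k => by
    have h1 := hgw k (w' k) (by rw [mul_comm, pow_mul, hw', one_pow])
    rwa [pow_one] at h1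
  have hgη : ∀ k, g k (η k) = η k := fun k => by
    have h1 := hgy k (η k) (hηr k)
    rwa [pow_one] at h1
  have hgη' : ∀ k, g k (η' k) = η' k := fun k => by
    have h1 := hgy k (η' k) (hηr' k)
    rwa [pow_one] at h1
  -- the pair lemma
  obtain ⟨N, M, hM, hT, hpl⟩ := pair_lemma h hinf hι hX hD hind
  have hpair := hpl (p ^ r) p (pow_pos hp.pos r) hp.pos x (fun k i => g k (x k i)) hx hxz
    (fun k => zer_iso (hxz k) (hgi k)) hxa (fun k i => algebraic_iso (hxa k i) (hgi k)) hx0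
    (fun k i => by
      have h1 := hx0 k i
      simpa using h1)
    (fun k => by
      rw [UU_iso, hUe, map_mul, hgwk, hgη, mul_pow, mul_pow, hηr, pow_mul (η k), hηr, one_pow,
        mul_one, mul_one, ← pow_mul, mul_comm])
    (fun k => by
      rw [UU_iso, hUe', map_mul, hgwk', hgη', mul_pow, mul_pow, hηr', pow_mul (η' k), hηr', one_pow,
        mul_one, mul_one, ← pow_mul, mul_comm])
  have hMne := h.eventually_ne hM hx hxz
  obtain ⟨B, hB⟩ := h.fibre hM hT
  -- the exponent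
  set W0 : ℕ := ∏ j ∈ Finset.range (B + 1), ∏ j' ∈ Finset.range (B + 1),
    (if j < j' then p ^ j' - p ^ j else 1) with hW0
  have hW0pos : 0 < W0 := by
    refine Finset.prod_pos fun j _ => Finset.prod_pos fun j' _ => ?_
    split_ifs with hj
    · exact Nat.sub_pos_of_lt (Nat.pow_lt_pow_right hp.one_lt hj)
    · exact Nat.one_pos
  have hdvd : ∀ j j', j < j' → j' ≤ B → p ^ j' - p ^ j ∣ W0 := by
    intro j j' hj hj'
    have h1 : (∏ j'' ∈ Finset.range (B + 1), (if j < j'' then p ^ j'' - p ^ j else 1)) ∣ W0 :=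
      Finset.dvd_prod_of_mem (fun j => ∏ j'' ∈ Finset.range (B + 1),
        (if j < j'' then p ^ j'' - p ^ j else 1)) (Finset.mem_range.2 (by omega))
    have h2 : (if j < j' then p ^ j' - p ^ j else 1) ∣
        (∏ j'' ∈ Finset.range (B + 1), (if j < j'' then p ^ j'' - p ^ j else 1)) :=
      Finset.dvd_prod_of_mem (fun j'' => (if j < j'' then p ^ j'' - p ^ j else 1))
        (Finset.mem_range.2 (by omega))
    rw [if_pos hj] at h2
    exact h2.trans h1
  have hmain : ∀ᶠ k in Filter.atTop, UU e (x k) ^ (W0 * p ^ r) = 1 := by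
    filter_upwards [hpair, hMne] with k hk1 hk2
    have hdisc : Disc (x k) := (hxz k).1
    set ρ : ℂ_[p] := ev (x k) N / ev (x k) M with hρ
    have hgM : g k (ev (x k) M) ≠ 0 := by simpa using hk2
    have hgρ : g k ρ = ρ := by
      rw [hρ, map_div₀, div_eq_div_iff hgM hk2]
      rw [ev_iso hdisc (hgi k), ev_iso hdisc (hgi k)] at hk1
      rw [hk1]
    have hρa : IsAlgebraic ℚ_[p] ρ := by
      rw [hρ, div_eq_mul_inv]
      exact (algebraic_ev hdisc (hxa k) N).mul (algebraic_ev hdisc (hxa k) M).inv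
    let z : ℕ → σ → ℂ_[p] := fun j i => (g k)^[j] (x k i)
    have hz0 : z 0 = x k := rfl
    have hzs : ∀ j, z (j + 1) = fun i => g k (z j i) := by
      intro j
      funext i
      exact Function.iterate_succ_apply' _ _ _
    have hzz : ∀ j, z j ∈ zer 𝔮 := by
      intro j
      induction j with
      | zero => exact hxz k
      | succ j ih => rw [hzs]; exact zer_iso ih (hgi k)
    have hzev : ∀ j, ev (z j) M ≠ 0 ∧ ev (z j) N = ρ * ev (z j) M := by
      intro j
      induction j with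
      | zero => exact ⟨hk2, by rw [hz0, hρ, div_mul_cancel₀ _ hk2]⟩
      | succ j ih =>
        rw [hzs, ev_iso (hzz j).1 (hgi k), ev_iso (hzz j).1 (hgi k)]
        refine ⟨by simpa using ih.1, ?_⟩
        rw [ih.2, map_mul, hgρ]
    have hzU : ∀ j, UU e (z j) = w k ^ (p ^ j) * η k := by
      intro j
      induction j with
      | zero => rw [hz0, pow_zero, pow_one]; exact hUe k
      | succ j ih =>
        rw [hzs, UU_iso, ih, map_mul, map_pow, hgwk, hgη, ← pow_mul, ← pow_succ']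
    -- two of the points coincide
    obtain ⟨j, j', hjj, hj', hzj⟩ : ∃ j j', j < j' ∧ j' ≤ B ∧ z j = z j' := by
      by_contra hcon
      push Not at hcon
      have hinj : Set.InjOn z (Finset.range (B + 1)) := by
        intro i hi j hj hij
        simp only [Finset.coe_range, Set.mem_Iio] at hi hj
        by_contra hne
        rcases lt_or_gt_of_ne hne with hlt | hlt
        · exact hcon i j hlt (by omega) hij
        · exact hcon j i hlt (by omega) hij.symm
      have h1 := hB ρ hρa ((Finset.range (B + 1)).image z) (by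
        intro v hv
        obtain ⟨j, _, rfl⟩ := Finset.mem_image.1 hv
        exact ⟨hzz j, (hzev j).1, (hzev j).2⟩)
      rw [Finset.card_image_of_injOn hinj, Finset.card_range] at h1
      omega
    have hw0 : w k ≠ 0 := by
      intro h0
      have h1 := hw k
      rw [h0, zero_pow (hm0 k).ne'] at h1
      exact zero_ne_one h1
    have hη0 : η k ≠ 0 := by
      intro h0
      have h1 := hηr k
      rw [h0, zero_pow (pow_pos hp.pos r).ne'] at h1
      exact zero_ne_one h1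
    have h2 : w k ^ (p ^ j) * η k = w k ^ (p ^ j') * η k := by
      rw [← hzU, ← hzU, hzj]
    have h3 : w k ^ (p ^ j) = w k ^ (p ^ j') := mul_right_cancel₀ hη0 h2
    have h4 : w k ^ (p ^ j' - p ^ j) = 1 := by
      have h5 : p ^ j ≤ p ^ j' := Nat.pow_le_pow_right hp.pos hjj.le
      rw [pow_sub₀ _ hw0 h5, ← h3, mul_inv_cancel₀ (pow_ne_zero _ hw0)]
    have h6 : w k ^ W0 = 1 := by
      obtain ⟨c, hc⟩ := hdvd j j' hjj hj'
      rw [hc, pow_mul, h4, one_pow]
    rw [hUe k, mul_pow, pow_mul, h6, one_pow, one_mul, mul_comm W0, pow_mul, hηr, one_pow]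
  -- contradiction
  have he : e ≠ 0 := by
    intro he
    have h1 := (hind 1 0 (fun i => by simp [he])).1
    exact one_ne_zero h1
  have hWpos : 0 < W0 * p ^ r := Nat.mul_pos hW0pos (pow_pos hp.pos r)
  have htr := tr_monomial h hinf hι hX hD he hWpos
  have hun : uneg p e ^ (W0 * p ^ r) ∉ 𝔮 := fun hmem =>
    (uneg_notMem h.prime hX e).1 (h.prime.mem_of_pow_mem _ hmem)
  obtain ⟨B', hB'⟩ := h.fibre hun htr
  obtain ⟨K, hK⟩ := Filter.eventually_atTop.1 hmain
  have hfin := hB' 1 isAlgebraic_one ((Finset.Ico K (K + (B' + 1))).image x) (by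
    intro v hv
    obtain ⟨k, hk, rfl⟩ := Finset.mem_image.1 hv
    have hkK : K ≤ k := (Finset.mem_Ico.1 hk).1
    have hdisc : Disc (x k) := (hxz k).1
    have hnz : ev (x k) (uneg p e) ≠ 0 := by
      rw [ev_uneg hdisc]
      exact Finset.prod_ne_zero_iff.2 fun i _ => pow_ne_zero _ (hx0 k i)
    have h1 := hK k hkK
    rw [UU_eq hdisc (hx0 k), div_pow, div_eq_one_iff_eq (pow_ne_zero _ hnz)] at h1
    refine ⟨hxz k, ?_, ?_⟩
    · rw [← evHom_apply hdisc, map_pow, evHom_apply]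
      exact pow_ne_zero _ hnz
    · rw [← evHom_apply hdisc, ← evHom_apply hdisc, map_pow, map_pow, evHom_apply, evHom_apply,
        one_mul, h1])
  rw [Finset.card_image_of_injective _ hx, Nat.card_Ico] at hfin
  omega

end Pool.Agent.ZPB
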