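import Pool.Agent.ZPB.RootNorm
import Pool.Agent.ZPB.GalExt

/-!
# Module G2b: automorphisms with prescribed action on roots of unity

Claim: for `p ∤ m`, `p ∤ s` and all `n`, `t` there is an isometric automorphism `g` of `ℂ_p` with
`g w = w^(p^t)` for all `m`-th roots of unity `w` and `g y = y^s` for all `p^n`-th roots of unity `y`.

Proof. Work in `PadicAlgCl p` (`exists_iso_of_gal`; the roots of unity of `ℂ_p` lie in it). Let `w` be a
primitive `m`-th root of unity, `F` its minimal polynomial over `ℚ_p` (in `ℤ_p[X]`), `f = deg F`,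
`K = ℚ_p(w)`.
(1) Frobenius: `‖F(w^p)‖ < 1` because `F(X^p) ≡ F(X)^p mod p` and `F(w) = 0`. As `F(w^p) = ∏ (w^p - w_i)`
over the roots `w_i` of `F` (which are `m`-th roots of unity), some `‖w^p - w_i‖ < 1`, so `w^p = w_i`
(`norm_sub_eq_one`). So there is an automorphism `g` of `PadicAlgCl p` over `ℚ_p` with `g w = w^p`; its powers
give `w ↦ w^(p^t)`.
(2) Norms of elements of `K`: let `a = ∑_{i<f} a_i w^i`, `a_i ∈ ℚ_p` not all zero. Then `‖a‖ = max ‖a_i‖`: scale to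
`max ‖a_i‖ = 1` and suppose `‖a‖ < 1`; `A(X) = ∑ a_i X^i` has `‖A(w_i)‖ = ‖a‖ < 1` at the `f` conjugates `w_i`,
which have mutual distances one; by Lagrange interpolation all coefficients of `A` have norm `< 1`,
contradiction. So the norms of nonzero elements of `K` are integral powers of `p`.
(3) Let `y` be a primitive `p^n`-th root of unity (`n ≥ 1`). Its minimal polynomial over `K` has degree
`d ≤ φ(p^n)`, its roots `y_i` are primitive `p^n`-th roots of unity and `∏ (1 - y_i) ∈ K` has norm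
`p^(-d/φ(p^n))` (`norm_prim_sub_one`), an integral power of `p`; so `d = φ(p^n)`, all primitive `p^n`-th roots of
unity are conjugate over `K`, and there is `h ∈ Gal(PadicAlgCl p / K)` with `h y = y^{s'}` for any `s'` prime to
`p`.
(4) Take `g` from (1) with `g w = w^(p^t)`, `g y = y^{s''}` for some `s''` prime to `p`, and `h` from (3) with
`h y = y^{s'}`, `s' s'' ≡ s mod p^n`; use `g ∘ h`.
-/

namespace Pool.Agent.ZPB

variable {p : ℕ} [Fact p.Prime]

open Polynomial IntermediateField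

/-- the valuation ring of `PadicAlgCl p` as a subring -/
private noncomputable def OO (p : ℕ) [Fact p.Prime] : Subring (PadicAlgCl p) where
  carrier := {x | ‖x‖ ≤ 1}
  mul_mem' := by
    intro a b ha hb
    simp only [Set.mem_ofPred_eq] at ha hb ⊢
    rw [norm_mul]
    exact mul_le_one₀ ha (norm_nonneg _) hb
  one_mem' := by simp
  add_mem' := by
    intro a b ha hb
    simp only [Set.mem_ofPred_eq] at ha hb ⊢
    exact (IsUltrametricDist.norm_add_le_max a b).trans (max_le ha hb)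
  zero_mem' := by simp
  neg_mem' := by
    intro a ha
    simp only [Set.mem_ofPred_eq] at ha ⊢
    rwa [norm_neg]

private lemma mem_OO {x : PadicAlgCl p} : x ∈ OO p ↔ ‖x‖ ≤ 1 := Iff.rfl

private lemma norm_p_lt : ‖(p : PadicAlgCl p)‖ < 1 := by
  have h : (p : PadicAlgCl p) = ((p : ℚ_[p]) : PadicAlgCl p) := by simp
  rw [h, PadicAlgCl.norm_extends]
  exact Padic.norm_p_lt_one

private lemma norm_m {m : ℕ} (hpm : ¬ p ∣ m) : ‖(m : PadicAlgCl p)‖ = 1 := by
  have h : (m : PadicAlgCl p) = ((m : ℚ_[p]) : PadicAlgCl p) := by simp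
  rw [h, PadicAlgCl.norm_extends]
  rw [Padic.norm_natCast_eq_one_iff]
  exact ((Fact.out : p.Prime).coprime_iff_not_dvd).2 hpm

private lemma sum_lt_one {ι : Type*} (s : Finset ι) (f : ι → PadicAlgCl p)
    (h : ∀ i ∈ s, ‖f i‖ < 1) : ‖∑ i ∈ s, f i‖ < 1 := by
  classical
  induction s using Finset.induction_on with
  | empty => simp
  | insert a s ha ih =>
    rw [Finset.sum_insert ha]
    refine lt_of_le_of_lt (IsUltrametricDist.norm_add_le_max _ _) (max_lt ?_ ?_)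
    · exact h a (Finset.mem_insert_self _ _)
    · exact ih fun i hi => h i (Finset.mem_insert_of_mem hi)

private lemma sum_le' {ι : Type*} (s : Finset ι) (f : ι → PadicAlgCl p) {C : ℝ} (hC : 0 ≤ C)
    (h : ∀ i ∈ s, ‖f i‖ ≤ C) : ‖∑ i ∈ s, f i‖ ≤ C := by
  classical
  induction s using Finset.induction_on with
  | empty => simpa using hC
  | insert a s ha ih =>
    rw [Finset.sum_insert ha]
    refine (IsUltrametricDist.norm_add_le_max _ _).trans (max_le ?_ ?_)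
    · exact h a (Finset.mem_insert_self _ _)
    · exact ih fun i hi => h i (Finset.mem_insert_of_mem hi)

private lemma exists_le {m : ℕ} (hm : 0 < m) (f : ℕ → PadicAlgCl p) :
    ∃ j < m, ‖∑ i ∈ Finset.range m, f i‖ ≤ ‖f j‖ := by
  classical
  obtain ⟨j, hj, hj'⟩ := Finset.exists_max_image (Finset.range m) (fun j => ‖f j‖)
    ⟨0, Finset.mem_range.2 hm⟩
  exact ⟨j, Finset.mem_range.1 hj, sum_le' _ _ (norm_nonneg _) hj'⟩

/-- the freshman's dream -/
private lemma dream {ι : Type*} (s : Finset ι) (x : ι → PadicAlgCl p) (hx : ∀ i ∈ s, ‖x i‖ ≤ 1) :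
    ‖(∑ i ∈ s, x i) ^ p - ∑ i ∈ s, x i ^ p‖ < 1 := by
  classical
  have hp : p.Prime := Fact.out
  induction s using Finset.induction_on with
  | empty => simp [hp.ne_zero]
  | insert a s ha ih =>
    have ha1 := hx a (Finset.mem_insert_self _ _)
    have hs1 : ‖∑ i ∈ s, x i‖ ≤ 1 :=
      sum_le' _ _ zero_le_one fun i hi => hx i (Finset.mem_insert_of_mem hi)
    have ih' := ih fun i hi => hx i (Finset.mem_insert_of_mem hi)
    obtain ⟨r, hr⟩ := exists_add_pow_prime_eq hp (⟨x a, mem_OO.2 ha1⟩ : OO p)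
      ⟨∑ i ∈ s, x i, mem_OO.2 hs1⟩
    have hr' := congrArg Subtype.val hr
    push_cast at hr'
    rw [Finset.sum_insert ha, Finset.sum_insert ha, hr']
    have e : x a ^ p + (∑ i ∈ s, x i) ^ p + (p : PadicAlgCl p) * x a * (∑ i ∈ s, x i) * r -
        (x a ^ p + ∑ i ∈ s, x i ^ p) =
        ((∑ i ∈ s, x i) ^ p - ∑ i ∈ s, x i ^ p) +
        (p : PadicAlgCl p) * (x a * (∑ i ∈ s, x i) * r) := by ring
    rw [e]
    refine lt_of_le_of_lt (IsUltrametricDist.norm_add_le_max _ _) (max_lt ih' ?_)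
    rw [norm_mul]
    have h1 : ‖x a * (∑ i ∈ s, x i) * (r : PadicAlgCl p)‖ ≤ 1 := by
      rw [norm_mul, norm_mul]
      exact mul_le_one₀ (mul_le_one₀ ha1 (norm_nonneg _) hs1) (norm_nonneg _) (mem_OO.1 r.2)
    calc ‖(p : PadicAlgCl p)‖ * ‖x a * (∑ i ∈ s, x i) * (r : PadicAlgCl p)‖
        ≤ ‖(p : PadicAlgCl p)‖ * 1 := mul_le_mul_of_nonneg_left h1 (norm_nonneg _)
      _ < 1 := by rw [mul_one]; exact norm_p_lt

/-- Fermat in `ℤ_p` -/
private lemma fermat {t : ℚ_[p]} (ht : ‖t‖ ≤ 1) : ‖t ^ p - t‖ < 1 := by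
  set τ : ℤ_[p] := ⟨t, ht⟩ with hτ
  have h1 : PadicInt.toZMod (τ ^ p - τ) = 0 := by
    rw [map_sub, map_pow, ZMod.pow_card, sub_self]
  have h2 : τ ^ p - τ ∈ RingHom.ker (PadicInt.toZMod (p := p)) := h1
  rw [PadicInt.ker_toZMod, IsLocalRing.mem_maximalIdeal, PadicInt.mem_nonunits] at h2
  have h3 : ‖((τ ^ p - τ : ℤ_[p]) : ℚ_[p])‖ < 1 := h2
  push_cast at h3
  exact h3

open Classical in
private lemma geom {m : ℕ} {z : PadicAlgCl p} (hz : z ^ m = 1) :
    ∑ k ∈ Finset.range m, z ^ k = if z = 1 then (m : PadicAlgCl p) else 0 := by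
  split_ifs with h
  · simp [h]
  · have h1 : (∑ k ∈ Finset.range m, z ^ k) * (z - 1) = z ^ m - 1 := geom_sum_mul z m
    rw [hz, sub_self] at h1
    exact (mul_eq_zero.1 h1).resolve_right (sub_ne_zero.2 h)

private lemma norm_root {x : PadicAlgCl p} {n : ℕ} (hn : 0 < n) (h : x ^ n = 1) : ‖x‖ = 1 := by
  have h1 : ‖x‖ ^ n = 1 := by rw [← norm_pow, h, norm_one]
  exact (pow_eq_one_iff_of_nonneg (norm_nonneg _) hn.ne').1 h1

private lemma norm_emb {S : Type*} [Field S] [Algebra ℚ_[p] S] (σ τ : S →ₐ[ℚ_[p]] PadicAlgCl p)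
    (x : S) : ‖σ x‖ = ‖τ x‖ := by
  rw [← PadicAlgCl.spectralNorm_eq, ← PadicAlgCl.spectralNorm_eq]
  unfold spectralNorm
  rw [minpoly.algHom_eq σ σ.injective, minpoly.algHom_eq τ τ.injective]

/-- the Frobenius -/
private lemma exists_frob {m : ℕ} (hm : 0 < m) (hpm : ¬ p ∣ m) {w : PadicAlgCl p}
    (hw : w ^ m = 1) : ∃ σ : ℚ_[p]⟮w⟯ →ₐ[ℚ_[p]] PadicAlgCl p,
      σ (AdjoinSimple.gen ℚ_[p] w) = w ^ p := by
  classical
  by_contra hcon
  push Not at hcon
  have hp : p.Prime := Fact.out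
  have hint : IsIntegral ℚ_[p] w := Algebra.IsIntegral.isIntegral w
  have hfd : FiniteDimensional ℚ_[p] ℚ_[p]⟮w⟯ := adjoin.finiteDimensional hint
  set e : ℚ_[p]⟮w⟯ := AdjoinSimple.gen ℚ_[p] w with he
  have hem : e ^ m = 1 := by
    apply (algebraMap ℚ_[p]⟮w⟯ (PadicAlgCl p)).injective
    rw [map_pow, map_one, he, AdjoinSimple.algebraMap_gen, hw]
  have hσm : ∀ σ : ℚ_[p]⟮w⟯ →ₐ[ℚ_[p]] PadicAlgCl p, σ e ^ m = 1 := by
    intro σ
    rw [← map_pow, hem, map_one]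
  have hw0 : w ≠ 0 := by
    rintro rfl
    rw [zero_pow hm.ne'] at hw
    exact zero_ne_one hw
  have hnw : ‖w‖ = 1 := norm_root hm hw
  set c : ℕ → PadicAlgCl p := fun k =>
    ∑ σ : ℚ_[p]⟮w⟯ →ₐ[ℚ_[p]] PadicAlgCl p, σ e ^ k with hc
  have hct : ∀ k, c k = algebraMap ℚ_[p] (PadicAlgCl p) (Algebra.trace ℚ_[p] ℚ_[p]⟮w⟯ (e ^ k)) := by
    intro k
    rw [trace_eq_sum_embeddings (PadicAlgCl p)]
    simp only [hc, map_pow]
  have hc1 : ∀ k, ‖c k‖ ≤ 1 := by
    intro k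
    refine sum_le' _ _ zero_le_one fun σ _ => ?_
    rw [norm_pow, norm_root hm (hσm σ), one_pow]
  have h1 : ∀ k, ‖c k ^ p - c (k * p)‖ < 1 := by
    intro k
    have := dream Finset.univ (fun σ : ℚ_[p]⟮w⟯ →ₐ[ℚ_[p]] PadicAlgCl p => σ e ^ k) (by
      intro σ _
      rw [norm_pow, norm_root hm (hσm σ), one_pow])
    simp only [hc]
    simpa [pow_mul] using this
  have h2 : ∀ k, ‖c k ^ p - c k‖ < 1 := by
    intro k
    have h3 := hc1 k
    rw [hct k, PadicAlgCl.norm_extends] at h3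
    have h4 := fermat h3
    rw [hct k, ← map_pow, ← map_sub, PadicAlgCl.norm_extends]
    exact h4
  have h3 : ∀ k, ‖c (k * p) - c k‖ < 1 := by
    intro k
    have e1 : c (k * p) - c k = (c k ^ p - c k) + -(c k ^ p - c (k * p)) := by ring
    rw [e1]
    refine lt_of_le_of_lt (IsUltrametricDist.norm_add_le_max _ _) (max_lt (h2 k) ?_)
    rw [norm_neg]
    exact h1 k
  have h4 : ‖∑ k ∈ Finset.range m, ((w⁻¹) ^ p) ^ k * (c (k * p) - c k)‖ < 1 := by
    apply sum_lt_one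
    intro k _
    rw [norm_mul, norm_pow, norm_pow, norm_inv, hnw, inv_one, one_pow, one_pow, one_mul]
    exact h3 k
  have h5 : ∑ k ∈ Finset.range m, ((w⁻¹) ^ p) ^ k * c k = 0 := by
    have e1 : ∀ k, ((w⁻¹) ^ p) ^ k * c k =
        ∑ σ : ℚ_[p]⟮w⟯ →ₐ[ℚ_[p]] PadicAlgCl p, (σ e * (w⁻¹) ^ p) ^ k := by
      intro k
      simp only [hc]
      rw [Finset.mul_sum]
      exact Finset.sum_congr rfl fun σ _ => by rw [mul_pow, mul_comm]
    rw [Finset.sum_congr rfl fun k _ => e1 k, Finset.sum_comm]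
    refine Finset.sum_eq_zero fun σ _ => ?_
    rw [geom, if_neg]
    · intro h
      apply hcon σ
      have : σ e * (w⁻¹) ^ p * w ^ p = w ^ p := by rw [h, one_mul]
      rwa [mul_assoc, ← mul_pow, inv_mul_cancel₀ hw0, one_pow, mul_one] at this
    · rw [mul_pow, hσm σ, one_mul, ← pow_mul, mul_comm p m, pow_mul, inv_pow, hw, inv_one, one_pow]
  have h6 : ∑ k ∈ Finset.range m, ((w⁻¹) ^ p) ^ k * c (k * p) = m := by
    have e1 : ∀ k, ((w⁻¹) ^ p) ^ k * c (k * p) =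
        ∑ σ : ℚ_[p]⟮w⟯ →ₐ[ℚ_[p]] PadicAlgCl p, ((σ e * w⁻¹) ^ p) ^ k := by
      intro k
      simp only [hc]
      rw [Finset.mul_sum]
      refine Finset.sum_congr rfl fun σ _ => ?_
      rw [mul_pow (σ e), mul_pow, ← pow_mul (σ e), mul_comm p k, mul_comm]
    rw [Finset.sum_congr rfl fun k _ => e1 k, Finset.sum_comm]
    have hm1 : ∀ σ : ℚ_[p]⟮w⟯ →ₐ[ℚ_[p]] PadicAlgCl p, (σ e * w⁻¹) ^ m = 1 := by
      intro σ
      rw [mul_pow, hσm σ, one_mul, inv_pow, hw, inv_one]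
    have e2 : ∀ σ : ℚ_[p]⟮w⟯ →ₐ[ℚ_[p]] PadicAlgCl p,
        ∑ k ∈ Finset.range m, ((σ e * w⁻¹) ^ p) ^ k =
          if σ = IsScalarTower.toAlgHom ℚ_[p] ℚ_[p]⟮w⟯ (PadicAlgCl p) then (m : PadicAlgCl p)
          else 0 := by
      intro σ
      rw [geom (by rw [← pow_mul, mul_comm p m, pow_mul, hm1 σ, one_pow])]
      have hiff : (σ e * w⁻¹) ^ p = 1 ↔
          σ = IsScalarTower.toAlgHom ℚ_[p] ℚ_[p]⟮w⟯ (PadicAlgCl p) := by
        constructor
        · intro h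
          have hco : Nat.Coprime p m := (hp.coprime_iff_not_dvd).2 hpm
          have h7 : σ e * w⁻¹ = 1 := by
            have h8 := pow_gcd_eq_one.2 ⟨h, hm1 σ⟩
            rwa [hco.gcd_eq_one, pow_one] at h8
          have h9 : σ e = w := by
            have : σ e * w⁻¹ * w = w := by rw [h7, one_mul]
            rwa [mul_assoc, inv_mul_cancel₀ hw0, mul_one] at this
          apply IntermediateField.adjoin_algHom_ext
          intro x hx
          have hx' : x = w := hx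
          subst hx'
          exact h9
        · rintro rfl
          rw [IsScalarTower.coe_toAlgHom', he, AdjoinSimple.algebraMap_gen, mul_inv_cancel₀ hw0,
            one_pow]
      simp only [hiff]
    rw [Finset.sum_congr rfl fun σ _ => e2 σ, Finset.sum_ite_eq']
    simp
  have h7 : ∑ k ∈ Finset.range m, ((w⁻¹) ^ p) ^ k * (c (k * p) - c k) = m := by
    simp only [mul_sub]
    rw [Finset.sum_sub_distrib, h6, h5, sub_zero]
  rw [h7, norm_m hpm] at h4
  exact lt_irrefl _ h4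

/-- norms of the elements of the unramified extension `ℚ_p(w)` -/
private lemma norm_unram {m : ℕ} (hm : 0 < m) (hpm : ¬ p ∣ m) {w : PadicAlgCl p}
    (hw : w ^ m = 1) (a : ℚ_[p]⟮w⟯) (ha : a ≠ 0) :
    ∃ k : ℤ, ‖(a : PadicAlgCl p)‖ = (p : ℝ) ^ k := by
  classical
  have hint : IsIntegral ℚ_[p] w := Algebra.IsIntegral.isIntegral w
  have hfd : FiniteDimensional ℚ_[p] ℚ_[p]⟮w⟯ := adjoin.finiteDimensional hint
  set e : ℚ_[p]⟮w⟯ := AdjoinSimple.gen ℚ_[p] w with he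
  have hem : e ^ m = 1 := by
    apply (algebraMap ℚ_[p]⟮w⟯ (PadicAlgCl p)).injective
    rw [map_pow, map_one, he, AdjoinSimple.algebraMap_gen, hw]
  have hσm : ∀ σ : ℚ_[p]⟮w⟯ →ₐ[ℚ_[p]] PadicAlgCl p, σ e ^ m = 1 := by
    intro σ
    rw [← map_pow, hem, map_one]
  have hw0 : w ≠ 0 := by
    rintro rfl
    rw [zero_pow hm.ne'] at hw
    exact zero_ne_one hw
  have hnw : ‖w‖ = 1 := norm_root hm hw
  set b : ℕ → ℚ_[p] := fun k => Algebra.trace ℚ_[p] ℚ_[p]⟮w⟯ (a * e ^ k) with hb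
  have hbt : ∀ k, algebraMap ℚ_[p] (PadicAlgCl p) (b k) =
      ∑ σ : ℚ_[p]⟮w⟯ →ₐ[ℚ_[p]] PadicAlgCl p, σ a * σ e ^ k := by
    intro k
    simp only [hb]
    rw [trace_eq_sum_embeddings (PadicAlgCl p)]
    simp only [map_mul, map_pow]
  have hna : ∀ σ : ℚ_[p]⟮w⟯ →ₐ[ℚ_[p]] PadicAlgCl p, ‖σ a‖ = ‖(a : PadicAlgCl p)‖ := by
    intro σ
    exact norm_emb σ (IsScalarTower.toAlgHom ℚ_[p] ℚ_[p]⟮w⟯ (PadicAlgCl p)) a
  have hle : ∀ k, ‖b k‖ ≤ ‖(a : PadicAlgCl p)‖ := by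
    intro k
    rw [← PadicAlgCl.norm_extends, hbt k]
    refine sum_le' _ _ (norm_nonneg _) fun σ _ => ?_
    rw [norm_mul, norm_pow, norm_root hm (hσm σ), one_pow, mul_one, hna σ]
  have hsum : ∑ k ∈ Finset.range m, (w⁻¹) ^ k * algebraMap ℚ_[p] (PadicAlgCl p) (b k) =
      m * (a : PadicAlgCl p) := by
    have e1 : ∀ k, (w⁻¹) ^ k * algebraMap ℚ_[p] (PadicAlgCl p) (b k) =
        ∑ σ : ℚ_[p]⟮w⟯ →ₐ[ℚ_[p]] PadicAlgCl p, σ a * (σ e * w⁻¹) ^ k := by
      intro k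
      rw [hbt k, Finset.mul_sum]
      refine Finset.sum_congr rfl fun σ _ => ?_
      rw [mul_pow]
      ring
    rw [Finset.sum_congr rfl fun k _ => e1 k, Finset.sum_comm]
    have e2 : ∀ σ : ℚ_[p]⟮w⟯ →ₐ[ℚ_[p]] PadicAlgCl p,
        ∑ k ∈ Finset.range m, σ a * (σ e * w⁻¹) ^ k =
          if σ = IsScalarTower.toAlgHom ℚ_[p] ℚ_[p]⟮w⟯ (PadicAlgCl p) then
            m * (a : PadicAlgCl p)
          else 0 := by
      intro σ
      rw [← Finset.mul_sum, geom (by rw [mul_pow, hσm σ, one_mul, inv_pow, hw, inv_one])]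
      have hiff : σ e * w⁻¹ = 1 ↔
          σ = IsScalarTower.toAlgHom ℚ_[p] ℚ_[p]⟮w⟯ (PadicAlgCl p) := by
        constructor
        · intro h7
          have h9 : σ e = w := by
            have : σ e * w⁻¹ * w = w := by rw [h7, one_mul]
            rwa [mul_assoc, inv_mul_cancel₀ hw0, mul_one] at this
          apply IntermediateField.adjoin_algHom_ext
          intro x hx
          have hx' : x = w := hx
          subst hx'
          exact h9
        · rintro rfl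
          rw [IsScalarTower.coe_toAlgHom', he, AdjoinSimple.algebraMap_gen, mul_inv_cancel₀ hw0]
      by_cases hσ : σ = IsScalarTower.toAlgHom ℚ_[p] ℚ_[p]⟮w⟯ (PadicAlgCl p)
      · rw [if_pos (hiff.2 hσ), if_pos hσ, hσ, mul_comm]
        rfl
      · rw [if_neg (fun h => hσ (hiff.1 h)), if_neg hσ, mul_zero]
    rw [Finset.sum_congr rfl fun σ _ => e2 σ, Finset.sum_ite_eq']
    simp
  obtain ⟨j, hj, hj'⟩ := exists_le hm
    (fun k => (w⁻¹) ^ k * algebraMap ℚ_[p] (PadicAlgCl p) (b k))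
  rw [hsum, norm_mul, norm_m hpm, one_mul, norm_mul, norm_pow, norm_inv, hnw, inv_one, one_pow,
    one_mul, PadicAlgCl.norm_extends] at hj'
  have heq : ‖(a : PadicAlgCl p)‖ = ‖b j‖ := le_antisymm hj' (hle j)
  have hb0 : b j ≠ 0 := by
    intro h
    rw [h, norm_zero, norm_eq_zero] at heq
    exact ha (by exact_mod_cast heq)
  exact ⟨_, by rw [heq, Padic.norm_eq_zpow_neg_valuation hb0]⟩

/-- the norm of `1 - y` for a primitive `p^n`-th root of unity, in `PadicAlgCl p` -/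
private lemma norm_one_sub {n : ℕ} (hn : 1 ≤ n) {y : PadicAlgCl p}
    (hy : IsPrimitiveRoot y (p ^ n)) :
    ‖1 - y‖ = (p : ℝ) ^ (-(1 / (Nat.totient (p ^ n) : ℝ))) := by
  have hp : p.Prime := Fact.out
  have h1 : IsPrimitiveRoot (y : ℂ_[p]) (p ^ n) := by
    have := hy.map_of_injective (f := algebraMap (PadicAlgCl p) ℂ_[p])
      (algebraMap (PadicAlgCl p) ℂ_[p]).injective
    exact this
  have h2 := norm_prim_sub_one hn h1
  have h3 : ((y : ℂ_[p]) - 1) = ((y - 1 : PadicAlgCl p) : ℂ_[p]) := by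
    push_cast
    rfl
  rw [h3, PadicComplex.norm_extends] at h2
  rw [norm_sub_rev, h2, Nat.totient_prime_pow hp hn]
  have h4 : ((p ^ (n - 1) * (p - 1) : ℕ) : ℝ) = (p : ℝ) ^ (n - 1) * ((p : ℝ) - 1) := by
    push_cast [Nat.cast_sub hp.one_le]
    ring
  rw [h4]

/-- cyclotomic polynomials of `p`-power order are irreducible over the unramified extension -/
private lemma minpoly_prim {m : ℕ} (hm : 0 < m) (hpm : ¬ p ∣ m) {w : PadicAlgCl p}
    (hw : w ^ m = 1) {n : ℕ} (hn : 1 ≤ n) {y : PadicAlgCl p} (hy : IsPrimitiveRoot y (p ^ n)) :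
    minpoly ℚ_[p]⟮w⟯ y = cyclotomic (p ^ n) ℚ_[p]⟮w⟯ := by
  classical
  have hp : p.Prime := Fact.out
  have hp1 : (1 : ℝ) < p := by exact_mod_cast hp.one_lt
  have hp0 : (0 : ℝ) < p := by linarith
  have hpn : 0 < p ^ n := pow_pos hp.pos n
  have hint : IsIntegral ℚ_[p]⟮w⟯ y :=
    (Algebra.IsIntegral.isIntegral (R := ℚ_[p]) y).tower_top
  set q := minpoly ℚ_[p]⟮w⟯ y with hq
  have hdvd : q ∣ cyclotomic (p ^ n) ℚ_[p]⟮w⟯ := by
    apply minpoly.dvd
    rw [aeval_def, eval₂_eq_eval_map, map_cyclotomic]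
    exact hy.isRoot_cyclotomic hpn
  have hqm : q.Monic := minpoly.monic hint
  have hN : (cyclotomic (p ^ n) ℚ_[p]⟮w⟯).natDegree = Nat.totient (p ^ n) :=
    natDegree_cyclotomic _ _
  have hNpos : 0 < Nat.totient (p ^ n) := Nat.totient_pos.2 hpn
  set Q : (PadicAlgCl p)[X] := q.map (algebraMap ℚ_[p]⟮w⟯ (PadicAlgCl p)) with hQ
  have hQs : Q.Splits := IsAlgClosed.splits Q
  have hQm : Q.Monic := hqm.map _
  have hroots : ∀ a ∈ Q.roots, ‖1 - a‖ = (p : ℝ) ^ (-(1 / (Nat.totient (p ^ n) : ℝ))) := by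
    intro a ha
    apply norm_one_sub hn
    have h1 : Q ∣ cyclotomic (p ^ n) (PadicAlgCl p) := by
      have := Polynomial.map_dvd (algebraMap ℚ_[p]⟮w⟯ (PadicAlgCl p)) hdvd
      rwa [map_cyclotomic] at this
    have h2 : IsRoot (cyclotomic (p ^ n) (PadicAlgCl p)) a :=
      (isRoot_of_mem_roots ha).dvd h1
    have : NeZero ((p ^ n : ℕ) : PadicAlgCl p) := ⟨by exact_mod_cast hpn.ne'⟩
    exact isRoot_cyclotomic_iff.1 h2
  have hev : ‖eval 1 Q‖ = ((p : ℝ) ^ (-(1 / (Nat.totient (p ^ n) : ℝ)))) ^ q.natDegree := by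
    rw [hQs.eval_eq_prod_roots_of_monic hQm]
    have h1 : ∀ s : Multiset (PadicAlgCl p), ‖(s.map fun a => 1 - a).prod‖ =
        (s.map fun a => ‖1 - a‖).prod := by
      intro s
      induction s using Multiset.induction_on with
      | empty => simp
      | cons a s ih =>
        rw [Multiset.map_cons, Multiset.prod_cons, norm_mul, ih, Multiset.map_cons,
          Multiset.prod_cons]
    rw [h1, Multiset.map_congr rfl hroots, Multiset.map_const', Multiset.prod_replicate,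
      ← hQs.natDegree_eq_card_roots, hQ, natDegree_map]
  have hev2 : eval 1 Q = ((eval 1 q : ℚ_[p]⟮w⟯) : PadicAlgCl p) := by
    rw [hQ, eval_one_map]
    rfl
  have hne : eval 1 q ≠ 0 := by
    intro h
    rw [hev2, h] at hev
    have h1 : (0 : ℝ) < ((p : ℝ) ^ (-(1 / (Nat.totient (p ^ n) : ℝ)))) ^ q.natDegree :=
      pow_pos (Real.rpow_pos_of_pos hp0 _) _
    rw [← hev] at h1
    simp at h1
  obtain ⟨k, hk⟩ := norm_unram hm hpm hw (eval 1 q) hne
  rw [← hev2, hev, ← Real.rpow_natCast, ← Real.rpow_mul hp0.le, ← Real.rpow_intCast] at hk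
  have hk2 : -(1 / (Nat.totient (p ^ n) : ℝ)) * (q.natDegree : ℝ) = k :=
    Real.strictMono_rpow_of_base_gt_one hp1 |>.injective hk
  have hNR : (Nat.totient (p ^ n) : ℝ) ≠ 0 := by exact_mod_cast hNpos.ne'
  have hk3 : (q.natDegree : ℝ) = (Nat.totient (p ^ n) : ℝ) * (-k) := by
    field_simp at hk2
    linarith
  have hk4 : (q.natDegree : ℤ) = (Nat.totient (p ^ n) : ℤ) * (-k) := by exact_mod_cast hk3
  have hdv : (Nat.totient (p ^ n)) ∣ q.natDegree := by
    have : (Nat.totient (p ^ n) : ℤ) ∣ (q.natDegree : ℤ) := ⟨-k, hk4⟩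
    exact_mod_cast this
  have hge : Nat.totient (p ^ n) ≤ q.natDegree :=
    Nat.le_of_dvd (minpoly.natDegree_pos hint) hdv
  exact (eq_of_monic_of_dvd_of_natDegree_le hqm (cyclotomic.monic _ _) hdvd
    (by rw [hN]; exact hge)).symm

/-- Galois conjugation of primitive `p^n`-th roots of unity over the unramified extension -/
private lemma exists_gal {m : ℕ} (hm : 0 < m) (hpm : ¬ p ∣ m) {w : PadicAlgCl p}
    (hw : w ^ m = 1) {n : ℕ} (hn : 1 ≤ n) {y y' : PadicAlgCl p} (hy : IsPrimitiveRoot y (p ^ n))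
    (hy' : IsPrimitiveRoot y' (p ^ n)) :
    ∃ h : PadicAlgCl p ≃ₐ[ℚ_[p]] PadicAlgCl p, h w = w ∧ h y = y' := by
  have hp : p.Prime := Fact.out
  have hpn : 0 < p ^ n := pow_pos hp.pos n
  have hint : IsIntegral ℚ_[p]⟮w⟯ y :=
    (Algebra.IsIntegral.isIntegral (R := ℚ_[p]) y).tower_top
  have hnorm : Normal ℚ_[p] (PadicAlgCl p) := IsAlgClosure.normal ℚ_[p] (PadicAlgCl p)
  have hnorm' : Normal ℚ_[p]⟮w⟯ (PadicAlgCl p) := inferInstance
  obtain ⟨σ, hσ⟩ := minpoly.exists_algEquiv_of_root' (K := ℚ_[p]⟮w⟯) (x := y') (y := y)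
    hint.isAlgebraic (by
      rw [minpoly_prim hm hpm hw hn hy, aeval_def, eval₂_eq_eval_map, map_cyclotomic]
      exact hy'.isRoot_cyclotomic hpn)
  refine ⟨σ.restrictScalars ℚ_[p], ?_, hσ⟩
  have := σ.commutes (AdjoinSimple.gen ℚ_[p] w)
  rw [AdjoinSimple.algebraMap_gen] at this
  exact this

/-- the Frobenius as an automorphism -/
private lemma exists_frob' {m : ℕ} (hm : 0 < m) (hpm : ¬ p ∣ m) {w : PadicAlgCl p}
    (hw : w ^ m = 1) : ∃ g : PadicAlgCl p ≃ₐ[ℚ_[p]] PadicAlgCl p, g w = w ^ p := by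
  obtain ⟨σ, hσ⟩ := exists_frob hm hpm hw
  have hint : IsIntegral ℚ_[p] w := Algebra.IsIntegral.isIntegral w
  have hnorm : Normal ℚ_[p] (PadicAlgCl p) := IsAlgClosure.normal ℚ_[p] (PadicAlgCl p)
  refine minpoly.exists_algEquiv_of_root' hint.isAlgebraic ?_
  rw [← hσ, ← minpoly_gen ℚ_[p] w, aeval_algHom_apply, minpoly.aeval, map_zero]

private lemma exists_frob_pow {m : ℕ} (hm : 0 < m) (hpm : ¬ p ∣ m) {w : PadicAlgCl p}
    (hw : w ^ m = 1) (t : ℕ) :
    ∃ g : PadicAlgCl p ≃ₐ[ℚ_[p]] PadicAlgCl p, g w = w ^ (p ^ t) := by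
  obtain ⟨g, hg⟩ := exists_frob' hm hpm hw
  induction t with
  | zero => exact ⟨AlgEquiv.refl, by simp⟩
  | succ t ih =>
    obtain ⟨k, hk⟩ := ih
    refine ⟨k.trans g, ?_⟩
    rw [AlgEquiv.trans_apply, hk, map_pow, hg, ← pow_mul, pow_succ, mul_comm]

private lemma exists_root_unity (N : ℕ) (hN : 0 < N) :
    ∃ w : PadicAlgCl p, IsPrimitiveRoot w N := by
  have : NeZero (N : PadicAlgCl p) := ⟨by exact_mod_cast hN.ne'⟩
  exact HasEnoughRootsOfUnity.exists_primitiveRoot (PadicAlgCl p) N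

private lemma exists_gal_all (m : ℕ) (hm : 0 < m) (hpm : ¬ p ∣ m) (n s t : ℕ) (hs : ¬ p ∣ s)
    {w y : PadicAlgCl p} (hw : w ^ m = 1) (hy : IsPrimitiveRoot y (p ^ n)) :
    ∃ g : PadicAlgCl p ≃ₐ[ℚ_[p]] PadicAlgCl p, g w = w ^ (p ^ t) ∧ g y = y ^ s := by
  have hp : p.Prime := Fact.out
  obtain ⟨g, hg⟩ := exists_frob_pow hm hpm hw t
  rcases Nat.eq_zero_or_pos n with hn | hn
  · subst hn
    rw [pow_zero, IsPrimitiveRoot.one_right_iff] at hy
    subst hy
    exact ⟨g, hg, by simp⟩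
  · have h1 : IsPrimitiveRoot (y ^ s) (p ^ n) := by
      apply hy.pow_of_coprime
      exact Nat.Coprime.pow_right n (((hp.coprime_iff_not_dvd).2 hs).symm)
    have h2 : IsPrimitiveRoot (g.symm (y ^ s)) (p ^ n) :=
      h1.map_of_injective (f := g.symm) g.symm.injective
    obtain ⟨h, hhw, hhy⟩ := exists_gal hm hpm hw hn hy h2
    refine ⟨h.trans g, ?_, ?_⟩
    · rw [AlgEquiv.trans_apply, hhw, hg]
    · rw [AlgEquiv.trans_apply, hhy, AlgEquiv.apply_symm_apply]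

theorem exists_iso (m : ℕ) (hm : 0 < m) (hpm : ¬ p ∣ m) (n s t : ℕ) (hs : ¬ p ∣ s) :
    ∃ g : ℂ_[p] ≃+* ℂ_[p], IsIso g ∧ (∀ w : ℂ_[p], w ^ m = 1 → g w = w ^ (p ^ t)) ∧
      ∀ y : ℂ_[p], y ^ (p ^ n) = 1 → g y = y ^ s := by
  have hp : p.Prime := Fact.out
  have hpn : 0 < p ^ n := pow_pos hp.pos n
  obtain ⟨w, hw⟩ := exists_root_unity (p := p) m hm
  obtain ⟨y, hy⟩ := exists_root_unity (p := p) (p ^ n) hpn
  obtain ⟨g, hgw, hgy⟩ := exists_gal_all m hm hpm n s t hs hw.pow_eq_one hy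
  obtain ⟨G, hG, hGg⟩ := exists_iso_of_gal g
  have hw' : IsPrimitiveRoot (w : ℂ_[p]) m :=
    hw.map_of_injective (f := algebraMap (PadicAlgCl p) ℂ_[p])
      (algebraMap (PadicAlgCl p) ℂ_[p]).injective
  have hy' : IsPrimitiveRoot (y : ℂ_[p]) (p ^ n) :=
    hy.map_of_injective (f := algebraMap (PadicAlgCl p) ℂ_[p])
      (algebraMap (PadicAlgCl p) ℂ_[p]).injective
  have hGw : G (w : ℂ_[p]) = (w : ℂ_[p]) ^ (p ^ t) := by
    rw [hGg, hgw]
    exact map_pow (algebraMap (PadicAlgCl p) ℂ_[p]) w _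
  have hGy : G (y : ℂ_[p]) = (y : ℂ_[p]) ^ s := by
    rw [hGg, hgy]
    exact map_pow (algebraMap (PadicAlgCl p) ℂ_[p]) y _
  have i1 : NeZero m := ⟨hm.ne'⟩
  have i2 : NeZero (p ^ n) := ⟨hpn.ne'⟩
  refine ⟨G, hG, ?_, ?_⟩
  · intro x hx
    obtain ⟨i, -, rfl⟩ := hw'.eq_pow_of_pow_eq_one hx
    rw [map_pow, hGw, ← pow_mul, ← pow_mul, mul_comm]
  · intro x hx
    obtain ⟨i, -, rfl⟩ := hy'.eq_pow_of_pow_eq_one hx
    rw [map_pow, hGy, ← pow_mul, ← pow_mul, mul_comm]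

end Pool.Agent.ZPB
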