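import Pool.Agent.ZPB.PairLemma
import Pool.Agent.ZPB.Galois

/-!
# Module A1: torsion values with unbounded `p`-part

Let `(N, M)` and its bound `B` be given by `pair_lemma` and `IsCurve.fibre`. `UU e (x k) = w_k η_k` with `w_k^{m_k} = 1`,
`p ∤ m_k`, `η_k` of exact order `p^{a_k}`, and `UU e' (x k) = w'_k η'_k` with `w'_k^{m'_k} = 1`, `η'_k^(p^{a_k}) = 1`, `a_k → ∞`
along a subsequence (unbounded). Fix `r` with `p^r > B`. For `a_k ≥ 2 r + 1` and `s < p^r` let `g_{k,s}` be given by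
`exists_iso` (`m = m_k m'_k`, `n = a_k`, exponent `1 + s p^(a_k - r)`, `t = 0`): it fixes `w_k, w'_k` and raises
`p^{a_k}`-th roots of unity to the power `1 + s p^(a_k - r)`. Put `y_{k,s} = g_{k,s}(x k) ∈ zer 𝔮`. Then
`UU e (y)^(p^r) = UU e (x)^(p^r)`, `UU e' (y)^(p^r) = UU e' (x)^(p^r)`, so by the pair lemma (`A = p^r`, `Q = 1`), for all
large `k` in the subsequence and all `s < p^r`: `N(x) M(y) = N(y) M(x)`; `M(x_k) ≠ 0` for large `k` (`eventually_ne`)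
and `M(y) = g(M(x)) ≠ 0`. So the `p^r > B` points `y_{k,s}` (distinct because `UU e (y_{k,s}) = w_k η_k^(1 + s p^(a_k-r))`
are distinct) lie in the fibre of `N/M` over the algebraic number `N(x_k)/M(x_k)`: contradiction.
-/

namespace Pool.Agent.ZPB

open MvPowerSeries

variable {p : ℕ} [Fact p.Prime] {σ : Type} [Fintype σ] {L : Type} [Field L]

theorem caseA1_pow {w η : ℂ_[p]} {a r s : ℕ} (har : r ≤ a) (hη : η ^ (p ^ a) = 1) :
    (w * η ^ (1 + s * p ^ (a - r))) ^ (p ^ r) = (w * η) ^ (p ^ r * 1) := by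
  rw [mul_pow, mul_one, mul_pow, ← pow_mul]
  congr 1
  have h1 : (1 + s * p ^ (a - r)) * p ^ r = p ^ r + p ^ a * s := by
    have h2 : p ^ (a - r) * p ^ r = p ^ a := by
      rw [← pow_add, Nat.sub_add_cancel har]
    calc (1 + s * p ^ (a - r)) * p ^ r = p ^ r + s * (p ^ (a - r) * p ^ r) := by ring
      _ = p ^ r + p ^ a * s := by rw [h2]; ring
  rw [h1, pow_add, pow_mul, hη, one_pow, mul_one]

theorem caseA1 {𝔮 : Ideal (RR p σ)} {t : RR p σ} (h : IsCurve 𝔮 t) (hinf : (zer 𝔮).Infinite)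
    {ι : RR p σ →+* L} (hι : IsFF 𝔮 ι) (hX : ∀ i, (X i : RR p σ) ∉ 𝔮) (hD : DlogIndep ι)
    {e e' : σ → ℤ} (hind : ∀ a b : ℤ, (∀ i, a * e i + b * e' i = 0) → a = 0 ∧ b = 0)
    {x : ℕ → σ → ℂ_[p]} (hx : Function.Injective x) (hxz : ∀ k, x k ∈ zer 𝔮)
    (hxa : ∀ k, AlgPt (x k)) (hx0 : ∀ k i, x k i ≠ 0) {w w' η η' : ℕ → ℂ_[p]} {m m' a : ℕ → ℕ}
    (hm : ∀ k, 0 < m k ∧ ¬ p ∣ m k ∧ w k ^ m k = 1) (hm' : ∀ k, 0 < m' k ∧ ¬ p ∣ m' k ∧ w' k ^ m' k = 1)
    (hη : ∀ k, IsPrimitiveRoot (η k) (p ^ a k)) (hη' : ∀ k, η' k ^ (p ^ a k) = 1)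
    (hU : ∀ k, UU e (x k) = w k * η k) (hU' : ∀ k, UU e' (x k) = w' k * η' k)
    (ha : ∀ B, ∃ k, B ≤ a k) : False := by
  classical
  have hp : p.Prime := Fact.out
  obtain ⟨N, M, hM, hT, hpair⟩ := pair_lemma h hinf hι hX hD hind
  obtain ⟨B, hB⟩ := h.fibre hM hT
  obtain ⟨r, hr⟩ : ∃ r : ℕ, B < p ^ r := ⟨B, Nat.lt_pow_self hp.one_lt⟩
  -- a subsequence
  have hfreq : ∃ᶠ k in Filter.atTop, 2 * r + 1 ≤ a k := by
    rw [Filter.frequently_atTop]
    intro K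
    obtain ⟨k, hk⟩ := ha (2 * r + 1 + ∑ j ∈ Finset.range K, a j + 1)
    refine ⟨k, ?_, by omega⟩
    by_contra hlt
    have h1 : a k ≤ ∑ j ∈ Finset.range K, a j :=
      Finset.single_le_sum (f := a) (fun _ _ => Nat.zero_le _) (Finset.mem_range.2 (not_le.1 hlt))
    omega
  obtain ⟨φ, hφ, hφa⟩ := Filter.extraction_of_frequently_atTop hfreq
  -- the automorphisms
  have hg : ∀ k s : ℕ, ∃ g : ℂ_[p] ≃+* ℂ_[p], IsIso g ∧ g (w (φ k)) = w (φ k) ∧
      g (w' (φ k)) = w' (φ k) ∧ ∀ y : ℂ_[p], y ^ (p ^ a (φ k)) = 1 →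
        g y = y ^ (1 + s * p ^ (a (φ k) - r)) := by
    intro k s
    have h1 : ¬ p ∣ m (φ k) * m' (φ k) := fun hd => by
      rcases (Nat.Prime.dvd_mul hp).1 hd with hd | hd
      · exact (hm (φ k)).2.1 hd
      · exact (hm' (φ k)).2.1 hd
    have h2 : ¬ p ∣ 1 + s * p ^ (a (φ k) - r) := fun hd => by
      have h3 : p ∣ s * p ^ (a (φ k) - r) :=
        Dvd.dvd.mul_left (dvd_pow_self p (by have := hφa k; omega)) s
      have h4 : p ∣ 1 := (Nat.dvd_add_left h3).1 hd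
      exact hp.one_lt.ne' (Nat.dvd_one.1 h4)
    obtain ⟨g, hg1, hg2, hg3⟩ := exists_iso (p := p) (m (φ k) * m' (φ k))
      (Nat.mul_pos (hm (φ k)).1 (hm' (φ k)).1) h1 (a (φ k)) (1 + s * p ^ (a (φ k) - r)) 0 h2
    refine ⟨g, hg1, ?_, ?_, hg3⟩
    · have := hg2 (w (φ k)) (by rw [pow_mul, (hm (φ k)).2.2, one_pow])
      simpa using this
    · have := hg2 (w' (φ k)) (by rw [mul_comm, pow_mul, (hm' (φ k)).2.2, one_pow])
      simpa using this
  choose g hg1 hg2 hg3 hg4 using hg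
  have hra : ∀ k, r ≤ a (φ k) := fun k => by have := hφa k; omega
  have hUy : ∀ k s, UU e (fun i => g k s (x (φ k) i)) =
      w (φ k) * η (φ k) ^ (1 + s * p ^ (a (φ k) - r)) := by
    intro k s
    rw [UU_iso, hU, map_mul, hg2, hg4 k s _ (hη (φ k)).pow_eq_one]
  have hUy' : ∀ k s, UU e' (fun i => g k s (x (φ k) i)) =
      w' (φ k) * η' (φ k) ^ (1 + s * p ^ (a (φ k) - r)) := by
    intro k s
    rw [UU_iso, hU', map_mul, hg3, hg4 k s _ (hη' (φ k))]
  have hev : ∀ s : ℕ, ∀ᶠ k in Filter.atTop, ev (x (φ k)) N * ev (fun i => g k s (x (φ k) i)) M =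
      ev (fun i => g k s (x (φ k) i)) N * ev (x (φ k)) M := by
    intro s
    refine hpair (p ^ r) 1 (pow_pos hp.pos r) one_pos (fun k => x (φ k))
      (fun k i => g k s (x (φ k) i)) (hx.comp hφ.injective) (fun k => hxz _)
      (fun k => zer_iso (hxz _) (hg1 k s)) (fun k => hxa _)
      (fun k i => algebraic_iso (hxa (φ k) i) (hg1 k s)) (fun k i => hx0 _ i)
      (fun k i => ?_) (fun k => ?_) (fun k => ?_)
    · exact (map_ne_zero _).2 (hx0 (φ k) i)
    · rw [hUy, hU]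
      exact caseA1_pow (hra k) (hη (φ k)).pow_eq_one
    · rw [hUy', hU']
      exact caseA1_pow (hra k) (hη' (φ k))
  have hev2 : ∀ᶠ k in Filter.atTop, ∀ s ∈ Finset.range (p ^ r),
      ev (x (φ k)) N * ev (fun i => g k s (x (φ k) i)) M =
      ev (fun i => g k s (x (φ k) i)) N * ev (x (φ k)) M := by
    rw [Filter.eventually_all_finset]
    exact fun s _ => hev s
  have hne : ∀ᶠ k in Filter.atTop, ev (x (φ k)) M ≠ 0 :=
    h.eventually_ne hM (hx.comp hφ.injective) (fun k => hxz (φ k))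
  obtain ⟨k, hk1, hk2⟩ := (hev2.and hne).exists
  have hinj : Set.InjOn (fun s : ℕ => fun i => g k s (x (φ k) i)) (Finset.range (p ^ r)) := by
    intro s hs s' hs' hss
    have hs1 : s < p ^ r := by simpa using hs
    have hs2 : s' < p ^ r := by simpa using hs'
    have h1 : w (φ k) * η (φ k) ^ (1 + s * p ^ (a (φ k) - r)) =
        w (φ k) * η (φ k) ^ (1 + s' * p ^ (a (φ k) - r)) := by
      rw [← hUy, ← hUy]
      exact congrArg (UU e) hss
    have hw : w (φ k) ≠ 0 := by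
      intro h0
      have := (hm (φ k)).2.2
      rw [h0, zero_pow (hm (φ k)).1.ne'] at this
      exact zero_ne_one this
    have h2 := mul_left_cancel₀ hw h1
    have h3 : p ^ (a (φ k) - r) * p ^ r = p ^ a (φ k) := by
      rw [← pow_add, Nat.sub_add_cancel (hra k)]
    have h4 : 1 < p ^ (a (φ k) - r) := Nat.one_lt_pow (by have := hφa k; omega) hp.one_lt
    have h5 : ∀ j, j < p ^ r → 1 + j * p ^ (a (φ k) - r) < p ^ a (φ k) := by
      intro j hj
      rw [← h3]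
      calc 1 + j * p ^ (a (φ k) - r) < p ^ (a (φ k) - r) + j * p ^ (a (φ k) - r) := by omega
        _ = p ^ (a (φ k) - r) * (j + 1) := by ring
        _ ≤ p ^ (a (φ k) - r) * p ^ r := Nat.mul_le_mul_left _ hj
    have h6 := (hη (φ k)).pow_inj (h5 s hs1) (h5 s' hs2) h2
    have h7 : s * p ^ (a (φ k) - r) = s' * p ^ (a (φ k) - r) := by omega
    exact Nat.eq_of_mul_eq_mul_right (by omega) h7
  have hcard := Finset.card_image_of_injOn hinj
  rw [Finset.card_range] at hcard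
  have halg : IsAlgebraic ℚ_[p] (ev (x (φ k)) N / ev (x (φ k)) M) := by
    rw [div_eq_mul_inv]
    exact (algebraic_ev (hxz (φ k)).1 (hxa (φ k)) N).mul
      (algebraic_ev (hxz (φ k)).1 (hxa (φ k)) M).inv
  have hle := hB _ halg ((Finset.range (p ^ r)).image (fun s : ℕ => fun i => g k s (x (φ k) i))) (by
    intro z hz
    obtain ⟨s, hs, rfl⟩ := Finset.mem_image.1 hz
    refine ⟨zer_iso (hxz _) (hg1 k s), ?_, ?_⟩
    · rw [ev_iso (hxz (φ k)).1 (hg1 k s)]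
      exact (map_ne_zero _).2 hk2
    · rw [div_mul_eq_mul_div, eq_div_iff hk2]
      exact (hk1 s hs).symm)
  omega

end Pool.Agent.ZPB
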