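import Pool.Agent.ZPB.WExists

/-!
# Module W6: uniform Weierstrass degree in a family

`fam P lam = ∑_j lam^j P_j ∈ ℂ_p[[T]]` for `P ∈ ℤ_p[[T]][Z]`. Its coefficient of index `n` is
`γ_n(lam)`, `γ_n = ∑_j (coeff n P_j) Z^j ∈ ℤ_p[Z]` of degree `≤ d`. The submodule of `ℤ_p^(d+1)` spanned by all
`γ_n` is finitely generated, so it is spanned by `γ_0, …, γ_m` for some `m`. Then for every `lam`
`‖γ_n(lam)‖ ≤ max_{i ≤ m} ‖γ_i(lam)‖`, and `exists_isW_of_bound` applies, with the same `m` for all `lam`.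
-/

namespace Pool.Agent.ZPB

variable {p : ℕ} [Fact p.Prime]

/-- `∑_j lam^j P_j` -/
noncomputable def fam (P : Polynomial (PowerSeries ℤ_[p])) (lam : ℂ_[p]) : PowerSeries ℂ_[p] :=
  ∑ j ∈ Finset.range (P.natDegree + 1),
    PowerSeries.C (lam ^ j) * PowerSeries.map (zc p) (P.coeff j)

theorem bdd_sum (s : Finset ℕ) (f : ℕ → PowerSeries ℂ_[p]) (hf : ∀ j ∈ s, Bdd (f j)) :
    Bdd (∑ j ∈ s, f j) := by
  classical
  induction s using Finset.induction_on with
  | empty =>
    refine ⟨0, fun n => ?_⟩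
    simp
  | insert a s ha ih =>
    rw [Finset.sum_insert ha]
    exact (hf a (Finset.mem_insert_self a s)).add
      (ih fun j hj => hf j (Finset.mem_insert_of_mem hj))

theorem val_sum (s : Finset ℕ) (f : ℕ → PowerSeries ℂ_[p]) (hf : ∀ j ∈ s, Bdd (f j))
    {t : ℂ_[p]} (ht : ‖t‖ < 1) : val (∑ j ∈ s, f j) t = ∑ j ∈ s, val (f j) t := by
  classical
  induction s using Finset.induction_on with
  | empty =>
    have h := val_C (p := p) 0 t
    rw [map_zero] at h
    simpa using h
  | insert a s ha ih =>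
    rw [Finset.sum_insert ha, Finset.sum_insert ha,
      val_add (hf a (Finset.mem_insert_self a s))
        (bdd_sum s f fun j hj => hf j (Finset.mem_insert_of_mem hj)) ht,
      ih fun j hj => hf j (Finset.mem_insert_of_mem hj)]

theorem val_fam (P : Polynomial (PowerSeries ℤ_[p])) (lam : ℂ_[p]) {s : ℂ_[p]} (hs : ‖s‖ < 1) :
    val (fam P lam) s = ∑ j ∈ Finset.range (P.natDegree + 1), lam ^ j * valZ (P.coeff j) s := by
  rw [fam, val_sum _ _ (fun j _ => (Bdd.C _).mul (bdd_map_zc _)) hs]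
  refine Finset.sum_congr rfl fun j _ => ?_
  rw [val_mul (Bdd.C _) (bdd_map_zc _) hs, val_C, valZ]

theorem bdd_fam (P : Polynomial (PowerSeries ℤ_[p])) (lam : ℂ_[p]) : Bdd (fam P lam) :=
  bdd_sum _ _ fun _ _ => (Bdd.C _).mul (bdd_map_zc _)

/-- the vector of the coefficients of index `n` -/
noncomputable def gvec (P : Polynomial (PowerSeries ℤ_[p])) (n : ℕ) :
    Fin (P.natDegree + 1) → ℤ_[p] := fun j => PowerSeries.coeff n (P.coeff j)

/-- the value at `lam` of the polynomial with coefficient vector `x` -/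
noncomputable def lval (P : Polynomial (PowerSeries ℤ_[p])) (lam : ℂ_[p])
    (x : Fin (P.natDegree + 1) → ℤ_[p]) : ℂ_[p] := ∑ j : Fin (P.natDegree + 1), lam ^ (j : ℕ) * zc p (x j)

theorem coeff_fam (P : Polynomial (PowerSeries ℤ_[p])) (lam : ℂ_[p]) (n : ℕ) :
    PowerSeries.coeff n (fam P lam) = lval P lam (gvec P n) := by
  rw [fam, map_sum, Finset.sum_range, lval]
  refine Finset.sum_congr rfl fun j _ => ?_
  rw [PowerSeries.coeff_C_mul, PowerSeries.coeff_map, gvec]

theorem exists_isW_fam (P : Polynomial (PowerSeries ℤ_[p])) :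
    ∃ m : ℕ, ∀ lam : ℂ_[p], fam P lam ≠ 0 → ∃ n ≤ m, IsW (fam P lam) n := by
  classical
  let N : ℕ →o Submodule ℤ_[p] (Fin (P.natDegree + 1) → ℤ_[p]) :=
    ⟨fun m => Submodule.span ℤ_[p] (gvec P '' Set.Iic m),
      fun a b hab => Submodule.span_mono (Set.image_mono (Set.Iic_subset_Iic.mpr hab))⟩
  obtain ⟨m, hm⟩ := monotone_stabilizes_iff_noetherian.mpr
    (inferInstance : IsNoetherian ℤ_[p] (Fin (P.natDegree + 1) → ℤ_[p])) N
  refine ⟨m, fun lam hne => exists_isW_of_bound hne fun n => ?_⟩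
  obtain ⟨i, hi, hmax⟩ := Finset.exists_max_image (Finset.range (m + 1))
    (fun i => ‖lval P lam (gvec P i)‖) ⟨0, Finset.mem_range.mpr (Nat.succ_pos m)⟩
  refine ⟨i, Nat.lt_succ_iff.mp (Finset.mem_range.mp hi), ?_⟩
  rw [coeff_fam, coeff_fam]
  have hmem : gvec P n ∈ Submodule.span ℤ_[p] (gvec P '' Set.Iic m) := by
    rcases le_total m n with h | h
    · have h1 : Submodule.span ℤ_[p] (gvec P '' Set.Iic m)
          = Submodule.span ℤ_[p] (gvec P '' Set.Iic n) := hm n h
      rw [h1]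
      exact Submodule.subset_span ⟨n, Set.mem_Iic.mpr le_rfl, rfl⟩
    · exact Submodule.subset_span ⟨n, Set.mem_Iic.mpr h, rfl⟩
  refine Submodule.span_induction (p := fun x _ => ‖lval P lam x‖ ≤ ‖lval P lam (gvec P i)‖)
    ?_ ?_ ?_ ?_ hmem
  · rintro x ⟨k, hk, rfl⟩
    exact hmax k (Finset.mem_range.mpr (Nat.lt_succ_iff.mpr hk))
  · have h0 : lval P lam 0 = 0 := by simp [lval]
    rw [h0, norm_zero]
    exact norm_nonneg _
  · intro x y _ _ hx hy
    have h1 : lval P lam (x + y) = lval P lam x + lval P lam y := by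
      rw [lval, lval, lval, ← Finset.sum_add_distrib]
      refine Finset.sum_congr rfl fun j _ => ?_
      rw [Pi.add_apply, map_add, mul_add]
    rw [h1]
    exact (PadicComplex.isNonarchimedean p _ _).trans (max_le hx hy)
  · intro a x _ hx
    have h1 : lval P lam (a • x) = zc p a * lval P lam x := by
      rw [lval, lval, Finset.mul_sum]
      refine Finset.sum_congr rfl fun j _ => ?_
      rw [Pi.smul_apply, smul_eq_mul, map_mul]
      ring
    rw [h1, norm_mul, norm_zc]
    exact (mul_le_of_le_one_left (norm_nonneg _) (PadicInt.norm_le_one a)).trans hx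

end Pool.Agent.ZPB
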