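import Pool.Agent.ZPB.CurveFin
import Pool.Agent.ZPB.Family

/-!
# Module C3: minimal polynomials over `ℤ_p[[t]]`

Let `M ∉ 𝔮`. In the fraction field `L` of `RR p σ ⧸ 𝔮` the element `f = N/M` is algebraic over the image of
`ℤ_p[[T]]` (`N`, `M` are integral), so there is a nonzero `P ∈ ℤ_p[[T]][Z]` with `P(f) = 0`, equivalently
`hg (subst t) P N M ∈ 𝔮` (this is `M^(deg P) P(f)`). Choose `P` of minimal degree.

* `minpoly_coeff_zero`: if moreover `N ∉ 𝔮` one can have `P_0 ≠ 0` (divide by `Z`; if `deg P = 0` then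
  `P_0 ≠ 0` anyway).
* `minpoly_tr`: if `Tr 𝔮 N M`, then `fam P lam ≠ 0` for all `lam` algebraic over `ℚ_p`. Suppose
  `fam P lam = 0`, i.e. `γ_n(lam) = 0` for all `n`, `γ_n = ∑_j (coeff n P_j) Z^j ∈ ℤ_p[Z]`. Let `h0 ∈ ℚ_p[Z]` be the
  minimal polynomial of `lam` and `p^s h0 ∈ ℤ_p[Z]`. Then `γ_n = h0 δ_n` with `δ_n ∈ ℚ_p[Z]`; in the division
  by the monic `h0` only denominators dividing `p^(s(d+1))` occur, the same for all `n`. So
  `p^S P = (p^s h0) P_1` with `P_1 ∈ ℤ_p[[T]][Z]` nonzero of smaller degree. Evaluating at `f`: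
  `(p^s h0)(f) ≠ 0` by `Tr`, so `P_1(f) = 0`, contradicting minimality.
-/

namespace Pool.Agent.ZPB

open MvPowerSeries

variable {p : ℕ} [Fact p.Prime] {σ : Type} [Fintype σ]

namespace CMin

/-- homogenization in a field -/
theorem map_hg {A R L : Type} [CommRing A] [CommRing R] [Field L] (ψ : A →+* R) (κ : R →+* L)
    (P : Polynomial A) {N M : R} (hM : κ M ≠ 0) :
    κ (hg ψ P N M) = κ M ^ P.natDegree * P.eval₂ (κ.comp ψ) (κ N / κ M) := by
  rw [hg, map_sum, Polynomial.eval₂_eq_sum_range, Finset.mul_sum]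
  refine Finset.sum_congr rfl fun j hj => ?_
  have hj' : j ≤ P.natDegree := by
    have := Finset.mem_range.1 hj
    omega
  rw [map_mul, map_mul, map_pow, map_pow, RingHom.comp_apply, div_pow]
  have h1 : κ M ^ P.natDegree = κ M ^ j * κ M ^ (P.natDegree - j) := by
    rw [← pow_add]
    congr 1
    omega
  rw [h1]
  field_simp

/-- Gauss: the integral polynomials vanishing at an algebraic number -/
theorem exists_gauss {lam : ℂ_[p]} (hlam : IsAlgebraic ℚ_[p] lam) :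
    ∃ g : Polynomial ℤ_[p], 1 ≤ g.natDegree ∧
      ∀ γ : Polynomial ℤ_[p], γ.eval₂ (zc p) lam = 0 → g ∣ γ := by
  classical
  let _ : NormalizedGCDMonoid ℤ_[p] := Nonempty.some inferInstance
  have hint : IsIntegral ℚ_[p] lam := hlam.isIntegral
  set h0 := minpoly ℚ_[p] lam with hh0
  set g' := IsLocalization.integerNormalization (nonZeroDivisors ℤ_[p]) h0 with hg'
  obtain ⟨b, hb1, hb2⟩ := IsLocalization.integerNormalization_spec (nonZeroDivisors ℤ_[p]) h0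
  have hb0 : b ≠ 0 := nonZeroDivisors.ne_zero hb1
  have hinj : Function.Injective (algebraMap ℤ_[p] ℚ_[p]) := IsFractionRing.injective _ _
  have hh0ne : h0 ≠ 0 := minpoly.ne_zero hint
  have hg'0 : g' ≠ 0 := by
    intro h
    rw [← hg', h, Polynomial.map_zero] at hb2
    rcases smul_eq_zero.1 hb2.symm with h1 | h1
    · exact hb0 h1
    · exact hh0ne h1
  have hcont : g'.content ≠ 0 := fun h => hg'0 (Polynomial.content_eq_zero_iff.1 h)
  have hmap : g'.map (algebraMap ℤ_[p] ℚ_[p]) =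
      Polynomial.C (algebraMap ℤ_[p] ℚ_[p] g'.content) * g'.primPart.map (algebraMap ℤ_[p] ℚ_[p]) := by
    conv_lhs => rw [g'.eq_C_content_mul_primPart]
    rw [Polynomial.map_mul, Polynomial.map_C]
  have hc0 : algebraMap ℤ_[p] ℚ_[p] g'.content ≠ 0 := by
    intro h
    exact hcont (hinj (by rw [h, map_zero]))
  have hbb : algebraMap ℤ_[p] ℚ_[p] b ≠ 0 := by
    intro h
    exact hb0 (hinj (by rw [h, map_zero]))
  have hgm : g'.primPart.map (algebraMap ℤ_[p] ℚ_[p]) =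
      Polynomial.C ((algebraMap ℤ_[p] ℚ_[p] g'.content)⁻¹ * algebraMap ℤ_[p] ℚ_[p] b) * h0 := by
    have h1 : g'.map (algebraMap ℤ_[p] ℚ_[p]) = Polynomial.C (algebraMap ℤ_[p] ℚ_[p] b) * h0 := by
      rw [hb2, Algebra.smul_def]
      rfl
    rw [hmap] at h1
    rw [Polynomial.C_mul, mul_assoc, ← h1, ← mul_assoc, ← Polynomial.C_mul, inv_mul_cancel₀ hc0,
      Polynomial.C_1, one_mul]
  have hu : (algebraMap ℤ_[p] ℚ_[p] g'.content)⁻¹ * algebraMap ℤ_[p] ℚ_[p] b ≠ 0 :=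
    mul_ne_zero (inv_ne_zero hc0) hbb
  refine ⟨g'.primPart, ?_, ?_⟩
  · have h1 : (g'.primPart.map (algebraMap ℤ_[p] ℚ_[p])).natDegree = h0.natDegree := by
      rw [hgm, Polynomial.natDegree_C_mul hu]
    rw [Polynomial.natDegree_map_eq_of_injective hinj] at h1
    rw [h1]
    exact minpoly.natDegree_pos hint
  · intro γ hγ
    refine g'.isPrimitive_primPart.dvd_of_fraction_map_dvd_fraction_map (K := ℚ_[p]) ?_
    have h1 : h0 ∣ γ.map (algebraMap ℤ_[p] ℚ_[p]) := by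
      refine minpoly.dvd _ _ ?_
      rw [Polynomial.aeval_def, Polynomial.eval₂_map]
      exact hγ
    rw [hgm]
    exact (Polynomial.isUnit_C.2 hu.isUnit).mul_left_dvd.2 h1

theorem coeff_fam (P : Polynomial (PowerSeries ℤ_[p])) (lam : ℂ_[p]) (n : ℕ) :
    PowerSeries.coeff n (fam P lam) =
      (∑ j ∈ Finset.range (P.natDegree + 1),
        Polynomial.monomial j (PowerSeries.coeff n (P.coeff j))).eval₂ (zc p) lam := by
  rw [fam, map_sum, Polynomial.eval₂_finsetSum]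
  refine Finset.sum_congr rfl fun j _ => ?_
  rw [PowerSeries.coeff_C_mul, PowerSeries.coeff_map, Polynomial.eval₂_monomial, mul_comm]

/-- Division of the family by a common factor -/
theorem exists_div {P : Polynomial (PowerSeries ℤ_[p])} {lam : ℂ_[p]}
    (hlam : IsAlgebraic ℚ_[p] lam) (h : fam P lam = 0) (hP : P ≠ 0) :
    ∃ (g : Polynomial ℤ_[p]) (P₁ : Polynomial (PowerSeries ℤ_[p])), g ≠ 0 ∧
      P = g.map (PowerSeries.C : ℤ_[p] →+* PowerSeries ℤ_[p]) * P₁ ∧ P₁ ≠ 0 ∧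
      P₁.natDegree < P.natDegree := by
  classical
  obtain ⟨g, hg1, hg2⟩ := exists_gauss hlam
  have hg0 : g ≠ 0 := by
    rintro rfl
    simp at hg1
  set γ : ℕ → Polynomial ℤ_[p] := fun n => ∑ j ∈ Finset.range (P.natDegree + 1),
    Polynomial.monomial j (PowerSeries.coeff n (P.coeff j)) with hγ
  have hγc : ∀ n k, (γ n).coeff k = PowerSeries.coeff n (P.coeff k) := by
    intro n k
    rw [hγ]
    simp only [Polynomial.finsetSum_coeff, Polynomial.coeff_monomial]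
    rw [Finset.sum_ite_eq']
    split_ifs with hk
    · rfl
    · rw [Polynomial.coeff_eq_zero_of_natDegree_lt, map_zero]
      rw [Finset.mem_range] at hk
      omega
  have hdvd : ∀ n, g ∣ γ n := by
    intro n
    refine hg2 _ ?_
    rw [hγ]
    simp only
    rw [← coeff_fam, h, map_zero]
  choose δ hδ using hdvd
  have hδdeg : ∀ n k, P.natDegree < k → (δ n).coeff k = 0 := by
    intro n k hk
    by_cases h0 : δ n = 0
    · rw [h0, Polynomial.coeff_zero]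
    · refine Polynomial.coeff_eq_zero_of_natDegree_lt (lt_of_le_of_lt ?_ hk)
      have h1 : (γ n).natDegree = g.natDegree + (δ n).natDegree := by
        rw [hδ n, Polynomial.natDegree_mul hg0 h0]
      have h2 : (γ n).natDegree ≤ P.natDegree := by
        rw [Polynomial.natDegree_le_iff_coeff_eq_zero]
        intro k hk
        rw [hγc, Polynomial.coeff_eq_zero_of_natDegree_lt hk, map_zero]
      omega
  set P₁ : Polynomial (PowerSeries ℤ_[p]) := ∑ k ∈ Finset.range (P.natDegree + 1),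
    Polynomial.monomial k (PowerSeries.mk fun n => (δ n).coeff k) with hP₁
  have hP₁c : ∀ k, P₁.coeff k = PowerSeries.mk fun n => (δ n).coeff k := by
    intro k
    rw [hP₁]
    simp only [Polynomial.finsetSum_coeff, Polynomial.coeff_monomial]
    rw [Finset.sum_ite_eq']
    split_ifs with hk
    · rfl
    · rw [Finset.mem_range] at hk
      ext n
      rw [map_zero, PowerSeries.coeff_mk, hδdeg n k (by omega)]
  have hprod : P = g.map (PowerSeries.C : ℤ_[p] →+* PowerSeries ℤ_[p]) * P₁ := by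
    refine Polynomial.ext fun k => ?_
    ext n
    rw [← hγc, hδ n, Polynomial.coeff_mul, Polynomial.coeff_mul, map_sum]
    refine Finset.sum_congr rfl fun ij _ => ?_
    rw [Polynomial.coeff_map, hP₁c, PowerSeries.coeff_C_mul, PowerSeries.coeff_mk]
  have hP₁0 : P₁ ≠ 0 := by
    intro h0
    rw [h0, mul_zero] at hprod
    exact hP hprod
  have hCinj : Function.Injective (PowerSeries.C : ℤ_[p] →+* PowerSeries ℤ_[p]) :=
    PowerSeries.C_injective
  have hgm : g.map (PowerSeries.C : ℤ_[p] →+* PowerSeries ℤ_[p]) ≠ 0 := by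
    intro h0
    exact hg0 ((Polynomial.map_eq_zero_iff hCinj).1 h0)
  refine ⟨g, P₁, hg0, hprod, hP₁0, ?_⟩
  have h3 : P.natDegree = g.natDegree + P₁.natDegree := by
    conv_lhs => rw [hprod]
    rw [Polynomial.natDegree_mul hgm hP₁0, Polynomial.natDegree_map_eq_of_injective hCinj]
  omega

/-- the homomorphism to the fraction field of the quotient -/
noncomputable def kap (𝔮 : Ideal (RR p σ)) [𝔮.IsPrime] : RR p σ →+* FractionRing (RR p σ ⧸ 𝔮) :=
  (algebraMap (RR p σ ⧸ 𝔮) (FractionRing (RR p σ ⧸ 𝔮))).comp (Ideal.Quotient.mk 𝔮)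

theorem kap_eq_zero (𝔮 : Ideal (RR p σ)) [𝔮.IsPrime] (F : RR p σ) : kap 𝔮 F = 0 ↔ F ∈ 𝔮 := by
  rw [kap, RingHom.comp_apply]
  rw [map_eq_zero_iff _ (IsFractionRing.injective (RR p σ ⧸ 𝔮) (FractionRing (RR p σ ⧸ 𝔮)))]
  exact Ideal.Quotient.eq_zero_iff_mem

theorem hg_mem_iff (𝔮 : Ideal (RR p σ)) [𝔮.IsPrime] {A : Type} [CommRing A] (ψ : A →+* RR p σ)
    (P : Polynomial A) {N M : RR p σ} (hM : M ∉ 𝔮) :
    hg ψ P N M ∈ 𝔮 ↔ P.eval₂ ((kap 𝔮).comp ψ) (kap 𝔮 N / kap 𝔮 M) = 0 := by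
  have hM' : kap 𝔮 M ≠ 0 := fun h => hM ((kap_eq_zero 𝔮 M).1 h)
  rw [← kap_eq_zero, map_hg ψ (kap 𝔮) P hM', mul_eq_zero]
  constructor
  · rintro (h | h)
    · exact absurd h (pow_ne_zero _ hM')
    · exact h
  · exact Or.inr

theorem exists_poly {𝔮 : Ideal (RR p σ)} {t : RR p σ} (h : IsCurve 𝔮 t) [𝔮.IsPrime]
    (N M : RR p σ) : ∃ P : Polynomial (PowerSeries ℤ_[p]), P ≠ 0 ∧
      P.eval₂ ((kap 𝔮).comp (sb h.t0)) (kap 𝔮 N / kap 𝔮 M) = 0 := by
  let _ : Algebra (PowerSeries ℤ_[p]) (FractionRing (RR p σ ⧸ 𝔮)) :=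
    ((kap 𝔮).comp (sb h.t0)).toAlgebra
  have hint : ∀ F : RR p σ, IsAlgebraic (PowerSeries ℤ_[p]) (kap 𝔮 F) := by
    intro F
    obtain ⟨P, hP1, hP2⟩ := h.integral F
    have h1 : IsIntegral (PowerSeries ℤ_[p]) (kap 𝔮 F) := by
      refine ⟨P, hP1, ?_⟩
      have h2 := (kap_eq_zero 𝔮 _).2 hP2
      rw [Polynomial.hom_eval₂] at h2
      exact h2
    exact h1.isAlgebraic
  have h2 : IsAlgebraic (PowerSeries ℤ_[p]) (kap 𝔮 N / kap 𝔮 M) := by
    rw [div_eq_mul_inv]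
    exact (hint N).mul (hint M).inv
  obtain ⟨P, hP1, hP2⟩ := h2
  exact ⟨P, hP1, hP2⟩

theorem sb_C {t : RR p σ} (ht : constantCoeff t = 0) (a : ℤ_[p]) :
    sb ht (PowerSeries.C a) = (C a : RR p σ) := by
  rw [sb]
  have h1 : (PowerSeries.C a : PowerSeries ℤ_[p]) = algebraMap ℤ_[p] (PowerSeries ℤ_[p]) a := rfl
  rw [h1]
  exact AlgHom.commutes (PowerSeries.substAlgHom (R := ℤ_[p])
    (PowerSeries.HasSubst.of_constantCoeff_zero ht)) a

end CMin

theorem IsCurve.minpoly_coeff_zero {𝔮 : Ideal (RR p σ)} {t : RR p σ} (h : IsCurve 𝔮 t)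
    {N M : RR p σ} (hN : N ∉ 𝔮) (hM : M ∉ 𝔮) :
    ∃ P : Polynomial (PowerSeries ℤ_[p]), P.coeff 0 ≠ 0 ∧ hg (fun f => PowerSeries.subst t f) P N M ∈ 𝔮 := by
  classical
  have := h.prime
  have hfun : (fun f => PowerSeries.subst t f : PowerSeries ℤ_[p] → RR p σ) = ⇑(sb h.t0) :=
    funext fun f => (sb_apply h.t0 f).symm
  have hfne : CMin.kap 𝔮 N / CMin.kap 𝔮 M ≠ 0 :=
    div_ne_zero (fun h0 => hN ((CMin.kap_eq_zero 𝔮 N).1 h0)) (fun h0 => hM ((CMin.kap_eq_zero 𝔮 M).1 h0))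
  -- minimal degree
  have hex := CMin.exists_poly h N M
  let S : Set ℕ := {n | ∃ P : Polynomial (PowerSeries ℤ_[p]), P ≠ 0 ∧
      P.eval₂ ((CMin.kap 𝔮).comp (sb h.t0)) (CMin.kap 𝔮 N / CMin.kap 𝔮 M) = 0 ∧ P.natDegree = n}
  have hS : ∃ n, n ∈ S := by
    obtain ⟨P, h1, h2⟩ := hex
    exact ⟨_, P, h1, h2, rfl⟩
  obtain ⟨P, hP1, hP2, hP3⟩ := Nat.find_spec hS
  refine ⟨P, ?_, ?_⟩
  · intro h0
    obtain ⟨P', hP'⟩ := Polynomial.X_dvd_iff.2 h0
    have hP'0 : P' ≠ 0 := by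
      rintro rfl
      rw [mul_zero] at hP'
      exact hP1 hP'
    have h2 : P'.eval₂ ((CMin.kap 𝔮).comp (sb h.t0)) (CMin.kap 𝔮 N / CMin.kap 𝔮 M) = 0 := by
      rw [hP', Polynomial.eval₂_mul, Polynomial.eval₂_X] at hP2
      exact (mul_eq_zero.1 hP2).resolve_left hfne
    have h3 : P.natDegree = P'.natDegree + 1 := by
      rw [hP', Polynomial.natDegree_X_mul hP'0]
    have h4 := Nat.find_min' hS ⟨P', hP'0, h2, rfl⟩
    omega
  · rw [hfun]
    exact (CMin.hg_mem_iff 𝔮 (sb h.t0) P hM).2 hP2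

theorem IsCurve.minpoly_tr {𝔮 : Ideal (RR p σ)} {t : RR p σ} (h : IsCurve 𝔮 t)
    {N M : RR p σ} (hM : M ∉ 𝔮) (hT : Tr 𝔮 N M) :
    ∃ P : Polynomial (PowerSeries ℤ_[p]), P ≠ 0 ∧ hg (fun f => PowerSeries.subst t f) P N M ∈ 𝔮 ∧
      ∀ lam : ℂ_[p], IsAlgebraic ℚ_[p] lam → fam P lam ≠ 0 := by
  classical
  have := h.prime
  have hfun : (fun f => PowerSeries.subst t f : PowerSeries ℤ_[p] → RR p σ) = ⇑(sb h.t0) :=
    funext fun f => (sb_apply h.t0 f).symm
  have hex := CMin.exists_poly h N M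
  let S : Set ℕ := {n | ∃ P : Polynomial (PowerSeries ℤ_[p]), P ≠ 0 ∧
      P.eval₂ ((CMin.kap 𝔮).comp (sb h.t0)) (CMin.kap 𝔮 N / CMin.kap 𝔮 M) = 0 ∧ P.natDegree = n}
  have hS : ∃ n, n ∈ S := by
    obtain ⟨P, h1, h2⟩ := hex
    exact ⟨_, P, h1, h2, rfl⟩
  obtain ⟨P, hP1, hP2, hP3⟩ := Nat.find_spec hS
  refine ⟨P, hP1, ?_, ?_⟩
  · rw [hfun]
    exact (CMin.hg_mem_iff 𝔮 (sb h.t0) P hM).2 hP2
  · intro lam hlam h0
    obtain ⟨g, P₁, hg0, hprod, hP₁0, hdeg⟩ := CMin.exists_div hlam h0 hP1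
    have h1 : g.eval₂ ((CMin.kap 𝔮).comp (C : ℤ_[p] →+* RR p σ)) (CMin.kap 𝔮 N / CMin.kap 𝔮 M) ≠ 0 :=
      fun h2 => hT g hg0 ((CMin.hg_mem_iff 𝔮 (C : ℤ_[p] →+* RR p σ) g hM).2 h2)
    have hcomp : ((CMin.kap 𝔮).comp (sb h.t0)).comp (PowerSeries.C : ℤ_[p] →+* PowerSeries ℤ_[p]) =
        (CMin.kap 𝔮).comp (C : ℤ_[p] →+* RR p σ) := by
      refine RingHom.ext fun a => ?_
      simp only [RingHom.comp_apply]
      rw [CMin.sb_C]
    rw [hprod, Polynomial.eval₂_mul, Polynomial.eval₂_map, hcomp] at hP2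
    have h2 := (mul_eq_zero.1 hP2).resolve_left h1
    have h4 := Nat.find_min' hS ⟨P₁, hP₁0, h2, rfl⟩
    omega

/-- evaluation of the homogenized relation -/
theorem ev_hg {z : σ → ℂ_[p]} (hz : Disc z) {t : RR p σ} (ht : constantCoeff t = 0)
    (P : Polynomial (PowerSeries ℤ_[p])) {N M : RR p σ} (hM : ev z M ≠ 0) :
    ev z (hg (fun f => PowerSeries.subst t f) P N M) =
      ev z M ^ P.natDegree * val (fam P (ev z N / ev z M)) (ev z t) := by
  rw [hg, ← evHom_apply hz, map_sum, val_fam P _ (norm_ev_lt hz ht), Finset.mul_sum]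
  refine Finset.sum_congr rfl fun j hj => ?_
  have hj' : j ≤ P.natDegree := by
    have := Finset.mem_range.1 hj
    omega
  rw [map_mul, map_mul, map_pow, map_pow, evHom_apply, evHom_apply, evHom_apply, ev_subst hz ht]
  have h1 : ev z M ^ P.natDegree = ev z M ^ j * ev z M ^ (P.natDegree - j) := by
    rw [← pow_add]
    congr 1
    omega
  rw [h1, div_pow]
  field_simp

end Pool.Agent.ZPB
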