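import Pool.Agent.ZPB.Regular
import Pool.Agent.ZPB.CurveMin
import Pool.Agent.ZPB.CurveZero

/-!
# Module N3: a relation between two points of a formal curve defines a formal curve

Notation: `inl, inr : RR p σ → RR p (σ ⊕ σ)`, `s = inl t`, `s' = inr t`. Take `P_1` from `minpoly_tr` for `N1/M1` and
`P_2` for `N2/M2` (`fam P_i lam ≠ 0` for algebraic `lam`). Let `A, B ∈ ℤ_p[[S,T]][Z]` be `P_1` with coefficients in
`ℤ_p[[S]]` and `P_2` with coefficients in `ℤ_p[[T]]`, and `G ∈ ℤ_p[[S,T]]` their resultant with respect to `Z`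
(`Polynomial.resultant`; if one of the degrees is zero, take `G` = that coefficient).
(1) `G(s, s') ∈ 𝔔`: in the fraction field of `RR p (σ ⊕ σ) ⧸ 𝔔` the element `h = inl N1 / inl M1 = inr N2 / inr M2`
is a common root (`exists_mul_add_mul_eq_C_resultant`).
(2) `G ≠ 0`: choose an algebraic (e.g. in `p ℤ_p`) `a`, `‖a‖ < 1`, with `valZ (leadingCoeff P_1) a ≠ 0`
(`IsW.finite_zeros`). The roots `λ_i ∈ ℂ_p` of `∑ valZ (P_1)_j a Z^j` are algebraic over `ℚ_p` (the coefficients are).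
`fam P_2 λ_i ≠ 0` has finitely many zeros, so there is `b`, `‖b‖ < 1`, with `val (fam P_2 λ_i) b ≠ 0` for all `i`.
Then `ev ![a,b] G` is the resultant of two polynomials over `ℂ_p` without common root, nonzero
(`resultant_map_map`, `resultant_eq_zero_iff`).
(3) Write `G = p^k G'` with `p ∤ G'`; `G'(s,s') ∈ 𝔔` as `p ∉ 𝔔`. `exists_param`: `s, s'` are nilpotent modulo
`(p, t') + 𝔔`, `t' = s - s'^N`. Since `(inl X_i)^N' ∈ (p, s) + inl 𝔮` and similarly for `inr`, all variables are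
nilpotent modulo `(p, t') + 𝔔`.
-/

namespace Pool.Agent.ZPB

open MvPowerSeries

variable {p : ℕ} [Fact p.Prime] {σ : Type} [Fintype σ]

/-- the first copy of the variables -/
noncomputable def inl : RR p σ →+* RR p (σ ⊕ σ) :=
  (rename (Function.Embedding.inl : σ ↪ σ ⊕ σ) : RR p σ →ₐ[ℤ_[p]] RR p (σ ⊕ σ)).toRingHom

/-- the second copy of the variables -/
noncomputable def inr : RR p σ →+* RR p (σ ⊕ σ) :=
  (rename (Function.Embedding.inr : σ ↪ σ ⊕ σ) : RR p σ →ₐ[ℤ_[p]] RR p (σ ⊕ σ)).toRingHom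

theorem ev_inl {x y : σ → ℂ_[p]} (hx : Disc x) (hy : Disc y) (F : RR p σ) :
    ev (Sum.elim x y) (inl F) = ev x F := by
  have hz : Disc (Sum.elim x y) := by
    intro i
    rcases i with i | i
    · exact hx i
    · exact hy i
  exact ev_rename hz (Function.Embedding.inl : σ ↪ σ ⊕ σ) F

theorem ev_inr {x y : σ → ℂ_[p]} (hx : Disc x) (hy : Disc y) (F : RR p σ) :
    ev (Sum.elim x y) (inr F) = ev y F := by
  have hz : Disc (Sum.elim x y) := by
    intro i
    rcases i with i | i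
    · exact hx i
    · exact hy i
  exact ev_rename hz (Function.Embedding.inr : σ ↪ σ ⊕ σ) F

namespace PairC

theorem inl_eq (F : RR p σ) : inl F = rename (Function.Embedding.inl : σ ↪ σ ⊕ σ) F := rfl

theorem inr_eq (F : RR p σ) : inr F = rename (Function.Embedding.inr : σ ↪ σ ⊕ σ) F := rfl

theorem const_inl (F : RR p σ) : constantCoeff (inl F) = constantCoeff F := by
  rw [inl_eq, constantCoeff_rename]

theorem const_inr (F : RR p σ) : constantCoeff (inr F) = constantCoeff F := by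
  rw [inr_eq, constantCoeff_rename]

theorem inl_X (i : σ) : inl (X i : RR p σ) = X (Sum.inl i) := by
  rw [inl_eq, rename_X]; rfl

theorem inr_X (i : σ) : inr (X i : RR p σ) = X (Sum.inr i) := by
  rw [inr_eq, rename_X]; rfl

theorem rename_psubst {τ : Type} [Fintype τ] (e : σ ↪ τ) {t : RR p σ} (ht : constantCoeff t = 0)
    (f : PowerSeries ℤ_[p]) :
    rename e (PowerSeries.subst t f) = (PowerSeries.subst (rename e t) f : RR p τ) := by
  rw [rename_eq_subst, rename_eq_subst, PowerSeries.subst, PowerSeries.subst]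
  exact MvPowerSeries.subst_comp_subst_apply
    (PowerSeries.HasSubst.of_constantCoeff_zero ht).const (HasSubst.X_comp _) f

theorem inl_subst {t : RR p σ} (ht : constantCoeff t = 0) (f : PowerSeries ℤ_[p]) :
    inl (PowerSeries.subst t f) = PowerSeries.subst (inl t) f := by
  rw [inl_eq, inl_eq, rename_psubst _ ht]

theorem inr_subst {t : RR p σ} (ht : constantCoeff t = 0) (f : PowerSeries ℤ_[p]) :
    inr (PowerSeries.subst t f) = PowerSeries.subst (inr t) f := by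
  rw [inr_eq, inr_eq, rename_psubst _ ht]

/-- homogenization and ring homomorphisms -/
theorem hom_hg {A R S : Type} [CommRing A] [CommRing R] [CommRing S] (θ : R →+* S) {φ : A → R}
    {ψ : A → S} (h : ∀ a, θ (φ a) = ψ a) (P : Polynomial A) (N M : R) :
    θ (hg φ P N M) = hg ψ P (θ N) (θ M) := by
  rw [hg, hg, map_sum]
  refine Finset.sum_congr rfl fun j _ => ?_
  rw [map_mul, map_mul, map_pow, map_pow, h]

/-- the substitution `(S, T) ↦ (s, s')` -/
noncomputable def phi {τ : Type} [Fintype τ] {s s' : RR p τ} (hs : constantCoeff s = 0)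
    (hs' : constantCoeff s' = 0) : RR p (Fin 2) →+* RR p τ :=
  (substAlgHom (R := ℤ_[p]) (hasSubst_of_constantCoeff_zero (a := ![s, s']) (by
    intro i
    fin_cases i
    · exact hs
    · exact hs'))).toRingHom

theorem phi_apply {τ : Type} [Fintype τ] {s s' : RR p τ} (hs : constantCoeff s = 0)
    (hs' : constantCoeff s' = 0) (G : RR p (Fin 2)) :
    phi hs hs' G = MvPowerSeries.subst (![s, s'] : Fin 2 → RR p τ) G := by
  simp [phi]

theorem phi_psubst {τ : Type} [Fintype τ] {s s' : RR p τ} (hs : constantCoeff s = 0)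
    (hs' : constantCoeff s' = 0) (i : Fin 2) (f : PowerSeries ℤ_[p]) :
    phi hs hs' (PowerSeries.subst (X i : RR p (Fin 2)) f) =
      PowerSeries.subst ((![s, s'] : Fin 2 → RR p τ) i) f := by
  have hsub : HasSubst (![s, s'] : Fin 2 → RR p τ) := hasSubst_of_constantCoeff_zero (by
    intro i
    fin_cases i
    · exact hs
    · exact hs')
  rw [phi_apply, PowerSeries.subst, PowerSeries.subst]
  rw [MvPowerSeries.subst_comp_subst_apply
    (PowerSeries.HasSubst.of_constantCoeff_zero (constantCoeff_X i)).const hsub]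
  congr 1
  funext _
  exact subst_X hsub i

/-- the test points -/
noncomputable def pt (p : ℕ) [Fact p.Prime] (k : ℕ) : ℤ_[p] := (p : ℤ_[p]) ^ (k + 1)

theorem norm_pt (k : ℕ) : ‖pt p k‖ < 1 := by
  rw [pt, norm_pow, PadicInt.norm_p]
  refine pow_lt_one₀ (by positivity) ?_ (Nat.succ_ne_zero k)
  have : (1 : ℝ) < p := by exact_mod_cast (Fact.out : p.Prime).one_lt
  exact inv_lt_one_of_one_lt₀ this

theorem pt_inj : Function.Injective (pt p) := by
  intro j k hjk
  have h1 : ‖pt p j‖ = ‖pt p k‖ := by rw [hjk]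
  rw [pt, pt, norm_pow, norm_pow, PadicInt.norm_p] at h1
  have hp1 : (1 : ℝ) < p := by exact_mod_cast (Fact.out : p.Prime).one_lt
  have h2 : (0 : ℝ) < (p : ℝ)⁻¹ := by positivity
  have h3 : (p : ℝ)⁻¹ ≠ 1 := (inv_lt_one_of_one_lt₀ hp1).ne
  have h4 := pow_right_injective₀ h2 h3 h1
  omega

theorem norm_zpt (k : ℕ) : ‖zc p (pt p k)‖ < 1 := by
  rw [norm_zc]; exact norm_pt k

theorem exists_avoid (F : Finset (PowerSeries ℂ_[p])) (h : ∀ f ∈ F, ∃ n, IsW f n) :
    ∃ k, ∀ f ∈ F, val f (zc p (pt p k)) ≠ 0 := by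
  classical
  have hinj : Function.Injective fun k => zc p (pt p k) := zc_injective.comp pt_inj
  have hfin : (⋃ f ∈ F, {k | val f (zc p (pt p k)) = 0}).Finite := by
    refine Set.Finite.biUnion F.finite_toSet ?_
    intro f hf
    obtain ⟨n, hn⟩ := h f hf
    by_contra hinf
    obtain ⟨s, hs1, hs2⟩ := Set.Infinite.exists_subset_card_eq hinf (n + 1)
    have h1 := hn.finite_zeros (s.image fun k => zc p (pt p k)) (by
      intro v hv
      obtain ⟨k, hk, rfl⟩ := Finset.mem_image.1 hv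
      exact ⟨norm_zpt k, hs1 hk⟩)
    rw [Finset.card_image_of_injective _ hinj, hs2] at h1
    omega
  obtain ⟨k, hk⟩ := hfin.exists_notMem
  refine ⟨k, fun f hf h0 => hk ?_⟩
  exact Set.mem_biUnion hf h0

theorem continuous_zc : Continuous (zc p) :=
  (AddMonoidHomClass.isometry_of_norm (zc p) norm_zc).continuous

theorem valZ_zc {a : ℤ_[p]} (ha : ‖a‖ < 1) (f : PowerSeries ℤ_[p]) :
    ∃ c : ℤ_[p], zc p c = valZ f (zc p a) := by
  have hs : Summable (fun n => PowerSeries.coeff n f * a ^ n) := by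
    refine Summable.of_norm_bounded (summable_geometric_of_lt_one (norm_nonneg a) ha) ?_
    intro n
    rw [norm_mul, norm_pow]
    have h1 := PadicInt.norm_le_one (PowerSeries.coeff n f)
    have h2 : (0 : ℝ) ≤ ‖a‖ ^ n := by positivity
    calc ‖PowerSeries.coeff n f‖ * ‖a‖ ^ n ≤ 1 * ‖a‖ ^ n := mul_le_mul_of_nonneg_right h1 h2
      _ = ‖a‖ ^ n := one_mul _
  refine ⟨∑' n, PowerSeries.coeff n f * a ^ n, ?_⟩
  have h2 := (hs.hasSum.map (zc p) continuous_zc).tsum_eq
  rw [← h2, valZ, val]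
  refine tsum_congr fun n => ?_
  simp only [Function.comp_apply, map_mul, map_pow, PowerSeries.coeff_map]

/-- the roots of a specialised polynomial are algebraic -/
theorem algebraic_root {a : ℤ_[p]} (ha : ‖a‖ < 1) (ha' : ‖zc p a‖ < 1)
    (P : Polynomial (PowerSeries ℤ_[p])) (h0 : P.map (valHom ha') ≠ 0) {lam : ℂ_[p]}
    (hl : (P.map (valHom ha')).eval lam = 0) : IsAlgebraic ℚ_[p] lam := by
  choose c hc using fun j => valZ_zc ha (P.coeff j)
  set Q : Polynomial ℤ_[p] := ∑ j ∈ Finset.range (P.natDegree + 1), Polynomial.monomial j (c j)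
    with hQ
  have hQm : Q.map (zc p) = P.map (valHom ha') := by
    refine Polynomial.ext fun k => ?_
    rw [Polynomial.coeff_map, Polynomial.coeff_map, hQ]
    simp only [Polynomial.finsetSum_coeff, Polynomial.coeff_monomial]
    rw [Finset.sum_ite_eq']
    split_ifs with hk
    · rw [hc, valHom_apply]
    · rw [Polynomial.coeff_eq_zero_of_natDegree_lt, map_zero, map_zero]
      rw [Finset.mem_range] at hk
      omega
  have hQ0 : Q ≠ 0 := by
    intro h
    rw [h, Polynomial.map_zero] at hQm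
    exact h0 hQm.symm
  refine ⟨Q.map (algebraMap ℤ_[p] ℚ_[p]), ?_, ?_⟩
  · rwa [Ne, Polynomial.map_eq_zero_iff (IsFractionRing.injective ℤ_[p] ℚ_[p])]
  · rw [Polynomial.aeval_def, Polynomial.eval₂_map]
    rw [← hQm, Polynomial.eval_map] at hl
    exact hl

theorem exists_content {G : RR p (Fin 2)} (hG : G ≠ 0) :
    ∃ (k : ℕ) (G' : RR p (Fin 2)), G = (p : RR p (Fin 2)) ^ k * G' ∧ ¬ (p : RR p (Fin 2)) ∣ G' := by
  classical
  have hex : ∃ k : ℕ, ¬ (p : RR p (Fin 2)) ^ k ∣ G := by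
    by_contra hcon
    push Not at hcon
    obtain ⟨m, hm⟩ : ∃ m, coeff m G ≠ 0 := by
      by_contra hm
      push Not at hm
      exact hG (MvPowerSeries.ext fun m => by rw [hm m, map_zero])
    have hp1 : (1 : ℝ) < p := by exact_mod_cast (Fact.out : p.Prime).one_lt
    obtain ⟨k, hk⟩ := exists_pow_lt_of_lt_one (norm_pos_iff.2 hm) (inv_lt_one_of_one_lt₀ hp1)
    obtain ⟨H, hH⟩ := hcon k
    have h1 : (p : RR p (Fin 2)) ^ k = C ((p : ℤ_[p]) ^ k) := by
      rw [map_pow, map_natCast]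
    rw [hH, h1, coeff_C_mul, norm_mul, norm_pow, PadicInt.norm_p] at hk
    have h2 := PadicInt.norm_le_one (coeff m H)
    have h3 : (0 : ℝ) ≤ ((p : ℝ)⁻¹) ^ k := by positivity
    nlinarith
  have h0 : Nat.find hex ≠ 0 := by
    intro h
    have h1 := Nat.find_spec hex
    rw [h, pow_zero] at h1
    exact h1 (one_dvd G)
  obtain ⟨k, hk⟩ := Nat.exists_eq_succ_of_ne_zero h0
  have h1 : (p : RR p (Fin 2)) ^ k ∣ G := by
    by_contra h2
    have := Nat.find_min' hex h2
    omega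
  obtain ⟨G', hG'⟩ := h1
  refine ⟨k, G', hG', ?_⟩
  rintro ⟨H, hH⟩
  apply Nat.find_spec hex
  rw [hk, hG', hH]
  exact ⟨H, by rw [pow_succ]; ring⟩

theorem ev_psubst_X {z : Fin 2 → ℂ_[p]} (hz : Disc z) (i : Fin 2) (f : PowerSeries ℤ_[p]) :
    ev z (PowerSeries.subst (X i : RR p (Fin 2)) f) = valZ f (z i) := by
  rw [ev_subst hz (constantCoeff_X i), ev_X]

/-- the embedding of `ℤ_p[[T]]` in the ring of power series in two variables -/
noncomputable def jj (p : ℕ) [Fact p.Prime] (i : Fin 2) : PowerSeries ℤ_[p] →+* RR p (Fin 2) :=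
  sb (t := (X i : RR p (Fin 2))) (constantCoeff_X i)

theorem jj_apply (i : Fin 2) (f : PowerSeries ℤ_[p]) :
    jj p i f = PowerSeries.subst (X i : RR p (Fin 2)) f := sb_apply _ f

theorem jj_ne_zero (i : Fin 2) {f : PowerSeries ℤ_[p]} (hf : f ≠ 0) : jj p i f ≠ 0 := by
  intro h0
  obtain ⟨k, hk⟩ := exists_avoid {PowerSeries.map (zc p) f} (by
    intro g hg
    rw [Finset.mem_singleton] at hg
    rw [hg]
    exact exists_isW_of_Z hf)
  have h1 := hk _ (Finset.mem_singleton_self _)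
  have hz : Disc (fun _ : Fin 2 => zc p (pt p k)) := fun _ => norm_zpt k
  have h2 := ev_psubst_X hz i f
  rw [← jj_apply, h0, ← evHom_apply hz, map_zero] at h2
  exact h1 h2.symm

/-- the resultant of two specialisable polynomials is nonzero -/
theorem resultant_ne {P1 P2 : Polynomial (PowerSeries ℤ_[p])} (h1 : P1 ≠ 0) (h2 : P2 ≠ 0)
    (hf : ∀ lam : ℂ_[p], IsAlgebraic ℚ_[p] lam → fam P2 lam ≠ 0) :
    Polynomial.resultant (P1.map (jj p 0)) (P2.map (jj p 1)) P1.natDegree P2.natDegree ≠ 0 := by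
  classical
  obtain ⟨ka, hka⟩ := exists_avoid {PowerSeries.map (zc p) P1.leadingCoeff} (by
    intro g hg
    rw [Finset.mem_singleton] at hg
    rw [hg]
    exact exists_isW_of_Z (Polynomial.leadingCoeff_ne_zero.2 h1))
  have hka' : valHom (norm_zpt (p := p) ka) P1.leadingCoeff ≠ 0 :=
    hka _ (Finset.mem_singleton_self _)
  set A := P1.map (valHom (norm_zpt (p := p) ka)) with hA
  have hAd : A.natDegree = P1.natDegree := Polynomial.natDegree_map_of_leadingCoeff_ne_zero _ hka'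
  have hA0 : A ≠ 0 := by
    intro h
    have h3 : A.coeff P1.natDegree = 0 := by rw [h, Polynomial.coeff_zero]
    rw [hA, Polynomial.coeff_map] at h3
    exact hka' h3
  obtain ⟨m, hm⟩ := exists_isW_fam P2
  obtain ⟨kb, hkb⟩ := exists_avoid
    (insert (PowerSeries.map (zc p) P2.leadingCoeff) (A.roots.toFinset.image (fam P2))) (by
      intro g hg
      rw [Finset.mem_insert, Finset.mem_image] at hg
      rcases hg with rfl | ⟨lam, hl, rfl⟩
      · exact exists_isW_of_Z (Polynomial.leadingCoeff_ne_zero.2 h2)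
      · rw [Multiset.mem_toFinset, Polynomial.mem_roots hA0] at hl
        have h3 := algebraic_root (norm_pt ka) (norm_zpt ka) P1 hA0 hl
        obtain ⟨n, _, hn⟩ := hm lam (hf lam h3)
        exact ⟨n, hn⟩)
  have hkb' : valHom (norm_zpt (p := p) kb) P2.leadingCoeff ≠ 0 :=
    hkb _ (Finset.mem_insert_self _ _)
  set B := P2.map (valHom (norm_zpt (p := p) kb)) with hB
  have hBd : B.natDegree = P2.natDegree := Polynomial.natDegree_map_of_leadingCoeff_ne_zero _ hkb'
  have hz : Disc (![zc p (pt p ka), zc p (pt p kb)] : Fin 2 → ℂ_[p]) := by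
    intro i
    fin_cases i
    · exact norm_zpt ka
    · exact norm_zpt kb
  have hcop : IsCoprime A B := by
    refine (Polynomial.isCoprime_iff_aeval_ne_zero_of_isAlgClosed (k := ℂ_[p]) ℂ_[p] A B).2 ?_
    intro lam
    by_contra hcon
    push Not at hcon
    obtain ⟨h3, h4⟩ := hcon
    rw [Polynomial.coe_aeval_eq_eval] at h3 h4
    have h5 : fam P2 lam ∈ insert (PowerSeries.map (zc p) P2.leadingCoeff)
        (A.roots.toFinset.image (fam P2)) := by
      refine Finset.mem_insert_of_mem (Finset.mem_image_of_mem _ ?_)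
      rw [Multiset.mem_toFinset, Polynomial.mem_roots hA0]
      exact h3
    apply hkb _ h5
    rw [val_fam P2 lam (norm_zpt kb), ← h4, hB, Polynomial.eval_map, Polynomial.eval₂_eq_sum_range]
    refine Finset.sum_congr rfl fun j _ => ?_
    rw [valHom_apply, mul_comm]
  intro h0
  have h3 := Polynomial.resultant_map_map (P1.map (jj p 0)) (P2.map (jj p 1)) P1.natDegree
    P2.natDegree (evHom hz)
  rw [h0, map_zero, Polynomial.map_map, Polynomial.map_map] at h3
  have e1 : (evHom hz).comp (jj p 0) = valHom (norm_zpt (p := p) ka) := by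
    refine RingHom.ext fun f => ?_
    rw [RingHom.comp_apply, evHom_apply, jj_apply, ev_psubst_X hz 0 f]
    rfl
  have e2 : (evHom hz).comp (jj p 1) = valHom (norm_zpt (p := p) kb) := by
    refine RingHom.ext fun f => ?_
    rw [RingHom.comp_apply, evHom_apply, jj_apply, ev_psubst_X hz 1 f]
    rfl
  rw [e1, e2, ← hA, ← hB, ← hAd, ← hBd] at h3
  exact (Polynomial.resultant_eq_zero_iff.1 h3).2 hcop

/-- a nonzero relation between the parameters -/
theorem exists_rel {𝔔 : Ideal (RR p (σ ⊕ σ))} [𝔔.IsPrime] {s s' : RR p (σ ⊕ σ)}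
    (hs : constantCoeff s = 0) (hs' : constantCoeff s' = 0)
    {P1 P2 : Polynomial (PowerSeries ℤ_[p])} (h1 : P1 ≠ 0) (h2 : P2 ≠ 0)
    (hf : ∀ lam : ℂ_[p], IsAlgebraic ℚ_[p] lam → fam P2 lam ≠ 0)
    {θ : FractionRing (RR p (σ ⊕ σ) ⧸ 𝔔)}
    (e1 : P1.eval₂ ((CMin.kap 𝔔).comp (sb hs)) θ = 0)
    (e2 : P2.eval₂ ((CMin.kap 𝔔).comp (sb hs')) θ = 0) :
    ∃ G : RR p (Fin 2), G ≠ 0 ∧ phi hs hs' G ∈ 𝔔 := by
  have c1 : (phi hs hs').comp (jj p 0) = sb hs := by
    refine RingHom.ext fun f => ?_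
    rw [RingHom.comp_apply, jj_apply, phi_psubst, sb_apply]
    rfl
  have c2 : (phi hs hs').comp (jj p 1) = sb hs' := by
    refine RingHom.ext fun f => ?_
    rw [RingHom.comp_apply, jj_apply, phi_psubst, sb_apply]
    rfl
  by_cases hd : P1.natDegree = 0
  · obtain ⟨c, rfl⟩ := Polynomial.natDegree_eq_zero.1 hd
    have hc : c ≠ 0 := by
      rintro rfl
      exact h1 Polynomial.C_0
    refine ⟨jj p 0 c, jj_ne_zero 0 hc, ?_⟩
    rw [Polynomial.eval₂_C, RingHom.comp_apply, CMin.kap_eq_zero] at e1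
    rw [← RingHom.comp_apply, c1]
    exact e1
  · refine ⟨Polynomial.resultant (P1.map (jj p 0)) (P2.map (jj p 1)) P1.natDegree P2.natDegree,
      resultant_ne h1 h2 hf, ?_⟩
    obtain ⟨u, v, _, _, huv⟩ := Polynomial.exists_mul_add_mul_eq_C_resultant (P1.map (jj p 0))
      (P2.map (jj p 1)) (m := P1.natDegree) (n := P2.natDegree) Polynomial.natDegree_map_le
      Polynomial.natDegree_map_le (Or.inl hd)
    have h3 := congrArg (Polynomial.eval₂ ((CMin.kap 𝔔).comp (phi hs hs')) θ) huv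
    rw [Polynomial.eval₂_add, Polynomial.eval₂_mul, Polynomial.eval₂_mul, Polynomial.eval₂_map,
      Polynomial.eval₂_map, Polynomial.eval₂_C, RingHom.comp_assoc, RingHom.comp_assoc, c1, c2, e1,
      e2, zero_mul, zero_mul, add_zero, RingHom.comp_apply] at h3
    exact (CMin.kap_eq_zero 𝔔 _).1 h3.symm

/-- nilpotency is inherited -/
theorem nil_aux {R : Type} [CommRing R] {I J : Ideal R} {x q s : R} {a n : ℕ}
    (hq : q ∈ I) (hJ : J ≤ I) (hx : x ^ n ∈ Ideal.span {q, s} ⊔ J) (hs : s ^ a ∈ I) :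
    x ^ (n * a) ∈ I := by
  rw [← Ideal.Quotient.eq_zero_iff_mem] at hs ⊢
  have h1 : ∃ c : R, Ideal.Quotient.mk I (x ^ n) = Ideal.Quotient.mk I (c * s) := by
    obtain ⟨y, hy, z, hz, hyz⟩ := Submodule.mem_sup.1 hx
    obtain ⟨b, c, hbc⟩ := Ideal.mem_span_pair.1 hy
    refine ⟨c, ?_⟩
    rw [Ideal.Quotient.eq, ← hyz, ← hbc]
    have h2 : b * q + c * s + z - c * s = b * q + z := by ring
    rw [h2]
    exact I.add_mem (I.mul_mem_left b hq) (hJ hz)
  obtain ⟨c, hc⟩ := h1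
  rw [pow_mul, map_pow, hc, ← map_pow, mul_pow, map_mul, hs, mul_zero]

end PairC

theorem pair_curve {𝔮 : Ideal (RR p σ)} {t : RR p σ} (h : IsCurve 𝔮 t) {N1 M1 N2 M2 : RR p σ}
    (hM1 : M1 ∉ 𝔮) (hM2 : M2 ∉ 𝔮) (hT1 : Tr 𝔮 N1 M1) (hT2 : Tr 𝔮 N2 M2)
    {𝔔 : Ideal (RR p (σ ⊕ σ))} (hQ : 𝔔.IsPrime) (hp : (p : RR p (σ ⊕ σ)) ∉ 𝔔)
    (hl : ∀ F ∈ 𝔮, inl F ∈ 𝔔) (hr : ∀ F ∈ 𝔮, inr F ∈ 𝔔) (hM1' : inl M1 ∉ 𝔔) (hM2' : inr M2 ∉ 𝔔)
    (hrel : inl N1 * inr M2 - inl M1 * inr N2 ∈ 𝔔) : ∃ t', IsCurve 𝔔 t' := by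
  classical
  obtain ⟨P1, hP1, hP1m, _⟩ := h.minpoly_tr hM1 hT1
  obtain ⟨P2, hP2, hP2m, hf⟩ := h.minpoly_tr hM2 hT2
  have hs : constantCoeff (inl t) = 0 := by rw [PairC.const_inl, h.t0]
  have hs' : constantCoeff (inr t) = 0 := by rw [PairC.const_inr, h.t0]
  have k1 : CMin.kap 𝔔 (inl M1) ≠ 0 := fun h0 => hM1' ((CMin.kap_eq_zero 𝔔 _).1 h0)
  have k2 : CMin.kap 𝔔 (inr M2) ≠ 0 := fun h0 => hM2' ((CMin.kap_eq_zero 𝔔 _).1 h0)
  have hθ : CMin.kap 𝔔 (inl N1) / CMin.kap 𝔔 (inl M1) =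
      CMin.kap 𝔔 (inr N2) / CMin.kap 𝔔 (inr M2) := by
    have h1 := (CMin.kap_eq_zero 𝔔 _).2 hrel
    rw [map_sub, map_mul, map_mul, sub_eq_zero] at h1
    rw [div_eq_div_iff k1 k2, h1]
    ring
  have e1 : P1.eval₂ ((CMin.kap 𝔔).comp (sb hs)) (CMin.kap 𝔔 (inl N1) / CMin.kap 𝔔 (inl M1)) = 0 := by
    rw [← CMin.hg_mem_iff 𝔔 (sb hs) P1 hM1']
    have h1 := hl _ hP1m
    rw [PairC.hom_hg inl (ψ := ⇑(sb hs)) (fun f => by
      rw [PairC.inl_subst h.t0, sb_apply])] at h1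
    exact h1
  have e2 : P2.eval₂ ((CMin.kap 𝔔).comp (sb hs')) (CMin.kap 𝔔 (inl N1) / CMin.kap 𝔔 (inl M1)) = 0 := by
    rw [hθ, ← CMin.hg_mem_iff 𝔔 (sb hs') P2 hM2']
    have h1 := hr _ hP2m
    rw [PairC.hom_hg inr (ψ := ⇑(sb hs')) (fun f => by
      rw [PairC.inr_subst h.t0, sb_apply])] at h1
    exact h1
  obtain ⟨G, hG0, hG⟩ := PairC.exists_rel hs hs' hP1 hP2 hf e1 e2
  obtain ⟨k, G', hGG', hG'⟩ := PairC.exists_content hG0
  have hG'm : PairC.phi hs hs' G' ∈ 𝔔 := by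
    rw [hGG', map_mul, map_pow, map_natCast] at hG
    exact (hQ.mem_or_mem hG).resolve_left fun h1 => hp (hQ.mem_of_pow_mem _ h1)
  rw [PairC.phi_apply] at hG'm
  obtain ⟨n, a, hn, ha1, ha2⟩ := exists_param hG' hs hs' hG'm
  obtain ⟨n0, hn0⟩ := h.fin
  set I : Ideal (RR p (σ ⊕ σ)) :=
    Ideal.span {(p : RR p (σ ⊕ σ)), inl t - inr t ^ n} ⊔ 𝔔 with hI
  have hpI : (p : RR p (σ ⊕ σ)) ∈ I :=
    Ideal.mem_sup_left (Ideal.subset_span (Set.mem_insert _ _))
  have hQI : 𝔔 ≤ I := le_sup_right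
  refine ⟨inl t - inr t ^ n, hQ, hp, ?_, n0 * a, ?_⟩
  · rw [map_sub, map_pow, hs, hs', zero_pow (by omega), sub_zero]
  · intro i
    rcases i with i | i
    · refine PairC.nil_aux (J := 𝔔) hpI hQI ?_ ha1
      have h1 := Ideal.mem_map_of_mem (inl (p := p) (σ := σ)) (hn0 i)
      rw [map_pow, PairC.inl_X, Ideal.map_sup, Ideal.map_span, Set.image_pair, map_natCast] at h1
      exact sup_le_sup_left (Ideal.map_le_iff_le_comap.2 hl) _ h1
    · refine PairC.nil_aux (J := 𝔔) hpI hQI ?_ ha2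
      have h1 := Ideal.mem_map_of_mem (inr (p := p) (σ := σ)) (hn0 i)
      rw [map_pow, PairC.inr_X, Ideal.map_sup, Ideal.map_span, Set.image_pair, map_natCast] at h1
      exact sup_le_sup_left (Ideal.map_le_iff_le_comap.2 hr) _ h1

end Pool.Agent.ZPB
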