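import Pool.Agent.ZPB.CurveMin
import Pool.Agent.ZPB.CurveZero

/-!
# Module C6: two terms tie

Let `N, M ∉ 𝔮`, `P` as in `minpoly_coeff_zero`. Only finitely many points `z` of `zer 𝔮` satisfy
`valZ P_j (ev z t) = 0` for some `j` with `P_j ≠ 0` (`exists_isW_of_Z`, `IsW.finite_zeros`, `fibre_t`), or
`ev z M = 0`, or `ev z N = 0` (`finite_zeros`). For the other points the relation `∑_j P_j(T) lam^j = 0`
(`lam = ev z N / ev z M`, `T = ev z t`) has at least two nonzero terms, and two of them have the same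
(maximal) norm.
-/

namespace Pool.Agent.ZPB

open MvPowerSeries

variable {p : ℕ} [Fact p.Prime] {σ : Type} [Fintype σ]

namespace TwoTerm

/-- in an ultrametric field the terms of a vanishing sum tie -/
theorem exists_tie {d : ℕ} {a : ℕ → ℂ_[p]} (hsum : ∑ j ∈ Finset.range (d + 1), a j = 0)
    (h0 : a 0 ≠ 0) : ∃ j l : ℕ, j < l ∧ l ≤ d ∧ a j ≠ 0 ∧ a l ≠ 0 ∧ ‖a j‖ = ‖a l‖ := by
  obtain ⟨j, hj, hmax⟩ := Finset.exists_max_image (Finset.range (d + 1)) (fun j => ‖a j‖)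
    ⟨0, Finset.mem_range.2 (Nat.succ_pos d)⟩
  have hj0 : 0 < ‖a j‖ := lt_of_lt_of_le (norm_pos_iff.2 h0)
    (hmax 0 (Finset.mem_range.2 (Nat.succ_pos d)))
  have hsplit := Finset.add_sum_erase (Finset.range (d + 1)) a hj
  rw [hsum] at hsplit
  have hrest : ∑ i ∈ (Finset.range (d + 1)).erase j, a i = -a j := by
    rw [eq_neg_iff_add_eq_zero, add_comm]
    exact hsplit
  have hne : ((Finset.range (d + 1)).erase j).Nonempty := by
    rw [Finset.nonempty_iff_ne_empty]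
    intro he
    rw [he, Finset.sum_empty] at hrest
    rw [eq_comm, neg_eq_zero] at hrest
    rw [hrest, norm_zero] at hj0
    exact lt_irrefl _ hj0
  obtain ⟨l, hl, hle⟩ := IsUltrametricDist.exists_norm_finsetSum_le_of_nonempty hne a
  rw [hrest, norm_neg] at hle
  have hlj : l ≠ j := Finset.ne_of_mem_erase hl
  have hl' := Finset.mem_of_mem_erase hl
  have heq : ‖a j‖ = ‖a l‖ := le_antisymm hle (hmax l hl')
  have hj' : a j ≠ 0 := norm_pos_iff.1 hj0
  have hl0 : a l ≠ 0 := norm_pos_iff.1 (heq ▸ hj0)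
  have hjd := Finset.mem_range.1 hj
  have hld := Finset.mem_range.1 hl'
  rcases lt_or_gt_of_ne hlj with hlt | hgt
  · exact ⟨l, j, hlt, by omega, hl0, hj', heq.symm⟩
  · exact ⟨j, l, hgt, by omega, hj', hl0, heq⟩

end TwoTerm

theorem IsCurve.two_term {𝔮 : Ideal (RR p σ)} {t : RR p σ} (h : IsCurve 𝔮 t)
    {N M : RR p σ} (hN : N ∉ 𝔮) (hM : M ∉ 𝔮) :
    ∃ (d : ℕ) (c : ℕ → PowerSeries ℤ_[p]), {z | z ∈ zer 𝔮 ∧ ¬ ∃ j l : ℕ, j < l ∧ l ≤ d ∧ c j ≠ 0 ∧
      c l ≠ 0 ∧ valZ (c j) (ev z t) ≠ 0 ∧ valZ (c l) (ev z t) ≠ 0 ∧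
      ‖valZ (c j) (ev z t)‖ * ‖ev z N / ev z M‖ ^ j = ‖valZ (c l) (ev z t)‖ * ‖ev z N / ev z M‖ ^ l}.Finite := by
  classical
  obtain ⟨P, hP0, hPq⟩ := h.minpoly_coeff_zero hN hM
  refine ⟨P.natDegree, P.coeff, ?_⟩
  have hdisc : ∀ z ∈ zer 𝔮, ‖ev z t‖ < 1 := fun z hz => norm_ev_lt hz.1 h.t0
  -- points where the constant coefficient vanishes
  have hfin0 : {z | z ∈ zer 𝔮 ∧ valZ (P.coeff 0) (ev z t) = 0}.Finite := by
    obtain ⟨n, hn⟩ := exists_isW_of_Z hP0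
    obtain ⟨B, hB⟩ := h.fibre_t
    -- finitely many values of the parameter
    have hvals : {s : ℂ_[p] | ‖s‖ < 1 ∧ valZ (P.coeff 0) s = 0}.Finite := by
      by_contra hinf
      obtain ⟨Z, hZ, hcard⟩ := Set.Infinite.exists_subset_card_eq hinf (n + 1)
      have := hn.finite_zeros Z fun s hs => hZ hs
      omega
    have hfib : ∀ s : ℂ_[p], {z | z ∈ zer 𝔮 ∧ ev z t = s}.Finite := by
      intro s
      by_contra hinf
      obtain ⟨Z, hZ, hcard⟩ := Set.Infinite.exists_subset_card_eq hinf (B + 1)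
      have := hB s Z fun z hz => hZ hz
      omega
    refine (hvals.biUnion fun s _ => hfib s).subset ?_
    rintro z ⟨hz, hz0⟩
    rw [Set.mem_iUnion₂]
    exact ⟨ev z t, ⟨hdisc z hz, hz0⟩, hz, rfl⟩
  refine ((hfin0.union (h.finite_zeros hM)).union (h.finite_zeros hN)).subset ?_
  rintro z ⟨hz, hno⟩
  by_contra hcon
  simp only [Set.mem_union, Set.mem_setOf_eq, not_or, not_and] at hcon
  have h0 : valZ (P.coeff 0) (ev z t) ≠ 0 := hcon.1.1 hz
  have hMz : ev z M ≠ 0 := hcon.1.2 hz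
  have hNz : ev z N ≠ 0 := hcon.2 hz
  have hs := hdisc z hz
  have hrel := ev_hg hz.1 h.t0 P (N := N) hMz
  rw [hz.2 _ hPq] at hrel
  have hval : val (fam P (ev z N / ev z M)) (ev z t) = 0 := by
    rcases mul_eq_zero.1 hrel.symm with h1 | h1
    · exact absurd h1 (pow_ne_zero _ hMz)
    · exact h1
  rw [val_fam P _ hs] at hval
  set lam := ev z N / ev z M with hlam
  have hlam0 : lam ≠ 0 := div_ne_zero hNz hMz
  obtain ⟨j, l, hjl, hld, haj, hal, heq⟩ := TwoTerm.exists_tie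
    (a := fun j => lam ^ j * valZ (P.coeff j) (ev z t)) hval (by simpa using h0)
  refine hno ⟨j, l, hjl, hld, ?_, ?_, right_ne_zero_of_mul haj, right_ne_zero_of_mul hal, ?_⟩
  · intro hc
    apply right_ne_zero_of_mul haj
    rw [hc, ← valHom_apply hs, map_zero]
  · intro hc
    apply right_ne_zero_of_mul hal
    rw [hc, ← valHom_apply hs, map_zero]
  · rw [norm_mul, norm_mul, norm_pow, norm_pow] at heq
    rw [mul_comm, heq, mul_comm]

end Pool.Agent.ZPB
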