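import Pool.Agent.ZPB.Monomials
import Pool.Agent.ZPB.PairCurve
import Pool.Agent.ZPB.Dense
import Pool.Agent.ZPB.TwoTerm
import Pool.Agent.ZPB.Recenter
import Pool.Agent.ZPB.Dominant

/-!
# Module T1: the tiny lemma

`E_k = (UU e1 (y k) / UU e1 (x k))^A - 1` tends to zero; claim: `E_k = 0` for all large `k`.
Suppose not; pass to a subsequence with `E_k ≠ 0` for all `k`. `exists_dense` for `z_k = Sum.elim (x k) (y k)`:
`𝔔`, `φ`; rename the subsequence to `z_k`. As `inl (uneg e0)`, `inr (uneg e0)` do not vanish at `z_k`, `pair_curve`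
(`N1 = N2 = upos e0 ^ A`, `M1 = M2 = uneg e0 ^ A`, relation from `hrel`) gives `t'` with `IsCurve 𝔔 t'`.
(1) `E_k = W(z_k)/V(z_k)` with `V = inl(upos e1)^A inr(uneg e1)^A`, `W = inr(upos e1)^A inl(uneg e1)^A - V`;
`W, V ∉ 𝔔` as they do not vanish at `z_k`. `minpoly_coeff_zero` for `W/V`: `∑ c_j(T'_k) E_k^j = 0` with `c_0 ≠ 0`,
`T'_k = ev z_k t'` (`ev_hg`, `val_fam`). Since `‖c_j(T'_k)‖ ≤ 1` and `E_k → 0`, `c_0(T'_k) → 0`. By
`IsW.exists_limit` a subsequence satisfies `T'_k → s`, `‖s‖ < 1`.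
(2) Let `f = inl N / inl M`, `f_k = f(z_k)`; the `‖f_k‖` are pairwise distinct and tend to `ℓ ≠ 0`. `inl N ∉ 𝔔` (its
value is nonzero for large `k`), `inl M ∉ 𝔔`. By `two_term` for `𝔔` (the `z_k` are distinct), after passing to a
subsequence there are fixed `j < l` with `‖c_j(T'_k)‖ ‖f_k‖^j = ‖c_l(T'_k)‖ ‖f_k‖^l`, both values nonzero. Put
`S_k = T'_k - s → 0`; `S_k ≠ 0` for large `k` (`fibre_t`). If `a_b S^b` is the first nonzero term of
`recenter s c_j` then `‖c_j(T'_k)‖ = ‖a_b‖ ‖S_k‖^b` for `k` large, similarly for `l`. So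
`‖f_k‖^(l-j) = C ‖S_k‖^(b-b')` with `C > 0`. As `‖f_k‖ → ℓ ≠ 0` and `‖S_k‖ → 0`, `b = b'`, and `‖f_k‖` is constant for
large `k`: contradiction.
-/

namespace Pool.Agent.ZPB

open MvPowerSeries

variable {p : ℕ} [Fact p.Prime] {σ : Type} [Fintype σ]

private theorem tiny_limit {𝔮 : Ideal (RR p σ)} {t : RR p σ} (h : IsCurve 𝔮 t) {W V : RR p σ}
    (hW : W ∉ 𝔮) (hV : V ∉ 𝔮) {w : ℕ → σ → ℂ_[p]} (hw : ∀ k, w k ∈ zer 𝔮)
    (hV0 : ∀ k, ev (w k) V ≠ 0)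
    (hE : Filter.Tendsto (fun k => ev (w k) W / ev (w k) V) Filter.atTop (nhds 0)) :
    ∃ s : ℂ_[p], ‖s‖ < 1 ∧ ∃ φ : ℕ → ℕ, StrictMono φ ∧
      Filter.Tendsto (fun k => ev (w (φ k)) t) Filter.atTop (nhds s) := by
  obtain ⟨P, hP0, hP⟩ := h.minpoly_coeff_zero hW hV
  have hT : ∀ k, ‖ev (w k) t‖ < 1 := fun k => norm_ev_lt (hw k).1 h.t0
  have h1 : ∀ k, ∑ j ∈ Finset.range (P.natDegree + 1),
      (ev (w k) W / ev (w k) V) ^ j * valZ (P.coeff j) (ev (w k) t) = 0 := by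
    intro k
    rw [← val_fam P _ (hT k)]
    have h2 := ev_hg (hw k).1 h.t0 P (N := W) (hV0 k)
    rw [(hw k).2 _ hP] at h2
    exact (mul_eq_zero.1 h2.symm).resolve_left (pow_ne_zero _ (hV0 k))
  have h3 : Filter.Tendsto (fun k => valZ (P.coeff 0) (ev (w k) t)) Filter.atTop (nhds 0) := by
    have h4 : ∀ k, valZ (P.coeff 0) (ev (w k) t) = - ∑ j ∈ Finset.range P.natDegree,
        (ev (w k) W / ev (w k) V) ^ (j + 1) * valZ (P.coeff (j + 1)) (ev (w k) t) := by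
      intro k
      have h5 := h1 k
      rw [Finset.sum_range_succ', pow_zero, one_mul] at h5
      exact eq_neg_of_add_eq_zero_right h5
    have h6 : Filter.Tendsto (fun k => - ∑ j ∈ Finset.range P.natDegree,
        (ev (w k) W / ev (w k) V) ^ (j + 1) * valZ (P.coeff (j + 1)) (ev (w k) t)) Filter.atTop
        (nhds (- ∑ _j ∈ Finset.range P.natDegree, (0 : ℂ_[p]))) := by
      refine Filter.Tendsto.neg (tendsto_finsetSum _ fun j _ => ?_)
      have h7 : Filter.Tendsto (fun k => ‖ev (w k) W / ev (w k) V‖ ^ (j + 1)) Filter.atTop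
          (nhds 0) := by
        have h8 := (hE.norm).pow (j + 1)
        rwa [norm_zero, zero_pow (Nat.succ_ne_zero j)] at h8
      refine squeeze_zero_norm (fun k => ?_) h7
      rw [norm_mul, norm_pow]
      exact mul_le_of_le_one_right (by positivity) (norm_valZ_le (hT k) _)
    simp only [Finset.sum_const_zero, neg_zero] at h6
    exact (Filter.tendsto_congr h4).2 h6
  obtain ⟨n, hn⟩ := exists_isW_of_Z hP0
  exact hn.exists_limit (fun k => ev (w k) t) hT h3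

/-- near `s` a nonzero power series behaves like a monomial -/
private theorem tiny_monomial {c : PowerSeries ℤ_[p]} (hc : c ≠ 0) {s : ℂ_[p]} (hs : ‖s‖ < 1) :
    ∃ (b : ℕ) (a δ : ℝ), 0 < a ∧ 0 < δ ∧ ∀ S : ℂ_[p], 0 < ‖S‖ → ‖S‖ < δ →
      ‖valZ c (s + S)‖ = a * ‖S‖ ^ b := by
  obtain ⟨n, hn⟩ := exists_isW_of_Z hc
  have hg := hn.recenter hs
  set g := recenter s (PowerSeries.map (zc p) c) with hgd
  have hex : ∃ m, PowerSeries.coeff m g ≠ 0 := ⟨n, hg.1⟩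
  classical
  set b := Nat.find hex with hb
  have hb0 : PowerSeries.coeff b g ≠ 0 := Nat.find_spec hex
  have hlt : ∀ m < b, PowerSeries.coeff m g = 0 := fun m hm => by
    by_contra h
    exact Nat.find_min hex hm h
  have hA : 0 < ‖PowerSeries.coeff b g‖ := norm_pos_iff.2 hb0
  set A := ‖PowerSeries.coeff b g‖ with hAd
  set B := ‖PowerSeries.coeff n g‖ with hBd
  have hB : 0 < B := norm_pos_iff.2 hg.1
  refine ⟨b, A, min 1 (A / B), hA, lt_min one_pos (div_pos hA hB), fun S hS0 hSδ => ?_⟩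
  have hS1 : ‖S‖ < 1 := lt_of_lt_of_le hSδ (min_le_left _ _)
  have hS2 : ‖S‖ < A / B := lt_of_lt_of_le hSδ (min_le_right _ _)
  have hdom : Dom g ‖S‖ b := by
    refine ⟨hb0, fun m hm => ?_⟩
    rcases lt_or_gt_of_ne hm with h1 | h1
    · rw [hlt m h1, norm_zero, zero_mul]
      exact mul_pos hA (pow_pos hS0 _)
    · obtain ⟨e, rfl⟩ := Nat.exists_eq_add_of_lt h1
      have h2 : ‖PowerSeries.coeff (b + e + 1) g‖ ≤ B := hg.2.1 _
      have h3 : B * ‖S‖ < A := by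
        rw [lt_div_iff₀ hB] at hS2
        linarith
      calc ‖PowerSeries.coeff (b + e + 1) g‖ * ‖S‖ ^ (b + e + 1)
          ≤ B * ‖S‖ ^ (b + e + 1) := mul_le_mul_of_nonneg_right h2 (by positivity)
        _ = B * ‖S‖ * ‖S‖ ^ b * ‖S‖ ^ e := by ring
        _ ≤ B * ‖S‖ * ‖S‖ ^ b * 1 := by
            refine mul_le_mul_of_nonneg_left (pow_le_one₀ (norm_nonneg _) hS1.le) (by positivity)
        _ < A * ‖S‖ ^ b := by
            rw [mul_one]
            exact mul_lt_mul_of_pos_right h3 (pow_pos hS0 _)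
  have h4 := hdom.norm_val hg.bdd hS0 hS1 rfl
  rw [hgd, val_recenter hn.bdd hs hS1] at h4
  exact h4

private theorem tiny_contra {𝔮 : Ideal (RR p σ)} {t : RR p σ} (h : IsCurve 𝔮 t) {N M : RR p σ}
    (hN : N ∉ 𝔮) (hM : M ∉ 𝔮) {w : ℕ → σ → ℂ_[p]} (hwi : Function.Injective w)
    (hw : ∀ k, w k ∈ zer 𝔮) {s : ℂ_[p]} (hs : ‖s‖ < 1)
    (hT : Filter.Tendsto (fun k => ev (w k) t) Filter.atTop (nhds s))
    (hinj : Function.Injective fun k => ‖ev (w k) N / ev (w k) M‖) {ℓ : ℝ} (hℓ : ℓ ≠ 0)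
    (hlim : Filter.Tendsto (fun k => ‖ev (w k) N / ev (w k) M‖) Filter.atTop (nhds ℓ)) :
    False := by
  obtain ⟨d, c, hfin⟩ := h.two_term hN hM
  obtain ⟨B, hB⟩ := h.fibre_t
  have hℓ0 : 0 < ℓ := lt_of_le_of_ne (ge_of_tendsto' hlim fun k => norm_nonneg _) (Ne.symm hℓ)
  -- eventually outside the finite set
  have ev1 : ∀ᶠ k in Filter.atTop, ∃ j l : ℕ, j < l ∧ l ≤ d ∧ c j ≠ 0 ∧
      c l ≠ 0 ∧ ‖valZ (c j) (ev (w k) t)‖ * ‖ev (w k) N / ev (w k) M‖ ^ j =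
        ‖valZ (c l) (ev (w k) t)‖ * ‖ev (w k) N / ev (w k) M‖ ^ l := by
    have h1 : (w ⁻¹' {z | z ∈ zer 𝔮 ∧ ¬ ∃ j l : ℕ, j < l ∧ l ≤ d ∧ c j ≠ 0 ∧
      c l ≠ 0 ∧ valZ (c j) (ev z t) ≠ 0 ∧ valZ (c l) (ev z t) ≠ 0 ∧
      ‖valZ (c j) (ev z t)‖ * ‖ev z N / ev z M‖ ^ j =
        ‖valZ (c l) (ev z t)‖ * ‖ev z N / ev z M‖ ^ l}).Finite := hfin.preimage hwi.injOn
    have h2 := h1.compl_mem_cofinite
    rw [Nat.cofinite_eq_atTop] at h2
    filter_upwards [h2] with k hk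
    by_contra hcon
    apply hk
    refine ⟨hw k, ?_⟩
    rintro ⟨j, l, h3, h4, h5, h6, -, -, h7⟩
    exact hcon ⟨j, l, h3, h4, h5, h6, h7⟩
  -- a fixed pair
  obtain ⟨j, l, hjl, hcj, hcl, hfr⟩ : ∃ j l : ℕ, j < l ∧ c j ≠ 0 ∧ c l ≠ 0 ∧
      ∃ᶠ k in Filter.atTop, ‖valZ (c j) (ev (w k) t)‖ * ‖ev (w k) N / ev (w k) M‖ ^ j =
        ‖valZ (c l) (ev (w k) t)‖ * ‖ev (w k) N / ev (w k) M‖ ^ l := by
    by_contra hcon
    push Not at hcon
    have h1 : ∀ᶠ k in Filter.atTop, ∀ j ∈ Finset.range (d + 1), ∀ l ∈ Finset.range (d + 1),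
        j < l → c j ≠ 0 → c l ≠ 0 →
        ‖valZ (c j) (ev (w k) t)‖ * ‖ev (w k) N / ev (w k) M‖ ^ j ≠
        ‖valZ (c l) (ev (w k) t)‖ * ‖ev (w k) N / ev (w k) M‖ ^ l := by
      rw [Filter.eventually_all_finset]
      intro j _
      rw [Filter.eventually_all_finset]
      intro l _
      by_cases h2 : j < l ∧ c j ≠ 0 ∧ c l ≠ 0
      · have h3 := hcon j l h2.1 h2.2.1 h2.2.2
        filter_upwards [h3] with k hk _ _ _
        exact hk
      · exact Filter.Eventually.of_forall fun k h4 h5 h6 => absurd ⟨h4, h5, h6⟩ h2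
    obtain ⟨k, hk1, hk2⟩ := (ev1.and h1).exists
    obtain ⟨j, l, h3, h4, h5, h6, h7⟩ := hk1
    exact hk2 j (Finset.mem_range.2 (by omega)) l (Finset.mem_range.2 (by omega)) h3 h5 h6 h7
  obtain ⟨b, a, δ, ha, hδ, hb⟩ := tiny_monomial hcj hs
  obtain ⟨b', a', δ', ha', hδ', hb'⟩ := tiny_monomial hcl hs
  have hS : Filter.Tendsto (fun k => ‖ev (w k) t - s‖) Filter.atTop (nhds 0) := by
    have h1 := (hT.sub_const s).norm
    rwa [sub_self, norm_zero] at h1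
  have hSpos : ∀ᶠ k in Filter.atTop, 0 < ‖ev (w k) t - s‖ := by
    have h1 : {k | ev (w k) t = s}.Finite := by
      by_contra h2
      obtain ⟨Z, hZ, hcard⟩ := Set.Infinite.exists_subset_card_eq h2 (B + 1)
      have h3 := hB s (Z.map ⟨w, hwi⟩) (by
        intro z hz
        obtain ⟨k, hk, rfl⟩ := Finset.mem_map.1 hz
        exact ⟨hw k, hZ hk⟩)
      rw [Finset.card_map, hcard] at h3
      omega
    have h2 := h1.compl_mem_cofinite
    rw [Nat.cofinite_eq_atTop] at h2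
    filter_upwards [h2] with k hk
    exact norm_pos_iff.2 (sub_ne_zero.2 hk)
  have hSlt : ∀ᶠ k in Filter.atTop, ‖ev (w k) t - s‖ < min δ δ' :=
    hS.eventually (gt_mem_nhds (lt_min hδ hδ'))
  have hFpos : ∀ᶠ k in Filter.atTop, 0 < ‖ev (w k) N / ev (w k) M‖ :=
    hlim.eventually (lt_mem_nhds hℓ0)
  -- the relation for the sizes
  have hfr2 : ∃ᶠ k in Filter.atTop, (0 < ‖ev (w k) t - s‖ ∧ 0 < ‖ev (w k) N / ev (w k) M‖) ∧
      a * ‖ev (w k) t - s‖ ^ b * ‖ev (w k) N / ev (w k) M‖ ^ j =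
        a' * ‖ev (w k) t - s‖ ^ b' * ‖ev (w k) N / ev (w k) M‖ ^ l := by
    refine (hfr.and_eventually (hSpos.and (hSlt.and hFpos))).mono ?_
    rintro k ⟨h1, h2, h3, h4⟩
    refine ⟨⟨h2, h4⟩, ?_⟩
    have h5 := hb (ev (w k) t - s) h2 (lt_of_lt_of_le h3 (min_le_left _ _))
    have h6 := hb' (ev (w k) t - s) h2 (lt_of_lt_of_le h3 (min_le_right _ _))
    rw [add_sub_cancel] at h5 h6
    rw [← h5, ← h6]
    exact h1
  obtain ⟨φ, hφ, hrel⟩ := Filter.extraction_of_frequently_atTop hfr2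
  have hφt := hφ.tendsto_atTop
  set r : ℕ → ℝ := fun k => ‖ev (w (φ k)) t - s‖ with hr
  set F : ℕ → ℝ := fun k => ‖ev (w (φ k)) N / ev (w (φ k)) M‖ with hF
  have hr0 : Filter.Tendsto r Filter.atTop (nhds 0) := hS.comp hφt
  have hF0 : Filter.Tendsto F Filter.atTop (nhds ℓ) := hlim.comp hφt
  have hrp : ∀ k, 0 < r k := fun k => (hrel k).1.1
  have hFp : ∀ k, 0 < F k := fun k => (hrel k).1.2
  have hE : ∀ k, a * r k ^ b * F k ^ j = a' * r k ^ b' * F k ^ l := fun k => (hrel k).2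
  rcases lt_trichotomy b b' with hbb | hbb | hbb
  · obtain ⟨e, rfl⟩ := Nat.exists_eq_add_of_lt hbb
    have h1 : ∀ k, a * F k ^ j = a' * r k ^ (e + 1) * F k ^ l := by
      intro k
      have h2 := hE k
      have h3 : r k ^ b ≠ 0 := (pow_pos (hrp k) _).ne'
      apply mul_left_cancel₀ h3
      calc r k ^ b * (a * F k ^ j) = a * r k ^ b * F k ^ j := by ring
        _ = a' * r k ^ (b + e + 1) * F k ^ l := h2
        _ = r k ^ b * (a' * r k ^ (e + 1) * F k ^ l) := by ring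
    have h2 : Filter.Tendsto (fun k => a * F k ^ j) Filter.atTop (nhds (a * ℓ ^ j)) :=
      (hF0.pow j).const_mul a
    have h3 : Filter.Tendsto (fun k => a' * r k ^ (e + 1) * F k ^ l) Filter.atTop
        (nhds (a' * 0 ^ (e + 1) * ℓ ^ l)) := ((hr0.pow (e + 1)).const_mul a').mul (hF0.pow l)
    have h4 := tendsto_nhds_unique h2 ((Filter.tendsto_congr h1).2 h3)
    rw [zero_pow (Nat.succ_ne_zero e), mul_zero, zero_mul] at h4
    exact (mul_pos ha (pow_pos hℓ0 j)).ne' h4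
  · subst hbb
    have h1 : ∀ k, F k ^ (l - j) = a / a' := by
      intro k
      have h2 := hE k
      have h3 : r k ^ b ≠ 0 := (pow_pos (hrp k) _).ne'
      have h4 : F k ^ j ≠ 0 := (pow_pos (hFp k) _).ne'
      rw [eq_div_iff ha'.ne']
      apply mul_left_cancel₀ h3
      apply mul_left_cancel₀ h4
      have h5 : F k ^ l = F k ^ j * F k ^ (l - j) := by
        rw [← pow_add, Nat.add_sub_cancel' hjl.le]
      rw [h5] at h2
      linear_combination -h2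
    have h2 : F 0 = F 1 :=
      (pow_left_inj₀ (hFp 0).le (hFp 1).le (by omega)).1 ((h1 0).trans (h1 1).symm)
    have h3 : φ 0 = φ 1 := hinj h2
    have h4 := hφ (Nat.zero_lt_one)
    omega
  · obtain ⟨e, rfl⟩ := Nat.exists_eq_add_of_lt hbb
    have h1 : ∀ k, a' * F k ^ l = a * r k ^ (e + 1) * F k ^ j := by
      intro k
      have h2 := hE k
      have h3 : r k ^ b' ≠ 0 := (pow_pos (hrp k) _).ne'
      apply mul_left_cancel₀ h3
      calc r k ^ b' * (a' * F k ^ l) = a' * r k ^ b' * F k ^ l := by ring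
        _ = a * r k ^ (b' + e + 1) * F k ^ j := h2.symm
        _ = r k ^ b' * (a * r k ^ (e + 1) * F k ^ j) := by ring
    have h2 : Filter.Tendsto (fun k => a' * F k ^ l) Filter.atTop (nhds (a' * ℓ ^ l)) :=
      (hF0.pow l).const_mul a'
    have h3 : Filter.Tendsto (fun k => a * r k ^ (e + 1) * F k ^ j) Filter.atTop
        (nhds (a * 0 ^ (e + 1) * ℓ ^ j)) := ((hr0.pow (e + 1)).const_mul a).mul (hF0.pow j)
    have h4 := tendsto_nhds_unique h2 ((Filter.tendsto_congr h1).2 h3)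
    rw [zero_pow (Nat.succ_ne_zero e), mul_zero, zero_mul] at h4
    exact (mul_pos ha' (pow_pos hℓ0 l)).ne' h4

private theorem tiny_core {𝔮 : Ideal (RR p σ)} {t : RR p σ} (h : IsCurve 𝔮 t)
    (hX : ∀ i, (X i : RR p σ) ∉ 𝔮) {e0 e1 : σ → ℤ} {A : ℕ}
    (hT : Tr 𝔮 (upos p e0 ^ A) (uneg p e0 ^ A)) {x y : ℕ → σ → ℂ_[p]} (hx : Function.Injective x)
    (hxz : ∀ k, x k ∈ zer 𝔮) (hyz : ∀ k, y k ∈ zer 𝔮) (hx0 : ∀ k i, x k i ≠ 0)
    (hy0 : ∀ k i, y k i ≠ 0) (hrel : ∀ k, UU e0 (y k) ^ A = UU e0 (x k) ^ A)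
    (hE : Filter.Tendsto (fun k => (UU e1 (y k) / UU e1 (x k)) ^ A - 1) Filter.atTop (nhds 0))
    {N M : RR p σ} (hM : ∀ k, ev (x k) M ≠ 0)
    (hinj : Function.Injective fun k => ‖ev (x k) N / ev (x k) M‖) {ℓ : ℝ} (hℓ : ℓ ≠ 0)
    (hlim : Filter.Tendsto (fun k => ‖ev (x k) N / ev (x k) M‖) Filter.atTop (nhds ℓ))
    (hne : ∀ k, UU e1 (y k) ^ A ≠ UU e1 (x k) ^ A)
    {𝔔 : Ideal (RR p (σ ⊕ σ))} (hQ : 𝔔.IsPrime) (hp : (p : RR p (σ ⊕ σ)) ∉ 𝔔)
    (hz : ∀ k, Sum.elim (x k) (y k) ∈ zer 𝔔)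
    (hdense : ∀ F : RR p (σ ⊕ σ), (∀ k, ev (Sum.elim (x k) (y k)) F = 0) → F ∈ 𝔔) : False := by
  have hpos : ∀ (e : σ → ℤ) (z : σ → ℂ_[p]), Disc z → (∀ i, z i ≠ 0) → ev z (upos p e) ≠ 0 := by
    intro e z hd h0
    rw [ev_upos hd]
    exact Finset.prod_ne_zero_iff.2 fun i _ => pow_ne_zero _ (h0 i)
  have hneg : ∀ (e : σ → ℤ) (z : σ → ℂ_[p]), Disc z → (∀ i, z i ≠ 0) → ev z (uneg p e) ≠ 0 := by
    intro e z hd h0
    rw [ev_uneg hd]
    exact Finset.prod_ne_zero_iff.2 fun i _ => pow_ne_zero _ (h0 i)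
  have hl : ∀ k F, evHom (hz k).1 (inl F) = ev (x k) F := fun k F => by
    rw [evHom_apply, ev_inl (hxz k).1 (hyz k).1]
  have hr : ∀ k F, evHom (hz k).1 (inr F) = ev (y k) F := fun k F => by
    rw [evHom_apply, ev_inr (hxz k).1 (hyz k).1]
  have hxp : ∀ k F (n : ℕ), ev (x k) (F ^ n) = ev (x k) F ^ n := fun k F n => by
    rw [← evHom_apply (hxz k).1, map_pow, evHom_apply]
  have hyp : ∀ k F (n : ℕ), ev (y k) (F ^ n) = ev (y k) F ^ n := fun k F n => by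
    rw [← evHom_apply (hyz k).1, map_pow, evHom_apply]
  have hnotin : ∀ F : RR p (σ ⊕ σ), evHom (hz 0).1 F ≠ 0 → F ∉ 𝔔 := fun F hF hFQ =>
    hF (by rw [evHom_apply]; exact (hz 0).2 F hFQ)
  have hprime := h.prime
  have hM1 : uneg p e0 ^ A ∉ 𝔮 := fun h1 => (uneg_notMem hprime hX e0).1 (hprime.mem_of_pow_mem _ h1)
  obtain ⟨t', ht'⟩ : ∃ t', IsCurve 𝔔 t' := by
    refine pair_curve h hM1 hM1 hT hT hQ hp ?_ ?_ ?_ ?_ ?_
    · intro F hF
      refine hdense _ fun k => ?_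
      rw [← evHom_apply (hz k).1, hl]
      exact (hxz k).2 F hF
    · intro F hF
      refine hdense _ fun k => ?_
      rw [← evHom_apply (hz k).1, hr]
      exact (hyz k).2 F hF
    · apply hnotin
      rw [hl, hxp]
      exact pow_ne_zero _ (hneg e0 _ (hxz 0).1 (hx0 0))
    · apply hnotin
      rw [hr, hyp]
      exact pow_ne_zero _ (hneg e0 _ (hyz 0).1 (hy0 0))
    · refine hdense _ fun k => ?_
      rw [← evHom_apply (hz k).1, map_sub, map_mul, map_mul, hl, hl, hr, hr, hxp, hxp, hyp, hyp]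
      have h1 := hrel k
      rw [UU_eq (hyz k).1 (hy0 k), UU_eq (hxz k).1 (hx0 k), div_pow, div_pow,
        div_eq_div_iff (pow_ne_zero _ (hneg e0 _ (hyz k).1 (hy0 k)))
          (pow_ne_zero _ (hneg e0 _ (hxz k).1 (hx0 k)))] at h1
      linear_combination -h1
  set V : RR p (σ ⊕ σ) := inl (upos p e1) ^ A * inr (uneg p e1) ^ A with hVd
  set W : RR p (σ ⊕ σ) := inr (upos p e1) ^ A * inl (uneg p e1) ^ A - V with hWd
  have hVk : ∀ k, ev (Sum.elim (x k) (y k)) V =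
      ev (x k) (upos p e1) ^ A * ev (y k) (uneg p e1) ^ A := fun k => by
    rw [← evHom_apply (hz k).1, hVd, map_mul, map_pow, map_pow, hl, hr]
  have hWk : ∀ k, ev (Sum.elim (x k) (y k)) W =
      ev (y k) (upos p e1) ^ A * ev (x k) (uneg p e1) ^ A -
        ev (x k) (upos p e1) ^ A * ev (y k) (uneg p e1) ^ A := fun k => by
    rw [← hVk k, ← evHom_apply (hz k).1, hWd, map_sub, map_mul, map_pow, map_pow, hl, hr,
      evHom_apply]
  have hV0 : ∀ k, ev (Sum.elim (x k) (y k)) V ≠ 0 := fun k => by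
    rw [hVk]
    exact mul_ne_zero (pow_ne_zero _ (hpos e1 _ (hxz k).1 (hx0 k)))
      (pow_ne_zero _ (hneg e1 _ (hyz k).1 (hy0 k)))
  have hEk : ∀ k, ev (Sum.elim (x k) (y k)) W / ev (Sum.elim (x k) (y k)) V =
      (UU e1 (y k) / UU e1 (x k)) ^ A - 1 := fun k => by
    have h1 := hpos e1 _ (hxz k).1 (hx0 k)
    have h2 := hneg e1 _ (hyz k).1 (hy0 k)
    have h3 := hneg e1 _ (hxz k).1 (hx0 k)
    rw [hWk, hVk, UU_eq (hyz k).1 (hy0 k), UU_eq (hxz k).1 (hx0 k), div_div_div_eq, div_pow,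
      mul_pow, mul_pow, sub_div, div_self (mul_ne_zero (pow_ne_zero _ h1) (pow_ne_zero _ h2)),
      mul_comm (ev (x k) (upos p e1) ^ A)]
  have hW0 : ∀ k, ev (Sum.elim (x k) (y k)) W ≠ 0 := by
    intro k h0
    have h1 := hEk k
    rw [h0, zero_div] at h1
    have hU : UU e1 (x k) ≠ 0 := by
      rw [UU_eq (hxz k).1 (hx0 k)]
      exact div_ne_zero (hpos e1 _ (hxz k).1 (hx0 k)) (hneg e1 _ (hxz k).1 (hx0 k))
    rw [div_pow] at h1
    apply hne k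
    have h2 : UU e1 (y k) ^ A / UU e1 (x k) ^ A = 1 := by linear_combination -h1
    exact (div_eq_one_iff_eq (pow_ne_zero _ hU)).1 h2
  obtain ⟨s, hs, φ, hφ, hlimT⟩ := tiny_limit ht' (hnotin W (by rw [evHom_apply]; exact hW0 0))
    (hnotin V (by rw [evHom_apply]; exact hV0 0)) hz hV0
    ((Filter.tendsto_congr hEk).2 hE)
  have hfx : ∀ k F, ev (Sum.elim (x k) (y k)) (inl F) = ev (x k) F := fun k F =>
    ev_inl (hxz k).1 (hyz k).1 F
  obtain ⟨k0, hk0⟩ : ∃ k, ev (x k) N ≠ 0 := by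
    by_contra hcon
    push Not at hcon
    have h1 : ∀ k, ‖ev (x k) N / ev (x k) M‖ = 0 := fun k => by
      rw [hcon k, zero_div, norm_zero]
    exact hℓ (tendsto_nhds_unique hlim ((Filter.tendsto_congr h1).2 tendsto_const_nhds))
  refine tiny_contra ht' (N := inl N) (M := inl M) ?_ ?_
    (w := fun k => Sum.elim (x (φ k)) (y (φ k))) ?_ (fun k => hz (φ k)) hs hlimT ?_ hℓ ?_
  · intro h1
    exact hk0 (by rw [← hfx k0]; exact (hz k0).2 _ h1)
  · intro h1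
    exact hM 0 (by rw [← hfx 0]; exact (hz 0).2 _ h1)
  · intro k k' hkk
    apply hφ.injective
    apply hx
    funext i
    have h1 := congrFun hkk (Sum.inl i)
    simpa using h1
  · intro k k' hkk
    simp only [hfx] at hkk
    exact hφ.injective (hinj hkk)
  · simp only [hfx]
    exact hlim.comp hφ.tendsto_atTop

theorem tiny_lemma {𝔮 : Ideal (RR p σ)} {t : RR p σ} (h : IsCurve 𝔮 t)
    (hX : ∀ i, (X i : RR p σ) ∉ 𝔮) {e0 e1 : σ → ℤ} {A : ℕ} (hA : 0 < A)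
    (hT : Tr 𝔮 (upos p e0 ^ A) (uneg p e0 ^ A)) {x y : ℕ → σ → ℂ_[p]} (hx : Function.Injective x)
    (hxz : ∀ k, x k ∈ zer 𝔮) (hyz : ∀ k, y k ∈ zer 𝔮) (hx0 : ∀ k i, x k i ≠ 0)
    (hy0 : ∀ k i, y k i ≠ 0) (hrel : ∀ k, UU e0 (y k) ^ A = UU e0 (x k) ^ A)
    (hE : Filter.Tendsto (fun k => (UU e1 (y k) / UU e1 (x k)) ^ A - 1) Filter.atTop (nhds 0))
    {N M : RR p σ} (hM : ∀ k, ev (x k) M ≠ 0)
    (hinj : Function.Injective fun k => ‖ev (x k) N / ev (x k) M‖) {ℓ : ℝ} (hℓ : ℓ ≠ 0)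
    (hlim : Filter.Tendsto (fun k => ‖ev (x k) N / ev (x k) M‖) Filter.atTop (nhds ℓ)) :
    ∀ᶠ k in Filter.atTop, UU e1 (y k) ^ A = UU e1 (x k) ^ A := by
  by_contra hcon
  rw [Filter.not_eventually] at hcon
  obtain ⟨φ, hφ, hne⟩ := Filter.extraction_of_frequently_atTop hcon
  obtain ⟨𝔔, hQ, hp, ψ, hψ, hz, hd⟩ := exists_dense
    (fun k => Sum.elim (x (φ k)) (y (φ k))) (fun k i => by
      rcases i with i | i
      · exact (hxz (φ k)).1 i
      · exact (hyz (φ k)).1 i)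
  have hχ : StrictMono (φ ∘ ψ) := hφ.comp hψ
  refine tiny_core h hX hT (x := fun k => x (φ (ψ k))) (y := fun k => y (φ (ψ k)))
    (hx.comp hχ.injective) (fun k => hxz _) (fun k => hyz _) (fun k => hx0 _) (fun k => hy0 _)
    (fun k => hrel _) (hE.comp hχ.tendsto_atTop) (N := N) (M := M) (fun k => hM _)
    (hinj.comp hχ.injective) hℓ (hlim.comp hχ.tendsto_atTop) (fun k => hne _) hQ hp hz ?_
  intro F hF
  apply hd F
  have h1 : {k | ev (Sum.elim (x (φ (ψ k))) (y (φ (ψ k)))) F = 0} = Set.univ := by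
    ext k
    exact iff_of_true (hF k) (Set.mem_univ k)
  rw [h1]
  exact Set.infinite_univ

end Pool.Agent.ZPB
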