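import Pool.Agent.ZPB.PairLemma
import Pool.Agent.ZPB.Tiny
import Pool.Agent.ZPB.Galois

/-!
# Module B7: end of case B

Write `q_a = p^a`, `φ_k = φ(p^(a k))`, `f_k = UU e0 (x k)^m - 1 = η_k^m - 1` (`w^m = 1`), of norm `p^(-1/φ_k)`
(`norm_prim_sub_one`: `η_k^m` is again primitive), strictly increasing with limit `1`.
(1) `(N, M)` from `pair_lemma` for `(e0, e1)`, `B` its bound from `IsCurve.fibre`. Choose `r ≥ 1` with
`p^r > (B + 1)(K + 1)`. For `k` with `a k ≥ 2 r + 1` and `s < p^r` let `g_s` be given by `exists_iso` (`m`, `n = a k`,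
exponent `1 + s p^(a k - r)`, `t = 0`). It fixes `w` and all `p^r`-th roots of unity (`a k - r ≥ r`).
`g_s f_k - f_k = η^m (ξ - 1)` with `ξ^(p^r) = 1`, so `‖g_s f_k - f_k‖ ≤ p^(-1/φ(p^r)) ≤ ε ‖f_k‖` with
`ε = p^(-1/φ(p^r) + 1/φ(p^(r+1))) < 1`.
(2) `hclose` for this `ε` gives `ρ`. For large `k`, among any `K + 1` of the `g_s` two are close
(`‖g x_l - g' x_l‖ ≤ ρ ‖x_l‖` for all `l`, an equivalence relation), so `B + 1` of them, `g_{s_0}, …, g_{s_B}`, are mutually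
close. `τ_i = g_{s_0}⁻¹ g_{s_i}`, `y_{k,i} = τ_i (x k) ∈ zer 𝔮`. `UU e0 (y_{k,i}) = w η_k^(1 + (s_i - s_0) p^(a k - r))`
(`g_{s_0}⁻¹ η = η^(1 - s_0 p^(a k - r))` since `2(a k - r) ≥ a k`): distinct for distinct `i`, and
`UU e0 (y_{k,i})^(p^r) = UU e0 (x k)^(p^r)`.
(3) Let `g = UU e1 (y)/UU e1 (x)`, `h = UU eb (y)/UU eb (x)`; `‖g - 1‖ ≤ ρ`, `‖h - 1‖ ≤ ρ` (products of integral powers
of `τ x_l / x_l`). Applying `τ` to `hrel`: `g^b = (τζ/ζ) h'`, `h' = h^(A φ_k) = (h^(p^(a k - 1)))^(A (p-1))`, and `h' → 1`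
(`tendsto_pow`, uniformly in `i`). `ζ'' = τζ/ζ` is a root of unity with `‖ζ'' - 1‖ = ‖g^b - h'‖ ≤ ρ` for large `k`, so
`ζ''^(p^n1) = 1` with `n1` depending only on `ρ` (`pow_eq_one_of_near`). Hence `g^(b p^n1) = h'^(p^n1) → 1`, and with
`A' = b p^(n1 + r)`: `(UU e1 (y_{k,i})/UU e1 (x k))^A' - 1 → 0`.
(4) `tiny_lemma` with `A'`, and `N = upos e0^m - uneg e0^m`, `M = uneg e0^m` (so `ev N / ev M = f_k`, `ℓ = 1`), hypothesis
`Tr` from `tr_monomial`: for each `i`, `UU e1 (y_{k,i})^A' = UU e1 (x k)^A'` for all large `k`.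
(5) `pair_lemma` (`A'`, `Q = 1`): for all large `k` and all `i`, `N(x_k) M(y_{k,i}) = N(y_{k,i}) M(x_k)`, `M(x_k) ≠ 0`, so
`M(y_{k,i}) = τ_i M(x_k) ≠ 0`. The `B + 1` distinct points `y_{k,i}` lie in one fibre of `N/M`: contradiction.
(All sequences are only considered for `k ≥ k0`; shift the index.)
-/

namespace Pool.Agent.ZPB

open MvPowerSeries

variable {p : ℕ} [Fact p.Prime] {σ : Type} [Fintype σ] {L : Type} [Field L]

/-! ### the subgroup of units close to one -/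

theorem cb_norm_one {u : ℂ_[p]} (h : ‖u - 1‖ < 1) : ‖u‖ = 1 := by
  have h1 : ‖u‖ ≤ 1 := by
    have := IsUltrametricDist.norm_add_le_max (u - 1) 1
    rw [sub_add_cancel, norm_one] at this
    exact this.trans (max_le h.le le_rfl)
  have h2 : 1 ≤ ‖u‖ := by
    have := IsUltrametricDist.norm_add_le_max (-(u - 1)) u
    rw [show -(u - 1) + u = 1 by ring, norm_one, norm_neg] at this
    rcases le_max_iff.1 this with h3 | h3
    · linarith
    · exact h3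
  exact le_antisymm h1 h2

theorem cb_mul {r : ℝ} (hr : r < 1) {u v : ℂ_[p]} (hu : ‖u - 1‖ ≤ r) (hv : ‖v - 1‖ ≤ r) :
    ‖u * v - 1‖ ≤ r := by
  have h1 : u * v - 1 = u * (v - 1) + (u - 1) := by ring
  rw [h1]
  refine (IsUltrametricDist.norm_add_le_max _ _).trans (max_le ?_ hu)
  rw [norm_mul, cb_norm_one (hu.trans_lt hr), one_mul]
  exact hv

theorem cb_inv {r : ℝ} (hr : r < 1) {u : ℂ_[p]} (hu : ‖u - 1‖ ≤ r) : ‖u⁻¹ - 1‖ ≤ r := by
  have hn := cb_norm_one (hu.trans_lt hr)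
  have h0 : u ≠ 0 := by
    rw [← norm_pos_iff, hn]
    norm_num
  have h1 : u⁻¹ - 1 = -(u⁻¹ * (u - 1)) := by
    field_simp
    ring
  rw [h1, norm_neg, norm_mul, norm_inv, hn, inv_one, one_mul]
  exact hu

theorem cb_pow {r : ℝ} (hr0 : 0 ≤ r) (hr : r < 1) {u : ℂ_[p]} (hu : ‖u - 1‖ ≤ r) (n : ℕ) :
    ‖u ^ n - 1‖ ≤ r := by
  induction n with
  | zero => simpa using hr0
  | succ n ih =>
    rw [pow_succ]
    exact cb_mul hr ih hu

theorem cb_zpow {r : ℝ} (hr0 : 0 ≤ r) (hr : r < 1) {u : ℂ_[p]} (hu : ‖u - 1‖ ≤ r) (n : ℤ) :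
    ‖u ^ n - 1‖ ≤ r := by
  rcases n with n | n
  · rw [Int.ofNat_eq_natCast, zpow_natCast]
    exact cb_pow hr0 hr hu n
  · rw [zpow_negSucc]
    exact cb_inv hr (cb_pow hr0 hr hu _)

theorem cb_prod {r : ℝ} (hr0 : 0 ≤ r) (hr : r < 1) {ι : Type} (s : Finset ι) (u : ι → ℂ_[p])
    (hu : ∀ i ∈ s, ‖u i - 1‖ ≤ r) : ‖∏ i ∈ s, u i - 1‖ ≤ r := by
  classical
  induction s using Finset.induction_on with
  | empty => simpa using hr0
  | insert a s ha ih =>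
    rw [Finset.prod_insert ha]
    exact cb_mul hr (hu a (Finset.mem_insert_self _ _))
      (ih fun i hi => hu i (Finset.mem_insert_of_mem hi))

/-- monomials of close points are close -/
theorem cb_UU {r : ℝ} (hr0 : 0 ≤ r) (hr : r < 1) {x y : σ → ℂ_[p]} (hx : ∀ i, x i ≠ 0)
    (h : ∀ i, ‖y i - x i‖ ≤ r * ‖x i‖) (e : σ → ℤ) : ‖UU e y / UU e x - 1‖ ≤ r := by
  have h1 : UU e y / UU e x = ∏ i, (y i / x i) ^ e i := by
    unfold UU
    rw [← Finset.prod_div_distrib]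
    refine Finset.prod_congr rfl fun i _ => ?_
    rw [div_zpow]
  rw [h1]
  refine cb_prod hr0 hr _ _ fun i _ => cb_zpow hr0 hr ?_ _
  have h2 : y i / x i - 1 = (y i - x i) / x i := by
    rw [sub_div, div_self (hx i)]
  rw [h2, norm_div, div_le_iff₀ (norm_pos_iff.2 (hx i))]
  exact h i

theorem cb_UU_ne {x : σ → ℂ_[p]} (hx : ∀ i, x i ≠ 0) (e : σ → ℤ) : UU e x ≠ 0 := by
  unfold UU
  exact Finset.prod_ne_zero_iff.2 fun i _ => zpow_ne_zero _ (hx i)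

/-! ### the norms of primitive roots of unity -/

/-- the norm of `η - 1` for `η` of exact order `p ^ (n + 1)` -/
noncomputable def cbd (p n : ℕ) : ℝ := (p : ℝ) ^ (-(1 / ((p : ℝ) ^ n * ((p : ℝ) - 1))))

theorem cb_p_gt : (1 : ℝ) < p := by
  exact_mod_cast (Fact.out : p.Prime).one_lt

theorem cbd_pos (n : ℕ) : 0 < cbd p n :=
  Real.rpow_pos_of_pos (by linarith [cb_p_gt (p := p)]) _

theorem cbd_strictMono : StrictMono (cbd p) := by
  have hp := cb_p_gt (p := p)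
  refine strictMono_nat_of_lt_succ fun n => ?_
  unfold cbd
  refine Real.rpow_lt_rpow_of_exponent_lt hp ?_
  rw [neg_lt_neg_iff]
  have h1 : 0 < (p : ℝ) ^ n * ((p : ℝ) - 1) := by
    have : 0 < (p : ℝ) - 1 := by linarith
    positivity
  refine one_div_lt_one_div_of_lt h1 ?_
  have h2 : 0 < (p : ℝ) - 1 := by linarith
  have h3 : (p : ℝ) ^ n < (p : ℝ) ^ (n + 1) := pow_lt_pow_right₀ hp (Nat.lt_succ_self n)
  exact mul_lt_mul_of_pos_right h3 h2

theorem cbd_tendsto : Filter.Tendsto (cbd p) Filter.atTop (nhds 1) := by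
  have hp := cb_p_gt (p := p)
  have h1 : Filter.Tendsto (fun n : ℕ => -(1 / ((p : ℝ) ^ n * ((p : ℝ) - 1)))) Filter.atTop (nhds 0) := by
    rw [show (0 : ℝ) = -0 by simp]
    refine Filter.Tendsto.neg ?_
    have h2 : Filter.Tendsto (fun n : ℕ => (p : ℝ) ^ n * ((p : ℝ) - 1)) Filter.atTop Filter.atTop :=
      (tendsto_pow_atTop_atTop_of_one_lt hp).atTop_mul_const (by linarith)
    exact h2.inv_tendsto_atTop.congr fun n => (one_div _).symm
  have h3 := (tendsto_const_nhds (x := (p : ℝ))).rpow h1 (Or.inl (by linarith))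
  rw [Real.rpow_zero] at h3
  exact h3

theorem cb_norm_prim {x : ℂ_[p]} {e : ℕ} (he : 1 ≤ e) (h : IsPrimitiveRoot x (p ^ e)) :
    ‖x - 1‖ = cbd p (e - 1) := norm_prim_sub_one he h

theorem cb_norm_root_le {x : ℂ_[p]} {r : ℕ} (hr : 1 ≤ r) (h : x ^ (p ^ r) = 1) :
    ‖x - 1‖ ≤ cbd p (r - 1) := by
  have hp : p.Prime := Fact.out
  obtain ⟨e, he, hxe⟩ := (Nat.dvd_prime_pow hp).1 (orderOf_dvd_of_pow_eq_one h)
  have hprim : IsPrimitiveRoot x (p ^ e) := hxe ▸ IsPrimitiveRoot.orderOf x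
  rcases Nat.eq_zero_or_pos e with h0 | h0
  · subst h0
    have h1 : x = 1 := by simpa using hprim
    rw [h1, sub_self, norm_zero]
    exact (cbd_pos _).le
  · rw [cb_norm_prim h0 hprim]
    exact cbd_strictMono.monotone (by omega)

/-! ### combinatorics -/

theorem cb_comb {n K B : ℕ} (s : Setoid (Fin n))
    (hs : ∀ c : Fin (K + 1) → Fin n, Function.Injective c → ∃ i j, i ≠ j ∧ s.r (c i) (c j))
    (h : K * B < n) : ∃ c : Fin (B + 1) → Fin n, Function.Injective c ∧ ∀ i j, s.r (c i) (c j) := by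
  classical
  have hK : Fintype.card (Quotient s) ≤ K := by
    by_contra hcon
    push Not at hcon
    obtain ⟨f⟩ : Nonempty (Fin (K + 1) ↪ Quotient s) :=
      Function.Embedding.nonempty_of_card_le (by rw [Fintype.card_fin]; exact hcon)
    obtain ⟨i, j, hij, hr⟩ := hs (fun i => (f i).out)
      (fun i j hij => f.injective (by
        have := congrArg (Quotient.mk s) hij
        simpa using this))
    have h1 : f i = f j := by
      have := Quotient.sound hr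
      simpa using this
    exact hij (f.injective h1)
  have h1 : (Finset.univ : Finset (Quotient s)).card * B < (Finset.univ : Finset (Fin n)).card := by
    rw [Finset.card_univ, Finset.card_univ, Fintype.card_fin]
    exact (Nat.mul_le_mul_right _ hK).trans_lt h
  obtain ⟨y, -, hy⟩ := Finset.exists_lt_card_fiber_of_mul_lt_card_of_maps_to
    (f := fun i : Fin n => Quotient.mk s i) (fun i _ => Finset.mem_univ _) h1
  obtain ⟨f⟩ : Nonempty (Fin (B + 1) ↪ {i : Fin n // Quotient.mk s i = y}) := by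
    refine Function.Embedding.nonempty_of_card_le ?_
    rw [Fintype.card_fin, Fintype.card_subtype]
    exact hy
  refine ⟨fun i => (f i).1, fun i j hij => f.injective (Subtype.ext hij), fun i j => ?_⟩
  exact Quotient.exact ((f i).2.trans (f j).2.symm)

theorem cb_symm {g : ℂ_[p] ≃+* ℂ_[p]} (hg : IsIso g) : IsIso g.symm := fun x => by
  rw [← hg (g.symm x), RingEquiv.apply_symm_apply]

theorem cb_trans {g h : ℂ_[p] ≃+* ℂ_[p]} (hg : IsIso g) (hh : IsIso h) : IsIso (g.trans h) :=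
  fun x => by rw [RingEquiv.trans_apply, hh, hg]

/-! ### the conjugates -/

theorem cb_ndvd {p : ℕ} [Fact p.Prime] {s n : ℕ} (hn : 1 ≤ n) : ¬ p ∣ 1 + s * p ^ n := by
  intro h
  have h1 : p ∣ s * p ^ n := Dvd.dvd.mul_left (dvd_pow_self p (by omega)) s
  have h2 : p ∣ 1 := (Nat.dvd_add_left h1).1 h
  exact (Fact.out : p.Prime).one_lt.ne' (Nat.dvd_one.1 h2)

/-- step (1) and (2): the conjugates `τ_i` -/
theorem cb_step {m : ℕ} (hm : 0 < m) (hpm : ¬ p ∣ m) {w : ℂ_[p]} (hw : w ^ m = 1) {η : ℂ_[p]}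
    {n r K B : ℕ} (hr : 1 ≤ r) (hn : r + 1 ≤ n) (hη : IsPrimitiveRoot η (p ^ n)) {e0 : σ → ℤ}
    {x : σ → ℂ_[p]} (hU : UU e0 x = w * η) (hKB : K * B < p ^ r) {ρ : ℝ} (hρ0 : 0 ≤ ρ)
    (hclose : ∀ g : Fin (K + 1) → (ℂ_[p] ≃+* ℂ_[p]), (∀ i, IsIso (g i)) →
        (∀ i, ‖g i (UU e0 x ^ m - 1) - (UU e0 x ^ m - 1)‖ ≤
          (cbd p (r - 1) / cbd p r) * ‖UU e0 x ^ m - 1‖) →
        ∃ i j, i ≠ j ∧ ∀ l, ‖g i (x l) - g j (x l)‖ ≤ ρ * ‖x l‖) :
    ∃ τ : Fin (B + 1) → (ℂ_[p] ≃+* ℂ_[p]), (∀ i, IsIso (τ i)) ∧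
      (∀ i l, ‖τ i (x l) - x l‖ ≤ ρ * ‖x l‖) ∧
      (∀ i j, τ i (UU e0 x) = τ j (UU e0 x) → i = j) ∧
      ∀ i, τ i (UU e0 x) ^ (p ^ r) = UU e0 x ^ (p ^ r) := by
  have hp : p.Prime := Fact.out
  have hwm0 : w ≠ 0 := by
    intro h0
    rw [h0, zero_pow hm.ne'] at hw
    exact zero_ne_one hw
  have hηn : η ^ (p ^ n) = 1 := hη.pow_eq_one
  have hη0 : η ≠ 0 := hη.ne_zero (pow_ne_zero _ hp.ne_zero)
  choose g hgi hgw hgy using fun s : Fin (p ^ r) =>
    exists_iso (p := p) m hm hpm n (1 + (s : ℕ) * p ^ (n - r)) 0 (cb_ndvd (by omega))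
  have hgU : ∀ s, g s (UU e0 x) = w * η ^ (1 + (s : ℕ) * p ^ (n - r)) := fun s => by
    rw [hU, map_mul, hgw s w hw, hgy s η hηn, pow_zero, pow_one]
  -- distinctness
  have hdist : ∀ s s' : Fin (p ^ r), η ^ (1 + (s : ℕ) * p ^ (n - r)) = η ^ (1 + (s' : ℕ) * p ^ (n - r)) →
      s = s' := by
    intro s s' h
    have hlt : ∀ s : Fin (p ^ r), (s : ℕ) * p ^ (n - r) < p ^ n := fun s => by
      have h1 : p ^ r * p ^ (n - r) = p ^ n := by
        rw [← pow_add]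
        congr 1
        omega
      rw [← h1]
      exact Nat.mul_lt_mul_of_pos_right s.2 (pow_pos hp.pos _)
    rw [pow_add, pow_add] at h
    have h2 : η ^ ((s : ℕ) * p ^ (n - r)) = η ^ ((s' : ℕ) * p ^ (n - r)) :=
      mul_left_cancel₀ (pow_ne_zero _ hη0) h
    have h3 := hη.pow_inj (hlt s) (hlt s') h2
    exact Fin.ext (Nat.eq_of_mul_eq_mul_right (pow_pos hp.pos _) h3)
  -- the powers
  have hpow : ∀ s : Fin (p ^ r), (η ^ (1 + (s : ℕ) * p ^ (n - r))) ^ (p ^ r) = η ^ (p ^ r) := fun s => by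
    have h1 : (1 + (s : ℕ) * p ^ (n - r)) * p ^ r = p ^ r + p ^ n * s := by
      have h2 : p ^ (n - r) * p ^ r = p ^ n := by
        rw [← pow_add]
        congr 1
        omega
      rw [add_mul, one_mul, mul_assoc, h2, mul_comm (s : ℕ)]
    rw [← pow_mul, h1, pow_add, pow_mul η (p ^ n), hηn, one_pow, mul_one]
  -- the norm of `f`
  have hf : ‖UU e0 x ^ m - 1‖ = cbd p (n - 1) := by
    rw [hU, mul_pow, hw, one_mul]
    refine cb_norm_prim (by omega) (hη.pow_of_coprime m ?_)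
    exact Nat.Coprime.pow_right _ ((Nat.Prime.coprime_iff_not_dvd hp).2 hpm).symm
  have hε : ∀ s, ‖g s (UU e0 x ^ m - 1) - (UU e0 x ^ m - 1)‖ ≤
      (cbd p (r - 1) / cbd p r) * ‖UU e0 x ^ m - 1‖ := fun s => by
    have h1 : g s (UU e0 x ^ m - 1) - (UU e0 x ^ m - 1) =
        η ^ m * ((η ^ ((s : ℕ) * p ^ (n - r))) ^ m - 1) := by
      rw [map_sub, map_pow, map_one, hgU, hU, mul_pow, mul_pow, hw, pow_add]
      ring
    have h2 : ‖η‖ = 1 := norm_of_pow_eq_one (pow_pos hp.pos n) hηn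
    rw [h1, norm_mul, norm_pow, h2, one_pow, one_mul]
    have h3 : ‖(η ^ ((s : ℕ) * p ^ (n - r))) ^ m - 1‖ ≤ cbd p (r - 1) := by
      refine cb_norm_root_le hr ?_
      have h4 : (s : ℕ) * p ^ (n - r) * (m * p ^ r) = p ^ n * (s * m) := by
        have h2 : p ^ n = p ^ (n - r) * p ^ r := by
          rw [← pow_add]
          congr 1
          omega
        rw [h2]
        ring
      rw [← pow_mul, ← pow_mul, h4, pow_mul, hηn, one_pow]
    refine h3.trans ?_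
    rw [hf]
    have h5 : cbd p r ≤ cbd p (n - 1) := cbd_strictMono.monotone (by omega)
    rw [div_mul_eq_mul_div, le_div_iff₀ (cbd_pos _)]
    exact mul_le_mul_of_nonneg_left h5 (cbd_pos _).le
  -- the equivalence relation
  let S : Setoid (Fin (p ^ r)) :=
    { r := fun s s' => ∀ l, ‖g s (x l) - g s' (x l)‖ ≤ ρ * ‖x l‖
      iseqv := ⟨fun s l => by
          rw [sub_self, norm_zero]
          exact mul_nonneg hρ0 (norm_nonneg _), fun {s s'} h l => by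
          rw [norm_sub_rev]
          exact h l, fun {s s' s''} h h' l => by
          have h1 : g s (x l) - g s'' (x l) = (g s (x l) - g s' (x l)) + (g s' (x l) - g s'' (x l)) := by
            ring
          rw [h1]
          exact (IsUltrametricDist.norm_add_le_max _ _).trans (max_le (h l) (h' l))⟩ }
  obtain ⟨c, hc, hcr⟩ := cb_comb (K := K) (B := B) S (fun c hc => by
    obtain ⟨i, j, hij, h⟩ := hclose (fun i => g (c i)) (fun i => hgi _) (fun i => hε _)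
    exact ⟨i, j, hij, h⟩) hKB
  refine ⟨fun i => (g (c i)).trans (g (c 0)).symm, fun i => cb_trans (hgi _) (cb_symm (hgi _)),
    fun i l => ?_, fun i j h => ?_, fun i => ?_⟩
  · have h1 := hcr i 0 l
    rw [← hgi (c 0), map_sub, RingEquiv.trans_apply, RingEquiv.apply_symm_apply]
    exact h1
  · rw [RingEquiv.trans_apply, RingEquiv.trans_apply] at h
    have h1 := (g (c 0)).symm.injective h
    rw [hgU, hgU] at h1
    exact hc (hdist _ _ (mul_left_cancel₀ hwm0 h1))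
  · apply (g (c 0)).injective
    rw [map_pow, map_pow, RingEquiv.trans_apply, RingEquiv.apply_symm_apply, hgU, hgU, mul_pow,
      mul_pow, hpow, hpow]

/-- step (3) -/
theorem cb_ratio {x : σ → ℂ_[p]} (hx0 : ∀ l, x l ≠ 0) {ρ : ℝ} (hρ0 : 0 < ρ) (hρ1 : ρ < 1)
    {τ : ℂ_[p] ≃+* ℂ_[p]} (hτx : ∀ l, ‖τ (x l) - x l‖ ≤ ρ * ‖x l‖)
    {e1 eb : σ → ℤ} {b n n1 r : ℕ} (hn : 1 ≤ n) {A : ℤ}
    (hrel : ∃ ζ : ℂ_[p], (∃ n : ℕ, 0 < n ∧ ζ ^ n = 1) ∧
      UU e1 x ^ b = ζ * UU eb x ^ (A * (Nat.totient (p ^ n) : ℤ)))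
    (hn1 : ∀ x : ℂ_[p], ∀ N : ℕ, 0 < N → x ^ N = 1 → ‖x - 1‖ ≤ ρ → x ^ (p ^ n1) = 1)
    {ε : ℝ} (hε0 : 0 ≤ ε) (hε1 : ε < 1) (hpw : ∀ y : ℂ_[p], ‖y - 1‖ ≤ ρ → ‖y ^ (p ^ (n - 1)) - 1‖ ≤ ε) :
    ‖(UU e1 (fun l => τ (x l)) / UU e1 x) ^ (b * p ^ n1 * p ^ r) - 1‖ ≤ ε := by
  have hp : p.Prime := Fact.out
  obtain ⟨ζ, ⟨N, hN, hζN⟩, hrel⟩ := hrel
  set g : ℂ_[p] := UU e1 (fun l => τ (x l)) / UU e1 x with hg
  set h : ℂ_[p] := UU eb (fun l => τ (x l)) / UU eb x with hh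
  have hgρ : ‖g - 1‖ ≤ ρ := cb_UU hρ0.le hρ1 hx0 hτx e1
  have hhρ : ‖h - 1‖ ≤ ρ := cb_UU hρ0.le hρ1 hx0 hτx eb
  have hU1 : UU e1 x ≠ 0 := cb_UU_ne hx0 e1
  have hUb : UU eb x ≠ 0 := cb_UU_ne hx0 eb
  have hζ0 : ζ ≠ 0 := by
    intro h0
    rw [h0, zero_pow hN.ne'] at hζN
    exact zero_ne_one hζN
  have hh0 : h ≠ 0 := by
    rw [← norm_pos_iff, cb_norm_one (hhρ.trans_lt hρ1)]
    norm_num
  -- the relation for `g`
  have h1 : g ^ b = (τ ζ / ζ) * h ^ (A * (Nat.totient (p ^ n) : ℤ)) := by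
    rw [hg, hh, UU_iso, UU_iso, div_pow, ← map_pow, hrel, map_mul, map_zpow₀, div_zpow]
    field_simp
  have h2 : h ^ (A * (Nat.totient (p ^ n) : ℤ)) = (h ^ (p ^ (n - 1))) ^ (A * ((p - 1 : ℕ) : ℤ)) := by
    rw [Nat.totient_prime_pow hp (by omega), ← zpow_natCast h (p ^ (n - 1)), ← zpow_mul]
    congr 1
    push_cast
    ring
  have h3 : ‖h ^ (A * (Nat.totient (p ^ n) : ℤ)) - 1‖ ≤ ε := by
    rw [h2]
    exact cb_zpow hε0 hε1 (hpw h hhρ) _
  have h4 : ‖h ^ (A * (Nat.totient (p ^ n) : ℤ)) - 1‖ ≤ ρ := cb_zpow hρ0.le hρ1 hhρ _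
  have h5 : (τ ζ / ζ) ^ N = 1 := by
    rw [div_pow, ← map_pow, hζN, map_one, div_one]
  have h6 : ‖τ ζ / ζ - 1‖ ≤ ρ := by
    have h7 : τ ζ / ζ = g ^ b * (h ^ (A * (Nat.totient (p ^ n) : ℤ)))⁻¹ := by
      rw [h1, mul_assoc, mul_inv_cancel₀ (zpow_ne_zero _ hh0), mul_one]
    rw [h7]
    exact cb_mul hρ1 (cb_pow hρ0.le hρ1 hgρ b) (cb_inv hρ1 h4)
  have h8 := hn1 _ N hN h5 h6
  have h9 : g ^ (b * p ^ n1 * p ^ r) = ((h ^ (A * (Nat.totient (p ^ n) : ℤ))) ^ (p ^ n1)) ^ (p ^ r) := by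
    rw [pow_mul, pow_mul, h1, mul_pow, h8, one_mul]
  rw [h9]
  exact cb_pow hε0 hε1 (cb_pow hε0 hε1 h3 _) _

theorem caseB_final {𝔮 : Ideal (RR p σ)} {t : RR p σ} (h : IsCurve 𝔮 t) (hinf : (zer 𝔮).Infinite)
    {ι : RR p σ →+* L} (hι : IsFF 𝔮 ι) (hX : ∀ i, (X i : RR p σ) ∉ 𝔮) (hD : DlogIndep ι)
    {e0 e1 eb : σ → ℤ} (hind : ∀ a b : ℤ, (∀ i, a * e0 i + b * e1 i = 0) → a = 0 ∧ b = 0)
    {b : ℕ} (hb : 0 < b) {A : ℤ}
    {x : ℕ → σ → ℂ_[p]} (hx : Function.Injective x) (hxz : ∀ k, x k ∈ zer 𝔮)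
    (hxa : ∀ k, AlgPt (x k)) (hx0 : ∀ k i, x k i ≠ 0) {w : ℂ_[p]} {m : ℕ} (hm : 0 < m)
    (hpm : ¬ p ∣ m) (hw : w ^ m = 1) {η : ℕ → ℂ_[p]} {a : ℕ → ℕ} (ha : StrictMono a)
    (hη : ∀ k, IsPrimitiveRoot (η k) (p ^ a k)) (hU : ∀ k, UU e0 (x k) = w * η k)
    (hrel : ∀ k, ∃ ζ : ℂ_[p], (∃ n : ℕ, 0 < n ∧ ζ ^ n = 1) ∧
      UU e1 (x k) ^ b = ζ * UU eb (x k) ^ (A * (Nat.totient (p ^ a k) : ℤ)))
    {K : ℕ} (hclose : ∀ ε : ℝ, 0 < ε → ε < 1 → ∃ ρ : ℝ, 0 < ρ ∧ ρ < 1 ∧ ∀ᶠ k in Filter.atTop,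
      ∀ g : Fin (K + 1) → (ℂ_[p] ≃+* ℂ_[p]), (∀ i, IsIso (g i)) →
        (∀ i, ‖g i (UU e0 (x k) ^ m - 1) - (UU e0 (x k) ^ m - 1)‖ ≤ ε * ‖UU e0 (x k) ^ m - 1‖) →
        ∃ i j, i ≠ j ∧ ∀ l, ‖g i (x k l) - g j (x k l)‖ ≤ ρ * ‖x k l‖) : False := by
  classical
  have hp : p.Prime := Fact.out
  have he0 : e0 ≠ 0 := by
    intro h0
    have := hind 1 0 (fun i => by simp [h0])
    exact one_ne_zero this.1
  obtain ⟨N, M, hM, hT, hpair⟩ := pair_lemma h hinf hι hX hD hind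
  obtain ⟨B, hB⟩ := h.fibre hM hT
  -- the number of conjugates
  obtain ⟨r, hr1, hKB⟩ : ∃ r : ℕ, 1 ≤ r ∧ K * B < p ^ r :=
    ⟨K * B + 1, by omega, (Nat.lt_succ_self _).trans (Nat.lt_pow_self hp.one_lt)⟩
  obtain ⟨ρ, hρ0, hρ1, hev⟩ := hclose (cbd p (r - 1) / cbd p r) (div_pos (cbd_pos _) (cbd_pos _))
    ((div_lt_one (cbd_pos _)).2 (cbd_strictMono (by omega)))
  obtain ⟨k0, hk0⟩ := Filter.eventually_atTop.1 (hev.and (Filter.eventually_ge_atTop (r + 1)))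
  have hak : ∀ k, r + 1 ≤ a (k + k0) := fun k =>
    ((hk0 (k + k0) (by omega)).2).trans (ha.id_le (k + k0))
  choose τ hτi hτx hτd hτp using fun k =>
    cb_step (B := B) hm hpm hw hr1 (hak k) (hη (k + k0)) (hU (k + k0)) hKB hρ0.le
      (hk0 (k + k0) (by omega)).1
  obtain ⟨n1, hn1⟩ := pow_eq_one_of_near (p := p) hρ1
  set A' : ℕ := b * p ^ n1 * p ^ r with hA'
  have hA'pos : 0 < A' := by
    have := hp.pos
    positivity
  -- the sequences
  have hXinj : Function.Injective fun k => x (k + k0) := fun k l hkl => by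
    have := hx hkl
    omega
  have hYz : ∀ i k, (fun l => τ k i (x (k + k0) l)) ∈ zer 𝔮 := fun i k =>
    zer_iso (hxz (k + k0)) (hτi k i)
  have hY0 : ∀ i k l, τ k i (x (k + k0) l) ≠ 0 := fun i k l =>
    (map_ne_zero (τ k i)).2 (hx0 _ l)
  have hrelY : ∀ i k, UU e0 (fun l => τ k i (x (k + k0) l)) ^ A' = UU e0 (x (k + k0)) ^ A' := by
    intro i k
    rw [UU_iso, hA', mul_comm (b * p ^ n1), pow_mul (τ k i _), hτp, ← pow_mul]
  have hEY : ∀ i, Filter.Tendsto (fun k => (UU e1 (fun l => τ k i (x (k + k0) l)) /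
      UU e1 (x (k + k0))) ^ A' - 1) Filter.atTop (nhds 0) := by
    intro i
    rw [Metric.tendsto_atTop]
    intro ε hε
    obtain ⟨n0, hn0⟩ := tendsto_pow (p := p) hρ1 (ε := min (ε / 2) (1 / 2)) (by positivity)
    refine ⟨n0 + 1, fun k hk => ?_⟩
    rw [dist_zero_right]
    have h1 : n0 ≤ a (k + k0) - 1 := by
      have := ha.id_le (k + k0)
      simp only [id_eq] at this
      omega
    have h2 := cb_ratio (r := r) (hx0 (k + k0)) hρ0 hρ1 (hτx k i) (by have := hak k; omega)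
      (hrel (k + k0)) hn1 (ε := min (ε / 2) (1 / 2)) (by positivity)
      ((min_le_right _ _).trans_lt (by norm_num)) (fun y hy => hn0 _ h1 y hy)
    exact h2.trans_lt ((min_le_left _ _).trans_lt (by linarith))
  -- the quotient `f`
  have hf : ∀ k, ev (x (k + k0)) (upos p e0 ^ m - uneg p e0 ^ m) / ev (x (k + k0)) (uneg p e0 ^ m) =
      UU e0 (x (k + k0)) ^ m - 1 := by
    intro k
    have hz := (hxz (k + k0)).1
    have h0 : ev (x (k + k0)) (uneg p e0) ≠ 0 := by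
      rw [ev_uneg hz]
      exact Finset.prod_ne_zero_iff.2 fun i _ => pow_ne_zero _ (hx0 _ i)
    rw [UU_eq hz (hx0 _)]
    simp only [← evHom_apply hz] at h0 ⊢
    rw [map_sub, map_pow, map_pow, sub_div, div_self (pow_ne_zero _ h0), div_pow]
  have hfn : ∀ k, ‖UU e0 (x (k + k0)) ^ m - 1‖ = cbd p (a (k + k0) - 1) := by
    intro k
    rw [hU, mul_pow, hw, one_mul]
    refine cb_norm_prim (by have := hak k; omega) ((hη _).pow_of_coprime m ?_)
    exact Nat.Coprime.pow_right _ ((Nat.Prime.coprime_iff_not_dvd hp).2 hpm).symm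
  have htiny : ∀ i, ∀ᶠ k in Filter.atTop,
      UU e1 (fun l => τ k i (x (k + k0) l)) ^ A' = UU e1 (x (k + k0)) ^ A' := by
    intro i
    refine tiny_lemma h hX (e0 := e0) hA'pos (tr_monomial h hinf hι hX hD he0 hA'pos) hXinj
      (fun k => hxz _) (hYz i) (fun k => hx0 _) (hY0 i) (hrelY i) (hEY i)
      (N := upos p e0 ^ m - uneg p e0 ^ m) (M := uneg p e0 ^ m) (fun k => ?_) ?_
      (ℓ := 1) one_ne_zero ?_
    · have hz := (hxz (k + k0)).1
      rw [← evHom_apply hz, map_pow, evHom_apply hz]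
      refine pow_ne_zero _ ?_
      rw [ev_uneg hz]
      exact Finset.prod_ne_zero_iff.2 fun i _ => pow_ne_zero _ (hx0 _ i)
    · intro k l hkl
      simp only [hf, hfn] at hkl
      have h1 := cbd_strictMono.injective hkl
      have h2 := hak k
      have h3 := hak l
      have h4 := ha.injective (show a (k + k0) = a (l + k0) by omega)
      omega
    · simp only [hf, hfn]
      refine cbd_tendsto.comp ?_
      refine Filter.tendsto_atTop_mono (fun k => ?_) (Filter.tendsto_sub_atTop_nat 1)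
      have := ha.id_le (k + k0)
      simp only [id_eq] at this
      omega
  -- the pair lemma
  have hYa : ∀ i k, AlgPt (fun l => τ k i (x (k + k0) l)) := fun i k l =>
    algebraic_iso (hxa _ l) (hτi k i)
  have hp1 : ∀ i, ∃ k1, ∀ k ≥ k1, ev (x (k + k0)) N * ev (fun l => τ k i (x (k + k0) l)) M =
      ev (fun l => τ k i (x (k + k0) l)) N * ev (x (k + k0)) M := by
    intro i
    obtain ⟨k2, hk2⟩ := Filter.eventually_atTop.1 (htiny i)
    have h1 := hpair A' 1 hA'pos one_pos (fun k => x (k + k2 + k0))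
      (fun k l => τ (k + k2) i (x (k + k2 + k0) l))
      (fun k l hkl => by have := hx hkl; omega) (fun k => hxz _) (fun k => hYz i (k + k2))
      (fun k => hxa _) (fun k => hYa i (k + k2)) (fun k => hx0 _) (fun k => hY0 i (k + k2))
      (fun k => by rw [mul_one]; exact hrelY i (k + k2))
      (fun k => by rw [mul_one]; exact hk2 (k + k2) (by omega))
    obtain ⟨k3, hk3⟩ := Filter.eventually_atTop.1 h1
    refine ⟨k3 + k2, fun k hk => ?_⟩
    have h4 := hk3 (k - k2) (by omega)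
    rwa [show k - k2 + k2 = k by omega] at h4
  choose k1 hk1 using hp1
  obtain ⟨k4, hk4⟩ := Filter.eventually_atTop.1 (h.eventually_ne hM hXinj (fun k => hxz _))
  obtain ⟨k, hkk1, hkk4⟩ : ∃ k, (∀ i, k1 i ≤ k) ∧ k4 ≤ k :=
    ⟨Finset.univ.sup k1 + k4, fun i =>
      (Finset.le_sup (f := k1) (Finset.mem_univ i)).trans (Nat.le_add_right _ _), by omega⟩
  have hMk := hk4 k hkk4
  have hlam : IsAlgebraic ℚ_[p] (ev (x (k + k0)) N / ev (x (k + k0)) M) := by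
    rw [div_eq_mul_inv]
    exact (algebraic_ev (hxz _).1 (hxa _) N).mul (algebraic_ev (hxz _).1 (hxa _) M).inv
  have hYinj : Function.Injective fun i => fun l => τ k i (x (k + k0) l) := by
    intro i j hij
    refine hτd k i j ?_
    have h1 := congrArg (UU e0) hij
    simp only [UU_iso] at h1
    exact h1
  have hcard := hB _ hlam (Finset.univ.image fun i => fun l => τ k i (x (k + k0) l)) (fun z hz => by
    obtain ⟨i, -, rfl⟩ := Finset.mem_image.1 hz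
    have hz := hxz (k + k0)
    have hMY : ev (fun l => τ k i (x (k + k0) l)) M ≠ 0 := by
      rw [ev_iso hz.1 (hτi k i)]
      exact (map_ne_zero (τ k i)).2 hMk
    refine ⟨hYz i k, hMY, ?_⟩
    have h1 := hk1 i k (hkk1 i)
    field_simp
    exact h1.symm)
  rw [Finset.card_image_of_injective _ hYinj, Finset.card_univ, Fintype.card_fin] at hcard
  omega

end Pool.Agent.ZPB
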