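import Pool.Agent.ZPB.CurveFin

/-!
# Module D1a: formal chain rule and Taylor-type expansions

`pderiv i (subst t f) = subst t f' * pderiv i t` (`f' = PowerSeries.derivative`, `t` without constant term).
Proof: both sides are additive and continuous in `f`; true for polynomials; write `f = f_{<N} + X^N g` and
compare coefficients below `N` (`t^N` has order `≥ N`).
`IsCont` along `ι` implies `D (ι (subst t f)) = ι (subst t f') * D (ι t)`.
-/

namespace Pool.Agent.ZPB

open MvPowerSeries

variable {p : ℕ} [Fact p.Prime] {σ : Type} [Fintype σ]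

theorem coeff_pow_eq_zero_of_degree_lt {t : RR p σ} (ht : constantCoeff t = 0) (e : σ →₀ ℕ) (d : ℕ)
    (hd : e.degree < d) : coeff e (t ^ d) = 0 := by
  apply coeff_of_lt_order
  refine lt_of_lt_of_le ?_ (le_order_pow_of_constantCoeff_eq_zero d ht)
  exact_mod_cast hd

theorem pderiv_subst_coe {t : RR p σ} (ht : constantCoeff t = 0) (q : Polynomial ℤ_[p]) (i : σ) :
    pderiv ℤ_[p] i (PowerSeries.subst t (q : PowerSeries ℤ_[p])) =
      PowerSeries.subst t (PowerSeries.derivative ℤ_[p] (q : PowerSeries ℤ_[p])) *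
        pderiv ℤ_[p] i t := by
  have hs : PowerSeries.HasSubst t := PowerSeries.HasSubst.of_constantCoeff_zero ht
  rw [PowerSeries.derivative_coe, PowerSeries.subst_coe hs, PowerSeries.subst_coe hs,
    Derivation.comp_aeval_eq, smul_eq_mul]

theorem pderiv_subst {t : RR p σ} (ht : constantCoeff t = 0) (f : PowerSeries ℤ_[p]) (i : σ) :
    pderiv ℤ_[p] i (PowerSeries.subst t f) =
      PowerSeries.subst t (PowerSeries.derivative ℤ_[p] f) * pderiv ℤ_[p] i t := by
  classical
  have hs : PowerSeries.HasSubst t := PowerSeries.HasSubst.of_constantCoeff_zero ht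
  ext e
  set M := e.degree + 2 with hM
  have h1 : coeff (e + Finsupp.single i 1) (PowerSeries.subst t f) =
      coeff (e + Finsupp.single i 1)
        (PowerSeries.subst t ((PowerSeries.trunc M f : Polynomial ℤ_[p]) : PowerSeries ℤ_[p])) := by
    rw [PowerSeries.coeff_subst hs, PowerSeries.coeff_subst hs]
    refine finsum_congr fun d => ?_
    rcases lt_or_ge d M with hd | hd
    · rw [PowerSeries.coeff_coe_trunc_of_lt hd]
    · rw [coeff_pow_eq_zero_of_degree_lt ht _ d, smul_zero, smul_zero]
      rw [map_add, Finsupp.degree_single]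
      omega
  have h2 : ∀ a : σ →₀ ℕ, a.degree ≤ e.degree →
      coeff a (PowerSeries.subst t (PowerSeries.derivative ℤ_[p] f)) =
      coeff a (PowerSeries.subst t (PowerSeries.derivative ℤ_[p]
        ((PowerSeries.trunc M f : Polynomial ℤ_[p]) : PowerSeries ℤ_[p]))) := by
    intro a ha
    rw [PowerSeries.coeff_subst hs, PowerSeries.coeff_subst hs]
    refine finsum_congr fun d => ?_
    rcases lt_or_ge (d + 1) M with hd | hd
    · rw [PowerSeries.coeff_derivative, PowerSeries.coeff_derivative,
        PowerSeries.coeff_coe_trunc_of_lt hd]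
    · rw [coeff_pow_eq_zero_of_degree_lt ht _ d (by omega), smul_zero, smul_zero]
  rw [coeff_pderiv, h1, ← coeff_pderiv, pderiv_subst_coe ht, coeff_mul, coeff_mul]
  refine Finset.sum_congr rfl ?_
  rintro ⟨a, b⟩ hab
  rw [Finset.HasAntidiagonal.mem_antidiagonal] at hab
  have hdeg : a.degree ≤ e.degree := by
    have h3 : a + b = e := hab
    rw [← h3, map_add]
    exact Nat.le_add_right _ _
  rw [h2 a hdeg]

theorem IsCont.subst {E : Type} [Field E] {ι : RR p σ →+* E} {D : E → E} (hD : IsCont ι D)
    {t : RR p σ} (ht : constantCoeff t = 0) (f : PowerSeries ℤ_[p]) :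
    D (ι (PowerSeries.subst t f)) = ι (PowerSeries.subst t (PowerSeries.derivative ℤ_[p] f)) * D (ι t) := by
  rw [hD, hD t, Finset.mul_sum]
  refine Finset.sum_congr rfl fun i _ => ?_
  rw [pderiv_subst ht, map_mul, mul_assoc]

theorem IsCont.C {E : Type} [Field E] {ι : RR p σ →+* E} {D : E → E} (hD : IsCont ι D) (a : ℤ_[p]) :
    D (ι (MvPowerSeries.C a)) = 0 := by
  rw [hD]
  refine Finset.sum_eq_zero fun i _ => ?_
  rw [pderiv_C, map_zero, zero_mul]

end Pool.Agent.ZPB
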