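import Pool.Agent.ZPB.NoCancel
import Pool.Agent.ZPB.CurveMin
import Pool.Agent.ZPB.GalExt

/-!
# Module B5a: conjugates with close `f`-value have close parameter

Take `P` from `minpoly_tr` for `N/M`, `m` from `exists_isW_fam`, `K = m`; `T = ev (x k) t`, `S = T - z`, `r = ‖S‖`,
`lam = ev (x k) N / ev (x k) M`. For all large `k` `no_cancel` holds (`lam_k` has pairwise distinct norms). Let
`g_0, …, g_m` be isometric automorphisms fixing `z` with `‖g_a lam - lam‖ ≤ ε ‖lam‖`. Put `S_a = g_a S = g_a T - z`,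
`‖S_a‖ = r`. From `∑ P_j(T) lam^j = 0` (`ev_hg`, `val_fam`) and `valZ_iso`: `∑ P_j(g_a T) (g_a lam)^j = 0`. Hence
`‖val (fam P lam) (g_a T)‖ = ‖∑ P_j(g_a T) (lam^j - (g_a lam)^j)‖ ≤ ε max_j ‖P_j(T)‖ ‖lam‖^j ≤ ε G`, with
`G = max_j ‖P_j(T)‖ ‖lam‖^j > 0` (`‖P_j(g_a T)‖ = ‖P_j(T)‖`; `‖lam^j - μ^j‖ ≤ ε ‖lam‖^j` if
`‖lam - μ‖ ≤ ε ‖lam‖`; if `G = 0`, i.e. all `P_j(T) = 0`: only for finitely many `k` because `P_j ≠ 0` for some `j`,
`IsW.finite_zeros`, and the `T_k` are pairwise distinct). By `no_cancel` `G ≤ ‖coeff m0 F‖ r^m0` with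
`F = recenter z (fam P lam)`, which is `IsW` of degree `n ≤ m` (`fam P lam ≠ 0` as `lam` is algebraic, `algebraic_ev`), and `val F S_a = val (fam P lam) (g_a T)` (`val_recenter`). `IsW.pigeon` for
`n + 1 ≤ m + 1` of the `S_a`: `‖S_a - S_b‖^n ≤ ε r^n` for some `a ≠ b`, `n ≥ 1`, so `‖S_a - S_b‖ ≤ ρ r` with
`ρ = ε^(1/m) < 1` (if `m = 0` there is no such configuration and any `ρ` works).
-/

namespace Pool.Agent.ZPB

open MvPowerSeries

variable {p : ℕ} [Fact p.Prime] {σ : Type} [Fintype σ]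

private theorem closenessT_sub_lt {a b : ℂ_[p]} (ha : ‖a‖ < 1) (hb : ‖b‖ < 1) : ‖a - b‖ < 1 := by
  have h := IsUltrametricDist.norm_add_le_max a (-b)
  rw [norm_neg, ← sub_eq_add_neg] at h
  exact lt_of_le_of_lt h (max_lt ha hb)

private theorem closenessT_pow {lam mu : ℂ_[p]} {ε : ℝ} (hε : 0 ≤ ε)
    (h : ‖lam - mu‖ ≤ ε * ‖lam‖) (hn : ‖mu‖ = ‖lam‖) (j : ℕ) :
    ‖lam ^ j - mu ^ j‖ ≤ ε * ‖lam‖ ^ j := by
  induction j with
  | zero => simpa using hε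
  | succ j ih =>
    have e : lam ^ (j + 1) - mu ^ (j + 1) = lam ^ j * (lam - mu) + (lam ^ j - mu ^ j) * mu := by
      ring
    rw [e]
    refine le_trans (IsUltrametricDist.norm_add_le_max _ _) (max_le ?_ ?_)
    · rw [norm_mul, norm_pow]
      calc ‖lam‖ ^ j * ‖lam - mu‖ ≤ ‖lam‖ ^ j * (ε * ‖lam‖) := by gcongr
        _ = ε * ‖lam‖ ^ (j + 1) := by ring
    · rw [norm_mul, hn]
      calc ‖lam ^ j - mu ^ j‖ * ‖lam‖ ≤ (ε * ‖lam‖ ^ j) * ‖lam‖ := by gcongr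
        _ = ε * ‖lam‖ ^ (j + 1) := by ring

private theorem closenessT_nonvanish {f : PowerSeries ℤ_[p]} (hf : f ≠ 0) (T : ℕ → ℂ_[p])
    (hT : Function.Injective T) (hT1 : ∀ k, ‖T k‖ < 1) :
    ∀ᶠ k in Filter.atTop, valZ f (T k) ≠ 0 := by
  classical
  obtain ⟨n, hn⟩ := exists_isW_of_Z hf
  have hfin : {k | valZ f (T k) = 0}.Finite := by
    by_contra hinf
    obtain ⟨s, hs, hc⟩ := Set.Infinite.exists_subset_card_eq hinf (n + 1)
    have h1 := hn.finite_zeros (s.image T) (by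
      intro x hx
      obtain ⟨k, hk, rfl⟩ := Finset.mem_image.1 hx
      exact ⟨hT1 k, hs hk⟩)
    rw [Finset.card_image_of_injective _ hT, hc] at h1
    omega
  have h2 := hfin.eventually_cofinite_notMem
  rw [Nat.cofinite_eq_atTop] at h2
  exact h2

/-- The values of `fam P lam` at the conjugates of the parameter are small. -/
private theorem closenessT_small (P : Polynomial (PowerSeries ℤ_[p])) {lam T : ℂ_[p]}
    (hT : ‖T‖ < 1) (h0 : val (fam P lam) T = 0) {ε B : ℝ} (hε : 0 ≤ ε) (hB : 0 ≤ B)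
    (hb : ∀ j ≤ P.natDegree, ‖valZ (P.coeff j) T‖ * ‖lam‖ ^ j ≤ B)
    {g : ℂ_[p] ≃+* ℂ_[p]} (hg : IsIso g) (hc : ‖g lam - lam‖ ≤ ε * ‖lam‖) :
    ‖val (fam P lam) (g T)‖ ≤ ε * B := by
  have hgT : ‖g T‖ < 1 := by rw [hg]; exact hT
  rw [val_fam P lam hT] at h0
  have h1 : ∑ j ∈ Finset.range (P.natDegree + 1), (g lam) ^ j * valZ (P.coeff j) (g T) = 0 := by
    have := congrArg g h0
    rw [map_sum, map_zero] at this
    rw [← this]
    refine Finset.sum_congr rfl fun j _ => ?_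
    rw [map_mul, map_pow, valZ_iso hg hT]
  have h2 : val (fam P lam) (g T) =
      ∑ j ∈ Finset.range (P.natDegree + 1), (lam ^ j - (g lam) ^ j) * valZ (P.coeff j) (g T) := by
    rw [val_fam P lam hgT, ← sub_zero (∑ j ∈ Finset.range (P.natDegree + 1), _), ← h1,
      ← Finset.sum_sub_distrib]
    refine Finset.sum_congr rfl fun j _ => ?_
    ring
  rw [h2]
  refine IsUltrametricDist.norm_sum_le_of_forall_le_of_nonneg (mul_nonneg hε hB) fun j hj => ?_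
  rw [norm_mul, valZ_iso hg hT, hg]
  have hc' : ‖lam - g lam‖ ≤ ε * ‖lam‖ := by rw [norm_sub_rev]; exact hc
  have h3 := closenessT_pow hε hc' (hg lam) j
  calc ‖lam ^ j - (g lam) ^ j‖ * ‖valZ (P.coeff j) T‖
      ≤ (ε * ‖lam‖ ^ j) * ‖valZ (P.coeff j) T‖ := by gcongr
    _ = ε * (‖valZ (P.coeff j) T‖ * ‖lam‖ ^ j) := by ring
    _ ≤ ε * B := mul_le_mul_of_nonneg_left (hb j (by
        have := Finset.mem_range.1 hj
        omega)) hε

/-- From the pigeonhole inequality to the contraction. -/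
private theorem closenessT_real {m n : ℕ} (hn : 1 ≤ n) (hnm : n ≤ m) {ε r d ρ : ℝ}
    (hr : 0 < r) (hρ0 : 0 < ρ) (hρ1 : ρ < 1) (hρ : ρ ^ m = ε)
    (h : d ^ n ≤ ε * r ^ n) : d ≤ ρ * r := by
  have h1 : d ^ n ≤ (ρ * r) ^ n := by
    rw [mul_pow]
    refine le_trans h (mul_le_mul_of_nonneg_right ?_ (by positivity))
    rw [← hρ]
    exact pow_le_pow_of_le_one hρ0.le hρ1.le hnm
  exact le_of_pow_le_pow_left₀ (by omega) (by positivity) h1

theorem closeness_T {𝔮 : Ideal (RR p σ)} {t : RR p σ} (h : IsCurve 𝔮 t) {x : ℕ → σ → ℂ_[p]}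
    (hx : Function.Injective x) (hxz : ∀ k, x k ∈ zer 𝔮) (hxa : ∀ k, AlgPt (x k)) {z : ℂ_[p]}
    (hz : ‖z‖ < 1) (hS0 : ∀ k, ev (x k) t ≠ z) (hS : Function.Injective fun k => ‖ev (x k) t - z‖)
    {N M : RR p σ} (hM : M ∉ 𝔮) (hT : Tr 𝔮 N M) (hM0 : ∀ k, ev (x k) M ≠ 0)
    (hN0 : ∀ k, ev (x k) N ≠ 0) (hl : Function.Injective fun k => ‖ev (x k) N / ev (x k) M‖) :
    ∃ K : ℕ, ∀ ε : ℝ, 0 < ε → ε < 1 → ∃ ρ : ℝ, 0 < ρ ∧ ρ < 1 ∧ ∀ᶠ k in Filter.atTop,
      ∀ g : Fin (K + 1) → (ℂ_[p] ≃+* ℂ_[p]), (∀ a, IsIso (g a)) → (∀ a, g a z = z) →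
        (∀ a, ‖g a (ev (x k) N / ev (x k) M) - ev (x k) N / ev (x k) M‖ ≤
          ε * ‖ev (x k) N / ev (x k) M‖) →
        ∃ a b, a ≠ b ∧ ‖g a (ev (x k) t) - g b (ev (x k) t)‖ ≤ ρ * ‖ev (x k) t - z‖ := by
  obtain ⟨P, hP0, hPq, hPalg⟩ := h.minpoly_tr hM hT
  obtain ⟨m, hm⟩ := exists_isW_fam P
  refine ⟨m, fun ε hε0 hε1 => ?_⟩
  obtain ⟨ρ, hρ0, hρ1, hρ⟩ : ∃ ρ : ℝ, 0 < ρ ∧ ρ < 1 ∧ (m ≠ 0 → ρ ^ m = ε) := by
    by_cases hm0 : m = 0
    · exact ⟨1 / 2, by norm_num, by norm_num, fun h => absurd hm0 h⟩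
    · refine ⟨ε ^ (1 / (m : ℝ)), Real.rpow_pos_of_pos hε0 _, ?_, fun _ => ?_⟩
      · have hm' : (0 : ℝ) < m := by
          have : 0 < m := Nat.pos_of_ne_zero hm0
          exact_mod_cast this
        exact Real.rpow_lt_one hε0.le hε1 (by positivity)
      · rw [← Real.rpow_natCast, ← Real.rpow_mul hε0.le]
        have : (m : ℝ) ≠ 0 := by exact_mod_cast hm0
        rw [one_div, inv_mul_cancel₀ this, Real.rpow_one]
  refine ⟨ρ, hρ0, hρ1, ?_⟩
  have hT1 : ∀ k, ‖ev (x k) t‖ < 1 := fun k => norm_ev_lt (hxz k).1 h.t0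
  have hTinj : Function.Injective fun k => ev (x k) t := fun k l hkl => hS (by
    have : ev (x k) t = ev (x l) t := hkl
    simp only [this])
  have hl0 : ∀ k, ev (x k) N / ev (x k) M ≠ 0 := fun k => div_ne_zero (hN0 k) (hM0 k)
  have hSk0 : ∀ k, ev (x k) t - z ≠ 0 := fun k => sub_ne_zero.2 (hS0 k)
  have hSk1 : ∀ k, ‖ev (x k) t - z‖ < 1 := fun k => closenessT_sub_lt (hT1 k) hz
  obtain ⟨j0, hj0⟩ : ∃ j, P.coeff j ≠ 0 := by
    by_contra hcon
    push Not at hcon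
    exact hP0 (Polynomial.ext fun j => by rw [hcon j, Polynomial.coeff_zero])
  have hj0d : j0 ≤ P.natDegree := Polynomial.le_natDegree_of_ne_zero hj0
  have ev1 := no_cancel P hz (fun k => ev (x k) t - z) (fun k => ev (x k) N / ev (x k) M) hSk0
    hSk1 hS hl0 hl
  have ev2 := closenessT_nonvanish hj0 (fun k => ev (x k) t) hTinj hT1
  filter_upwards [ev1, ev2] with k hk1 hk2 g hg hgz hgc
  obtain ⟨m0, hm0⟩ := hk1
  set T := ev (x k) t with hTd
  set lam := ev (x k) N / ev (x k) M with hlam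
  have hlam0 : lam ≠ 0 := hl0 k
  have hr0 : 0 < ‖T - z‖ := norm_pos_iff.2 (hSk0 k)
  have hzT : z + (T - z) = T := by ring
  have hb : ∀ j ≤ P.natDegree, ‖valZ (P.coeff j) T‖ * ‖lam‖ ^ j ≤
      ‖PowerSeries.coeff m0 (recenter z (fam P lam))‖ * ‖T - z‖ ^ m0 := fun j hj => by
    have := hm0 j hj
    rwa [hzT] at this
  have hBpos : 0 < ‖PowerSeries.coeff m0 (recenter z (fam P lam))‖ * ‖T - z‖ ^ m0 := by
    refine lt_of_lt_of_le ?_ (hb j0 hj0d)
    have a1 : 0 < ‖valZ (P.coeff j0) T‖ := norm_pos_iff.2 hk2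
    have a2 : 0 < ‖lam‖ := norm_pos_iff.2 hlam0
    positivity
  have hv0 : val (fam P lam) T = 0 := by
    have e1 := ev_hg (hxz k).1 h.t0 P (N := N) (hM0 k)
    rw [(hxz k).2 _ hPq] at e1
    rcases mul_eq_zero.1 e1.symm with e2 | e2
    · exact absurd e2 (pow_ne_zero _ (hM0 k))
    · exact e2
  have halg : IsAlgebraic ℚ_[p] lam := by
    have a1 := algebraic_ev (hxz k).1 (hxa k) N
    have a2 := algebraic_ev (hxz k).1 (hxa k) M
    rw [hlam, div_eq_mul_inv]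
    exact a1.mul a2.inv
  obtain ⟨n, hnm, hW⟩ := hm lam (hPalg lam halg)
  have hWr := hW.recenter hz
  have hSa : ∀ a, ‖g a T - z‖ = ‖T - z‖ := fun a => by
    have : g a T - z = g a (T - z) := by rw [map_sub, hgz]
    rw [this, hg a]
  have hval : ∀ a, ‖val (recenter z (fam P lam)) (g a T - z)‖ ≤
      ε * (‖PowerSeries.coeff m0 (recenter z (fam P lam))‖ * ‖T - z‖ ^ m0) := fun a => by
    rw [val_recenter (bdd_fam P lam) hz (by rw [hSa]; exact hSk1 k)]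
    have : z + (g a T - z) = g a T := by ring
    rw [this]
    exact closenessT_small P (hT1 k) hv0 hε0.le hBpos.le hb (hg a) (hgc a)
  obtain ⟨a, b, hab, hd⟩ := hWr.pigeon hr0 (hSk1 k) hε0.le hε1 m0
    (fun a : Fin (n + 1) => g (Fin.castLE (by omega) a) T - z) (fun a => hSa _) hBpos le_rfl
    (fun a => hval _)
  have hn1 : 1 ≤ n := by
    by_contra hcon
    have hn0 : n = 0 := by omega
    subst hn0
    apply hab
    apply Fin.ext
    omega
  refine ⟨Fin.castLE (by omega) a, Fin.castLE (by omega) b, fun hcon => hab ?_, ?_⟩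
  · exact Fin.castLE_injective _ hcon
  · have hd' : ‖g (Fin.castLE (by omega) a) T - g (Fin.castLE (by omega) b) T‖ ^ n ≤
        ε * ‖T - z‖ ^ n := by
      have e : (g (Fin.castLE (by omega) a) T - z) - (g (Fin.castLE (by omega) b) T - z) =
          g (Fin.castLE (by omega) a) T - g (Fin.castLE (by omega) b) T := by ring
      simp only [e] at hd
      exact hd
    exact closenessT_real hn1 hnm hr0 hρ0 hρ1 (hρ (by omega)) hd'

end Pool.Agent.ZPB
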