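import Pool.Agent.ZPB.EvVal

/-!
# Module C1: `RR p σ ⧸ 𝔮` is finite over `ℤ_p[[t]]`

Let `I = (p, t) + 𝔮`, `X_i^N ∈ I`. A power series is modulo `I` a linear combination of the monomials
`X^m`, `m_i ≤ N` (`mem_of_box`). By completeness of `ℤ_p` (with respect to `(p)`) it is a combination of
these monomials with coefficients in `ℤ_p` modulo `(t) + 𝔮`, and by completeness of `ℤ_p[[T]]` (with
respect to `(T)`) it is a combination with coefficients in `ℤ_p[[T]]` modulo `𝔮` (`surj_step`, twice).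
Separatedness is Krull's intersection theorem (`haus_step`).
-/

namespace Pool.Agent.ZPB

open MvPowerSeries

section general

variable {R A : Type} [CommRing R] [CommRing A]

/-- A finite free module over a precomplete ring is precomplete. -/
lemma precomplete_pi (I : Ideal R) [IsPrecomplete I R] (ι : Type) [Finite ι] :
    IsPrecomplete I (ι → R) := by
  classical
  have := Fintype.ofFinite ι
  have key : ∀ (J : Ideal R) (v : ι → R), v ∈ (J • ⊤ : Submodule R (ι → R)) ↔ ∀ i, v i ∈ J := by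
    intro J v
    constructor
    · intro hv i
      refine Submodule.smul_induction_on hv (fun r hr w _ => ?_) (fun x y hx hy => ?_)
      · exact J.mul_mem_right _ hr
      · exact J.add_mem hx hy
    · intro hv
      have h1 : v = ∑ i, v i • (Pi.single i (1 : R) : ι → R) := by
        ext j
        simp [Finset.sum_apply, Pi.single_apply]
      rw [h1]
      exact Submodule.sum_mem _ fun i _ => Submodule.smul_mem_smul (hv i) trivial
  refine ⟨fun f hf => ?_⟩
  have hf' : ∀ i, ∃ L : R, ∀ n, f n i ≡ L [SMOD (I ^ n • ⊤ : Submodule R R)] := by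
    intro i
    refine IsPrecomplete.prec' (fun n => f n i) fun {m n} hmn => ?_
    have h1 := hf hmn
    rw [SModEq.sub_mem, key] at h1
    rw [SModEq.sub_mem, smul_eq_mul, Ideal.mul_top]
    exact h1 i
  choose L hL using hf'
  refine ⟨L, fun n => ?_⟩
  rw [SModEq.sub_mem, key]
  intro i
  have h1 := hL i n
  rw [SModEq.sub_mem, smul_eq_mul, Ideal.mul_top] at h1
  exact h1

/-- Separatedness of a quotient of a local Noetherian ring. -/
lemma haus_step [IsLocalRing A] [IsNoetherianRing A] (φ : R →+* A) (I : Ideal R)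
    (hI : ∀ r ∈ I, φ r ∈ IsLocalRing.maximalIdeal A) (𝔮 : Ideal A) :
    letI := ((Ideal.Quotient.mk 𝔮).comp φ).toAlgebra
    IsHausdorff I (A ⧸ 𝔮) := by
  let _ := ((Ideal.Quotient.mk 𝔮).comp φ).toAlgebra
  have hh : IsHausdorff (IsLocalRing.maximalIdeal A) (A ⧸ 𝔮) := inferInstance
  refine ⟨fun x hx => ?_⟩
  refine hh.haus' x fun n => ?_
  have h1 := hx n
  rw [SModEq.zero] at h1 ⊢
  have hmap : ∀ r ∈ I ^ n, φ r ∈ IsLocalRing.maximalIdeal A ^ n := by
    intro r hr
    have h2 : I.map φ ≤ IsLocalRing.maximalIdeal A := by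
      rw [Ideal.map_le_iff_le_comap]
      exact hI
    have h3 := Ideal.mem_map_of_mem φ hr
    rw [Ideal.map_pow] at h3
    exact Ideal.pow_right_mono h2 n h3
  refine Submodule.smul_induction_on h1 (fun r hr w _ => ?_) (fun x y hx hy => ?_)
  · have h4 : r • w = (φ r) • w := by
      rw [Algebra.smul_def, Algebra.smul_def]
      rfl
    rw [h4]
    exact Submodule.smul_mem_smul (hmap r hr) trivial
  · exact Submodule.add_mem _ hx hy

/-- The topological Nakayama lemma for a quotient of a local Noetherian ring. -/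
lemma surj_step [IsLocalRing A] [IsNoetherianRing A] (φ : R →+* A) (I : Ideal R)
    [IsPrecomplete I R] (hI : ∀ r ∈ I, φ r ∈ IsLocalRing.maximalIdeal A) (𝔮 : Ideal A)
    {ι : Type} [Fintype ι] (b : ι → A)
    (hb : ∀ F : A, ∃ a : ι → R, F - ∑ i, φ (a i) * b i ∈ I.map φ ⊔ 𝔮) (F : A) :
    ∃ a : ι → R, F - ∑ i, φ (a i) * b i ∈ 𝔮 := by
  let _ := ((Ideal.Quotient.mk 𝔮).comp φ).toAlgebra
  have hha : IsHausdorff I (A ⧸ 𝔮) := haus_step φ I hI 𝔮
  have hpre : IsPrecomplete I (ι → R) := precomplete_pi I ι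
  have hsm : ∀ (r : R) (x : A), r • (Ideal.Quotient.mk 𝔮 x) = Ideal.Quotient.mk 𝔮 (φ r * x) := by
    intro r x
    rw [Algebra.smul_def, map_mul]
    rfl
  let f : (ι → R) →ₗ[R] (A ⧸ 𝔮) := Fintype.linearCombination R fun i => Ideal.Quotient.mk 𝔮 (b i)
  have hf : ∀ a : ι → R, f a = Ideal.Quotient.mk 𝔮 (∑ i, φ (a i) * b i) := by
    intro a
    rw [map_sum, Fintype.linearCombination_apply]
    exact Finset.sum_congr rfl fun i _ => hsm _ _
  have hsurj : Function.Surjective f := by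
    refine surjective_of_mkQ_comp_surjective (I := I) fun y => ?_
    obtain ⟨y, rfl⟩ := Submodule.mkQ_surjective _ y
    obtain ⟨y, rfl⟩ := Ideal.Quotient.mk_surjective y
    obtain ⟨a, ha⟩ := hb y
    refine ⟨a, ?_⟩
    rw [LinearMap.comp_apply, ← sub_eq_zero, ← map_sub, Submodule.mkQ_apply,
      Submodule.Quotient.mk_eq_zero, hf, ← map_sub, ← neg_sub, map_neg, neg_mem_iff]
    obtain ⟨u, hu, v, hv, huv⟩ := Submodule.mem_sup.1 ha
    rw [← huv, map_add, Ideal.Quotient.eq_zero_iff_mem.2 hv, add_zero, Ideal.smul_top_eq_map]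
    change Ideal.Quotient.mk 𝔮 u ∈ I.map ((Ideal.Quotient.mk 𝔮).comp φ)
    rw [← Ideal.map_map]
    exact Ideal.mem_map_of_mem _ hu
  obtain ⟨a, ha⟩ := hsurj (Ideal.Quotient.mk 𝔮 F)
  refine ⟨a, ?_⟩
  rw [hf] at ha
  rw [← Ideal.Quotient.eq_zero_iff_mem, map_sub, ha, sub_self]

end general

variable {p : ℕ} [Fact p.Prime] {σ : Type} [Fintype σ]

lemma mem_of_box {J : Ideal (RR p σ)} {N : ℕ} (hJ : ∀ i, (X i : RR p σ) ^ N ∈ J) (S : Finset σ) :
    ∀ F : RR p σ, (∀ m, (∀ i ∈ S, m i ≤ N) → coeff m F = 0) → F ∈ J := by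
  classical
  induction S using Finset.induction_on with
  | empty =>
    intro F hF
    have : F = 0 := by
      ext m
      rw [hF m (by simp), map_zero]
    rw [this]
    exact J.zero_mem
  | insert i S _ ih =>
    intro F hF
    let G : RR p σ := fun m => if m i ≤ N then 0 else coeff m F
    have hG : ∀ m, coeff m G = if m i ≤ N then 0 else coeff m F := fun _ => rfl
    have h1 : G ∈ J := by
      have h2 : (X i : RR p σ) ^ N ∣ G := by
        rw [X_pow_dvd_iff]
        intro m hm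
        rw [hG, if_pos hm.le]
      obtain ⟨H, hH⟩ := h2
      rw [hH]
      exact J.mul_mem_right _ (hJ i)
    have h2 : F - G ∈ J := by
      refine ih _ fun m hm => ?_
      rw [map_sub, hG]
      split_ifs with h3
      · rw [sub_zero]
        refine hF m fun j hj => ?_
        rcases Finset.mem_insert.1 hj with rfl | hj
        · exact h3
        · exact hm j hj
      · exact sub_self _
    have h3 := J.add_mem h2 h1
    rwa [sub_add_cancel] at h3

/-- the substitution `T ↦ t` as a ring homomorphism -/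
noncomputable def sb {t : RR p σ} (ht : constantCoeff t = 0) : PowerSeries ℤ_[p] →+* RR p σ :=
  (PowerSeries.substAlgHom (R := ℤ_[p]) (PowerSeries.HasSubst.of_constantCoeff_zero ht)).toRingHom

theorem sb_apply {t : RR p σ} (ht : constantCoeff t = 0) (f : PowerSeries ℤ_[p]) :
    sb ht f = PowerSeries.subst t f := by
  simp [sb, PowerSeries.coe_substAlgHom]

lemma sb_X {t : RR p σ} (ht : constantCoeff t = 0) : sb ht PowerSeries.X = t := by
  rw [sb_apply, PowerSeries.subst_X (PowerSeries.HasSubst.of_constantCoeff_zero ht)]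

lemma sb_C {t : RR p σ} (ht : constantCoeff t = 0) (c : ℤ_[p]) :
    sb ht (PowerSeries.C c) = MvPowerSeries.C c := by
  rw [sb_apply, PowerSeries.subst_C]

lemma mem_max_iff (F : RR p σ) :
    F ∈ IsLocalRing.maximalIdeal (RR p σ) ↔ ¬ IsUnit (constantCoeff F) := by
  rw [IsLocalRing.mem_maximalIdeal, mem_nonunits_iff, MvPowerSeries.isUnit_iff_constantCoeff]

/-- The main step: the generators are the monomials in a box. -/
lemma IsCurve.box {𝔮 : Ideal (RR p σ)} {t : RR p σ} (h : IsCurve 𝔮 t) :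
    ∃ B : Finset (σ →₀ ℕ), ∀ F : RR p σ, ∃ a : B → PowerSeries ℤ_[p],
      F - ∑ m : B, sb h.t0 (a m) * monomial (m : σ →₀ ℕ) 1 ∈ 𝔮 := by
  classical
  obtain ⟨N, hN⟩ := h.fin
  let B : Finset (σ →₀ ℕ) := Finset.Icc 0 (Finsupp.equivFunOnFinite.symm fun _ => N)
  have hB : ∀ m : σ →₀ ℕ, m ∈ B ↔ ∀ i, m i ≤ N := by
    intro m
    rw [Finset.mem_Icc]
    constructor
    · intro hm i
      exact hm.2 i
    · intro hm
      exact ⟨zero_le, fun i => hm i⟩
  refine ⟨B, ?_⟩
  let b : B → RR p σ := fun m => monomial (m : σ →₀ ℕ) 1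
  -- modulo `(p, t) + 𝔮`
  have h0 : ∀ F : RR p σ, ∃ a : B → ℤ_[p],
      F - ∑ m, (MvPowerSeries.C (a m) : RR p σ) * b m ∈ Ideal.span {(p : RR p σ), t} ⊔ 𝔮 := by
    intro F
    refine ⟨fun m => coeff (m : σ →₀ ℕ) F, ?_⟩
    refine mem_of_box hN Finset.univ _ fun k hk => ?_
    have hkB : k ∈ B := (hB k).2 fun i => hk i (Finset.mem_univ i)
    rw [map_sub, map_sum, Finset.sum_eq_single (⟨k, hkB⟩ : B)]
    · simp [b, coeff_C_mul]
    · intro m _ hm
      have hne : k ≠ (m : σ →₀ ℕ) := fun h => hm (Subtype.ext h.symm)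
      simp only [b]
      rw [coeff_C_mul, coeff_monomial, if_neg hne, mul_zero]
    · intro hmem
      exact absurd (Finset.mem_univ _) hmem
  -- modulo `(t) + 𝔮`
  have h1 : ∀ F : RR p σ, ∃ a : B → ℤ_[p],
      F - ∑ m, (MvPowerSeries.C (a m) : RR p σ) * b m ∈ Ideal.span {t} ⊔ 𝔮 := by
    refine surj_step (MvPowerSeries.C : ℤ_[p] →+* RR p σ) (IsLocalRing.maximalIdeal ℤ_[p])
      (fun r hr => ?_) (Ideal.span {t} ⊔ 𝔮) b (fun F => ?_)
    · rw [mem_max_iff, constantCoeff_C]
      exact hr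
    · obtain ⟨a, ha⟩ := h0 F
      refine ⟨a, ?_⟩
      have h2 : (Ideal.span {(p : RR p σ), t} ⊔ 𝔮 : Ideal (RR p σ)) =
          (IsLocalRing.maximalIdeal ℤ_[p]).map (MvPowerSeries.C : ℤ_[p] →+* RR p σ) ⊔
            (Ideal.span {t} ⊔ 𝔮) := by
        rw [PadicInt.maximalIdeal_eq_span_p, Ideal.map_span, Set.image_singleton, map_natCast,
          Ideal.span_insert, sup_assoc]
      rw [← h2]
      exact ha
  -- modulo `𝔮`
  refine surj_step (sb h.t0) (Ideal.span {PowerSeries.X}) (fun r hr => ?_) 𝔮 b (fun F => ?_)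
  · obtain ⟨r, rfl⟩ := Ideal.mem_span_singleton.1 hr
    rw [map_mul, sb_X]
    refine Ideal.mul_mem_right _ _ ?_
    rw [mem_max_iff, h.t0]
    exact not_isUnit_zero
  · obtain ⟨a, ha⟩ := h1 F
    refine ⟨fun m => PowerSeries.C (a m), ?_⟩
    rw [Ideal.map_span, Set.image_singleton, sb_X]
    simp only [sb_C]
    exact ha

theorem IsCurve.finite {𝔮 : Ideal (RR p σ)} {t : RR p σ} (h : IsCurve 𝔮 t) :
    ∃ s : Finset (RR p σ), ∀ F : RR p σ, ∃ a : RR p σ → PowerSeries ℤ_[p],
      F - ∑ b ∈ s, PowerSeries.subst t (a b) * b ∈ 𝔮 := by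
  classical
  obtain ⟨B, hB⟩ := h.box
  have hinj : Function.Injective (fun m : B => (monomial (m : σ →₀ ℕ) 1 : RR p σ)) := by
    intro m m' hmm
    have h1 := congrArg (coeff (m : σ →₀ ℕ)) hmm
    simp only at h1
    rw [coeff_monomial_same, coeff_monomial] at h1
    by_contra hne
    rw [if_neg (fun h => hne (Subtype.ext h))] at h1
    exact one_ne_zero h1
  refine ⟨Finset.univ.map ⟨_, hinj⟩, fun F => ?_⟩
  obtain ⟨a, ha⟩ := hB F
  refine ⟨Function.extend (fun m : B => (monomial (m : σ →₀ ℕ) 1 : RR p σ)) a 0, ?_⟩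
  rw [Finset.sum_map]
  simp only [Function.Embedding.coeFn_mk, hinj.extend_apply]
  simp only [sb_apply] at ha
  exact ha

theorem IsCurve.integral {𝔮 : Ideal (RR p σ)} {t : RR p σ} (h : IsCurve 𝔮 t) (F : RR p σ) :
    ∃ P : Polynomial (PowerSeries ℤ_[p]), P.Monic ∧ P.eval₂ (sb h.t0) F ∈ 𝔮 := by
  classical
  obtain ⟨B, hB⟩ := h.box
  have hfin : ((Ideal.Quotient.mk 𝔮).comp (sb h.t0)).Finite := by
    let _ := ((Ideal.Quotient.mk 𝔮).comp (sb h.t0)).toAlgebra
    change Module.Finite (PowerSeries ℤ_[p]) (RR p σ ⧸ 𝔮)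
    refine Module.Finite.of_surjective (Fintype.linearCombination (PowerSeries ℤ_[p])
      fun m : B => Ideal.Quotient.mk 𝔮 (monomial (m : σ →₀ ℕ) 1)) fun y => ?_
    obtain ⟨y, rfl⟩ := Ideal.Quotient.mk_surjective y
    obtain ⟨a, ha⟩ := hB y
    refine ⟨a, ?_⟩
    rw [← Ideal.Quotient.eq_zero_iff_mem, map_sub, sub_eq_zero] at ha
    rw [ha, map_sum, Fintype.linearCombination_apply]
    refine Finset.sum_congr rfl fun i _ => ?_
    rw [Algebra.smul_def, map_mul]
    rfl
  obtain ⟨P, hP, hP2⟩ := hfin.to_isIntegral (Ideal.Quotient.mk 𝔮 F)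
  refine ⟨P, hP, ?_⟩
  rw [← Ideal.Quotient.eq_zero_iff_mem, Polynomial.hom_eval₂]
  exact hP2

end Pool.Agent.ZPB
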