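import Mathlib

/-!
# Definitions for the bad reduction theorem (Zilber-Pink for curves in `Y(1)^n`, `MP_d83ecd_ag`)

`RR p σ` is the ring `ℤ_p[[X_i : i ∈ σ]]`, its elements are evaluated at the points of the open unit
polydisc of `ℂ_p`. A *formal curve* is a prime ideal `𝔮` of `RR p σ` (`p ∉ 𝔮`) with a parameter `t`
such that `RR p σ ⧸ 𝔮` is finite over `ℤ_p[[t]]` (`IsCurve`).
-/

namespace Pool.Agent.ZPB

open MvPowerSeries

variable {p : ℕ} [Fact p.Prime] {σ τ : Type} [Fintype σ] [Fintype τ]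

/-- `ℤ_p[[X_i : i ∈ σ]]` -/
abbrev RR (p : ℕ) [Fact p.Prime] (σ : Type) := MvPowerSeries σ ℤ_[p]

/-- the embedding of `ℤ_p` in `ℂ_p` -/
noncomputable def zc (p : ℕ) [Fact p.Prime] : ℤ_[p] →+* ℂ_[p] :=
  (algebraMap ℚ_[p] ℂ_[p]).comp PadicInt.Coe.ringHom

/-- the open unit polydisc -/
def Disc (z : σ → ℂ_[p]) : Prop := ∀ i, ‖z i‖ < 1

/-- evaluation of a power series at a point of the open unit polydisc -/
noncomputable def ev (z : σ → ℂ_[p]) (F : RR p σ) : ℂ_[p] :=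
  ∑' m : σ →₀ ℕ, zc p (coeff m F) * ∏ i, z i ^ m i

/-- evaluation of a power series in one variable over `ℂ_p` -/
noncomputable def val (f : PowerSeries ℂ_[p]) (s : ℂ_[p]) : ℂ_[p] :=
  ∑' n : ℕ, PowerSeries.coeff n f * s ^ n

/-- evaluation of a power series in one variable over `ℤ_p` -/
noncomputable def valZ (f : PowerSeries ℤ_[p]) (s : ℂ_[p]) : ℂ_[p] := val (PowerSeries.map (zc p) f) s

/-- the zero set of an ideal in the open unit polydisc -/
def zer (𝔮 : Ideal (RR p σ)) : Set (σ → ℂ_[p]) := {z | Disc z ∧ ∀ F ∈ 𝔮, ev z F = 0}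

/-- all coordinates are algebraic over `ℚ_p` -/
def AlgPt (z : σ → ℂ_[p]) : Prop := ∀ i, IsAlgebraic ℚ_[p] (z i)

/-- `f` has Weierstrass degree `n`: the maximum of the norms of the coefficients is attained, and
first at the index `n`. -/
def IsW (f : PowerSeries ℂ_[p]) (n : ℕ) : Prop :=
  PowerSeries.coeff n f ≠ 0 ∧ (∀ m, ‖PowerSeries.coeff m f‖ ≤ ‖PowerSeries.coeff n f‖) ∧
    ∀ m < n, ‖PowerSeries.coeff m f‖ < ‖PowerSeries.coeff n f‖

/-- the power series `S ↦ f (z + S)` -/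
noncomputable def recenter (z : ℂ_[p]) (f : PowerSeries ℂ_[p]) : PowerSeries ℂ_[p] :=
  PowerSeries.mk fun m => ∑' n : ℕ, ((m + n).choose m : ℂ_[p]) * PowerSeries.coeff (m + n) f * z ^ n

/-- A formal curve: `𝔮` is a prime ideal of `ℤ_p[[X_i]]` not containing `p`, and `t` a power series
without constant term such that every variable is nilpotent modulo `(p, t) + 𝔮`. -/
structure IsCurve (𝔮 : Ideal (RR p σ)) (t : RR p σ) : Prop where
  prime : 𝔮.IsPrime
  p_notMem : (p : RR p σ) ∉ 𝔮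
  t0 : constantCoeff t = 0
  fin : ∃ N : ℕ, ∀ i, (X i : RR p σ) ^ N ∈ Ideal.span {(p : RR p σ), t} ⊔ 𝔮

/-- the homogenization `∑ φ(P_j) N^j M^(d-j)`, `d = deg P`, of a polynomial `P` -/
noncomputable def hg {A B : Type} [CommRing A] [CommRing B] (φ : A → B) (P : Polynomial A)
    (N M : B) : B :=
  ∑ j ∈ Finset.range (P.natDegree + 1), φ (P.coeff j) * N ^ j * M ^ (P.natDegree - j)

/-- `N / M` is transcendental over `ℤ_p` in the fraction field of `RR p σ ⧸ 𝔮` -/
def Tr (𝔮 : Ideal (RR p σ)) (N M : RR p σ) : Prop :=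
  ∀ h : Polynomial ℤ_[p], h ≠ 0 → hg (fun a => (C a : RR p σ)) h N M ∉ 𝔮

/-- the monomial `∏ z_i^(e_i)` -/
noncomputable def UU (e : σ → ℤ) (z : σ → ℂ_[p]) : ℂ_[p] := ∏ i, z i ^ e i

/-- numerator of the monomial -/
noncomputable def upos (p : ℕ) [Fact p.Prime] (e : σ → ℤ) : RR p σ := ∏ i, X i ^ (e i).toNat

/-- denominator of the monomial -/
noncomputable def uneg (p : ℕ) [Fact p.Prime] (e : σ → ℤ) : RR p σ := ∏ i, X i ^ (-(e i)).toNat

/-- The multiplicative group generated by the coordinates has rank one modulo torsion: every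
monomial of norm one is a root of unity. -/
def Rank1 (z : σ → ℂ_[p]) : Prop := ∀ e : σ → ℤ, ‖UU e z‖ = 1 → ∃ m : ℕ, 0 < m ∧ UU e z ^ m = 1

/-- the additive valuation -/
noncomputable def vv (x : ℂ_[p]) : ℝ := -Real.logb p ‖x‖

/-- isometric field automorphisms of `ℂ_p` -/
def IsIso (g : ℂ_[p] ≃+* ℂ_[p]) : Prop := ∀ x, ‖g x‖ = ‖x‖

/-- `D` is a derivation of the field `E` -/
def IsDer {E : Type} [Field E] (D : E → E) : Prop :=
  (∀ a b, D (a + b) = D a + D b) ∧ ∀ a b, D (a * b) = D a * b + a * D b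

/-- `ι` identifies the field `L` with the fraction field of `RR p σ ⧸ 𝔮`. -/
structure IsFF (𝔮 : Ideal (RR p σ)) {L : Type} [Field L] (ι : RR p σ →+* L) : Prop where
  ker : ∀ F, ι F = 0 ↔ F ∈ 𝔮
  surj : ∀ x : L, ∃ N M : RR p σ, M ∉ 𝔮 ∧ x = ι N / ι M

/-- A derivation `D` of a field `E` is continuous along `ι : ℤ_p[[X_i]] → E` if the chain rule
`D (ι F) = ∑ ι (∂F/∂X_i) D (ι X_i)` holds for all power series `F`. -/
def IsCont {E : Type} [Field E] (ι : RR p σ →+* E) (D : E → E) : Prop :=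
  ∀ F : RR p σ, D (ι F) = ∑ i, ι (pderiv ℤ_[p] i F) * D (ι (X i))

/-- The logarithmic differentials of the coordinates are linearly independent over the constants. -/
def DlogIndep {L : Type} [Field L] (ι : RR p σ →+* L) : Prop :=
  ∀ D : L → L, IsDer D → IsCont ι D → (∃ x, D x ≠ 0) → ∀ c : σ → L,
    (∀ i, D (c i) = 0) → ∑ i, c i * (D (ι (X i)) / ι (X i)) = 0 → c = 0

end Pool.Agent.ZPB
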