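import Pool.Agent.ZPB.DerivExt

/-!
# Module D1c: continuity of `d/dt`, and its universal property

Let `D` be as in `exists_deriv_aux`.
Continuity: let `s = {b_1, …, b_r}` be as in `IsCurve.finite`, and `δ ∈ RR p σ \ 𝔮` with `ι δ * D (ι b_j) ∈ ι(RR)` for all
`j` (common denominator). Since `ι F = ∑ ι(subst t a_j) ι(b_j)`, `ι δ * D (ι F) ∈ ι(RR)` for all `F`. For `F` of order
`≥ n + 1` (`F = ∑_{|α| = n+1} X^α F_α`, finite sum) `ι δ * D (ι F) ∈ ι(𝔪^n)`, `𝔪 = (X_i)`, by the Leibniz rule, and the same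
for `E(F) = ∑ ι(∂F/∂X_i) D(ι X_i)`. `D ∘ ι - E` is additive, vanishes on polynomials over `ℤ_p` (Leibniz rule;
`D (ι (C a)) = 0` by `hDt` for constant `f`). So `ι δ * (D (ι F) - E(F)) ∈ ι(𝔪^n)` for all `n`, hence zero (Krull's
intersection theorem in the Noetherian local domain `RR ⧸ 𝔮`).
Universal property: `x ↦ D' (κ x)` and `x ↦ D' (κ (ι t)) * κ (D x)` are derivations along `κ`, equal on
`ι (subst t f)` by `IsCont.subst`; use `deriv_unique`.
-/

namespace Pool.Agent.ZPB

open MvPowerSeries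

variable {p : ℕ} [Fact p.Prime] {σ : Type} [Fintype σ] {L : Type} [Field L]

private lemma deriv_den {𝔮 : Ideal (RR p σ)} {ι : RR p σ →+* L} (hι : IsFF 𝔮 ι)
    (hq : 𝔮.IsPrime) (S : Finset L) :
    ∃ δ : RR p σ, δ ∉ 𝔮 ∧ ∀ y ∈ S, ∃ N, ι δ * y = ι N := by
  classical
  induction S using Finset.induction_on with
  | empty =>
    refine ⟨1, fun h => hq.ne_top ((Ideal.eq_top_iff_one 𝔮).2 h), fun y hy => ?_⟩
    exact absurd hy (Finset.notMem_empty y)
  | insert y S _ ih =>
    obtain ⟨δ, hδ, h⟩ := ih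
    obtain ⟨N, M, hM, hy⟩ := hι.surj y
    have hM0 : ι M ≠ 0 := fun h0 => hM ((hι.ker M).1 h0)
    refine ⟨δ * M, fun h0 => ?_, fun z hz => ?_⟩
    · rcases hq.mem_or_mem h0 with h1 | h1
      · exact hδ h1
      · exact hM h1
    · rcases Finset.mem_insert.1 hz with rfl | hz
      · refine ⟨δ * N, ?_⟩
        rw [hy, map_mul, map_mul, mul_assoc, mul_div_cancel₀ _ hM0]
      · obtain ⟨N', hN'⟩ := h z hz
        refine ⟨M * N', ?_⟩
        rw [map_mul, map_mul, ← hN']
        ring

private lemma deriv_decomp (F : RR p σ) :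
    ∃ G : σ → RR p σ, F = C (constantCoeff F) + ∑ i, X i * G i := by
  classical
  let P : σ → RR p σ := fun i m =>
    if h : ∃ j, m j ≠ 0 then (if h.choose = i then coeff m F else 0) else 0
  have hP : ∀ i, (X i : RR p σ) ∣ P i := by
    intro i
    rw [X_dvd_iff]
    intro m hm
    show P i m = 0
    simp only [P]
    split_ifs with h1 h2
    · exfalso
      have h3 := h1.choose_spec
      rw [h2] at h3
      exact h3 hm
    · rfl
    · rfl
  choose G hG using hP
  refine ⟨G, ?_⟩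
  have h1 : ∀ i, X i * G i = P i := fun i => (hG i).symm
  simp only [h1]
  ext m
  rw [map_add, map_sum, coeff_C]
  by_cases hm : m = 0
  · subst hm
    rw [if_pos rfl]
    have h2 : ∀ i, coeff 0 (P i) = 0 := by
      intro i
      show P i 0 = 0
      simp only [P]
      rw [dif_neg (by simp)]
    simp [h2]
  · rw [if_neg hm, zero_add]
    have hex : ∃ j, m j ≠ 0 := by
      by_contra hcon
      push Not at hcon
      exact hm (Finsupp.ext hcon)
    have h2 : ∀ i, coeff m (P i) = if hex.choose = i then coeff m F else 0 := by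
      intro i
      show P i m = _
      simp only [P]
      rw [dif_pos hex]
    simp only [h2]
    rw [Finset.sum_ite_eq]
    simp

private lemma deriv_cont {𝔮 : Ideal (RR p σ)} {t : RR p σ} (h : IsCurve 𝔮 t)
    {ι : RR p σ →+* L} (hι : IsFF 𝔮 ι) {D : L → L} (hD : IsDer D)
    (hDt : ∀ f : PowerSeries ℤ_[p], D (ι (PowerSeries.subst t f)) =
      ι (PowerSeries.subst t (PowerSeries.derivative ℤ_[p] f))) : IsCont ι D := by
  classical
  have hq : 𝔮.IsPrime := h.prime
  let Da : L →+ L := AddMonoidHom.mk' D hD.1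
  have hDa : ∀ x, D x = Da x := fun _ => rfl
  let G : RR p σ → L := fun F => D (ι F) - ∑ i, ι (pderiv ℤ_[p] i F) * D (ι (X i))
  have hGdef : ∀ F, G F = D (ι F) - ∑ i, ι (pderiv ℤ_[p] i F) * D (ι (X i)) := fun _ => rfl
  have hGadd : ∀ F H, G (F + H) = G F + G H := by
    intro F H
    simp only [hGdef, map_add, hD.1, add_mul, Finset.sum_add_distrib]
    ring
  have hGmul : ∀ F H, G (F * H) = G F * ι H + ι F * G H := by
    intro F H
    simp only [hGdef, map_mul, hD.2, Derivation.leibniz, smul_eq_mul, map_add]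
    have e : ∑ i, (ι F * ι (pderiv ℤ_[p] i H) + ι H * ι (pderiv ℤ_[p] i F)) * D (ι (X i)) =
        ι F * ∑ i, ι (pderiv ℤ_[p] i H) * D (ι (X i)) +
          (∑ i, ι (pderiv ℤ_[p] i F) * D (ι (X i))) * ι H := by
      rw [Finset.mul_sum, Finset.sum_mul, ← Finset.sum_add_distrib]
      exact Finset.sum_congr rfl fun i _ => by ring
    rw [e]
    ring
  have hGC : ∀ a : ℤ_[p], G (C a) = 0 := by
    intro a
    have h1 := hDt (PowerSeries.C a)
    rw [PowerSeries.subst_C, PowerSeries.derivative_C] at h1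
    have h2 : (PowerSeries.subst t (0 : PowerSeries ℤ_[p]) : RR p σ) = 0 := by
      rw [← sb_apply h.t0, map_zero]
    rw [h2, map_zero] at h1
    rw [hGdef, h1, zero_sub, neg_eq_zero]
    refine Finset.sum_eq_zero fun i _ => ?_
    rw [pderiv_C, map_zero, zero_mul]
  have hGX : ∀ i : σ, G (X i) = 0 := by
    intro i
    rw [hGdef, sub_eq_zero, Finset.sum_eq_single i]
    · rw [pderiv_X_self, map_one, one_mul]
    · intro j _ hj
      rw [pderiv_X_of_ne hj.symm, map_zero, zero_mul]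
    · intro hi
      exact absurd (Finset.mem_univ i) hi
  -- common denominator
  obtain ⟨s, hs⟩ := h.finite
  obtain ⟨δ, hδ, hδS⟩ := deriv_den hι hq (s.image (fun b => D (ι b)) ∪
    Finset.univ.image (fun i : σ => D (ι (X i))))
  have hδs : ∀ b ∈ s, ∃ N, ι δ * D (ι b) = ι N := fun b hb =>
    hδS _ (Finset.mem_union_left _ (Finset.mem_image_of_mem _ hb))
  have hδX : ∀ i : σ, ∃ N, ι δ * D (ι (X i)) = ι N := fun i =>
    hδS _ (Finset.mem_union_right _ (Finset.mem_image_of_mem _ (Finset.mem_univ i)))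
  have hδ0 : ι δ ≠ 0 := fun h0 => hδ ((hι.ker δ).1 h0)
  -- the subgroups of values
  let 𝔪 : Ideal (RR p σ) := Ideal.span (Set.range fun i : σ => (X i : RR p σ))
  let W : ℕ → AddSubgroup L := fun n =>
    ((𝔪 ^ n).toAddSubgroup.map ι.toAddMonoidHom).comap (AddMonoidHom.mulLeft (ι δ))
  have hW : ∀ n y, y ∈ W n ↔ ∃ N ∈ 𝔪 ^ n, ι N = ι δ * y := fun n y => Iff.rfl
  have hWmul : ∀ n F y, y ∈ W n → ι F * y ∈ W n := by
    intro n F y hy
    rw [hW] at hy ⊢
    obtain ⟨N, hN, hNy⟩ := hy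
    refine ⟨F * N, Ideal.mul_mem_left _ _ hN, ?_⟩
    rw [map_mul, hNy]
    ring
  have hWX : ∀ n (i : σ) y, y ∈ W n → ι (X i) * y ∈ W (n + 1) := by
    intro n i y hy
    rw [hW] at hy ⊢
    obtain ⟨N, hN, hNy⟩ := hy
    refine ⟨X i * N, ?_, ?_⟩
    · rw [pow_succ']
      exact Ideal.mul_mem_mul (Ideal.subset_span ⟨i, rfl⟩) hN
    · rw [map_mul, hNy]
      ring
  have hW0 : ∀ y, (∃ N, ι δ * y = ι N) → y ∈ W 0 := by
    rintro y ⟨N, hN⟩
    rw [hW]
    refine ⟨N, ?_, hN.symm⟩
    rw [pow_zero, Ideal.one_eq_top]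
    exact Submodule.mem_top
  have hbase : ∀ F, G F ∈ W 0 := by
    intro F
    rw [hGdef]
    refine AddSubgroup.sub_mem _ ?_ (AddSubgroup.sum_mem _ fun i _ => ?_)
    · obtain ⟨a, ha⟩ := hs F
      have h1 : ι F = ∑ b ∈ s, ι (PowerSeries.subst t (a b)) * ι b := by
        have h2 := (hι.ker _).2 ha
        rw [map_sub, sub_eq_zero, map_sum] at h2
        rw [h2]
        exact Finset.sum_congr rfl fun b _ => map_mul ι _ _
      rw [h1, hDa, map_sum]
      refine AddSubgroup.sum_mem _ fun b hb => ?_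
      rw [← hDa, hD.2, hDt]
      refine AddSubgroup.add_mem _ ?_ (hWmul _ _ _ (hW0 _ (hδs b hb)))
      apply hW0
      refine ⟨δ * (PowerSeries.subst t (PowerSeries.derivative ℤ_[p] (a b)) * b), ?_⟩
      rw [map_mul, map_mul]
    · exact hWmul _ _ _ (hW0 _ (hδX i))
  have hstep : ∀ n, ∀ F, G F ∈ W n := by
    intro n
    induction n with
    | zero => exact hbase
    | succ n ih =>
      intro F
      obtain ⟨H, hH⟩ := deriv_decomp F
      have hsum : ∀ S : Finset σ, G (∑ i ∈ S, X i * H i) ∈ W (n + 1) := by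
        intro S
        induction S using Finset.induction_on with
        | empty =>
          rw [Finset.sum_empty]
          have h0 : G 0 = 0 := by
            have := hGC 0
            rwa [map_zero] at this
          rw [h0]
          exact AddSubgroup.zero_mem _
        | insert i S hi ihS =>
          rw [Finset.sum_insert hi, hGadd]
          refine AddSubgroup.add_mem _ ?_ ihS
          rw [hGmul, hGX, zero_mul, zero_add]
          exact hWX n i _ (ih (H i))
      rw [hH, hGadd, hGC, zero_add]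
      exact hsum Finset.univ
  -- Krull
  have hzero : ∀ F, G F = 0 := by
    intro F
    obtain ⟨r, -, hr⟩ := (hW 0 _).1 (hstep 0 F)
    have hπ : ∀ n, Ideal.Quotient.mk 𝔮 r ∈ (𝔪.map (Ideal.Quotient.mk 𝔮)) ^ n := by
      intro n
      obtain ⟨N, hN, hNr⟩ := (hW n _).1 (hstep n F)
      have h1 : r - N ∈ 𝔮 := by
        rw [← hι.ker, map_sub, hr, hNr, sub_self]
      have h2 : Ideal.Quotient.mk 𝔮 r = Ideal.Quotient.mk 𝔮 N := by
        rw [Ideal.Quotient.eq]
        exact h1
      rw [h2, ← Ideal.map_pow]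
      exact Ideal.mem_map_of_mem _ hN
    have hdom : IsDomain (RR p σ ⧸ 𝔮) := (Ideal.Quotient.isDomain_iff_prime 𝔮).2 hq
    have hne : 𝔪.map (Ideal.Quotient.mk 𝔮) ≠ ⊤ := by
      intro htop
      have h1 : (1 : RR p σ ⧸ 𝔮) ∈ 𝔪.map (Ideal.Quotient.mk 𝔮) := by
        rw [htop]
        exact Submodule.mem_top
      obtain ⟨m, hm, hm1⟩ := (Ideal.mem_map_iff_of_surjective _
        Ideal.Quotient.mk_surjective).1 h1
      have h2 : m - 1 ∈ 𝔮 := by
        rw [← Ideal.Quotient.eq, hm1, map_one]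
      have h3 : constantCoeff m = 0 := by
        have h4 : 𝔪 ≤ RingHom.ker (constantCoeff : RR p σ →+* ℤ_[p]) := by
          rw [Ideal.span_le]
          rintro _ ⟨i, rfl⟩
          simp [RingHom.mem_ker]
        exact h4 hm
      have h5 : IsUnit (m - 1) := by
        rw [MvPowerSeries.isUnit_iff_constantCoeff, map_sub, h3, map_one, zero_sub]
        exact isUnit_one.neg
      exact hq.ne_top (Ideal.eq_top_of_isUnit_mem _ h2 h5)
    have hbot := Ideal.iInf_pow_eq_bot_of_isDomain _ hne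
    have h1 : Ideal.Quotient.mk 𝔮 r ∈ ⨅ n : ℕ, (𝔪.map (Ideal.Quotient.mk 𝔮)) ^ n := by
      rw [Ideal.mem_iInf]
      exact hπ
    rw [hbot, Ideal.mem_bot, Ideal.Quotient.eq_zero_iff_mem, ← hι.ker, hr] at h1
    rcases mul_eq_zero.1 h1 with h2 | h2
    · exact absurd h2 hδ0
    · exact h2
  intro F
  have h1 := hzero F
  rw [hGdef, sub_eq_zero] at h1
  exact h1

theorem exists_deriv {𝔮 : Ideal (RR p σ)} {t : RR p σ} (h : IsCurve 𝔮 t)
    (hinf : (zer 𝔮).Infinite) {ι : RR p σ →+* L} (hι : IsFF 𝔮 ι) :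
    ∃ D : L → L, IsDer D ∧ IsCont ι D ∧ D (ι t) = 1 ∧
      (∀ c, D c = 0 → ∃ P : Polynomial ℤ_[p], P ≠ 0 ∧ P.eval₂ (ι.comp MvPowerSeries.C) c = 0) ∧
      ∀ (E : Type) [Field E] [CharZero E] (κ : L →+* E) (D' : E → E), IsDer D' →
        IsCont (κ.comp ι) D' → ∀ x, D' (κ x) = D' (κ (ι t)) * κ (D x) := by
  obtain ⟨D, hD, hDt⟩ := exists_deriv_aux h hinf hι
  refine ⟨D, hD, deriv_cont h hι hD hDt, ?_, ?_, ?_⟩
  · have h1 := hDt PowerSeries.X
    rw [PowerSeries.derivative_X, PowerSeries.subst_X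
      (PowerSeries.HasSubst.of_constantCoeff_zero h.t0), ← sb_apply h.t0, map_one, map_one] at h1
    exact h1
  · intro c hc
    exact algebraic_of_deriv_eq_zero h hinf hι hD hDt hc
  · intro E _ _ κ D' hD' hcont x
    have h1 := deriv_unique h hinf hι κ (fun x => D' (κ x)) (fun x => D' (κ (ι t)) * κ (D x))
      ⟨fun a b => by
          show D' (κ (a + b)) = _
          rw [map_add, hD'.1],
        fun a b => by
          show D' (κ (a * b)) = _
          rw [map_mul, hD'.2]⟩
      ⟨fun a b => by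
          show D' (κ (ι t)) * κ (D (a + b)) = _
          rw [hD.1, map_add, mul_add],
        fun a b => by
          show D' (κ (ι t)) * κ (D (a * b)) = _
          rw [hD.2, map_add, map_mul, map_mul]
          ring⟩
      (fun f => by
        show D' (κ (ι (PowerSeries.subst t f))) = D' (κ (ι t)) * κ (D (ι (PowerSeries.subst t f)))
        have h2 := IsCont.subst hcont h.t0 f
        rw [RingHom.comp_apply, RingHom.comp_apply, RingHom.comp_apply] at h2
        rw [h2, hDt, mul_comm])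
    exact congrFun h1 x

end Pool.Agent.ZPB
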