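import Pool.Agent.ZPB.DiffDefs

/-!
# Module AI0: derivations, Schwarz identity, change of derivation

* Basic rules for `IsDer`.
* `schwarz_identity`: with `x = 1728 e4³/(e4³ - e6²)` one gets `D x = -x θ e6/e4`, `x - 1728 = 1728 e6²/(e4³ - e6²)`, and
  with `u = Dθ/θ`: `D(Dx)/Dx = u + θ w`, `w = e2/6 - (2/3) e6/e4 - e4²/(2 e6)`; so `schw D x = D u - u²/2 + θ (D w) - θ² w²/2`
  and `D w = θ w1` with `w1 = e2²/72 - e4/72 - e2 e6/(9 e4) + (2/3) e4 - (2/9) e6²/e4² - e2 e4²/(12 e6) - e4⁴/(4 e6²)`;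
  `w1 - w²/2 = (23/72) e4 - (4/9) e6²/e4² - (3/8) e4⁴/e6² = - SJ(x) x² e6²/e4²`. Hence
  `SS D x = SJ(x) x² θ² e6²/e4² + D u - u²/2 + θ² (w1 - w²/2) = D u - u²/2`. All steps `field_simp; ring`.
* `SS_change`: if `D' = D/f` (`f ≠ 0`) then `SS D' x = (SS D x - sc D f)/f²`.
* `R1_change`: with `S_i' = (S_i - sc D f)/f²`, `R1 D' S'` iff `R1 D S`. (`B' = B/f²`,
  `D'B'/B' = (DB/B - 2 Df/f)/f`; the right side becomes `(RHS - sc D f)/f²`.)
-/

namespace Pool.Agent.ZPB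

variable {E : Type} [Field E]

theorem IsDer.zero {D : E → E} (h : IsDer D) : D 0 = 0 := by
  have h1 := h.1 0 0
  rw [add_zero] at h1
  exact left_eq_add.mp h1

theorem IsDer.one {D : E → E} (h : IsDer D) : D 1 = 0 := by
  have h1 := h.2 1 1
  rw [mul_one, mul_one, one_mul] at h1
  exact left_eq_add.mp h1

theorem IsDer.neg {D : E → E} (h : IsDer D) (a : E) : D (-a) = -D a := by
  have h1 := h.1 a (-a)
  rw [add_neg_cancel, h.zero] at h1
  linear_combination -h1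

theorem IsDer.sub {D : E → E} (h : IsDer D) (a b : E) : D (a - b) = D a - D b := by
  rw [sub_eq_add_neg, h.1, h.neg, sub_eq_add_neg]

theorem IsDer.natCast {D : E → E} (h : IsDer D) (n : ℕ) : D (n : E) = 0 := by
  induction n with
  | zero => rw [Nat.cast_zero]; exact h.zero
  | succ n ih => rw [Nat.cast_succ, h.1, ih, h.one, add_zero]

theorem IsDer.div {D : E → E} (h : IsDer D) (a : E) {b : E} (hb : b ≠ 0) :
    D (a / b) = (D a * b - a * D b) / b ^ 2 := by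
  have h1 := h.2 (a / b) b
  rw [div_mul_cancel₀ _ hb] at h1
  rw [h1]
  field_simp
  ring

theorem IsDer.pow {D : E → E} (h : IsDer D) (a : E) (n : ℕ) : D (a ^ (n + 1)) = (n + 1) * a ^ n * D a := by
  induction n with
  | zero => simp
  | succ n ih =>
    rw [pow_succ a (n + 1), h.2, ih]
    push_cast
    ring

/-- dividing a derivation by an element -/
theorem IsDer.divBy {D : E → E} (h : IsDer D) (f : E) : IsDer (fun x => D x / f) := by
  refine ⟨fun a b => ?_, fun a b => ?_⟩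
  · show D (a + b) / f = D a / f + D b / f
    rw [h.1, add_div]
  · show D (a * b) / f = D a / f * b + a * (D b / f)
    rw [h.2]
    ring

theorem schwarz_identity [CharZero E] {D : E → E} (hD : IsDer D) {e2 e4 e6 θ : E} (hθ : θ ≠ 0)
    (h4 : e4 ≠ 0) (h6 : e6 ≠ 0) (hΔ : e4 ^ 3 ≠ e6 ^ 2) (d2 : D e2 = θ * (e2 ^ 2 - e4) / 12)
    (d4 : D e4 = θ * (e2 * e4 - e6) / 3) (d6 : D e6 = θ * (e2 * e6 - e4 ^ 2) / 2) {x : E}
    (hx : x = 1728 * e4 ^ 3 / (e4 ^ 3 - e6 ^ 2)) :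
    D x = -x * θ * e6 / e4 ∧ D x ≠ 0 ∧ D (D θ / θ) = (D θ / θ) ^ 2 / 2 + SS D x := by
  have hΔ' : e4 ^ 3 - e6 ^ 2 ≠ 0 := sub_ne_zero.mpr hΔ
  have h1728 : D (1728 : E) = 0 := by
    have h1 := hD.natCast 1728
    rwa [Nat.cast_ofNat] at h1
  have hx0 : x ≠ 0 := by
    rw [hx]
    have h1 : (1728 : E) ≠ 0 := by norm_num
    exact div_ne_zero (mul_ne_zero h1 (pow_ne_zero 3 h4)) hΔ'
  have p4 : D (e4 ^ 3) = 3 * e4 ^ 2 * D e4 := by
    have h1 := hD.pow e4 2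
    rw [h1]; push_cast; ring
  have p6 : D (e6 ^ 2) = 2 * e6 * D e6 := by
    have h1 := hD.pow e6 1
    rw [h1]; push_cast; ring
  have hDx : D x = -x * θ * e6 / e4 := by
    rw [hx, hD.div _ hΔ', hD.2, hD.sub, p4, p6, h1728, d4, d6]
    field_simp
    ring
  have hDx0 : D x ≠ 0 := by
    rw [hDx]
    exact div_ne_zero (mul_ne_zero (mul_ne_zero (neg_ne_zero.mpr hx0) hθ) h6) h4
  refine ⟨hDx, hDx0, ?_⟩
  -- the logarithmic derivative of `D x`
  have hv : D (D x) / D x = D θ / θ + θ * (e2 / 6 - 2 / 3 * (e6 / e4) - e4 ^ 2 / e6 / 2) := by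
    have e1 : D (D x) = (D (-x * θ * e6) * e4 - (-x * θ * e6) * D e4) / e4 ^ 2 := by
      conv_lhs => rw [hDx]
      rw [hD.div _ h4]
    have e2' : D (-x * θ * e6) = -(D x) * θ * e6 + (-x) * D θ * e6 + (-x) * θ * D e6 := by
      rw [hD.2, hD.2, hD.neg]
      ring
    rw [e1, e2', hDx, d4, d6]
    field_simp
    ring
  have hw : D (e2 / 6 - 2 / 3 * (e6 / e4) - e4 ^ 2 / e6 / 2) =
      θ * (e2 ^ 2 / 72 - e4 / 72 - e2 * e6 / (9 * e4) + 2 / 3 * e4 - 2 / 9 * (e6 ^ 2 / e4 ^ 2)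
        - e2 * e4 ^ 2 / (12 * e6) - e4 ^ 4 / (4 * e6 ^ 2)) := by
    have h6' : (6 : E) ≠ 0 := by norm_num
    have h2' : (2 : E) ≠ 0 := by norm_num
    have h3' : (3 : E) ≠ 0 := by norm_num
    have c6 : D (6 : E) = 0 := by
      have h1 := hD.natCast 6
      rwa [Nat.cast_ofNat] at h1
    have c2 : D (2 : E) = 0 := by
      have h1 := hD.natCast 2
      rwa [Nat.cast_ofNat] at h1
    have c3 : D (3 : E) = 0 := by
      have h1 := hD.natCast 3
      rwa [Nat.cast_ofNat] at h1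
    have q4 : D (e4 ^ 2) = 2 * e4 * D e4 := by
      have h1 := hD.pow e4 1
      rw [h1]; push_cast; ring
    rw [hD.sub, hD.sub, hD.div _ h6', hD.2, hD.div _ h3', hD.div _ h4, hD.div _ h2', hD.div _ h6,
      c6, c2, c3, q4, d2, d4, d6]
    field_simp
    ring
  have hxm : x - 1728 = 1728 * e6 ^ 2 / (e4 ^ 3 - e6 ^ 2) := by
    rw [hx]; field_simp; ring
  have hSJ : SJ x * (D x) ^ 2 = θ ^ 2 * (4 / 9 * (e6 ^ 2 / e4 ^ 2) + 3 / 8 * (e4 ^ 4 / e6 ^ 2)
      - 23 / 72 * e4) := by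
    unfold SJ
    rw [hDx, hxm, hx]
    field_simp
  have hu : D θ = D θ / θ * θ := by field_simp
  show D (D θ / θ) = (D θ / θ) ^ 2 / 2 + (SJ x * (D x) ^ 2 + (D (D (D x) / D x)
    - (D (D x) / D x) ^ 2 / 2))
  rw [hSJ, hv, hD.1, hD.2 θ, hw]
  generalize D (D θ / θ) = du
  have hu' : D θ = D θ / θ * θ := by field_simp
  generalize D θ / θ = u at hu' ⊢
  rw [hu']
  field_simp
  ring

theorem SS_change [CharZero E] {D : E → E} (hD : IsDer D) {f : E} (hf : f ≠ 0) {x : E}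
    (hx : D x ≠ 0) : SS (fun y => D y / f) x = (SS D x - sc D f) / f ^ 2 := by
  have h1 : D (D x / f) / f / (D x / f) = (D (D x) / D x - D f / f) / f := by
    rw [hD.div _ hf]
    field_simp
  show SJ x * (D x / f) ^ 2 + (D (D (D x / f) / f / (D x / f)) / f
    - (D (D x / f) / f / (D x / f)) ^ 2 / 2) =
    (SJ x * (D x) ^ 2 + (D (D (D x) / D x) - (D (D x) / D x) ^ 2 / 2)
      - (D (D f / f) - (D f / f) ^ 2 / 2)) / f ^ 2
  rw [h1, hD.div _ hf, hD.sub]
  have hg : D f = D f / f * f := by field_simp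
  generalize D (D (D x) / D x) = dv
  generalize D (D x) / D x = v
  generalize D (D f / f) = dg
  generalize D f / f = g at hg ⊢
  rw [hg]
  field_simp
  ring

theorem R1_change [CharZero E] {D : E → E} (hD : IsDer D) {f : E} (hf : f ≠ 0) {S0 S1 S2 : E}
    (hB : S1 ≠ S2) : R1 (fun y => D y / f) ((S0 - sc D f) / f ^ 2) ((S1 - sc D f) / f ^ 2)
      ((S2 - sc D f) / f ^ 2) ↔ R1 D S0 S1 S2 := by
  have hB' : S1 - S2 ≠ 0 := sub_ne_zero.mpr hB
  have hB1 : (S1 - sc D f) / f ^ 2 - (S2 - sc D f) / f ^ 2 = (S1 - S2) / f ^ 2 := by ring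
  have hf2 : f ^ 2 ≠ 0 := pow_ne_zero 2 hf
  have pf : D (f ^ 2) = 2 * f * D f := by
    have h1 := hD.pow f 1
    rw [h1]; push_cast; ring
  have h1 : D ((S1 - S2) / f ^ 2) / f / ((S1 - S2) / f ^ 2) =
      (D (S1 - S2) / (S1 - S2) - 2 * (D f / f)) / f := by
    rw [hD.div _ hf2, pf]
    field_simp
  have c2 : D (2 : E) = 0 := by
    have h1 := hD.natCast 2
    rwa [Nat.cast_ofNat] at h1
  have h2 : D ((D (S1 - S2) / (S1 - S2) - 2 * (D f / f)) / f) / f =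
      ((D (D (S1 - S2) / (S1 - S2)) - 2 * D (D f / f)) -
        (D (S1 - S2) / (S1 - S2) - 2 * (D f / f)) * (D f / f)) / f ^ 2 := by
    rw [hD.div _ hf, hD.sub, hD.2 2, c2]
    field_simp
    ring
  unfold R1
  simp only [hB1, h1, h2]
  unfold sc
  generalize D (D (S1 - S2) / (S1 - S2)) = db
  generalize D (S1 - S2) / (S1 - S2) = b
  generalize D (D f / f) = dg
  generalize D f / f = g
  constructor
  · intro h
    field_simp at h
    linear_combination (1 / 48 : E) * h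
  · intro h
    field_simp
    linear_combination (48 : E) * h

end Pool.Agent.ZPB
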