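import Pool.Agent.ZPB.Defs

/-!
# Differential algebra: definitions

For a derivation `D` of a field: `sc D f = D(Df/f) - (Df/f)²/2`, `schw D x = sc D (D x)` (Schwarzian derivative), and
`SS D x = SJ(x) (D x)² + {x}_D`, where `SJ` is the potential of the differential equation of the modular invariant.
-/

namespace Pool.Agent.ZPB

variable {E : Type} [Field E]

/-- `D(Df/f) - (Df/f)²/2` -/
def sc (D : E → E) (f : E) : E := D (D f / f) - (D f / f) ^ 2 / 2

/-- the Schwarzian derivative -/
def schw (D : E → E) (x : E) : E := sc D (D x)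

/-- the potential of the differential equation of `j` -/
def SJ (x : E) : E := 4 / (9 * x ^ 2) + 3 / (8 * (x - 1728) ^ 2) - 23 / (72 * (x * (x - 1728)))

/-- the transformed potential -/
def SS (D : E → E) (x : E) : E := SJ x * (D x) ^ 2 + schw D x

/-- the relation `(5 S0 - S1 - S2)/3 = (B'/B)'/2 - (B'/B)²/8`, `B = S1 - S2` -/
def R1 (D : E → E) (S0 S1 S2 : E) : Prop :=
  (5 * S0 - S1 - S2) / 3 = D (D (S1 - S2) / (S1 - S2)) / 2 - (D (S1 - S2) / (S1 - S2)) ^ 2 / 8

end Pool.Agent.ZPB
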