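import Mathlib

/-!
# Module AI3: Eisenstein series as integral power series, Ramanujan identities

`E2z = 1 - 24 ∑ σ_1(n) X^n`, `E4z = 1 + 240 ∑ σ_3(n) X^n`, `E6z = 1 - 504 ∑ σ_5(n) X^n` in `ℤ[[X]]`, `th f = X f'`.

Ramanujan identities. For the modular forms `E₄, E₆` and `E2` of Mathlib and `D = (2πi)⁻¹ d/dτ`:
`serreDerivative 4 E₄ = D E₄ - E2 E₄/3` is modular of weight 6 and level one (`serreDerivative_slash_invariant`, holomorphic,
bounded at `i∞`), so a multiple of `E₆` (`M_6` is one-dimensional, Mathlib `LevelOne/DimensionFormula`), and the constant term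
is `-1/3`. Similarly `D E₆ - E2 E₆/2 = -E₄²/2` (`M_8` is one-dimensional) and `D E2 - E2²/12 = -E₄/12` (the function
`D E2 - E2²/12` is modular of weight 4: from `E2_slash_action` compute the slash of `D E2`, or: it is invariant under
`T` and `S` directly). The `q`-expansions: `D` multiplies the coefficient of `q^n` by `n`; uniqueness of power series
expansions in the disc gives the identities in `ℂ[[X]]`, hence in `ℤ[[X]]`.
(See `Pool/Agent/Hhelper14/ZP/JFun.lean`, `c4_coeff`, `c6_coeff`, for the expansions of `E₄`, `E₆`, and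
`EisensteinSeries.hasSum_qExpansion_E2`.)

`Dz`: `1728 Dz = E4z³ - E6z²` (the congruence `5 σ_3(n) + 7 σ_5(n) ≡ 0 mod 12`, `twelve_dvd` in `JFun.lean`), constant
coefficient `0`, coefficient of `X` equal to `1`.
-/

namespace Pool.Agent.ZPB

open PowerSeries
open scoped Manifold MatrixGroups ModularForm

/-- `E_2` -/
noncomputable def E2z : PowerSeries ℤ :=
  PowerSeries.mk fun n => if n = 0 then 1 else -24 * (ArithmeticFunction.sigma 1 n : ℤ)

/-- `E_4` -/
noncomputable def E4z : PowerSeries ℤ :=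
  PowerSeries.mk fun n => if n = 0 then 1 else 240 * (ArithmeticFunction.sigma 3 n : ℤ)

/-- `E_6` -/
noncomputable def E6z : PowerSeries ℤ :=
  PowerSeries.mk fun n => if n = 0 then 1 else -504 * (ArithmeticFunction.sigma 5 n : ℤ)

/-- the derivation `X d/dX` -/
noncomputable def th {A : Type} [CommRing A] (f : PowerSeries A) : PowerSeries A :=
  PowerSeries.X * PowerSeries.derivative A f

namespace Eis

open UpperHalfPlane (upperHalfPlaneSet ofComplex IsBoundedAtImInfty)

/-- the parameter `q` -/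
noncomputable def qq (z : ℂ) : ℂ := Function.Periodic.qParam 1 z

/-- `F` has the expansion `f` in powers of `q` -/
def HQ (F : UpperHalfPlane → ℂ) (f : PowerSeries ℂ) : Prop :=
  ∀ τ : UpperHalfPlane, HasSum (fun n : ℕ => coeff n f • qq τ ^ n) (F τ)

variable {F G : UpperHalfPlane → ℂ} {f g : PowerSeries ℂ}

lemma HQ.add (hF : HQ F f) (hG : HQ G g) : HQ (F + G) (f + g) := by
  intro τ
  refine ((hF τ).add (hG τ)).congr_fun ?_
  intro n
  simp [add_mul]

lemma HQ.smul (c : ℂ) (hF : HQ F f) : HQ (c • F) (c • f) := by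
  intro τ
  refine ((hF τ).mul_left c).congr_fun ?_
  intro n
  simp [mul_assoc]

lemma HQ.mul (hF : HQ F f) (hG : HQ G g) : HQ (F * G) (f * g) := by
  intro τ
  have h1 := (hF τ).summable.norm
  have h2 := (hG τ).summable.norm
  have h3 := summable_norm_sum_mul_antidiagonal_of_summable_norm h1 h2
  have h4 := tsum_mul_tsum_eq_tsum_sum_antidiagonal_of_summable_norm h1 h2
  rw [(hF τ).tsum_eq, (hG τ).tsum_eq] at h4
  have h5 := h3.of_norm.hasSum
  rw [← h4] at h5
  refine h5.congr_fun ?_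
  intro n
  rw [coeff_mul, Finset.sum_smul]
  refine Finset.sum_congr rfl fun p hp => ?_
  rw [← Finset.HasAntidiagonal.mem_antidiagonal.1 hp, pow_add]
  simp only [smul_eq_mul]
  ring

lemma coeff_th {A : Type} [CommRing A] (f : PowerSeries A) (n : ℕ) :
    coeff n (th f) = n * coeff n f := by
  unfold th
  cases n with
  | zero => simp
  | succ n =>
    rw [coeff_succ_X_mul]
    simp [PowerSeries.coeff_derivative, mul_comm]

lemma norm_qq (z : ℂ) : ‖qq z‖ = Real.exp (-2 * Real.pi * z.im) := by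
  rw [qq, Function.Periodic.norm_qParam, div_one]

lemma hasDerivAt_qq (z : ℂ) : HasDerivAt qq (2 * Real.pi * Complex.I * qq z) z := by
  have h1 : HasDerivAt (fun w : ℂ => 2 * Real.pi * Complex.I * w / ((1 : ℝ) : ℂ))
      (2 * Real.pi * Complex.I) z := by
    simpa using (hasDerivAt_id z).const_mul (2 * Real.pi * Complex.I)
  have h2 := h1.cexp
  have e : 2 * Real.pi * Complex.I * qq z =
      Complex.exp (2 * Real.pi * Complex.I * z / ((1 : ℝ) : ℂ)) * (2 * Real.pi * Complex.I) :=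
    mul_comm _ _
  rw [e]
  exact h2

lemma HQ.D (hF : HQ F f) : HQ (Derivative.normalizedDerivOfComplex F) (th f) := by
  intro τ
  have hτ : 0 < τ.im := τ.im_pos
  obtain ⟨y, hy0, hyτ⟩ := exists_between hτ
  let τ0 : UpperHalfPlane := ⟨Complex.I * y, by simpa using hy0⟩
  have hτ0 : (τ0 : ℂ).im = y := by
    show (Complex.I * y).im = y
    simp
  have hU : IsOpen {z : ℂ | y < z.im} := isOpen_lt continuous_const Complex.continuous_im
  have hsum := (hF τ0).summable.norm
  have hle : ∀ (n : ℕ) (w : ℂ), w ∈ {z : ℂ | y < z.im} →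
      ‖coeff n f • qq w ^ n‖ ≤ ‖coeff n f • qq τ0 ^ n‖ := by
    intro n w hw
    have hw' : y < w.im := hw
    rw [norm_smul, norm_smul, norm_pow, norm_pow, norm_qq, norm_qq, hτ0]
    have hpi := Real.pi_pos
    refine mul_le_mul_of_nonneg_left (pow_le_pow_left₀ (Real.exp_pos _).le
      (Real.exp_le_exp.2 ?_) n) (norm_nonneg _)
    nlinarith
  have hder : ∀ (n : ℕ) (w : ℂ), HasDerivAt (fun w => coeff n f • qq w ^ n)
      (2 * Real.pi * Complex.I * (coeff n (th f) • qq w ^ n)) w := by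
    intro n w
    have h1 := ((hasDerivAt_qq w).pow n).const_smul (coeff n f)
    have e : coeff n f • (n * qq w ^ (n - 1) * (2 * Real.pi * Complex.I * qq w)) =
        2 * Real.pi * Complex.I * (coeff n (th f) • qq w ^ n) := by
      rw [coeff_th]
      cases n with
      | zero => simp
      | succ n =>
        simp only [smul_eq_mul, Nat.add_sub_cancel]
        rw [pow_succ]
        ring
    rw [← e]
    exact h1
  have hmem : (τ : ℂ) ∈ {z : ℂ | y < z.im} := hyτ
  have h1 := Complex.hasSum_deriv_of_summable_norm hsum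
    (fun n w _ => ((hder n w).differentiableAt).differentiableWithinAt) hU hle hmem
  simp only [fun n => (hder n (τ : ℂ)).deriv] at h1
  have h3 : deriv (F ∘ ofComplex) τ = deriv (fun w : ℂ => ∑' n : ℕ, coeff n f • qq w ^ n) τ := by
    apply Filter.EventuallyEq.deriv_eq
    filter_upwards [hU.mem_nhds hmem] with w hw
    have hw' : 0 < w.im := lt_trans hy0 hw
    have h4 := (hF ⟨w, hw'⟩).tsum_eq
    rw [Function.comp_apply, UpperHalfPlane.ofComplex_apply_of_im_pos hw', ← h4]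
  rw [← h3] at h1
  have h5 := h1.mul_left (2 * Real.pi * Complex.I)⁻¹
  have hne : (2 * Real.pi * Complex.I : ℂ) ≠ 0 := Complex.two_pi_I_ne_zero
  have e : Derivative.normalizedDerivOfComplex F τ =
    (2 * Real.pi * Complex.I)⁻¹ * deriv (F ∘ ofComplex) τ := rfl
  rw [e]
  refine h5.congr_fun ?_
  intro n
  rw [inv_mul_cancel_left₀ hne]

lemma HQ.bdd (hF : HQ F f) : IsBoundedAtImInfty F :=
  UpperHalfPlane.isBoundedAtImInfty_of_hasSum_qExpansion one_pos hF

/-- modular forms of level one -/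
noncomputable def mkForm (k : ℤ) (F : UpperHalfPlane → ℂ)
    (hS : ∀ γ : SL(2, ℤ), F ∣[k] γ = F) (hD : MDiff F) (hb : IsBoundedAtImInfty F) :
    ModularForm 𝒮ℒ k where
  toFun := F
  slash_action_eq' := fun _ ⟨γ, hγ⟩ ↦ hγ ▸ hS γ
  holo' := hD
  bdd_at_cusps' {c} hc := by
    rw [Subgroup.IsArithmetic.isCusp_iff_isCusp_SL2Z] at hc
    rw [OnePoint.isBoundedAt_iff_forall_SL2Z hc]
    intro γ _
    rw [hS γ]
    exact hb

theorem key {k : ℕ} (hk : k < 12) (hS : ∀ γ : SL(2, ℤ), F ∣[(k : ℤ)] γ = F) (hD : MDiff F)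
    (hF : HQ F f) (h0 : coeff 0 f = 0) : f = 0 := by
  have h2 : f = UpperHalfPlane.qExpansion 1 (mkForm k F hS hD hF.bdd) := by
    ext m
    exact ModularFormClass.qExpansion_coeff_unique (f := mkForm k F hS hD hF.bdd) one_pos
      one_mem_strictPeriods_SL hF m
  have h3 : mkForm k F hS hD hF.bdd = 0 := by
    apply ModularForm.sturm_bound_levelOne_nat
    rw [← h2]
    have h4 : k / 12 = 0 := Nat.div_eq_of_lt hk
    rw [h4]
    have h5 : ((1 : ℕ) : ℕ∞) ≤ f.order := by
      apply PowerSeries.nat_le_order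
      intro i hi
      interval_cases i
      exact h0
    refine lt_of_lt_of_le ?_ h5
    norm_num
  rw [h2, h3]
  exact UpperHalfPlane.qExpansion_zero 1

/-- the coefficients in `ℂ` -/
noncomputable def toC : PowerSeries ℤ →+* PowerSeries ℂ := PowerSeries.map (Int.castRingHom ℂ)

lemma hq_form {k : ℤ} (φ : ModularForm 𝒮ℒ k) : HQ φ (UpperHalfPlane.qExpansion 1 φ) := by
  intro τ
  have : Fact (IsCusp OnePoint.infty 𝒮ℒ) :=
    ⟨(𝒮ℒ).isCusp_of_mem_strictPeriods one_pos one_mem_strictPeriods_SL⟩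
  exact UpperHalfPlane.hasSum_qExpansion one_pos
    (SlashInvariantFormClass.periodic_comp_ofComplex φ one_mem_strictPeriods_SL)
    (ModularFormClass.holo φ) (ModularFormClass.bdd_at_infty φ) τ

lemma hq4 : HQ ModularForm.E₄ (toC E4z) := by
  have h : UpperHalfPlane.qExpansion 1 ModularForm.E₄ = toC E4z := by
    ext n
    rw [toC, coeff_map, E4z, coeff_mk]
    have := EisensteinSeries.E_qExpansion_coeff (k := 4) (by norm_num) ⟨2, rfl⟩ n
    rw [this, show bernoulli 4 = -1 / 30 by decide +kernel]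
    split_ifs <;> norm_num
  rw [← h]
  exact hq_form _

lemma hq6 : HQ ModularForm.E₆ (toC E6z) := by
  have h : UpperHalfPlane.qExpansion 1 ModularForm.E₆ = toC E6z := by
    ext n
    rw [toC, coeff_map, E6z, coeff_mk]
    have := EisensteinSeries.E_qExpansion_coeff (k := 6) (by norm_num) ⟨3, rfl⟩ n
    rw [this, show bernoulli 6 = 1 / 42 by decide +kernel]
    split_ifs <;> norm_num
  rw [← h]
  exact hq_form _

lemma hq2 : HQ EisensteinSeries.E2 (toC E2z) := by
  intro τ
  refine (EisensteinSeries.hasSum_qExpansion_E2 (z := τ)).congr_fun fun n => ?_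
  rw [toC, coeff_map, E2z, coeff_mk]
  congr 1
  · split_ifs <;> simp
  · simp [qq, Function.Periodic.qParam]

lemma slash_form {k : ℤ} (φ : ModularForm 𝒮ℒ k) (γ : SL(2, ℤ)) : (φ : UpperHalfPlane → ℂ) ∣[k] γ = φ := by
  rw [ModularForm.SL_slash]
  exact SlashInvariantForm.slash_action_eqn φ _ ⟨γ, rfl⟩


lemma toC_th (f : PowerSeries ℤ) : toC (th f) = th (toC f) := by
  ext n
  rw [coeff_th, toC, coeff_map, coeff_map, coeff_th]
  simp

lemma toC_injective : Function.Injective toC :=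
  PowerSeries.map_injective _ Int.cast_injective

lemma serre_eq (k : ℂ) (F : UpperHalfPlane → ℂ) : Derivative.serreDerivative k F =
    Derivative.normalizedDerivOfComplex F + (-(k * 12⁻¹)) • (EisensteinSeries.E2 * F) := by
  ext z
  simp only [Derivative.serreDerivative_apply, Pi.add_apply, Pi.smul_apply, Pi.mul_apply,
    smul_eq_mul]
  ring

lemma add_slash' (k : ℤ) (γ : SL(2, ℤ)) (F G : UpperHalfPlane → ℂ) :
    (F + G) ∣[k] γ = F ∣[k] γ + G ∣[k] γ := SlashAction.add_slash k γ F G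

lemma coeff0 : coeff 0 (toC E2z) = 1 ∧ coeff 0 (toC E4z) = 1 ∧ coeff 0 (toC E6z) = 1 := by
  refine ⟨?_, ?_, ?_⟩ <;> rw [toC, coeff_map] <;> simp [E2z, E4z, E6z]


lemma coeff_zero_mul' (f g : PowerSeries ℂ) : coeff 0 (f * g) = coeff 0 f * coeff 0 g := by
  rw [coeff_zero_eq_constantCoeff, map_mul]


lemma smul_ofNat' (n : ℕ) [n.AtLeastTwo] (f : PowerSeries ℂ) :
    (OfNat.ofNat n : ℂ) • f = OfNat.ofNat n * f := by
  rw [PowerSeries.smul_eq_C_mul, map_ofNat]

theorem rama4 : 3 * th E4z = E2z * E4z - E6z := by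
  have hD4 : MDiff (ModularForm.E₄ : UpperHalfPlane → ℂ) := ModularFormClass.holo ModularForm.E₄
  have hD6 : MDiff (ModularForm.E₆ : UpperHalfPlane → ℂ) := ModularFormClass.holo ModularForm.E₆
  have h1 : HQ (Derivative.serreDerivative ((4 : ℤ) : ℂ) ModularForm.E₄ +
      (1 / 3 : ℂ) • (ModularForm.E₆ : UpperHalfPlane → ℂ))
      (th (toC E4z) + (-(((4 : ℤ) : ℂ) * 12⁻¹)) • (toC E2z * toC E4z) +
        (1 / 3 : ℂ) • toC E6z) := by
    rw [serre_eq]
    exact (hq4.D.add ((hq2.mul hq4).smul _)).add (hq6.smul _)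
  have h2 := key (k := 6) (by norm_num) (fun γ => ?_) ?_ h1 ?_
  · apply toC_injective
    rw [map_mul, map_sub, map_mul, toC_th, map_ofNat]
    have h3 : (3 : ℂ) • (th (toC E4z) + (-(((4 : ℤ) : ℂ) * 12⁻¹)) • (toC E2z * toC E4z) +
        (1 / 3 : ℂ) • toC E6z) = 0 := by rw [h2, smul_zero]
    rw [smul_add, smul_add, smul_smul, smul_smul] at h3
    norm_num at h3
    have h4 : (3 : ℂ) • th (toC E4z) = 3 * th (toC E4z) := smul_ofNat' 3 _
    rw [h4] at h3
    linear_combination h3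
  · have h3 := Derivative.serreDerivative_slash_invariant hD4 (slash_form ModularForm.E₄ γ)
    rw [add_slash', ModularForm.SL_smul_slash]
    have h4 := slash_form ModularForm.E₆ γ
    exact congrArg₂ (· + ·) h3 (congrArg _ h4)
  · exact (Derivative.serreDerivative_mdifferentiable _ hD4).add (hD6.const_smul _)
  · obtain ⟨c2, c4, c6⟩ := coeff0
    rw [map_add, map_add, coeff_th, coeff_smul, coeff_smul, coeff_zero_mul', c2, c4, c6]
    norm_num

theorem rama6 : 2 * th E6z = E2z * E6z - E4z ^ 2 := by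
  have hD4 : MDiff (ModularForm.E₄ : UpperHalfPlane → ℂ) := ModularFormClass.holo ModularForm.E₄
  have hD6 : MDiff (ModularForm.E₆ : UpperHalfPlane → ℂ) := ModularFormClass.holo ModularForm.E₆
  have h1 : HQ (Derivative.serreDerivative ((6 : ℤ) : ℂ) ModularForm.E₆ +
      (1 / 2 : ℂ) • ((ModularForm.E₄ : UpperHalfPlane → ℂ) * (ModularForm.E₄ : UpperHalfPlane → ℂ)))
      (th (toC E6z) + (-(((6 : ℤ) : ℂ) * 12⁻¹)) • (toC E2z * toC E6z) +
        (1 / 2 : ℂ) • (toC E4z * toC E4z)) := by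
    rw [serre_eq]
    exact (hq6.D.add ((hq2.mul hq6).smul _)).add ((hq4.mul hq4).smul _)
  have h2 := key (k := 8) (by norm_num) (fun γ => ?_) ?_ h1 ?_
  · apply toC_injective
    rw [map_mul, map_sub, map_mul, toC_th, map_ofNat, map_pow]
    have h3 : (2 : ℂ) • (th (toC E6z) + (-(((6 : ℤ) : ℂ) * 12⁻¹)) • (toC E2z * toC E6z) +
        (1 / 2 : ℂ) • (toC E4z * toC E4z)) = 0 := by rw [h2, smul_zero]
    rw [smul_add, smul_add, smul_smul, smul_smul] at h3
    norm_num at h3
    have h4 : (2 : ℂ) • th (toC E6z) = 2 * th (toC E6z) := smul_ofNat' 2 _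
    rw [h4] at h3
    linear_combination h3
  · have h3 := Derivative.serreDerivative_slash_invariant hD6 (slash_form ModularForm.E₆ γ)
    rw [add_slash', ModularForm.SL_smul_slash]
    have h4 := slash_form ModularForm.E₄ γ
    have h5 := ModularForm.mul_slash_SL2 4 4 γ (ModularForm.E₄ : UpperHalfPlane → ℂ)
      (ModularForm.E₄ : UpperHalfPlane → ℂ)
    rw [h4] at h5
    exact congrArg₂ (· + ·) h3 (congrArg _ h5)
  · exact (Derivative.serreDerivative_mdifferentiable _ hD6).add ((hD4.mul hD4).const_smul _)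
  · obtain ⟨c2, c4, c6⟩ := coeff0
    rw [map_add, map_add, coeff_th, coeff_smul, coeff_smul, coeff_zero_mul', coeff_zero_mul',
      c2, c4, c6]
    norm_num


/-- `c / (c z + d)` -/
noncomputable def uu (γ : SL(2, ℤ)) (z : UpperHalfPlane) : ℂ := (γ 1 0 : ℂ) / UpperHalfPlane.denom γ z

lemma uu_hasDerivAt (γ : SL(2, ℤ)) (z : UpperHalfPlane) :
    HasDerivAt (uu γ ∘ ofComplex) (-(uu γ z) ^ 2) z := by
  have h1 := UpperHalfPlane.hasDerivAt_denom_zpow (γ : GL (Fin 2) ℝ) (-1) z
  have h2 := h1.const_mul (γ 1 0 : ℂ)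
  have hz := UpperHalfPlane.denom_ne_zero (γ : GL (Fin 2) ℝ) z
  have e : uu γ ∘ ofComplex =ᶠ[nhds (z : ℂ)]
      fun w => (γ 1 0 : ℂ) * UpperHalfPlane.denom (γ : GL (Fin 2) ℝ) w ^ (-1 : ℤ) := by
    filter_upwards [UpperHalfPlane.isOpen_upperHalfPlaneSet.mem_nhds z.im_pos] with w hw
    rw [Function.comp_apply, UpperHalfPlane.ofComplex_apply_of_im_pos hw, uu, zpow_neg_one,
      div_eq_mul_inv]
  refine (h2.congr_of_eventuallyEq e).congr_deriv ?_
  rw [uu]
  have e1 : ((-1 : ℤ) : ℂ) = -1 := by norm_num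
  rw [e1, show (-1 - 1 : ℤ) = -2 by norm_num, zpow_neg, show (2 : ℤ) = ((2 : ℕ) : ℤ) by norm_num,
    zpow_natCast]
  have e2 : (((γ : GL (Fin 2) ℝ) 1 0 : ℝ) : ℂ) = (γ 1 0 : ℂ) := by simp
  rw [e2]
  field_simp

lemma uu_mdiff (γ : SL(2, ℤ)) : MDiff (uu γ) := by
  intro z
  rw [UpperHalfPlane.mdifferentiableAt_iff]
  exact (uu_hasDerivAt γ z).differentiableAt

lemma uu_D (γ : SL(2, ℤ)) (z : UpperHalfPlane) :
    Derivative.normalizedDerivOfComplex (uu γ) z = (2 * Real.pi * Complex.I)⁻¹ * (-(uu γ z) ^ 2) := by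
  have e : Derivative.normalizedDerivOfComplex (uu γ) z =
    (2 * Real.pi * Complex.I)⁻¹ * deriv (uu γ ∘ ofComplex) z := rfl
  rw [e, (uu_hasDerivAt γ z).deriv]

lemma E2_slash' (γ : SL(2, ℤ)) : EisensteinSeries.E2 ∣[(2 : ℤ)] γ =
    EisensteinSeries.E2 + (-(6 * Complex.I / Real.pi)) • uu γ := by
  rw [EisensteinSeries.E2_slash_action]
  ext z
  have hpi : (Real.pi : ℂ) ≠ 0 := Complex.ofReal_ne_zero.2 Real.pi_ne_zero
  simp only [Pi.sub_apply, Pi.add_apply, Pi.smul_apply, smul_eq_mul, EisensteinSeries.D2, uu,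
    riemannZeta_two]
  have hz := UpperHalfPlane.denom_ne_zero (γ : GL (Fin 2) ℝ) z
  field_simp
  ring

theorem rama2 : 12 * th E2z = E2z ^ 2 - E4z := by
  have hD2 : MDiff EisensteinSeries.E2 := E2_mdifferentiable
  have hD4 : MDiff (ModularForm.E₄ : UpperHalfPlane → ℂ) := ModularFormClass.holo ModularForm.E₄
  have hpi : (Real.pi : ℂ) ≠ 0 := Complex.ofReal_ne_zero.2 Real.pi_ne_zero
  have h1 : HQ (Derivative.normalizedDerivOfComplex EisensteinSeries.E2 +
      (-(1 / 12) : ℂ) • (EisensteinSeries.E2 * EisensteinSeries.E2) +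
      (1 / 12 : ℂ) • (ModularForm.E₄ : UpperHalfPlane → ℂ))
      (th (toC E2z) + (-(1 / 12) : ℂ) • (toC E2z * toC E2z) + (1 / 12 : ℂ) • toC E4z) :=
    (hq2.D.add ((hq2.mul hq2).smul _)).add (hq4.smul _)
  have h2 := key (k := 4) (by norm_num) (fun γ => ?_) ?_ h1 ?_
  · apply toC_injective
    rw [map_mul, map_sub, map_pow, toC_th, map_ofNat]
    have h3 : (12 : ℂ) • (th (toC E2z) + (-(1 / 12) : ℂ) • (toC E2z * toC E2z) +
      (1 / 12 : ℂ) • toC E4z) = 0 := by rw [h2, smul_zero]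
    rw [smul_add, smul_add, smul_smul, smul_smul] at h3
    norm_num at h3
    have h4 : (12 : ℂ) • th (toC E2z) = 12 * th (toC E2z) := smul_ofNat' 12 _
    rw [h4] at h3
    linear_combination h3
  · rw [add_slash', add_slash', ModularForm.SL_smul_slash, ModularForm.SL_smul_slash]
    have h4 : (ModularForm.E₄ : UpperHalfPlane → ℂ) ∣[((4 : ℕ) : ℤ)] γ = ModularForm.E₄ :=
      slash_form ModularForm.E₄ γ
    have h5 : (EisensteinSeries.E2 * EisensteinSeries.E2) ∣[((4 : ℕ) : ℤ)] γ =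
        (EisensteinSeries.E2 ∣[(2 : ℤ)] γ) * (EisensteinSeries.E2 ∣[(2 : ℤ)] γ) :=
      ModularForm.mul_slash_SL2 2 2 γ EisensteinSeries.E2 EisensteinSeries.E2
    have h6 := Derivative.normalizedDerivOfComplex_SL_slash (k := 2) hD2 (γ := γ)
    rw [h4, h5]
    have h7 : Derivative.normalizedDerivOfComplex (EisensteinSeries.E2 ∣[(2 : ℤ)] γ) =
        Derivative.normalizedDerivOfComplex EisensteinSeries.E2 +
          (-(6 * Complex.I / Real.pi)) • Derivative.normalizedDerivOfComplex (uu γ) := by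
      rw [E2_slash', Derivative.normalizedDerivOfComplex_add _ _ hD2 ((uu_mdiff γ).const_smul _),
        Derivative.normalizedDerivOfComplex_smul _ _ (uu_mdiff γ)]
    ext z
    have h8 := congrFun h6 z
    rw [h7] at h8
    have h9 : (Derivative.normalizedDerivOfComplex EisensteinSeries.E2 ∣[((4 : ℕ) : ℤ)] γ) z =
      (Derivative.normalizedDerivOfComplex EisensteinSeries.E2 ∣[((2 : ℤ) + 2)] γ) z := rfl
    simp only [Pi.add_apply, Pi.smul_apply, Pi.mul_apply, Pi.sub_apply, smul_eq_mul, uu_D,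
      E2_slash'] at h8 ⊢
    rw [h9]
    have e3 : (((2 : ℤ) : ℂ)) = 2 := by norm_num
    rw [e3] at h8
    have e4 : (γ 1 0 : ℂ) / UpperHalfPlane.denom γ z = uu γ z := rfl
    rw [e4] at h8
    have e5 : (Derivative.normalizedDerivOfComplex EisensteinSeries.E2 ∣[((2 : ℤ) + 2)] γ) z =
        Derivative.normalizedDerivOfComplex EisensteinSeries.E2 z +
          -(6 * Complex.I / Real.pi) * ((2 * Real.pi * Complex.I)⁻¹ * (-(uu γ z) ^ 2)) +
          2 * (2 * Real.pi * Complex.I)⁻¹ * uu γ z *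
            (EisensteinSeries.E2 z + -(6 * Complex.I / Real.pi) * uu γ z) := by
      linear_combination -h8
    rw [e5]
    field_simp
    ring_nf
    simp only [Complex.I_sq, Complex.I_pow_three]
    ring
  · exact ((Derivative.normalizedDerivOfComplex_mdifferentiable hD2).add
      ((hD2.mul hD2).const_smul _)).add (hD4.const_smul _)
  · obtain ⟨c2, c4, c6⟩ := coeff0
    rw [map_add, map_add, coeff_th, coeff_smul, coeff_smul, coeff_zero_mul', c2, c4]
    norm_num


theorem twelve_dvd (n : ℕ) : (12 : ℤ) ∣ 5 * (ArithmeticFunction.sigma 3 n : ℤ) +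
    7 * (ArithmeticFunction.sigma 5 n : ℤ) := by
  have : (5 * (ArithmeticFunction.sigma 3 n : ℤ) + 7 * (ArithmeticFunction.sigma 5 n : ℤ)) =
      ∑ d ∈ n.divisors, (5 * (d : ℤ) ^ 3 + 7 * (d : ℤ) ^ 5) := by
    simp only [ArithmeticFunction.sigma_apply, Nat.cast_sum, Nat.cast_pow, Finset.mul_sum,
      Finset.sum_add_distrib]
  rw [this]
  refine Finset.dvd_sum fun d _ => ?_
  have h : ((5 * (d : ℤ) ^ 3 + 7 * (d : ℤ) ^ 5 : ℤ) : ZMod 12) = 0 := by
    push_cast
    generalize (d : ZMod 12) = x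
    revert x
    decide
  exact_mod_cast (ZMod.intCast_zmod_eq_zero_iff_dvd _ 12).mp h

/-- the series of `σ_3`, shifted -/
noncomputable def sA : PowerSeries ℤ := PowerSeries.mk fun n => (ArithmeticFunction.sigma 3 (n + 1) : ℤ)

/-- the series of `σ_5`, shifted -/
noncomputable def sB : PowerSeries ℤ := PowerSeries.mk fun n => (ArithmeticFunction.sigma 5 (n + 1) : ℤ)

/-- the series of `(5 σ_3 + 7 σ_5) / 12`, shifted -/
noncomputable def sW : PowerSeries ℤ := PowerSeries.mk fun n =>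
  (5 * (ArithmeticFunction.sigma 3 (n + 1) : ℤ) + 7 * (ArithmeticFunction.sigma 5 (n + 1) : ℤ)) / 12

lemma coeff_ofNat_mul' (m : ℕ) [m.AtLeastTwo] (f : PowerSeries ℤ) (n : ℕ) :
    coeff n (OfNat.ofNat m * f) = OfNat.ofNat m * coeff n f := by
  have : (OfNat.ofNat m : PowerSeries ℤ) = C (OfNat.ofNat m : ℤ) := (map_ofNat C m).symm
  rw [this, coeff_C_mul]

lemma E4z_eq : E4z = 1 + 240 * (X * sA) := by
  ext n
  rw [map_add, coeff_ofNat_mul' 240]
  cases n with
  | zero => simp [E4z]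
  | succ n =>
    rw [coeff_succ_X_mul, sA, E4z, coeff_mk, coeff_mk, coeff_one]
    simp

lemma E6z_eq : E6z = 1 - 504 * (X * sB) := by
  ext n
  rw [map_sub, coeff_ofNat_mul' 504]
  cases n with
  | zero => simp [E6z]
  | succ n =>
    rw [coeff_succ_X_mul, sB, E6z, coeff_mk, coeff_mk, coeff_one]
    simp

lemma sW_eq : 12 * sW = 5 * sA + 7 * sB := by
  ext n
  rw [map_add, coeff_ofNat_mul' 12, coeff_ofNat_mul' 5, coeff_ofNat_mul' 7, sW, sA, sB, coeff_mk,
    coeff_mk, coeff_mk]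
  exact Int.mul_ediv_cancel' (twelve_dvd (n + 1))

theorem dz_aux : ∃ dz : PowerSeries ℤ, constantCoeff dz = 1 ∧
    E4z ^ 3 - E6z ^ 2 = 1728 * (PowerSeries.X * dz) := by
  refine ⟨sW + X * (100 * sA ^ 2 + 8000 * X * sA ^ 3 - 147 * sB ^ 2), ?_, ?_⟩
  · rw [map_add, map_mul, constantCoeff_X, zero_mul, add_zero, ← coeff_zero_eq_constantCoeff_apply,
      sW, coeff_mk]
    simp
  · rw [E4z_eq, E6z_eq]
    linear_combination (-144 * X) * sW_eq


end Eis

theorem ramanujan2 : 12 * th E2z = E2z ^ 2 - E4z := Eis.rama2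

theorem ramanujan4 : 3 * th E4z = E2z * E4z - E6z := Eis.rama4

theorem ramanujan6 : 2 * th E6z = E2z * E6z - E4z ^ 2 := Eis.rama6

/-- the discriminant over `ℤ`, divided by `X`: `E_4³ - E_6² = 1728 X dz`, `dz` with constant coefficient one. -/
theorem exists_dz : ∃ dz : PowerSeries ℤ, constantCoeff dz = 1 ∧
    E4z ^ 3 - E6z ^ 2 = 1728 * (PowerSeries.X * dz) := Eis.dz_aux

end Pool.Agent.ZPB
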