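import Pool.Agent.ZPB.Defs

/-!
# Module E1: evaluation of `F ∈ ℤ_p[[X_i]]` at points of the open unit polydisc

Everything follows from `‖zc c‖ ≤ 1` and absolute convergence: with `r = max ‖z_i‖ < 1` the term of
index `m` has norm `≤ ∏ ‖z_i‖^(m_i) ≤ r^|m|`, summable over `σ →₀ ℕ` (`σ` finite; e.g. by
`Finsupp.equivFunOnFinite` and products of geometric series). Multiplicativity is the Cauchy product
(`coeff_mul`, `Finset.antidiagonal` on `σ →₀ ℕ`, `summable_norm_... antidiagonal`). Norm bounds: `ℂ_p`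
is ultrametric and complete, `‖tsum‖ ≤ sup ‖terms‖`.
-/

namespace Pool.Agent.ZPB

open MvPowerSeries

variable {p : ℕ} [Fact p.Prime] {σ τ : Type} [Fintype σ] [Fintype τ]

theorem norm_zc (a : ℤ_[p]) : ‖zc p a‖ = ‖a‖ := by
  change ‖algebraMap ℚ_[p] ℂ_[p] (a : ℚ_[p])‖ = ‖a‖
  rw [norm_algebraMap']
  rfl

theorem zc_injective : Function.Injective (zc p) := by
  rw [injective_iff_map_eq_zero]
  intro a ha
  rw [← norm_eq_zero, ← norm_zc, ha, norm_zero]

/-- products of geometric series -/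
theorem er_summable_geom {y : σ → ℝ} (h0 : ∀ i, 0 ≤ y i) (h1 : ∀ i, y i < 1) :
    Summable (fun m : σ →₀ ℕ => ∏ i, y i ^ m i) := by
  classical
  have key : Summable (fun m : σ → ℕ => ∏ i, y i ^ m i) := by
    refine summable_of_sum_le (c := ∏ i, ∑' n : ℕ, y i ^ n)
      (fun m => Finset.prod_nonneg fun i _ => pow_nonneg (h0 i) _) ?_
    intro u
    set N : ℕ := u.sup (fun m => Finset.univ.sup m) with hN
    have hsub : u ⊆ Fintype.piFinset (fun _ : σ => Finset.range (N + 1)) := by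
      intro m hm
      rw [Fintype.mem_piFinset]
      intro i
      rw [Finset.mem_range, Nat.lt_succ_iff]
      exact (Finset.le_sup (f := m) (Finset.mem_univ i)).trans
        (Finset.le_sup (f := fun m : σ → ℕ => Finset.univ.sup m) hm)
    calc ∑ m ∈ u, ∏ i, y i ^ m i
        ≤ ∑ m ∈ Fintype.piFinset (fun _ : σ => Finset.range (N + 1)), ∏ i, y i ^ m i :=
          Finset.sum_le_sum_of_subset_of_nonneg hsub
            (fun m _ _ => Finset.prod_nonneg fun i _ => pow_nonneg (h0 i) _)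
      _ = ∏ i, ∑ n ∈ Finset.range (N + 1), y i ^ n :=
          (Finset.prod_univ_sum (fun _ : σ => Finset.range (N + 1)) (fun i n => y i ^ n)).symm
      _ ≤ ∏ i, ∑' n : ℕ, y i ^ n := by
          refine Finset.prod_le_prod (fun i _ => Finset.sum_nonneg fun n _ => pow_nonneg (h0 i) _) ?_
          intro i _
          exact (summable_geometric_of_lt_one (h0 i) (h1 i)).sum_le_tsum _
            (fun n _ => pow_nonneg (h0 i) _)
  exact (Finsupp.equivFunOnFinite (α := σ) (M := ℕ)).summable_iff.2 key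

theorem er_term_norm {z : σ → ℂ_[p]} (F : RR p σ) (m : σ →₀ ℕ) :
    ‖zc p (coeff m F) * ∏ i, z i ^ m i‖ ≤ ∏ i, ‖z i‖ ^ m i := by
  rw [norm_mul, norm_zc, norm_prod]
  simp only [norm_pow]
  calc ‖coeff m F‖ * ∏ i, ‖z i‖ ^ m i ≤ 1 * ∏ i, ‖z i‖ ^ m i :=
        mul_le_mul_of_nonneg_right (PadicInt.norm_le_one _)
          (Finset.prod_nonneg fun i _ => pow_nonneg (norm_nonneg _) _)
    _ = _ := one_mul _

theorem er_prod_le_one {z : σ → ℂ_[p]} (hz : Disc z) (m : σ →₀ ℕ) : ∏ i, ‖z i‖ ^ m i ≤ 1 :=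
  Finset.prod_le_one (fun i _ => pow_nonneg (norm_nonneg _) _)
    (fun i _ => pow_le_one₀ (norm_nonneg _) (hz i).le)

theorem summable_ev {z : σ → ℂ_[p]} (hz : Disc z) (F : RR p σ) :
    Summable (fun m : σ →₀ ℕ => ‖zc p (coeff m F) * ∏ i, z i ^ m i‖) := by
  exact (er_summable_geom (fun i => norm_nonneg (z i)) hz).of_nonneg_of_le
    (fun m => norm_nonneg _) (fun m => er_term_norm F m)

theorem ev_add {z : σ → ℂ_[p]} (hz : Disc z) (F G : RR p σ) : ev z (F + G) = ev z F + ev z G := by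
  have h1 := (summable_ev hz F).of_norm
  have h2 := (summable_ev hz G).of_norm
  rw [ev, ev, ev, ← h1.tsum_add h2]
  refine tsum_congr ?_
  intro m
  rw [map_add, map_add, add_mul]

theorem er_cauchy {K : Type} [NormedField K] [CompleteSpace K] [DecidableEq σ]
    (f g : (σ →₀ ℕ) → K) (hf : Summable (fun m => ‖f m‖)) (hg : Summable (fun m => ‖g m‖)) :
    (∑' m, f m) * (∑' m, g m) =
      ∑' m, ∑ kl ∈ Finset.HasAntidiagonal.antidiagonal m, f kl.1 * g kl.2 :=
  hf.of_norm.tsum_mul_tsum_eq_tsum_sum_antidiagonal hg.of_norm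
    (summable_mul_of_summable_norm hf hg)

theorem er_alg {K : Type} [CommRing K] (z : σ → K) {m k l : σ →₀ ℕ} (h : k + l = m) (a b : K) :
    (a * ∏ i, z i ^ k i) * (b * ∏ i, z i ^ l i) = (a * b) * ∏ i, z i ^ m i := by
  have h4 : ∏ i, z i ^ m i = (∏ i, z i ^ k i) * ∏ i, z i ^ l i := by
    rw [← Finset.prod_mul_distrib]
    refine Finset.prod_congr rfl ?_
    intro i _
    rw [← pow_add, ← h]
    rfl
  rw [h4]
  ring

theorem ev_mul {z : σ → ℂ_[p]} (hz : Disc z) (F G : RR p σ) : ev z (F * G) = ev z F * ev z G := by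
  classical
  have h0 := er_cauchy _ _ (summable_ev hz F) (summable_ev hz G)
  have h1 : ev z F * ev z G = ∑' m : σ →₀ ℕ, ∑ kl ∈ Finset.HasAntidiagonal.antidiagonal m,
      (zc p (coeff kl.1 F) * ∏ i, z i ^ kl.1 i) * (zc p (coeff kl.2 G) * ∏ i, z i ^ kl.2 i) := h0
  rw [h1]
  refine tsum_congr ?_
  intro m
  rw [coeff_mul, map_sum, Finset.sum_mul]
  refine Finset.sum_congr rfl ?_
  rintro ⟨k, l⟩ hkl
  rw [Finset.HasAntidiagonal.mem_antidiagonal] at hkl
  have h2 := er_alg z hkl (zc p (coeff k F)) (zc p (coeff l G))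
  rw [← map_mul] at h2
  exact h2.symm

theorem ev_C {z : σ → ℂ_[p]} (a : ℤ_[p]) : ev z (C a : RR p σ) = zc p a := by
  classical
  rw [ev, tsum_eq_single 0]
  · rw [coeff_zero_C]
    simp
  · intro m hm
    rw [coeff_C, if_neg hm, map_zero, zero_mul]

theorem ev_X {z : σ → ℂ_[p]} (i : σ) : ev z (X i : RR p σ) = z i := by
  classical
  rw [ev, tsum_eq_single (Finsupp.single i 1)]
  · rw [coeff_X, if_pos rfl, map_one, one_mul, Finset.prod_eq_single i]
    · rw [Finsupp.single_eq_same, pow_one]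
    · intro j _ hj
      rw [Finsupp.single_eq_of_ne hj, pow_zero]
    · intro h
      exact absurd (Finset.mem_univ i) h
  · intro m hm
    rw [coeff_X, if_neg hm, map_zero, zero_mul]

/-- evaluation as a ring homomorphism -/
noncomputable def evHom {z : σ → ℂ_[p]} (hz : Disc z) : RR p σ →+* ℂ_[p] where
  toFun := ev z
  map_one' := by
    have h := ev_C (σ := σ) (z := z) (1 : ℤ_[p])
    rwa [map_one, map_one] at h
  map_mul' := ev_mul hz
  map_zero' := by
    have h := ev_C (σ := σ) (z := z) (0 : ℤ_[p])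
    rwa [map_zero, map_zero] at h
  map_add' := ev_add hz

theorem evHom_apply {z : σ → ℂ_[p]} (hz : Disc z) (F : RR p σ) : evHom hz F = ev z F := rfl

theorem norm_ev_le {z : σ → ℂ_[p]} (hz : Disc z) (F : RR p σ) : ‖ev z F‖ ≤ 1 := by
  exact IsUltrametricDist.norm_tsum_le_of_forall_le_of_nonneg zero_le_one
    (fun m => (er_term_norm F m).trans (er_prod_le_one hz m))

theorem norm_ev_lt {z : σ → ℂ_[p]} (hz : Disc z) {F : RR p σ} (hF : constantCoeff F = 0) :
    ‖ev z F‖ < 1 := by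
  classical
  set r : NNReal := Finset.univ.sup (fun i => ‖z i‖₊) with hr
  have hr1 : r < 1 := by
    rw [hr, Finset.sup_lt_iff (by simp)]
    intro i _
    exact hz i
  have hri : ∀ i, ‖z i‖ ≤ (r : ℝ) := by
    intro i
    have h1 : ‖z i‖₊ ≤ r := Finset.le_sup (f := fun i => ‖z i‖₊) (Finset.mem_univ i)
    exact_mod_cast h1
  have h2 : ‖ev z F‖ ≤ (r : ℝ) := by
    refine IsUltrametricDist.norm_tsum_le_of_forall_le_of_nonneg r.2 ?_
    intro m
    by_cases hm : m = 0
    · subst hm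
      rw [coeff_zero_eq_constantCoeff_apply, hF, map_zero, zero_mul, norm_zero]
      exact r.2
    · obtain ⟨i, hi⟩ : ∃ i, m i ≠ 0 := by
        by_contra hc
        push Not at hc
        exact hm (Finsupp.ext hc)
      refine (er_term_norm F m).trans ?_
      rw [← Finset.mul_prod_erase Finset.univ _ (Finset.mem_univ i)]
      calc ‖z i‖ ^ m i * ∏ j ∈ Finset.univ.erase i, ‖z j‖ ^ m j
          ≤ ‖z i‖ ^ m i * 1 := mul_le_mul_of_nonneg_left
            (Finset.prod_le_one (fun j _ => pow_nonneg (norm_nonneg _) _)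
              (fun j _ => pow_le_one₀ (norm_nonneg _) (hz j).le)) (pow_nonneg (norm_nonneg _) _)
        _ = ‖z i‖ ^ m i := mul_one _
        _ ≤ ‖z i‖ ^ 1 := pow_le_pow_of_le_one (norm_nonneg _) (hz i).le
            (Nat.one_le_iff_ne_zero.2 hi)
        _ = ‖z i‖ := pow_one _
        _ ≤ r := hri i
  exact h2.trans_lt (by exact_mod_cast hr1)

theorem er_pow_sub {a b : ℂ_[p]} (ha : ‖a‖ ≤ 1) (hb : ‖b‖ ≤ 1) {r : ℝ} (hr : 0 ≤ r)
    (h : ‖a - b‖ ≤ r) (n : ℕ) : ‖a ^ n - b ^ n‖ ≤ r := by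
  induction n with
  | zero => simpa using hr
  | succ n ih =>
    have h1 : a ^ (n + 1) - b ^ (n + 1) = a * (a ^ n - b ^ n) + (a - b) * b ^ n := by ring
    rw [h1]
    refine (IsUltrametricDist.norm_add_le_max _ _).trans (max_le ?_ ?_)
    · rw [norm_mul]
      exact (mul_le_of_le_one_left (norm_nonneg _) ha).trans ih
    · rw [norm_mul, norm_pow]
      exact (mul_le_of_le_one_right (norm_nonneg _) (pow_le_one₀ (norm_nonneg _) hb)).trans h

theorem er_prod_sub {ι : Type} (s : Finset ι) {a b : ι → ℂ_[p]} (ha : ∀ i, ‖a i‖ ≤ 1)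
    (hb : ∀ i, ‖b i‖ ≤ 1) {r : ℝ} (hr : 0 ≤ r) (h : ∀ i, ‖a i - b i‖ ≤ r) :
    ‖∏ i ∈ s, a i - ∏ i ∈ s, b i‖ ≤ r := by
  classical
  induction s using Finset.induction_on with
  | empty => simpa using hr
  | insert i s hi ih =>
    rw [Finset.prod_insert hi, Finset.prod_insert hi]
    have h1 : a i * ∏ i ∈ s, a i - b i * ∏ i ∈ s, b i =
        a i * (∏ i ∈ s, a i - ∏ i ∈ s, b i) + (a i - b i) * ∏ i ∈ s, b i := by ring
    rw [h1]
    refine (IsUltrametricDist.norm_add_le_max _ _).trans (max_le ?_ ?_)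
    · rw [norm_mul]
      exact (mul_le_of_le_one_left (norm_nonneg _) (ha i)).trans ih
    · rw [norm_mul, norm_prod]
      exact (mul_le_of_le_one_right (norm_nonneg _)
        (Finset.prod_le_one (fun j _ => norm_nonneg _) (fun j _ => hb j))).trans (h i)

/-- power series with coefficients in `ℤ_p` are 1-Lipschitz -/
theorem norm_ev_sub_le {z w : σ → ℂ_[p]} (hz : Disc z) (hw : Disc w) (F : RR p σ) {r : ℝ}
    (hr : 0 ≤ r) (h : ∀ i, ‖z i - w i‖ ≤ r) : ‖ev z F - ev w F‖ ≤ r := by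
  have h1 := (summable_ev hz F).of_norm
  have h2 := (summable_ev hw F).of_norm
  rw [ev, ev, ← h1.tsum_sub h2]
  refine IsUltrametricDist.norm_tsum_le_of_forall_le_of_nonneg hr ?_
  intro m
  rw [← mul_sub, norm_mul, norm_zc]
  refine (mul_le_of_le_one_left (norm_nonneg _) (PadicInt.norm_le_one _)).trans ?_
  refine er_prod_sub _ ?_ ?_ hr ?_
  · intro i
    rw [norm_pow]
    exact pow_le_one₀ (norm_nonneg _) (hz i).le
  · intro i
    rw [norm_pow]
    exact pow_le_one₀ (norm_nonneg _) (hw i).le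
  · intro i
    exact er_pow_sub (hz i).le (hw i).le hr (h i) _

theorem disc_iso {z : σ → ℂ_[p]} (hz : Disc z) {g : ℂ_[p] ≃+* ℂ_[p]} (hg : IsIso g) :
    Disc (fun i => g (z i)) := fun i => by
  rw [hg]
  exact hz i

theorem er_iso_cont {g : ℂ_[p] ≃+* ℂ_[p]} (hg : IsIso g) : Continuous g :=
  (AddMonoidHomClass.isometry_of_norm g hg).continuous

theorem er_zc_cont : Continuous (zc p) :=
  (AddMonoidHomClass.isometry_of_norm (zc p) norm_zc).continuous

/-- isometric automorphisms fix `ℤ_p` (they fix `ℤ`, which is dense) -/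
theorem iso_zc {g : ℂ_[p] ≃+* ℂ_[p]} (hg : IsIso g) (a : ℤ_[p]) : g (zc p a) = zc p a := by
  have h1 : (fun a : ℤ_[p] => g (zc p a)) = zc p := by
    refine PadicInt.denseRange_natCast.equalizer ((er_iso_cont hg).comp er_zc_cont) er_zc_cont ?_
    funext n
    simp
  exact congrFun h1 a

theorem ev_iso {z : σ → ℂ_[p]} (hz : Disc z) {g : ℂ_[p] ≃+* ℂ_[p]} (hg : IsIso g) (F : RR p σ) :
    ev (fun i => g (z i)) F = g (ev z F) := by
  have h1 := ((summable_ev hz F).of_norm).hasSum.map g.toRingHom (er_iso_cont hg)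
  have h2 : g (ev z F) = ∑' m : σ →₀ ℕ, g (zc p (coeff m F) * ∏ i, z i ^ m i) := h1.tsum_eq.symm
  rw [h2, ev]
  refine tsum_congr ?_
  intro m
  rw [map_mul, iso_zc hg, map_prod]
  simp only [map_pow]

theorem zer_iso {𝔮 : Ideal (RR p σ)} {z : σ → ℂ_[p]} (hz : z ∈ zer 𝔮) {g : ℂ_[p] ≃+* ℂ_[p]}
    (hg : IsIso g) : (fun i => g (z i)) ∈ zer 𝔮 :=
  ⟨disc_iso hz.1 hg, fun F hF => by rw [ev_iso hz.1 hg, hz.2 F hF, map_zero]⟩

/-- isometric automorphisms fix `ℚ_p` -/
theorem iso_algebraMap {g : ℂ_[p] ≃+* ℂ_[p]} (hg : IsIso g) (a : ℚ_[p]) :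
    g (algebraMap ℚ_[p] ℂ_[p] a) = algebraMap ℚ_[p] ℂ_[p] a := by
  have hc : Continuous (algebraMap ℚ_[p] ℂ_[p]) :=
    (AddMonoidHomClass.isometry_of_norm (algebraMap ℚ_[p] ℂ_[p]) (fun x => norm_algebraMap' _ x)).continuous
  have h1 : (fun a : ℚ_[p] => g (algebraMap ℚ_[p] ℂ_[p] a)) = algebraMap ℚ_[p] ℂ_[p] := by
    refine (Padic.denseRange_ratCast p).equalizer ((er_iso_cont hg).comp hc) hc ?_
    funext q
    simp only [Function.comp_apply]
    rw [map_ratCast, map_ratCast]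
  exact congrFun h1 a

/-- renaming of variables by an injection -/
theorem ev_rename {z : τ → ℂ_[p]} (hz : Disc z) (f : σ ↪ τ) (F : RR p σ) :
    ev z (rename f F) = ev (z ∘ f) F := by
  classical
  have h1 : Function.support (fun x : τ →₀ ℕ => zc p (coeff x (rename f F)) * ∏ i, z i ^ x i) ⊆
      Set.range (Finsupp.embDomain f) := by
    intro x hx
    by_contra hc
    apply hx
    have h2 : x ∉ Set.range (Finsupp.mapDomain f) := by
      rintro ⟨y, rfl⟩
      exact hc ⟨y, Finsupp.embDomain_eq_mapDomain f y⟩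
    simp only
    rw [coeff_rename_eq_zero (f := f) F h2, map_zero, zero_mul]
  rw [ev, ev, ← (Finsupp.embDomain_injective f).tsum_eq h1]
  refine tsum_congr ?_
  intro m
  rw [coeff_embDomain_rename]
  congr 1
  have h3 : (Finsupp.embDomain f m).prod (fun j n => z j ^ n) = m.prod (fun i n => z (f i) ^ n) :=
    Finsupp.prod_embDomain
  rw [Finsupp.prod_fintype _ _ (fun _ => pow_zero _), Finsupp.prod_fintype _ _ (fun _ => pow_zero _)] at h3
  exact h3

end Pool.Agent.ZPB
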