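import Pool.Agent.ZPB.JSeries
import Pool.Agent.ZPB.DiffBasic
import Pool.Agent.ZPB.DerivExt

/-!
# Module AI12: Eisenstein series in the function field of a formal curve

`eL ι f i = f(X_i) ∈ L` for `f ∈ ℤ[[X]]`. `f ↦ eL ι f i` is a ring homomorphism (`PowerSeries.map`, substitution, `ι`). By the chain rule
(`IsCont.subst`) `D(eL ι f i) = eL ι (th f) i · θ_i`, `θ_i = D(ι X_i)/ι X_i`, `th f = X f'` (`eL ι X i = ι X_i`). The Ramanujan
identities give `leis2`, `leis4`, `leis6` (divide by `12`, `3`, `2`: `CharZero L`, see `IsFF.charZero`). If `f` has constant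
coefficient one, then `subst (X i) (map f)` has constant coefficient one, is a unit, so `eL ι f i ≠ 0`. `e4³ - e6² = 1728 ι(X_i) eL ι dz i ≠ 0`
(`exists_dz`). `jL = eL Jz/ιX_i` and `Jz_eq` give `jL_eq`.
-/

namespace Pool.Agent.ZPB

open MvPowerSeries

variable {p : ℕ} [Fact p.Prime] {L : Type} [Field L]

/-- the value of `f ∈ ℤ[[X]]` at the `i`-th variable, in `L` -/
noncomputable def eL (ι : RR p (Fin 3) →+* L) (f : PowerSeries ℤ) (i : Fin 3) : L :=
  ι (PowerSeries.subst (X i : RR p (Fin 3)) (PowerSeries.map (Int.castRingHom ℤ_[p]) f))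

/-- `j(X_i)` -/
noncomputable def jL (ι : RR p (Fin 3) →+* L) (i : Fin 3) : L := eL ι Jz i / ι (X i)

/-- `f ↦ eL ι f i` as a ring homomorphism -/
noncomputable def eLh (ι : RR p (Fin 3) →+* L) (i : Fin 3) : PowerSeries ℤ →+* L :=
  ι.comp ((sb (t := (X i : RR p (Fin 3))) (constantCoeff_X i)).comp
    (PowerSeries.map (Int.castRingHom ℤ_[p])))

theorem eLh_apply (ι : RR p (Fin 3) →+* L) (f : PowerSeries ℤ) (i : Fin 3) :
    eLh ι i f = eL ι f i := by
  rw [eLh, RingHom.comp_apply, RingHom.comp_apply, sb_apply, eL]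

theorem eL_mul (ι : RR p (Fin 3) →+* L) (f g : PowerSeries ℤ) (i : Fin 3) :
    eL ι (f * g) i = eL ι f i * eL ι g i := by
  simp only [← eLh_apply, map_mul]

theorem eL_add (ι : RR p (Fin 3) →+* L) (f g : PowerSeries ℤ) (i : Fin 3) :
    eL ι (f + g) i = eL ι f i + eL ι g i := by
  simp only [← eLh_apply, map_add]

theorem eL_X (ι : RR p (Fin 3) →+* L) (i : Fin 3) : eL ι PowerSeries.X i = ι (X i) := by
  rw [eL, PowerSeries.map_X, ← sb_apply (constantCoeff_X i), sb_X]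

theorem eL_ne_zero (ι : RR p (Fin 3) →+* L) {f : PowerSeries ℤ} (hf : PowerSeries.constantCoeff f = 1)
    (i : Fin 3) : eL ι f i ≠ 0 := by
  have hu : IsUnit f := PowerSeries.isUnit_iff_constantCoeff.mpr (by rw [hf]; exact isUnit_one)
  rw [← eLh_apply]
  exact (hu.map (eLh ι i)).ne_zero

theorem der_eL {ι : RR p (Fin 3) →+* L} {D : L → L} (hc : IsCont ι D)
    (f : PowerSeries ℤ) {i : Fin 3} (hi : ι (X i) ≠ 0) :
    D (eL ι f i) = eL ι (th f) i * (D (ι (X i)) / ι (X i)) := by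
  have h1 : PowerSeries.derivative ℤ_[p] (PowerSeries.map (Int.castRingHom ℤ_[p]) f) =
      PowerSeries.map (Int.castRingHom ℤ_[p]) (PowerSeries.derivative ℤ f) := by
    ext n
    simp [PowerSeries.coeff_derivative]
  have h2 : D (eL ι f i) = eL ι (PowerSeries.derivative ℤ f) i * D (ι (X i)) := by
    rw [eL, hc.subst (constantCoeff_X i), h1]
    rfl
  rw [h2, th, eL_mul, eL_X]
  field_simp

theorem leis2 [CharZero L] {ι : RR p (Fin 3) →+* L} {D : L → L} (hc : IsCont ι D) {i : Fin 3}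
    (hi : ι (X i) ≠ 0) : D (eL ι E2z i) =
      (D (ι (X i)) / ι (X i)) * (eL ι E2z i ^ 2 - eL ι E4z i) / 12 := by
  have h := congrArg (eLh ι i) ramanujan2
  simp only [map_mul, map_sub, map_pow, map_ofNat, eLh_apply] at h
  rw [der_eL hc _ hi, eq_div_iff (by norm_num)]
  linear_combination (D (ι (X i)) / ι (X i)) * h

theorem leis4 [CharZero L] {ι : RR p (Fin 3) →+* L} {D : L → L} (hc : IsCont ι D) {i : Fin 3}
    (hi : ι (X i) ≠ 0) : D (eL ι E4z i) =
      (D (ι (X i)) / ι (X i)) * (eL ι E2z i * eL ι E4z i - eL ι E6z i) / 3 := by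
  have h := congrArg (eLh ι i) ramanujan4
  simp only [map_mul, map_sub, map_pow, map_ofNat, eLh_apply] at h
  rw [der_eL hc _ hi, eq_div_iff (by norm_num)]
  linear_combination (D (ι (X i)) / ι (X i)) * h

theorem leis6 [CharZero L] {ι : RR p (Fin 3) →+* L} {D : L → L} (hc : IsCont ι D) {i : Fin 3}
    (hi : ι (X i) ≠ 0) : D (eL ι E6z i) =
      (D (ι (X i)) / ι (X i)) * (eL ι E2z i * eL ι E6z i - eL ι E4z i ^ 2) / 2 := by
  have h := congrArg (eLh ι i) ramanujan6
  simp only [map_mul, map_sub, map_pow, map_ofNat, eLh_apply] at h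
  rw [der_eL hc _ hi, eq_div_iff (by norm_num)]
  linear_combination (D (ι (X i)) / ι (X i)) * h

theorem leis_disc [CharZero L] (ι : RR p (Fin 3) →+* L) {i : Fin 3} (hi : ι (X i) ≠ 0) :
    eL ι E4z i ^ 3 ≠ eL ι E6z i ^ 2 := by
  obtain ⟨dz, hdz, hd⟩ := exists_dz
  have h := congrArg (eLh ι i) hd
  simp only [map_mul, map_sub, map_pow, map_ofNat, eLh_apply, eL_X] at h
  have h1 : (1728 : L) * (ι (X i) * eL ι dz i) ≠ 0 :=
    mul_ne_zero (by norm_num) (mul_ne_zero hi (eL_ne_zero ι hdz i))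
  intro h2
  apply h1
  rw [← h, h2, sub_self]

theorem jL_eq [CharZero L] (ι : RR p (Fin 3) →+* L) {i : Fin 3} (hi : ι (X i) ≠ 0) :
    jL ι i = 1728 * eL ι E4z i ^ 3 / (eL ι E4z i ^ 3 - eL ι E6z i ^ 2) := by
  have h0 := leis_disc ι hi
  have h1 : eL ι E4z i ^ 3 - eL ι E6z i ^ 2 ≠ 0 := sub_ne_zero.mpr h0
  have h := congrArg (eLh ι i) Jz_eq
  simp only [map_mul, map_sub, map_pow, map_ofNat, eLh_apply, eL_X] at h
  rw [jL, div_eq_div_iff hi h1]
  linear_combination h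

end Pool.Agent.ZPB
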