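import Pool.Agent.ZPB.TwoTerm
import Pool.Agent.ZPB.GalExt
import Pool.Agent.ZPB.Recenter
import Pool.Agent.ZPB.Dominant

/-!
# Module B1: valuations are linear in the valuation of the parameter

`T_k = ev (x k) t`, `S_k = T_k - z` with pairwise distinct norms. By `two_term`, along a subsequence there are fixed
`j < l` with `‖c_j(T_k)‖ ‖f_k‖^j = ‖c_l(T_k)‖ ‖f_k‖^l`. The series `recenter z (c_j)` is `IsW` (`exists_isW_of_Z`,
`IsW.recenter`); by `IsW.finite_nondom` for all but finitely many `k` it has a dominating index `≤ n_j` at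
`r = ‖S_k‖`; pass to a subsequence with fixed dominating indices `b_j, b_l`. Then `‖f_k‖^(l-j) = C r^(b_j - b_l)`, so
`vv f_k = α + β vv S_k` with `β = (b_j - b_l)/(l - j) ∈ ℚ`, `α ∈ ℝ`. `α ∈ ℚ` because `vv f_0, vv S_0 ∈ ℚ`
(`vv_rat`, `algebraic_ev`).
-/

namespace Pool.Agent.ZPB

open MvPowerSeries

variable {p : ℕ} [Fact p.Prime] {σ : Type} [Fintype σ]

namespace LinVal

/-- logarithm of a tie of two monomials -/
theorem tie_log {P a a' r u : ℝ} {b b' j l : ℕ} (ha : 0 < a) (ha' : 0 < a') (hr : 0 < r)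
    (hu : 0 < u) (hjl : j < l) (h : a * r ^ b * u ^ j = a' * r ^ b' * u ^ l) :
    -Real.logb P u = (Real.logb P a' - Real.logb P a) / ((l : ℝ) - j) +
      (((b : ℝ) - b') / ((l : ℝ) - j)) * (-Real.logb P r) := by
  have h1 := congrArg (Real.logb P) h
  rw [Real.logb_mul (by positivity) (by positivity), Real.logb_mul (by positivity) (by positivity),
    Real.logb_mul (by positivity) (by positivity), Real.logb_mul (by positivity) (by positivity),
    Real.logb_pow, Real.logb_pow, Real.logb_pow, Real.logb_pow] at h1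
  have hd : (l : ℝ) - j ≠ 0 := by
    have : (j : ℝ) < l := by exact_mod_cast hjl
    exact (sub_pos.2 this).ne'
  field_simp
  linarith

/-- an infinite set of indices on which a member of a finite family of properties holds -/
theorem exists_infinite {ι : Type} (F : Finset ι) (P : ι → ℕ → Prop)
    (h : ∀ᶠ k in Filter.cofinite, ∃ q ∈ F, P q k) : ∃ q ∈ F, {k | P q k}.Infinite := by
  by_contra hcon
  push Not at hcon
  have h1 : (⋃ q ∈ F, {k | P q k}).Finite := by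
    refine Set.Finite.biUnion (Finset.finite_toSet F) fun q hq => ?_
    have := hcon q hq
    simpa [Set.not_infinite] using this
  have h2 : {k | ¬ ∃ q ∈ F, P q k}.Finite := Filter.eventually_cofinite.1 h
  refine Set.infinite_univ (α := ℕ) ((h1.union h2).subset fun k _ => ?_)
  by_cases hk : ∃ q ∈ F, P q k
  · obtain ⟨q, hq, hp⟩ := hk
    exact Or.inl (Set.mem_biUnion (Finset.mem_coe.2 hq) hp)
  · exact Or.inr hk

end LinVal

theorem lin_val {𝔮 : Ideal (RR p σ)} {t : RR p σ} (h : IsCurve 𝔮 t) {x : ℕ → σ → ℂ_[p]}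
    (hx : Function.Injective x) (hxz : ∀ k, x k ∈ zer 𝔮) (hxa : ∀ k, AlgPt (x k)) {z : ℂ_[p]}
    (hz : ‖z‖ < 1) (hza : IsAlgebraic ℚ_[p] z) (hS0 : ∀ k, ev (x k) t ≠ z)
    (hS : Function.Injective fun k => ‖ev (x k) t - z‖) {N M : RR p σ} (hN : N ∉ 𝔮) (hM : M ∉ 𝔮) :
    ∃ φ : ℕ → ℕ, StrictMono φ ∧ ∃ α β : ℚ, ∀ k,
      vv (ev (x (φ k)) N / ev (x (φ k)) M) = α + β * vv (ev (x (φ k)) t - z) := by
  classical
  obtain ⟨d, c, hfin⟩ := h.two_term hN hM
  have hT1 : ∀ k, ‖ev (x k) t‖ < 1 := fun k => norm_ev_lt (hxz k).1 h.t0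
  have hS1 : ∀ k, ‖ev (x k) t - z‖ < 1 := fun k => by
    rw [sub_eq_add_neg]
    refine lt_of_le_of_lt (IsUltrametricDist.norm_add_le_max _ _) ?_
    rw [norm_neg]
    exact max_lt (hT1 k) hz
  have hS0' : ∀ k, 0 < ‖ev (x k) t - z‖ := fun k => norm_pos_iff.2 (sub_ne_zero.2 (hS0 k))
  have hn : ∀ j, ∃ n, c j ≠ 0 → IsW (PowerSeries.map (zc p) (c j)) n := by
    intro j
    by_cases hc : c j = 0
    · exact ⟨0, fun h => absurd hc h⟩
    · obtain ⟨n, hn⟩ := exists_isW_of_Z hc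
      exact ⟨n, fun _ => hn⟩
  choose n hn using hn
  set f : ℕ → PowerSeries ℂ_[p] := fun j => recenter z (PowerSeries.map (zc p) (c j)) with hf
  have hfW : ∀ j, c j ≠ 0 → IsW (f j) (n j) := fun j hj => (hn j hj).recenter hz
  have hfB : ∀ j, Bdd (f j) := fun j => recenter_bdd (bdd_map_zc _) hz
  have hval : ∀ j k, val (f j) (ev (x k) t - z) = valZ (c j) (ev (x k) t) := fun j k => by
    rw [hf]
    simp only
    rw [val_recenter (bdd_map_zc _) hz (hS1 k), valZ]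
    congr 1
    ring
  have e1 : ∀ᶠ k in Filter.cofinite, ∃ j l : ℕ, j < l ∧ l ≤ d ∧ c j ≠ 0 ∧
      c l ≠ 0 ∧ valZ (c j) (ev (x k) t) ≠ 0 ∧ valZ (c l) (ev (x k) t) ≠ 0 ∧
      ‖valZ (c j) (ev (x k) t)‖ * ‖ev (x k) N / ev (x k) M‖ ^ j =
        ‖valZ (c l) (ev (x k) t)‖ * ‖ev (x k) N / ev (x k) M‖ ^ l := by
    rw [Filter.eventually_cofinite]
    refine (hfin.preimage hx.injOn).subset fun k hk => ?_
    exact ⟨hxz k, hk⟩
  have e2 : ∀ᶠ k in Filter.cofinite, ∀ j ∈ Finset.range (d + 1), c j ≠ 0 →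
      ∃ b ≤ n j, Dom (f j) ‖ev (x k) t - z‖ b := by
    rw [Filter.eventually_all_finset]
    intro j _
    by_cases hc : c j = 0
    · exact Filter.Eventually.of_forall fun k hk => absurd hc hk
    · rw [Filter.eventually_cofinite]
      refine ((hfW j hc).finite_nondom.preimage hS.injOn).subset fun k hk => ?_
      refine ⟨hS0' k, hS1 k, fun hb => hk fun _ => hb⟩
  have e3 : ∀ᶠ k in Filter.cofinite, ev (x k) N ≠ 0 := by
    rw [Nat.cofinite_eq_atTop]
    exact h.eventually_ne hN hx hxz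
  have e4 : ∀ᶠ k in Filter.cofinite, ev (x k) M ≠ 0 := by
    rw [Nat.cofinite_eq_atTop]
    exact h.eventually_ne hM hx hxz
  set B : ℕ := (Finset.range (d + 1)).sup n with hB
  set F : Finset (ℕ × ℕ × ℕ × ℕ) := Finset.range (d + 1) ×ˢ Finset.range (d + 1) ×ˢ
    Finset.range (B + 1) ×ˢ Finset.range (B + 1) with hF
  set P : ℕ × ℕ × ℕ × ℕ → ℕ → Prop := fun q k =>
    q.1 < q.2.1 ∧ Dom (f q.1) ‖ev (x k) t - z‖ q.2.2.1 ∧ Dom (f q.2.1) ‖ev (x k) t - z‖ q.2.2.2 ∧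
      ‖valZ (c q.1) (ev (x k) t)‖ * ‖ev (x k) N / ev (x k) M‖ ^ q.1 =
        ‖valZ (c q.2.1) (ev (x k) t)‖ * ‖ev (x k) N / ev (x k) M‖ ^ q.2.1 ∧
      ev (x k) N ≠ 0 ∧ ev (x k) M ≠ 0 with hP
  have e5 : ∀ᶠ k in Filter.cofinite, ∃ q ∈ F, P q k := by
    filter_upwards [e1, e2, e3, e4] with k h1 h2 h3 h4
    obtain ⟨j, l, hjl, hld, hcj, hcl, hvj, hvl, heq⟩ := h1
    have hj : j ∈ Finset.range (d + 1) := Finset.mem_range.2 (by omega)
    have hl : l ∈ Finset.range (d + 1) := Finset.mem_range.2 (by omega)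
    obtain ⟨b, hb, hD⟩ := h2 j hj hcj
    obtain ⟨b', hb', hD'⟩ := h2 l hl hcl
    have hbB : b ≤ B := hb.trans (Finset.le_sup (f := n) hj)
    have hbB' : b' ≤ B := hb'.trans (Finset.le_sup (f := n) hl)
    refine ⟨(j, l, b, b'), ?_, hjl, hD, hD', heq, h3, h4⟩
    simp only [hF, Finset.mem_product, Finset.mem_range]
    exact ⟨by omega, by omega, by omega, by omega⟩
  obtain ⟨⟨j, l, b, b'⟩, -, hinf⟩ := LinVal.exists_infinite F P e5
  set φ : ℕ → ℕ := Nat.nth (P (j, l, b, b')) with hφ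
  have hmono : StrictMono φ := Nat.nth_strictMono hinf
  have hmem : ∀ k, P (j, l, b, b') (φ k) := fun k => Nat.nth_mem_of_infinite hinf k
  have hjl : j < l := (hmem 0).1
  set a : ℝ := ‖PowerSeries.coeff b (f j)‖ with ha
  set a' : ℝ := ‖PowerSeries.coeff b' (f l)‖ with ha'
  have ha0 : 0 < a := norm_pos_iff.2 (hmem 0).2.1.1
  have ha0' : 0 < a' := norm_pos_iff.2 (hmem 0).2.2.1.1
  have key : ∀ k, vv (ev (x (φ k)) N / ev (x (φ k)) M) =
      (Real.logb p a' - Real.logb p a) / ((l : ℝ) - j) +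
        (((b : ℝ) - b') / ((l : ℝ) - j)) * vv (ev (x (φ k)) t - z) := by
    intro k
    obtain ⟨-, hD, hD', heq, h3, h4⟩ := hmem k
    simp only at hD hD' heq
    have h5 := hD.norm_val (hfB j) (hS0' _) (hS1 _) rfl
    have h6 := hD'.norm_val (hfB l) (hS0' _) (hS1 _) rfl
    rw [hval] at h5 h6
    rw [h5, h6] at heq
    exact LinVal.tie_log ha0 ha0' (hS0' _) (norm_pos_iff.2 (div_ne_zero h3 h4)) hjl heq
  -- rationality of the constant
  have hk0 := key 0
  obtain ⟨-, -, -, -, h3, h4⟩ := hmem 0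
  obtain ⟨q1, hq1⟩ : ∃ q : ℚ, vv (ev (x (φ 0)) N / ev (x (φ 0)) M) = q := by
    refine vv_rat ?_ (div_ne_zero h3 h4)
    rw [div_eq_mul_inv]
    exact (algebraic_ev (hxz _).1 (hxa _) N).mul (algebraic_ev (hxz _).1 (hxa _) M).inv
  obtain ⟨q2, hq2⟩ : ∃ q : ℚ, vv (ev (x (φ 0)) t - z) = q := by
    refine vv_rat ?_ (sub_ne_zero.2 (hS0 _))
    exact (algebraic_ev (hxz _).1 (hxa _) t).sub hza
  refine ⟨φ, hmono, q1 - (((b : ℚ) - b') / ((l : ℚ) - j)) * q2, ((b : ℚ) - b') / ((l : ℚ) - j),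
    fun k => ?_⟩
  rw [key k]
  rw [hq1, hq2] at hk0
  push_cast
  linarith

end Pool.Agent.ZPB
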