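import Pool.Agent.ZPB.DiffBasic

/-!
# Module AI2: local analysis in `ℂ((t))`

`δ = d/dt` on `ℂ((t))`. `δ` is a derivation (compare coefficients of products), its constants are `ℂ`.
`local_S`: let `δ x ≠ 0`. Up to terms of order `≥ -1`, `SS δ x = s t^(-2)` with `s = (1 - n² ε²)/2`:
* `x = c + a t^k + …` (`k ≥ 1`, `a ≠ 0`): `schw δ x = (1 - k²)/2 t^(-2) + O(t^(-1))`. If `c ≠ 0, 1728`: `SJ(x) (δx)² = O(1)`,
  `s = (1 - k²)/2`. If `c = 0`: `4/(9x²) (δx)² = (4/9) k² t^(-2) + …`, the other terms are `O(t^(-1))`: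
  `s = (1 - k²/9)/2`. If `c = 1728`: `3/(8(x-1728)²) (δx)² = (3/8) k² t^(-2) + …`: `s = (1 - k²/4)/2`.
* `x = a t^(-n) + …` (`n ≥ 1`, `a ≠ 0`): `SJ(x) = (4/9 + 3/8 - 23/72)/x² + O(x^(-3)) = 1/(2x²) + …`, so
  `SJ(x)(δx)² = (n²/2) t^(-2) + O(t^(-1))`; `schw δ x = (1 - n²)/2 t^(-2) + O(t^(-1))`; `s = 1/2`.
So always `s ≤ 1/2`, with equality iff `x` has a pole.
`no_R1`: let `B = SS δ x1 - SS δ x2 ≠ 0` of order `n ≥ -2`. The coefficient of `t^(-2)` of the right side of `R1` is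
`-n/2 - n²/8 = -n(n+4)/8 ≤ 1/2` with equality iff `n = -2`; the left side has `(5/2 - s1 - s2)/3 ≥ 1/2` with equality
iff `s1 = s2 = 1/2`. So `n = -2` and `s1 = s2`; but `s1 = s2` gives `n ≥ -1`: contradiction.
-/

set_option linter.all false

namespace Pool.Agent.ZPB

/-- `d/dt` on `ℂ((t))` -/
noncomputable def dt (f : LaurentSeries ℂ) : LaurentSeries ℂ := LaurentSeries.derivative ℂ f

theorem Loc.dt_coeff (f : LaurentSeries ℂ) (n : ℤ) : (dt f).coeff n = (n + 1 : ℂ) * f.coeff (n + 1) := by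
  unfold dt
  rw [LaurentSeries.derivative_apply, LaurentSeries.hasseDeriv_coeff]
  simp

/-- the Euler operator -/
noncomputable def Loc.eu (f : LaurentSeries ℂ) : LaurentSeries ℂ := HahnSeries.single 1 1 * dt f

theorem Loc.coeff_C (c : ℂ) (n : ℤ) : (HahnSeries.C c : LaurentSeries ℂ).coeff n = if n = 0 then c else 0 := by
  rw [HahnSeries.C_apply, HahnSeries.coeff_single]
  split_ifs <;> rfl

theorem Loc.eu_coeff (f : LaurentSeries ℂ) (n : ℤ) : (Loc.eu f).coeff n = (n : ℂ) * f.coeff n := by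
  unfold Loc.eu
  rw [HahnSeries.coeff_single_mul, Loc.dt_coeff]
  simp

theorem Loc.dt_eu (f : LaurentSeries ℂ) : dt f = HahnSeries.single (-1) 1 * Loc.eu f := by
  ext n
  rw [HahnSeries.coeff_single_mul, Loc.eu_coeff, Loc.dt_coeff]
  simp

theorem Loc.eu_supp (f : LaurentSeries ℂ) : (Loc.eu f).support ⊆ f.support := by
  intro n hn
  rw [HahnSeries.mem_support] at hn ⊢
  intro h
  apply hn
  rw [Loc.eu_coeff, h, mul_zero]

theorem Loc.eu_mul (f g : LaurentSeries ℂ) : Loc.eu (f * g) = Loc.eu f * g + f * Loc.eu g := by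
  ext n
  rw [Loc.eu_coeff, HahnSeries.coeff_add, HahnSeries.coeff_mul,
    HahnSeries.coeff_mul_left' f.isPWO_support (Loc.eu_supp f),
    HahnSeries.coeff_mul_right' g.isPWO_support (Loc.eu_supp g), Finset.mul_sum, ← Finset.sum_add_distrib]
  apply Finset.sum_congr rfl
  intro ij hij
  have h : ij.1 + ij.2 = n := by
    simp only [Finset.mem_antidiagonal, Finset.mem_addAntidiagonal] at hij
    exact hij.2.2
  rw [Loc.eu_coeff, Loc.eu_coeff, ← h]
  push_cast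
  ring

theorem isDer_dt : IsDer dt := by
  constructor
  · intro a b
    unfold dt
    exact map_add _ a b
  · intro a b
    rw [Loc.dt_eu, Loc.eu_mul, Loc.dt_eu a, Loc.dt_eu b]
    ring

theorem dt_eq_zero_iff (f : LaurentSeries ℂ) : dt f = 0 ↔ ∃ c : ℂ, f = HahnSeries.C c := by
  constructor
  · intro h
    refine ⟨f.coeff 0, ?_⟩
    ext n
    rw [Loc.coeff_C]
    split_ifs with hn
    · rw [hn]
    · have h1 := Loc.dt_coeff f (n - 1)
      rw [h] at h1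
      simp only [sub_add_cancel, HahnSeries.coeff_zero] at h1
      push_cast at h1
      rw [sub_add_cancel] at h1
      have h2 : (n : ℂ) ≠ 0 := by exact_mod_cast hn
      exact (mul_eq_zero.mp h1.symm).resolve_left h2
  · rintro ⟨c, rfl⟩
    ext n
    rw [Loc.dt_coeff, Loc.coeff_C, HahnSeries.coeff_zero]
    split_ifs with hn
    · have : (n : ℂ) + 1 = 0 := by exact_mod_cast hn
      rw [this, zero_mul]
    · rw [mul_zero]

/-- `f = a t^m + O(t^(m+1))` -/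
def Loc.L (f : LaurentSeries ℂ) (m : ℤ) (a : ℂ) : Prop := (∀ i : ℤ, i < m → f.coeff i = 0) ∧ f.coeff m = a

theorem Loc.L.add {f g : LaurentSeries ℂ} {m : ℤ} {a b : ℂ} (hf : Loc.L f m a) (hg : Loc.L g m b) :
    Loc.L (f + g) m (a + b) := by
  refine ⟨fun i hi => ?_, ?_⟩
  · rw [HahnSeries.coeff_add, hf.1 i hi, hg.1 i hi, add_zero]
  · rw [HahnSeries.coeff_add, hf.2, hg.2]

theorem Loc.L.sub {f g : LaurentSeries ℂ} {m : ℤ} {a b : ℂ} (hf : Loc.L f m a) (hg : Loc.L g m b) :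
    Loc.L (f - g) m (a - b) := by
  refine ⟨fun i hi => ?_, ?_⟩
  · rw [HahnSeries.coeff_sub, hf.1 i hi, hg.1 i hi, sub_zero]
  · rw [HahnSeries.coeff_sub, hf.2, hg.2]

theorem Loc.L.mul {f g : LaurentSeries ℂ} {m n : ℤ} {a b : ℂ} (hf : Loc.L f m a) (hg : Loc.L g n b) :
    Loc.L (f * g) (m + n) (a * b) := by
  have key : ∀ ij : ℤ × ℤ, ij.1 ∈ f.support → ij.2 ∈ g.support → m ≤ ij.1 ∧ n ≤ ij.2 := by
    intro ij h1 h2
    rw [HahnSeries.mem_support] at h1 h2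
    refine ⟨?_, ?_⟩
    · by_contra h
      exact h1 (hf.1 _ (not_le.mp h))
    · by_contra h
      exact h2 (hg.1 _ (not_le.mp h))
  refine ⟨fun i hi => ?_, ?_⟩
  · rw [HahnSeries.coeff_mul]
    apply Finset.sum_eq_zero
    intro ij hij
    simp only [Finset.mem_antidiagonal, Finset.mem_addAntidiagonal] at hij
    have := key ij hij.1 hij.2.1
    omega
  · rw [HahnSeries.coeff_mul, Finset.sum_eq_single (m, n), hf.2, hg.2]
    · intro ij hij hne
      simp only [Finset.mem_antidiagonal, Finset.mem_addAntidiagonal] at hij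
      have := key ij hij.1 hij.2.1
      exfalso
      apply hne
      ext
      · simp only
        omega
      · simp only
        omega
    · intro h
      simp only [Finset.mem_antidiagonal, Finset.mem_addAntidiagonal, HahnSeries.mem_support] at h
      by_cases h1 : f.coeff m = 0
      · rw [h1, zero_mul]
      · by_cases h2 : g.coeff n = 0
        · rw [h2, mul_zero]
        · exact absurd ⟨h1, h2, trivial⟩ h

theorem Loc.L.uniq {f : LaurentSeries ℂ} {m n : ℤ} {a b : ℂ} (hf : Loc.L f m a) (hg : Loc.L f n b)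
    (ha : a ≠ 0) (hb : b ≠ 0) : m = n ∧ a = b := by
  have h : m = n := by
    rcases lt_trichotomy m n with h | h | h
    · exact absurd (hf.2.symm.trans (hg.1 m h)) ha
    · exact h
    · exact absurd (hg.2.symm.trans (hf.1 n h)) hb
  subst h
  exact ⟨rfl, hf.2.symm.trans hg.2⟩

theorem Loc.L.ex {f : LaurentSeries ℂ} (hf : f ≠ 0) : ∃ a : ℂ, a ≠ 0 ∧ Loc.L f f.order a :=
  ⟨f.coeff f.order, fun h => hf (HahnSeries.coeff_order_eq_zero.mp h),
    fun i hi => HahnSeries.coeff_eq_zero_of_lt_order hi, rfl⟩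

theorem Loc.L.ne {f : LaurentSeries ℂ} {m : ℤ} {a : ℂ} (hf : Loc.L f m a) (ha : a ≠ 0) : f ≠ 0 := by
  rintro rfl
  exact ha (hf.2.symm.trans HahnSeries.coeff_zero)

theorem Loc.L.order {f : LaurentSeries ℂ} {m : ℤ} {a : ℂ} (hf : Loc.L f m a) (ha : a ≠ 0) :
    f.order = m := by
  obtain ⟨b, hb, h⟩ := Loc.L.ex (hf.ne ha)
  exact (h.uniq hf hb ha).1

theorem Loc.L.const (c : ℂ) : Loc.L (HahnSeries.C c) 0 c := by
  refine ⟨fun i hi => ?_, ?_⟩
  · rw [Loc.coeff_C, if_neg hi.ne]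
  · rw [Loc.coeff_C, if_pos rfl]

theorem Loc.L.inv {f : LaurentSeries ℂ} {m : ℤ} {a : ℂ} (hf : Loc.L f m a) (ha : a ≠ 0) :
    Loc.L f⁻¹ (-m) a⁻¹ := by
  have h0 := hf.ne ha
  obtain ⟨b, hb, h⟩ := Loc.L.ex (inv_ne_zero h0)
  have h1 := hf.mul h
  rw [mul_inv_cancel₀ h0] at h1
  have h2 : Loc.L (1 : LaurentSeries ℂ) 0 1 := by
    have := Loc.L.const 1
    rwa [map_one] at this
  have h3 := h1.uniq h2 (mul_ne_zero ha hb) one_ne_zero
  have h4 : f⁻¹.order = -m := by omega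
  have h5 : b = a⁻¹ := by
    exact eq_inv_of_mul_eq_one_right h3.2
  rw [h4, h5] at h
  exact h

theorem Loc.L.div {f g : LaurentSeries ℂ} {m n : ℤ} {a b : ℂ} (hf : Loc.L f m a) (hg : Loc.L g n b)
    (hb : b ≠ 0) : Loc.L (f / g) (m - n) (a / b) := by
  rw [div_eq_mul_inv, div_eq_mul_inv, sub_eq_add_neg]
  exact hf.mul (hg.inv hb)

theorem Loc.L.der {f : LaurentSeries ℂ} {m : ℤ} {a : ℂ} (hf : Loc.L f m a) :
    Loc.L (dt f) (m - 1) (m * a) := by
  refine ⟨fun i hi => ?_, ?_⟩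
  · rw [Loc.dt_coeff, hf.1 (i + 1) (by omega), mul_zero]
  · rw [Loc.dt_coeff, sub_add_cancel, hf.2]
    push_cast
    ring

theorem Loc.L.weak {f : LaurentSeries ℂ} {m : ℤ} {a : ℂ} (hf : Loc.L f m a) {k : ℤ} (hk : k < m) :
    Loc.L f k 0 :=
  ⟨fun i hi => hf.1 i (hi.trans hk), hf.1 k hk⟩

theorem Loc.L.smul {f : LaurentSeries ℂ} {m : ℤ} {a : ℂ} (hf : Loc.L f m a) (c : ℂ) :
    Loc.L (HahnSeries.C c * f) m (c * a) := by
  have := (Loc.L.const c).mul hf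
  rwa [zero_add] at this

theorem Loc.L.dlog {f : LaurentSeries ℂ} {m : ℤ} {a : ℂ} (hf : Loc.L f m a) (ha : a ≠ 0) :
    Loc.L (dt f / f) (-1) m := by
  have h := hf.der.div hf ha
  have e1 : m - 1 - m = -1 := by ring
  have e2 : (m : ℂ) * a / a = m := by field_simp
  rwa [e1, e2] at h

theorem Loc.L.ddlog {f : LaurentSeries ℂ} {m : ℤ} {a : ℂ} (hf : Loc.L f m a) (ha : a ≠ 0) (p q : ℂ) :
    Loc.L (HahnSeries.C p * dt (dt f / f) -
      HahnSeries.C q * (dt f / f) ^ 2) (-2) (-p * m - q * m ^ 2) := by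
  have h1 := hf.dlog ha
  have h2 := h1.der.smul p
  have h3 := (h1.mul h1).smul q
  have e1 : (-1 : ℤ) - 1 = -2 := by norm_num
  have e2 : (-1 : ℤ) + -1 = -2 := by norm_num
  rw [e1] at h2
  rw [e2] at h3
  have h4 := h2.sub h3
  rw [← pow_two] at h4
  have e3 : p * ((-1 : ℤ) * (m : ℂ)) - q * ((m : ℂ) * m) = -p * m - q * m ^ 2 := by
    push_cast
    ring
  rwa [e3] at h4

theorem Loc.sc_eq (f : LaurentSeries ℂ) : sc dt f = HahnSeries.C 1 * dt (dt f / f) -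
    HahnSeries.C (1 / 2) * (dt f / f) ^ 2 := by
  unfold sc
  have h2 : (HahnSeries.C (1 / 2 : ℂ) : LaurentSeries ℂ) = 1 / 2 := by
    simp only [map_div₀, map_ofNat, map_one]
  rw [h2]
  simp only [map_one]
  ring

theorem Loc.SJ_eq (x d : LaurentSeries ℂ) (h1 : x ≠ 0) (h2 : x - 1728 ≠ 0) :
    SJ x * d ^ 2 = HahnSeries.C (4 / 9) * ((d / x) * (d / x)) +
      HahnSeries.C (3 / 8) * ((d / (x - 1728)) * (d / (x - 1728))) -
      HahnSeries.C (23 / 72) * ((d / x) * (d / (x - 1728))) := by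
  unfold SJ
  have e1 : (HahnSeries.C (4 / 9 : ℂ) : LaurentSeries ℂ) = 4 / 9 := by
    simp only [map_div₀, map_ofNat, map_one]
  have e2 : (HahnSeries.C (3 / 8 : ℂ) : LaurentSeries ℂ) = 3 / 8 := by
    simp only [map_div₀, map_ofNat, map_one]
  have e3 : (HahnSeries.C (23 / 72 : ℂ) : LaurentSeries ℂ) = 23 / 72 := by
    simp only [map_div₀, map_ofNat, map_one]
  rw [e1, e2, e3]
  field_simp

theorem Loc.const1728 : (1728 : LaurentSeries ℂ) = HahnSeries.C 1728 := by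
  simp only [map_ofNat]

theorem Loc.gen {x : LaurentSeries ℂ} {m : ℤ} {a α β : ℂ} (h1 : x ≠ 0) (h2 : x - 1728 ≠ 0)
    (hm : Loc.L (dt x) m a) (ha : a ≠ 0) (hu : Loc.L (dt x / x) (-1) α)
    (hv : Loc.L (dt x / (x - 1728)) (-1) β) :
    Loc.L (SS dt x) (-2) (4 / 9 * α ^ 2 + 3 / 8 * β ^ 2 - 23 / 72 * (α * β) - m - m ^ 2 / 2) := by
  have e2 : (-1 : ℤ) + -1 = -2 := by norm_num
  have A := (hu.mul hu).smul (4 / 9)
  have B := (hv.mul hv).smul (3 / 8)
  have C := (hu.mul hv).smul (23 / 72)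
  rw [e2] at A B C
  have H := ((A.add B).sub C).add (hm.ddlog ha 1 (1 / 2))
  unfold SS schw
  rw [Loc.SJ_eq x (dt x) h1 h2, Loc.sc_eq]
  have e3 : 4 / 9 * (α * α) + 3 / 8 * (β * β) - 23 / 72 * (α * β) + (-1 * (m : ℂ) - 1 / 2 * m ^ 2) =
    4 / 9 * α ^ 2 + 3 / 8 * β ^ 2 - 23 / 72 * (α * β) - m - m ^ 2 / 2 := by ring
  rw [e3] at H
  exact H

theorem local_S {x : LaurentSeries ℂ} (hx : dt x ≠ 0) :
    (∀ m : ℤ, m < -2 → (SS dt x).coeff m = 0) ∧ ∃ s : ℝ, s ≤ 1 / 2 ∧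
      (SS dt x).coeff (-2) = (s : ℂ) ∧ (s = 1 / 2 ↔ x.order < 0) := by
  have hx0 : x ≠ 0 := by
    rintro rfl
    apply hx
    rw [dt_eq_zero_iff]
    exact ⟨0, by simp⟩
  have hx1 : x - 1728 ≠ 0 := by
    intro h
    apply hx
    rw [dt_eq_zero_iff]
    exact ⟨1728, by rw [← Loc.const1728]; exact sub_eq_zero.mp h⟩
  suffices H : ∃ s : ℝ, s ≤ 1 / 2 ∧ Loc.L (SS dt x) (-2) (s : ℂ) ∧ (s = 1 / 2 ↔ x.order < 0) by
    obtain ⟨s, h1, h2, h3⟩ := H
    exact ⟨fun m hm => h2.1 m hm, s, h1, h2.2, h3⟩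
  by_cases hord : x.order < 0
  · obtain ⟨a, ha, hL⟩ := Loc.L.ex hx0
    have hn : (x.order : ℂ) ≠ 0 := by
      have : x.order ≠ 0 := hord.ne
      exact_mod_cast this
    have hd := hL.der
    have hL1 : Loc.L (x - 1728) x.order a := by
      have := hL.sub ((Loc.L.const 1728).weak hord)
      rw [sub_zero, ← Loc.const1728] at this
      exact this
    have hu := hL.dlog ha
    have hv : Loc.L (dt x / (x - 1728)) (-1) x.order := by
      have := hd.div hL1 ha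
      have e1 : x.order - 1 - x.order = -1 := by ring
      have e2 : (x.order : ℂ) * a / a = x.order := by field_simp
      rwa [e1, e2] at this
    have H := Loc.gen hx0 hx1 hd (mul_ne_zero hn ha) hu hv
    refine ⟨1 / 2, le_refl _, ?_, by simp [hord]⟩
    have e : 4 / 9 * (x.order : ℂ) ^ 2 + 3 / 8 * (x.order : ℂ) ^ 2 - 23 / 72 * ((x.order : ℂ) * x.order) -
        ((x.order - 1 : ℤ) : ℂ) - ((x.order - 1 : ℤ) : ℂ) ^ 2 / 2 = ((1 / 2 : ℝ) : ℂ) := by
      push_cast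
      ring
    rwa [e] at H
  · have hc0 : ∀ i : ℤ, i < 0 → x.coeff i = 0 := fun i hi =>
      HahnSeries.coeff_eq_zero_of_lt_order (lt_of_lt_of_le hi (not_lt.mp hord))
    have hxc : Loc.L x 0 (x.coeff 0) := ⟨hc0, rfl⟩
    obtain ⟨c, hc⟩ : ∃ c, c = x.coeff 0 := ⟨_, rfl⟩
    rw [← hc] at hxc
    have hy0 : x - HahnSeries.C c ≠ 0 := by
      intro h
      apply hx
      rw [dt_eq_zero_iff]
      exact ⟨c, sub_eq_zero.mp h⟩
    obtain ⟨a, ha, hL⟩ := Loc.L.ex hy0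
    obtain ⟨k, hk⟩ : ∃ k, k = (x - HahnSeries.C c).order := ⟨_, rfl⟩
    rw [← hk] at hL
    have hk1 : 0 < k := by
      have h0 : Loc.L (x - HahnSeries.C c) 0 0 := by
        have := hxc.sub (Loc.L.const c)
        rwa [sub_self] at this
      by_contra hcon
      rcases lt_or_eq_of_le (not_lt.mp hcon) with h | h
      · exact ha (hL.2.symm.trans (h0.1 k h))
      · rw [h] at hL
        exact ha (hL.2.symm.trans h0.2)
    have hkC : (k : ℂ) ≠ 0 := by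
      have : k ≠ 0 := hk1.ne'
      exact_mod_cast this
    have hdx : dt x = dt (x - HahnSeries.C c) := by
      have h1 : dt (HahnSeries.C c) = 0 := (dt_eq_zero_iff _).mpr ⟨c, rfl⟩
      have h2 := isDer_dt.1 (x - HahnSeries.C c) (HahnSeries.C c)
      rw [sub_add_cancel, h1, add_zero] at h2
      exact h2
    have hd : Loc.L (dt x) (k - 1) (k * a) := by
      rw [hdx]
      exact hL.der
    have hka : (k : ℂ) * a ≠ 0 := mul_ne_zero hkC ha
    have hkR : (1 : ℝ) ≤ (k : ℝ) := by exact_mod_cast hk1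
    have hx1c : Loc.L (x - 1728) 0 (c - 1728) := by
      have := hxc.sub (Loc.L.const 1728)
      rwa [← Loc.const1728] at this
    -- the quotients
    have hu : ∃ α : ℝ, Loc.L (dt x / x) (-1) (α : ℂ) ∧ (α = 0 ∨ (α = k ∧ c = 0)) := by
      by_cases hc0 : c = 0
      · refine ⟨k, ?_, Or.inr ⟨rfl, hc0⟩⟩
        have h1 : x - HahnSeries.C c = x := by rw [hc0, map_zero, sub_zero]
        rw [h1] at hL
        have := hL.dlog ha
        simpa using this
      · refine ⟨0, ?_, Or.inl rfl⟩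
        have := (hd.div hxc hc0).weak (k := -1) (by omega)
        simpa using this
    have hv : ∃ β : ℝ, Loc.L (dt x / (x - 1728)) (-1) (β : ℂ) ∧ (β = 0 ∨ (β = k ∧ c = 1728)) := by
      by_cases hc0 : c = 1728
      · refine ⟨k, ?_, Or.inr ⟨rfl, hc0⟩⟩
        have h1 : x - HahnSeries.C c = x - 1728 := by rw [hc0, ← Loc.const1728]
        rw [h1] at hL
        have h3 := hd.div hL ha
        have e1 : k - 1 - k = -1 := by ring
        have e2 : (k : ℂ) * a / a = k := by field_simp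
        rw [e1, e2] at h3
        simpa using h3
      · refine ⟨0, ?_, Or.inl rfl⟩
        have := (hd.div hx1c (sub_ne_zero.mpr hc0)).weak (k := -1) (by omega)
        simpa using this
    obtain ⟨α, hα, hα'⟩ := hu
    obtain ⟨β, hβ, hβ'⟩ := hv
    have H := Loc.gen hx0 hx1 hd hka hα hβ
    have hlt : 4 / 9 * α ^ 2 + 3 / 8 * β ^ 2 - 23 / 72 * (α * β) - ((k : ℝ) - 1) - ((k : ℝ) - 1) ^ 2 / 2 < 1 / 2 := by
      rcases hα' with h1 | ⟨h1, h1'⟩
      · rcases hβ' with h2 | ⟨h2, h2'⟩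
        · rw [h1, h2]
          nlinarith
        · rw [h1, h2]
          nlinarith
      · rcases hβ' with h2 | ⟨h2, h2'⟩
        · rw [h1, h2]
          nlinarith
        · exfalso
          rw [h1'] at h2'
          norm_num at h2'
    refine ⟨_, hlt.le, ?_, ?_⟩
    · have e : 4 / 9 * (α : ℂ) ^ 2 + 3 / 8 * (β : ℂ) ^ 2 - 23 / 72 * ((α : ℂ) * β) -
        ((k - 1 : ℤ) : ℂ) - ((k - 1 : ℤ) : ℂ) ^ 2 / 2 =
        ((4 / 9 * α ^ 2 + 3 / 8 * β ^ 2 - 23 / 72 * (α * β) - ((k : ℝ) - 1) - ((k : ℝ) - 1) ^ 2 / 2 : ℝ) : ℂ) := by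
        push_cast
        ring
      rw [e] at H
      exact H
    · constructor
      · intro h
        exact absurd h hlt.ne
      · intro h
        exact absurd h hord

theorem no_R1 {x0 x1 x2 : LaurentSeries ℂ} (h0 : dt x0 ≠ 0) (h1 : dt x1 ≠ 0) (h2 : dt x2 ≠ 0)
    (hx0 : x0.order < 0) (hB : SS dt x1 ≠ SS dt x2) :
    ¬ R1 dt (SS dt x0) (SS dt x1) (SS dt x2) := by
  intro hR
  obtain ⟨h0a, s0, h0b, h0c, h0d⟩ := local_S h0
  obtain ⟨h1a, s1, h1b, h1c, h1d⟩ := local_S h1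
  obtain ⟨h2a, s2, h2b, h2c, h2d⟩ := local_S h2
  have hs0 : s0 = 1 / 2 := h0d.mpr hx0
  have H0 : Loc.L (SS dt x0) (-2) (s0 : ℂ) := ⟨h0a, h0c⟩
  have H1 : Loc.L (SS dt x1) (-2) (s1 : ℂ) := ⟨h1a, h1c⟩
  have H2 : Loc.L (SS dt x2) (-2) (s2 : ℂ) := ⟨h2a, h2c⟩
  have hB0 : SS dt x1 - SS dt x2 ≠ 0 := sub_ne_zero.mpr hB
  obtain ⟨b, hb, hLB⟩ := Loc.L.ex hB0
  obtain ⟨n, hn⟩ : ∃ n, n = (SS dt x1 - SS dt x2).order := ⟨_, rfl⟩
  rw [← hn] at hLB
  have hRHS := hLB.ddlog hb (1 / 2) (1 / 8)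
  have hLHS : Loc.L (HahnSeries.C (1 / 3) * (HahnSeries.C 5 * SS dt x0 - SS dt x1 - SS dt x2)) (-2)
      (1 / 3 * (5 * s0 - s1 - s2)) := ((((H0.smul 5).sub H1).sub H2).smul (1 / 3))
  have e : HahnSeries.C (1 / 3) * (HahnSeries.C 5 * SS dt x0 - SS dt x1 - SS dt x2) =
      HahnSeries.C (1 / 2) * dt (dt (SS dt x1 - SS dt x2) / (SS dt x1 - SS dt x2)) -
      HahnSeries.C (1 / 8) * (dt (SS dt x1 - SS dt x2) / (SS dt x1 - SS dt x2)) ^ 2 := by
    have e1 : (HahnSeries.C (1 / 3 : ℂ) : LaurentSeries ℂ) = 1 / 3 := by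
      simp only [map_div₀, map_ofNat, map_one]
    have e2 : (HahnSeries.C (1 / 2 : ℂ) : LaurentSeries ℂ) = 1 / 2 := by
      simp only [map_div₀, map_ofNat, map_one]
    have e3 : (HahnSeries.C (1 / 8 : ℂ) : LaurentSeries ℂ) = 1 / 8 := by
      simp only [map_div₀, map_ofNat, map_one]
    have e4 : (HahnSeries.C (5 : ℂ) : LaurentSeries ℂ) = 5 := by
      simp only [map_ofNat]
    unfold R1 at hR
    rw [e1, e2, e3, e4]
    have h5 : (1 / 3 : LaurentSeries ℂ) * (5 * SS dt x0 - SS dt x1 - SS dt x2) =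
      (5 * SS dt x0 - SS dt x1 - SS dt x2) / 3 := by ring
    rw [h5, hR]
    ring
  rw [e] at hLHS
  have hval : (1 / 3 * (5 * (s0 : ℂ) - s1 - s2)) = -(1 / 2) * (n : ℂ) - 1 / 8 * (n : ℂ) ^ 2 :=
    hLHS.2.symm.trans hRHS.2
  have hvalR : (1 / 3 * (5 * s0 - s1 - s2)) = -(1 / 2) * (n : ℝ) - 1 / 8 * (n : ℝ) ^ 2 := by
    have : (((1 / 3 * (5 * s0 - s1 - s2)) : ℝ) : ℂ) = ((-(1 / 2) * (n : ℝ) - 1 / 8 * (n : ℝ) ^ 2 : ℝ) : ℂ) := by
      push_cast
      exact hval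
    exact_mod_cast this
  rw [hs0] at hvalR
  have hn2 : ((n : ℝ) + 2) ^ 2 = 0 := by
    apply le_antisymm _ (sq_nonneg _)
    nlinarith
  have hn3 : (n : ℝ) = -2 := by
    have := pow_eq_zero_iff (n := 2) (by norm_num) |>.mp hn2
    linarith
  have hn4 : n = -2 := by exact_mod_cast hn3
  have hs1 : s1 = 1 / 2 := by
    rw [hn3] at hvalR
    linarith
  have hs2 : s2 = 1 / 2 := by
    rw [hn3] at hvalR
    linarith
  apply hb
  rw [← hLB.2, hn4, HahnSeries.coeff_sub, h1c, h2c, hs1, hs2, sub_self]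

end Pool.Agent.ZPB
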