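import Pool.Agent.ZPB.Loc
import Pool.Agent.ZPB.JSeries

/-!
# Module AI5: two Laurent series with the same `SS`

`Jc = Jz` over `ℂ`; `IsPar x q`: `q ∈ t ℂ[[t]]`, `q ≠ 0`, `q x = Jc(q)` (so `x = j(q)`).

* `exists_par`: `y = x⁻¹ ∈ t ℂ[[t]]`; solve `q = y Jc(q)` by iteration `q_0 = 0`, `q_{n+1} = y Jc(q_n)`: `q_{n+1} ≡ q_n` modulo
  `t^(n+1)`. `q x = Jc(q) ≠ 0` shows `q ≠ 0`.
* `loc_eq`. Write `θ_i = δ q_i/q_i` (`δ = dt`), `e2_i = subst q_i E2c` etc. (`E2c = map E2z`). The chain rule and the Ramanujan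
  identities give `δ e2 = θ (e2² - e4)/12` etc.; `θ_i = n_i/t + …` (`n_i = order q_i ≥ 1`) is not zero, `e4, e6` have
  constant term one, `e4³ - e6² = 1728 q dz(q) ≠ 0`, and `Jz_eq` gives `x_i = 1728 e4³/(e4³ - e6²)`. So by `schwarz_identity`
  `u_i = δθ_i/θ_i` satisfies `δ u_i = u_i²/2 + SS δ x_i`. Hence `v = u_1 - u_2` satisfies `δ v = v (u_1 + u_2)/2`.
  `u_i = -1/t + O(1)`, so `v ∈ ℂ[[t]]`; if `v ≠ 0` has order `m ≥ 0`, comparing the coefficients of `t^(m-1)` gives `m = -1`: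
  contradiction. So `v = 0`, `δ(θ_1/θ_2) = 0`, `θ_1 = c θ_2` with `c ∈ ℂ` (`dt_eq_zero_iff`), `c = n_1/n_2` (leading terms),
  `δ(q_1^(n_2)/q_2^(n_1)) = 0`, `q_1^(n_2) = c' q_2^(n_1)`, `c' ∈ ℂ^*`. `q_1 = w^(n_1)` with `w` of order one (the unit
  `q_1/t^(n_1)` of `ℂ[[t]]` has an `n_1`-th root: Hensel, or coefficient by coefficient). Then
  `q_2^(n_1) = (c'' w^(n_2))^(n_1)` for some `c'' ∈ ℂ^*`, so `q_2 = C w^(n_2)` (`q_2/(c'' w^(n_2))` is a root of `Z^(n_1) = 1` in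
  the field `ℂ((t))`, which has only the roots in `ℂ`).
-/

namespace Pool.Agent.ZPB

open PowerSeries

/-- `q j(q)` over `ℂ` -/
noncomputable def Jc : PowerSeries ℂ := PowerSeries.map (Int.castRingHom ℂ) Jz

/-- `ℂ[[t]] → ℂ((t))` -/
noncomputable abbrev toL (f : PowerSeries ℂ) : LaurentSeries ℂ := HahnSeries.ofPowerSeries ℤ ℂ f

/-- `q` is the parameter of `x`: `x = j(q)` -/
def IsPar (x : LaurentSeries ℂ) (q : PowerSeries ℂ) : Prop :=
  q ≠ 0 ∧ constantCoeff q = 0 ∧ toL q * x = toL (PowerSeries.subst q Jc)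

namespace LocEqAux

lemma hs {q : PowerSeries ℂ} (hq : constantCoeff q = 0) : HasSubst q :=
  HasSubst.of_constantCoeff_zero' hq

lemma cc_subst {q : PowerSeries ℂ} (hq : constantCoeff q = 0) (g : PowerSeries ℂ) :
    constantCoeff (PowerSeries.subst q g : PowerSeries ℂ) = constantCoeff g := by
  have h1 : constantCoeff (g - C (constantCoeff g)) = 0 := by simp
  have h2 : constantCoeff (PowerSeries.subst q (g - C (constantCoeff g)) : PowerSeries ℂ) = 0 :=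
    PowerSeries.constantCoeff_subst_eq_zero hq _ h1
  rw [PowerSeries.subst_sub (hs hq), map_sub, sub_eq_zero] at h2
  rw [h2]
  have h3 : (PowerSeries.subst q (C (constantCoeff g)) : PowerSeries ℂ) = C (constantCoeff g) :=
    PowerSeries.subst_C _
  rw [h3]
  simp

lemma exists_root {n : ℕ} (hn : 0 < n) {U : PowerSeries ℂ} (hU : constantCoeff U ≠ 0) :
    ∃ W : PowerSeries ℂ, W ^ n = U := by
  obtain ⟨a, ha⟩ := IsAlgClosed.exists_pow_nat_eq (constantCoeff U) hn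
  obtain ⟨V, hVd⟩ : ∃ V : PowerSeries ℂ, V = C ((constantCoeff U)⁻¹) * U - 1 := ⟨_, rfl⟩
  have hV : constantCoeff V = 0 := by
    rw [hVd, map_sub, map_mul, constantCoeff_C, map_one, inv_mul_cancel₀ hU, sub_self]
  have hB : ∀ k : ℕ, (PowerSeries.binomialSeries ℂ ((n : ℚ)⁻¹)) ^ k = PowerSeries.binomialSeries ℂ ((k : ℚ) * (n : ℚ)⁻¹) := by
    intro k
    induction k with
    | zero => simp
    | succ k ih =>
      rw [pow_succ, ih, ← PowerSeries.binomialSeries_add]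
      congr 1
      push_cast
      ring
  have hBn : (PowerSeries.binomialSeries ℂ ((n : ℚ)⁻¹)) ^ n = 1 + X := by
    rw [hB n, mul_inv_cancel₀ (by exact_mod_cast hn.ne')]
    have := PowerSeries.binomialSeries_nat (R := ℚ) (A := ℂ) 1
    rw [Nat.cast_one, pow_one] at this
    exact this
  refine ⟨C a * PowerSeries.subst V (PowerSeries.binomialSeries ℂ ((n : ℚ)⁻¹)), ?_⟩
  rw [mul_pow, ← PowerSeries.subst_pow (hs hV), hBn, PowerSeries.subst_add (hs hV),
    PowerSeries.subst_X (hs hV), ← map_pow, ha]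
  have h1 : (PowerSeries.subst V (1 : PowerSeries ℂ) : PowerSeries ℂ) = 1 := by
    rw [← PowerSeries.coe_substAlgHom (hs hV), map_one]
  rw [h1, hVd, add_sub_cancel, ← mul_assoc, ← map_mul, mul_inv_cancel₀ hU, map_one, one_mul]

lemma dt_toL (g : PowerSeries ℂ) : dt (toL g) = toL (PowerSeries.derivative ℂ g) := by
  ext n
  rw [Loc.dt_coeff, PowerSeries.coeff_coe, PowerSeries.coeff_coe]
  rcases lt_trichotomy n (-1) with h | h | h
  · rw [if_pos (by omega), if_pos (by omega), mul_zero]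
  · subst h
    simp
  · obtain ⟨m, rfl⟩ := Int.eq_ofNat_of_zero_le (by omega : 0 ≤ n)
    rw [if_neg (by omega), if_neg (by omega), Int.natAbs_natCast, PowerSeries.coeff_derivative]
    have e : (((m : ℤ) + 1).natAbs) = m + 1 := by omega
    rw [e]
    push_cast
    ring

lemma toL_inj : Function.Injective toL := HahnSeries.ofPowerSeries_injective

lemma toL_mul (f g : PowerSeries ℂ) : toL (f * g) = toL f * toL g := map_mul _ f g

lemma toL_pow (f : PowerSeries ℂ) (n : ℕ) : toL (f ^ n) = toL f ^ n := map_pow _ f n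

lemma toL_zero : toL 0 = 0 := map_zero _

lemma toL_C (c : ℂ) : toL (C c) = HahnSeries.C c := HahnSeries.ofPowerSeries_C c

lemma toL_ne {g : PowerSeries ℂ} (hg : g ≠ 0) : toL g ≠ 0 := by
  intro h
  apply hg
  apply toL_inj
  rw [h, toL_zero]

/-- substitution of `q` in an integral power series -/
noncomputable def Ph (q : PowerSeries ℂ) (hq : constantCoeff q = 0) :
    PowerSeries ℤ →+* LaurentSeries ℂ :=
  (HahnSeries.ofPowerSeries ℤ ℂ).comp ((PowerSeries.substAlgHom (R := ℂ) (S := ℂ)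
    (hs hq) : PowerSeries ℂ →ₐ[ℂ] PowerSeries ℂ).toRingHom.comp
    (PowerSeries.map (Int.castRingHom ℂ)))

lemma Ph_apply {q : PowerSeries ℂ} (hq : constantCoeff q = 0) (f : PowerSeries ℤ) :
    Ph q hq f = toL (PowerSeries.subst q (PowerSeries.map (Int.castRingHom ℂ) f)) := by
  rw [← PowerSeries.coe_substAlgHom (hs hq)]
  rfl

lemma Ph_ne {q : PowerSeries ℂ} (hq : constantCoeff q = 0) {f : PowerSeries ℤ}
    (hf : constantCoeff f = 1) : Ph q hq f ≠ 0 := by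
  rw [Ph_apply]
  apply toL_ne
  intro h
  have h1 := cc_subst hq (PowerSeries.map (Int.castRingHom ℂ) f)
  rw [h, map_zero, ← PowerSeries.coeff_zero_eq_constantCoeff_apply, PowerSeries.coeff_map,
    PowerSeries.coeff_zero_eq_constantCoeff_apply, hf, map_one] at h1
  exact zero_ne_one h1

lemma Ph_X {q : PowerSeries ℂ} (hq : constantCoeff q = 0) : Ph q hq X = toL q := by
  rw [Ph_apply, PowerSeries.map_X, PowerSeries.subst_X (hs hq)]

lemma dt_Ph {q : PowerSeries ℂ} (hq : constantCoeff q = 0) (hq0 : q ≠ 0) (f : PowerSeries ℤ) :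
    dt (Ph q hq f) = dt (toL q) / toL q * Ph q hq (th f) := by
  have hQ := toL_ne hq0
  have e : PowerSeries.map (Int.castRingHom ℂ) (PowerSeries.derivative ℤ f) =
      PowerSeries.derivative ℂ (PowerSeries.map (Int.castRingHom ℂ) f) := by
    ext n
    simp [PowerSeries.coeff_derivative]
  rw [th, map_mul, Ph_X, Ph_apply, Ph_apply, dt_toL, dt_toL, PowerSeries.derivative_subst (hs hq),
    e, toL_mul]
  field_simp

lemma ord_toL {q : PowerSeries ℂ} (hq0 : q ≠ 0) (hq : constantCoeff q = 0) :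
    ∃ (n : ℕ) (a : ℂ), 0 < n ∧ a ≠ 0 ∧ Loc.L (toL q) n a ∧
      ∃ U : PowerSeries ℂ, constantCoeff U ≠ 0 ∧ q = X ^ n * U := by
  obtain ⟨a, ha, hL⟩ := Loc.L.ex (toL_ne hq0)
  have h1 : 0 < (toL q).order := by
    by_contra h
    have h2 : (toL q).coeff (toL q).order = 0 := by
      rw [PowerSeries.coeff_coe]
      rcases lt_or_eq_of_le (not_lt.1 h) with h3 | h3
      · rw [if_pos h3]
      · rw [h3]
        simp [hq]
    exact ha (hL.2.symm.trans h2)
  obtain ⟨n, hn⟩ := Int.eq_ofNat_of_zero_le h1.le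
  rw [hn] at hL h1
  have hn0 : 0 < n := by omega
  refine ⟨n, a, hn0, ha, hL, ?_⟩
  have hdvd : X ^ n ∣ q := by
    rw [X_pow_dvd_iff]
    intro m hm
    have h2 := hL.1 m (by omega)
    rw [PowerSeries.coeff_coe, if_neg (by omega), Int.natAbs_natCast] at h2
    exact h2
  obtain ⟨U, hU⟩ := hdvd
  refine ⟨U, ?_, hU⟩
  have h2 := hL.2
  rw [PowerSeries.coeff_coe, if_neg (by omega), Int.natAbs_natCast, hU] at h2
  have h3 : coeff n (X ^ n * U) = constantCoeff U := by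
    have := coeff_X_pow_mul U n 0
    rwa [zero_add, coeff_zero_eq_constantCoeff_apply] at this
  rw [h3] at h2
  rw [h2]
  exact ha

lemma cz : CharZero (LaurentSeries ℂ) :=
  charZero_of_injective_ringHom (f := (HahnSeries.C : ℂ →+* LaurentSeries ℂ))
    HahnSeries.C_injective

/-- the Riccati equation for the parameter of `x` -/
lemma par_ode {x : LaurentSeries ℂ} {q : PowerSeries ℂ} (h : IsPar x q) :
    dt (toL q) / toL q ≠ 0 ∧
    dt (dt (dt (toL q) / toL q) / (dt (toL q) / toL q)) =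
      (dt (dt (toL q) / toL q) / (dt (toL q) / toL q)) ^ 2 / 2 + SS dt x := by
  have := cz
  obtain ⟨hq0, hq, hx⟩ := h
  have hQ := toL_ne hq0
  obtain ⟨n, a, hn, ha, hL, -⟩ := ord_toL hq0 hq
  have hθ : dt (toL q) / toL q ≠ 0 := by
    refine (hL.dlog ha).ne ?_
    exact_mod_cast hn.ne'
  refine ⟨hθ, ?_⟩
  obtain ⟨dz, hdz, hE⟩ := exists_dz
  have h4 : Ph q hq E4z ≠ 0 := Ph_ne hq (by simp [E4z, ← coeff_zero_eq_constantCoeff_apply])
  have h6 : Ph q hq E6z ≠ 0 := Ph_ne hq (by simp [E6z, ← coeff_zero_eq_constantCoeff_apply])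
  have hΔ : Ph q hq E4z ^ 3 - Ph q hq E6z ^ 2 = 1728 * (toL q * Ph q hq dz) := by
    have := congrArg (Ph q hq) hE
    rw [map_sub, map_pow, map_pow, map_mul, map_mul, Ph_X, map_ofNat] at this
    exact this
  have hΔ0 : Ph q hq E4z ^ 3 - Ph q hq E6z ^ 2 ≠ 0 := by
    rw [hΔ]
    exact mul_ne_zero (by norm_num) (mul_ne_zero hQ (Ph_ne hq hdz))
  have r2 := congrArg (Ph q hq) ramanujan2
  have r4 := congrArg (Ph q hq) ramanujan4
  have r6 := congrArg (Ph q hq) ramanujan6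
  rw [map_mul, map_sub, map_pow, map_ofNat] at r2
  rw [map_mul, map_sub, map_mul, map_ofNat] at r4
  rw [map_mul, map_sub, map_mul, map_pow, map_ofNat] at r6
  have hJ := congrArg (Ph q hq) Jz_eq
  rw [map_mul, map_sub, map_pow, map_pow, map_mul, map_mul, map_pow, Ph_X, map_ofNat] at hJ
  have hJ2 : Ph q hq Jz = toL q * x := by
    rw [hx, Ph_apply]
    rfl
  rw [hJ2] at hJ
  have hxe : x = 1728 * Ph q hq E4z ^ 3 / (Ph q hq E4z ^ 3 - Ph q hq E6z ^ 2) := by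
    rw [eq_div_iff hΔ0]
    apply mul_left_cancel₀ hQ
    linear_combination hJ
  refine (schwarz_identity isDer_dt hθ h4 h6 (sub_ne_zero.1 hΔ0) (e2 := Ph q hq E2z) ?_ ?_ ?_
    hxe).2.2
  · rw [dt_Ph hq hq0]
    linear_combination (dt (toL q) / toL q / 12) * r2
  · rw [dt_Ph hq hq0]
    linear_combination (dt (toL q) / toL q / 3) * r4
  · rw [dt_Ph hq hq0]
    linear_combination (dt (toL q) / toL q / 2) * r6


/-- the fixed point equation -/
lemma exists_fix {Y : PowerSeries ℂ} (hY : constantCoeff Y = 0) :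
    ∃ q : PowerSeries ℂ, constantCoeff q = 0 ∧ q = Y * PowerSeries.subst q Jc := by
  have hJ0 : constantCoeff Jc = 1 := by
    rw [Jc, ← PowerSeries.coeff_zero_eq_constantCoeff_apply, PowerSeries.coeff_map,
      PowerSeries.coeff_zero_eq_constantCoeff_apply, Jz_zero, map_one]
  have hJJ : Jc * Jc⁻¹ = 1 := PowerSeries.mul_inv_cancel _ (by rw [hJ0]; exact one_ne_zero)
  obtain ⟨F, hF⟩ : ∃ F : PowerSeries ℂ, F = X * Jc⁻¹ := ⟨_, rfl⟩
  have hF0 : constantCoeff F = 0 := by rw [hF]; simp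
  have hF1 : IsUnit (coeff 1 F) := by
    rw [hF, show (1 : ℕ) = 0 + 1 from rfl, coeff_succ_X_mul, coeff_zero_eq_constantCoeff_apply,
      PowerSeries.constantCoeff_inv, hJ0]
    simp
  obtain ⟨q, hqd⟩ : ∃ q : PowerSeries ℂ, q = PowerSeries.subst Y (F.substInvOfIsUnit hF1) :=
    ⟨_, rfl⟩
  have hq0 : constantCoeff q = 0 := by
    rw [hqd, cc_subst hY]
    exact PowerSeries.constantCoeff_substInvOfIsUnit F hF1
  have h1 : (PowerSeries.subst q F : PowerSeries ℂ) = Y := by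
    rw [hqd, ← PowerSeries.subst_comp_subst_apply (PowerSeries.HasSubst.substInvOfIsUnit F hF1)
      (hs hY), PowerSeries.subst_substInvOfIsUnit_right F hF0 hF1, PowerSeries.subst_X (hs hY)]
  refine ⟨q, hq0, ?_⟩
  rw [hF, PowerSeries.subst_mul (hs hq0), PowerSeries.subst_X (hs hq0)] at h1
  have h2 : (PowerSeries.subst q Jc⁻¹ : PowerSeries ℂ) * PowerSeries.subst q Jc = 1 := by
    rw [← PowerSeries.subst_mul (hs hq0), mul_comm, hJJ, ← PowerSeries.coe_substAlgHom (hs hq0),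
      map_one]
  rw [← h1, mul_assoc, h2, mul_one]

lemma par_of_order {x : LaurentSeries ℂ} (hx : x.order < 0) : ∃ q, IsPar x q := by
  have hx0 : x ≠ 0 := by
    rintro rfl
    rw [HahnSeries.order_zero] at hx
    exact lt_irrefl _ hx
  obtain ⟨a, ha, hL⟩ := Loc.L.ex hx0
  have hLi := hL.inv ha
  obtain ⟨Y, hY⟩ : ∃ Y : PowerSeries ℂ, Y = PowerSeries.mk fun n => (x⁻¹).coeff (n : ℤ) := ⟨_, rfl⟩
  have hYx : toL Y = x⁻¹ := by
    ext n
    rw [PowerSeries.coeff_coe]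
    split_ifs with h
    · exact (hLi.1 n (by omega)).symm
    · obtain ⟨m, rfl⟩ := Int.eq_ofNat_of_zero_le (not_lt.1 h)
      rw [Int.natAbs_natCast, hY, coeff_mk]
  have hY0 : constantCoeff Y = 0 := by
    rw [hY, ← coeff_zero_eq_constantCoeff_apply, coeff_mk]
    exact hLi.1 _ (by push_cast; omega)
  obtain ⟨q, hq0, hq⟩ := exists_fix hY0
  have hJ0 : constantCoeff (PowerSeries.subst q Jc : PowerSeries ℂ) = 1 := by
    rw [cc_subst hq0, Jc, ← PowerSeries.coeff_zero_eq_constantCoeff_apply, PowerSeries.coeff_map,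
      PowerSeries.coeff_zero_eq_constantCoeff_apply, Jz_zero, map_one]
  have hmul : toL q * x = toL (PowerSeries.subst q Jc) := by
    have h1 : toL q = x⁻¹ * toL (PowerSeries.subst q Jc) := by
      rw [← hYx, ← toL_mul, ← hq]
    rw [h1]
    field_simp
  refine ⟨q, ?_, hq0, hmul⟩
  intro h
  have h2 : toL (PowerSeries.subst q Jc) = 0 := by
    rw [← hmul, h, toL_zero, zero_mul]
  have h3 : (PowerSeries.subst q Jc : PowerSeries ℂ) = 0 := toL_inj (h2.trans toL_zero.symm)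
  rw [h3, map_zero] at hJ0
  exact zero_ne_one hJ0

/-- roots of unity in `ℂ((t))` -/
lemma root_eq {A B : PowerSeries ℂ} {n : ℕ} (hn : 0 < n) (hB : B ≠ 0) (h : A ^ n = B ^ n) :
    ∃ c : ℂ, c ≠ 0 ∧ A = C c * B := by
  have hζ := (Complex.isPrimitiveRoot_exp n hn.ne')
  have hζL : IsPrimitiveRoot (HahnSeries.C (Complex.exp (2 * Real.pi * Complex.I / n)) :
      LaurentSeries ℂ) n := hζ.map_of_injective HahnSeries.C_injective
  have h1 : (toL A / toL B) ^ n = 1 := by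
    rw [div_pow, ← toL_pow, ← toL_pow, h]
    exact div_self (toL_ne (pow_ne_zero n hB))
  have : NeZero n := ⟨hn.ne'⟩
  obtain ⟨i, -, hi⟩ := hζL.eq_pow_of_pow_eq_one h1
  refine ⟨Complex.exp (2 * Real.pi * Complex.I / n) ^ i, pow_ne_zero _ (Complex.exp_ne_zero _), ?_⟩
  apply toL_inj
  rw [toL_mul, toL_C, map_pow, hi, div_mul_cancel₀ _ (toL_ne hB)]

lemma theta_eq {x1 x2 : LaurentSeries ℂ} {q1 q2 : PowerSeries ℂ} (hq1 : IsPar x1 q1)
    (hq2 : IsPar x2 q2) (h : SS dt x1 = SS dt x2) :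
    ∃ c : ℂ, dt (toL q1) / toL q1 = HahnSeries.C c * (dt (toL q2) / toL q2) := by
  have := cz
  obtain ⟨hθ1, ho1⟩ := par_ode hq1
  obtain ⟨hθ2, ho2⟩ := par_ode hq2
  obtain ⟨n1, a1, hn1, ha1, hL1, -⟩ := ord_toL hq1.1 hq1.2.1
  obtain ⟨n2, a2, hn2, ha2, hL2, -⟩ := ord_toL hq2.1 hq2.2.1
  have hT1 := hL1.dlog ha1
  have hT2 := hL2.dlog ha2
  obtain ⟨θ1, e1⟩ : ∃ θ, θ = dt (toL q1) / toL q1 := ⟨_, rfl⟩
  obtain ⟨θ2, e2⟩ : ∃ θ, θ = dt (toL q2) / toL q2 := ⟨_, rfl⟩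
  rw [← e1] at hθ1 ho1 hT1
  rw [← e2] at hθ2 ho2 hT2
  rw [← e1, ← e2]
  have hU1 := hT1.dlog (by exact_mod_cast hn1.ne')
  have hU2 := hT2.dlog (by exact_mod_cast hn2.ne')
  obtain ⟨u1, f1⟩ : ∃ u, u = dt θ1 / θ1 := ⟨_, rfl⟩
  obtain ⟨u2, f2⟩ : ∃ u, u = dt θ2 / θ2 := ⟨_, rfl⟩
  rw [← f1] at ho1 hU1
  rw [← f2] at ho2 hU2
  have huu : u1 = u2 := by
    by_contra hne
    have hv : u1 - u2 ≠ 0 := sub_ne_zero.2 hne
    obtain ⟨b, hb, hV⟩ := Loc.L.ex hv
    have hV0 := hU1.sub hU2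
    rw [sub_self] at hV0
    have hm : -1 < (u1 - u2).order := by
      by_contra hc
      rcases lt_or_eq_of_le (not_lt.1 hc) with h3 | h3
      · exact hb (hV.2.symm.trans (hV0.1 _ h3))
      · rw [h3] at hV
        exact hb (hV.2.symm.trans hV0.2)
    have hd := hV.der
    have hs := (hV.mul (hU1.add hU2)).smul (1 / 2)
    have e3 : dt (u1 - u2) = HahnSeries.C (1 / 2) * ((u1 - u2) * (u1 + u2)) := by
      have e4 : (HahnSeries.C (1 / 2 : ℂ) : LaurentSeries ℂ) = 1 / 2 := by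
        simp only [map_div₀, map_ofNat, map_one]
      rw [IsDer.sub isDer_dt, ho1, ho2, h, e4]
      ring
    rw [← e3] at hs
    have e5 : (u1 - u2).order + -1 = (u1 - u2).order - 1 := by ring
    rw [e5] at hs
    have h6 := hd.2.symm.trans hs.2
    have h7 : (((u1 - u2).order : ℂ) + 1) * b = 0 := by
      push_cast at h6
      linear_combination h6
    rcases mul_eq_zero.1 h7 with h8 | h8
    · have h9 : (u1 - u2).order + 1 = 0 := by exact_mod_cast h8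
      omega
    · exact hb h8
  have hd : dt (θ1 / θ2) = 0 := by
    have g1 : dt θ1 = u1 * θ1 := by rw [f1]; field_simp
    have g2 : dt θ2 = u2 * θ2 := by rw [f2]; field_simp
    rw [IsDer.div isDer_dt _ hθ2, g1, g2, huu]
    field_simp
    ring
  obtain ⟨c, hc⟩ := (dt_eq_zero_iff _).1 hd
  exact ⟨c, by rw [← hc, div_mul_cancel₀ _ hθ2]⟩

lemma dlog_pow {Q : LaurentSeries ℂ} (n : ℕ) : dt (Q ^ n) * Q = n * Q ^ n * dt Q := by
  cases n with
  | zero =>
    rw [pow_zero, IsDer.one isDer_dt]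
    simp
  | succ n =>
    rw [IsDer.pow isDer_dt]
    push_cast
    ring

lemma loc_main {x1 x2 : LaurentSeries ℂ} {q1 q2 : PowerSeries ℂ} (hq1 : IsPar x1 q1)
    (hq2 : IsPar x2 q2) (h : SS dt x1 = SS dt x2) :
    ∃ (w : PowerSeries ℂ) (n1 n2 : ℕ) (c : ℂ), 0 < n1 ∧ 0 < n2 ∧ c ≠ 0 ∧ constantCoeff w = 0 ∧
      coeff 1 w ≠ 0 ∧ q1 = w ^ n1 ∧ q2 = C c * w ^ n2 := by
  have := cz
  obtain ⟨c, hc⟩ := theta_eq hq1 hq2 h
  have hQ1 := toL_ne hq1.1
  have hQ2 := toL_ne hq2.1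
  obtain ⟨n1, a1, hn1, ha1, hL1, U, hU, hqU⟩ := ord_toL hq1.1 hq1.2.1
  obtain ⟨n2, a2, hn2, ha2, hL2, -⟩ := ord_toL hq2.1 hq2.2.1
  have hT1 := hL1.dlog ha1
  have hT2 := (hL2.dlog ha2).smul c
  rw [← hc] at hT2
  have hc2 : (n1 : ℂ) = c * n2 := by
    have := hT1.2.symm.trans hT2.2
    exact_mod_cast this
  have hn2C : (n2 : ℂ) ≠ 0 := by exact_mod_cast hn2.ne'
  -- `q1 ^ n2 / q2 ^ n1` is constant
  have hP2 : toL q2 ^ n1 ≠ 0 := pow_ne_zero _ hQ2
  have hcL : (HahnSeries.C c : LaurentSeries ℂ) * n2 = n1 := by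
    have h1 := congrArg (HahnSeries.C : ℂ →+* LaurentSeries ℂ) hc2
    rw [map_mul, map_natCast, map_natCast] at h1
    exact h1.symm
  have hth : dt (toL q1) * toL q2 = HahnSeries.C c * dt (toL q2) * toL q1 := by
    field_simp at hc
    linear_combination hc
  have hd : dt (toL q1 ^ n2 / toL q2 ^ n1) = 0 := by
    rw [IsDer.div isDer_dt _ hP2]
    have h1 : (dt (toL q1 ^ n2) * toL q2 ^ n1 - toL q1 ^ n2 * dt (toL q2 ^ n1)) *
        (toL q1 * toL q2) = 0 := by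
      have k1 := dlog_pow (Q := toL q1) n2
      have k2 := dlog_pow (Q := toL q2) n1
      calc (dt (toL q1 ^ n2) * toL q2 ^ n1 - toL q1 ^ n2 * dt (toL q2 ^ n1)) *
          (toL q1 * toL q2) = (dt (toL q1 ^ n2) * toL q1) * (toL q2 ^ n1 * toL q2) -
            (toL q1 ^ n2 * toL q1) * (dt (toL q2 ^ n1) * toL q2) := by ring
        _ = (toL q1 ^ n2 * toL q2 ^ n1) * (n2 * (dt (toL q1) * toL q2) -
            n1 * (toL q1 * dt (toL q2))) := by rw [k1, k2]; ring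
        _ = 0 := by
            rw [hth, ← hcL]
            ring
    have h2 := (mul_eq_zero.1 h1).resolve_right (mul_ne_zero hQ1 hQ2)
    rw [h2, zero_div]
  obtain ⟨c', hc'⟩ := (dt_eq_zero_iff _).1 hd
  have hqq : q1 ^ n2 = C c' * q2 ^ n1 := by
    apply toL_inj
    rw [toL_mul, toL_C, toL_pow, toL_pow, ← hc', div_mul_cancel₀ _ hP2]
  have hc'0 : c' ≠ 0 := by
    rintro rfl
    rw [map_zero, zero_mul] at hqq
    exact pow_ne_zero _ hq1.1 hqq
  obtain ⟨W, hW⟩ := exists_root hn1 hU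
  have hW0 : constantCoeff W ≠ 0 := by
    intro h0
    apply hU
    rw [← hW, map_pow, h0, zero_pow hn1.ne']
  obtain ⟨w, hw⟩ : ∃ w : PowerSeries ℂ, w = X * W := ⟨_, rfl⟩
  have hw0 : constantCoeff w = 0 := by rw [hw]; simp
  have hw1 : coeff 1 w = constantCoeff W := by
    rw [hw, show (1 : ℕ) = 0 + 1 from rfl, coeff_succ_X_mul, coeff_zero_eq_constantCoeff_apply]
  have hwne : w ≠ 0 := by
    rintro rfl
    rw [map_zero] at hw1
    exact hW0 hw1.symm
  have hq1w : q1 = w ^ n1 := by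
    rw [hw, mul_pow, hW, hqU]
  obtain ⟨γ, hγ⟩ := IsAlgClosed.exists_pow_nat_eq (c'⁻¹) hn1
  have hγ0 : γ ≠ 0 := by
    rintro rfl
    rw [zero_pow hn1.ne'] at hγ
    exact inv_ne_zero hc'0 hγ.symm
  have hpow : q2 ^ n1 = (C γ * w ^ n2) ^ n1 := by
    have h1 : C c' * (C γ * w ^ n2) ^ n1 = q1 ^ n2 := by
      rw [mul_pow, ← map_pow, hγ, ← mul_assoc, ← map_mul, mul_inv_cancel₀ hc'0, map_one, one_mul,
        hq1w, ← pow_mul, ← pow_mul, mul_comm]
    rw [hqq] at h1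
    have h2 : (C c' : PowerSeries ℂ) ≠ 0 := by
      intro h3
      apply hc'0
      have := congrArg (constantCoeff : PowerSeries ℂ →+* ℂ) h3
      simpa using this
    exact (mul_left_cancel₀ h2 h1).symm
  have hCγ : (C γ : PowerSeries ℂ) ≠ 0 := by
    intro h3
    apply hγ0
    have := congrArg (constantCoeff : PowerSeries ℂ →+* ℂ) h3
    simpa using this
  obtain ⟨c2, hc20, hc2e⟩ := root_eq hn1 (mul_ne_zero hCγ (pow_ne_zero n2 hwne)) hpow
  refine ⟨w, n1, n2, c2 * γ, hn1, hn2, mul_ne_zero hc20 hγ0, hw0, ?_, hq1w, ?_⟩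
  · rw [hw1]
    exact hW0
  · rw [hc2e, map_mul, mul_assoc]

end LocEqAux

theorem exists_par {x : LaurentSeries ℂ} (hx : x.order < 0) : ∃ q, IsPar x q :=
  LocEqAux.par_of_order hx

theorem loc_eq {x1 x2 : LaurentSeries ℂ} (h1 : dt x1 ≠ 0) (h2 : dt x2 ≠ 0)
    {q1 q2 : PowerSeries ℂ} (hq1 : IsPar x1 q1) (hq2 : IsPar x2 q2) (h : SS dt x1 = SS dt x2) :
    ∃ (w : PowerSeries ℂ) (n1 n2 : ℕ) (c : ℂ), 0 < n1 ∧ 0 < n2 ∧ c ≠ 0 ∧ constantCoeff w = 0 ∧
      coeff 1 w ≠ 0 ∧ q1 = w ^ n1 ∧ q2 = C c * w ^ n2 :=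
  LocEqAux.loc_main hq1 hq2 h

end Pool.Agent.ZPB
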