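import Pool.Agent.ZPB.Family
import Pool.Agent.ZPB.Dominant
import Pool.Agent.ZPB.Recenter

/-!
# Module B5n: no cancellation in the Gauss norm

Data: `P ∈ ℤ_p[[T]][Z]`, a centre `z`, numbers `S_k` with pairwise distinct norms in `(0,1)`, and `lam_k ≠ 0`
with pairwise distinct norms. Claim: for all but finitely many `k` there is an index `m0` with
`‖P_j(z + S_k)‖ ‖lam_k‖^j ≤ ‖coeff m0 (recenter z (fam P lam_k))‖ ‖S_k‖^m0` for all `j ≤ deg P`.

Proof. Put `c_j = recenter z (map zc P_j)`; it is `IsW` if `P_j ≠ 0` (`exists_isW_of_Z`, `IsW.recenter`).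
By `IsW.finite_nondom`, for all but finitely many `k` every nonzero `c_j` has a unique dominating index
`b_j` (dependent on `k`, `b_j ≤ n_j`) at `r = ‖S_k‖`. Put `w_j = ‖coeff b_j c_j‖ r^(b_j) ‖lam_k‖^j`
(`= ‖P_j(z+S_k)‖ ‖lam_k‖^j`), `W = max w_j`, `J = {j : w_j = W}`. If `j ≠ j' ∈ J` had `b_j = b_j' = b`, then
`‖coeff b c_j‖ ‖lam_k‖^j = ‖coeff b c_j'‖ ‖lam_k‖^j'`, so `‖lam_k‖` is one of finitely many numbers (there are
finitely many triples `(j, j', b)`), excluded for all but finitely many `k`. Fix `j ∈ J`, `m0 = b_j`. The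
coefficient of index `m0` of `recenter z (fam P lam_k) = ∑_i lam_k^i c_i` is `∑_i lam_k^i coeff m0 c_i`, and
`‖lam_k^i coeff m0 c_i‖ r^m0 < W` for `i ≠ j` (if `i ∈ J` because `b_i ≠ m0`, `Dom`; if `i ∉ J` because it is
`≤ w_i < W`), while it is `= W` for `i = j`. So its norm times `r^m0` is exactly `W`.
-/

namespace Pool.Agent.ZPB

variable {p : ℕ} [Fact p.Prime]

namespace NoCancelAux

theorem ev_notMem {f : ℕ → ℝ} (hf : Function.Injective f) {A : Set ℝ} (hA : A.Finite) :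
    ∀ᶠ k in Filter.atTop, f k ∉ A := by
  rw [← Nat.cofinite_eq_atTop]
  exact hf.tendsto_cofinite.eventually hA.eventually_cofinite_notMem

theorem recenter_zero (z : ℂ_[p]) : recenter z (0 : PowerSeries ℂ_[p]) = 0 := by
  ext m
  simp [recenter]

theorem recenter_sum (s : Finset ℕ) (a : ℕ → ℂ_[p]) (f : ℕ → PowerSeries ℂ_[p])
    (hf : ∀ j, Bdd (f j)) {z : ℂ_[p]} (hz : ‖z‖ < 1) :
    recenter z (∑ j ∈ s, PowerSeries.C (a j) * f j) =
      ∑ j ∈ s, PowerSeries.C (a j) * recenter z (f j) := by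
  classical
  induction s using Finset.induction_on with
  | empty => simp [recenter_zero]
  | insert b s hb ih =>
    rw [Finset.sum_insert hb, Finset.sum_insert hb,
      recenter_add ((Bdd.C _).mul (hf b)) (bdd_sum s _ fun j _ => (Bdd.C _).mul (hf j)) hz,
      recenter_C_mul, ih]

theorem coeff_recenter_fam (P : Polynomial (PowerSeries ℤ_[p])) (lam : ℂ_[p]) {z : ℂ_[p]}
    (hz : ‖z‖ < 1) (m : ℕ) :
    PowerSeries.coeff m (recenter z (fam P lam)) =
      ∑ j ∈ Finset.range (P.natDegree + 1),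
        lam ^ j * PowerSeries.coeff m (recenter z (PowerSeries.map (zc p) (P.coeff j))) := by
  rw [fam, recenter_sum _ _ _ (fun j => bdd_map_zc _) hz, map_sum]
  refine Finset.sum_congr rfl fun j _ => ?_
  rw [PowerSeries.coeff_C_mul]

end NoCancelAux

open NoCancelAux in
theorem no_cancel (P : Polynomial (PowerSeries ℤ_[p])) {z : ℂ_[p]} (hz : ‖z‖ < 1)
    (S lam : ℕ → ℂ_[p]) (hS0 : ∀ k, S k ≠ 0) (hS1 : ∀ k, ‖S k‖ < 1)
    (hS : Function.Injective fun k => ‖S k‖) (hl0 : ∀ k, lam k ≠ 0)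
    (hl : Function.Injective fun k => ‖lam k‖) :
    ∀ᶠ k in Filter.atTop, ∃ m0 : ℕ, ∀ j ≤ P.natDegree,
      ‖valZ (P.coeff j) (z + S k)‖ * ‖lam k‖ ^ j ≤
        ‖PowerSeries.coeff m0 (recenter z (fam P (lam k)))‖ * ‖S k‖ ^ m0 := by
  classical
  set c : ℕ → PowerSeries ℂ_[p] := fun j => recenter z (PowerSeries.map (zc p) (P.coeff j)) with hc
  have hW : ∀ j, ∃ n, P.coeff j ≠ 0 → IsW (c j) n := by
    intro j
    by_cases h : P.coeff j = 0
    · exact ⟨0, fun h' => absurd h h'⟩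
    · obtain ⟨n, hn⟩ := exists_isW_of_Z h
      exact ⟨n, fun _ => hn.recenter hz⟩
  choose n hn using hW
  -- good radii
  have hev1 : ∀ᶠ k in Filter.atTop, ∀ j ∈ Finset.range (P.natDegree + 1), P.coeff j ≠ 0 →
      ∃ b ≤ n j, Dom (c j) ‖S k‖ b := by
    rw [Filter.eventually_all_finset]
    intro j _
    by_cases h : P.coeff j = 0
    · exact Filter.Eventually.of_forall fun k h' => absurd h h'
    · filter_upwards [ev_notMem hS (hn j h).finite_nondom] with k hk _
      by_contra hcon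
      exact hk ⟨norm_pos_iff.2 (hS0 k), hS1 k, hcon⟩
  -- no ties
  have hTfin : (⋃ q ∈ (((Finset.range (P.natDegree + 1) ×ˢ Finset.range (P.natDegree + 1)) ×ˢ
      Finset.range ((Finset.range (P.natDegree + 1)).sup n + 1)).filter
      (fun q : (ℕ × ℕ) × ℕ => q.1.1 < q.1.2 ∧ PowerSeries.coeff q.2 (c q.1.1) ≠ 0) :
        Finset ((ℕ × ℕ) × ℕ)),
      {r : ℝ | 0 < r ∧ ‖PowerSeries.coeff q.2 (c q.1.1)‖ * r ^ q.1.1 =
        ‖PowerSeries.coeff q.2 (c q.1.2)‖ * r ^ q.1.2}).Finite := by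
    apply Set.Finite.biUnion (Finset.finite_toSet _)
    intro q hq
    have hq' := (Finset.mem_filter.1 (Finset.mem_coe.1 hq)).2
    exact DomAux.tie_finite (norm_pos_iff.2 hq'.2) _ _ hq'.1
  filter_upwards [hev1, ev_notMem hl hTfin] with k hk1 hk2
  have hr0 : 0 < ‖S k‖ := norm_pos_iff.2 (hS0 k)
  have ht0 : 0 < ‖lam k‖ := norm_pos_iff.2 (hl0 k)
  have hb' : ∀ j, ∃ b, j ∈ Finset.range (P.natDegree + 1) → P.coeff j ≠ 0 →
      b ≤ n j ∧ Dom (c j) ‖S k‖ b := by
    intro j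
    by_cases h1 : j ∈ Finset.range (P.natDegree + 1)
    · by_cases h2 : P.coeff j = 0
      · exact ⟨0, fun _ h' => absurd h2 h'⟩
      · obtain ⟨b, hb1, hb2⟩ := hk1 j h1 h2
        exact ⟨b, fun _ _ => ⟨hb1, hb2⟩⟩
    · exact ⟨0, fun h' => absurd h' h1⟩
  choose b hb using hb'
  set w : ℕ → ℝ := fun j => ‖valZ (P.coeff j) (z + S k)‖ * ‖lam k‖ ^ j with hw
  have hwval : ∀ j ∈ Finset.range (P.natDegree + 1), P.coeff j ≠ 0 →
      w j = ‖PowerSeries.coeff (b j) (c j)‖ * ‖S k‖ ^ (b j) * ‖lam k‖ ^ j := by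
    intro j hj hj0
    have h1 := Dom.norm_val (recenter_bdd (bdd_map_zc (P.coeff j)) hz) hr0 (hS1 k) (hb j hj hj0).2
      (S := S k) rfl
    rw [val_recenter (bdd_map_zc (P.coeff j)) hz (hS1 k)] at h1
    rw [hw]
    show ‖valZ (P.coeff j) (z + S k)‖ * ‖lam k‖ ^ j = _
    rw [valZ, h1]
  obtain ⟨j0, hj0, hmax⟩ := Finset.exists_max_image (Finset.range (P.natDegree + 1)) w
    ⟨0, Finset.mem_range.2 (Nat.succ_pos _)⟩
  by_cases hw0 : w j0 ≤ 0
  · refine ⟨0, fun j hj => ?_⟩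
    have h1 := hmax j (Finset.mem_range.2 (Nat.lt_succ_of_le hj))
    exact (h1.trans hw0).trans (by positivity)
  push Not at hw0
  have hPj0 : P.coeff j0 ≠ 0 := by
    intro h0
    rw [hw] at hw0
    simp only [h0] at hw0
    have h1 : valZ (0 : PowerSeries ℤ_[p]) (z + S k) = 0 := by
      rw [valZ, map_zero]
      have h := val_C (p := p) 0 (z + S k)
      rwa [map_zero] at h
    rw [h1, norm_zero, zero_mul] at hw0
    exact lt_irrefl _ hw0
  refine ⟨b j0, fun j hj => ?_⟩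
  have h1 := hmax j (Finset.mem_range.2 (Nat.lt_succ_of_le hj))
  refine h1.trans (le_of_eq ?_)
  rw [coeff_recenter_fam P (lam k) hz, ← Finset.add_sum_erase _ _ hj0]
  have hr' : 0 < ‖S k‖ ^ (b j0) := pow_pos hr0 _
  have hmain : ‖lam k ^ j0 * PowerSeries.coeff (b j0) (c j0)‖ * ‖S k‖ ^ (b j0) = w j0 := by
    rw [hwval j0 hj0 hPj0, norm_mul, norm_pow]
    ring
  have hoth : ∀ i ∈ (Finset.range (P.natDegree + 1)).erase j0,
      ‖lam k ^ i * PowerSeries.coeff (b j0) (c i)‖ <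
        ‖lam k ^ j0 * PowerSeries.coeff (b j0) (c j0)‖ := by
    intro i hi
    obtain ⟨hij, hir⟩ := Finset.mem_erase.1 hi
    rw [← mul_lt_mul_iff_left₀ hr', hmain]
    by_cases hi0 : P.coeff i = 0
    · have : c i = 0 := by
        rw [hc]
        simp only [hi0, map_zero]
        exact recenter_zero z
      rw [this, map_zero, mul_zero, norm_zero, zero_mul]
      exact hw0
    · by_cases hbi : b j0 = b i
      · have hle : ‖lam k ^ i * PowerSeries.coeff (b j0) (c i)‖ * ‖S k‖ ^ (b j0) = w i := by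
          rw [hwval i hir hi0, norm_mul, norm_pow, hbi]
          ring
        rw [hle]
        refine lt_of_le_of_ne (hmax i hir) ?_
        intro heq
        rw [← hle, ← hmain] at heq
        have heq' := mul_right_cancel₀ hr'.ne' heq
        rw [norm_mul, norm_mul, norm_pow, norm_pow] at heq'
        apply hk2
        have hbsup : b j0 ∈ Finset.range ((Finset.range (P.natDegree + 1)).sup n + 1) := by
          rw [Finset.mem_range]
          refine Nat.lt_succ_of_le ((hb j0 hj0 hPj0).1.trans ?_)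
          exact Finset.le_sup (f := n) hj0
        rcases lt_or_gt_of_ne hij with hlt | hlt
        · refine Set.mem_biUnion (x := ((i, j0), b j0)) ?_ ⟨ht0, ?_⟩
          · rw [Finset.mem_coe, Finset.mem_filter, Finset.mem_product, Finset.mem_product]
            refine ⟨⟨⟨hir, hj0⟩, hbsup⟩, hlt, ?_⟩
            rw [hbi]
            exact (hb i hir hi0).2.1
          · simp only
            rw [mul_comm, heq', mul_comm]
        · refine Set.mem_biUnion (x := ((j0, i), b j0)) ?_ ⟨ht0, ?_⟩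
          · rw [Finset.mem_coe, Finset.mem_filter, Finset.mem_product, Finset.mem_product]
            exact ⟨⟨⟨hj0, hir⟩, hbsup⟩, hlt, (hb j0 hj0 hPj0).2.1⟩
          · simp only
            rw [mul_comm, ← heq', mul_comm]
      · have h2 := (hb i hir hi0).2.2 (b j0) hbi
        have h3 : ‖lam k ^ i * PowerSeries.coeff (b j0) (c i)‖ * ‖S k‖ ^ (b j0) < w i := by
          rw [hwval i hir hi0, norm_mul, norm_pow]
          calc ‖lam k‖ ^ i * ‖PowerSeries.coeff (b j0) (c i)‖ * ‖S k‖ ^ (b j0)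
              = (‖PowerSeries.coeff (b j0) (c i)‖ * ‖S k‖ ^ (b j0)) * ‖lam k‖ ^ i := by ring
            _ < (‖PowerSeries.coeff (b i) (c i)‖ * ‖S k‖ ^ (b i)) * ‖lam k‖ ^ i :=
              mul_lt_mul_of_pos_right h2 (pow_pos ht0 i)
        exact h3.trans_le (hmax i hir)
  have hpos : 0 < ‖lam k ^ j0 * PowerSeries.coeff (b j0) (c j0)‖ := by
    rw [← hmain] at hw0
    exact (pos_iff_pos_of_mul_pos hw0).2 hr'
  have hsumlt : ‖∑ i ∈ (Finset.range (P.natDegree + 1)).erase j0,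
      lam k ^ i * PowerSeries.coeff (b j0) (c i)‖ <
        ‖lam k ^ j0 * PowerSeries.coeff (b j0) (c j0)‖ := by
    rcases Finset.eq_empty_or_nonempty ((Finset.range (P.natDegree + 1)).erase j0) with he | he
    · rw [he, Finset.sum_empty, norm_zero]
      exact hpos
    · obtain ⟨i, hi, hle⟩ := IsUltrametricDist.exists_norm_finsetSum_le
        ((Finset.range (P.natDegree + 1)).erase j0)
        (fun i => lam k ^ i * PowerSeries.coeff (b j0) (c i))
      exact lt_of_le_of_lt hle (hoth i (hi he))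
  rw [IsUltrametricDist.norm_add_eq_max_of_norm_ne_norm hsumlt.ne', max_eq_left hsumlt.le, hmain]

end Pool.Agent.ZPB
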