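import Pool.Agent.ZPB.Monomials
import Pool.Agent.ZPB.PairCurve
import Pool.Agent.ZPB.Dense

/-!
# Module P1: the pair lemma

Let `D` be the derivation of `exists_deriv` on `L` (fraction field of `RR ⧸ 𝔮`), `ρ_i = D(ιX_i)/ιX_i`,
`ρ(e) = ∑ e_i ρ_i`. By `DlogIndep` `ρ(e) ≠ 0`; put `R = ρ(e')/ρ(e) = ιN/ιM`. It is transcendental over `ℤ_p`: otherwise
`D R = 0` and `∑ (e'_i - R e_i) ρ_i = 0` gives `e'_i = R e_i` for all `i`, so `e, e'` are dependent.

Suppose the conclusion fails; pass to a subsequence such that it fails for all `k`. Apply `exists_dense` to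
`z_k = Sum.elim (x k) (y k)`: `𝔔 ⊂ RR p (σ ⊕ σ)`, `φ`.
(1) `inl F ∈ 𝔔 ↔ F ∈ 𝔮` (`→`: `F` vanishes at the infinitely many distinct points `x (φ k)`, `eventually_ne`).
(2) no value of `y` is taken infinitely often: if `y k = y0` for infinitely many `k`, then `UU e (x k)^(A Q)` is
constant and algebraic for infinitely many `k`, contradicting `IsCurve.fibre` (with `tr_monomial`). Hence also
`inr F ∈ 𝔔 ↔ F ∈ 𝔮`.
(3) `UU e (y k)^A = UU e (x k)^(A Q)` gives
`inr(upos e)^A inl(uneg e)^(A Q) - inl(upos e)^(A Q) inr(uneg e)^A ∈ 𝔔` (`UU_eq`, `ev_inl`, `ev_inr`), similarly for `e'`.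
By `pair_curve` there is `t'` with `IsCurve 𝔔 t'`; `zer 𝔔` is infinite.
(4) Let `E = FractionRing (RR ⧸ 𝔔)`, `κ : RR p (σ ⊕ σ) → E`, and `D'` the derivation of `exists_deriv` for `𝔔`. Let
`κx, κy : L → E` be the embeddings extending `κ ∘ inl`, `κ ∘ inr` ((1), (2)). `D'` is continuous along `κ ∘ inl`
and `κ ∘ inr` (chain rule for `inl F`: `pderiv (inl i) (inl F) = inl (pderiv i F)`, `pderiv (inr i) (inl F) = 0`). By
the universal property `D' (κx f) = λx κx (D f)`, `D' (κy f) = λy κy (D f)` with `λx = D' κ(inl t)`, `λy = D' κ(inr t)`.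
(5) If `λx = λy = 0`, then `D'` kills all `κ(X_j)`, so `D' ∘ κ = 0` by continuity, contradicting `D' (κ t') = 1`.
(6) Logarithmic derivative of (3) (characteristic 0, divide by `A`):
`λy κy(ρ(e)) = Q λx κx(ρ(e))` and `λy κy(ρ(e')) = Q λx κx(ρ(e'))`. As `ρ(e) ≠ 0` both `λx, λy ≠ 0`; dividing,
`κy(R) = κx(R)`, i.e. `inl N * inr M - inr N * inl M ∈ 𝔔`. Evaluate at `z_{φ 0}`: contradiction.
-/

namespace Pool.Agent.ZPB

open MvPowerSeries

namespace PairAux

section Rename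

variable {R : Type} [CommRing R] {σ τ : Type}

theorem mapDomain_range_add (e : σ ↪ τ) (n : τ →₀ ℕ) (i : σ)
    (h : n + Finsupp.single (e i) 1 ∈ Set.range (Finsupp.mapDomain (M := ℕ) e)) :
    n ∈ Set.range (Finsupp.mapDomain (M := ℕ) e) := by
  obtain ⟨m, hm⟩ := h
  refine ⟨m - Finsupp.single i 1, ?_⟩
  have hmi : m i = n (e i) + 1 := by
    have := congrArg (fun f => f (e i)) hm
    simpa [Finsupp.mapDomain_apply e.injective] using this
  have hle : Finsupp.single i 1 ≤ m := by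
    rw [Finsupp.single_le_iff]; omega
  have h2 : Finsupp.mapDomain e (m - Finsupp.single i 1) + Finsupp.single (e i) 1 =
      n + Finsupp.single (e i) 1 := by
    rw [← hm]
    conv_rhs => rw [← tsub_add_cancel_of_le hle]
    rw [Finsupp.mapDomain_add, Finsupp.mapDomain_single]
  exact add_right_cancel h2

theorem pderiv_rename_self (e : σ ↪ τ) (i : σ) (F : MvPowerSeries σ R) :
    pderiv R (e i) (rename e F) = rename e (pderiv R i F) := by
  ext n
  rw [coeff_pderiv]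
  by_cases hn : n ∈ Set.range (Finsupp.mapDomain (M := ℕ) e)
  · obtain ⟨m, rfl⟩ := hn
    have h1 : Finsupp.mapDomain e m + Finsupp.single (e i) 1 =
        Finsupp.embDomain e (m + Finsupp.single i 1) := by
      rw [Finsupp.embDomain_eq_mapDomain, Finsupp.mapDomain_add, Finsupp.mapDomain_single]
    rw [h1, coeff_embDomain_rename, ← Finsupp.embDomain_eq_mapDomain, coeff_embDomain_rename,
      coeff_pderiv, Finsupp.embDomain_apply_self]
  · rw [coeff_rename_eq_zero _ _ hn, coeff_rename_eq_zero, zero_mul]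
    exact fun h => hn (mapDomain_range_add e n i h)

theorem pderiv_rename_of_notMem (e : σ ↪ τ) (j : τ) (hj : j ∉ Set.range e) (F : MvPowerSeries σ R) :
    pderiv R j (rename e F) = 0 := by
  ext n
  rw [coeff_pderiv, coeff_rename_eq_zero, zero_mul, map_zero]
  rintro ⟨m, hm⟩
  have := congrArg (fun f => f j) hm
  simp only [Finsupp.mapDomain_of_notMem_range m j hj] at this
  simp at this

end Rename

variable {p : ℕ} [Fact p.Prime] {σ : Type} [Fintype σ] {L : Type} [Field L]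

theorem inl_apply (F : RR p σ) :
    inl F = rename (Function.Embedding.inl : σ ↪ σ ⊕ σ) F := rfl

theorem inr_apply (F : RR p σ) :
    inr F = rename (Function.Embedding.inr : σ ↪ σ ⊕ σ) F := rfl

theorem inl_X (i : σ) : inl (X i : RR p σ) = X (Sum.inl i) := by
  rw [inl_apply, rename_X]; rfl

theorem inr_X (i : σ) : inr (X i : RR p σ) = X (Sum.inr i) := by
  rw [inr_apply, rename_X]; rfl

/-- a derivation continuous along `κ` is continuous along `κ ∘ inl` -/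
theorem cont_inl {E : Type} [Field E] {κ : RR p (σ ⊕ σ) →+* E} {D : E → E} (hD : IsCont κ D) :
    IsCont (κ.comp inl) D := by
  intro F
  simp only [RingHom.comp_apply]
  rw [hD (inl F), Fintype.sum_sum_type]
  have h2 : ∑ i : σ, κ (pderiv ℤ_[p] (Sum.inr i) (inl F)) * D (κ (X (Sum.inr i))) = 0 := by
    refine Finset.sum_eq_zero fun i _ => ?_
    rw [inl_apply, pderiv_rename_of_notMem, map_zero, zero_mul]
    rintro ⟨j, hj⟩
    exact Sum.inl_ne_inr hj
  rw [h2, add_zero]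
  refine Finset.sum_congr rfl fun i _ => ?_
  have h3 : pderiv ℤ_[p] (Sum.inl i) (inl F) = inl (pderiv ℤ_[p] i F) :=
    pderiv_rename_self (Function.Embedding.inl : σ ↪ σ ⊕ σ) i F
  rw [h3, inl_X]

theorem cont_inr {E : Type} [Field E] {κ : RR p (σ ⊕ σ) →+* E} {D : E → E} (hD : IsCont κ D) :
    IsCont (κ.comp inr) D := by
  intro F
  simp only [RingHom.comp_apply]
  rw [hD (inr F), Fintype.sum_sum_type]
  have h2 : ∑ i : σ, κ (pderiv ℤ_[p] (Sum.inl i) (inr F)) * D (κ (X (Sum.inl i))) = 0 := by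
    refine Finset.sum_eq_zero fun i _ => ?_
    rw [inr_apply, pderiv_rename_of_notMem, map_zero, zero_mul]
    rintro ⟨j, hj⟩
    exact Sum.inr_ne_inl hj
  rw [h2, zero_add]
  refine Finset.sum_congr rfl fun i _ => ?_
  have h3 : pderiv ℤ_[p] (Sum.inr i) (inr F) = inr (pderiv ℤ_[p] i F) :=
    pderiv_rename_self (Function.Embedding.inr : σ ↪ σ ⊕ σ) i F
  rw [h3, inr_X]

/-- the universal property of the fraction field -/
theorem exists_lift {𝔮 : Ideal (RR p σ)} [𝔮.IsPrime] {ι : RR p σ →+* L} (hι : IsFF 𝔮 ι)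
    {E : Type} [Field E] (g : RR p σ →+* E) (hg : ∀ F, g F = 0 ↔ F ∈ 𝔮) :
    ∃ κ : L →+* E, κ.comp ι = g := by
  classical
  let ib : (RR p σ ⧸ 𝔮) →+* L := Ideal.Quotient.lift 𝔮 ι (fun a ha => (hι.ker a).2 ha)
  let gb : (RR p σ ⧸ 𝔮) →+* E := Ideal.Quotient.lift 𝔮 g (fun a ha => (hg a).2 ha)
  have hib : Function.Injective ib := by
    rw [injective_iff_map_eq_zero]
    intro a ha
    obtain ⟨F, rfl⟩ := Ideal.Quotient.mk_surjective a
    rw [Ideal.Quotient.lift_mk] at ha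
    exact Ideal.Quotient.eq_zero_iff_mem.2 ((hι.ker F).1 ha)
  have hgb : Function.Injective gb := by
    rw [injective_iff_map_eq_zero]
    intro a ha
    obtain ⟨F, rfl⟩ := Ideal.Quotient.mk_surjective a
    rw [Ideal.Quotient.lift_mk] at ha
    exact Ideal.Quotient.eq_zero_iff_mem.2 ((hg F).1 ha)
  let _ : Algebra (RR p σ ⧸ 𝔮) L := ib.toAlgebra
  have : FaithfulSMul (RR p σ ⧸ 𝔮) L := by
    rw [faithfulSMul_iff_algebraMap_injective]
    exact hib
  have : IsFractionRing (RR p σ ⧸ 𝔮) L := by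
    refine IsFractionRing.of_field _ _ ?_
    intro z
    obtain ⟨N, M, _, rfl⟩ := hι.surj z
    exact ⟨Ideal.Quotient.mk 𝔮 N, Ideal.Quotient.mk 𝔮 M, rfl⟩
  have : IsDomain (RR p σ ⧸ 𝔮) := Ideal.Quotient.isDomain 𝔮
  refine ⟨IsFractionRing.lift hgb, ?_⟩
  ext F
  have h1 : ι F = algebraMap (RR p σ ⧸ 𝔮) L (Ideal.Quotient.mk 𝔮 F) := rfl
  rw [RingHom.comp_apply, h1, IsFractionRing.lift_algebraMap]
  rfl

theorem der_zero {E : Type} [Field E] {D : E → E} (hD : IsDer D) : D 0 = 0 := by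
  have := hD.1 0 0
  simpa using this

theorem der_one {E : Type} [Field E] {D : E → E} (hD : IsDer D) : D 1 = 0 := by
  have := hD.2 1 1
  simpa using this

theorem der_neg {E : Type} [Field E] {D : E → E} (hD : IsDer D) (a : E) : D (-a) = - D a := by
  have := hD.1 a (-a)
  rw [add_neg_cancel, der_zero hD] at this
  exact (neg_eq_of_add_eq_zero_right this.symm).symm

theorem der_natCast {E : Type} [Field E] {D : E → E} (hD : IsDer D) (n : ℕ) : D (n : E) = 0 := by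
  induction n with
  | zero => simpa using der_zero hD
  | succ n ih => rw [Nat.cast_succ, hD.1, ih, der_one hD, add_zero]

theorem der_intCast {E : Type} [Field E] {D : E → E} (hD : IsDer D) (n : ℤ) : D (n : E) = 0 := by
  obtain ⟨m, rfl | rfl⟩ := n.eq_nat_or_neg
  · rw [Int.cast_natCast]; exact der_natCast hD m
  · rw [Int.cast_neg, Int.cast_natCast, der_neg hD, der_natCast hD, neg_zero]

theorem der_pow {E : Type} [Field E] {D : E → E} (hD : IsDer D) (a c : E) (h : D a = a * c) (n : ℕ) :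
    D (a ^ n) = a ^ n * ((n : E) * c) := by
  induction n with
  | zero => simp [der_one hD]
  | succ n ih =>
    rw [pow_succ, hD.2, ih, h]
    push_cast
    ring


theorem const_inj {𝔮 : Ideal (RR p σ)} (hne : (zer 𝔮).Nonempty) {ι : RR p σ →+* L}
    (hι : IsFF 𝔮 ι) : Function.Injective (ι.comp (MvPowerSeries.C : ℤ_[p] →+* RR p σ)) := by
  rw [injective_iff_map_eq_zero]
  intro a ha
  obtain ⟨z, hz⟩ := hne
  have h1 : (C a : RR p σ) ∈ 𝔮 := (hι.ker _).1 ha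
  have h2 := hz.2 _ h1
  rw [ev_C] at h2
  exact zc_injective (by rw [h2, map_zero])

/-- the sum `∑ e_i D(ι X_i)/ι X_i` -/
noncomputable def rho {L : Type} [Field L] (ι : RR p σ →+* L) (D : L → L) (e : σ → ℤ) : L :=
  ∑ i, (e i : L) * (D (ι (X i)) / ι (X i))

theorem rho_ne {ι : RR p σ →+* L} [CharZero L]
    (hD : DlogIndep ι) {D : L → L} (hDer : IsDer D) (hC : IsCont ι D) (hne : ∃ x, D x ≠ 0)
    {e : σ → ℤ} (he : e ≠ 0) : rho ι D e ≠ 0 := by
  intro h0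
  have := hD D hDer hC hne (fun i => (e i : L)) (fun i => der_intCast hDer _) h0
  apply he
  funext i
  have h2 := congrFun this i
  simpa using h2

theorem exists_NM {𝔮 : Ideal (RR p σ)} {t : RR p σ} (h : IsCurve 𝔮 t) (hinf : (zer 𝔮).Infinite)
    {ι : RR p σ →+* L} (hι : IsFF 𝔮 ι) (hD : DlogIndep ι)
    {D : L → L} (hDer : IsDer D) (hC : IsCont ι D) (hne : ∃ x, D x ≠ 0)
    {e e' : σ → ℤ} (hind : ∀ a b : ℤ, (∀ i, a * e i + b * e' i = 0) → a = 0 ∧ b = 0) :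
    ∃ N M : RR p σ, M ∉ 𝔮 ∧ rho ι D e' / rho ι D e = ι N / ι M ∧ Tr 𝔮 N M := by
  have : CharZero L := IsFF.charZero hι h.p_notMem
  have he : e ≠ 0 := by
    rintro rfl
    have := hind 1 0 (by intro i; simp)
    exact one_ne_zero this.1
  have hre : rho ι D e ≠ 0 := rho_ne hD hDer hC hne he
  obtain ⟨N, M, hM, hNM⟩ := hι.surj (rho ι D e' / rho ι D e)
  refine ⟨N, M, hM, hNM, ?_⟩
  rw [tr_iff hι hM]
  intro P hP h0
  rw [← hNM] at h0
  have hDR : D (rho ι D e' / rho ι D e) = 0 :=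
    deriv_eq_zero_of_algebraic hDer hC hP (const_inj hinf.nonempty hι) h0
  set R := rho ι D e' / rho ι D e with hR
  have hc := hD D hDer hC hne (fun i => (e' i : L) - R * (e i : L)) (by
    intro i
    rw [sub_eq_add_neg, hDer.1, der_neg hDer, hDer.2, hDR, der_intCast hDer, der_intCast hDer]
    ring) (by
    have h3 : ∑ i, ((e' i : L) - R * (e i : L)) * (D (ι (X i)) / ι (X i)) =
        rho ι D e' - R * rho ι D e := by
      rw [rho, rho, Finset.mul_sum, ← Finset.sum_sub_distrib]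
      refine Finset.sum_congr rfl fun i _ => ?_
      ring
    rw [h3, hR, div_mul_cancel₀ _ hre, sub_self])
  obtain ⟨i0, hi0⟩ := Function.ne_iff.1 he
  have hall : ∀ i, (e' i : L) = R * (e i : L) := fun i => by
    have := congrFun hc i
    simp only [Pi.zero_apply] at this
    exact sub_eq_zero.1 this
  have := hind (e' i0) (-(e i0)) (by
    intro i
    have h4 : ((e' i0 * e i + -(e i0) * e' i : ℤ) : L) = 0 := by
      push_cast
      rw [hall i0, hall i]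
      ring
    exact_mod_cast h4)
  exact hi0 (by simpa using this.2)

/-- the algebraic part: the logarithmic derivatives of the two relations -/
theorem alg_part {𝔮 : Ideal (RR p σ)} {t : RR p σ} (h : IsCurve 𝔮 t)
    {ι : RR p σ →+* L} (hι : IsFF 𝔮 ι) (hX : ∀ i, (X i : RR p σ) ∉ 𝔮)
    {D : L → L} (hDer : IsDer D)
    (huniv : ∀ (E : Type) [Field E] [CharZero E] (κ : L →+* E) (D' : E → E), IsDer D' →
        IsCont (κ.comp ι) D' → ∀ x, D' (κ x) = D' (κ (ι t)) * κ (D x))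
    {e e' : σ → ℤ} (hre : rho ι D e ≠ 0)
    {N M : RR p σ} (hM : M ∉ 𝔮) (hNM : rho ι D e' / rho ι D e = ι N / ι M)
    {𝔔 : Ideal (RR p (σ ⊕ σ))} {t' : RR p (σ ⊕ σ)} (h' : IsCurve 𝔔 t') (hinf' : (zer 𝔔).Infinite)
    (hl : ∀ F, inl F ∈ 𝔔 ↔ F ∈ 𝔮) (hr : ∀ F, inr F ∈ 𝔔 ↔ F ∈ 𝔮)
    {A Q : ℕ} (hA : 0 < A) (hQ : 0 < Q)
    (he : inl (upos p e ^ (A * Q)) * inr (uneg p e ^ A) -
      inl (uneg p e ^ (A * Q)) * inr (upos p e ^ A) ∈ 𝔔)
    (he' : inl (upos p e' ^ (A * Q)) * inr (uneg p e' ^ A) -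
      inl (uneg p e' ^ (A * Q)) * inr (upos p e' ^ A) ∈ 𝔔) :
    inl N * inr M - inr N * inl M ∈ 𝔔 := by
  have := h'.prime
  have := h.prime
  have : IsDomain (RR p (σ ⊕ σ) ⧸ 𝔔) := Ideal.Quotient.isDomain 𝔔
  let E := FractionRing (RR p (σ ⊕ σ) ⧸ 𝔔)
  let κ : RR p (σ ⊕ σ) →+* E := (algebraMap (RR p (σ ⊕ σ) ⧸ 𝔔) E).comp (Ideal.Quotient.mk 𝔔)
  have hκker : ∀ F, κ F = 0 ↔ F ∈ 𝔔 := by
    intro F
    rw [← Ideal.Quotient.eq_zero_iff_mem]
    exact map_eq_zero_iff _ (IsFractionRing.injective (RR p (σ ⊕ σ) ⧸ 𝔔) E)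
  have hκ : IsFF 𝔔 κ := by
    refine ⟨hκker, ?_⟩
    intro x
    obtain ⟨a, b, hb, rfl⟩ := IsFractionRing.div_surjective (A := RR p (σ ⊕ σ) ⧸ 𝔔) x
    obtain ⟨N, rfl⟩ := Ideal.Quotient.mk_surjective a
    obtain ⟨M, rfl⟩ := Ideal.Quotient.mk_surjective b
    refine ⟨N, M, ?_, rfl⟩
    intro hM
    rw [Ideal.Quotient.eq_zero_iff_mem.2 hM] at hb
    exact (nonZeroDivisors.ne_zero hb) rfl
  have : CharZero E := IsFF.charZero hκ h'.p_notMem
  obtain ⟨D', hDer', hC', hDt', -, -⟩ := exists_deriv h' hinf' hκ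
  obtain ⟨κx, hκx⟩ := exists_lift hι (κ.comp inl) (fun F => by
    rw [RingHom.comp_apply, hκker, hl])
  obtain ⟨κy, hκy⟩ := exists_lift hι (κ.comp inr) (fun F => by
    rw [RingHom.comp_apply, hκker, hr])
  have hx := huniv E κx D' hDer' (by rw [hκx]; exact cont_inl hC')
  have hy := huniv E κy D' hDer' (by rw [hκy]; exact cont_inr hC')
  have hκx' : ∀ F, κx (ι F) = κ (inl F) := fun F => by
    rw [← RingHom.comp_apply, hκx, RingHom.comp_apply]
  have hκy' : ∀ F, κy (ι F) = κ (inr F) := fun F => by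
    rw [← RingHom.comp_apply, hκy, RingHom.comp_apply]
  set lx := D' (κx (ι t)) with hlx
  set ly := D' (κy (ι t)) with hly
  -- (5)
  have h5 : ¬ (lx = 0 ∧ ly = 0) := by
    rintro ⟨h1, h2⟩
    have h3 : D' (κ t') = 0 := by
      rw [hC' t']
      refine Finset.sum_eq_zero fun j _ => ?_
      rcases j with i | i
      · rw [← inl_X, ← hκx', hx, h1]; simp
      · rw [← inr_X, ← hκy', hy, h2]; simp
    rw [hDt'] at h3
    exact one_ne_zero h3
  -- (6)
  have h6 : ∀ f : σ → ℤ, inl (upos p f ^ (A * Q)) * inr (uneg p f ^ A) -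
      inl (uneg p f ^ (A * Q)) * inr (upos p f ^ A) ∈ 𝔔 →
      (Q : E) * (lx * κx (rho ι D f)) = ly * κy (rho ι D f) := by
    intro f hf
    have hιX : ∀ i, ι (X i) ≠ 0 := fun i h0 => hX i ((hι.ker _).1 h0)
    have hU := logDeriv_monomial hDer hιX f
    obtain ⟨hn, hp'⟩ := uneg_notMem h.prime hX f
    have hn' : ι (uneg p f) ≠ 0 := fun h0 => hn ((hι.ker _).1 h0)
    have hp'' : ι (upos p f) ≠ 0 := fun h0 => hp' ((hι.ker _).1 h0)
    set U := ι (upos p f) / ι (uneg p f) with hUdef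
    have hU0 : U ≠ 0 := div_ne_zero hp'' hn'
    have hrel : κx U ^ (A * Q) = κy U ^ A := by
      have h7 := (hκker _).2 hf
      rw [map_sub, map_mul, map_mul, map_pow, map_pow, map_pow, map_pow, map_pow, map_pow, map_pow,
        map_pow, ← hκx', ← hκx', ← hκy', ← hκy'] at h7
      rw [hUdef, map_div₀, map_div₀, div_pow, div_pow, div_eq_div_iff
        (pow_ne_zero _ ((map_ne_zero κx).2 hn')) (pow_ne_zero _ ((map_ne_zero κy).2 hn'))]
      linear_combination h7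
    have hdx : D' (κx U) = κx U * (lx * κx (rho ι D f)) := by
      rw [hx, hU, map_mul]
      rw [rho]
      ring
    have hdy : D' (κy U) = κy U * (ly * κy (rho ι D f)) := by
      rw [hy, hU, map_mul]
      rw [rho]
      ring
    have h8 := der_pow hDer' _ _ hdx (A * Q)
    have h9 := der_pow hDer' _ _ hdy A
    rw [hrel, h9] at h8
    have h10 : κy U ^ A ≠ 0 := pow_ne_zero _ ((map_ne_zero κy).2 hU0)
    have h11 := mul_left_cancel₀ h10 h8
    have hA0 : (A : E) ≠ 0 := by exact_mod_cast hA.ne'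
    apply mul_left_cancel₀ hA0
    rw [h11, Nat.cast_mul, mul_assoc]
  have h6e := h6 e he
  have h6e' := h6 e' he'
  have hQ0 : (Q : E) ≠ 0 := by exact_mod_cast hQ.ne'
  have hxe : κx (rho ι D e) ≠ 0 := (map_ne_zero κx).2 hre
  have hye : κy (rho ι D e) ≠ 0 := (map_ne_zero κy).2 hre
  have hly0 : ly ≠ 0 := by
    intro h0
    apply h5
    refine ⟨?_, h0⟩
    rw [h0, zero_mul] at h6e
    have := (mul_eq_zero.1 h6e).resolve_left hQ0
    exact (mul_eq_zero.1 this).resolve_right hxe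
  have hlx0 : lx ≠ 0 := by
    intro h0
    rw [h0, zero_mul, mul_zero] at h6e
    exact (mul_ne_zero hly0 hye) h6e.symm
  have hR : κx (rho ι D e' / rho ι D e) = κy (rho ι D e' / rho ι D e) := by
    rw [map_div₀, map_div₀, div_eq_div_iff hxe hye]
    have h12 : (Q : E) * lx * ly ≠ 0 := mul_ne_zero (mul_ne_zero hQ0 hlx0) hly0
    apply mul_left_cancel₀ h12
    linear_combination (ly * κy (rho ι D e)) * h6e' - (ly * κy (rho ι D e')) * h6e
  rw [hNM, map_div₀, map_div₀, hκx', hκx', hκy', hκy'] at hR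
  have hMx : κ (inl M) ≠ 0 := fun h0 => hM ((hl M).1 ((hκker _).1 h0))
  have hMy : κ (inr M) ≠ 0 := fun h0 => hM ((hr M).1 ((hκker _).1 h0))
  rw [div_eq_div_iff hMx hMy] at hR
  rw [← hκker, map_sub, map_mul, map_mul, hR, sub_self]


theorem disc_elim {x y : σ → ℂ_[p]} (hx : Disc x) (hy : Disc y) : Disc (Sum.elim x y) := by
  rintro (i | i)
  · exact hx i
  · exact hy i

theorem ev_pow {τ : Type} [Fintype τ] {z : τ → ℂ_[p]} (hz : Disc z) (F : RR p τ) (n : ℕ) :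
    ev z (F ^ n) = ev z F ^ n := by
  have := map_pow (evHom hz) F n
  simpa only [evHom_apply] using this

theorem ev_sub {τ : Type} [Fintype τ] {z : τ → ℂ_[p]} (hz : Disc z) (F G : RR p τ) :
    ev z (F - G) = ev z F - ev z G := by
  have := map_sub (evHom hz) F G
  simpa only [evHom_apply] using this

theorem ev_uneg_ne {z : σ → ℂ_[p]} (hz : Disc z) (h0 : ∀ i, z i ≠ 0) (e : σ → ℤ) :
    ev z (uneg p e) ≠ 0 := by
  rw [ev_uneg hz]
  exact Finset.prod_ne_zero_iff.2 fun i _ => pow_ne_zero _ (h0 i)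

theorem ev_upos_eq {z : σ → ℂ_[p]} (hz : Disc z) (h0 : ∀ i, z i ≠ 0) (e : σ → ℤ) (n : ℕ) :
    ev z (upos p e ^ n) = UU e z ^ n * ev z (uneg p e ^ n) := by
  rw [ev_pow hz, ev_pow hz, UU_eq hz h0, div_pow, div_mul_cancel₀]
  exact pow_ne_zero _ (ev_uneg_ne hz h0 e)

/-- the values of `y` are not taken infinitely often -/
theorem finite_fibres {𝔮 : Ideal (RR p σ)} {t : RR p σ} (h : IsCurve 𝔮 t) (hinf : (zer 𝔮).Infinite)
    {ι : RR p σ →+* L} (hι : IsFF 𝔮 ι) (hX : ∀ i, (X i : RR p σ) ∉ 𝔮) (hD : DlogIndep ι)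
    {e : σ → ℤ} (he : e ≠ 0) {A Q : ℕ} (hA : 0 < A) (hQ : 0 < Q) (x y : ℕ → σ → ℂ_[p])
    (hx : Function.Injective x) (hxz : ∀ k, x k ∈ zer 𝔮)
    (hya : ∀ k, AlgPt (y k)) (hx0 : ∀ k i, x k i ≠ 0)
    (hrel : ∀ k, UU e (y k) ^ A = UU e (x k) ^ (A * Q)) (y0 : σ → ℂ_[p]) :
    {k | y k = y0}.Finite := by
  classical
  by_contra hinf2
  have hinf3 : {k | y k = y0}.Infinite := hinf2
  have hM : uneg p e ^ (A * Q) ∉ 𝔮 := fun hmem =>
    (uneg_notMem h.prime hX e).1 (h.prime.mem_of_pow_mem _ hmem)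
  obtain ⟨B, hB⟩ := h.fibre hM (tr_monomial h hinf hι hX hD he (Nat.mul_pos hA hQ))
  obtain ⟨K, hK, hKc⟩ := hinf3.exists_subset_card_eq (B + 1)
  obtain ⟨k0, hk0⟩ := hinf3.nonempty
  have halg : IsAlgebraic ℚ_[p] (UU e y0 ^ A) := by
    have h1 := algebraic_UU (hya k0) e
    have hk1 : y k0 = y0 := hk0
    rw [hk1] at h1
    exact h1.pow A
  have h2 := hB (UU e y0 ^ A) halg (K.image x) (by
    intro z hz
    obtain ⟨k, hk, rfl⟩ := Finset.mem_image.1 hz
    have hyk : y k = y0 := hK hk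
    refine ⟨hxz k, ?_, ?_⟩
    · rw [ev_pow (hxz k).1]
      exact pow_ne_zero _ (ev_uneg_ne (hxz k).1 (hx0 k) e)
    · rw [ev_upos_eq (hxz k).1 (hx0 k), ← hrel k, hyk])
  rw [Finset.card_image_of_injective _ hx, hKc] at h2
  omega

/-- the relation between the points is a relation modulo a dense ideal -/
theorem ev_relation {e : σ → ℤ} {A Q : ℕ} {x y : σ → ℂ_[p]} (hx : Disc x) (hy : Disc y)
    (hx0 : ∀ i, x i ≠ 0) (hy0 : ∀ i, y i ≠ 0) (hrel : UU e y ^ A = UU e x ^ (A * Q)) :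
    ev (Sum.elim x y) (inl (upos p e ^ (A * Q)) * inr (uneg p e ^ A) -
      inl (uneg p e ^ (A * Q)) * inr (upos p e ^ A)) = 0 := by
  have hd := disc_elim hx hy
  rw [ev_sub hd, ev_mul hd, ev_mul hd, ev_inl hx hy, ev_inl hx hy, ev_inr hx hy, ev_inr hx hy,
    ev_upos_eq hx hx0, ev_upos_eq hy hy0, hrel]
  ring

theorem core {𝔮 : Ideal (RR p σ)} {t : RR p σ} (h : IsCurve 𝔮 t) (hinf : (zer 𝔮).Infinite)
    {ι : RR p σ →+* L} (hι : IsFF 𝔮 ι) (hX : ∀ i, (X i : RR p σ) ∉ 𝔮) (hD : DlogIndep ι)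
    {D : L → L} (hDer : IsDer D)
    (huniv : ∀ (E : Type) [Field E] [CharZero E] (κ : L →+* E) (D' : E → E), IsDer D' →
        IsCont (κ.comp ι) D' → ∀ x, D' (κ x) = D' (κ (ι t)) * κ (D x))
    {e e' : σ → ℤ} (he : e ≠ 0) (hre : rho ι D e ≠ 0)
    {N M : RR p σ} (hM : M ∉ 𝔮) (hNM : rho ι D e' / rho ι D e = ι N / ι M)
    {A Q : ℕ} (hA : 0 < A) (hQ : 0 < Q) (x y : ℕ → σ → ℂ_[p])
    (hx : Function.Injective x) (hxz : ∀ k, x k ∈ zer 𝔮) (hyz : ∀ k, y k ∈ zer 𝔮)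
    (hya : ∀ k, AlgPt (y k)) (hx0 : ∀ k i, x k i ≠ 0) (hy0 : ∀ k i, y k i ≠ 0)
    (hrel : ∀ k, UU e (y k) ^ A = UU e (x k) ^ (A * Q))
    (hrel' : ∀ k, UU e' (y k) ^ A = UU e' (x k) ^ (A * Q)) :
    ∃ k, ev (x k) N * ev (y k) M = ev (y k) N * ev (x k) M := by
  classical
  obtain ⟨𝔔, hQp, hpQ, φ, hφ, hz, hdense⟩ := exists_dense (fun k => Sum.elim (x k) (y k))
    (fun k => disc_elim (hxz k).1 (hyz k).1)
  have hdense' : ∀ F : RR p (σ ⊕ σ), (∀ k, ev (Sum.elim (x (φ k)) (y (φ k))) F = 0) → F ∈ 𝔔 := by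
    intro F hF
    apply hdense
    have : {k | ev (Sum.elim (x (φ k)) (y (φ k))) F = 0} = Set.univ := by
      ext k
      simp [hF k]
    rw [this]
    exact Set.infinite_univ
  have hxφ : Function.Injective (x ∘ φ) := hx.comp hφ.injective
  have hl : ∀ F, inl F ∈ 𝔔 ↔ F ∈ 𝔮 := by
    intro F
    constructor
    · intro hF
      by_contra hF'
      obtain ⟨k, hk⟩ := (h.eventually_ne hF' hxφ (fun k => hxz (φ k))).exists
      apply hk
      have := (hz k).2 _ hF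
      rwa [ev_inl (hxz (φ k)).1 (hyz (φ k)).1] at this
    · intro hF
      apply hdense'
      intro k
      rw [ev_inl (hxz (φ k)).1 (hyz (φ k)).1]
      exact (hxz (φ k)).2 F hF
  have hfib : ∀ y0, {k | y (φ k) = y0}.Finite := fun y0 =>
    finite_fibres h hinf hι hX hD he hA hQ (x ∘ φ) (y ∘ φ) hxφ (fun k => hxz (φ k))
      (fun k => hya (φ k)) (fun k => hx0 (φ k)) (fun k => hrel (φ k)) y0
  have hr : ∀ F, inr F ∈ 𝔔 ↔ F ∈ 𝔮 := by
    intro F
    constructor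
    · intro hF
      by_contra hF'
      have hfin := h.finite_zeros hF'
      have hall : ∀ k, y (φ k) ∈ {z | z ∈ zer 𝔮 ∧ ev z F = 0} := by
        intro k
        refine ⟨hyz (φ k), ?_⟩
        have := (hz k).2 _ hF
        rwa [ev_inr (hxz (φ k)).1 (hyz (φ k)).1] at this
      have huniv : (Set.univ : Set ℕ) ⊆ ⋃ z ∈ {z | z ∈ zer 𝔮 ∧ ev z F = 0}, {k | y (φ k) = z} := by
        intro k _
        simp only [Set.mem_iUnion]
        exact ⟨y (φ k), hall k, rfl⟩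
      exact Set.infinite_univ ((Set.Finite.biUnion hfin (fun z _ => hfib z)).subset huniv)
    · intro hF
      apply hdense'
      intro k
      rw [ev_inr (hxz (φ k)).1 (hyz (φ k)).1]
      exact (hyz (φ k)).2 F hF
  have hrelQ : inl (upos p e ^ (A * Q)) * inr (uneg p e ^ A) -
      inl (uneg p e ^ (A * Q)) * inr (upos p e ^ A) ∈ 𝔔 :=
    hdense' _ fun k => ev_relation (hxz _).1 (hyz _).1 (hx0 _) (hy0 _) (hrel _)
  have hrelQ' : inl (upos p e' ^ (A * Q)) * inr (uneg p e' ^ A) -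
      inl (uneg p e' ^ (A * Q)) * inr (upos p e' ^ A) ∈ 𝔔 :=
    hdense' _ fun k => ev_relation (hxz _).1 (hyz _).1 (hx0 _) (hy0 _) (hrel' _)
  have hM1 : uneg p e ^ (A * Q) ∉ 𝔮 := fun hmem =>
    (uneg_notMem h.prime hX e).1 (h.prime.mem_of_pow_mem _ hmem)
  have hM2 : uneg p e ^ A ∉ 𝔮 := fun hmem =>
    (uneg_notMem h.prime hX e).1 (h.prime.mem_of_pow_mem _ hmem)
  obtain ⟨t', ht'⟩ := pair_curve h hM1 hM2 (tr_monomial h hinf hι hX hD he (Nat.mul_pos hA hQ))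
    (tr_monomial h hinf hι hX hD he hA) hQp hpQ (fun F hF => (hl F).2 hF) (fun F hF => (hr F).2 hF)
    (fun hmem => hM1 ((hl _).1 hmem)) (fun hmem => hM2 ((hr _).1 hmem)) hrelQ
  have hinfQ : (zer 𝔔).Infinite := by
    refine Set.infinite_of_injective_forall_mem (f := fun k => Sum.elim (x (φ k)) (y (φ k))) ?_ hz
    intro k k' hkk
    apply hxφ
    funext i
    have := congrFun hkk (Sum.inl i)
    simpa using this
  have hmem := alg_part h hι hX hDer huniv hre hM hNM ht' hinfQ hl hr hA hQ hrelQ hrelQ'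
  refine ⟨φ 0, ?_⟩
  have h1 := (hz 0).2 _ hmem
  have hd := disc_elim (hxz (φ 0)).1 (hyz (φ 0)).1
  rw [ev_sub hd, ev_mul hd, ev_mul hd, ev_inl (hxz (φ 0)).1 (hyz (φ 0)).1,
    ev_inl (hxz (φ 0)).1 (hyz (φ 0)).1, ev_inr (hxz (φ 0)).1 (hyz (φ 0)).1,
    ev_inr (hxz (φ 0)).1 (hyz (φ 0)).1] at h1
  exact sub_eq_zero.1 h1

end PairAux

variable {p : ℕ} [Fact p.Prime] {σ : Type} [Fintype σ] {L : Type} [Field L]

theorem pair_lemma {𝔮 : Ideal (RR p σ)} {t : RR p σ} (h : IsCurve 𝔮 t) (hinf : (zer 𝔮).Infinite)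
    {ι : RR p σ →+* L} (hι : IsFF 𝔮 ι) (hX : ∀ i, (X i : RR p σ) ∉ 𝔮) (hD : DlogIndep ι)
    {e e' : σ → ℤ} (hind : ∀ a b : ℤ, (∀ i, a * e i + b * e' i = 0) → a = 0 ∧ b = 0) :
    ∃ N M : RR p σ, M ∉ 𝔮 ∧ Tr 𝔮 N M ∧ ∀ A Q : ℕ, 0 < A → 0 < Q → ∀ x y : ℕ → σ → ℂ_[p],
      Function.Injective x → (∀ k, x k ∈ zer 𝔮) → (∀ k, y k ∈ zer 𝔮) → (∀ k, AlgPt (x k)) →
      (∀ k, AlgPt (y k)) → (∀ k i, x k i ≠ 0) → (∀ k i, y k i ≠ 0) →
      (∀ k, UU e (y k) ^ A = UU e (x k) ^ (A * Q)) → (∀ k, UU e' (y k) ^ A = UU e' (x k) ^ (A * Q)) →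
      ∀ᶠ k in Filter.atTop, ev (x k) N * ev (y k) M = ev (y k) N * ev (x k) M := by
  obtain ⟨D, hDer, hC, hDt, -, huniv⟩ := exists_deriv h hinf hι
  have hcz : CharZero L := IsFF.charZero hι h.p_notMem
  have hne : ∃ x, D x ≠ 0 := ⟨ι t, by rw [hDt]; exact one_ne_zero⟩
  obtain ⟨N, M, hM, hNM, hTr⟩ := PairAux.exists_NM h hinf hι hD hDer hC hne hind
  have he : e ≠ 0 := by
    rintro rfl
    have := hind 1 0 (by intro i; simp)
    exact one_ne_zero this.1
  have hre : PairAux.rho ι D e ≠ 0 := PairAux.rho_ne hD hDer hC hne he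
  refine ⟨N, M, hM, hTr, ?_⟩
  intro A Q hA hQ x y hx hxz hyz _ hya hx0 hy0 hrel hrel'
  by_contra hnot
  rw [Filter.not_eventually] at hnot
  obtain ⟨ψ, hψ, hψ'⟩ := Filter.extraction_of_frequently_atTop hnot
  obtain ⟨k, hk⟩ := PairAux.core h hinf hι hX hD hDer huniv he hre hM hNM hA hQ (x ∘ ψ) (y ∘ ψ)
    (hx.comp hψ.injective) (fun k => hxz _) (fun k => hyz _) (fun k => hya _) (fun k => hx0 _)
    (fun k => hy0 _) (fun k => hrel _) (fun k => hrel' _)
  exact hψ' k hk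

end Pool.Agent.ZPB
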