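import Pool.Agent.ZPB.Loc
import Pool.Agent.Hhelper20.HF.Puiseux

/-!
# Module AI8: a function field of one variable embeds into `ℂ((t))`

`IsCF K`: `K` is finitely generated over `ℂ` of transcendence degree at most one.
`exists_place`: let `x` be transcendental, `T = 1/x`. By `IsCF.dep` every element of `K` is algebraic over `ℂ(T)`, so `K` is finite
over `ℂ(T)` and `K = ℂ(T)(α)` (primitive element theorem, characteristic zero). After multiplication of `α` by a nonzero element
of `ℂ[T]` it is integral over `ℂ[T]`; its minimal polynomial `g` over `ℂ[T]` is monic, `K ≅ ℂ(T)[Y]/(g)`. By Puiseux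
(`HF.newton_puiseux`, `Pool/Agent/Hhelper20/HF/Puiseux.lean`) `g(t^n, Y)` has a root in `ℂ[[t]]` for some `n ≥ 1`. So
`ℂ(T) → ℂ((t))`, `T ↦ t^n`, extends to `K → ℂ((t))`, and `x ↦ t^(-n)`.
(Alternatively without the primitive element: an algebraic closure `Ω` of `ℂ((t))`, Puiseux for the finitely many generators.)
-/

namespace Pool.Agent.ZPB

/-- `K` is a function field of at most one variable over `ℂ` -/
structure IsCF (K : Type) [Field K] [Algebra ℂ K] : Prop where
  fg : ∃ S : Finset K, IntermediateField.adjoin ℂ (S : Set K) = ⊤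
  dep : ∀ x y : K, ∃ P : MvPolynomial (Fin 2) ℂ, P ≠ 0 ∧ MvPolynomial.aeval ![x, y] P = 0

namespace Plc

open Polynomial

theorem isAlg_adjoin {K : Type} [Field K] [Algebra ℂ K] {T y : K} (hT : Transcendental ℂ T)
    {P : MvPolynomial (Fin 2) ℂ} (hP : P ≠ 0) (h : MvPolynomial.aeval ![y, T] P = 0) :
    IsAlgebraic (Algebra.adjoin ℂ (Set.range (fun _ : Fin 1 => T))) y := by
  by_contra hna
  have h1 : AlgebraicIndependent ℂ (fun _ : Fin 1 => T) :=
    (algebraicIndependent_unique_type_iff (x := fun _ : Fin 1 => T)).2 hT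
  have h2 := (h1.option_iff_transcendental y).2 hna
  have h3 : AlgebraicIndependent ℂ ![y, T] := by
    have hinj : Function.Injective (![none, some 0] : Fin 2 → Option (Fin 1)) := by
      intro a b hab
      fin_cases a <;> fin_cases b <;> simp_all
    have h4 := h2.comp _ hinj
    have h5 : ((fun o : Option (Fin 1) => o.elim y (fun _ => T)) ∘
        (![none, some 0] : Fin 2 → Option (Fin 1))) = ![y, T] := by
      funext i
      fin_cases i <;> rfl
    rw [h5] at h4
    exact h4
  apply hP
  rw [algebraicIndependent_iff] at h3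
  exact h3 P h

/-- `ℂ[X] → ℂ((t))`, `X ↦ t^n` -/
noncomputable def phi (n : ℕ) (hn : n ≠ 0) : ℂ[X] →+* LaurentSeries ℂ :=
  (HahnSeries.ofPowerSeries ℤ ℂ).comp
    ((PowerSeries.expand (R := ℂ) n hn).toRingHom.comp Polynomial.coeToPowerSeries.ringHom)

theorem expand_inj (n : ℕ) (hn : n ≠ 0) : Function.Injective (PowerSeries.expand (R := ℂ) n hn) := by
  intro f g h
  ext m
  have h1 := congrArg (PowerSeries.coeff (n * m)) h
  rwa [PowerSeries.coeff_expand_mul, PowerSeries.coeff_expand_mul] at h1

theorem phi_inj (n : ℕ) (hn : n ≠ 0) : Function.Injective (phi n hn) := by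
  intro f g h
  have h1 := HahnSeries.ofPowerSeries_injective h
  have h2 := expand_inj n hn h1
  exact Polynomial.coe_injective ℂ h2

theorem phi_C (n : ℕ) (hn : n ≠ 0) (c : ℂ) : phi n hn (C c) = HahnSeries.C c := by
  unfold phi
  simp [PowerSeries.expand_C]

theorem phi_X (n : ℕ) (hn : n ≠ 0) : phi n hn X = HahnSeries.single (n : ℤ) 1 := by
  unfold phi
  simp [PowerSeries.expand_X]

end Plc

open Polynomial in
theorem exists_place {K : Type} [Field K] [Algebra ℂ K] (hK : IsCF K) {x : K}
    (hx : Transcendental ℂ x) : ∃ κ : K →+* LaurentSeries ℂ,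
      (∀ c : ℂ, κ (algebraMap ℂ K c) = HahnSeries.C c) ∧ (κ x).order < 0 := by
  classical
  set T : K := x⁻¹ with hTdef
  have hT : Transcendental ℂ T := by
    intro h
    exact hx (IsAlgebraic.inv_iff.1 h)
  let alg : Algebra ℂ[X] K := (Polynomial.aeval T).toRingHom.toAlgebra
  have hmap : ∀ p : ℂ[X], algebraMap ℂ[X] K p = aeval T p := fun p => rfl
  have ist : IsScalarTower ℂ ℂ[X] K := by
    apply IsScalarTower.of_algebraMap_eq
    intro c
    rw [hmap, Polynomial.algebraMap_apply, Polynomial.aeval_C]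
    rfl
  have ff : FaithfulSMul ℂ[X] K := by
    rw [faithfulSMul_iff_algebraMap_injective]
    exact transcendental_iff_injective.1 hT
  let algF : Algebra (FractionRing ℂ[X]) K := FractionRing.liftAlgebra ℂ[X] K
  have tow : IsScalarTower ℂ[X] (FractionRing ℂ[X]) K := FractionRing.isScalarTower_liftAlgebra ℂ[X] K
  have tow2 : IsScalarTower ℂ (FractionRing ℂ[X]) K := by
    apply IsScalarTower.of_algebraMap_eq
    intro c
    rw [IsScalarTower.algebraMap_apply ℂ ℂ[X] K, IsScalarTower.algebraMap_apply ℂ ℂ[X] (FractionRing ℂ[X]),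
      ← IsScalarTower.algebraMap_apply ℂ[X] (FractionRing ℂ[X]) K]
  have halg : ∀ y : K, IsAlgebraic ℂ[X] y := by
    intro y
    obtain ⟨P, hP, hP0⟩ := hK.dep y T
    have h1 := Plc.isAlg_adjoin hT hP hP0
    have hTm : T ∈ Algebra.adjoin ℂ (Set.range (fun _ : Fin 1 => T)) :=
      Algebra.subset_adjoin ⟨0, rfl⟩
    let f : ℂ[X] →+* Algebra.adjoin ℂ (Set.range (fun _ : Fin 1 => T)) :=
      (Polynomial.aeval (⟨T, hTm⟩ : Algebra.adjoin ℂ (Set.range (fun _ : Fin 1 => T)))).toRingHom
    have hcomp : ∀ p : ℂ[X], ((f p : Algebra.adjoin ℂ (Set.range (fun _ : Fin 1 => T))) : K) = aeval T p := by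
      intro p
      have := Polynomial.aeval_algHom_apply (Algebra.adjoin ℂ (Set.range (fun _ : Fin 1 => T))).val
        (⟨T, hTm⟩ : Algebra.adjoin ℂ (Set.range (fun _ : Fin 1 => T))) p
      exact this.symm
    refine IsAlgebraic.of_ringHom_of_comp_eq (S := Algebra.adjoin ℂ (Set.range (fun _ : Fin 1 => T)))
      (B := K) (f := f) (g := RingHom.id K) h1 ?_ Function.injective_id ?_
    · intro z
      have hz : (z : K) ∈ Algebra.adjoin ℂ {T} := by
        have h0 : Set.range (fun _ : Fin 1 => T) = {T} := Set.range_const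
        rw [← h0]
        exact z.2
      rw [Algebra.adjoin_singleton_eq_range_aeval] at hz
      obtain ⟨p, hp⟩ := hz
      refine ⟨p, ?_⟩
      apply Subtype.ext
      rw [hcomp]
      exact hp
    · ext p
      · simp only [RingHom.comp_apply]
        exact hcomp _
      · simp only [RingHom.comp_apply]
        exact hcomp _
  have halgF : Algebra.IsAlgebraic (FractionRing ℂ[X]) K := ⟨fun y =>
    (halg y).extendScalars (IsFractionRing.injective ℂ[X] (FractionRing ℂ[X]))⟩
  -- finite
  have hfin : FiniteDimensional (FractionRing ℂ[X]) K := by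
    obtain ⟨S, hS⟩ := hK.fg
    have h1 : IntermediateField.adjoin (FractionRing ℂ[X]) (S : Set K) = ⊤ := by
      rw [eq_top_iff]
      intro y _
      have hy : y ∈ IntermediateField.adjoin ℂ (S : Set K) := by rw [hS]; trivial
      have h2 : IntermediateField.adjoin ℂ (S : Set K) ≤
          (IntermediateField.adjoin (FractionRing ℂ[X]) (S : Set K)).restrictScalars ℂ := by
        rw [IntermediateField.adjoin_le_iff]
        intro s hs
        have h3 : s ∈ IntermediateField.adjoin (FractionRing ℂ[X]) (S : Set K) :=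
          IntermediateField.subset_adjoin (FractionRing ℂ[X]) (S : Set K) hs
        exact h3
      exact h2 hy
    have h2 : FiniteDimensional (FractionRing ℂ[X])
        (IntermediateField.adjoin (FractionRing ℂ[X]) (S : Set K)) := by
      apply IntermediateField.finiteDimensional_adjoin
      intro s _
      exact (halgF.isAlgebraic s).isIntegral
    rw [h1] at h2
    exact (IntermediateField.topEquiv (F := FractionRing ℂ[X]) (E := K)).toLinearEquiv.finiteDimensional
  have : CharZero (FractionRing ℂ[X]) := inferInstance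
  obtain ⟨α, hα⟩ := Field.exists_primitive_element (FractionRing ℂ[X]) K
  obtain ⟨b, hb, hint⟩ := (halg α).exists_integral_multiple
  set β : K := b • α with hβ
  have hbK : algebraMap ℂ[X] K b ≠ 0 := by
    intro h
    exact hb (FaithfulSMul.algebraMap_injective ℂ[X] K (by rw [h, map_zero]))
  have hβtop : IntermediateField.adjoin (FractionRing ℂ[X]) {β} = ⊤ := by
    rw [eq_top_iff, ← hα, IntermediateField.adjoin_simple_le_iff]
    have h1 : α = (algebraMap (FractionRing ℂ[X]) K (algebraMap ℂ[X] (FractionRing ℂ[X]) b))⁻¹ * β := by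
      rw [← IsScalarTower.algebraMap_apply, hβ, Algebra.smul_def, inv_mul_cancel_left₀ hbK]
    rw [h1]
    apply mul_mem
    · apply inv_mem
      exact IntermediateField.algebraMap_mem _ _
    · exact IntermediateField.mem_adjoin_simple_self _ _
  have hβint : IsIntegral (FractionRing ℂ[X]) β := (halgF.isAlgebraic β).isIntegral
  set g : ℂ[X][X] := minpoly ℂ[X] β with hg
  have hgmonic : g.Monic := minpoly.monic hint
  have hgdeg : 0 < g.natDegree := minpoly.natDegree_pos hint
  have hgF : minpoly (FractionRing ℂ[X]) β = g.map (algebraMap ℂ[X] (FractionRing ℂ[X])) :=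
    minpoly.isIntegrallyClosed_eq_field_fractions _ _ hint
  obtain ⟨n, hn, a, ha⟩ := HF.newton_puiseux (g.map Polynomial.coeToPowerSeries.ringHom)
    (hgmonic.map _) (by rw [hgmonic.natDegree_map]; exact hgdeg)
  let ψ : FractionRing ℂ[X] →+* LaurentSeries ℂ := IsFractionRing.lift (Plc.phi_inj n hn)
  have hψ : ∀ p : ℂ[X], ψ (algebraMap ℂ[X] (FractionRing ℂ[X]) p) = Plc.phi n hn p := fun p =>
    IsFractionRing.lift_algebraMap (Plc.phi_inj n hn) p
  have hroot : (minpoly (FractionRing ℂ[X]) β).eval₂ ψ (HahnSeries.ofPowerSeries ℤ ℂ a) = 0 := by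
    rw [hgF, Polynomial.eval₂_map]
    have h1 : ψ.comp (algebraMap ℂ[X] (FractionRing ℂ[X])) = Plc.phi n hn := by
      exact RingHom.ext hψ
    rw [h1]
    unfold Plc.phi
    rw [Polynomial.map_map, ← Polynomial.eval₂_eq_eval_map] at ha
    have h2 := congrArg (HahnSeries.ofPowerSeries ℤ ℂ) ha
    rw [Polynomial.hom_eval₂, map_zero] at h2
    exact h2
  let e1 : K ≃ₐ[FractionRing ℂ[X]] (IntermediateField.adjoin (FractionRing ℂ[X]) {β}) :=
    (IntermediateField.topEquiv (F := FractionRing ℂ[X]) (E := K)).symm.trans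
      (IntermediateField.equivOfEq hβtop.symm)
  let e2 : AdjoinRoot (minpoly (FractionRing ℂ[X]) β) ≃ₐ[FractionRing ℂ[X]]
      (IntermediateField.adjoin (FractionRing ℂ[X]) {β}) :=
    IntermediateField.adjoinRootEquivAdjoin (FractionRing ℂ[X]) hβint
  let κ : K →+* LaurentSeries ℂ :=
    (AdjoinRoot.lift ψ (HahnSeries.ofPowerSeries ℤ ℂ a) hroot).comp
      (e1.trans e2.symm).toRingEquiv.toRingHom
  have hκ : ∀ u : FractionRing ℂ[X], κ (algebraMap (FractionRing ℂ[X]) K u) = ψ u := by
    intro u
    change AdjoinRoot.lift ψ (HahnSeries.ofPowerSeries ℤ ℂ a) hroot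
      ((e1.trans e2.symm) (algebraMap (FractionRing ℂ[X]) K u)) = ψ u
    rw [AlgEquiv.commutes, AdjoinRoot.algebraMap_eq, AdjoinRoot.lift_of]
  have hκ2 : ∀ p : ℂ[X], κ (algebraMap ℂ[X] K p) = Plc.phi n hn p := by
    intro p
    rw [IsScalarTower.algebraMap_apply ℂ[X] (FractionRing ℂ[X]) K, hκ, hψ]
  refine ⟨κ, ?_, ?_⟩
  · intro c
    rw [IsScalarTower.algebraMap_apply ℂ ℂ[X] K, hκ2, Polynomial.algebraMap_apply]
    exact Plc.phi_C n hn c
  · have h1 : κ T = HahnSeries.single (n : ℤ) 1 := by
      have h2 := hκ2 X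
      rw [hmap, Polynomial.aeval_X, Plc.phi_X] at h2
      exact h2
    have h2 : κ x = HahnSeries.single (-(n : ℤ)) 1 := by
      have h3 : x = T⁻¹ := by rw [hTdef, inv_inv]
      rw [h3, map_inv₀, h1]
      apply inv_eq_of_mul_eq_one_left
      rw [HahnSeries.single_mul_single]
      simp
    rw [h2, HahnSeries.order_single one_ne_zero]
    omega

end Pool.Agent.ZPB
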