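import Pool.Agent.ZPB.Place
import Pool.Agent.ZPB.DerivExt

/-!
# Module AI8b: derivations of a function field and places

* `trans_of_ne`: if `D` vanishes on `ℂ` and `D x ≠ 0`, then `x` is transcendental over `ℂ` (`DerivExt.along_eq_zero` with
  `A = ℂ`, `κ = id`).
* `exists_derK`: `d/dx` on `ℂ[x]` extends to `K` (`DerivExt.exists_der_ext` with `A = ℂ[X] → K`, `X ↦ x`, injective; `K` is algebraic over
  it by `IsCF.dep` and because `x` is transcendental). If `y` is transcendental and `D y = 0` then `x` is algebraic over `ℂ[y]`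
  (`IsCF.dep`), so `D x = 0` by `along_eq_zero`: contradiction.
* `exists_place_der`: `κ` from `exists_place` for `x`; `f = dt (κ x)/κ (D x)`. `y ↦ dt (κ y) - f κ (D y)` is a derivation along `κ`
  which vanishes on `ℂ[x]`, so it is zero (`along_eq_zero`). `f ≠ 0`: otherwise `dt (κ x) = 0`, `κ x = C c = κ (algebraMap c)`
  (`dt_eq_zero_iff`), `x = algebraMap c`, `D x = 0`.
* `SS_map`, `R1_map`: both sides are computed by the same field operations.
* `SS_place`: `D' = dt/f` is a derivation of `ℂ((t))` (`IsDer.divBy`) with `D' ∘ κ = κ ∘ D`; so `κ (SS D y) = SS D' (κ y)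
  = (SS dt (κ y) - sc dt f)/f²` (`SS_change`, `dt (κ y) = f κ (D y) ≠ 0`).
* `no_R1_K`: if `R1 D (SS D x0) (SS D x1) (SS D x2)`, apply `κ` (place with `κ x0` of negative order) and `R1_map`, `SS_place`,
  `R1_change`: `R1 dt (SS dt (κ x0)) …`, contradiction with `no_R1` (`SS dt (κ x1) ≠ SS dt (κ x2)` by `SS_place` and
  injectivity of `κ`).
-/

namespace Pool.Agent.ZPB

theorem SS_map {E E' : Type} [Field E] [Field E'] (κ : E →+* E') {D : E → E} {D' : E' → E'}
    (h : ∀ y, D' (κ y) = κ (D y)) (x : E) : SS D' (κ x) = κ (SS D x) := by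
  have hsc : ∀ y, sc D' (κ y) = κ (sc D y) := by
    intro y
    unfold sc
    rw [h, ← map_div₀, h]
    simp only [map_sub, map_div₀, map_pow, map_ofNat]
  unfold SS schw SJ
  rw [h, hsc]
  simp only [map_sub, map_add, map_mul, map_div₀, map_pow, map_ofNat]

theorem R1_map {E E' : Type} [Field E] [Field E'] (κ : E →+* E') {D : E → E} {D' : E' → E'}
    (h : ∀ y, D' (κ y) = κ (D y)) (a b c : E) : R1 D' (κ a) (κ b) (κ c) ↔ R1 D a b c := by
  unfold R1
  rw [← map_sub κ b c, h, ← map_div₀, h]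
  rw [← κ.injective.eq_iff (a := (5 * a - b - c) / 3)]
  simp only [map_sub, map_mul, map_div₀, map_pow, map_ofNat]

variable {K : Type} [Field K] [Algebra ℂ K]

namespace PlaceDerAux

theorem charZeroL : CharZero (LaurentSeries ℂ) :=
  charZero_of_injective_ringHom (HahnSeries.C : ℂ →+* LaurentSeries ℂ).injective

/-- the embedding `ℂ[X] → K`, `X ↦ x` -/
noncomputable def lx (x : K) : MvPolynomial (Fin 1) ℂ →+* K :=
  (MvPolynomial.aeval (fun _ : Fin 1 => x) : MvPolynomial (Fin 1) ℂ →ₐ[ℂ] K).toRingHom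

theorem lx_C (x : K) (c : ℂ) : lx x (MvPolynomial.C c) = algebraMap ℂ K c := by
  simp [lx]

theorem lx_X (x : K) (i : Fin 1) : lx x (MvPolynomial.X i) = x := by
  simp [lx]

theorem lx_inj {x : K} (hx : Transcendental ℂ x) : Function.Injective (lx x) := by
  have h : AlgebraicIndependent ℂ (fun _ : Fin 1 => x) :=
    (algebraicIndependent_unique_type_iff).mpr hx
  exact h

/-- every element is algebraic over `ℂ[x]` -/
theorem alg_over (hK : IsCF K) (x y : K) :
    ∃ P : Polynomial (MvPolynomial (Fin 1) ℂ), P ≠ 0 ∧ P.eval₂ (lx x) y = 0 := by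
  obtain ⟨Q, hQ, hQ0⟩ := hK.dep y x
  refine ⟨MvPolynomial.finSuccEquiv ℂ 1 Q, ?_, ?_⟩
  · intro h
    exact hQ ((map_eq_zero_iff _ (MvPolynomial.finSuccEquiv ℂ 1).injective).mp h)
  · rw [← hQ0]
    clear hQ hQ0
    induction Q using MvPolynomial.induction_on with
    | C a =>
      have h1 : MvPolynomial.finSuccEquiv ℂ 1 (MvPolynomial.C a) = Polynomial.C (MvPolynomial.C a) := by
        rw [MvPolynomial.finSuccEquiv_apply]
        simp
      rw [h1, Polynomial.eval₂_C, lx_C, MvPolynomial.aeval_C]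
    | add p q hp hq => rw [map_add, map_add, Polynomial.eval₂_add, hp, hq]
    | mul_X p i hp =>
      have h2 : ∀ i : Fin 2, (MvPolynomial.finSuccEquiv ℂ 1 (MvPolynomial.X i)).eval₂ (lx x) y =
          MvPolynomial.aeval ![y, x] (MvPolynomial.X i : MvPolynomial (Fin 2) ℂ) := by
        intro i
        rw [MvPolynomial.aeval_X]
        match i with
        | 0 =>
          rw [MvPolynomial.finSuccEquiv_X_zero, Polynomial.eval₂_X]
          rfl
        | 1 =>
          have h3 : (1 : Fin 2) = Fin.succ 0 := rfl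
          rw [h3, MvPolynomial.finSuccEquiv_X_succ, Polynomial.eval₂_C, lx_X]
          rfl
      rw [map_mul, map_mul, Polynomial.eval₂_mul, hp, h2]

/-- a derivation along `κ` vanishing on `ℂ` and at `x` vanishes on `ℂ[x]` -/
theorem vanish_lx {E : Type} [Field E] (κ : K →+* E) (D : K → E)
    (hadd : ∀ a b, D (a + b) = D a + D b) (hmul : ∀ a b, D (a * b) = D a * κ b + κ a * D b)
    (hc : ∀ c : ℂ, D (algebraMap ℂ K c) = 0) {x : K} (hx : D x = 0) (p : MvPolynomial (Fin 1) ℂ) :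
    D (lx x p) = 0 := by
  induction p using MvPolynomial.induction_on with
  | C a => rw [lx_C, hc]
  | add p q hp hq => rw [map_add, hadd, hp, hq, add_zero]
  | mul_X p i hp => rw [map_mul, hmul, hp, lx_X, hx, zero_mul, mul_zero, add_zero]

/-- a derivation along `κ` vanishing on `ℂ` and at a transcendental element vanishes -/
theorem vanish (hK : IsCF K) {E : Type} [Field E] [CharZero E] (κ : K →+* E) (D : K → E)
    (hadd : ∀ a b, D (a + b) = D a + D b) (hmul : ∀ a b, D (a * b) = D a * κ b + κ a * D b)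
    (hc : ∀ c : ℂ, D (algebraMap ℂ K c) = 0) {x : K} (hx : Transcendental ℂ x) (hDx : D x = 0)
    (y : K) : D y = 0 := by
  obtain ⟨P, hP, hP0⟩ := alg_over hK x y
  exact DerivExt.along_eq_zero (lx x) κ (lx_inj hx) D hadd hmul
    (vanish_lx κ D hadd hmul hc hDx) y P.natDegree P hP le_rfl hP0

end PlaceDerAux

theorem trans_of_ne {D : K → K} (hD : IsDer D) (hDc : ∀ c : ℂ, D (algebraMap ℂ K c) = 0) {x : K}
    (hx : D x ≠ 0) : Transcendental ℂ x := by
  have : CharZero K := charZero_of_injective_ringHom (algebraMap ℂ K).injective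
  intro halg
  obtain ⟨P, hP, hP0⟩ := halg
  exact hx (DerivExt.along_eq_zero (algebraMap ℂ K) (RingHom.id K) (algebraMap ℂ K).injective D
    hD.1 hD.2 hDc x P.natDegree P hP le_rfl hP0)

theorem exists_derK (hK : IsCF K) {x : K} (hx : Transcendental ℂ x) :
    ∃ D : K → K, IsDer D ∧ (∀ c : ℂ, D (algebraMap ℂ K c) = 0) ∧ D x = 1 ∧
      ∀ y : K, Transcendental ℂ y → D y ≠ 0 := by
  have : CharZero K := charZero_of_injective_ringHom (algebraMap ℂ K).injective
  obtain ⟨D, hD, hDl⟩ := DerivExt.exists_der_ext (PlaceDerAux.lx x) (PlaceDerAux.lx_inj hx)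
    (PlaceDerAux.alg_over hK x) (fun p => MvPolynomial.pderiv (R := ℂ) (0 : Fin 1) p) (by simp)
    (by simp) (by simp)
  have hc : ∀ c : ℂ, D (algebraMap ℂ K c) = 0 := by
    intro c
    rw [← PlaceDerAux.lx_C x c, hDl]
    simp
  have h1 : D x = 1 := by
    have h := hDl (MvPolynomial.X 0)
    rw [PlaceDerAux.lx_X, MvPolynomial.pderiv_X_self, map_one] at h
    exact h
  refine ⟨D, hD, hc, h1, fun y hy h0 => ?_⟩
  have := PlaceDerAux.vanish hK (RingHom.id K) D hD.1 hD.2 hc hy h0 x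
  rw [h1] at this
  exact one_ne_zero this

theorem exists_place_der (hK : IsCF K) {D : K → K} (hD : IsDer D)
    (hDc : ∀ c : ℂ, D (algebraMap ℂ K c) = 0) {x : K} (hx : D x ≠ 0) :
    ∃ (κ : K →+* LaurentSeries ℂ) (f : LaurentSeries ℂ), f ≠ 0 ∧
      (∀ c : ℂ, κ (algebraMap ℂ K c) = HahnSeries.C c) ∧ (κ x).order < 0 ∧
      ∀ y, dt (κ y) = f * κ (D y) := by
  have hxt := trans_of_ne hD hDc hx
  obtain ⟨κ, hκc, hκx⟩ := exists_place hK hxt
  have hcz : CharZero (LaurentSeries ℂ) := PlaceDerAux.charZeroL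
  have hne : κ (D x) ≠ 0 := (map_ne_zero κ).mpr hx
  have hdt := isDer_dt
  have key : ∀ y, dt (κ y) - dt (κ x) / κ (D x) * κ (D y) = 0 := by
    refine PlaceDerAux.vanish hK κ (fun y => dt (κ y) - dt (κ x) / κ (D x) * κ (D y)) ?_ ?_ ?_ hxt ?_
    · intro a b
      show dt (κ (a + b)) - dt (κ x) / κ (D x) * κ (D (a + b)) =
        dt (κ a) - dt (κ x) / κ (D x) * κ (D a) + (dt (κ b) - dt (κ x) / κ (D x) * κ (D b))
      rw [map_add, hdt.1, hD.1, map_add]
      ring
    · intro a b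
      show dt (κ (a * b)) - dt (κ x) / κ (D x) * κ (D (a * b)) =
        (dt (κ a) - dt (κ x) / κ (D x) * κ (D a)) * κ b +
          κ a * (dt (κ b) - dt (κ x) / κ (D x) * κ (D b))
      rw [map_mul, hdt.2, hD.2, map_add, map_mul, map_mul]
      ring
    · intro c
      show dt (κ (algebraMap ℂ K c)) - dt (κ x) / κ (D x) * κ (D (algebraMap ℂ K c)) = 0
      rw [hκc, hDc, map_zero, mul_zero, sub_zero]
      exact (dt_eq_zero_iff _).mpr ⟨c, rfl⟩
    · show dt (κ x) - dt (κ x) / κ (D x) * κ (D x) = 0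
      rw [div_mul_cancel₀ _ hne, sub_self]
  refine ⟨κ, dt (κ x) / κ (D x), ?_, hκc, hκx, fun y => sub_eq_zero.mp (key y)⟩
  refine div_ne_zero (fun h => ?_) hne
  obtain ⟨c, hc⟩ := (dt_eq_zero_iff _).mp h
  rw [← hκc c] at hc
  exact hx (by rw [κ.injective hc, hDc])

set_option linter.unusedSectionVars false in
theorem SS_place {D : K → K} {κ : K →+* LaurentSeries ℂ} {f : LaurentSeries ℂ} (hf : f ≠ 0)
    (h : ∀ y, dt (κ y) = f * κ (D y)) {y : K} (hy : D y ≠ 0) :
    κ (SS D y) = (SS dt (κ y) - sc dt f) / f ^ 2 := by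
  have hcz : CharZero (LaurentSeries ℂ) := PlaceDerAux.charZeroL
  have h1 : ∀ z, (fun w => dt w / f) (κ z) = κ (D z) := by
    intro z
    show dt (κ z) / f = κ (D z)
    rw [h, mul_div_cancel_left₀ _ hf]
  rw [← SS_map (D' := fun w => dt w / f) κ h1 y]
  exact SS_change isDer_dt hf (by rw [h]; exact mul_ne_zero hf ((map_ne_zero κ).mpr hy))

theorem no_R1_K (hK : IsCF K) {D : K → K} (hD : IsDer D)
    (hDc : ∀ c : ℂ, D (algebraMap ℂ K c) = 0) {x0 x1 x2 : K} (h0 : D x0 ≠ 0) (h1 : D x1 ≠ 0)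
    (h2 : D x2 ≠ 0) (hne : SS D x1 ≠ SS D x2) : ¬ R1 D (SS D x0) (SS D x1) (SS D x2) := by
  intro hR
  obtain ⟨κ, f, hf, -, hκx, hκ⟩ := exists_place_der hK hD hDc h0
  have hcz : CharZero (LaurentSeries ℂ) := PlaceDerAux.charZeroL
  have hD' : ∀ z, (fun w => dt w / f) (κ z) = κ (D z) := by
    intro z
    show dt (κ z) / f = κ (D z)
    rw [hκ, mul_div_cancel_left₀ _ hf]
  have hdt : ∀ {y : K}, D y ≠ 0 → dt (κ y) ≠ 0 := by
    intro y hy
    rw [hκ]
    exact mul_ne_zero hf ((map_ne_zero κ).mpr hy)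
  have hB : SS dt (κ x1) ≠ SS dt (κ x2) := by
    intro h
    apply hne
    apply κ.injective
    rw [SS_place hf hκ h1, SS_place hf hκ h2, h]
  have h3 := (R1_map (D' := fun w => dt w / f) κ hD' _ _ _).mpr hR
  rw [SS_place hf hκ h0, SS_place hf hκ h1, SS_place hf hκ h2, R1_change isDer_dt hf hB] at h3
  exact no_R1 (hdt h0) (hdt h1) (hdt h2) hκx hB h3

end Pool.Agent.ZPB
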