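import Pool.Agent.ZPB.Defs

/-!
# Module N1: regularity after a change of variables

`G ∈ ℤ_p[[S, T]]` (`S = X 0`, `T = X 1`) not divisible by `p`. Let `i0` be minimal such that some coefficient
`G_{i0, j}` is not divisible by `p`, `j0` minimal for this `i0`, and `N > j0` (`N ≥ 1`). Modulo `p` and `S - T^N`,
`G` becomes `∑ G_ij T^(N i + j) ≡ T^(N i0 + j0) (unit)`, since all terms with `N i + j < N i0 + j0` have
coefficients divisible by `p` and `G_{i0 j0}` is a unit of `ℤ_p`. (For every `F`,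
`F(S,T) - F(T^N,T)` is a multiple of `S - T^N`: `S^i - T^(N i) = (S - T^N) ∑_{k<i} S^k T^(N(i-1-k))`, summed
coefficientwise.) Hence `T^(N i0 + j0) ∈ (p, S - T^N, G)`.
-/

namespace Pool.Agent.ZPB

open MvPowerSeries

variable {p : ℕ} [Fact p.Prime]

namespace Reg

/-- the exponent `(i, j)` -/
noncomputable def e2 (i j : ℕ) : Fin 2 →₀ ℕ := Finsupp.single 0 i + Finsupp.single 1 j

lemma e2_zero (i j : ℕ) : e2 i j 0 = i := by simp [e2]

lemma e2_one (i j : ℕ) : e2 i j 1 = j := by simp [e2]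

lemma e2_eta (m : Fin 2 →₀ ℕ) : e2 (m 0) (m 1) = m := by
  ext i
  fin_cases i
  · exact e2_zero _ _
  · exact e2_one _ _

/-- the coefficients of a power series in two variables -/
noncomputable def cf (F : RR p (Fin 2)) (i j : ℕ) : ℤ_[p] := coeff (e2 i j) F

/-- a power series from its coefficients -/
noncomputable def mk2 (f : ℕ → ℕ → ℤ_[p]) : RR p (Fin 2) := fun m => f (m 0) (m 1)

lemma cf_mk2 (f : ℕ → ℕ → ℤ_[p]) (i j : ℕ) : cf (mk2 f) i j = f i j := by
  show f (e2 i j 0) (e2 i j 1) = f i j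
  rw [e2_zero, e2_one]

lemma ext_cf {F G : RR p (Fin 2)} (h : ∀ i j, cf F i j = cf G i j) : F = G := by
  ext m
  have := h (m 0) (m 1)
  simpa only [cf, e2_eta] using this

lemma cf_add (F G : RR p (Fin 2)) (i j : ℕ) : cf (F + G) i j = cf F i j + cf G i j := by
  simp [cf]

lemma cf_sub (F G : RR p (Fin 2)) (i j : ℕ) : cf (F - G) i j = cf F i j - cf G i j := by
  simp [cf]

lemma cf_pmul (F : RR p (Fin 2)) (i j : ℕ) :
    cf ((p : RR p (Fin 2)) * F) i j = (p : ℤ_[p]) * cf F i j := by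
  have : (p : RR p (Fin 2)) = C (p : ℤ_[p]) := by simp
  rw [this, cf, coeff_C_mul, cf]

lemma cf_X0_mul (F : RR p (Fin 2)) (i j : ℕ) :
    cf (X 0 * F) i j = if 1 ≤ i then cf F (i - 1) j else 0 := by
  have h1 : (X 0 : RR p (Fin 2)) = monomial (Finsupp.single 0 1) 1 := rfl
  rw [cf, h1, coeff_monomial_mul]
  have h2 : (Finsupp.single 0 1 : Fin 2 →₀ ℕ) ≤ e2 i j ↔ 1 ≤ i := by
    rw [Finsupp.single_le_iff, e2_zero]
  by_cases hi : 1 ≤ i
  · rw [if_pos (h2.2 hi), if_pos hi, one_mul, cf]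
    congr 2
    ext k
    fin_cases k
    · simp [e2]
    · simp [e2]
  · rw [if_neg (fun h => hi (h2.1 h)), if_neg hi]

lemma cf_X1_mul (n : ℕ) (F : RR p (Fin 2)) (i j : ℕ) :
    cf (X 1 ^ n * F) i j = if n ≤ j then cf F i (j - n) else 0 := by
  rw [cf, X_pow_eq, coeff_monomial_mul]
  have h2 : (Finsupp.single 1 n : Fin 2 →₀ ℕ) ≤ e2 i j ↔ n ≤ j := by
    rw [Finsupp.single_le_iff, e2_one]
  by_cases hi : n ≤ j
  · rw [if_pos (h2.2 hi), if_pos hi, one_mul, cf]
    congr 2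
    ext k
    fin_cases k
    · simp [e2]
    · simp [e2]
  · rw [if_neg (fun h => hi (h2.1 h)), if_neg hi]

/-- `E k l = ∑_r f (k + r) (l - N r)` -/
noncomputable def EE (N : ℕ) (f : ℕ → ℕ → ℤ_[p]) (k l : ℕ) : ℤ_[p] :=
  f k l + if _h : 1 ≤ N ∧ N ≤ l then EE N f (k + 1) (l - N) else 0
termination_by l
decreasing_by omega

lemma EE_eq (N : ℕ) (hN : 1 ≤ N) (f : ℕ → ℕ → ℤ_[p]) (k l : ℕ) :
    EE N f k l = f k l + if N ≤ l then EE N f (k + 1) (l - N) else 0 := by
  rw [EE]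
  by_cases h : N ≤ l
  · rw [dif_pos ⟨hN, h⟩, if_pos h]
  · rw [dif_neg (fun h' => h h'.2), if_neg h]

/-- the quotient of `F(S, T) - F(T^N, T)` by `S - T^N` -/
lemma decomp (N : ℕ) (hN : 1 ≤ N) (F : RR p (Fin 2)) :
    F = (X 0 - X 1 ^ N) * mk2 (fun k l => EE N (cf F) (k + 1) l) +
      mk2 (fun i j => if i = 0 then EE N (cf F) 0 j else 0) := by
  apply ext_cf
  intro i j
  rw [sub_mul, cf_add, cf_sub, cf_X0_mul, cf_X1_mul, cf_mk2, cf_mk2, cf_mk2]
  rcases Nat.eq_zero_or_pos i with rfl | hi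
  · rw [if_neg (by omega), if_pos rfl, EE_eq N hN (cf F) 0 j]
    ring
  · have hi' : 1 ≤ i := hi
    have hi2 : ¬ i = 0 := by omega
    rw [if_pos hi', if_neg hi2, Nat.sub_add_cancel hi', EE_eq N hN (cf F) i j]
    ring

/-- divisibility of the low coefficients -/
lemma EE_low (N i0 j0 : ℕ) (hN : j0 < N) (f : ℕ → ℕ → ℤ_[p])
    (h1 : ∀ i j, i < i0 → (p : ℤ_[p]) ∣ f i j) (h2 : ∀ j, j < j0 → (p : ℤ_[p]) ∣ f i0 j) :
    ∀ l k, N * k + l < N * i0 + j0 → (p : ℤ_[p]) ∣ EE N f k l := by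
  intro l
  induction l using Nat.strong_induction_on with
  | _ l ih =>
    intro k hk
    rw [EE_eq N (by omega)]
    apply dvd_add
    · rcases lt_trichotomy k i0 with h | h | h
      · exact h1 k l h
      · subst h
        exact h2 l (by omega)
      · exfalso
        have : N * (i0 + 1) ≤ N * k := Nat.mul_le_mul_left N h
        rw [Nat.mul_add, Nat.mul_one] at this
        omega
    · split_ifs with h
      · apply ih (l - N) (by omega)
        rw [Nat.mul_add, Nat.mul_one]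
        omega
      · exact dvd_zero _

/-- the first coefficient which is a unit -/
lemma EE_top (N i0 j0 : ℕ) (hN : j0 < N) (f : ℕ → ℕ → ℤ_[p])
    (h1 : ∀ i j, i < i0 → (p : ℤ_[p]) ∣ f i j) (h3 : ¬ (p : ℤ_[p]) ∣ f i0 j0) :
    ∀ n k l, k + n = i0 → l = N * n + j0 → ¬ (p : ℤ_[p]) ∣ EE N f k l := by
  intro n
  induction n with
  | zero =>
    intro k l hk hl
    rw [EE_eq N (by omega), if_neg (by omega), add_zero]
    have h4 : k = i0 := by omega
    have h5 : l = j0 := by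
      rw [hl, Nat.mul_zero, Nat.zero_add]
    rw [h4, h5]
    exact h3
  | succ n ih =>
    intro k l hk hl hd
    rw [Nat.mul_add, Nat.mul_one] at hl
    rw [EE_eq N (by omega), if_pos (by omega)] at hd
    exact ih (k + 1) (l - N) (by omega) (by omega) ((dvd_add_right (h1 k l (by omega))).1 hd)

lemma cf_dvd {G : RR p (Fin 2)} (h : ∀ i j, (p : ℤ_[p]) ∣ cf G i j) : (p : RR p (Fin 2)) ∣ G := by
  choose f hf using h
  refine ⟨mk2 f, ext_cf fun i j => ?_⟩
  rw [cf_pmul, cf_mk2, hf]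

end Reg

open Reg

theorem exists_regular {G : RR p (Fin 2)} (hG : ¬ (p : RR p (Fin 2)) ∣ G) :
    ∃ N a : ℕ, 1 ≤ N ∧ (X 1 : RR p (Fin 2)) ^ a ∈
      Ideal.span {(p : RR p (Fin 2)), X 0 - X 1 ^ N, G} := by
  classical
  have hex : ∃ i, ∃ j, ¬ (p : ℤ_[p]) ∣ cf G i j := by
    by_contra hcon
    push Not at hcon
    exact hG (cf_dvd hcon)
  obtain ⟨i0, ⟨hi0, hmin⟩⟩ : ∃ i0, (∃ j, ¬ (p : ℤ_[p]) ∣ cf G i0 j) ∧
      ∀ i j, i < i0 → (p : ℤ_[p]) ∣ cf G i j := by
    refine ⟨Nat.find hex, Nat.find_spec hex, fun i j hi => ?_⟩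
    by_contra hc
    exact Nat.find_min hex hi ⟨j, hc⟩
  obtain ⟨j0, hj0, hmin2⟩ : ∃ j0, ¬ (p : ℤ_[p]) ∣ cf G i0 j0 ∧
      ∀ j, j < j0 → (p : ℤ_[p]) ∣ cf G i0 j := by
    refine ⟨Nat.find hi0, Nat.find_spec hi0, fun j hj => ?_⟩
    by_contra hc
    exact Nat.find_min hi0 hj hc
  set N := j0 + 1 with hN
  set a := N * i0 + j0 with ha
  have hlow : ∀ l, l < a → (p : ℤ_[p]) ∣ EE N (cf G) 0 l := fun l hl =>
    EE_low N i0 j0 (by omega) (cf G) hmin hmin2 l 0 (by simpa using hl)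
  have htop : ¬ (p : ℤ_[p]) ∣ EE N (cf G) 0 a :=
    EE_top N i0 j0 (by omega) (cf G) hmin hj0 i0 0 a (by omega) ha
  have hunit : IsUnit (EE N (cf G) 0 a) := by
    by_contra hc
    apply htop
    rw [← PadicInt.norm_lt_one_iff_dvd, ← PadicInt.mem_nonunits]
    exact hc
  choose q hq using hlow
  set U : RR p (Fin 2) := mk2 (fun i j => if i = 0 then EE N (cf G) 0 (a + j) else 0) with hU
  set V : RR p (Fin 2) := mk2 (fun i j => if h : i = 0 ∧ j < a then q j h.2 else 0) with hV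
  have hUu : IsUnit U := by
    rw [isUnit_iff_constantCoeff]
    have h0 : constantCoeff U = cf U 0 0 := by
      rw [cf, ← coeff_zero_eq_constantCoeff_apply]
      congr 2
      simp [e2]
    rw [h0, hU, cf_mk2, if_pos rfl, Nat.add_zero]
    exact hunit
  obtain ⟨u, hu⟩ := hUu
  have hF' : mk2 (fun i j => if i = 0 then EE N (cf G) 0 j else 0) =
      X 1 ^ a * U + (p : RR p (Fin 2)) * V := by
    apply ext_cf
    intro i j
    rw [cf_add, cf_X1_mul, cf_pmul, cf_mk2, hU, hV, cf_mk2, cf_mk2]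
    by_cases hi : i = 0
    · rw [if_pos hi]
      by_cases hj : a ≤ j
      · rw [if_pos hj, if_pos hi, dif_neg (by omega), Nat.add_sub_cancel' hj, mul_zero, add_zero]
      · rw [if_neg hj, dif_pos ⟨hi, by omega⟩, zero_add]
        exact hq j (by omega)
    · rw [if_neg hi, dif_neg (by omega), mul_zero, add_zero]
      split_ifs
      · rfl
      · rfl
  refine ⟨N, a, by omega, ?_⟩
  have hdec := decomp N (by omega) G
  rw [hF'] at hdec
  have hfin : (X 1 : RR p (Fin 2)) ^ a = ((u⁻¹ : (RR p (Fin 2))ˣ) : RR p (Fin 2)) *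
      (G - (X 0 - X 1 ^ N) * mk2 (fun k l => EE N (cf G) (k + 1) l) - (p : RR p (Fin 2)) * V) := by
    rw [eq_comm, Units.inv_mul_eq_iff_eq_mul, hu]
    nth_rewrite 1 [hdec]
    ring
  rw [hfin]
  apply Ideal.mul_mem_left
  apply sub_mem
  · apply sub_mem
    · exact Ideal.subset_span (by simp)
    · exact Ideal.mul_mem_right _ _ (Ideal.subset_span (by simp))
  · exact Ideal.mul_mem_right _ _ (Ideal.subset_span (by simp))

/-- consequence in a quotient: if `p ∤ G`, `s, t` have no constant term and `G(s, t) ∈ 𝔮`, then for some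
`N ≥ 1` both `s` and `t` are nilpotent modulo `(p, s - t^N) + 𝔮`. -/
theorem exists_param {σ : Type} [Fintype σ] {G : RR p (Fin 2)} (hG : ¬ (p : RR p (Fin 2)) ∣ G)
    {s t : RR p σ} (hs : constantCoeff s = 0) (ht : constantCoeff t = 0) {𝔮 : Ideal (RR p σ)}
    (h : MvPowerSeries.subst (![s, t] : Fin 2 → RR p σ) G ∈ 𝔮) :
    ∃ N a : ℕ, 1 ≤ N ∧ s ^ a ∈ Ideal.span {(p : RR p σ), s - t ^ N} ⊔ 𝔮 ∧
      t ^ a ∈ Ideal.span {(p : RR p σ), s - t ^ N} ⊔ 𝔮 := by
  obtain ⟨N, a, hN, ha⟩ := exists_regular hG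
  have hsub : HasSubst (![s, t] : Fin 2 → RR p σ) := by
    apply hasSubst_of_constantCoeff_zero
    intro i
    fin_cases i
    · exact hs
    · exact ht
  set φ : RR p (Fin 2) →ₐ[ℤ_[p]] RR p σ := substAlgHom hsub with hφ
  set J : Ideal (RR p σ) := Ideal.span {(p : RR p σ), s - t ^ N} ⊔ 𝔮 with hJ
  have h0 : φ (X 0) = s := by
    rw [hφ, substAlgHom_X]
    rfl
  have h1 : φ (X 1) = t := by
    rw [hφ, substAlgHom_X]
    rfl
  have hle : Ideal.span {(p : RR p (Fin 2)), X 0 - X 1 ^ N, G} ≤ J.comap φ := by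
    rw [Ideal.span_le]
    intro x hx
    simp only [Set.mem_insert_iff, Set.mem_singleton_iff] at hx
    rw [SetLike.mem_coe, Ideal.mem_comap]
    rcases hx with rfl | rfl | rfl
    · rw [map_natCast]
      exact Ideal.mem_sup_left (Ideal.subset_span (by simp))
    · rw [map_sub, map_pow, h0, h1]
      exact Ideal.mem_sup_left (Ideal.subset_span (by simp))
    · rw [hφ, coe_substAlgHom]
      exact Ideal.mem_sup_right h
  have hta : t ^ a ∈ J := by
    have := hle ha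
    rw [Ideal.mem_comap, map_pow, h1] at this
    exact this
  have hst : s - t ^ N ∈ J := Ideal.mem_sup_left (Ideal.subset_span (by simp))
  refine ⟨N, a, hN, ?_, hta⟩
  have h2 : s ^ a - (t ^ N) ^ a ∈ J := by
    obtain ⟨c, hc⟩ := sub_dvd_pow_sub_pow s (t ^ N) a
    rw [hc]
    exact Ideal.mul_mem_right _ _ hst
  have h3 : (t ^ N) ^ a ∈ J := by
    obtain ⟨M, rfl⟩ : ∃ M, N = M + 1 := ⟨N - 1, by omega⟩
    rw [← pow_mul, mul_comm, pow_mul, pow_succ]
    exact Ideal.mul_mem_left _ _ hta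
  have h4 := add_mem h2 h3
  rwa [sub_add_cancel] at h4

end Pool.Agent.ZPB
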