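import Pool.Agent.ZPB.Transfer
import Pool.Agent.Hhelper14.ZPL.Hecke2
import Pool.Agent.Hhelper99.ZPL.Growth

/-!
# Module AI7a: the translation `s` is real

Let `P ≠ 0` and `Van r s h P`, `r > 0`. Suppose `Im s ≠ 0`.
First case `Im s > 0`. `F(τ) = P(j(τ), j(r τ + s))` is holomorphic on `ℍ` and vanishes for `Im τ > h`, so it is zero on `ℍ`
(`zero_of_uncountable` in `Hhelper99/ZPL/Growth.lean`). Fix `τ` and let `p(Y) = P(j(τ), Y)`. Applying this to
`γ_c τ = τ/(cτ+1)`, `c = 0, 1, 2, …`, we see that `j(r γ_c τ + s)` is a root of `p` for all `c`; the points `r γ_c τ + s`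
are different from `s` and tend to `s`. If `p ≠ 0` has finitely many roots, so `j` takes one of them at points
`≠ s` arbitrarily close to `s`, hence is constant on `ℍ`: contradiction to the surjectivity (`j_surj`). So `P(j(τ), Y) = 0`
for all `τ`, and `P = 0` because `j` is surjective.
Second case `Im s < 0`: for `z ∈ ℍ` put `τ = (z - s)/r ∈ ℍ`, so `P(j((z - s)/r), j(z)) = 0` for `Im z` large: this is the first case
for `r' = 1/r`, `s' = -s/r` and the polynomial with exchanged variables.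
-/

namespace Pool.Agent.ZPB

open UpperHalfPlane Pool.Agent.Hhelper14.ZP
open scoped Manifold MatrixGroups

/-- the affine map `τ ↦ r τ + s` -/
noncomputable def affM (r : ℝ) (s : ℂ) (hr : 0 < r) (hs : 0 ≤ s.im) (τ : ℍ) : ℍ :=
  ⟨r * τ + s, by
    have h1 : (r * (τ : ℂ) + s).im = r * τ.im + s.im := by simp
    rw [h1]
    have := mul_pos hr τ.im_pos
    linarith⟩

theorem affM_coe (r : ℝ) (s : ℂ) (hr : 0 < r) (hs : 0 ≤ s.im) (τ : ℍ) :
    ((affM r s hr hs τ : ℍ) : ℂ) = r * τ + s := rfl

theorem jaff_mdiff (r : ℝ) (s : ℂ) (hr : 0 < r) (hs : 0 ≤ s.im) :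
    MDiff (fun τ : ℍ => jInv (affM r s hr hs τ)) := by
  rw [UpperHalfPlane.mdifferentiable_iff]
  have h1 := UpperHalfPlane.mdifferentiable_iff.mp jInv_mdiff
  have h2 : DifferentiableOn ℂ (fun z : ℂ => (jInv ∘ ofComplex) ((r : ℂ) * z + s))
      {z : ℂ | 0 < z.im} := by
    refine h1.comp (((differentiable_id.const_mul (r : ℂ)).add_const s).differentiableOn) ?_
    intro z hz
    have hz' : 0 < z.im := hz
    change 0 < ((r : ℂ) * z + s).im
    have h3 : ((r : ℂ) * z + s).im = r * z.im + s.im := by simp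
    rw [h3]
    have := mul_pos hr hz'
    linarith
  refine h2.congr ?_
  intro z hz
  change 0 < z.im at hz
  simp only [Function.comp_apply]
  congr 1
  apply UpperHalfPlane.ext
  have h3 : 0 < ((r : ℂ) * z + s).im := by
    have h3 : ((r : ℂ) * z + s).im = r * z.im + s.im := by simp
    rw [h3]
    have := mul_pos hr hz
    linarith
  rw [affM_coe, ofComplex_apply_of_im_pos hz, ofComplex_apply_of_im_pos h3]

theorem eval_mdiff {f g : ℍ → ℂ} (hf : MDiff f) (hg : MDiff g) (P : MvPolynomial (Fin 2) ℂ) :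
    MDiff (fun τ => MvPolynomial.eval ![f τ, g τ] P) := by
  induction P using MvPolynomial.induction_on with
  | C a =>
    simp only [MvPolynomial.eval_C]
    exact mdifferentiable_const
  | add p q hp hq =>
    simp only [map_add]
    exact hp.add hq
  | mul_X p i hp =>
    simp only [map_mul, MvPolynomial.eval_X]
    refine hp.mul ?_
    fin_cases i
    · exact hf
    · exact hg

theorem uncountable_im (h : ℝ) : ¬ {τ : ℍ | h < τ.im}.Countable := by
  intro hc
  have h1 : (Set.Ioi (max h 0)).Countable := by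
    refine (hc.image fun τ => τ.im).mono ?_
    intro y hy
    have hy1 : max h 0 < y := hy
    have hy0 : 0 < y := lt_of_le_of_lt (le_max_right _ _) hy1
    refine ⟨⟨⟨0, y⟩, hy0⟩, ?_, rfl⟩
    exact lt_of_le_of_lt (le_max_left h 0) hy1
  have h2 := Cardinal.mk_Ioi_real (max h 0)
  rw [← Cardinal.le_aleph0_iff_set_countable, h2] at h1
  exact absurd h1 (not_le.mpr Cardinal.aleph0_lt_continuum)

theorem van_aff {r : ℝ} (hr : 0 < r) {s : ℂ} (hs : 0 ≤ s.im) {h : ℝ} {P : MvPolynomial (Fin 2) ℂ}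
    (hv : Van r s h P) (τ : ℍ) :
    MvPolynomial.eval ![jInv τ, jInv (affM r s hr hs τ)] P = 0 := by
  have hmd := eval_mdiff jInv_mdiff (jaff_mdiff r s hr hs) P
  refine Pool.Agent.Hhelper14.ZPL.zero_of_uncountable hmd ?_ τ
  intro hc
  refine uncountable_im h (hc.mono ?_)
  intro τ hτ
  exact hv τ _ hτ (affM_coe r s hr hs τ)

theorem eval_uni (x y : ℂ) (P : MvPolynomial (Fin 2) ℂ) :
    (MvPolynomial.aeval ![Polynomial.C x, (Polynomial.X : Polynomial ℂ)] P).eval y =
      MvPolynomial.eval ![x, y] P := by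
  induction P using MvPolynomial.induction_on with
  | C a => simp
  | add p q hp hq => simp [hp, hq]
  | mul_X p i hp =>
    rw [map_mul, map_mul, Polynomial.eval_mul, hp, MvPolynomial.aeval_X, MvPolynomial.eval_X]
    congr 1
    fin_cases i <;> simp

/-- the matrix `(1 0; c 1)` -/
def gm (c : ℕ) : SL(2, ℤ) := ⟨!![1, 0; (c : ℤ), 1], by simp⟩

theorem gm_coe (c : ℕ) (τ : ℍ) : ((gm c • τ : ℍ) : ℂ) = τ / (c * τ + 1) := by
  rw [UpperHalfPlane.coe_specialLinearGroup_apply]
  simp [gm]

theorem gm_tendsto (τ : ℍ) : Filter.Tendsto (fun c : ℕ => ((gm c • τ : ℍ) : ℂ)) Filter.atTop (nhds 0) := by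
  have h1 : Filter.Tendsto (fun c : ℕ => ‖(τ : ℂ)‖ / τ.im * (1 / ((c : ℝ) + 1))) Filter.atTop (nhds 0) := by
    have h := (tendsto_one_div_add_atTop_nhds_zero_nat (𝕜 := ℝ)).const_mul (‖(τ : ℂ)‖ / τ.im)
    rwa [mul_zero] at h
  rw [← Filter.tendsto_add_atTop_iff_nat 1]
  refine squeeze_zero_norm (fun c => ?_) h1
  rw [gm_coe, norm_div, div_mul_div_comm, mul_one]
  have him : τ.im * ((c : ℝ) + 1) ≤ ‖(((c + 1 : ℕ) : ℂ) * τ + 1)‖ := by
    refine le_trans ?_ (Complex.abs_im_le_norm _)
    refine le_trans (le_of_eq ?_) (le_abs_self _)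
    simp
    ring
  have hpos : 0 < τ.im * ((c : ℝ) + 1) := mul_pos τ.im_pos (by positivity)
  gcongr

/-- the case `Im s > 0` -/
theorem s_real_pos {r : ℝ} (hr : 0 < r) {s : ℂ} (hs : 0 < s.im) {h : ℝ}
    {P : MvPolynomial (Fin 2) ℂ} (hv : Van r s h P) : P = 0 := by
  -- `j` takes no value infinitely often near `s`
  have hd := UpperHalfPlane.mdifferentiable_iff.mp jInv_mdiff
  have hU : IsOpen {z : ℂ | 0 < z.im} := isOpen_upperHalfPlaneSet
  have hconn : IsPreconnected {z : ℂ | 0 < z.im} := (convex_halfSpace_im_gt 0).isPreconnected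
  have hval : ∀ v : ℂ, ∀ᶠ w in nhdsWithin s {s}ᶜ, (jInv ∘ ofComplex) w ≠ v := by
    intro v
    by_contra hcon
    have hfr : ∃ᶠ w in nhdsWithin s {s}ᶜ, (jInv ∘ ofComplex) w - v = 0 := by
      rw [Filter.not_eventually] at hcon
      refine hcon.mono fun w hw => ?_
      rw [not_not.mp hw, sub_self]
    have han : AnalyticOnNhd ℂ (fun w => (jInv ∘ ofComplex) w - v) {z : ℂ | 0 < z.im} :=
      (hd.sub_const v).analyticOnNhd hU
    have h1 := han.eqOn_zero_of_preconnected_of_frequently_eq_zero hconn hs hfr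
    obtain ⟨τ, hτ⟩ := Pool.Agent.Hhelper14.ZPL.j_surj (v + 1)
    have h2 := h1 (show (τ : ℂ) ∈ {z : ℂ | 0 < z.im} from τ.im_pos)
    simp [hτ] at h2
  -- the polynomial `P(j(τ), Y)` is zero
  have hp : ∀ τ : ℍ, MvPolynomial.aeval ![Polynomial.C (jInv τ), (Polynomial.X : Polynomial ℂ)] P = 0 := by
    intro τ
    by_contra hne
    set p := MvPolynomial.aeval ![Polynomial.C (jInv τ), (Polynomial.X : Polynomial ℂ)] P with hpdef
    have hroot : ∀ c : ℕ, jInv (affM r s hr hs.le (gm c • τ)) ∈ p.roots.toFinset := by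
      intro c
      rw [Multiset.mem_toFinset, Polynomial.mem_roots hne, Polynomial.IsRoot.def, hpdef, eval_uni]
      have h1 := van_aff hr hs.le hv (gm c • τ)
      rwa [jInv_smul] at h1
    have hlim : Filter.Tendsto (fun c : ℕ => (affM r s hr hs.le (gm c • τ) : ℂ)) Filter.atTop
        (nhdsWithin s {s}ᶜ) := by
      rw [tendsto_nhdsWithin_iff]
      constructor
      · have h1 := ((gm_tendsto τ).const_mul (r : ℂ)).add_const s
        rw [mul_zero, zero_add] at h1
        exact h1
      · refine Filter.Eventually.of_forall fun c => ?_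
        rw [affM_coe]
        intro h1
        have h2 : ((r : ℂ) * ((gm c • τ : ℍ) : ℂ) + s).im = s.im := by
          rw [Set.mem_singleton_iff.mp h1]
        have h3 : ((r : ℂ) * ((gm c • τ : ℍ) : ℂ) + s).im = r * (gm c • τ).im + s.im := by simp
        have h4 := mul_pos hr (gm c • τ).im_pos
        linarith
    have hall : ∀ᶠ w in nhdsWithin s {s}ᶜ, ∀ v ∈ p.roots.toFinset, (jInv ∘ ofComplex) w ≠ v :=
      (Filter.eventually_all_finset _).mpr fun v _ => hval v
    obtain ⟨c, hc⟩ := (hlim.eventually hall).exists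
    refine hc _ (hroot c) ?_
    rw [Function.comp_apply, ofComplex_apply]
  apply MvPolynomial.funext
  intro x
  obtain ⟨τ, hτ⟩ := Pool.Agent.Hhelper14.ZPL.j_surj (x 0)
  have h1 := eval_uni (jInv τ) (x 1) P
  rw [hp τ, Polynomial.eval_zero, hτ] at h1
  rw [map_zero, h1]
  congr 2
  funext i
  fin_cases i <;> rfl

theorem s_real {r : ℝ} (hr : 0 < r) {s : ℂ} {h : ℝ} {P : MvPolynomial (Fin 2) ℂ} (hP : P ≠ 0)
    (hv : Van r s h P) : s.im = 0 := by
  rcases lt_trichotomy s.im 0 with hs | hs | hs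
  · exfalso
    apply hP
    have hr' : 0 < 1 / r := by positivity
    have hrC : (r : ℂ) ≠ 0 := by exact_mod_cast hr.ne'
    have hs' : 0 < (-s / r).im := by
      rw [Complex.div_ofReal_im, Complex.neg_im]
      exact div_pos (by linarith) hr
    have hv' : Van (1 / r) (-s / r) (r * h) (MvPolynomial.rename (Equiv.swap 0 1) P) := by
      intro τ τ' hτ hττ
      have h1 : (τ : ℂ) = r * τ' + s := by
        rw [hττ]
        push_cast
        field_simp
        ring
      have h2 : h < τ'.im := by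
        have h3 : τ.im = r * τ'.im + s.im := by
          have h4 := congrArg Complex.im h1
          simpa using h4
        by_contra hcon
        have h5 := mul_le_mul_of_nonneg_left (not_lt.mp hcon) hr.le
        linarith
      have h3 := hv τ' τ h2 h1
      rw [MvPolynomial.eval_rename]
      rw [← h3]
      congr 2
      funext i
      fin_cases i <;> rfl
    have h1 := s_real_pos hr' hs' hv'
    exact (map_eq_zero_iff _ (MvPolynomial.rename_injective _ (Equiv.injective _))).mp h1
  · exact hs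
  · exact absurd (s_real_pos hr hs hv) hP

/-- once `s` is real the identity holds everywhere -/
theorem van_all {r : ℝ} (hr : 0 < r) {s : ℝ} {h : ℝ} {P : MvPolynomial (Fin 2) ℂ}
    (hv : Van r s h P) (τ τ' : ℍ) (hτ : (τ' : ℂ) = r * τ + s) :
    MvPolynomial.eval ![jInv τ, jInv τ'] P = 0 := by
  have hs : 0 ≤ ((s : ℂ)).im := by simp
  have h1 := van_aff hr hs hv τ
  have h2 : affM r (s : ℂ) hr hs τ = τ' := UpperHalfPlane.ext (by rw [affM_coe, hτ])
  rwa [h2] at h1

end Pool.Agent.ZPB
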