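import Pool.Agent.ZPB.CurveZero
import Pool.Agent.ZPB.DerivExt

/-!
# Module AI13: a nonconstant coordinate is transcendental

Let `f ≠ 0`, `ι (subst (X i) f) = 0`, i.e. `subst (X i) f ∈ 𝔮`. For `z ∈ zer 𝔮`: `valZ f (z i) = ev z (subst (X i) f) = 0` (see `ev_subst`,
`EvVal.lean`, and `ev_X`). By `exists_isW_of_Z`, `IsW.finite_zeros` the power series `f` has finitely many zeros in the open disc, so (pigeonhole)
there is `s` with `{z ∈ zer 𝔮 : z i = s}` infinite; `valZ f s = 0`, so `s` is algebraic over `ℚ_p` (`algebraic_of_zero`): `h(s) = 0` for some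
`0 ≠ h ∈ ℤ_p[Y]`. Then `H = h(X_i) ∈ RR` (`Polynomial.eval₂ C (X i) h`) vanishes at infinitely many points of `zer 𝔮`, and `H ∈ 𝔮` by
`IsCurve.finite_zeros`. So `ι X_i` is a root of `h` over `ℤ_p → L`; `D` vanishes on the image of `ℤ_p` (`IsCont.C`), and
`DerivExt.along_eq_zero` (characteristic zero: `IsFF.charZero`; `A = ℤ_p`, injective because `p ∉ 𝔮`: the kernel of
`ℤ_p → L` is a prime ideal not containing `p`) gives `D (ι X_i) = 0`: contradiction.
-/

namespace Pool.Agent.ZPB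

open MvPowerSeries

variable {p : ℕ} [Fact p.Prime] {L : Type} [Field L]

namespace SubstInj

/-- division by the largest power of `p` -/
theorem div_p {f : PowerSeries ℤ_[p]} (hf : f ≠ 0) :
    ∃ (k : ℕ) (g : PowerSeries ℤ_[p]), f = PowerSeries.C ((p : ℤ_[p]) ^ k) * g ∧
      g.map (IsLocalRing.residue ℤ_[p]) ≠ 0 := by
  classical
  have h0 : ∃ k n : ℕ, PowerSeries.coeff n f ≠ 0 ∧ (PowerSeries.coeff n f).valuation = k := by
    by_contra hcon
    push Not at hcon
    apply hf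
    ext n
    rw [map_zero]
    by_contra hn
    exact hcon _ n hn rfl
  obtain ⟨k, hkdef⟩ : ∃ k, k = Nat.find h0 := ⟨_, rfl⟩
  obtain ⟨n, hn0, hnk⟩ : ∃ n : ℕ, PowerSeries.coeff n f ≠ 0 ∧
      (PowerSeries.coeff n f).valuation = k := by
    rw [hkdef]
    exact Nat.find_spec h0
  have hmin : ∀ m, PowerSeries.coeff m f ≠ 0 → k ≤ (PowerSeries.coeff m f).valuation := by
    intro m hm
    rw [hkdef]
    exact Nat.find_min' h0 ⟨m, hm, rfl⟩
  have hdvd : ∀ m, ∃ c, PowerSeries.coeff m f = (p : ℤ_[p]) ^ k * c := by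
    intro m
    by_cases hm : PowerSeries.coeff m f = 0
    · exact ⟨0, by rw [hm, mul_zero]⟩
    · have h1 := hmin m hm
      have h2 := PadicInt.unitCoeff_spec hm
      refine ⟨(PadicInt.unitCoeff hm : ℤ_[p]) *
        (p : ℤ_[p]) ^ ((PowerSeries.coeff m f).valuation - k), ?_⟩
      conv_lhs => rw [h2]
      rw [mul_left_comm, ← pow_add, Nat.add_sub_cancel' h1]
  choose c hc using hdvd
  refine ⟨k, PowerSeries.mk c, ?_, ?_⟩
  · ext m
    rw [PowerSeries.coeff_C_mul, PowerSeries.coeff_mk, ← hc]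
  · intro h0
    have h1 := congrArg (PowerSeries.coeff n) h0
    rw [PowerSeries.coeff_map, PowerSeries.coeff_mk, map_zero,
      IsLocalRing.residue_eq_zero_iff] at h1
    have hp0 : (p : ℤ_[p]) ≠ 0 := by
      exact_mod_cast (Fact.out : p.Prime).ne_zero
    have h2 : c n = (PadicInt.unitCoeff hn0 : ℤ_[p]) := by
      have h3 := PadicInt.unitCoeff_spec hn0
      rw [hnk] at h3
      apply mul_left_cancel₀ (pow_ne_zero k hp0)
      rw [← hc n, mul_comm]
      exact h3
    rw [h2] at h1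
    exact h1 (PadicInt.unitCoeff hn0).isUnit

/-- Weierstrass preparation: a power series which is mapped to zero gives a polynomial -/
theorem exists_poly (φ : PowerSeries ℤ_[p] →+* L) (hp : φ (p : PowerSeries ℤ_[p]) ≠ 0)
    {f : PowerSeries ℤ_[p]} (hf : f ≠ 0) (h : φ f = 0) :
    ∃ P : Polynomial ℤ_[p], P ≠ 0 ∧ P.eval₂ (φ.comp PowerSeries.C) (φ PowerSeries.X) = 0 := by
  obtain ⟨k, g, hfg, hg⟩ := div_p hf
  obtain ⟨P, u, hPu⟩ := PowerSeries.exists_isWeierstrassFactorization hg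
  have hgP : g = (P : PowerSeries ℤ_[p]) * u := hPu.eq_mul
  rw [hfg, hgP, map_mul, map_mul] at h
  have h2 : φ (PowerSeries.C ((p : ℤ_[p]) ^ k)) ≠ 0 := by
    rw [map_pow, map_pow, map_natCast]
    exact pow_ne_zero k hp
  have h3 : φ u ≠ 0 := (hPu.isUnit.map φ).ne_zero
  have h4 : φ (P : PowerSeries ℤ_[p]) = 0 := by
    rcases mul_eq_zero.1 h with h5 | h5
    · exact absurd h5 h2
    · rcases mul_eq_zero.1 h5 with h6 | h6
      · exact h6
      · exact absurd h6 h3
  refine ⟨P, hPu.isDistinguishedAt.monic.ne_zero, ?_⟩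
  have h5 : φ.comp (Polynomial.coeToPowerSeries.ringHom) =
      Polynomial.eval₂RingHom (φ.comp PowerSeries.C) (φ PowerSeries.X) := by
    apply Polynomial.ringHom_ext
    · intro a
      rw [RingHom.comp_apply, Polynomial.coeToPowerSeries.ringHom_apply, Polynomial.coe_C]
      simp
    · rw [RingHom.comp_apply, Polynomial.coeToPowerSeries.ringHom_apply, Polynomial.coe_X]
      simp
  have h6 := RingHom.congr_fun h5 P
  rw [RingHom.comp_apply, Polynomial.coeToPowerSeries.ringHom_apply, h4] at h6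
  exact h6.symm

end SubstInj

theorem subst_inj {𝔮 : Ideal (RR p (Fin 3))} {t : RR p (Fin 3)} (h : IsCurve 𝔮 t)
    (hinf : (zer 𝔮).Infinite) {ι : RR p (Fin 3) →+* L} (hι : IsFF 𝔮 ι) {D : L → L} (hD : IsDer D)
    (hc : IsCont ι D) {i : Fin 3} (hi : D (ι (X i)) ≠ 0) {f : PowerSeries ℤ_[p]}
    (hf : ι (PowerSeries.subst (X i : RR p (Fin 3)) f) = 0) : f = 0 := by
  by_contra hf0
  have hX : constantCoeff (X i : RR p (Fin 3)) = 0 := constantCoeff_X i
  have hp' : ι (p : RR p (Fin 3)) ≠ 0 := fun h0 => h.p_notMem ((hι.ker _).mp h0)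
  have hcz : CharZero L := hι.charZero h.p_notMem
  obtain ⟨P, hP, hP0⟩ := SubstInj.exists_poly (ι.comp (sb hX)) (by
    rw [map_natCast]
    rw [map_natCast] at hp'
    exact hp') hf0 (by
    rw [RingHom.comp_apply, sb_apply]
    exact hf)
  have e1 : (ι.comp (sb hX)).comp PowerSeries.C = ι.comp (MvPowerSeries.C : ℤ_[p] →+* RR p (Fin 3)) := by
    ext a
    rw [RingHom.comp_apply, RingHom.comp_apply, sb_C]
    rfl
  rw [e1, RingHom.comp_apply, sb_X] at hP0
  have hinj : Function.Injective (ι.comp (MvPowerSeries.C : ℤ_[p] →+* RR p (Fin 3))) := by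
    rw [injective_iff_map_eq_zero]
    intro a ha
    by_contra ha0
    have h1 := PadicInt.unitCoeff_spec ha0
    rw [h1, map_mul, map_pow, map_natCast] at ha
    rcases mul_eq_zero.mp ha with h2 | h2
    · exact (((PadicInt.unitCoeff ha0).isUnit.map
        (ι.comp (MvPowerSeries.C : ℤ_[p] →+* RR p (Fin 3)))).ne_zero) h2
    · rw [map_natCast] at hp'
      exact hp' (eq_zero_of_pow_eq_zero h2)
  exact hi (DerivExt.along_eq_zero _ (RingHom.id L) hinj D hD.1 hD.2 (fun a => hc.C a) _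
    P.natDegree P hP le_rfl hP0)

end Pool.Agent.ZPB
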