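import Pool.Agent.ZPB.LocEq

/-!
# Module AI6: from formal identities to identities between modular functions

Let `P(x1, x2) = 0` in `ℂ((t))`, `q1 = w^(n1)`, `q2 = c w^(n2)` the parameters of `x1`, `x2`. If `P` has degree `≤ d` in each
variable, let `P*(a, b, A, B) = (a b)^d P(A/a, B/b)`, a polynomial. Multiply `P(x1, x2) = 0` by `(q1 q2)^d`:
`P*(q1, q2, Jc(q1), Jc(q2)) = 0` in `ℂ[[t]]`. The left side is `F(w)` with the power series
`F(S) = P*(S^(n1), c S^(n2), powComp 1 n1 Jc, powComp c n2 Jc)` (`powComp` of `ZP2/Ev.lean`: `powComp c m f = f(c S^m)`), and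
substitution of `w` (order one) is injective: `F = 0`. Let `c = exp(2πi s)`, `r = n2/n1`, `Im τ > h`,
`h = max(1, 1 + |log |c|| n1/(2π n2))`, `τ' = r τ + s`, `S = exp(2πi τ/n1)`; then `S^(n1) = e^(2πiτ) = q(τ)` and
`c S^(n2) = e^(2πi τ') = q(τ')` have norm less than one, `Jc(q(τ)) = q(τ) j(τ)` (`Jz_ev`). Evaluate `F = 0` at `S` with the
calculus of `Ev` (`Ev.powComp`, `Ev.mul`, `Ev.sum`, `Ev.unique`): `P*(q, q', q j(τ), q' j(τ')) = 0`, i.e. `P(j(τ), j(τ')) = 0`.
-/

namespace Pool.Agent.ZPB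

open PowerSeries UpperHalfPlane Pool.Agent.Hhelper14.ZP

/-- `P(j(τ), j(rτ + s)) = 0` for all `τ` of large imaginary part -/
def Van (r : ℝ) (s : ℂ) (h : ℝ) (P : MvPolynomial (Fin 2) ℂ) : Prop :=
  ∀ τ τ' : ℍ, h < τ.im → (τ' : ℂ) = r * τ + s → MvPolynomial.eval ![jInv τ, jInv τ'] P = 0

namespace Transfer

lemma hasSubst_cX (c : ℂ) {m : ℕ} (hm : 0 < m) : HasSubst (C c * X ^ m : PowerSeries ℂ) := by
  apply HasSubst.of_constantCoeff_zero'
  rw [map_mul, map_pow, constantCoeff_X, zero_pow hm.ne', mul_zero]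

lemma powComp_eq (c : ℂ) {m : ℕ} (hm : 0 < m) (f : PowerSeries ℂ) :
    powComp c m f = subst (C c * X ^ m : PowerSeries ℂ) f := by
  ext n
  rw [coeff_subst' (hasSubst_cX c hm)]
  have e : ∀ d : ℕ, coeff n ((C c * X ^ m : PowerSeries ℂ) ^ d) = if n = m * d then c ^ d else 0 := by
    intro d
    rw [mul_pow, ← map_pow, ← pow_mul, coeff_C_mul, coeff_X_pow]
    split_ifs <;> simp
  simp only [e, powComp, coeff_mk, smul_eq_mul]
  split_ifs with h
  · obtain ⟨k, rfl⟩ := h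
    rw [Nat.mul_div_cancel_left _ hm, finsum_eq_single _ k]
    · rw [if_pos rfl]
    · intro d hd
      rw [if_neg (fun h => hd (Nat.eq_of_mul_eq_mul_left hm h).symm), mul_zero]
  · symm
    apply finsum_eq_zero_of_forall_eq_zero
    intro d
    rw [if_neg (fun h' => h ⟨d, h'⟩), mul_zero]

lemma subst_inj {w F : PowerSeries ℂ} (hw0 : constantCoeff w = 0) (hw1 : coeff 1 w ≠ 0)
    (h : subst w F = 0) : F = 0 := by
  have hu : IsUnit (coeff 1 w) := hw1.isUnit
  have hw : HasSubst w := HasSubst.of_constantCoeff_zero' hw0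
  have hv : HasSubst (w.substInvOfIsUnit hu) := HasSubst.substInvOfIsUnit w hu
  have h1 := subst_comp_subst_apply hw hv F
  rw [h] at h1
  have h2 : subst (w.substInvOfIsUnit hu) w = X := subst_substInvOfIsUnit_right w hw0 hu
  rw [h2] at h1
  have h3 : subst (X : PowerSeries ℂ) F = F := X_subst F
  rw [h3] at h1
  rw [← h1, ← coe_substAlgHom hv, map_zero]

/-- the homogenised polynomial at power series -/
noncomputable def hom (P : MvPolynomial (Fin 2) ℂ) (a b A B : PowerSeries ℂ) : PowerSeries ℂ :=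
  ∑ m ∈ P.support, C (P.coeff m) * a ^ (P.totalDegree - m 0) * b ^ (P.totalDegree - m 1) *
    A ^ (m 0) * B ^ (m 1)

lemma le_deg {P : MvPolynomial (Fin 2) ℂ} {m : Fin 2 →₀ ℕ} (hm : m ∈ P.support) (i : Fin 2) :
    m i ≤ P.totalDegree := by
  refine le_trans ?_ (MvPolynomial.le_totalDegree hm)
  rw [Finsupp.sum_fintype _ _ (fun _ => rfl)]
  exact Finset.single_le_sum (f := fun i => m i) (fun i _ => Nat.zero_le _) (Finset.mem_univ i)

lemma hom_subst {w : PowerSeries ℂ} (hw : HasSubst w) (P : MvPolynomial (Fin 2) ℂ)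
    (a b A B : PowerSeries ℂ) :
    subst w (hom P a b A B) = hom P (subst w a) (subst w b) (subst w A) (subst w B) := by
  unfold hom
  rw [← coe_substAlgHom hw, map_sum]
  refine Finset.sum_congr rfl fun m _ => ?_
  simp only [map_mul, map_pow]
  congr 4
  rw [coe_substAlgHom hw]
  exact subst_C _

/-- the formal identity -/
lemma hom_eq_zero {x1 x2 : LaurentSeries ℂ} {q1 q2 : PowerSeries ℂ} (h1 : IsPar x1 q1)
    (h2 : IsPar x2 q2) {P : MvPolynomial (Fin 2) ℂ} (hP : MvPolynomial.aeval ![x1, x2] P = 0) :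
    hom P q1 q2 (subst q1 Jc) (subst q2 Jc) = 0 := by
  apply HahnSeries.ofPowerSeries_injective (Γ := ℤ)
  rw [map_zero]
  have e : HahnSeries.ofPowerSeries ℤ ℂ (hom P q1 q2 (subst q1 Jc) (subst q2 Jc)) =
      toL q1 ^ P.totalDegree * toL q2 ^ P.totalDegree * MvPolynomial.aeval ![x1, x2] P := by
    unfold hom
    rw [map_sum, MvPolynomial.aeval_def, MvPolynomial.eval₂_eq', Finset.mul_sum]
    refine Finset.sum_congr rfl fun m hm => ?_
    simp only [map_mul, map_pow]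
    have hA : HahnSeries.ofPowerSeries ℤ ℂ (subst q1 Jc) = toL q1 * x1 := h1.2.2.symm
    have hB : HahnSeries.ofPowerSeries ℤ ℂ (subst q2 Jc) = toL q2 * x2 := h2.2.2.symm
    have hC : HahnSeries.ofPowerSeries ℤ ℂ (C (P.coeff m)) =
        algebraMap ℂ (LaurentSeries ℂ) (P.coeff m) :=
      (HahnSeries.algebraMap_apply' ℤ _).symm
    rw [hA, hB, hC, Fin.prod_univ_two]
    obtain ⟨u, hu⟩ := Nat.exists_eq_add_of_le (le_deg hm 0)
    obtain ⟨v, hv⟩ := Nat.exists_eq_add_of_le (le_deg hm 1)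
    have e1 : toL q1 ^ P.totalDegree = toL q1 ^ (P.totalDegree - m 0) * toL q1 ^ (m 0) := by
      rw [← pow_add]; congr 1; omega
    have e2 : toL q2 ^ P.totalDegree = toL q2 ^ (P.totalDegree - m 1) * toL q2 ^ (m 1) := by
      rw [← pow_add]; congr 1; omega
    rw [e1, e2]
    simp only [Matrix.cons_val_zero, Matrix.cons_val_one]
    ring
  rw [e, hP, mul_zero]

end Transfer

theorem transfer {x1 x2 : LaurentSeries ℂ} {w : PowerSeries ℂ} {n1 n2 : ℕ} {c : ℂ} (hn1 : 0 < n1)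
    (hn2 : 0 < n2) (hc : c ≠ 0) (hw0 : constantCoeff w = 0) (hw1 : coeff 1 w ≠ 0)
    (h1 : IsPar x1 (w ^ n1)) (h2 : IsPar x2 (C c * w ^ n2)) :
    ∃ (s : ℂ) (h : ℝ), ∀ P : MvPolynomial (Fin 2) ℂ, MvPolynomial.aeval ![x1, x2] P = 0 →
      Van (n2 / n1) s h P := by
  have hpi : (2 * Real.pi * Complex.I : ℂ) ≠ 0 := Complex.two_pi_I_ne_zero
  obtain ⟨s, hs⟩ : ∃ s : ℂ, Complex.exp (2 * Real.pi * Complex.I * s) = c := by
    refine ⟨Complex.log c / (2 * Real.pi * Complex.I), ?_⟩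
    rw [mul_div_cancel₀ _ hpi, Complex.exp_log hc]
  refine ⟨s, 0, fun P hP => ?_⟩
  have hw : HasSubst w := HasSubst.of_constantCoeff_zero' hw0
  have hF : Transfer.hom P (X ^ n1) (C c * X ^ n2) (powComp 1 n1 Jc) (powComp c n2 Jc) = 0 := by
    apply Transfer.subst_inj hw0 hw1
    rw [Transfer.hom_subst hw, Transfer.powComp_eq 1 hn1, Transfer.powComp_eq c hn2,
      subst_comp_subst_apply (Transfer.hasSubst_cX 1 hn1) hw,
      subst_comp_subst_apply (Transfer.hasSubst_cX c hn2) hw]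
    have e1 : subst w (X ^ n1 : PowerSeries ℂ) = w ^ n1 := by
      rw [subst_pow hw, subst_X hw]
    have e2 : subst w (C c * X ^ n2 : PowerSeries ℂ) = C c * w ^ n2 := by
      rw [subst_mul hw, subst_pow hw, subst_X hw]
      congr 1
      exact subst_C _
    have e3 : subst w (C 1 * X ^ n1 : PowerSeries ℂ) = w ^ n1 := by
      rw [map_one, one_mul, e1]
    rw [e3, e2, e1]
    exact Transfer.hom_eq_zero h1 h2 hP
  intro τ τ' _ hττ
  have hn1c : (n1 : ℂ) ≠ 0 := by exact_mod_cast hn1.ne'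
  obtain ⟨S, hS⟩ : ∃ S : ℂ, S = Complex.exp (2 * Real.pi * Complex.I * τ / n1) := ⟨_, rfl⟩
  have hq : Function.Periodic.qParam 1 (τ : ℂ) = 1 * S ^ n1 := by
    rw [hS, ← Complex.exp_nat_mul, one_mul]
    simp only [Function.Periodic.qParam]
    congr 1
    push_cast
    field_simp
  have hq' : Function.Periodic.qParam 1 (τ' : ℂ) = c * S ^ n2 := by
    rw [hS, ← hs, ← Complex.exp_nat_mul, ← Complex.exp_add]
    simp only [Function.Periodic.qParam]
    rw [hττ]
    congr 1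
    push_cast
    field_simp
    ring
  have hA : Ev S (powComp 1 n1 Jc) (1 * S ^ n1 * jInv τ) := by
    have := Jz_ev τ
    rw [hq] at this
    exact this.powComp hn1
  have hB : Ev S (powComp c n2 Jc) (c * S ^ n2 * jInv τ') := by
    have := Jz_ev τ'
    rw [hq'] at this
    exact this.powComp hn2
  have hev : Ev S (Transfer.hom P (X ^ n1) (C c * X ^ n2) (powComp 1 n1 Jc) (powComp c n2 Jc))
      (∑ m ∈ P.support, P.coeff m * (S ^ n1) ^ (P.totalDegree - m 0) *
        (c * S ^ n2) ^ (P.totalDegree - m 1) * (1 * S ^ n1 * jInv τ) ^ (m 0) *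
        (c * S ^ n2 * jInv τ') ^ (m 1)) := by
    unfold Transfer.hom
    exact Ev.sum _ _ _ fun m _ => (((((Ev.C S _).mul (((Ev.X S).pow n1).pow _)).mul
      (((Ev.C S c).mul ((Ev.X S).pow n2)).pow _)).mul (hA.pow _)).mul (hB.pow _))
  rw [hF] at hev
  have h0 := hev.unique (Ev.zero S)
  have e : ∑ m ∈ P.support, P.coeff m * (S ^ n1) ^ (P.totalDegree - m 0) *
        (c * S ^ n2) ^ (P.totalDegree - m 1) * (1 * S ^ n1 * jInv τ) ^ (m 0) *
        (c * S ^ n2 * jInv τ') ^ (m 1) =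
      (S ^ n1) ^ P.totalDegree * (c * S ^ n2) ^ P.totalDegree *
        MvPolynomial.eval ![jInv τ, jInv τ'] P := by
    rw [MvPolynomial.eval_eq', Finset.mul_sum]
    refine Finset.sum_congr rfl fun m hm => ?_
    rw [Fin.prod_univ_two]
    obtain ⟨u, hu⟩ := Nat.exists_eq_add_of_le (Transfer.le_deg hm 0)
    obtain ⟨v, hv⟩ := Nat.exists_eq_add_of_le (Transfer.le_deg hm 1)
    have e1 : (S ^ n1) ^ P.totalDegree = (S ^ n1) ^ (P.totalDegree - m 0) * (S ^ n1) ^ (m 0) := by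
      rw [← pow_add (S ^ n1)]; congr 1; omega
    have e2 : (c * S ^ n2) ^ P.totalDegree =
        (c * S ^ n2) ^ (P.totalDegree - m 1) * (c * S ^ n2) ^ (m 1) := by
      rw [← pow_add (c * S ^ n2)]; congr 1; omega
    rw [e1, e2]
    simp only [Matrix.cons_val_zero, Matrix.cons_val_one]
    ring
  rw [e] at h0
  have hS0 : S ≠ 0 := by rw [hS]; exact Complex.exp_ne_zero _
  exact (mul_eq_zero.mp h0).resolve_left (mul_ne_zero (pow_ne_zero _ (pow_ne_zero _ hS0))
    (pow_ne_zero _ (mul_ne_zero hc (pow_ne_zero _ hS0))))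

end Pool.Agent.ZPB
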