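import Pool.Agent.ZPB.EvVal

/-!
# Module W1: Weierstrass factorization over `ℂ_p`

Proof: after division by the `n`-th coefficient the power series has coefficients in the unit ball `O`
of `ℂ_p`, and all the coefficients of index `< n` lie in the ideal `I = (ϖ)`, `ϖ ≠ 0`, `‖ϖ‖ < 1`; `O` is
`I`-adically complete. Weierstrass division of `X^n` (Mathlib) gives a monic polynomial `P` of degree
`n`, with `P ≡ X^n` modulo `I`, and a unit `q` with `P = g q`. `ℂ_p` is algebraically closed, so `P` is a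
product of linear factors; the roots have norm `< 1`.
-/

namespace Pool.Agent.ZPB

variable {p : ℕ} [Fact p.Prime]

/-- the unit ball -/
def OO (p : ℕ) [Fact p.Prime] : Subring ℂ_[p] where
  carrier := {x | ‖x‖ ≤ 1}
  mul_mem' := fun {a b} ha hb => by
    rw [Set.mem_ofPred_eq] at ha hb ⊢
    rw [norm_mul]
    exact mul_le_one₀ ha (norm_nonneg _) hb
  one_mem' := by rw [Set.mem_ofPred_eq, norm_one]
  add_mem' := fun {a b} ha hb => (IsUltrametricDist.norm_add_le_max a b).trans (max_le ha hb)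
  zero_mem' := by rw [Set.mem_ofPred_eq, norm_zero]; exact zero_le_one
  neg_mem' := fun {a} ha => by rw [Set.mem_ofPred_eq, norm_neg]; exact ha

lemma mem_OO {x : ℂ_[p]} : x ∈ OO p ↔ ‖x‖ ≤ 1 := Iff.rfl

lemma OO_isUnit {x : OO p} (hx : ‖(x : ℂ_[p])‖ = 1) : IsUnit x := by
  have h0 : (x : ℂ_[p]) ≠ 0 := by
    intro h
    rw [h, norm_zero] at hx
    exact zero_ne_one hx
  refine IsUnit.of_mul_eq_one ⟨(x : ℂ_[p])⁻¹, by rw [mem_OO, norm_inv, hx, inv_one]⟩ ?_
  apply Subtype.ext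
  exact mul_inv_cancel₀ h0

lemma OO_mem_span {ϖ : OO p} (hϖ : ϖ ≠ 0) {x : OO p} (k : ℕ) :
    x ∈ Ideal.span {ϖ} ^ k ↔ ‖(x : ℂ_[p])‖ ≤ ‖(ϖ : ℂ_[p])‖ ^ k := by
  have h0 : (ϖ : ℂ_[p]) ≠ 0 := fun h => hϖ (Subtype.ext h)
  rw [Ideal.span_singleton_pow, Ideal.mem_span_singleton]
  constructor
  · rintro ⟨y, rfl⟩
    have : ‖((ϖ ^ k * y : OO p) : ℂ_[p])‖ = ‖(ϖ : ℂ_[p])‖ ^ k * ‖(y : ℂ_[p])‖ := by
      rw [← norm_pow, ← norm_mul]
      rfl
    rw [this]
    exact mul_le_of_le_one_right (pow_nonneg (norm_nonneg _) _) y.2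
  · intro h
    refine ⟨⟨(x : ℂ_[p]) / (ϖ : ℂ_[p]) ^ k, ?_⟩, ?_⟩
    · rw [mem_OO, norm_div, norm_pow]
      exact div_le_one_of_le₀ h (pow_nonneg (norm_nonneg _) _)
    · apply Subtype.ext
      change (x : ℂ_[p]) = (ϖ : ℂ_[p]) ^ k * ((x : ℂ_[p]) / (ϖ : ℂ_[p]) ^ k)
      field_simp

/-- The unit ball is complete for the topology defined by a principal ideal. -/
lemma OO_complete {ϖ : OO p} (hϖ : ϖ ≠ 0) (h1 : ‖(ϖ : ℂ_[p])‖ < 1) :
    IsAdicComplete (Ideal.span {ϖ}) (OO p) where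
  haus' x hx := by
    apply Subtype.ext
    change (x : ℂ_[p]) = 0
    rw [← norm_le_zero_iff]
    refine ge_of_tendsto' (tendsto_pow_atTop_nhds_zero_of_lt_one (norm_nonneg _) h1) fun k => ?_
    have := hx k
    rw [SModEq.zero, smul_eq_mul, Ideal.mul_top, OO_mem_span hϖ] at this
    exact this
  prec' x hx := by
    have hx' : ∀ {m n : ℕ}, m ≤ n → ‖(x m : ℂ_[p]) - x n‖ ≤ ‖(ϖ : ℂ_[p])‖ ^ m := by
      intro m n hmn
      have := hx hmn
      rw [SModEq.sub_mem, smul_eq_mul, Ideal.mul_top, OO_mem_span hϖ] at this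
      exact this
    have hcau : CauchySeq (fun n => (x n : ℂ_[p])) := by
      rw [Metric.cauchySeq_iff']
      intro ε hε
      obtain ⟨N, hN⟩ := exists_pow_lt_of_lt_one hε h1
      refine ⟨N, fun n hn => ?_⟩
      rw [dist_comm, dist_eq_norm]
      exact (hx' hn).trans_lt hN
    obtain ⟨L, hL⟩ := cauchySeq_tendsto_of_complete hcau
    have hL1 : ‖L‖ ≤ 1 := le_of_tendsto' hL.norm fun n => (x n).2
    refine ⟨⟨L, hL1⟩, fun n => ?_⟩
    rw [SModEq.sub_mem, smul_eq_mul, Ideal.mul_top, OO_mem_span hϖ]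
    change ‖(x n : ℂ_[p]) - L‖ ≤ ‖(ϖ : ℂ_[p])‖ ^ n
    refine le_of_tendsto (tendsto_const_nhds.sub hL).norm ?_
    filter_upwards [Filter.eventually_ge_atTop n] with m hm
    exact hx' hm

/-- The unit ball as coefficients. -/
lemma exists_unif {a : ℕ → ℂ_[p]} (n : ℕ) (ha : ∀ m < n, ‖a m‖ < 1) :
    ∃ ϖ : ℂ_[p], ϖ ≠ 0 ∧ ‖ϖ‖ < 1 ∧ ∀ m < n, ‖a m‖ ≤ ‖ϖ‖ := by
  induction n with
  | zero =>
    obtain ⟨ϖ, h0, h1⟩ := NormedField.exists_norm_lt_one ℂ_[p]
    exact ⟨ϖ, norm_pos_iff.1 h0, h1, fun m hm => absurd hm (Nat.not_lt_zero m)⟩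
  | succ n ih =>
    obtain ⟨ϖ, h0, h1, h2⟩ := ih (fun m hm => ha m (by omega))
    by_cases h : ‖a n‖ ≤ ‖ϖ‖
    · refine ⟨ϖ, h0, h1, fun m hm => ?_⟩
      rcases Nat.lt_succ_iff_lt_or_eq.1 hm with h3 | rfl
      · exact h2 m h3
      · exact h
    · push Not at h
      refine ⟨a n, ?_, ha n (by omega), fun m hm => ?_⟩
      · rintro h3
        rw [h3, norm_zero] at h
        exact absurd h (not_lt.2 (norm_nonneg _))
      · rcases Nat.lt_succ_iff_lt_or_eq.1 hm with h3 | rfl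
        · exact (h2 m h3).trans h.le
        · exact le_rfl

/-- Weierstrass preparation over the unit ball. -/
lemma OO_prep {g : PowerSeries (OO p)} {n : ℕ} {ϖ : OO p} (hϖ : ϖ ≠ 0) (h1 : ‖(ϖ : ℂ_[p])‖ < 1)
    (hn : PowerSeries.coeff n g = 1) (hlt : ∀ m < n, PowerSeries.coeff m g ∈ Ideal.span {ϖ}) :
    ∃ (r : Polynomial (OO p)) (v : PowerSeries (OO p)), r.degree < n ∧
      (∀ m, r.coeff m ∈ Ideal.span {ϖ}) ∧ IsUnit (PowerSeries.coeff 0 v) ∧
      g = (PowerSeries.X ^ n + (r : PowerSeries (OO p))) * v := by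
  set I := Ideal.span {ϖ} with hI
  have hcomp : IsAdicComplete I (OO p) := OO_complete hϖ h1
  have hItop : I ≠ ⊤ := by
    intro h
    have h2 : (1 : OO p) ∈ I ^ 1 := by rw [pow_one, h]; trivial
    rw [OO_mem_span hϖ, pow_one] at h2
    change ‖(1 : ℂ_[p])‖ ≤ _ at h2
    rw [norm_one] at h2
    exact absurd h1 (not_lt.2 h2)
  have hord : (g.map (Ideal.Quotient.mk I)).order = n := by
    rw [PowerSeries.order_eq_nat]
    constructor
    · rw [PowerSeries.coeff_map, hn, map_one]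
      have := Ideal.Quotient.nontrivial_iff.2 hItop
      exact one_ne_zero
    · intro m hm
      rw [PowerSeries.coeff_map, Ideal.Quotient.eq_zero_iff_mem]
      exact hlt m hm
  have hordn : (g.map (Ideal.Quotient.mk I)).order.toNat = n := by rw [hord]; rfl
  have hdiv : g.IsWeierstrassDivisorAt I := by
    rw [PowerSeries.IsWeierstrassDivisorAt, hordn, hn]
    exact isUnit_one
  have H := hdiv.isWeierstrassDivisionAt_div_mod (PowerSeries.X ^ n)
  set q := hdiv.div (PowerSeries.X ^ n)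
  set r := hdiv.mod (PowerSeries.X ^ n)
  have hdeg := H.degree_lt
  rw [hordn] at hdeg
  have heq := H.eq_mul_add
  have hr : ∀ m, r.coeff m ∈ I := by
    intro m
    rcases lt_or_ge m n with hm | hm
    · have h2 := H.coeff_f_sub_r_mem (i := m) (by rw [hordn]; exact hm)
      rw [map_sub, PowerSeries.coeff_X_pow, if_neg hm.ne, zero_sub, neg_mem_iff,
        Polynomial.coeff_coe] at h2
      exact h2
    · rw [Polynomial.coeff_eq_zero_of_degree_lt (hdeg.trans_le (by exact_mod_cast hm))]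
      exact I.zero_mem
  -- the quotient is a unit
  have hq : PowerSeries.coeff 0 q - 1 ∈ I := by
    have h2 := congrArg (fun F => PowerSeries.coeff n (F : PowerSeries (OO p))) heq
    simp only [map_add] at h2
    rw [PowerSeries.coeff_X_pow_self, PowerSeries.coeff_mul, Polynomial.coeff_coe] at h2
    have h3 : ∑ x ∈ Finset.HasAntidiagonal.antidiagonal n, PowerSeries.coeff x.1 g * PowerSeries.coeff x.2 q -
        PowerSeries.coeff 0 q ∈ I := by
      have h4 : PowerSeries.coeff 0 q =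
          ∑ x ∈ Finset.HasAntidiagonal.antidiagonal n, if x = (n, 0) then
            PowerSeries.coeff x.1 g * PowerSeries.coeff x.2 q else 0 := by
        rw [Finset.sum_ite_eq' , if_pos (by simp), hn, one_mul]
      rw [h4, ← Finset.sum_sub_distrib]
      refine I.sum_mem fun x hx => ?_
      split_ifs with h5
      · rw [sub_self]
        exact I.zero_mem
      · rw [sub_zero]
        refine I.mul_mem_right _ (hlt _ ?_)
        rw [Finset.HasAntidiagonal.mem_antidiagonal] at hx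
        rcases Nat.eq_zero_or_pos x.2 with h6 | h6
        · exact absurd (Prod.ext (by simpa [h6] using hx) h6) h5
        · omega
    have h5 : PowerSeries.coeff 0 q - 1 = -(∑ x ∈ Finset.HasAntidiagonal.antidiagonal n,
        PowerSeries.coeff x.1 g * PowerSeries.coeff x.2 q - PowerSeries.coeff 0 q) -
        r.coeff n := by
      rw [h2]
      ring
    rw [h5]
    exact I.sub_mem (I.neg_mem h3) (hr n)
  have hq1 : ‖((PowerSeries.coeff 0 q : OO p) : ℂ_[p])‖ = 1 := by
    have h2 : PowerSeries.coeff 0 q - 1 ∈ I ^ 1 := by rw [pow_one]; exact hq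
    rw [OO_mem_span hϖ, pow_one] at h2
    change ‖((PowerSeries.coeff 0 q : OO p) : ℂ_[p]) - 1‖ ≤ _ at h2
    have h3 : ‖((PowerSeries.coeff 0 q : OO p) : ℂ_[p]) - 1‖ < ‖(1 : ℂ_[p])‖ := by
      rw [norm_one]
      exact h2.trans_lt h1
    have h4 := IsUltrametricDist.norm_add_eq_max_of_norm_ne_norm h3.ne
    rw [sub_add_cancel, max_eq_right h3.le, norm_one] at h4
    exact h4
  have hqu : IsUnit (PowerSeries.coeff 0 q) := OO_isUnit hq1
  have hqU : IsUnit q := by
    rw [PowerSeries.isUnit_iff_constantCoeff]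
    simpa using hqu
  obtain ⟨w, hw⟩ := hqU
  refine ⟨-r, ((w⁻¹ : (PowerSeries (OO p))ˣ) : PowerSeries (OO p)), by rwa [Polynomial.degree_neg],
    fun m => ?_, ?_, ?_⟩
  · rw [Polynomial.coeff_neg]
    exact I.neg_mem (hr m)
  · have h2 : IsUnit ((w⁻¹ : (PowerSeries (OO p))ˣ) : PowerSeries (OO p)) := Units.isUnit _
    rw [PowerSeries.isUnit_iff_constantCoeff] at h2
    simpa using h2
  · rw [Polynomial.coe_neg, ← sub_eq_add_neg, heq, add_sub_cancel_right, ← hw, mul_assoc,
      Units.mul_inv, mul_one]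

/-- The roots of a monic polynomial with small lower coefficients. -/
lemma root_small {n : ℕ} {r : Polynomial ℂ_[p]} {ρ : ℝ} (hρ : ρ < 1) (hdeg : r.degree < n)
    (hr : ∀ m, ‖r.coeff m‖ ≤ ρ) {s : ℂ_[p]} (hs : s ^ n + r.eval s = 0) : ‖s‖ < 1 := by
  by_contra hge
  push Not at hge
  have hρ0 : 0 ≤ ρ := (norm_nonneg _).trans (hr 0)
  have h1 : ‖r.eval s‖ ≤ ρ * ‖s‖ ^ n := by
    have h2 : r.eval s = ∑ i ∈ Finset.range n, r.coeff i * s ^ i := by
      rcases eq_or_ne r 0 with rfl | hr0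
      · simp
      · refine Polynomial.eval_eq_sum_range' ?_ s
        exact (Polynomial.natDegree_lt_iff_degree_lt hr0).2 hdeg
    rw [h2]
    refine IsUltrametricDist.norm_sum_le_of_forall_le_of_nonneg
      (mul_nonneg hρ0 (pow_nonneg (norm_nonneg _) _)) fun i hi => ?_
    rw [norm_mul, norm_pow]
    exact mul_le_mul (hr i) (pow_le_pow_right₀ hge (Finset.mem_range.1 hi).le)
      (pow_nonneg (norm_nonneg _) _) hρ0
  have h3 : ‖s‖ ^ n = ‖r.eval s‖ := by
    rw [← norm_pow, eq_neg_of_add_eq_zero_left hs, norm_neg]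
  have h4 : 0 < ‖s‖ ^ n := pow_pos (zero_lt_one.trans_le hge) n
  rw [← h3] at h1
  nlinarith

theorem IsW.factor {f : PowerSeries ℂ_[p]} {n : ℕ} (h : IsW f n) :
    ∃ s : Fin n → ℂ_[p], (∀ i, ‖s i‖ < 1) ∧ ∃ u : PowerSeries ℂ_[p], IsW u 0 ∧
      f = (∏ i, (PowerSeries.X - PowerSeries.C (s i))) * u ∧
      ‖PowerSeries.coeff 0 u‖ = ‖PowerSeries.coeff n f‖ := by
  obtain ⟨hc, hle, hlt⟩ := h
  set c := PowerSeries.coeff n f with hcdef
  have hc0 : 0 < ‖c‖ := norm_pos_iff.2 hc
  have hnorm : ∀ m, ‖c⁻¹ * PowerSeries.coeff m f‖ = ‖PowerSeries.coeff m f‖ / ‖c‖ := by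
    intro m
    rw [norm_mul, norm_inv, mul_comm, div_eq_mul_inv]
  have hO : ∀ m, c⁻¹ * PowerSeries.coeff m f ∈ OO p := by
    intro m
    rw [mem_OO, hnorm, div_le_one hc0]
    exact hle m
  obtain ⟨ϖ, h0, h1, h2⟩ := exists_unif (a := fun m => c⁻¹ * PowerSeries.coeff m f) n (by
    intro m hm
    rw [hnorm, div_lt_one hc0]
    exact hlt m hm)
  let g : PowerSeries (OO p) := PowerSeries.mk fun m => ⟨c⁻¹ * PowerSeries.coeff m f, hO m⟩
  let π : OO p := ⟨ϖ, h1.le⟩
  have hπ : π ≠ 0 := fun h => h0 (congrArg Subtype.val h)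
  obtain ⟨r, v, hdeg, hr, hv, hg⟩ := OO_prep (g := g) (n := n) (ϖ := π) hπ h1 (by
      rw [PowerSeries.coeff_mk]
      apply Subtype.ext
      exact inv_mul_cancel₀ hc) (by
      intro m hm
      rw [← pow_one (Ideal.span {π}), OO_mem_span hπ, pow_one, PowerSeries.coeff_mk]
      exact h2 m hm)
  let ι : OO p →+* ℂ_[p] := (OO p).subtype
  have hιinj : Function.Injective ι := Subtype.val_injective
  let R : Polynomial ℂ_[p] := r.map ι
  let Q : Polynomial ℂ_[p] := Polynomial.X ^ n + R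
  have hRdeg : R.degree < n := (Polynomial.degree_map_le).trans_lt hdeg
  have hQm : Q.Monic := Polynomial.monic_X_pow_add hRdeg
  have hQdeg : Q.natDegree = n := by
    rw [Polynomial.natDegree_add_eq_left_of_degree_lt (by rwa [Polynomial.degree_X_pow]),
      Polynomial.natDegree_X_pow]
  have hQs : Q.Splits := IsAlgClosed.splits Q
  have hQr := hQs.eq_prod_roots_of_monic hQm
  have hcard : Q.roots.toList.length = n := by
    rw [Multiset.length_toList, ← hQs.natDegree_eq_card_roots, hQdeg]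
  let s : Fin n → ℂ_[p] := fun i => Q.roots.toList.get (i.cast hcard.symm)
  have hsroot : ∀ i, Q.eval (s i) = 0 := by
    intro i
    have h3 : s i ∈ Q.roots := by
      rw [← Multiset.mem_toList]
      exact List.get_mem _ _
    exact (Polynomial.mem_roots'.1 h3).2
  have hprod : Q = ∏ i, (Polynomial.X - Polynomial.C (s i)) := by
    have h3 : (∏ i, (Polynomial.X - Polynomial.C (s i)) : Polynomial ℂ_[p]) =
        (Q.roots.toList.map fun a => Polynomial.X - Polynomial.C a).prod := by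
      rw [← List.prod_ofFn]
      congr 1
      apply List.ext_get
      · simp [hcard]
      · intro k hk1 hk2
        simp [s]
    rw [h3]
    conv_lhs => rw [hQr]
    rw [← Multiset.prod_coe, ← Multiset.map_coe, Multiset.coe_toList]
  have hv1 : ‖((PowerSeries.coeff 0 v : OO p) : ℂ_[p])‖ = 1 := by
    obtain ⟨w, hw⟩ := hv.exists_right_inv
    have h3 : ((PowerSeries.coeff 0 v : OO p) : ℂ_[p]) * (w : ℂ_[p]) = 1 :=
      congrArg Subtype.val hw
    have h4 := congrArg norm h3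
    rw [norm_mul, norm_one] at h4
    have h5 : ‖((PowerSeries.coeff 0 v : OO p) : ℂ_[p])‖ ≤ 1 := (PowerSeries.coeff 0 v).2
    have h6 : ‖(w : ℂ_[p])‖ ≤ 1 := w.2
    have h7 := norm_nonneg ((PowerSeries.coeff 0 v : OO p) : ℂ_[p])
    nlinarith [norm_nonneg (w : ℂ_[p])]
  have hn0 : ∀ m, ‖PowerSeries.coeff m (PowerSeries.C c * PowerSeries.map ι v)‖ =
      ‖c‖ * ‖((PowerSeries.coeff m v : OO p) : ℂ_[p])‖ := by
    intro m
    rw [PowerSeries.coeff_C_mul, PowerSeries.coeff_map, norm_mul]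
    rfl
  refine ⟨s, fun i => ?_, PowerSeries.C c * PowerSeries.map ι v, ⟨?_, ?_, ?_⟩, ?_, ?_⟩
  · refine root_small (n := n) (r := R) (ρ := ‖ϖ‖) h1 hRdeg (fun m => ?_) ?_
    · have h3 := hr m
      rw [← pow_one (Ideal.span {π}), OO_mem_span hπ, pow_one] at h3
      rw [Polynomial.coeff_map]
      exact h3
    · have := hsroot i
      rw [Polynomial.eval_add, Polynomial.eval_pow, Polynomial.eval_X] at this
      exact this
  · rw [← norm_pos_iff, hn0 0, hv1, mul_one]
    exact hc0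
  · intro m
    rw [hn0 m, hn0 0, hv1, mul_one]
    exact mul_le_of_le_one_right hc0.le (PowerSeries.coeff m v).2
  · intro m hm
    exact absurd hm (Nat.not_lt_zero m)
  · have h3 : f = PowerSeries.C c * PowerSeries.map ι g := by
      ext m
      rw [PowerSeries.coeff_C_mul, PowerSeries.coeff_map, PowerSeries.coeff_mk]
      exact (mul_inv_cancel_left₀ hc _).symm
    have h4 : PowerSeries.map ι (PowerSeries.X ^ n + (r : PowerSeries (OO p))) =
        ∏ i, (PowerSeries.X - PowerSeries.C (s i)) := by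
      have h5 : (Q : PowerSeries ℂ_[p]) = ∏ i, (PowerSeries.X - PowerSeries.C (s i)) := by
        have h6 : (Q : PowerSeries ℂ_[p]) = Polynomial.coeToPowerSeries.ringHom Q :=
          Polynomial.coeToPowerSeries.ringHom_apply.symm
        rw [h6, hprod, map_prod]
        refine Finset.prod_congr rfl fun i _ => ?_
        rw [map_sub, Polynomial.coeToPowerSeries.ringHom_apply,
          Polynomial.coeToPowerSeries.ringHom_apply, Polynomial.coe_X, Polynomial.coe_C]
      rw [← h5, Polynomial.coe_add, Polynomial.coe_pow, Polynomial.coe_X, map_add, map_pow,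
        PowerSeries.map_X]
      congr 1
      ext m
      rw [PowerSeries.coeff_map, Polynomial.coeff_coe, Polynomial.coeff_coe, Polynomial.coeff_map]
    rw [h3, hg, map_mul, h4]
    ring
  · rw [hn0 0, hv1, mul_one]

end Pool.Agent.ZPB
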