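import Pool.Agent.ZPB.WFactor

/-!
# Module W2: consequences of the Weierstrass factorization

Let `f = ∏ (X - s_i) u` as in `IsW.factor`, `c = ‖coeff n f‖ = ‖coeff 0 u‖`; `‖val u S‖ = c` for all
`‖S‖ < 1`, hence `‖val f S‖ = c ∏ ‖S - s_i‖`.

Gauss norm: for `0 ≤ r ≤ 1`, `‖coeff m f‖ r^m ≤ c ∏ max(r, ‖s_i‖)` for all `m` (submultiplicativity of
`sup_m ‖a_m‖ r^m`; the factor `X - s_i` has norm `max(r, ‖s_i‖)`, `u` has norm `≤ c`).

`pigeon`: let `‖S‖ = r` and `‖val f S‖ ≤ ε G`, `G ≤ ‖coeff m f‖ r^m`, `ε < 1`. Then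
`∏ ‖S - s_i‖ ≤ ε ∏ max(r, ‖s_i‖)` (`G > 0` or trivial), each factor satisfies
`‖S - s_i‖ ≤ max(r, ‖s_i‖)`, so for some `i`: `‖S - s_i‖^n ≤ ε max(r, ‖s_i‖)^n` (`n ≥ 1` because `ε < 1`),
in particular `‖S - s_i‖ < max(r, ‖s_i‖)`, hence `‖s_i‖ = r`. Two of `n + 1` points get the same `i`;
ultrametric inequality.
-/

namespace Pool.Agent.ZPB

variable {p : ℕ} [Fact p.Prime]

open Finset in
lemma bdd_X : Bdd (PowerSeries.X : PowerSeries ℂ_[p]) := by
  refine ⟨1, fun n => ?_⟩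
  rw [PowerSeries.coeff_X]
  split_ifs <;> simp

lemma bdd_XC (s : ℂ_[p]) : Bdd (PowerSeries.X - PowerSeries.C s : PowerSeries ℂ_[p]) := by
  rw [sub_eq_add_neg, ← map_neg]
  exact bdd_X.add (Bdd.C _)

lemma val_XC (s : ℂ_[p]) {S : ℂ_[p]} (hS : ‖S‖ < 1) :
    val (PowerSeries.X - PowerSeries.C s) S = S - s := by
  rw [sub_eq_add_neg, ← map_neg, val_add bdd_X (Bdd.C _) hS, val_X, val_C, sub_eq_add_neg]

lemma bdd_prod {ι : Type} (T : Finset ι) (s : ι → ℂ_[p]) :
    Bdd (∏ i ∈ T, (PowerSeries.X - PowerSeries.C (s i)) : PowerSeries ℂ_[p]) := by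
  classical
  induction T using Finset.induction with
  | empty =>
    rw [Finset.prod_empty, ← map_one PowerSeries.C]
    exact Bdd.C 1
  | insert a T ha ih =>
    rw [Finset.prod_insert ha]
    exact (bdd_XC _).mul ih

lemma val_prod {ι : Type} (T : Finset ι) (s : ι → ℂ_[p]) {S : ℂ_[p]} (hS : ‖S‖ < 1) :
    val (∏ i ∈ T, (PowerSeries.X - PowerSeries.C (s i))) S = ∏ i ∈ T, (S - s i) := by
  classical
  induction T using Finset.induction with
  | empty =>
    rw [Finset.prod_empty, Finset.prod_empty, ← map_one PowerSeries.C, val_C]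
  | insert a T ha ih =>
    rw [Finset.prod_insert ha, Finset.prod_insert ha, val_mul (bdd_XC _) (bdd_prod T s) hS,
      val_XC _ hS, ih]

/-- a power series of Weierstrass degree zero has constant norm -/
lemma norm_val_unit {u : PowerSeries ℂ_[p]} (h : IsW u 0) {S : ℂ_[p]} (hS : ‖S‖ < 1) :
    ‖val u S‖ = ‖PowerSeries.coeff 0 u‖ := by
  have hc : 0 < ‖PowerSeries.coeff 0 u‖ := norm_pos_iff.2 h.1
  set g : PowerSeries ℂ_[p] := PowerSeries.mk fun n => PowerSeries.coeff (n + 1) u with hg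
  have hgb : ∀ n, ‖PowerSeries.coeff n g‖ ≤ ‖PowerSeries.coeff 0 u‖ := by
    intro n
    rw [hg, PowerSeries.coeff_mk]
    exact h.2.1 _
  have hgB : Bdd g := ⟨_, hgb⟩
  have hu : u = PowerSeries.X * g + PowerSeries.C (PowerSeries.coeff 0 u) := by
    conv_lhs => rw [PowerSeries.eq_X_mul_shift_add_const u]
    rw [PowerSeries.coeff_zero_eq_constantCoeff_apply]
  have h1 : val u S = S * val g S + PowerSeries.coeff 0 u := by
    conv_lhs => rw [hu]
    rw [val_add (bdd_X.mul hgB) (Bdd.C _) hS, val_mul bdd_X hgB hS, val_X, val_C]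
  have h2 : ‖val g S‖ ≤ ‖PowerSeries.coeff 0 u‖ := by
    refine norm_val_le hS hgB ?_ le_rfl
    intro n
    calc ‖PowerSeries.coeff n g‖ * ‖S‖ ^ n ≤ ‖PowerSeries.coeff 0 u‖ * 1 := by
          refine mul_le_mul (hgb n) (pow_le_one₀ (norm_nonneg _) hS.le) (by positivity) hc.le
      _ = _ := mul_one _
  have h3 : ‖S * val g S‖ < ‖PowerSeries.coeff 0 u‖ := by
    rw [norm_mul]
    calc ‖S‖ * ‖val g S‖ ≤ ‖S‖ * ‖PowerSeries.coeff 0 u‖ := by gcongr
      _ < 1 * ‖PowerSeries.coeff 0 u‖ := by gcongr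
      _ = _ := one_mul _
  rw [h1, IsUltrametricDist.norm_add_eq_max_of_norm_ne_norm h3.ne, max_eq_right h3.le]

/-- the factorization, in the form used below -/
lemma IsW.fac {f : PowerSeries ℂ_[p]} {n : ℕ} (h : IsW f n) :
    ∃ s : Fin n → ℂ_[p], (∀ i, ‖s i‖ < 1) ∧
      (∀ S : ℂ_[p], ‖S‖ < 1 → ‖val f S‖ = ‖PowerSeries.coeff n f‖ * ∏ i, ‖S - s i‖) ∧
      ∀ r : ℝ, 0 ≤ r → r ≤ 1 → ∀ m, ‖PowerSeries.coeff m f‖ * r ^ m
        ≤ ‖PowerSeries.coeff n f‖ * ∏ i, max r ‖s i‖ := by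
  obtain ⟨s, hs, u, hu, hf, hc⟩ := h.factor
  refine ⟨s, hs, ?_, ?_⟩
  · intro S hS
    conv_lhs => rw [hf]
    rw [val_mul (bdd_prod _ _) hu.bdd hS, val_prod _ _ hS, norm_mul, norm_val_unit hu hS, hc,
      norm_prod, mul_comm]
  · intro r hr0 hr1
    have hmul : ∀ (F G : PowerSeries ℂ_[p]) (A B : ℝ), 0 ≤ A → 0 ≤ B →
        (∀ m, ‖PowerSeries.coeff m F‖ * r ^ m ≤ A) → (∀ m, ‖PowerSeries.coeff m G‖ * r ^ m ≤ B) →
        ∀ m, ‖PowerSeries.coeff m (F * G)‖ * r ^ m ≤ A * B := by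
      intro F G A B hA hB hF hG m
      rw [PowerSeries.coeff_mul]
      obtain ⟨q, hq, hqm⟩ := IsUltrametricDist.exists_norm_finsetSum_le_of_nonempty
        (t := Finset.HasAntidiagonal.antidiagonal m) ⟨(0, m), by simp⟩
        (fun q => PowerSeries.coeff q.1 F * PowerSeries.coeff q.2 G)
      have hq' : q.1 + q.2 = m := Finset.HasAntidiagonal.mem_antidiagonal.1 hq
      calc _ ≤ ‖PowerSeries.coeff q.1 F * PowerSeries.coeff q.2 G‖ * r ^ m := by
            gcongr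
        _ = (‖PowerSeries.coeff q.1 F‖ * r ^ q.1) * (‖PowerSeries.coeff q.2 G‖ * r ^ q.2) := by
            rw [norm_mul, ← hq', pow_add]
            ring
        _ ≤ A * B := mul_le_mul (hF _) (hG _) (by positivity) hA
    have hX : ∀ i, ∀ m, ‖PowerSeries.coeff m (PowerSeries.X - PowerSeries.C (s i) :
        PowerSeries ℂ_[p])‖ * r ^ m ≤ max r ‖s i‖ := by
      intro i m
      rw [map_sub, PowerSeries.coeff_X, PowerSeries.coeff_C]
      rcases m with _ | _ | m
      · simp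
      · simp
      · simp only [Nat.add_eq_right, Nat.add_eq_zero_iff, one_ne_zero, and_false, if_false,
          sub_zero]
        rw [norm_zero, zero_mul]
        exact hr0.trans (le_max_left _ _)
    have hprod : ∀ T : Finset (Fin n), ∀ m, ‖PowerSeries.coeff m
        (∏ i ∈ T, (PowerSeries.X - PowerSeries.C (s i)) : PowerSeries ℂ_[p])‖ * r ^ m
        ≤ ∏ i ∈ T, max r ‖s i‖ := by
      intro T
      induction T using Finset.induction with
      | empty =>
        intro m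
        rw [Finset.prod_empty, Finset.prod_empty, PowerSeries.coeff_one]
        split_ifs with hm
        · rw [hm]
          simp
        · simp
      | insert a T ha ih =>
        rw [Finset.prod_insert ha, Finset.prod_insert ha]
        refine hmul _ _ _ _ (hr0.trans (le_max_left _ _)) ?_ (hX a) ih
        exact Finset.prod_nonneg fun i _ => hr0.trans (le_max_left _ _)
    intro m
    conv_lhs => rw [hf]
    rw [mul_comm ‖PowerSeries.coeff n f‖, ← hc]
    refine hmul _ _ _ _ ?_ (norm_nonneg _) (hprod _) ?_ m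
    · exact Finset.prod_nonneg fun i _ => hr0.trans (le_max_left _ _)
    · intro m
      calc ‖PowerSeries.coeff m u‖ * r ^ m ≤ ‖PowerSeries.coeff 0 u‖ * 1 :=
            mul_le_mul (hu.2.1 m) (pow_le_one₀ hr0 hr1) (by positivity) (norm_nonneg _)
        _ = _ := mul_one _

theorem IsW.finite_zeros {f : PowerSeries ℂ_[p]} {n : ℕ} (h : IsW f n) (Z : Finset ℂ_[p])
    (hZ : ∀ s ∈ Z, ‖s‖ < 1 ∧ val f s = 0) : Z.card ≤ n := by
  obtain ⟨s, hs, hv, _⟩ := h.fac
  have hc : 0 < ‖PowerSeries.coeff n f‖ := norm_pos_iff.2 h.1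
  classical
  have h1 : Z ⊆ Finset.univ.image s := by
    intro S hS
    obtain ⟨h2, h3⟩ := hZ S hS
    have h4 := hv S h2
    rw [h3, norm_zero] at h4
    rcases mul_eq_zero.1 h4.symm with h5 | h5
    · exact absurd h5 hc.ne'
    · obtain ⟨i, _, hi⟩ := Finset.prod_eq_zero_iff.1 h5
      rw [Finset.mem_image]
      exact ⟨i, Finset.mem_univ _, (sub_eq_zero.1 (norm_eq_zero.1 hi)).symm⟩
  refine (Finset.card_le_card h1).trans (Finset.card_image_le.trans ?_)
  rw [Finset.card_univ, Fintype.card_fin]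

theorem IsW.pigeon {f : PowerSeries ℂ_[p]} {n : ℕ} (h : IsW f n) {r ε : ℝ} (hr0 : 0 < r)
    (hr1 : r < 1) (hε0 : 0 ≤ ε) (hε1 : ε < 1) (m : ℕ) (S : Fin (n + 1) → ℂ_[p]) (hS : ∀ a, ‖S a‖ = r)
    {G : ℝ} (hG0 : 0 < G) (hG : G ≤ ‖PowerSeries.coeff m f‖ * r ^ m)
    (hv : ∀ a, ‖val f (S a)‖ ≤ ε * G) : ∃ a b, a ≠ b ∧ ‖S a - S b‖ ^ n ≤ ε * r ^ n := by
  obtain ⟨s, hs, hval, hgauss⟩ := h.fac
  have hc : 0 < ‖PowerSeries.coeff n f‖ := norm_pos_iff.2 h.1
  have hmaxpos : ∀ i, 0 < max r ‖s i‖ := fun i => lt_of_lt_of_le hr0 (le_max_left _ _)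
  have key : ∀ a, ∃ i, ‖S a - s i‖ ^ n ≤ ε * r ^ n ∧ 0 < n := by
    intro a
    have hSa : ‖S a‖ < 1 := by rw [hS]; exact hr1
    have h1 : ‖PowerSeries.coeff n f‖ * ∏ i, ‖S a - s i‖
        ≤ ε * (‖PowerSeries.coeff n f‖ * ∏ i, max r ‖s i‖) := by
      rw [← hval _ hSa]
      refine (hv a).trans ?_
      exact mul_le_mul_of_nonneg_left (hG.trans (hgauss r hr0.le hr1.le m)) hε0
    have hPpos : 0 < ∏ i, max r ‖s i‖ := Finset.prod_pos fun i _ => hmaxpos i
    have h2 : ∏ i, (‖S a - s i‖ / max r ‖s i‖) ≤ ε := by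
      rw [Finset.prod_div_distrib, div_le_iff₀ hPpos]
      have h3 : ‖PowerSeries.coeff n f‖ * ∏ i, ‖S a - s i‖
        ≤ ‖PowerSeries.coeff n f‖ * (ε * ∏ i, max r ‖s i‖) := by
        calc _ ≤ _ := h1
          _ = _ := by ring
      exact le_of_mul_le_mul_left h3 hc
    have hn : 0 < n := by
      rcases Nat.eq_zero_or_pos n with h0 | h0
      · exfalso
        subst h0
        rw [Finset.univ_eq_empty, Finset.prod_empty] at h2
        linarith
      · exact h0
    have : Nonempty (Fin n) := ⟨⟨0, hn⟩⟩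
    obtain ⟨i, _, hi⟩ := Finset.exists_min_image (Finset.univ : Finset (Fin n))
      (fun i => ‖S a - s i‖ / max r ‖s i‖) Finset.univ_nonempty
    have h4 : (‖S a - s i‖ / max r ‖s i‖) ^ n ≤ ε := by
      refine le_trans ?_ h2
      have h5 : ∏ _j : Fin n, (‖S a - s i‖ / max r ‖s i‖)
          ≤ ∏ j, (‖S a - s j‖ / max r ‖s j‖) :=
        Finset.prod_le_prod (fun j _ => by positivity) (fun j hj => hi j hj)
      rwa [Finset.prod_const, Finset.card_univ, Fintype.card_fin] at h5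
    have h6 : ‖S a - s i‖ < max r ‖s i‖ := by
      by_contra hcon
      push Not at hcon
      have h7 : 1 ≤ ‖S a - s i‖ / max r ‖s i‖ := (one_le_div (hmaxpos i)).2 hcon
      have h8 := one_le_pow₀ (n := n) h7
      linarith
    have h9 : ‖s i‖ = r := by
      by_contra hne
      have h10 : ‖S a - s i‖ = max ‖S a‖ ‖s i‖ := by
        rw [sub_eq_add_neg]
        rw [IsUltrametricDist.norm_add_eq_max_of_norm_ne_norm, norm_neg]
        rw [norm_neg, hS]
        exact fun h => hne h.symm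
      rw [h10, hS] at h6
      exact lt_irrefl _ h6
    rw [h9, max_self, div_pow, div_le_iff₀ (by positivity)] at h4
    exact ⟨i, h4, hn⟩
  choose i hi using key
  obtain ⟨a, b, hab, hiab⟩ := Fintype.exists_ne_map_eq_of_card_lt i (by simp)
  refine ⟨a, b, hab, ?_⟩
  have h1 : ‖S a - S b‖ ≤ max ‖S a - s (i a)‖ ‖S b - s (i a)‖ := by
    have h2 : S a - S b = (S a - s (i a)) + -(S b - s (i a)) := by ring
    rw [h2]
    refine (IsUltrametricDist.norm_add_le_max _ _).trans ?_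
    rw [norm_neg]
  rcases le_total ‖S a - s (i a)‖ ‖S b - s (i a)‖ with h3 | h3
  · rw [max_eq_right h3] at h1
    refine (pow_le_pow_left₀ (norm_nonneg _) h1 n).trans ?_
    rw [hiab]
    exact (hi b).1
  · rw [max_eq_left h3] at h1
    exact (pow_le_pow_left₀ (norm_nonneg _) h1 n).trans (hi a).1

/-- if `val f (S k) → 0` then a subsequence of `S k` converges to a point of the open unit disc -/
theorem IsW.exists_limit {f : PowerSeries ℂ_[p]} {n : ℕ} (h : IsW f n) (S : ℕ → ℂ_[p])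
    (hS : ∀ k, ‖S k‖ < 1) (hv : Filter.Tendsto (fun k => val f (S k)) Filter.atTop (nhds 0)) :
    ∃ s : ℂ_[p], ‖s‖ < 1 ∧ ∃ φ : ℕ → ℕ, StrictMono φ ∧
      Filter.Tendsto (fun k => S (φ k)) Filter.atTop (nhds s) := by
  obtain ⟨s, hs, hval, _⟩ := h.fac
  have hc : 0 < ‖PowerSeries.coeff n f‖ := norm_pos_iff.2 h.1
  have h1 : Filter.Tendsto (fun k => ∏ i, ‖S k - s i‖) Filter.atTop (nhds 0) := by
    have h2 : (fun k => ∏ i, ‖S k - s i‖) = fun k => ‖PowerSeries.coeff n f‖⁻¹ * ‖val f (S k)‖ := by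
      funext k
      rw [hval _ (hS k)]
      field_simp
    rw [h2]
    have h3 := (hv.norm).const_mul ‖PowerSeries.coeff n f‖⁻¹
    simpa using h3
  have hn : 0 < n := by
    rcases Nat.eq_zero_or_pos n with h0 | h0
    · exfalso
      subst h0
      simp only [Finset.univ_eq_empty, Finset.prod_empty] at h1
      exact one_ne_zero (tendsto_nhds_unique tendsto_const_nhds h1)
    · exact h0
  have : Nonempty (Fin n) := ⟨⟨0, hn⟩⟩
  have key : ∀ k, ∃ i, ‖S k - s i‖ ^ n ≤ ∏ i, ‖S k - s i‖ := by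
    intro k
    obtain ⟨i, _, hi⟩ := Finset.exists_min_image (Finset.univ : Finset (Fin n))
      (fun i => ‖S k - s i‖) Finset.univ_nonempty
    refine ⟨i, ?_⟩
    have h5 : ∏ _j : Fin n, ‖S k - s i‖ ≤ ∏ j, ‖S k - s j‖ :=
      Finset.prod_le_prod (fun j _ => norm_nonneg _) (fun j hj => hi j hj)
    rwa [Finset.prod_const, Finset.card_univ, Fintype.card_fin] at h5
  choose i hi using key
  have h6 : ∃ i₀, ∃ᶠ k in Filter.atTop, i k = i₀ := by
    by_contra hcon
    push Not at hcon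
    have h7 : ∀ i₀, ∀ᶠ k in Filter.atTop, i k ≠ i₀ := by
      intro i₀
      exact hcon i₀
    have h9 := Filter.eventually_all.2 h7
    obtain ⟨k, hk⟩ := h9.exists
    exact hk (i k) rfl
  obtain ⟨i₀, hi₀⟩ := h6
  obtain ⟨φ, hφ, hφi⟩ := Filter.extraction_of_frequently_atTop hi₀
  refine ⟨s i₀, hs i₀, φ, hφ, ?_⟩
  rw [tendsto_iff_norm_sub_tendsto_zero]
  have h7 : Filter.Tendsto (fun k => ‖S (φ k) - s i₀‖ ^ n) Filter.atTop (nhds 0) := by
    refine squeeze_zero (fun k => by positivity) (fun k => ?_) (h1.comp hφ.tendsto_atTop)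
    have h8 := hi (φ k)
    rw [hφi k] at h8
    exact h8
  have h8 := (Real.continuous_rpow_const (q := (1 / (n : ℝ))) (by positivity)).continuousAt.tendsto.comp h7
  have hn' : (n : ℝ) ≠ 0 := by positivity
  have h9 : (0 : ℝ) ^ (1 / (n : ℝ)) = 0 := Real.zero_rpow (by positivity)
  rw [h9] at h8
  refine h8.congr fun k => ?_
  simp only [Function.comp]
  rw [← Real.rpow_natCast, ← Real.rpow_mul (norm_nonneg _), mul_one_div_cancel hn', Real.rpow_one]

/-- if `‖val f (S k)‖` takes infinitely many values, then so does `‖S k - s‖` for some zero `s`. -/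
theorem IsW.exists_center {f : PowerSeries ℂ_[p]} {n : ℕ} (h : IsW f n) (S : ℕ → ℂ_[p])
    (hS : ∀ k, ‖S k‖ < 1) (hv : (Set.range fun k => ‖val f (S k)‖).Infinite) :
    ∃ s : ℂ_[p], ‖s‖ < 1 ∧ val f s = 0 ∧ (Set.range fun k => ‖S k - s‖).Infinite := by
  obtain ⟨s, hs, hval, _⟩ := h.fac
  have hc : 0 < ‖PowerSeries.coeff n f‖ := norm_pos_iff.2 h.1
  have h1 : ∃ i, (Set.range fun k => ‖S k - s i‖).Infinite := by
    by_contra hcon
    push Not at hcon
    have h2 : ∀ i, (Set.range fun k => ‖S k - s i‖).Finite := by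
      intro i
      have := hcon i
      simpa [Set.not_infinite] using this
    have h3 : (Set.pi Set.univ fun i : Fin n => Set.range fun k => ‖S k - s i‖).Finite :=
      Set.Finite.pi fun i => h2 i
    refine hv ((h3.image fun v : Fin n → ℝ => ‖PowerSeries.coeff n f‖ * ∏ i, v i).subset ?_)
    rintro _ ⟨k, rfl⟩
    refine ⟨fun i => ‖S k - s i‖, ?_, ?_⟩
    · intro i _
      exact ⟨k, rfl⟩
    · simp only
      rw [hval _ (hS k)]
  obtain ⟨i, hi⟩ := h1
  refine ⟨s i, hs i, ?_, hi⟩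
  have h2 := hval (s i) (hs i)
  rw [Finset.prod_eq_zero (Finset.mem_univ i) (by simp), mul_zero] at h2
  exact norm_eq_zero.1 h2

end Pool.Agent.ZPB
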